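import Mathlib

/-!
One step of the random sieve: exponential moments after removing one random class.
-/

namespace Pool.Agent.H532.RM

open Finset

/-- convexity: `exp (-θ X) ≤ 1 - X (1 - exp (-θ B)) / B` for `0 ≤ X ≤ B`. -/
lemma exp_chord (t X B : ℝ) (hB : 0 < B) (h0 : 0 ≤ X) (h1 : X ≤ B) :
    Real.exp (t * X) ≤ 1 + X * ((Real.exp (t * B) - 1) / B) := by
  have ha : (0 : ℝ) ≤ 1 - X / B := by rw [sub_nonneg, div_le_one hB]; exact h1
  have hb : (0 : ℝ) ≤ X / B := by positivity
  have hab : (1 - X / B) + X / B = 1 := by ring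
  have hc := convexOn_exp.2 (Set.mem_univ (0 : ℝ)) (Set.mem_univ (t * B)) ha hb hab
  simp only [smul_eq_mul, mul_zero, zero_add, Real.exp_zero, mul_one] at hc
  have e1 : X / B * (t * B) = t * X := by field_simp
  rw [e1] at hc
  calc Real.exp (t * X) ≤ 1 - X / B + X / B * Real.exp (t * B) := hc
    _ = 1 + X * ((Real.exp (t * B) - 1) / B) := by field_simp; ring

lemma one_sub_exp_neg_ge (t : ℝ) (ht : 0 ≤ t) : t - t ^ 2 / 2 ≤ 1 - Real.exp (-t) := by
  have h : Real.exp (-t) ≤ 1 - t + t ^ 2 / 2 := by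
    have h2 := Real.quadratic_le_exp_of_nonneg ht
    rw [Real.exp_neg]
    have hpos : 0 < Real.exp t := Real.exp_pos t
    rw [inv_le_comm₀ hpos (by nlinarith [sq_nonneg (t - 1)])]
    refine le_trans ?_ h2
    rw [inv_le_iff_one_le_mul₀ (by nlinarith [sq_nonneg (t - 1)])]
    nlinarith [sq_nonneg t, sq_nonneg (t ^ 2)]
  linarith

lemma exp_neg_le_half {t : ℝ} (ht : 0 ≤ t) (ht1 : t ≤ 1) : Real.exp (-t) ≤ 1 - t / 2 := by
  have := one_sub_exp_neg_ge t ht
  nlinarith

/-- One step, upper exponential moment. -/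
lemma step_upper (p : ℕ) (hp : 0 < p) (κ N θ B : ℝ) (hκ0 : 0 ≤ κ) (hκ : 2 * κ ≤ p) (hB : 0 < B)
    (hθ : 0 ≤ θ) (hN : 0 ≤ N) (X : ℕ → ℝ) (h0 : ∀ r ∈ range p, 0 ≤ X r)
    (h1 : ∀ r ∈ range p, X r ≤ B) (hs : ∑ r ∈ range p, X r = κ * N) :
    ∑ r ∈ range p, Real.exp (θ * (N - X r)) ≤
      p * Real.exp (N * (θ * (1 - κ / p) * Real.exp (κ * θ * B / p))) := by
  have hp' : (0 : ℝ) < p := by exact_mod_cast hp
  have hc : ∀ r ∈ range p, Real.exp (θ * (N - X r)) ≤
      Real.exp (θ * N) * (1 - X r * ((1 - Real.exp (-(θ * B))) / B)) := by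
    intro r hr
    have := exp_chord (-θ) (X r) B hB (h0 r hr) (h1 r hr)
    have e : θ * (N - X r) = θ * N + (-θ) * X r := by ring
    rw [e, Real.exp_add]
    refine mul_le_mul_of_nonneg_left ?_ (Real.exp_pos _).le
    calc Real.exp (-θ * X r) ≤ 1 + X r * ((Real.exp (-θ * B) - 1) / B) := this
      _ = 1 - X r * ((1 - Real.exp (-(θ * B))) / B) := by
        rw [neg_mul]; ring
  calc ∑ r ∈ range p, Real.exp (θ * (N - X r)) ≤
      ∑ r ∈ range p, Real.exp (θ * N) * (1 - X r * ((1 - Real.exp (-(θ * B))) / B)) :=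
        sum_le_sum hc
    _ = Real.exp (θ * N) * (p - κ * N * ((1 - Real.exp (-(θ * B))) / B)) := by
        rw [← mul_sum, sum_sub_distrib, ← sum_mul, hs]; simp
    _ = p * (Real.exp (θ * N) * (1 - κ * N / p * ((1 - Real.exp (-(θ * B))) / B))) := by
        field_simp
    _ ≤ p * (Real.exp (θ * N) * Real.exp (-(κ * N / p * ((1 - Real.exp (-(θ * B))) / B)))) := by
        gcongr
        exact Real.one_sub_le_exp_neg _
    _ = p * Real.exp (θ * N - κ * N / p * ((1 - Real.exp (-(θ * B))) / B)) := by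
        rw [← Real.exp_add]; rfl
    _ ≤ p * Real.exp (N * (θ * (1 - κ / p) * Real.exp (κ * θ * B / p))) := by
        gcongr
        have h3 : θ - θ ^ 2 * B / 2 ≤ (1 - Real.exp (-(θ * B))) / B := by
          rw [le_div_iff₀ hB]
          have := one_sub_exp_neg_ge (θ * B) (by positivity)
          nlinarith
        have h4 : κ * N / p * (θ - θ ^ 2 * B / 2) ≤
            κ * N / p * ((1 - Real.exp (-(θ * B))) / B) := by gcongr
        have h5 : 1 + κ * θ * B / p ≤ Real.exp (κ * θ * B / p) := by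
          have := Real.add_one_le_exp (κ * θ * B / p); linarith
        have hk2 : κ / p ≤ 1 / 2 := by
          rw [div_le_iff₀ hp']; linarith
        have h6 : θ * (1 - κ / p) * (1 + κ * θ * B / p) ≤
            θ * (1 - κ / p) * Real.exp (κ * θ * B / p) := by
          gcongr
          have : 0 ≤ 1 - κ / p := by linarith
          positivity
        have h7 : N * (θ * (1 - κ / p) * (1 + κ * θ * B / p)) ≤
            N * (θ * (1 - κ / p) * Real.exp (κ * θ * B / p)) := by gcongr
        have h8 : θ * N - κ * N / p * (θ - θ ^ 2 * B / 2) ≤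
            N * (θ * (1 - κ / p) * (1 + κ * θ * B / p)) := by
          have e : N * (θ * (1 - κ / p) * (1 + κ * θ * B / p)) -
            (θ * N - κ * N / p * (θ - θ ^ 2 * B / 2)) =
              N * θ * (κ * θ * B / p) * (1 / 2 - κ / p) := by ring
          have : 0 ≤ N * θ * (κ * θ * B / p) * (1 / 2 - κ / p) := by
            have : 0 ≤ 1 / 2 - κ / p := by linarith
            positivity
          linarith
        linarith

/-- One step, lower exponential moment. -/
lemma step_lower (p : ℕ) (hp : 0 < p) (κ N θ B : ℝ) (hκ0 : 0 ≤ κ) (hκ : 4 * κ ≤ p) (hB : 0 < B)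
    (hθ : 0 ≤ θ) (hN : 0 ≤ N) (hθB : θ * B ≤ 1) (X : ℕ → ℝ) (h0 : ∀ r ∈ range p, 0 ≤ X r)
    (h1 : ∀ r ∈ range p, X r ≤ B) (hs : ∑ r ∈ range p, X r = κ * N) :
    ∑ r ∈ range p, Real.exp (-(θ * (N - X r))) ≤
      p * Real.exp (-(N * (θ * (1 - κ / p) * Real.exp (-(4 * κ * θ * B / p))))) := by
  have hp' : (0 : ℝ) < p := by exact_mod_cast hp
  have hc : ∀ r ∈ range p, Real.exp (-(θ * (N - X r))) ≤
      Real.exp (-(θ * N)) * (1 + X r * ((Real.exp (θ * B) - 1) / B)) := by
    intro r hr
    have := exp_chord θ (X r) B hB (h0 r hr) (h1 r hr)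
    have e : -(θ * (N - X r)) = -(θ * N) + θ * X r := by ring
    rw [e, Real.exp_add]
    exact mul_le_mul_of_nonneg_left this (Real.exp_pos _).le
  calc ∑ r ∈ range p, Real.exp (-(θ * (N - X r))) ≤
      ∑ r ∈ range p, Real.exp (-(θ * N)) * (1 + X r * ((Real.exp (θ * B) - 1) / B)) :=
        sum_le_sum hc
    _ = Real.exp (-(θ * N)) * (p + κ * N * ((Real.exp (θ * B) - 1) / B)) := by
        rw [← mul_sum, sum_add_distrib, ← sum_mul, hs]; simp
    _ = p * (Real.exp (-(θ * N)) * (1 + κ * N / p * ((Real.exp (θ * B) - 1) / B))) := by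
        field_simp
    _ ≤ p * (Real.exp (-(θ * N)) * Real.exp (κ * N / p * ((Real.exp (θ * B) - 1) / B))) := by
        gcongr
        have := Real.add_one_le_exp (κ * N / p * ((Real.exp (θ * B) - 1) / B))
        linarith
    _ = p * Real.exp (-(θ * N) + κ * N / p * ((Real.exp (θ * B) - 1) / B)) := by
        rw [← Real.exp_add]
    _ ≤ p * Real.exp (-(N * (θ * (1 - κ / p) * Real.exp (-(4 * κ * θ * B / p))))) := by
        gcongr
        have ht : Real.exp (θ * B) - 1 ≤ θ * B + (θ * B) ^ 2 := by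
          have h := Real.abs_exp_sub_one_sub_id_le (x := θ * B)
            (by rw [abs_of_nonneg (by positivity)]; exact hθB)
          have := (abs_le.1 h).2
          linarith
        have h3 : (Real.exp (θ * B) - 1) / B ≤ θ + θ ^ 2 * B := by
          rw [div_le_iff₀ hB]; nlinarith
        have h4 : κ * N / p * ((Real.exp (θ * B) - 1) / B) ≤ κ * N / p * (θ + θ ^ 2 * B) := by
          gcongr
        have hk2 : κ / p ≤ 1 / 4 := by
          rw [div_le_iff₀ hp']; linarith
        have hk0 : 0 ≤ κ / p := by positivity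
        have hs1 : 4 * κ * θ * B / p ≤ 1 := by
          have : 4 * κ * θ * B / p = 4 * (κ / p) * (θ * B) := by ring
          rw [this]
          have h0' : 0 ≤ θ * B := by positivity
          nlinarith
        have hs0 : 0 ≤ 4 * κ * θ * B / p := by positivity
        have h5 : Real.exp (-(4 * κ * θ * B / p)) ≤ 1 - (4 * κ * θ * B / p) / 2 := by
          exact exp_neg_le_half hs0 hs1
        have h6 : θ * (1 - κ / p) * Real.exp (-(4 * κ * θ * B / p)) ≤
            θ * (1 - κ / p) * (1 - (4 * κ * θ * B / p) / 2) := by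
          gcongr
          have : 0 ≤ 1 - κ / p := by linarith
          positivity
        have h7 : N * (θ * (1 - κ / p) * Real.exp (-(4 * κ * θ * B / p))) ≤
            N * (θ * (1 - κ / p) * (1 - (4 * κ * θ * B / p) / 2)) := by gcongr
        have h8 : N * (θ * (1 - κ / p) * (1 - (4 * κ * θ * B / p) / 2)) ≤
            θ * N - κ * N / p * (θ + θ ^ 2 * B) := by
          have e : θ * N - κ * N / p * (θ + θ ^ 2 * B) -
            N * (θ * (1 - κ / p) * (1 - (4 * κ * θ * B / p) / 2)) =
              N * θ * (κ * θ * B / p) * (1 - 2 * (κ / p)) := by ring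
          have : 0 ≤ N * θ * (κ * θ * B / p) * (1 - 2 * (κ / p)) := by
            have : 0 ≤ 1 - 2 * (κ / p) := by linarith
            positivity
          linarith
        linarith

end Pool.Agent.H532.RM
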