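import Mathlib
import Pool.Agent.H532.RM.Step

/-!
Exponential moments of the number of elements of a finite set which survive random classes.
-/

namespace Pool.Agent.H532.RM

open Finset MeasureTheory Function
open scoped ENNReal

variable {ι : Type}

/-- The elements `n` of `S` which survive the classes `a p`, `p ∈ P`; the finite set `Om n p` is
the set of those classes which remove `n`. -/
def surv (Om : ι → ℕ → Finset ℕ) (P : Finset ℕ) (a : ℕ → ℕ) (S : Finset ι) : Finset ι :=
  S.filter (fun n => ∀ p ∈ P, a p ∉ Om n p)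

/-- `∏ (1 - κ / q)` over `q ∈ P`. -/
noncomputable def rho (κ : ℕ) (P : Finset ℕ) : ℝ := ∏ q ∈ P, (1 - (κ : ℝ) / q)

/-- `∏ (1 - κ / q)` over `q ∈ P`, `q > p`. -/
noncomputable def uu (κ : ℕ) (P : Finset ℕ) (p : ℕ) : ℝ := rho κ (P.filter (fun q => p < q))

/-- The weighted sum of the bounds for the sizes of the classes. -/
noncomputable def KK (κ : ℕ) (B : ℕ → ℝ) (P : Finset ℕ) : ℝ :=
  ∑ p ∈ P, uu κ P p * (κ * B p / p)

/-- The measure `m` gives every class modulo `p` the weight `1 / p`. -/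
def UnifOn (m : Measure ℕ) (p : ℕ) : Prop :=
  ∀ g : ℕ → ℝ≥0∞, ∫⁻ r, g r ∂m = (∑ r ∈ range p, g r) / p

lemma rho_empty (κ : ℕ) : rho κ ∅ = 1 := by simp [rho]

lemma rho_insert (κ : ℕ) {p : ℕ} {P : Finset ℕ} (hp : p ∉ P) :
    rho κ (insert p P) = (1 - (κ : ℝ) / p) * rho κ P := by
  simp [rho, hp]

lemma rho_nonneg (κ : ℕ) (P : Finset ℕ) (h : ∀ p ∈ P, 0 < p ∧ 4 * κ ≤ p) : 0 ≤ rho κ P := by
  refine prod_nonneg fun p hp => ?_
  have h1 := (h p hp).1
  have h2 : (4 * κ : ℝ) ≤ p := by exact_mod_cast (h p hp).2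
  have h3 : (0 : ℝ) < p := by exact_mod_cast h1
  rw [sub_nonneg, div_le_one h3]
  have : (0 : ℝ) ≤ κ := by positivity
  linarith

lemma rho_le_one (κ : ℕ) (P : Finset ℕ) (h : ∀ p ∈ P, 0 < p ∧ 4 * κ ≤ p) : rho κ P ≤ 1 := by
  refine prod_le_one (fun p hp => ?_) (fun p hp => ?_)
  · have h2 : (4 * κ : ℝ) ≤ p := by exact_mod_cast (h p hp).2
    have h3 : (0 : ℝ) < p := by exact_mod_cast (h p hp).1
    rw [sub_nonneg, div_le_one h3]
    have : (0 : ℝ) ≤ κ := by positivity
    linarith
  · have : (0 : ℝ) ≤ (κ : ℝ) / p := by positivity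
    linarith

lemma rho_pos (κ : ℕ) (P : Finset ℕ) (h : ∀ p ∈ P, 0 < p ∧ 4 * κ ≤ p) : 0 < rho κ P := by
  refine prod_pos fun p hp => ?_
  have h2 : (4 * κ : ℝ) ≤ p := by exact_mod_cast (h p hp).2
  have h3 : (0 : ℝ) < p := by exact_mod_cast (h p hp).1
  rw [sub_pos, div_lt_one h3]
  have : (0 : ℝ) ≤ κ := by positivity
  rcases this.eq_or_lt with h0 | h0
  · rw [← h0]; exact h3
  · linarith

lemma uu_nonneg (κ : ℕ) (P : Finset ℕ) (h : ∀ p ∈ P, 0 < p ∧ 4 * κ ≤ p) (p : ℕ) :
    0 ≤ uu κ P p := rho_nonneg _ _ fun q hq => h q (mem_filter.1 hq).1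

lemma uu_le_one (κ : ℕ) (P : Finset ℕ) (h : ∀ p ∈ P, 0 < p ∧ 4 * κ ≤ p) (p : ℕ) :
    uu κ P p ≤ 1 := rho_le_one _ _ fun q hq => h q (mem_filter.1 hq).1

lemma uu_insert_min (κ : ℕ) {p : ℕ} {P : Finset ℕ} (hp : ∀ q ∈ P, p < q) :
    uu κ (insert p P) p = rho κ P := by
  unfold uu
  congr 1
  ext q
  simp only [mem_filter, mem_insert]
  constructor
  · rintro ⟨rfl | h, h2⟩
    · exact absurd h2 (lt_irrefl _)
    · exact h
  · intro h; exact ⟨Or.inr h, hp q h⟩

lemma uu_insert_of_mem (κ : ℕ) {p : ℕ} {P : Finset ℕ} (hp : ∀ q ∈ P, p < q) {q : ℕ}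
    (hq : q ∈ P) : uu κ (insert p P) q = uu κ P q := by
  unfold uu
  congr 1
  ext r
  simp only [mem_filter, mem_insert]
  constructor
  · rintro ⟨rfl | h, h2⟩
    · exact absurd h2 (lt_asymm (hp q hq))
    · exact ⟨h, h2⟩
  · rintro ⟨h, h2⟩; exact ⟨Or.inr h, h2⟩

lemma KK_insert (κ : ℕ) (B : ℕ → ℝ) {p : ℕ} {P : Finset ℕ} (hp : ∀ q ∈ P, p < q) :
    KK κ B (insert p P) = rho κ P * (κ * B p / p) + KK κ B P := by
  have hpn : p ∉ P := fun h => lt_irrefl _ (hp p h)
  unfold KK
  rw [sum_insert hpn, uu_insert_min κ hp]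
  congr 1
  exact sum_congr rfl fun q hq => by rw [uu_insert_of_mem κ hp hq]

lemma KK_nonneg (κ : ℕ) (B : ℕ → ℝ) (P : Finset ℕ) (h : ∀ p ∈ P, 0 < p ∧ 4 * κ ≤ p)
    (hB : ∀ p ∈ P, 0 ≤ B p) : 0 ≤ KK κ B P := by
  refine sum_nonneg fun p hp => ?_
  have := uu_nonneg κ P h p
  have := hB p hp
  positivity

lemma measurable_surv (Om : ι → ℕ → Finset ℕ) (P : Finset ℕ) (S : Finset ι) :
    Measurable (fun a : ℕ → ℕ => ((surv Om P a S).card : ℝ)) := by
  have : (fun a : ℕ → ℕ => ((surv Om P a S).card : ℝ)) =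
      fun a => ∑ n ∈ S, if (∀ p ∈ P, a p ∉ Om n p) then (1 : ℝ) else 0 := by
    funext a
    rw [surv, Finset.card_filter]
    push_cast
    rfl
  rw [this]
  refine Finset.measurable_sum _ fun n _ => ?_
  refine Measurable.ite ?_ measurable_const measurable_const
  have : {a : ℕ → ℕ | ∀ p ∈ P, a p ∉ Om n p} =
      ⋂ p ∈ P, (fun a : ℕ → ℕ => a p) ⁻¹' {r | r ∉ Om n p} := by
    ext a; simp
  rw [this]
  refine Finset.measurableSet_biInter _ fun p _ => ?_
  exact (measurable_pi_apply p) (MeasurableSet.of_discrete)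

lemma surv_insert (Om : ι → ℕ → Finset ℕ) (p : ℕ) (P : Finset ℕ) (a : ℕ → ℕ) (S : Finset ι) :
    surv Om (insert p P) a S = surv Om P a (S.filter (fun n => a p ∉ Om n p)) := by
  unfold surv
  ext n
  simp only [mem_filter, mem_insert, forall_eq_or_imp]
  tauto

lemma card_split (Om : ι → ℕ → Finset ℕ) (p r : ℕ) (S : Finset ι) :
    ((S.filter (fun n => r ∉ Om n p)).card : ℝ) =
      S.card - (S.filter (fun n => r ∈ Om n p)).card := by
  have := Finset.card_filter_add_card_filter_not (s := S) (fun n => r ∈ Om n p)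
  have h2 : ((S.filter (fun n => r ∈ Om n p)).card : ℝ) +
      ((S.filter (fun n => r ∉ Om n p)).card : ℝ) = S.card := by exact_mod_cast this
  linarith

lemma sum_hit (Om : ι → ℕ → Finset ℕ) (p : ℕ) (κ : ℕ) (S : Finset ι)
    (h : ∀ n ∈ S, Om n p ⊆ range p ∧ (Om n p).card = κ) :
    ∑ r ∈ range p, ((S.filter (fun n => r ∈ Om n p)).card : ℝ) = κ * S.card := by
  have h1 : ∀ r ∈ range p, ((S.filter (fun n => r ∈ Om n p)).card : ℝ) =
      ∑ n ∈ S, if r ∈ Om n p then (1 : ℝ) else 0 := by
    intro r _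
    rw [Finset.card_filter]; push_cast; rfl
  rw [sum_congr rfl h1, sum_comm]
  have h2 : ∀ n ∈ S, ∑ r ∈ range p, (if r ∈ Om n p then (1 : ℝ) else 0) = κ := by
    intro n hn
    rw [← Finset.sum_filter, Finset.sum_const, nsmul_eq_mul, mul_one]
    have : (range p).filter (fun r => r ∈ Om n p) = Om n p := by
      ext r
      simp only [mem_filter]
      exact ⟨fun h => h.2, fun hr => ⟨(h n hn).1 hr, hr⟩⟩
    rw [this, (h n hn).2]
  rw [sum_congr rfl h2, Finset.sum_const, nsmul_eq_mul]; ring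

/-- Data for the sieve of the set `S` by the primes of `P`. -/
structure SieveOK (Om : ι → ℕ → Finset ℕ) (κ : ℕ) (B : ℕ → ℝ) (P : Finset ℕ) (S : Finset ι) :
    Prop where
  big : ∀ p ∈ P, 0 < p ∧ 4 * κ ≤ p
  om : ∀ n ∈ S, ∀ p ∈ P, Om n p ⊆ range p ∧ (Om n p).card = κ
  Bpos : ∀ p ∈ P, 0 < B p
  cls : ∀ p ∈ P, ∀ r ∈ range p, ((S.filter (fun n => r ∈ Om n p)).card : ℝ) ≤ B p

lemma SieveOK.mono {Om : ι → ℕ → Finset ℕ} {κ : ℕ} {B : ℕ → ℝ} {P Q : Finset ℕ}
    {S T : Finset ι} (h : SieveOK Om κ B P S) (hQ : Q ⊆ P) (hT : T ⊆ S) :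
    SieveOK Om κ B Q T where
  big p hp := h.big p (hQ hp)
  om n hn p hp := h.om n (hT hn) p (hQ hp)
  Bpos p hp := h.Bpos p (hQ hp)
  cls p hp r hr := by
    refine le_trans ?_ (h.cls p (hQ hp) r hr)
    exact_mod_cast Finset.card_le_card (Finset.filter_subset_filter _ hT)

lemma lmarginal_insert_surv (ν : ℕ → Measure ℕ) [∀ p, IsProbabilityMeasure (ν p)]
    (Om : ι → ℕ → Finset ℕ) (φ : ℝ → ℝ≥0∞) (hφ : Measurable φ) (P : Finset ℕ) (p : ℕ)
    (hp : p ∉ P) (S : Finset ι) (x : ℕ → ℕ) (hν : UnifOn (ν p) p) :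
    lmarginal ν (insert p P) (fun a => φ ((surv Om (insert p P) a S).card : ℝ)) x =
      (∑ r ∈ range p, lmarginal ν P (fun a =>
        φ ((surv Om P a (S.filter (fun n => r ∉ Om n p))).card : ℝ)) (update x p r)) / p := by
  have hm : Measurable (fun a : ℕ → ℕ => φ ((surv Om (insert p P) a S).card : ℝ)) :=
    hφ.comp (measurable_surv Om _ S)
  rw [lmarginal_insert _ hm hp x, hν]
  congr 1
  refine sum_congr rfl fun r _ => ?_
  unfold lmarginal
  refine lintegral_congr fun y => ?_
  have hpr : updateFinset (update x p r) P y p = r := by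
    rw [updateFinset_def]
    simp [hp]
  show φ _ = φ _
  rw [surv_insert, hpr]

theorem mgf_upper (ν : ℕ → Measure ℕ) [∀ p, IsProbabilityMeasure (ν p)]
    (Om : ι → ℕ → Finset ℕ) (κ : ℕ) (B : ℕ → ℝ) (θ : ℝ) (hθ : 0 ≤ θ) (P : Finset ℕ) :
    (∀ p ∈ P, UnifOn (ν p) p) → 4 * θ * KK κ B P ≤ 1 → ∀ S : Finset ι, SieveOK Om κ B P S →
    ∀ x : ℕ → ℕ,
    lmarginal ν P (fun a => ENNReal.ofReal (Real.exp (θ * (surv Om P a S).card))) x ≤
      ENNReal.ofReal (Real.exp (θ * rho κ P * Real.exp (2 * θ * KK κ B P) * S.card)) := by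
  induction P using Finset.induction_on_min with
  | empty =>
    intro _ _ S _ x
    simp [surv, rho, KK]
  | insert p P hp ih =>
    intro hν hK S hS x
    have hpn : p ∉ P := fun h => lt_irrefl _ (hp p h)
    have hSP : SieveOK Om κ B P S := hS.mono (subset_insert _ _) (Subset.refl _)
    have hpm : p ∈ insert p P := mem_insert_self _ _
    obtain ⟨hp0, hp4⟩ := hS.big p hpm
    have hp0' : (0 : ℝ) < p := by exact_mod_cast hp0
    have hBp := hS.Bpos p hpm
    have hρ0 : 0 ≤ rho κ P := rho_nonneg κ P hSP.big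
    have hK0 : 0 ≤ KK κ B P := KK_nonneg κ B P hSP.big fun q hq => (hSP.Bpos q hq).le
    have hKins := KK_insert κ B hp
    have hterm : 0 ≤ rho κ P * (κ * B p / p) := by positivity
    have hKP : 4 * θ * KK κ B P ≤ 1 := by
      rw [hKins] at hK
      nlinarith
    have key := lmarginal_insert_surv ν Om (fun t => ENNReal.ofReal (Real.exp (θ * t)))
      (by fun_prop) P p hpn S x (hν p hpm)
    rw [key]
    set θ' := θ * rho κ P * Real.exp (2 * θ * KK κ B P) with hθ'
    have hθ'0 : 0 ≤ θ' := by positivity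
    have hle : ∀ r ∈ range p, lmarginal ν P (fun a =>
        ENNReal.ofReal (Real.exp (θ * ((surv Om P a (S.filter (fun n => r ∉ Om n p))).card : ℝ))))
        (update x p r) ≤ ENNReal.ofReal (Real.exp (θ' *
          (S.card - ((S.filter (fun n => r ∈ Om n p)).card : ℝ)))) := by
      intro r _
      have := ih (fun q hq => hν q (mem_insert_of_mem hq)) hKP (S.filter (fun n => r ∉ Om n p))
        (hSP.mono (Subset.refl _) (filter_subset _ _)) (update x p r)
      rw [card_split] at this
      exact this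
    have hstep := step_upper p hp0 κ S.card θ' (B p) (by positivity)
      (by have : (4 * κ : ℝ) ≤ p := by exact_mod_cast hp4
          have h0 : (0 : ℝ) ≤ κ := by positivity
          linarith) hBp hθ'0 (by positivity)
      (fun r => ((S.filter (fun n => r ∈ Om n p)).card : ℝ)) (fun r _ => by positivity)
      (fun r hr => hS.cls p hpm r hr) (sum_hit Om p κ S fun n hn => hS.om n hn p hpm)
    calc (∑ r ∈ range p, lmarginal ν P (fun a =>
        ENNReal.ofReal (Real.exp (θ * ((surv Om P a (S.filter (fun n => r ∉ Om n p))).card : ℝ))))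
        (update x p r)) / p
        ≤ (∑ r ∈ range p, ENNReal.ofReal (Real.exp (θ' *
          (S.card - ((S.filter (fun n => r ∈ Om n p)).card : ℝ))))) / p := by
          gcongr with r hr
          exact hle r hr
      _ = ENNReal.ofReal ((∑ r ∈ range p, Real.exp (θ' *
          (S.card - ((S.filter (fun n => r ∈ Om n p)).card : ℝ)))) / p) := by
          rw [ENNReal.ofReal_div_of_pos hp0', ENNReal.ofReal_sum_of_nonneg
            (fun _ _ => (Real.exp_pos _).le), ENNReal.ofReal_natCast]
      _ ≤ ENNReal.ofReal (Real.exp (S.card * (θ' * (1 - κ / p) *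
            Real.exp (κ * θ' * B p / p)))) := by
          refine ENNReal.ofReal_le_ofReal ?_
          rw [div_le_iff₀ hp0']
          rw [mul_comm] at hstep
          linarith
      _ ≤ ENNReal.ofReal (Real.exp (θ * rho κ (insert p P) *
            Real.exp (2 * θ * KK κ B (insert p P)) * S.card)) := by
          refine ENNReal.ofReal_le_ofReal ?_
          refine Real.exp_le_exp.2 ?_
          rw [mul_comm]
          refine mul_le_mul_of_nonneg_right ?_ (by positivity)
          rw [rho_insert κ hpn, hKins]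
          have h1 : Real.exp (κ * θ' * B p / p) ≤
              Real.exp (2 * θ * (rho κ P * (κ * B p / p))) := by
            refine Real.exp_le_exp.2 ?_
            have h2 : Real.exp (2 * θ * KK κ B P) ≤ 2 := by
              have h3 : 2 * θ * KK κ B P ≤ 1 / 2 := by linarith
              calc Real.exp (2 * θ * KK κ B P) ≤ Real.exp (1 / 2) := Real.exp_le_exp.2 h3
                _ ≤ 2 := by
                  have h4 : Real.exp (1 / 2) ^ 2 = Real.exp 1 := by
                    rw [← Real.exp_nat_mul]; norm_num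
                  have h5 := Real.exp_one_lt_d9
                  have h6 := Real.exp_pos (1 / 2 : ℝ)
                  nlinarith
            have h7 : θ' ≤ θ * rho κ P * 2 := by
              rw [hθ']; gcongr
            calc κ * θ' * B p / p = θ' * (κ * B p / p) := by ring
              _ ≤ θ * rho κ P * 2 * (κ * B p / p) := by gcongr
              _ = 2 * θ * (rho κ P * (κ * B p / p)) := by ring
          have hk1 : 0 ≤ 1 - (κ : ℝ) / p := by
            rw [sub_nonneg, div_le_one hp0']
            have : (4 * κ : ℝ) ≤ p := by exact_mod_cast hp4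
            have h0 : (0 : ℝ) ≤ κ := by positivity
            linarith
          calc θ' * (1 - κ / p) * Real.exp (κ * θ' * B p / p)
              ≤ θ' * (1 - κ / p) * Real.exp (2 * θ * (rho κ P * (κ * B p / p))) := by gcongr
            _ = θ * ((1 - κ / p) * rho κ P) *
                Real.exp (2 * θ * (rho κ P * (κ * B p / p) + KK κ B P)) := by
                rw [hθ', mul_add, Real.exp_add]; ring

theorem mgf_lower (ν : ℕ → Measure ℕ) [∀ p, IsProbabilityMeasure (ν p)]
    (Om : ι → ℕ → Finset ℕ) (κ : ℕ) (B : ℕ → ℝ) (θ : ℝ) (hθ : 0 ≤ θ) (P : Finset ℕ) :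
    (∀ p ∈ P, UnifOn (ν p) p) → (∀ p ∈ P, θ * uu κ P p * B p ≤ 1) →
    ∀ S : Finset ι, SieveOK Om κ B P S → ∀ x : ℕ → ℕ,
    lmarginal ν P (fun a => ENNReal.ofReal (Real.exp (-(θ * (surv Om P a S).card)))) x ≤
      ENNReal.ofReal (Real.exp (-(θ * rho κ P * Real.exp (-(4 * θ * KK κ B P)) * S.card))) := by
  induction P using Finset.induction_on_min with
  | empty =>
    intro _ _ S _ x
    simp [surv, rho, KK]
  | insert p P hp ih =>
    intro hν hK S hS x
    have hpn : p ∉ P := fun h => lt_irrefl _ (hp p h)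
    have hSP : SieveOK Om κ B P S := hS.mono (subset_insert _ _) (Subset.refl _)
    have hpm : p ∈ insert p P := mem_insert_self _ _
    obtain ⟨hp0, hp4⟩ := hS.big p hpm
    have hp0' : (0 : ℝ) < p := by exact_mod_cast hp0
    have hBp := hS.Bpos p hpm
    have hρ0 : 0 ≤ rho κ P := rho_nonneg κ P hSP.big
    have hK0 : 0 ≤ KK κ B P := KK_nonneg κ B P hSP.big fun q hq => (hSP.Bpos q hq).le
    have hKins := KK_insert κ B hp
    have hterm : 0 ≤ rho κ P * (κ * B p / p) := by positivity
    have hKP : ∀ q ∈ P, θ * uu κ P q * B q ≤ 1 := by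
      intro q hq
      have := hK q (mem_insert_of_mem hq)
      rwa [uu_insert_of_mem κ hp hq] at this
    have key := lmarginal_insert_surv ν Om (fun t => ENNReal.ofReal (Real.exp (-(θ * t))))
      (by fun_prop) P p hpn S x (hν p hpm)
    rw [key]
    set θ' := θ * rho κ P * Real.exp (-(4 * θ * KK κ B P)) with hθ'
    have hθ'0 : 0 ≤ θ' := by positivity
    have hθ'1 : θ' ≤ θ * rho κ P := by
      rw [hθ']
      have : Real.exp (-(4 * θ * KK κ B P)) ≤ 1 := by
        rw [Real.exp_le_one_iff]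
        have : 0 ≤ 4 * θ * KK κ B P := by positivity
        linarith
      have h0 : 0 ≤ θ * rho κ P := by positivity
      nlinarith
    have hle : ∀ r ∈ range p, lmarginal ν P (fun a =>
        ENNReal.ofReal (Real.exp (-(θ * ((surv Om P a (S.filter (fun n => r ∉ Om n p))).card : ℝ)))))
        (update x p r) ≤ ENNReal.ofReal (Real.exp (-(θ' *
          (S.card - ((S.filter (fun n => r ∈ Om n p)).card : ℝ))))) := by
      intro r _
      have := ih (fun q hq => hν q (mem_insert_of_mem hq)) hKP (S.filter (fun n => r ∉ Om n p))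
        (hSP.mono (Subset.refl _) (filter_subset _ _)) (update x p r)
      rw [card_split] at this
      exact this
    have hstep := step_lower p hp0 κ S.card θ' (B p) (by positivity)
      (by exact_mod_cast hp4) hBp hθ'0 (by positivity)
      (by
        have := hK p hpm
        rw [uu_insert_min κ hp] at this
        calc θ' * B p ≤ θ * rho κ P * B p := by gcongr
          _ ≤ 1 := this)
      (fun r => ((S.filter (fun n => r ∈ Om n p)).card : ℝ)) (fun r _ => by positivity)
      (fun r hr => hS.cls p hpm r hr) (sum_hit Om p κ S fun n hn => hS.om n hn p hpm)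
    calc (∑ r ∈ range p, lmarginal ν P (fun a =>
        ENNReal.ofReal (Real.exp (-(θ * ((surv Om P a (S.filter (fun n => r ∉ Om n p))).card : ℝ)))))
        (update x p r)) / p
        ≤ (∑ r ∈ range p, ENNReal.ofReal (Real.exp (-(θ' *
          (S.card - ((S.filter (fun n => r ∈ Om n p)).card : ℝ)))))) / p := by
          gcongr with r hr
          exact hle r hr
      _ = ENNReal.ofReal ((∑ r ∈ range p, Real.exp (-(θ' *
          (S.card - ((S.filter (fun n => r ∈ Om n p)).card : ℝ))))) / p) := by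
          rw [ENNReal.ofReal_div_of_pos hp0', ENNReal.ofReal_sum_of_nonneg
            (fun _ _ => (Real.exp_pos _).le), ENNReal.ofReal_natCast]
      _ ≤ ENNReal.ofReal (Real.exp (-(S.card * (θ' * (1 - κ / p) *
            Real.exp (-(4 * κ * θ' * B p / p)))))) := by
          refine ENNReal.ofReal_le_ofReal ?_
          rw [div_le_iff₀ hp0']
          rw [mul_comm] at hstep
          linarith
      _ ≤ ENNReal.ofReal (Real.exp (-(θ * rho κ (insert p P) *
            Real.exp (-(4 * θ * KK κ B (insert p P))) * S.card))) := by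
          refine ENNReal.ofReal_le_ofReal ?_
          refine Real.exp_le_exp.2 (neg_le_neg ?_)
          rw [mul_comm (S.card : ℝ)]
          refine mul_le_mul_of_nonneg_right ?_ (by positivity)
          rw [rho_insert κ hpn, hKins]
          have h1 : Real.exp (-(4 * θ * (rho κ P * (κ * B p / p)))) ≤
              Real.exp (-(4 * κ * θ' * B p / p)) := by
            refine Real.exp_le_exp.2 (neg_le_neg ?_)
            calc 4 * κ * θ' * B p / p = 4 * θ' * (κ * B p / p) := by ring
              _ ≤ 4 * (θ * rho κ P) * (κ * B p / p) := by gcongr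
              _ = 4 * θ * (rho κ P * (κ * B p / p)) := by ring
          have hk1 : 0 ≤ 1 - (κ : ℝ) / p := by
            rw [sub_nonneg, div_le_one hp0']
            have : (4 * κ : ℝ) ≤ p := by exact_mod_cast hp4
            have h0 : (0 : ℝ) ≤ κ := by positivity
            linarith
          calc θ * ((1 - κ / p) * rho κ P) *
                Real.exp (-(4 * θ * (rho κ P * (κ * B p / p) + KK κ B P)))
              = θ' * (1 - κ / p) * Real.exp (-(4 * θ * (rho κ P * (κ * B p / p)))) := by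
                rw [hθ', mul_add, neg_add, Real.exp_add]; ring
            _ ≤ θ' * (1 - κ / p) * Real.exp (-(4 * κ * θ' * B p / p)) := by gcongr

end Pool.Agent.H532.RM
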