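import Mathlib
import Pool.Agent.H532.RM.Mgf

/-!
The model (independent uniform classes) and the concentration of the number of survivors.
-/

namespace Pool.Agent.H532.RM

open Finset MeasureTheory Function ProbabilityTheory
open scoped ENNReal

/-- `A p` (`p` prime) are independent random classes, `A p` is uniform on `{0, …, p - 1}`. -/
structure RandomClasses {Ω : Type} [MeasurableSpace Ω] (μ : Measure Ω) (A : ℕ → Ω → ℕ) :
    Prop where
  meas : ∀ p, Measurable (A p)
  indep : iIndepFun (fun p : Nat.Primes => A p) μ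
  unif : ∀ p : ℕ, p.Prime → ∀ r < p, μ {ω | A p ω = r} = (p : ℝ≥0∞)⁻¹

/-- The model exists. -/
theorem exists_randomClasses : ∃ μ : Measure (ℕ → ℕ), IsProbabilityMeasure μ ∧
    RandomClasses μ (fun p ω => ω p) := by
  classical
  let m : ℕ → Measure ℕ := fun p =>
    if h : p = 0 then Measure.dirac 0
    else (PMF.uniformOfFinset (range p) (by simp [h])).toMeasure
  have hm : ∀ p, IsProbabilityMeasure (m p) := by
    intro p
    by_cases h : p = 0
    · simp only [m, h, dite_true]; infer_instance
    · simp only [m, h, dite_false]; infer_instance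
  refine ⟨Measure.infinitePi m, inferInstance, ?_, ?_, ?_⟩
  · intro p; exact measurable_pi_apply p
  · have h := iIndepFun_infinitePi (P := m) (X := fun x ω => ω) (by fun_prop)
    exact h.precomp (g := fun p : Nat.Primes => (p : ℕ)) Subtype.val_injective
  · intro p hp r hr
    have h : (Measure.infinitePi m).map (fun ω => ω p) = m p :=
      (measurePreserving_eval_infinitePi m p).map_eq
    have h2 : {ω : ℕ → ℕ | ω p = r} = (fun ω => ω p) ⁻¹' {r} := by ext; simp
    rw [h2, ← Measure.map_apply (measurable_pi_apply p) (measurableSet_singleton r), h]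
    simp only [m, hp.ne_zero, dite_false]
    rw [PMF.toMeasure_apply_singleton _ _ (measurableSet_singleton r),
      PMF.uniformOfFinset_apply_of_mem _ (by simpa using hr)]
    simp

variable {Ω : Type} [MeasurableSpace Ω] {μ : Measure Ω} [IsProbabilityMeasure μ]
  {A : ℕ → Ω → ℕ}

/-- The law of `A p`. -/
noncomputable def law (μ : Measure Ω) (A : ℕ → Ω → ℕ) (p : ℕ) : Measure ℕ := μ.map (A p)

lemma law_prob (hA : RandomClasses μ A) (p : ℕ) : IsProbabilityMeasure (law μ A p) :=
  Measure.isProbabilityMeasure_map (hA.meas p).aemeasurable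

lemma law_unif (hA : RandomClasses μ A) {p : ℕ} (hp : p.Prime) : UnifOn (law μ A p) p := by
  intro g
  have hsing : ∀ r < p, law μ A p {r} = (p : ℝ≥0∞)⁻¹ := by
    intro r hr
    rw [law, Measure.map_apply (hA.meas p) (measurableSet_singleton r)]
    exact hA.unif p hp r hr
  have hprob := law_prob hA p
  have htot : law μ A p (↑(range p) : Set ℕ) = 1 := by
    rw [← sum_measure_singleton]
    rw [Finset.sum_congr rfl fun r hr => hsing r (mem_range.1 hr)]
    rw [Finset.sum_const, card_range, nsmul_eq_mul]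
    refine ENNReal.mul_inv_cancel ?_ (ENNReal.natCast_ne_top p)
    exact_mod_cast hp.ne_zero
  have hcompl : law μ A p (↑(range p) : Set ℕ)ᶜ = 0 := by
    rw [prob_compl_eq_zero_iff (Finset.measurableSet _)]; exact htot
  have h1 : ∫⁻ r, g r ∂(law μ A p) = ∫⁻ r in (↑(range p) : Set ℕ), g r ∂(law μ A p) := by
    rw [← lintegral_add_compl g (Finset.measurableSet (range p))]
    rw [setLIntegral_measure_zero _ _ hcompl, add_zero]
  rw [h1, lintegral_finset (range p) g]
  rw [Finset.sum_congr rfl fun r hr => by rw [hsing r (mem_range.1 hr)]]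
  rw [← Finset.sum_mul, div_eq_mul_inv]

/-- A function on `ℕ → ℕ` which depends only on the coordinates in the finite set `s`. -/
def DepOn {α : Type*} (s : Finset ℕ) (f : (ℕ → ℕ) → α) : Prop :=
  ∀ a b : ℕ → ℕ, (∀ p ∈ s, a p = b p) → f a = f b

lemma DepOn.measurable {α : Type*} [MeasurableSpace α] {s : Finset ℕ} {f : (ℕ → ℕ) → α}
    (h : DepOn s f) : Measurable f := by
  have : f = (fun y : s → ℕ => f (updateFinset (fun _ => 0) s y)) ∘ (fun a : ℕ → ℕ =>
      fun i : s => a i) := by
    funext a
    refine h _ _ fun p hp => ?_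
    simp [updateFinset_def, hp]
  rw [this]
  have h1 : Measurable (fun y : s → ℕ => f (updateFinset (fun _ => 0) s y)) :=
    measurable_of_countable _
  have h2 : Measurable (fun a : ℕ → ℕ => fun i : s => a i) :=
    measurable_pi_lambda _ fun i => measurable_pi_apply _
  exact h1.comp h2

/-- The expectation of a function of the classes `A p`, `p ∈ s`, is a marginal integral. -/
lemma lintegral_eq_lmarginal (hA : RandomClasses μ A) (s : Finset ℕ) (hs : ∀ p ∈ s, p.Prime)
    (f : (ℕ → ℕ) → ℝ≥0∞) (hf : DepOn s f) (x : ℕ → ℕ) :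
    ∫⁻ ω, f (fun p => A p ω) ∂μ = lmarginal (law μ A) s f x := by
  have hmap : μ.map (fun ω (i : s) => A i ω) = Measure.pi (fun i : s => law μ A i) := by
    have hinj : Injective (fun i : s => (⟨i.1, hs i.1 i.2⟩ : Nat.Primes)) := by
      intro i j hij
      have h := congrArg (fun q : Nat.Primes => (q : ℕ)) hij
      exact Subtype.ext h
    have hind : iIndepFun (fun i : s => A i) μ := hA.indep.precomp hinj
    exact (iIndepFun_iff_map_fun_eq_pi_map (f := fun i : s => A i)
      (fun i => (hA.meas i).aemeasurable)).1 hind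
  have hmeasA : Measurable (fun ω (i : s) => A i ω) :=
    measurable_pi_lambda _ fun i => hA.meas i
  unfold lmarginal
  rw [← hmap, lintegral_map (measurable_of_countable _) hmeasA]
  refine lintegral_congr fun ω => ?_
  refine hf _ _ fun p hp => ?_
  simp [updateFinset_def, hp]

lemma lintegral_le_of_lmarginal (hA : RandomClasses μ A) (s P : Finset ℕ)
    (hs : ∀ p ∈ s, p.Prime) (hPs : P ⊆ s) (f : (ℕ → ℕ) → ℝ≥0∞) (hf : DepOn s f) (c : ℝ≥0∞)
    (h : ∀ x, lmarginal (law μ A) P f x ≤ c) :
    ∫⁻ ω, f (fun p => A p ω) ∂μ ≤ c := by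
  have := fun p => law_prob hA p
  rw [lintegral_eq_lmarginal hA s hs f hf (fun _ => 0)]
  have hsP : s = (s \ P) ∪ P := by rw [sdiff_union_of_subset hPs]
  rw [hsP, lmarginal_union _ f hf.measurable sdiff_disjoint]
  have h2 : lmarginal (law μ A) P f ≤ fun _ => c := fun x => h x
  calc lmarginal (law μ A) (s \ P) (lmarginal (law μ A) P f) (fun _ => 0)
      ≤ lmarginal (law μ A) (s \ P) (fun _ => c) (fun _ => 0) :=
        lmarginal_mono h2 _
    _ = c := by
      unfold lmarginal
      simp

variable {ι : Type}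

lemma exp_le_one_add_two_mul {y : ℝ} (h0 : 0 ≤ y) (h1 : y ≤ 1) : Real.exp y ≤ 1 + 2 * y := by
  have h := Real.abs_exp_sub_one_sub_id_le (x := y) (by rwa [abs_of_nonneg h0])
  have := (abs_le.1 h).2
  nlinarith

/-- Concentration, all classes outside `P` being fixed. -/
lemma tail_lmarginal (ν : ℕ → Measure ℕ) [∀ p, IsProbabilityMeasure (ν p)]
    (Om : ι → ℕ → Finset ℕ) (κ : ℕ) (B : ℕ → ℝ) (θ : ℝ) (hθ : 0 ≤ θ) (P : Finset ℕ)
    (hν : ∀ p ∈ P, UnifOn (ν p) p) (S : Finset ι) (hS : SieveOK Om κ B P S) (Kh : ℝ)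
    (hK1 : KK κ B P ≤ Kh) (hK2 : ∀ p ∈ P, uu κ P p * B p ≤ Kh) (h4 : 4 * θ * Kh ≤ 1) (t : ℝ)
    (x : ℕ → ℕ) :
    lmarginal ν P (fun a => if t ≤ |((surv Om P a S).card : ℝ) - rho κ P * S.card| then 1 else 0)
      x ≤ ENNReal.ofReal (2 * Real.exp (-(θ * (t - 4 * θ * Kh * (rho κ P * S.card))))) := by
  have hK0 : 0 ≤ KK κ B P := KK_nonneg κ B P hS.big fun q hq => (hS.Bpos q hq).le
  have hKh0 : 0 ≤ Kh := hK0.trans hK1
  have hρ0 : 0 ≤ rho κ P := rho_nonneg κ P hS.big
  set M := rho κ P * S.card with hM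
  have hM0 : 0 ≤ M := by positivity
  have hu := mgf_upper ν Om κ B θ hθ P hν
    (by calc 4 * θ * KK κ B P ≤ 4 * θ * Kh := by gcongr
          _ ≤ 1 := h4) S hS x
  have hl := mgf_lower ν Om κ B θ hθ P hν
    (by
      intro p hp
      calc θ * uu κ P p * B p = θ * (uu κ P p * B p) := by ring
        _ ≤ θ * Kh := by gcongr; exact hK2 p hp
        _ ≤ 1 := by
          have : 0 ≤ θ * Kh := by positivity
          linarith) S hS x
  have hbound : ∀ a : ℕ → ℕ,
      (if t ≤ |((surv Om P a S).card : ℝ) - M| then (1 : ℝ≥0∞) else 0) ≤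
      ENNReal.ofReal (Real.exp (-(θ * (M + t)))) *
        ENNReal.ofReal (Real.exp (θ * (surv Om P a S).card)) +
      ENNReal.ofReal (Real.exp (θ * (M - t))) *
        ENNReal.ofReal (Real.exp (-(θ * (surv Om P a S).card))) := by
    intro a
    split_ifs with h
    · rcases le_abs.1 h with h | h
      · refine le_trans ?_ (le_add_right le_rfl)
        rw [← ENNReal.ofReal_mul (Real.exp_pos _).le, ← Real.exp_add]
        rw [ENNReal.one_le_ofReal, Real.one_le_exp_iff]
        nlinarith
      · refine le_trans ?_ (le_add_left le_rfl)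
        rw [← ENNReal.ofReal_mul (Real.exp_pos _).le, ← Real.exp_add]
        rw [ENNReal.one_le_ofReal, Real.one_le_exp_iff]
        nlinarith
    · exact zero_le
  have hfm1 : Measurable (fun a : ℕ → ℕ => ENNReal.ofReal (Real.exp (θ * (surv Om P a S).card))) := by
    have := measurable_surv Om P S
    fun_prop
  have hfm2 : Measurable (fun a : ℕ → ℕ =>
      ENNReal.ofReal (Real.exp (-(θ * (surv Om P a S).card)))) := by
    have := measurable_surv Om P S
    fun_prop
  have hup : Measurable (fun y : (i : P) → ℕ => updateFinset x P y) := measurable_updateFinset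
  have hsplit : lmarginal ν P (fun a =>
      ENNReal.ofReal (Real.exp (-(θ * (M + t)))) *
        ENNReal.ofReal (Real.exp (θ * (surv Om P a S).card)) +
      ENNReal.ofReal (Real.exp (θ * (M - t))) *
        ENNReal.ofReal (Real.exp (-(θ * (surv Om P a S).card)))) x =
      ENNReal.ofReal (Real.exp (-(θ * (M + t)))) *
        lmarginal ν P (fun a => ENNReal.ofReal (Real.exp (θ * (surv Om P a S).card))) x +
      ENNReal.ofReal (Real.exp (θ * (M - t))) *
        lmarginal ν P (fun a => ENNReal.ofReal (Real.exp (-(θ * (surv Om P a S).card)))) x := by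
    unfold lmarginal
    rw [lintegral_add_left, lintegral_const_mul, lintegral_const_mul]
    · exact hfm2.comp hup
    · exact hfm1.comp hup
    · exact (hfm1.const_mul _).comp hup
  calc lmarginal ν P (fun a => if t ≤ |((surv Om P a S).card : ℝ) - M| then 1 else 0) x
      ≤ lmarginal ν P (fun a =>
      ENNReal.ofReal (Real.exp (-(θ * (M + t)))) *
        ENNReal.ofReal (Real.exp (θ * (surv Om P a S).card)) +
      ENNReal.ofReal (Real.exp (θ * (M - t))) *
        ENNReal.ofReal (Real.exp (-(θ * (surv Om P a S).card)))) x :=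
        lmarginal_mono hbound x
    _ = _ := hsplit
    _ ≤ ENNReal.ofReal (Real.exp (-(θ * (M + t)))) *
        ENNReal.ofReal (Real.exp (θ * rho κ P * Real.exp (2 * θ * KK κ B P) * S.card)) +
      ENNReal.ofReal (Real.exp (θ * (M - t))) *
        ENNReal.ofReal (Real.exp (-(θ * rho κ P * Real.exp (-(4 * θ * KK κ B P)) * S.card))) := by
        gcongr
    _ ≤ ENNReal.ofReal (Real.exp (-(θ * (t - 4 * θ * Kh * M)))) +
        ENNReal.ofReal (Real.exp (-(θ * (t - 4 * θ * Kh * M)))) := by
        rw [← ENNReal.ofReal_mul (Real.exp_pos _).le, ← Real.exp_add,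
          ← ENNReal.ofReal_mul (Real.exp_pos _).le, ← Real.exp_add]
        refine add_le_add (ENNReal.ofReal_le_ofReal (Real.exp_le_exp.2 ?_))
          (ENNReal.ofReal_le_ofReal (Real.exp_le_exp.2 ?_))
        · have h1 : Real.exp (2 * θ * KK κ B P) ≤ 1 + 2 * (2 * θ * Kh) := by
            have h0 : 0 ≤ 2 * θ * KK κ B P := by positivity
            have h2 : 2 * θ * KK κ B P ≤ 2 * θ * Kh := by gcongr
            have h3 := exp_le_one_add_two_mul h0 (by linarith)
            linarith
          have h5 : θ * rho κ P * Real.exp (2 * θ * KK κ B P) * S.card =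
              θ * M * Real.exp (2 * θ * KK κ B P) := by rw [hM]; ring
          rw [h5]
          have h6 : θ * M * Real.exp (2 * θ * KK κ B P) ≤ θ * M * (1 + 2 * (2 * θ * Kh)) := by
            gcongr
          linarith
        · have h1 : 1 - 4 * θ * Kh ≤ Real.exp (-(4 * θ * KK κ B P)) := by
            have h2 : 4 * θ * KK κ B P ≤ 4 * θ * Kh := by gcongr
            have := Real.add_one_le_exp (-(4 * θ * KK κ B P))
            linarith
          have h5 : θ * rho κ P * Real.exp (-(4 * θ * KK κ B P)) * S.card =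
              θ * M * Real.exp (-(4 * θ * KK κ B P)) := by rw [hM]; ring
          rw [h5]
          have h6 : θ * M * (1 - 4 * θ * Kh) ≤ θ * M * Real.exp (-(4 * θ * KK κ B P)) := by
            gcongr
          linarith
    _ = ENNReal.ofReal (2 * Real.exp (-(θ * (t - 4 * θ * Kh * M)))) := by
        rw [← ENNReal.ofReal_add (Real.exp_pos _).le (Real.exp_pos _).le]
        congr 1; ring

/-- Concentration of the number of survivors: the set `Sf a` may depend on the classes outside
`P`. -/
theorem tail_prob (hA : RandomClasses μ A) (s P : Finset ℕ) (hs : ∀ p ∈ s, p.Prime)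
    (hPs : P ⊆ s) (Om : ι → ℕ → Finset ℕ) (κ : ℕ) (B : ℕ → ℝ) (θ : ℝ) (hθ : 0 ≤ θ)
    (Sf : (ℕ → ℕ) → Finset ι) (hdep : DepOn (s \ P) Sf) (hS : ∀ a, SieveOK Om κ B P (Sf a))
    (Kh : ℝ) (hK1 : KK κ B P ≤ Kh) (hK2 : ∀ p ∈ P, uu κ P p * B p ≤ Kh)
    (h4 : 4 * θ * Kh ≤ 1) (t M : ℝ) (hM : ∀ a, rho κ P * (Sf a).card ≤ M) :
    μ {ω | t ≤ |((surv Om P (fun p => A p ω) (Sf (fun p => A p ω))).card : ℝ) -
      rho κ P * (Sf (fun p => A p ω)).card|} ≤
      ENNReal.ofReal (2 * Real.exp (-(θ * (t - 4 * θ * Kh * M)))) := by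
  classical
  have hprob := fun p => law_prob hA p
  set f : (ℕ → ℕ) → ℝ≥0∞ := fun a =>
    if t ≤ |((surv Om P a (Sf a)).card : ℝ) - rho κ P * (Sf a).card| then 1 else 0 with hf
  have hfdep : DepOn s f := by
    intro a b hab
    have h1 : Sf a = Sf b := hdep a b fun p hp => hab p (mem_sdiff.1 hp).1
    have h2 : surv Om P a (Sf a) = surv Om P b (Sf b) := by
      rw [h1]
      unfold surv
      refine filter_congr fun n _ => ?_
      constructor
      · intro h p hp; rw [← hab p (hPs hp)]; exact h p hp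
      · intro h p hp; rw [hab p (hPs hp)]; exact h p hp
    simp only [hf]
    rw [h2, h1]
  have hset : μ {ω | t ≤ |((surv Om P (fun p => A p ω) (Sf (fun p => A p ω))).card : ℝ) -
      rho κ P * (Sf (fun p => A p ω)).card|} = ∫⁻ ω, f (fun p => A p ω) ∂μ := by
    have hmeasA : Measurable (fun ω => (fun p => A p ω : ℕ → ℕ)) :=
      measurable_pi_lambda _ fun p => hA.meas p
    have hms : MeasurableSet {ω | t ≤ |((surv Om P (fun p => A p ω)
        (Sf (fun p => A p ω))).card : ℝ) - rho κ P * (Sf (fun p => A p ω)).card|} := by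
      have : {ω | t ≤ |((surv Om P (fun p => A p ω)
        (Sf (fun p => A p ω))).card : ℝ) - rho κ P * (Sf (fun p => A p ω)).card|} =
          (fun ω => f (fun p => A p ω)) ⁻¹' {1} := by
        ext ω
        simp only [hf, Set.mem_ofPred_eq, Set.mem_preimage, Set.mem_singleton_iff]
        split_ifs with h <;> simp [h]
      rw [this]
      exact (hfdep.measurable.comp hmeasA) (measurableSet_singleton _)
    rw [← lintegral_indicator_one hms]
    refine lintegral_congr fun ω => ?_
    simp only [hf, Set.indicator, Set.mem_ofPred_eq, Pi.one_apply]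
  rw [hset]
  refine lintegral_le_of_lmarginal hA s P hs hPs f hfdep _ fun x => ?_
  have hcongr : lmarginal (law μ A) P f x = lmarginal (law μ A) P (fun a =>
      if t ≤ |((surv Om P a (Sf x)).card : ℝ) - rho κ P * (Sf x).card| then 1 else 0) x := by
    unfold lmarginal
    refine lintegral_congr fun y => ?_
    have h1 : Sf (updateFinset x P y) = Sf x := by
      refine hdep _ _ fun p hp => ?_
      simp [updateFinset_def, (mem_sdiff.1 hp).2]
    simp only [hf, h1]
  rw [hcongr]
  refine (tail_lmarginal (law μ A) Om κ B θ hθ P (fun p hp => law_unif hA (hs p (hPs hp))) (Sf x)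
    (hS x) Kh hK1 hK2 h4 t x).trans ?_
  have hKh0 : 0 ≤ Kh := (KK_nonneg κ B P (hS x).big fun q hq => ((hS x).Bpos q hq).le).trans hK1
  refine ENNReal.ofReal_le_ofReal ?_
  have := hM x
  gcongr

end Pool.Agent.H532.RM
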