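import Mathlib
import Pool.Agent.H532.RM.Tail

/-!
Patterns in an interval, sieved by arbitrary classes for small primes and random classes for
large primes.
-/

namespace Pool.Agent.H532.RM

open Finset MeasureTheory Function ProbabilityTheory
open scoped ENNReal

/-- The primes up to `z`. -/
def primesLe (z : ℕ) : Finset ℕ := (range (z + 1)).filter Nat.Prime

lemma mem_primesLe {z p : ℕ} : p ∈ primesLe z ↔ p ≤ z ∧ p.Prime := by
  simp [primesLe, Nat.lt_succ_iff]

/-- The integers `n ∈ (m, m + U]` such that no `n + d`, `d ∈ D`, is in the class `c p` modulo `p`,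
for the primes `p ∈ Q`. -/
def TT (D : Finset ℕ) (c : ℕ → ℕ) (Q : Finset ℕ) (m U : ℕ) : Finset ℕ :=
  (Ioc m (m + U)).filter (fun n => ∀ d ∈ D, ∀ p ∈ Q, (n + d) % p ≠ c p % p)

/-- The classes used: prescribed ones up to `y`, then those of `a`. -/
def mix (y : ℕ) (b a : ℕ → ℕ) (p : ℕ) : ℕ := if p ≤ y then b p else a p

/-- The classes modulo `p` which remove `n` (or one of its translates). -/
def OmD (D : Finset ℕ) (n p : ℕ) : Finset ℕ := D.image (fun d => (n + d) % p)

lemma OmD_subset (D : Finset ℕ) (n p : ℕ) (hp : 0 < p) : OmD D n p ⊆ range p := by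
  intro r hr
  obtain ⟨d, _, rfl⟩ := mem_image.1 hr
  exact mem_range.2 (Nat.mod_lt _ hp)

lemma OmD_card (D : Finset ℕ) (n p : ℕ) (hp : ∀ d ∈ D, d < p) : (OmD D n p).card = D.card := by
  refine card_image_of_injOn ?_
  intro d hd e he h
  have h1 : n + d ≡ n + e [MOD p] := h
  have h2 : d ≡ e [MOD p] := Nat.ModEq.add_left_cancel' n h1
  exact Nat.ModEq.eq_of_lt_of_lt h2 (hp d hd) (hp e he)

lemma card_class_le (m U d p r : ℕ) (hp : 0 < p) :
    (((Ioc m (m + U)).filter (fun n => (n + d) % p = r)).card : ℝ) ≤ U / p + 1 := by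
  rcases Nat.eq_zero_or_pos U with rfl | hU
  · simp
  have h1 : ((Ioc m (m + U)).filter (fun n => (n + d) % p = r)).card ≤
      (range ((U - 1) / p + 1)).card := by
    refine card_le_card_of_injOn (fun n => (n - (m + 1)) / p) ?_ ?_
    · intro n hn
      have hn' := mem_filter.1 (mem_coe.1 hn)
      have := mem_Ioc.1 hn'.1
      rw [mem_coe, mem_range]
      have h2 : n - (m + 1) ≤ U - 1 := by omega
      exact Nat.lt_succ_of_le (Nat.div_le_div_right h2)
    · intro n hn n' hn' h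
      have a1 := mem_filter.1 (mem_coe.1 hn)
      have a2 := mem_filter.1 (mem_coe.1 hn')
      have b1 := mem_Ioc.1 a1.1
      have b2 := mem_Ioc.1 a2.1
      obtain ⟨u, rfl⟩ := Nat.exists_eq_add_of_le (show m + 1 ≤ n by omega)
      obtain ⟨v, rfl⟩ := Nat.exists_eq_add_of_le (show m + 1 ≤ n' by omega)
      have h3 : (m + 1 + u - (m + 1)) / p = (m + 1 + v - (m + 1)) / p := h
      rw [Nat.add_sub_cancel_left, Nat.add_sub_cancel_left] at h3
      have h4 : (m + 1 + u) + d ≡ (m + 1 + v) + d [MOD p] := a1.2.trans a2.2.symm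
      have h5 : (m + 1 + u) ≡ (m + 1 + v) [MOD p] := Nat.ModEq.add_right_cancel' d h4
      have h6 : u ≡ v [MOD p] := Nat.ModEq.add_left_cancel' (m + 1) h5
      have h7 : u = v := by
        rw [← Nat.div_add_mod u p, ← Nat.div_add_mod v p, h3, h6]
      rw [h7]
  rw [card_range] at h1
  have h2 : (((U - 1) / p + 1 : ℕ) : ℝ) ≤ U / p + 1 := by
    push_cast
    have h3 : (((U - 1) / p : ℕ) : ℝ) ≤ ((U - 1 : ℕ) : ℝ) / p := Nat.cast_div_le
    have h4 : ((U - 1 : ℕ) : ℝ) / p ≤ (U : ℝ) / p := by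
      gcongr
      exact Nat.sub_le U 1
    linarith
  exact le_trans (by exact_mod_cast h1) h2

/-- the trivial weighted sum telescopes -/
lemma KK_one (κ : ℕ) (P : Finset ℕ) : KK κ (fun _ => 1) P = 1 - rho κ P := by
  induction P using Finset.induction_on_min with
  | empty => simp [KK, rho]
  | insert p P hp ih =>
    have hpn : p ∉ P := fun h => lt_irrefl _ (hp p h)
    rw [KK_insert κ _ hp, ih, rho_insert κ hpn]
    ring

/-- The trivial bound for `KK`. -/
lemma KK_le_trivial (κ : ℕ) (B : ℕ → ℝ) (P : Finset ℕ) (h : ∀ p ∈ P, 0 < p ∧ 4 * κ ≤ p) (C : ℝ)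
    (hC : 0 ≤ C) (hB : ∀ p ∈ P, B p ≤ C) : KK κ B P ≤ C := by
  have h1 : KK κ B P ≤ C * KK κ (fun _ => 1) P := by
    unfold KK
    rw [mul_sum]
    refine sum_le_sum fun p hp => ?_
    have h0 := uu_nonneg κ P h p
    calc uu κ P p * (κ * B p / p) ≤ uu κ P p * (κ * C / p) := by
          gcongr; exact hB p hp
      _ = C * (uu κ P p * (κ * 1 / p)) := by ring
  rw [KK_one] at h1
  have := rho_nonneg κ P h
  nlinarith

/-- The set of the patterns which survive the classes of the primes of `s` other than those of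
`P`. -/
def Sf (D : Finset ℕ) (y : ℕ) (b : ℕ → ℕ) (Q : Finset ℕ) (m U : ℕ) (a : ℕ → ℕ) : Finset ℕ :=
  TT D (mix y b a) Q m U

lemma TT_congr (D : Finset ℕ) (c c' : ℕ → ℕ) (Q : Finset ℕ) (m U : ℕ)
    (h : ∀ p ∈ Q, c p % p = c' p % p) : TT D c Q m U = TT D c' Q m U := by
  unfold TT
  refine filter_congr fun n _ => ?_
  constructor
  · intro h1 d hd p hp; rw [← h p hp]; exact h1 d hd p hp
  · intro h1 d hd p hp; rw [h p hp]; exact h1 d hd p hp

lemma Sf_dep (D : Finset ℕ) (y : ℕ) (b : ℕ → ℕ) (Q : Finset ℕ) (m U : ℕ) :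
    DepOn Q (Sf D y b Q m U) := by
  intro a a' h
  refine TT_congr _ _ _ _ _ _ fun p hp => ?_
  unfold mix
  split_ifs
  · rfl
  · rw [h p hp]

lemma surv_Sf (D : Finset ℕ) (y : ℕ) (b : ℕ → ℕ) (Q P : Finset ℕ) (m U : ℕ) (a : ℕ → ℕ)
    (hyP : ∀ p ∈ P, y < p) (ha : ∀ p ∈ P, a p < p) :
    surv (OmD D) P a (Sf D y b Q m U a) = Sf D y b (Q ∪ P) m U a := by
  unfold surv Sf TT OmD
  ext n
  simp only [mem_filter, mem_image, mem_union]
  constructor
  · rintro ⟨⟨h1, h2⟩, h3⟩
    refine ⟨h1, ?_⟩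
    rintro d hd p (hp | hp)
    · exact h2 d hd p hp
    · intro h4
      refine h3 p hp ⟨d, hd, ?_⟩
      rw [h4]
      unfold mix
      rw [if_neg (not_le.2 (hyP p hp)), Nat.mod_eq_of_lt (ha p hp)]
  · rintro ⟨h1, h2⟩
    refine ⟨⟨h1, fun d hd p hp => h2 d hd p (Or.inl hp)⟩, ?_⟩
    rintro p hp ⟨d, hd, h4⟩
    refine h2 d hd p (Or.inr hp) ?_
    rw [h4]
    unfold mix
    rw [if_neg (not_le.2 (hyP p hp)), Nat.mod_eq_of_lt (ha p hp)]

lemma sieveOK_Sf (D : Finset ℕ) (hD : D.Nonempty) (y : ℕ) (b : ℕ → ℕ) (Q P : Finset ℕ)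
    (m U : ℕ) (a : ℕ → ℕ) (hP : ∀ p ∈ P, p.Prime ∧ (∀ d ∈ D, d < p) ∧ 4 * D.card ≤ p) :
    SieveOK (OmD D) D.card (fun p => D.card * ((U : ℝ) / p + 1)) P (Sf D y b Q m U a) where
  big p hp := ⟨(hP p hp).1.pos, (hP p hp).2.2⟩
  om n _ p hp := ⟨OmD_subset D n p (hP p hp).1.pos, OmD_card D n p (hP p hp).2.1⟩
  Bpos p hp := by
    have h1 : (0 : ℝ) < D.card := by exact_mod_cast card_pos.2 hD
    positivity
  cls p hp r _ := by
    have hp0 := (hP p hp).1.pos
    have h1 : (Sf D y b Q m U a).filter (fun n => r ∈ OmD D n p) ⊆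
        D.biUnion (fun d => (Ioc m (m + U)).filter (fun n => (n + d) % p = r)) := by
      intro n hn
      obtain ⟨h1, h2⟩ := mem_filter.1 hn
      obtain ⟨d, hd, h3⟩ := mem_image.1 h2
      refine mem_biUnion.2 ⟨d, hd, mem_filter.2 ⟨(mem_filter.1 h1).1, h3⟩⟩
    have h2 : (((Sf D y b Q m U a).filter (fun n => r ∈ OmD D n p)).card : ℝ) ≤
        ∑ d ∈ D, (((Ioc m (m + U)).filter (fun n => (n + d) % p = r)).card : ℝ) := by
      have := (card_le_card h1).trans card_biUnion_le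
      exact_mod_cast this
    refine h2.trans ?_
    calc ∑ d ∈ D, (((Ioc m (m + U)).filter (fun n => (n + d) % p = r)).card : ℝ)
        ≤ ∑ d ∈ D, ((U : ℝ) / p + 1) := sum_le_sum fun d _ => card_class_le m U d p r hp0
      _ = D.card * ((U : ℝ) / p + 1) := by rw [sum_const, nsmul_eq_mul]

variable {Ω : Type} [MeasurableSpace Ω] {μ : Measure Ω} [IsProbabilityMeasure μ]
  {A : ℕ → Ω → ℕ}

/-- One pattern, one interval. -/
theorem block_tail (hA : RandomClasses μ A) (D : Finset ℕ) (hD : D.Nonempty) (y : ℕ)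
    (b : ℕ → ℕ) (Q P : Finset ℕ) (hQ : ∀ p ∈ Q, p.Prime) (hQP : Disjoint Q P) (w : ℕ)
    (hw : 1 ≤ w) (hP : ∀ p ∈ P, p.Prime ∧ w < p) (hyw : y ≤ w) (hDw : ∀ d ∈ D, d ≤ w)
    (hκw : 4 * D.card ≤ w) (m U : ℕ) (hU : 1 ≤ U) (t : ℝ) (ht : 0 ≤ t) (htU : t ≤ U) :
    μ {ω | t ≤ |((Sf D y b (Q ∪ P) m U (fun p => A p ω)).card : ℝ) -
      rho D.card P * (Sf D y b Q m U (fun p => A p ω)).card|} ≤
      ENNReal.ofReal (2 * Real.exp (-(t ^ 2 / (16 * (D.card * ((U : ℝ) / w + 1)) * U)))) := by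
  have hP' : ∀ p ∈ P, p.Prime ∧ (∀ d ∈ D, d < p) ∧ 4 * D.card ≤ p := fun p hp =>
    ⟨(hP p hp).1, fun d hd => (hDw d hd).trans_lt (hP p hp).2, hκw.trans (hP p hp).2.le⟩
  have hw0 : (0 : ℝ) < w := by exact_mod_cast hw
  have hU0 : (0 : ℝ) < U := by exact_mod_cast hU
  have hκ0 : (1 : ℝ) ≤ D.card := by exact_mod_cast card_pos.2 hD
  set Kh : ℝ := D.card * ((U : ℝ) / w + 1) with hKh
  have hKh0 : 0 < Kh := by positivity
  have hKh1 : 1 ≤ Kh := by
    rw [hKh]
    have : 0 ≤ (U : ℝ) / w := by positivity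
    nlinarith
  have hBle : ∀ p ∈ P, (D.card * ((U : ℝ) / p + 1) : ℝ) ≤ Kh := by
    intro p hp
    rw [hKh]
    have : (w : ℝ) ≤ p := by exact_mod_cast (hP p hp).2.le
    gcongr
  have hbig : ∀ p ∈ P, 0 < p ∧ 4 * D.card ≤ p := fun p hp => ⟨(hP' p hp).1.pos, (hP' p hp).2.2⟩
  set θ : ℝ := t / (8 * Kh * U) with hθ
  have hθ0 : 0 ≤ θ := by positivity
  have h4 : 4 * θ * Kh ≤ 1 := by
    have : 4 * θ * Kh = t / (2 * U) := by
      rw [hθ]; field_simp; ring
    rw [this, div_le_one (by positivity)]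
    linarith
  have htail := tail_prob hA (Q ∪ P) P
    (fun p hp => (mem_union.1 hp).elim (hQ p) fun h => (hP p h).1) subset_union_right (OmD D)
    D.card (fun p => D.card * ((U : ℝ) / p + 1)) θ hθ0 (Sf D y b Q m U)
    (by
      have : (Q ∪ P) \ P = Q := by
        rw [union_sdiff_right, sdiff_eq_self_of_disjoint hQP]
      rw [this]; exact Sf_dep D y b Q m U)
    (fun a => sieveOK_Sf D hD y b Q P m U a hP') Kh
    (KK_le_trivial _ _ _ hbig Kh hKh0.le hBle)
    (fun p hp => by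
      have h1 := uu_le_one D.card P hbig p
      have h0 := uu_nonneg D.card P hbig p
      have h2 := hBle p hp
      have h3 : (0 : ℝ) ≤ D.card * ((U : ℝ) / p + 1) := by positivity
      calc uu D.card P p * (D.card * ((U : ℝ) / p + 1)) ≤ 1 * Kh := by gcongr
        _ = Kh := one_mul _) h4 t U
    (fun a => by
      have h1 : ((Sf D y b Q m U a).card : ℝ) ≤ U := by
        have : (Sf D y b Q m U a).card ≤ (Ioc m (m + U)).card := card_filter_le _ _
        rw [Nat.card_Ioc, Nat.add_sub_cancel_left] at this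
        exact_mod_cast this
      have h2 := rho_le_one D.card P hbig
      have h3 := rho_nonneg D.card P hbig
      calc rho D.card P * (Sf D y b Q m U a).card ≤ 1 * U := by gcongr
        _ = U := one_mul _)
  have hae : ∀ᵐ ω ∂μ, ∀ p ∈ P, A p ω < p := by
    rw [ae_all_iff]
    intro p
    by_cases hp : p ∈ P
    · have hpp := (hP p hp).1
      have h1 : μ {ω | A p ω < p} = 1 := by
        have h2 : {ω | A p ω < p} = ⋃ r ∈ range p, {ω | A p ω = r} := by
          ext ω; simp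
        have h3 : μ (⋃ r ∈ range p, {ω | A p ω = r}) = ∑ r ∈ range p, μ {ω | A p ω = r} := by
          refine measure_biUnion_finset ?_ ?_
          · intro r _ r' _ hne
            refine Set.disjoint_left.2 fun ω h h' => hne ?_
            exact (show A p ω = r from h).symm.trans (show A p ω = r' from h')
          · intro r _
            exact (hA.meas p) (measurableSet_singleton r)
        rw [h2, h3, sum_congr rfl fun r hr => hA.unif p hpp r (mem_range.1 hr), sum_const,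
          card_range, nsmul_eq_mul]
        exact ENNReal.mul_inv_cancel (by exact_mod_cast hpp.ne_zero) (ENNReal.natCast_ne_top p)
      have hms : MeasurableSet {ω | A p ω < p} := by
        have : {ω | A p ω < p} = A p ⁻¹' {r | r < p} := rfl
        rw [this]; exact (hA.meas p) MeasurableSet.of_discrete
      have h4 : ∀ᵐ ω ∂μ, A p ω < p := by
        rw [ae_iff]
        have : {ω | ¬ A p ω < p} = {ω | A p ω < p}ᶜ := rfl
        rw [this, prob_compl_eq_zero_iff hms]; exact h1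
      filter_upwards [h4] with ω hω _ using hω
    · exact Filter.Eventually.of_forall fun ω h => absurd h hp
  have hmono : μ {ω | t ≤ |((Sf D y b (Q ∪ P) m U (fun p => A p ω)).card : ℝ) -
      rho D.card P * (Sf D y b Q m U (fun p => A p ω)).card|} ≤
      μ {ω | t ≤ |((surv (OmD D) P (fun p => A p ω) (Sf D y b Q m U (fun p => A p ω))).card : ℝ) -
      rho D.card P * (Sf D y b Q m U (fun p => A p ω)).card|} := by
    refine measure_mono_ae ?_
    filter_upwards [hae] with ω hω h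
    have := surv_Sf D y b Q P m U (fun p => A p ω)
      (fun p hp => hyw.trans_lt (hP p hp).2) hω
    show t ≤ _
    rw [this]
    exact h
  refine hmono.trans (htail.trans (ENNReal.ofReal_le_ofReal ?_))
  gcongr
  have e1 : θ * (t - 4 * θ * Kh * U) = t ^ 2 / (16 * Kh * U) := by
    rw [hθ]; field_simp; ring
  rw [e1]

end Pool.Agent.H532.RM
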