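import Mathlib
import Pool.Agent.H532.RM.Block
import Pool.Graph.R_seed8.Y829.G2

/-!
The number of patterns in all intervals of a dyadic block, almost surely.
-/

namespace Pool.Agent.H532.RM

open Finset MeasureTheory Function ProbabilityTheory Filter
open scoped ENNReal Topology

/-- The number of the classes modulo `p` which are occupied by `D`. -/
def nuD (D : Finset ℕ) (p : ℕ) : ℕ := (D.image (fun d => d % p)).card

/-- The density of the patterns after sieving by the primes in `Q`. -/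
noncomputable def VDQ (D : Finset ℕ) (Q : Finset ℕ) : ℝ := ∏ p ∈ Q, (1 - (nuD D p : ℝ) / p)

/-- `∏_{p ≤ z} (1 - 1/p)` -/
noncomputable def V (z : ℕ) : ℝ := ∏ p ∈ primesLe z, (1 - 1 / (p : ℝ))

lemma nuD_le (D : Finset ℕ) (p : ℕ) : nuD D p ≤ D.card := card_image_le

lemma nuD_eq (D : Finset ℕ) (p : ℕ) (h : ∀ d ∈ D, d < p) : nuD D p = D.card := by
  refine card_image_of_injOn ?_
  intro d hd e he hde
  have h1 : d % p = e % p := hde
  rwa [Nat.mod_eq_of_lt (h d hd), Nat.mod_eq_of_lt (h e he)] at h1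

/-- the fundamental lemma for patterns -/
lemma fund (κ : ℕ) : ∃ C : ℕ, 1 ≤ C ∧ ∀ b : ℕ, C ≤ b → ∃ U0 : ℕ, ∀ U : ℕ, U0 ≤ U →
    ∀ (D : Finset ℕ), D.card = κ → ∀ (c : ℕ → ℕ) (Q : Finset ℕ),
    (∀ p ∈ Q, p.Prime ∧ (p : ℝ) ≤ (U : ℝ) ^ (1 / ((C : ℝ) * b)) ∧ nuD D p < p) → ∀ m : ℕ,
    |((TT D c Q m U).card : ℝ) - U * VDQ D Q| ≤ (1 / 2 : ℝ) ^ b * (U * VDQ D Q) := by
  obtain ⟨C, hC, h⟩ := Pool.Agent.Y829.small κ
  refine ⟨C, hC, fun b hb => ?_⟩
  obtain ⟨U0, h0⟩ := h b hb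
  refine ⟨U0, fun U hU D hD c Q hQ m => ?_⟩
  set Om : ℕ → Finset ℕ := fun p => D.image (fun d => (c p + (p - d % p)) % p) with hOm
  have hcard : ∀ p ∈ Q, (Om p).card = nuD D p := by
    intro p hp
    have hp0 := (hQ p hp).1.pos
    have h1 : Om p = (D.image (fun d => d % p)).image (fun e => (c p + (p - e)) % p) := by
      rw [hOm]; simp only [image_image]; rfl
    rw [h1, nuD]
    refine card_image_of_injOn ?_
    intro e he e' he' hee
    obtain ⟨d, _, rfl⟩ := mem_image.1 (mem_coe.1 he)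
    obtain ⟨d', _, rfl⟩ := mem_image.1 (mem_coe.1 he')
    have h2 : c p + (p - d % p) ≡ c p + (p - d' % p) [MOD p] := hee
    have h3 := Nat.ModEq.add_left_cancel' _ h2
    have l1 : d % p < p := Nat.mod_lt _ hp0
    have l2 : d' % p < p := Nat.mod_lt _ hp0
    have h4 : (p - d % p) + (d % p + d' % p) ≡ (p - d' % p) + (d % p + d' % p) [MOD p] :=
      Nat.ModEq.add_right _ h3
    have e1 : (p - d % p) + (d % p + d' % p) = p + d' % p := by omega
    have e2 : (p - d' % p) + (d % p + d' % p) = p + d % p := by omega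
    rw [e1, e2] at h4
    have h5 : d' % p ≡ d % p [MOD p] := Nat.ModEq.add_left_cancel' _ h4
    exact (Nat.ModEq.eq_of_lt_of_lt h5 l2 l1).symm
  have hVO : Pool.Agent.Y829.VO Om Q = VDQ D Q := by
    unfold Pool.Agent.Y829.VO VDQ
    exact prod_congr rfl fun p hp => by rw [hcard p hp]
  have hT : ((TT D c Q m U).card : ℝ) =
      (((Icc 1 U).filter (fun h => ∀ p ∈ Q, (m + h) % p ∉ Om p)).card : ℝ) := by
    have : TT D c Q m U = ((Icc 1 U).filter (fun h => ∀ p ∈ Q, (m + h) % p ∉ Om p)).image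
        (fun h => m + h) := by
      unfold TT
      ext n
      simp only [mem_filter, mem_image, mem_Ioc, mem_Icc]
      have key : ∀ n : ℕ, ∀ p ∈ Q, ∀ d : ℕ,
          ((n + d) % p = c p % p ↔ n % p = (c p + (p - d % p)) % p) := by
        intro n p hp d
        have hp0 := (hQ p hp).1.pos
        have l1 : d % p < p := Nat.mod_lt _ hp0
        have hz : d + (p - d % p) ≡ 0 [MOD p] := by
          have h1 : d + (p - d % p) ≡ d % p + (p - d % p) [MOD p] :=
            Nat.ModEq.add_right _ (Nat.mod_modEq d p).symm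
          have h2 : d % p + (p - d % p) = p := by omega
          rw [h2] at h1
          exact h1.trans (by simp [Nat.ModEq])
        constructor
        · intro h1
          have h2 : n + d ≡ c p [MOD p] := h1
          have h3 : n + d + (p - d % p) ≡ c p + (p - d % p) [MOD p] := h2.add_right _
          have h4 : n + d + (p - d % p) ≡ n [MOD p] := by
            have := hz.add_left n
            rw [add_zero, ← add_assoc] at this
            exact this
          exact h4.symm.trans h3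
        · intro h1
          have h2 : n ≡ c p + (p - d % p) [MOD p] := h1
          have h3 : n + d ≡ c p + (p - d % p) + d [MOD p] := h2.add_right _
          have h4 : c p + (p - d % p) + d ≡ c p [MOD p] := by
            have := hz.add_left (c p)
            rw [add_zero] at this
            have e : c p + (p - d % p) + d = c p + (d + (p - d % p)) := by ring
            rw [e]; exact this
          exact h3.trans h4
      constructor
      · rintro ⟨⟨h1, h2⟩, h3⟩
        refine ⟨n - m, ⟨⟨by omega, by omega⟩, ?_⟩, by omega⟩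
        intro p hp hin
        have e : m + (n - m) = n := by omega
        rw [e] at hin
        obtain ⟨d, hd, h4⟩ := mem_image.1 hin
        exact h3 d hd p hp ((key n p hp d).2 h4.symm)
      · rintro ⟨h, ⟨⟨h1, h2⟩, h3⟩, rfl⟩
        refine ⟨⟨by omega, by omega⟩, ?_⟩
        intro d hd p hp h4
        exact h3 p hp (mem_image.2 ⟨d, hd, ((key _ p hp d).1 h4).symm⟩)
    rw [this, card_image_of_injective _ (fun a b h => Nat.add_left_cancel h)]
  rw [hT, ← hVO]
  refine h0 U hU Q Om (fun p hp => ⟨(hQ p hp).1, (hQ p hp).2.1⟩) (fun p hp => ?_) m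
  refine ⟨?_, ?_, ?_⟩
  · intro r hr
    obtain ⟨d, _, rfl⟩ := mem_image.1 hr
    exact mem_range.2 (Nat.mod_lt _ (hQ p hp).1.pos)
  · rw [hcard p hp, ← hD]; exact nuD_le D p
  · rw [hcard p hp]; exact (hQ p hp).2.2

lemma one_sub_pow_le (p k : ℕ) (hp : 2 ≤ p) (hk : k * (k + 1) ≤ p) :
    (1 - 1 / (p : ℝ)) ^ (k + 1) ≤ 1 - (k : ℝ) / p := by
  have hp0 : (0 : ℝ) < p := by positivity
  have hp2 : (2 : ℝ) ≤ p := by exact_mod_cast hp
  have hx0 : 0 < 1 / (p : ℝ) := by positivity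
  have hx1 : 1 / (p : ℝ) ≤ 1 := by rw [div_le_one hp0]; linarith
  set x := 1 / (p : ℝ) with hx
  have h1 : (1 - x) ^ (k + 1) ≤ Real.exp (-((k + 1) * x)) := by
    have : 1 - x ≤ Real.exp (-x) := Real.one_sub_le_exp_neg x
    calc (1 - x) ^ (k + 1) ≤ Real.exp (-x) ^ (k + 1) := by
          gcongr
      _ = Real.exp (-((k + 1) * x)) := by
        rw [← Real.exp_nat_mul]; congr 1; push_cast; ring
  have h2 : Real.exp (-((k + 1) * x)) ≤ 1 / (1 + (k + 1) * x) := by
    rw [Real.exp_neg, one_div]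
    have h3 : 1 + (k + 1) * x ≤ Real.exp ((k + 1) * x) := by
      have := Real.add_one_le_exp ((k + 1) * x); linarith
    exact inv_anti₀ (by positivity) h3
  have h3 : 1 / (1 + (k + 1) * x) ≤ 1 - (k : ℝ) / p := by
    have e : (k : ℝ) / p = k * x := by rw [hx]; ring
    rw [e, div_le_iff₀ (by positivity)]
    have h4 : ((k * (k + 1) : ℕ) : ℝ) ≤ p := by exact_mod_cast hk
    push_cast at h4
    have h5 : (k * (k + 1) : ℝ) * x ≤ 1 := by
      rw [hx, mul_one_div, div_le_one hp0]; exact h4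
    nlinarith
  linarith

lemma VDQ_nonneg (D Q : Finset ℕ) (h : ∀ p ∈ Q, nuD D p < p) : 0 ≤ VDQ D Q := by
  refine prod_nonneg fun p hp => ?_
  have h1 : (nuD D p : ℝ) < p := by exact_mod_cast h p hp
  have h0 : (0 : ℝ) ≤ nuD D p := by positivity
  rw [sub_nonneg, div_le_one (by linarith)]
  exact h1.le

lemma VDQ_le_one (D Q : Finset ℕ) (h : ∀ p ∈ Q, nuD D p < p) : VDQ D Q ≤ 1 := by
  refine prod_le_one (fun p hp => ?_) (fun p hp => ?_)
  · have h1 : (nuD D p : ℝ) < p := by exact_mod_cast h p hp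
    have h0 : (0 : ℝ) ≤ nuD D p := by positivity
    rw [sub_nonneg, div_le_one (by linarith)]
    exact h1.le
  · have : (0 : ℝ) ≤ (nuD D p : ℝ) / p := by positivity
    linarith

lemma VDQ_union (D : Finset ℕ) {Q P : Finset ℕ} (h : Disjoint Q P) :
    VDQ D (Q ∪ P) = VDQ D Q * VDQ D P := prod_union h

lemma VDQ_eq_rho (D P : Finset ℕ) (h : ∀ p ∈ P, ∀ d ∈ D, d < p) :
    VDQ D P = rho D.card P := prod_congr rfl fun p hp => by rw [nuD_eq D p (h p hp)]

/-- A crude lower bound for the density. -/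
lemma VDQ_lower (κ : ℕ) : ∃ c : ℝ, 0 < c ∧ ∀ D : Finset ℕ, D.card ≤ κ →
    (∀ p : ℕ, p.Prime → nuD D p < p) → ∀ Z : ℕ, c * V Z ^ (κ + 1) ≤ VDQ D (primesLe Z) := by
  set p0 : ℕ := κ * (κ + 1) + 2 with hp0
  refine ⟨(1 / (p0 : ℝ)) ^ p0, by positivity, fun D hD hadm Z => ?_⟩
  have hp0r : (1 : ℝ) ≤ p0 := by exact_mod_cast (by omega : 1 ≤ p0)
  have h1 : ∀ p ∈ primesLe Z, (if p < p0 then 1 / (p0 : ℝ) else 1) * (1 - 1 / (p : ℝ)) ^ (κ + 1) ≤
      1 - (nuD D p : ℝ) / p := by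
    intro p hp
    have hpp := (mem_primesLe.1 hp).2
    have hp2 : (2 : ℝ) ≤ p := by exact_mod_cast hpp.two_le
    have hx1 : 1 / (p : ℝ) ≤ 1 := by rw [div_le_one (by linarith)]; linarith
    have hx0 : 0 ≤ 1 / (p : ℝ) := by positivity
    have hpow : (1 - 1 / (p : ℝ)) ^ (κ + 1) ≤ 1 := pow_le_one₀ (by linarith) (by linarith)
    have hpow0 : 0 ≤ (1 - 1 / (p : ℝ)) ^ (κ + 1) := pow_nonneg (by linarith) _
    split_ifs with hlt
    · have h2 : (nuD D p : ℝ) ≤ p - 1 := by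
        have := hadm p hpp
        have h3 : nuD D p + 1 ≤ p := this
        have : (nuD D p : ℝ) + 1 ≤ p := by exact_mod_cast h3
        linarith
      have h3 : 1 / (p : ℝ) ≤ 1 - (nuD D p : ℝ) / p := by
        rw [le_sub_iff_add_le, ← add_div, div_le_one (by linarith)]
        linarith
      have h4 : 1 / (p0 : ℝ) ≤ 1 / p := by
        have : (p : ℝ) ≤ p0 := by exact_mod_cast hlt.le
        gcongr
      have h5 : 0 ≤ 1 / (p0 : ℝ) := by positivity
      nlinarith
    · rw [one_mul]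
      have h2 := one_sub_pow_le p κ hpp.two_le (by omega)
      have h3 : (nuD D p : ℝ) / p ≤ κ / p := by
        have : (nuD D p : ℝ) ≤ κ := by exact_mod_cast (nuD_le D p).trans hD
        gcongr
      linarith
  have h2 : ∏ p ∈ primesLe Z, ((if p < p0 then 1 / (p0 : ℝ) else 1) *
      (1 - 1 / (p : ℝ)) ^ (κ + 1)) ≤ VDQ D (primesLe Z) := by
    refine prod_le_prod (fun p hp => ?_) h1
    have hpp := (mem_primesLe.1 hp).2
    have hp2 : (2 : ℝ) ≤ p := by exact_mod_cast hpp.two_le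
    have hx1 : 1 / (p : ℝ) ≤ 1 := by rw [div_le_one (by linarith)]; linarith
    have : 0 ≤ 1 - 1 / (p : ℝ) := by linarith
    split_ifs <;> positivity
  refine le_trans ?_ h2
  rw [prod_mul_distrib, prod_pow]
  have h3 : (1 / (p0 : ℝ)) ^ p0 ≤ ∏ p ∈ primesLe Z, (if p < p0 then 1 / (p0 : ℝ) else 1) := by
    rw [prod_ite, prod_const, prod_const_one, mul_one]
    have h4 : ((primesLe Z).filter (fun p => p < p0)).card ≤ p0 := by
      calc ((primesLe Z).filter (fun p => p < p0)).card ≤ (range p0).card := by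
            refine card_le_card fun p hp => ?_
            exact mem_range.2 (mem_filter.1 hp).2
        _ = p0 := card_range _
    refine pow_le_pow_of_le_one (by positivity) ?_ h4
    rw [div_le_one (by positivity)]; exact hp0r
  have hV : 0 ≤ V Z ^ (κ + 1) := by
    refine pow_nonneg (prod_nonneg fun p hp => ?_) _
    have hpp := (mem_primesLe.1 hp).2
    have hp2 : (2 : ℝ) ≤ p := by exact_mod_cast hpp.two_le
    have hx1 : 1 / (p : ℝ) ≤ 1 := by rw [div_le_one (by linarith)]; linarith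
    linarith
  exact mul_le_mul_of_nonneg_right h3 hV

lemma borel_cantelli_nat {Ω : Type} [MeasurableSpace Ω] (μ : Measure Ω) [IsProbabilityMeasure μ]
    (E : ℕ → Set Ω) (hE : ∀ᶠ j : ℕ in atTop, μ (E j) ≤ ENNReal.ofReal ((1 / 2 : ℝ) ^ j)) :
    ∀ᵐ ω ∂μ, ∀ᶠ j : ℕ in atTop, ω ∉ E j := by
  classical
  obtain ⟨J, hJ⟩ := eventually_atTop.1 hE
  have h1 : ∑' j, μ (if J ≤ j then E j else ∅) ≠ ∞ := by
    have h2 : ∀ j, μ (if J ≤ j then E j else ∅) ≤ ENNReal.ofReal ((1 / 2 : ℝ) ^ j) := by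
      intro j
      split_ifs with h
      · exact hJ j h
      · simp
    have h3 : Summable (fun j : ℕ => (1 / 2 : ℝ) ^ j) := summable_geometric_two
    refine ne_top_of_le_ne_top ?_ (ENNReal.tsum_le_tsum h2)
    exact h3.tsum_ofReal_ne_top
  have h4 := ae_eventually_notMem h1
  filter_upwards [h4] with ω hω
  filter_upwards [hω, eventually_ge_atTop J] with j hj hJj
  rwa [if_pos hJj] at hj

/-- All intervals of a dyadic block. -/
theorem main_block (κ : ℕ) (hκ : 1 ≤ κ) (β : ℕ) : ∃ K : ℕ, 1 ≤ K ∧ ∀ {Ω : Type}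
    [MeasurableSpace Ω] (μ : Measure Ω) [IsProbabilityMeasure μ] (A : ℕ → Ω → ℕ),
    RandomClasses μ A → ∀ (Z : ℕ → ℕ) (c : ℝ), 0 < c → (∀ᶠ j : ℕ in atTop, c / j ≤ V (Z j)) →
    ∀ (y : ℕ → ℕ) (b : ℕ → ℕ → ℕ) (D : Finset ℕ), D.card = κ →
    (∀ p : ℕ, p.Prime → nuD D p < p) →
    ∀ᵐ ω ∂μ, ∀ᶠ j : ℕ in atTop, ∀ m ≤ 2 ^ (j + 1), ∀ U ≤ 2 ^ (j + 1), (y j + j) ^ K ≤ U →
      |((TT D (mix (y j) (b j) (fun p => A p ω)) (primesLe (Z j)) m U).card : ℝ) -
        U * VDQ D (primesLe (Z j))| ≤ (1 / 2) ^ β * (U * VDQ D (primesLe (Z j))) := by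
  classical
  obtain ⟨C, hC, hf⟩ := fund κ
  set bb : ℕ := max C (β + 1) with hbb
  obtain ⟨U0, h0⟩ := hf bb (le_max_left _ _)
  obtain ⟨c1, hc1, hlow⟩ := VDQ_lower κ
  set K1 : ℕ := 2 * κ + 6 with hK1
  have hbb1 : 1 ≤ bb := by omega
  have hCb : 1 ≤ C * bb := Nat.mul_pos hC hbb1
  refine ⟨K1 * (C * bb), Nat.mul_pos (by omega) hCb, ?_⟩
  intro Ω _ μ _ A hA Z c hc hZ y b D hD hadm
  have hDne : D.Nonempty := card_pos.1 (by omega)
  set w : ℕ → ℕ := fun j => (y j + j) ^ K1 with hw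
  set Q : ℕ → Finset ℕ := fun j => (primesLe (Z j)).filter (fun p => p ≤ w j) with hQ
  set P : ℕ → Finset ℕ := fun j => (primesLe (Z j)).filter (fun p => ¬ p ≤ w j) with hP
  have hQP : ∀ j, Q j ∪ P j = primesLe (Z j) := fun j => filter_union_filter_not_eq _ _
  have hdisj : ∀ j, Disjoint (Q j) (P j) := fun j => disjoint_filter_filter_not _ _ _
  set VD : ℕ → ℝ := fun j => VDQ D (primesLe (Z j)) with hVD
  set c2 : ℝ := (1 / 4) ^ (β + 1) * (c1 ^ 2 * c ^ (2 * κ + 2)) / (32 * κ) with hc2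
  have hκr : (1 : ℝ) ≤ κ := by exact_mod_cast hκ
  have hc2pos : 0 < c2 := by rw [hc2]; positivity
  set T : ℕ → ℕ → ℝ := fun j U => (1 / 2) ^ (β + 1) * (U * VD j) with hT
  set E : ℕ → ℕ → ℕ → Set Ω := fun j m U =>
    {ω | T j U ≤ |((Sf D (y j) (b j) (Q j ∪ P j) m U (fun p => A p ω)).card : ℝ) -
      rho D.card (P j) * (Sf D (y j) (b j) (Q j) m U (fun p => A p ω)).card|} with hE
  set F : ℕ → Finset ℕ := fun j => (range (2 ^ (j + 1) + 1)).filter
    (fun U => (y j + j) ^ (K1 * (C * bb)) ≤ U) with hF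
  obtain ⟨DM, hDM⟩ : ∃ DM : ℕ, ∀ d ∈ D, d ≤ DM := ⟨D.sup id, fun d hd => le_sup (f := id) hd⟩
  have hVDnn : ∀ j, 0 ≤ VD j := fun j =>
    VDQ_nonneg D _ fun p hp => hadm p (mem_primesLe.1 hp).2
  have hVDle : ∀ j, VD j ≤ 1 := fun j =>
    VDQ_le_one D _ fun p hp => hadm p (mem_primesLe.1 hp).2
  -- conditions for large j
  have hev : ∀ᶠ j : ℕ in atTop, c / j ≤ V (Z j) ∧ 2 ≤ j ∧ U0 ≤ j ∧ DM ≤ j ∧ 4 * κ ≤ j ∧
      12 / c2 ≤ j := by
    have e1 : ∀ᶠ j : ℕ in atTop, 12 / c2 ≤ (j : ℝ) :=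
      tendsto_natCast_atTop_atTop.eventually_ge_atTop _
    filter_upwards [hZ, eventually_ge_atTop 2, eventually_ge_atTop U0, eventually_ge_atTop DM,
      eventually_ge_atTop (4 * κ), e1] with j h1 h2 h3 h4 h5 h6
    exact ⟨h1, h2, h3, h4, h5, h6⟩
  -- facts for large j and admissible U
  have hjw : ∀ j, 2 ≤ j → j ≤ w j := by
    intro j hj
    calc j ≤ y j + j := Nat.le_add_left _ _
      _ ≤ (y j + j) ^ K1 := Nat.le_self_pow (by omega) _
  have hyw : ∀ j, 2 ≤ j → y j ≤ w j := by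
    intro j hj
    calc y j ≤ y j + j := Nat.le_add_right _ _
      _ ≤ (y j + j) ^ K1 := Nat.le_self_pow (by omega) _
  have hwU : ∀ j U, (y j + j) ^ (K1 * (C * bb)) ≤ U → w j ^ (C * bb) ≤ U := by
    intro j U h
    rw [hw]; simp only; rw [← pow_mul]; exact h
  have hexp : ∀ j, (c / j ≤ V (Z j) ∧ 2 ≤ j ∧ U0 ≤ j ∧ DM ≤ j ∧ 4 * κ ≤ j ∧ 12 / c2 ≤ j) →
      ∀ U ∈ F j, 4 * ((j : ℝ) + 2) ≤ T j U ^ 2 / (16 * (D.card * ((U : ℝ) / w j + 1)) * U) := by
    rintro j ⟨hj1, hj2, hj3, hj4, hj5, hj6⟩ U hU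
    have hU' := (mem_filter.1 hU).2
    have hwU' := hwU j U hU'
    have hjw' := hjw j hj2
    have hw1 : 1 ≤ w j := by omega
    have hwU1 : w j ≤ U := (Nat.le_self_pow (by omega) _).trans hwU'
    have hwr : (1 : ℝ) ≤ w j := by exact_mod_cast hw1
    have hwUr : (w j : ℝ) ≤ U := by exact_mod_cast hwU1
    have hUr : (1 : ℝ) ≤ U := by linarith
    have hjr : (2 : ℝ) ≤ j := by exact_mod_cast hj2
    have hU1 : (U : ℝ) / w j + 1 ≤ 2 * U / w j := by
      rw [div_add_one (by linarith), div_le_div_iff_of_pos_right (by linarith)]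
      linarith
    have hVlow : c1 * (c / j) ^ (κ + 1) ≤ VD j := by
      refine le_trans ?_ (hlow D hD.le hadm (Z j))
      gcongr
    have hVlow2 : c1 ^ 2 * c ^ (2 * κ + 2) * (j : ℝ) ^ 4 ≤ VD j ^ 2 * w j := by
      have h1 : (c1 * (c / j) ^ (κ + 1)) ^ 2 ≤ VD j ^ 2 := by gcongr
      have h2 : (j : ℝ) ^ K1 ≤ w j := by
        rw [hw]; push_cast
        gcongr
        have : (0 : ℝ) ≤ y j := by positivity
        linarith
      have h3 : (c1 * (c / j) ^ (κ + 1)) ^ 2 * (j : ℝ) ^ K1 ≤ VD j ^ 2 * w j := by gcongr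
      have h4 : (c1 * (c / j) ^ (κ + 1)) ^ 2 * (j : ℝ) ^ K1 =
          c1 ^ 2 * c ^ (2 * κ + 2) * (j : ℝ) ^ 4 := by
        rw [hK1]
        have hj0 : (j : ℝ) ≠ 0 := by linarith
        rw [div_pow, mul_pow, div_pow, ← pow_mul, ← pow_mul]
        have : (j : ℝ) ^ (2 * κ + 6) = (j : ℝ) ^ ((κ + 1) * 2) * (j : ℝ) ^ 4 := by
          rw [← pow_add]; congr 1; ring
        rw [this]
        have e : (κ + 1) * 2 = 2 * κ + 2 := by ring
        rw [e]
        field_simp
      linarith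
    calc 4 * ((j : ℝ) + 2) ≤ c2 * (j : ℝ) ^ 4 := by
          have h1 : 12 ≤ c2 * j := by
            rw [div_le_iff₀ hc2pos] at hj6; linarith
          have h2 : (12 : ℝ) * j ^ 3 ≤ c2 * j ^ 4 := by
            calc (12 : ℝ) * j ^ 3 ≤ (c2 * j) * j ^ 3 := by gcongr
              _ = c2 * j ^ 4 := by ring
          have h3 : (j : ℝ) ≤ j ^ 3 := le_self_pow₀ (by linarith) (by norm_num)
          linarith
      _ ≤ (1 / 4) ^ (β + 1) * (VD j ^ 2 * w j) / (32 * κ) := by
          rw [hc2]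
          have : (1 / 4 : ℝ) ^ (β + 1) * (c1 ^ 2 * c ^ (2 * κ + 2)) / (32 * κ) * (j : ℝ) ^ 4 =
              (1 / 4 : ℝ) ^ (β + 1) * (c1 ^ 2 * c ^ (2 * κ + 2) * (j : ℝ) ^ 4) / (32 * κ) := by
            ring
          rw [this]
          gcongr
      _ = T j U ^ 2 / (16 * (D.card * (2 * U / w j)) * U) := by
          rw [hT, hD]; simp only
          have h14 : (1 / 4 : ℝ) ^ (β + 1) = ((1 / 2 : ℝ) ^ (β + 1)) ^ 2 := by
            rw [← pow_mul, mul_comm, pow_mul]; norm_num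
          rw [h14]
          field_simp
          ring
      _ ≤ T j U ^ 2 / (16 * (D.card * ((U : ℝ) / w j + 1)) * U) := by
          have hD0 : (1 : ℝ) ≤ D.card := by rw [hD]; exact hκr
          gcongr
  have hmeas : ∀ᶠ j : ℕ in atTop,
      μ (⋃ m ∈ range (2 ^ (j + 1) + 1), ⋃ U ∈ F j, E j m U) ≤
        ENNReal.ofReal ((1 / 2 : ℝ) ^ j) := by
    filter_upwards [hev] with j hj
    have hj' := hj
    obtain ⟨hj1, hj2, hj3, hj4, hj5, hj6⟩ := hj'
    have h1 : ∀ m ∈ range (2 ^ (j + 1) + 1), ∀ U ∈ F j, μ (E j m U) ≤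
        ENNReal.ofReal (2 * Real.exp (-(4 * ((j : ℝ) + 2)))) := by
      intro m _ U hU
      have hU' := (mem_filter.1 hU).2
      have hwU' := hwU j U hU'
      have hjw' := hjw j hj2
      have hw1 : 1 ≤ w j := by omega
      have hwU1 : w j ≤ U := (Nat.le_self_pow (by omega) _).trans hwU'
      have htail := block_tail hA D hDne (y j) (b j) (Q j) (P j)
        (fun p hp => (mem_primesLe.1 (mem_filter.1 hp).1).2) (hdisj j) (w j) hw1
        (fun p hp => ⟨(mem_primesLe.1 (mem_filter.1 hp).1).2, not_le.1 (mem_filter.1 hp).2⟩)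
        (hyw j hj2) (fun d hd => (hDM d hd).trans (hj4.trans hjw'))
        (by rw [hD]; exact hj5.trans hjw') m U (by omega) (T j U)
        (by rw [hT]; have := hVDnn j; positivity)
        (by
          rw [hT]; simp only
          have h2 : (U : ℝ) * VD j ≤ U * 1 := by gcongr; exact hVDle j
          have h3 : (1 / 2 : ℝ) ^ (β + 1) ≤ 1 := pow_le_one₀ (by norm_num) (by norm_num)
          have h4 : 0 ≤ (U : ℝ) * VD j := mul_nonneg (by positivity) (hVDnn j)
          nlinarith)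
      refine htail.trans (ENNReal.ofReal_le_ofReal ?_)
      have := hexp j hj U hU
      gcongr
    calc μ (⋃ m ∈ range (2 ^ (j + 1) + 1), ⋃ U ∈ F j, E j m U)
        ≤ ∑ m ∈ range (2 ^ (j + 1) + 1), μ (⋃ U ∈ F j, E j m U) :=
          measure_biUnion_finset_le _ _
      _ ≤ ∑ m ∈ range (2 ^ (j + 1) + 1), ∑ U ∈ F j, μ (E j m U) := by
          gcongr with m hm
          exact measure_biUnion_finset_le _ _
      _ ≤ ∑ m ∈ range (2 ^ (j + 1) + 1), ∑ U ∈ F j,
            ENNReal.ofReal (2 * Real.exp (-(4 * ((j : ℝ) + 2)))) := by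
          gcongr with m hm U hU
          exact h1 m hm U hU
      _ ≤ ∑ m ∈ range (2 ^ (j + 1) + 1), ∑ U ∈ range (2 ^ (j + 1) + 1),
            ENNReal.ofReal (2 * Real.exp (-(4 * ((j : ℝ) + 2)))) := by
          gcongr
          exact filter_subset _ _
      _ = ENNReal.ofReal (((2 : ℝ) ^ (j + 1) + 1) * (((2 : ℝ) ^ (j + 1) + 1) *
            (2 * Real.exp (-(4 * ((j : ℝ) + 2)))))) := by
          rw [sum_const, sum_const, card_range, nsmul_eq_mul, nsmul_eq_mul]
          have hp0 : (0 : ℝ) ≤ (2 : ℝ) ^ (j + 1) + 1 := by positivity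
          have : ENNReal.ofReal ((2 : ℝ) ^ (j + 1) + 1) = ((2 ^ (j + 1) + 1 : ℕ) : ℝ≥0∞) := by
            rw [← ENNReal.ofReal_natCast]; push_cast; rfl
          rw [ENNReal.ofReal_mul hp0, ENNReal.ofReal_mul hp0, this]
      _ ≤ ENNReal.ofReal ((1 / 2 : ℝ) ^ j) := by
          refine ENNReal.ofReal_le_ofReal ?_
          have h2 : (2 : ℝ) ^ (j + 1) + 1 ≤ 2 ^ (j + 2) := by
            have : (1 : ℝ) ≤ 2 ^ (j + 1) := one_le_pow₀ (by norm_num)
            have e : (2 : ℝ) ^ (j + 2) = 2 ^ (j + 1) + 2 ^ (j + 1) := by ring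
            rw [e]; linarith
          have h3 : Real.exp (-(4 * ((j : ℝ) + 2))) ≤ (1 / 16 : ℝ) ^ (j + 2) := by
            have h4 : Real.exp (-4) ≤ 1 / 16 := by
              rw [Real.exp_neg, ← one_div]
              refine one_div_le_one_div_of_le (by norm_num) ?_
              have h5 := Real.exp_one_gt_d9
              have h6 : Real.exp 4 = Real.exp 1 ^ 4 := by rw [← Real.exp_nat_mul]; norm_num
              rw [h6]
              have h7 : (2 : ℝ) ≤ Real.exp 1 := by linarith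
              calc (16 : ℝ) = 2 ^ 4 := by norm_num
                _ ≤ Real.exp 1 ^ 4 := by gcongr
            calc Real.exp (-(4 * ((j : ℝ) + 2))) = Real.exp (-4) ^ (j + 2) := by
                  rw [← Real.exp_nat_mul]; congr 1; push_cast; ring
              _ ≤ (1 / 16 : ℝ) ^ (j + 2) := by gcongr
          calc ((2 : ℝ) ^ (j + 1) + 1) * (((2 : ℝ) ^ (j + 1) + 1) *
              (2 * Real.exp (-(4 * ((j : ℝ) + 2)))))
              ≤ 2 ^ (j + 2) * (2 ^ (j + 2) * (2 * (1 / 16 : ℝ) ^ (j + 2))) := by gcongr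
            _ = 2 * (1 / 4) ^ (j + 2) := by
                have : (1 / 16 : ℝ) ^ (j + 2) = (1 / 2) ^ (j + 2) * ((1 / 2) ^ (j + 2) *
                    (1 / 4) ^ (j + 2)) := by
                  rw [← mul_pow, ← mul_pow]; norm_num
                rw [this]
                have h5 : (2 : ℝ) ^ (j + 2) * (1 / 2) ^ (j + 2) = 1 := by
                  rw [← mul_pow]; norm_num
                calc (2 : ℝ) ^ (j + 2) * (2 ^ (j + 2) * (2 * ((1 / 2) ^ (j + 2) *
                    ((1 / 2) ^ (j + 2) * (1 / 4) ^ (j + 2)))))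
                    = (2 ^ (j + 2) * (1 / 2) ^ (j + 2)) * (2 ^ (j + 2) * (1 / 2) ^ (j + 2)) *
                      (2 * (1 / 4) ^ (j + 2)) := by ring
                  _ = 2 * (1 / 4) ^ (j + 2) := by rw [h5]; ring
            _ ≤ (1 / 2 : ℝ) ^ j := by
                have h6 : (1 / 4 : ℝ) ^ j ≤ (1 / 2) ^ j := by gcongr; norm_num
                have e : (1 / 4 : ℝ) ^ (j + 2) = (1 / 16) * (1 / 4) ^ j := by ring
                rw [e]
                have h7 : (0 : ℝ) ≤ (1 / 4 : ℝ) ^ j := by positivity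
                linarith
  have hbc := borel_cantelli_nat μ _ hmeas
  filter_upwards [hbc] with ω hω
  filter_upwards [hω, hev] with j hj hjc m hm U hU hyU
  obtain ⟨hj1, hj2, hj3, hj4, hj5, hj6⟩ := hjc
  have hUF : U ∈ F j := mem_filter.2 ⟨mem_range.2 (by omega), hyU⟩
  have hnot : ω ∉ E j m U := by
    intro h
    refine hj ?_
    refine Set.mem_biUnion (x := m) (mem_coe.2 (mem_range.2 (by omega))) ?_
    exact Set.mem_biUnion (x := U) (mem_coe.2 hUF) h
  have hlt : |((Sf D (y j) (b j) (Q j ∪ P j) m U (fun p => A p ω)).card : ℝ) -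
      rho D.card (P j) * (Sf D (y j) (b j) (Q j) m U (fun p => A p ω)).card| < T j U :=
    not_le.1 hnot
  have hwU' := hwU j U hyU
  have hjw' := hjw j hj2
  have hfund := h0 U (by
      have h1 : j ≤ (y j + j) ^ (K1 * (C * bb)) :=
        (Nat.le_add_left _ _).trans (Nat.le_self_pow
          (Nat.mul_pos (by omega) hCb).ne' _)
      omega) D hD (mix (y j) (b j) (fun p => A p ω)) (Q j)
    (fun p hp => by
      have h1 := mem_filter.1 hp
      have h2 := (mem_primesLe.1 h1.1).2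
      refine ⟨h2, ?_, hadm p h2⟩
      have h3 : (p : ℝ) ≤ w j := by exact_mod_cast h1.2
      refine h3.trans ?_
      have h4 : ((w j : ℝ) ^ (C * bb)) ≤ U := by exact_mod_cast hwU'
      have h5 : ((w j : ℝ) ^ (C * bb)) ^ (1 / ((C : ℝ) * bb)) ≤ (U : ℝ) ^ (1 / ((C : ℝ) * bb)) :=
        Real.rpow_le_rpow (by positivity) h4 (by positivity)
      have h6 : ((w j : ℝ) ^ (C * bb)) ^ (1 / ((C : ℝ) * bb)) = w j := by
        rw [one_div, ← Nat.cast_mul]
        exact Real.pow_rpow_inv_natCast (by positivity) (by omega)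
      rw [h6] at h5
      exact h5) m
  have hρ : VDQ D (P j) = rho D.card (P j) := VDQ_eq_rho D (P j) fun p hp d hd => by
    have h1 := not_le.1 (mem_filter.1 hp).2
    have h2 := hDM d hd
    omega
  have hVDj : VD j = VDQ D (Q j) * rho D.card (P j) := by
    rw [hVD]; simp only; rw [← hQP j, VDQ_union D (hdisj j), hρ]
  have hbig : ∀ p ∈ P j, 0 < p ∧ 4 * D.card ≤ p := fun p hp => by
    have h1 := not_le.1 (mem_filter.1 hp).2
    rw [hD]
    exact ⟨by omega, by omega⟩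
  have hρ0 := rho_nonneg D.card (P j) hbig
  have hSf : ∀ Q' : Finset ℕ, Sf D (y j) (b j) Q' m U (fun p => A p ω) =
      TT D (mix (y j) (b j) (fun p => A p ω)) Q' m U := fun _ => rfl
  rw [hSf, hSf, hQP j] at hlt
  have hb2 : (1 / 2 : ℝ) ^ bb ≤ (1 / 2) ^ (β + 1) :=
    pow_le_pow_of_le_one (by norm_num) (by norm_num) (le_max_right _ _)
  have hUV : 0 ≤ (U : ℝ) * VD j := mul_nonneg (by positivity) (hVDnn j)
  set T1 := ((TT D (mix (y j) (b j) (fun p => A p ω)) (primesLe (Z j)) m U).card : ℝ) with hT1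
  set T2 := ((TT D (mix (y j) (b j) (fun p => A p ω)) (Q j) m U).card : ℝ) with hT2
  have e1 : T1 - U * VD j = (T1 - rho D.card (P j) * T2) +
      rho D.card (P j) * (T2 - U * VDQ D (Q j)) := by rw [hVDj]; ring
  show |T1 - U * VD j| ≤ (1 / 2) ^ β * (U * VD j)
  rw [e1]
  calc |(T1 - rho D.card (P j) * T2) + rho D.card (P j) * (T2 - U * VDQ D (Q j))|
      ≤ |T1 - rho D.card (P j) * T2| + |rho D.card (P j) * (T2 - U * VDQ D (Q j))| :=
        abs_add_le _ _
    _ = |T1 - rho D.card (P j) * T2| + rho D.card (P j) * |T2 - U * VDQ D (Q j)| := by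
        rw [abs_mul, abs_of_nonneg hρ0]
    _ ≤ T j U + rho D.card (P j) * ((1 / 2 : ℝ) ^ bb * (U * VDQ D (Q j))) := by
        gcongr
    _ = T j U + (1 / 2 : ℝ) ^ bb * (U * VD j) := by rw [hVDj]; ring
    _ ≤ (1 / 2 : ℝ) ^ (β + 1) * (U * VD j) + (1 / 2 : ℝ) ^ (β + 1) * (U * VD j) := by
        gcongr
    _ = (1 / 2 : ℝ) ^ β * (U * VD j) := by ring

end Pool.Agent.H532.RM
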