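import Mathlib
import Pool.Agent.H532.RM.Main

/-!
The semi-random sieve: the numbers of survivors in all intervals.
-/

namespace Pool.Agent.H532.RM

open Finset MeasureTheory Function ProbabilityTheory Filter
open scoped ENNReal Topology

/-- The semi-random sieve. -/
def RS (z y : ℕ → ℕ) (b : ℕ → ℕ → ℕ) (a : ℕ → ℕ) : Set ℕ :=
  {n | ∀ p : ℕ, p.Prime → p ≤ z n → ¬ n ≡ mix (y (Nat.log 2 n)) (b (Nat.log 2 n)) a p [MOD p]}

lemma nuD_zero (p : ℕ) : nuD {0} p = 1 := by simp [nuD]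

lemma VDQ_zero (Z : ℕ) : VDQ {0} (primesLe Z) = V Z := by
  unfold VDQ V
  exact prod_congr rfl fun p _ => by rw [nuD_zero]; norm_num

lemma V_pos (Z : ℕ) : 0 < V Z := by
  refine prod_pos fun p hp => ?_
  have hp2 : (2 : ℝ) ≤ p := by exact_mod_cast (mem_primesLe.1 hp).2.two_le
  rw [sub_pos, div_lt_one (by linarith)]
  linarith

/-- the number of elements of `R` in `(m, m + U]` -/
noncomputable def cn (R : Set ℕ) (m U : ℕ) : ℝ :=
  letI := Classical.decPred (· ∈ R)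
  (((Ioc m (m + U)).filter (· ∈ R)).card : ℝ)

lemma log2_of_mem {j n : ℕ} (h1 : 2 ^ j ≤ n) (h2 : n < 2 ^ (j + 1)) : Nat.log 2 n = j :=
  Nat.log_eq_of_pow_le_of_lt_pow h1 h2

lemma cn_le_TT (z y : ℕ → ℕ) (hz : Monotone z) (b : ℕ → ℕ → ℕ) (a : ℕ → ℕ) (j m U : ℕ)
    (hm : 2 ^ j ≤ m + 1) (hU : m + U < 2 ^ (j + 1)) :
    cn (RS z y b a) m U ≤
      ((TT {0} (mix (y j) (b j) a) (primesLe (z (2 ^ j))) m U).card : ℝ) := by
  classical
  unfold cn
  have : (Ioc m (m + U)).filter (· ∈ RS z y b a) ⊆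
      TT {0} (mix (y j) (b j) a) (primesLe (z (2 ^ j))) m U := by
    intro n hn
    obtain ⟨h1, h2⟩ := mem_filter.1 hn
    have h3 := mem_Ioc.1 h1
    have hlog : Nat.log 2 n = j := log2_of_mem (by omega) (by omega)
    refine mem_filter.2 ⟨h1, ?_⟩
    intro d hd p hp h4
    rw [mem_singleton] at hd
    subst hd
    have hp' := mem_primesLe.1 hp
    have hz' : z (2 ^ j) ≤ z n := hz (by omega)
    have h5 := h2 p hp'.2 (hp'.1.trans hz')
    rw [hlog] at h5
    exact h5 h4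
  convert (Nat.cast_le (α := ℝ)).2 (card_le_card this) using 3

lemma TT_le_cn (z y : ℕ → ℕ) (hz : Monotone z) (b : ℕ → ℕ → ℕ) (a : ℕ → ℕ) (j m U : ℕ)
    (hm : 2 ^ j ≤ m + 1) (hU : m + U < 2 ^ (j + 1)) :
    ((TT {0} (mix (y j) (b j) a) (primesLe (z (2 ^ (j + 1)))) m U).card : ℝ) ≤
      cn (RS z y b a) m U := by
  classical
  unfold cn
  have : TT {0} (mix (y j) (b j) a) (primesLe (z (2 ^ (j + 1)))) m U ⊆
      (Ioc m (m + U)).filter (· ∈ RS z y b a) := by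
    intro n hn
    obtain ⟨h1, h2⟩ := mem_filter.1 hn
    have h3 := mem_Ioc.1 h1
    have hlog : Nat.log 2 n = j := log2_of_mem (by omega) (by omega)
    refine mem_filter.2 ⟨h1, ?_⟩
    intro p hp hpz h4
    rw [hlog] at h4
    have hz' : z n ≤ z (2 ^ (j + 1)) := hz (by omega)
    exact h2 0 (mem_singleton_self 0) p (mem_primesLe.2 ⟨hpz.trans hz', hp⟩) h4
  convert (Nat.cast_le (α := ℝ)).2 (card_le_card this) using 3

/-- the limit along powers of two -/
lemma V_pow_two (z : ℕ → ℕ) (hz : Tendsto (fun n : ℕ => V (z n) * Real.log n) atTop (𝓝 1)) :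
    Tendsto (fun j : ℕ => V (z (2 ^ j)) * (j * Real.log 2)) atTop (𝓝 1) := by
  have h1 : Tendsto (fun j : ℕ => 2 ^ j) atTop (atTop : Filter ℕ) :=
    tendsto_pow_atTop_atTop_of_one_lt (by norm_num)
  refine (hz.comp h1).congr fun j => ?_
  simp

lemma V_pow_two' (z : ℕ → ℕ) (hz : Tendsto (fun n : ℕ => V (z n) * Real.log n) atTop (𝓝 1)) :
    Tendsto (fun j : ℕ => V (z (2 ^ (j + 1))) * (j * Real.log 2)) atTop (𝓝 1) := by
  have h1 := (V_pow_two z hz).comp (tendsto_add_atTop_nat 1)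
  have h2 : Tendsto (fun j : ℕ => (j : ℝ) / ((j : ℝ) + 1)) atTop (𝓝 1) :=
    tendsto_natCast_div_add_atTop (1 : ℝ)
  have h3 := h1.mul h2
  rw [mul_one] at h3
  refine h3.congr fun j => ?_
  simp only [comp_apply]
  have hj : ((j : ℝ) + 1) ≠ 0 := by positivity
  push_cast
  field_simp

/-- In the blocks: for all pieces of a block. -/
theorem block_prop (δ : ℝ) (hδ : 0 < δ) : ∃ K : ℕ, 1 ≤ K ∧ ∀ {Ω : Type}
    [MeasurableSpace Ω] (μ : Measure Ω) [IsProbabilityMeasure μ] (A : ℕ → Ω → ℕ),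
    RandomClasses μ A → ∀ z : ℕ → ℕ, Monotone z →
    Tendsto (fun n : ℕ => V (z n) * Real.log n) atTop (𝓝 1) →
    ∀ (y : ℕ → ℕ) (b : ℕ → ℕ → ℕ), ∀ᵐ ω ∂μ, ∀ᶠ j : ℕ in atTop, ∀ m U : ℕ,
      2 ^ j ≤ m + 1 → m + U < 2 ^ (j + 1) → (y j + j) ^ K ≤ U →
      |cn (RS z y b (fun p => A p ω)) m U * (j * Real.log 2) - U| ≤ δ * U := by
  obtain ⟨β, hβ⟩ : ∃ β : ℕ, (1 / 2 : ℝ) ^ β ≤ min (δ / 4) (1 / 2) :=
    exists_pow_lt_of_lt_one (lt_min (by positivity) (by norm_num)) (by norm_num) |>.imp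
      fun _ h => h.le
  obtain ⟨K, hK1, hK⟩ := main_block 1 le_rfl β
  refine ⟨K, hK1, ?_⟩
  intro Ω _ μ _ A hA z hzm hz y b
  have hz1 := V_pow_two z hz
  have hz2 := V_pow_two' z hz
  have hlog2 : 0 < Real.log 2 := Real.log_pos (by norm_num)
  have hlow : ∀ Z : ℕ → ℕ, Tendsto (fun j : ℕ => V (Z j) * (j * Real.log 2)) atTop (𝓝 1) →
      ∀ᶠ j : ℕ in atTop, (1 / 2 : ℝ) / j ≤ V (Z j) := by
    intro Z hZ
    filter_upwards [hZ.eventually (lt_mem_nhds (by norm_num : (1 / 2 : ℝ) < 1)),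
      eventually_gt_atTop 0] with j hj hj0
    have hjr : (0 : ℝ) < j := by exact_mod_cast hj0
    rw [div_le_iff₀ hjr]
    have h1 : Real.log 2 ≤ 1 := by
      have := Real.log_two_lt_d9; linarith
    have h2 : V (Z j) * (j * Real.log 2) ≤ V (Z j) * (j * 1) := by
      have := (V_pos (Z j)).le
      gcongr
    linarith
  have hadm : ∀ p : ℕ, p.Prime → nuD {0} p < p := fun p hp => by
    rw [nuD_zero]; exact hp.one_lt
  have m1 := hK μ A hA (fun j => z (2 ^ j)) (1 / 2) (by norm_num) (hlow _ hz1) y b {0}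
    (card_singleton 0) hadm
  have m2 := hK μ A hA (fun j => z (2 ^ (j + 1))) (1 / 2) (by norm_num) (hlow _ hz2) y b {0}
    (card_singleton 0) hadm
  filter_upwards [m1, m2] with ω h1 h2
  have hη : 0 < δ / 4 := by positivity
  have e1 := hz1.eventually (Metric.ball_mem_nhds _ (lt_min hη (by norm_num : (0 : ℝ) < 1)))
  have e2 := hz2.eventually (Metric.ball_mem_nhds _ (lt_min hη (by norm_num : (0 : ℝ) < 1)))
  filter_upwards [h1, h2, e1, e2, eventually_gt_atTop 0] with j h1 h2 e1 e2 hj0 m U hm hU hyU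
  have hjr : (0 : ℝ) < j := by exact_mod_cast hj0
  have hmle : m ≤ 2 ^ (j + 1) := by omega
  have hUle : U ≤ 2 ^ (j + 1) := by omega
  have a1 := h1 m hmle U hUle hyU
  have a2 := h2 m hmle U hUle hyU
  rw [VDQ_zero] at a1 a2
  have b1 := cn_le_TT z y hzm b (fun p => A p ω) j m U hm hU
  have b2 := TT_le_cn z y hzm b (fun p => A p ω) j m U hm hU
  rw [Real.dist_eq] at e1 e2
  have hβ1 : (1 / 2 : ℝ) ^ β ≤ δ / 4 := hβ.trans (min_le_left _ _)
  have hβ2 : (1 / 2 : ℝ) ^ β ≤ 1 / 2 := hβ.trans (min_le_right _ _)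
  have hβ0 : (0 : ℝ) ≤ (1 / 2 : ℝ) ^ β := by positivity
  have e1' := (abs_lt.1 (e1.trans_le (min_le_left _ _)))
  have e1'' := (abs_lt.1 (e1.trans_le (min_le_right _ _)))
  have e2' := (abs_lt.1 (e2.trans_le (min_le_left _ _)))
  have e2'' := (abs_lt.1 (e2.trans_le (min_le_right _ _)))
  set L : ℝ := j * Real.log 2 with hL
  have hL0 : 0 < L := by positivity
  set V1 := V (z (2 ^ j)) with hV1
  set V2 := V (z (2 ^ (j + 1))) with hV2
  have hV1p : 0 < V1 := V_pos _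
  have hV2p : 0 < V2 := V_pos _
  set c := cn (RS z y b (fun p => A p ω)) m U with hc
  set T1 := ((TT {0} (mix (y j) (b j) (fun p => A p ω)) (primesLe (z (2 ^ j))) m U).card : ℝ)
    with hT1
  set T2 := ((TT {0} (mix (y j) (b j) (fun p => A p ω)) (primesLe (z (2 ^ (j + 1)))) m U).card : ℝ)
    with hT2
  set q : ℝ := (1 / 2 : ℝ) ^ β with hq
  have hUr : (0 : ℝ) ≤ U := by positivity
  have a1' := (abs_le.1 a1).2
  have a2' := (abs_le.1 a2).1
  rw [abs_le]
  constructor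
  · -- lower bound
    have s1 : (1 - q) * (U * V2) ≤ c := by linarith
    have s2 : (1 - q) * (U * V2) * L ≤ c * L := by gcongr
    have s3 : (1 - q) * (U * V2) * L = (1 - q) * U * (V2 * L) := by ring
    have s4 : (1 - δ / 4) ≤ V2 * L := by linarith
    have s5 : (1 - q) * U * (1 - δ / 4) ≤ (1 - q) * U * (V2 * L) := by
      have : 0 ≤ 1 - q := by linarith
      gcongr
    nlinarith [mul_nonneg hUr hδ.le, mul_nonneg hUr hβ0]
  · have s1 : c ≤ (1 + q) * (U * V1) := by linarith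
    have s2 : c * L ≤ (1 + q) * (U * V1) * L := by gcongr
    have s3 : (1 + q) * (U * V1) * L = (1 + q) * U * (V1 * L) := by ring
    have s4 : V1 * L ≤ 1 + δ / 4 := by linarith
    have s6 : V1 * L ≤ 2 := by linarith
    have s5 : (1 + q) * U * (V1 * L) ≤ U * (V1 * L) + (δ / 4) * U * 2 := by
      have : (1 + q) * U * (V1 * L) = U * (V1 * L) + q * U * (V1 * L) := by ring
      rw [this]
      gcongr
    have s7 : U * (V1 * L) ≤ U * (1 + δ / 4) := by gcongr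
    nlinarith [mul_nonneg hUr hδ.le]

end Pool.Agent.H532.RM
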