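import Mathlib
import Pool.Agent.H532.RM.ThmA

/-!
The sieving limit of Banks, Ford and Tao.
-/

namespace Pool.Agent.H532.RM

open Finset Filter
open scoped Topology

lemma V_anti {z w : ℕ} (h : z ≤ w) : V w ≤ V z := by
  unfold V
  have hsub : primesLe z ⊆ primesLe w := fun p hp =>
    mem_primesLe.2 ⟨(mem_primesLe.1 hp).1.trans h, (mem_primesLe.1 hp).2⟩
  rw [← prod_sdiff hsub]
  have h1 : ∏ p ∈ primesLe w \ primesLe z, (1 - 1 / (p : ℝ)) ≤ 1 := by
    refine prod_le_one (fun p hp => ?_) (fun p hp => ?_)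
    · have hp2 : (2 : ℝ) ≤ p := by
        exact_mod_cast (mem_primesLe.1 (mem_sdiff.1 hp).1).2.two_le
      rw [sub_nonneg, div_le_one (by linarith)]
      linarith
    · have : (0 : ℝ) ≤ 1 / (p : ℝ) := by positivity
      linarith
  have h2 := (V_pos z).le
  unfold V at h2
  nlinarith

lemma V_tendsto_zero : Tendsto V atTop (𝓝 0) := by
  have h1 := (not_summable_iff_tendsto_nat_atTop_of_nonneg (fun n =>
    Set.indicator_nonneg (s := {p : ℕ | p.Prime}) (f := fun n : ℕ => (1 : ℝ) / n)
      (fun p _ => by positivity) n)).1 not_summable_one_div_on_primes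
  have h2 := (Real.tendsto_exp_neg_atTop_nhds_zero.comp h1).comp (tendsto_add_atTop_nat 1)
  refine squeeze_zero (fun z => (V_pos z).le) (fun z => ?_) h2
  simp only [Function.comp_apply]
  unfold V primesLe
  rw [sum_indicator_eq_sum_filter, ← sum_neg_distrib, Real.exp_sum]
  simp only [Set.mem_ofPred_eq]
  refine prod_le_prod (fun p hp => ?_) (fun p hp => Real.one_sub_le_exp_neg _)
  have hp2 : (2 : ℝ) ≤ p := by
    exact_mod_cast (mem_filter.1 hp).2.two_le
  rw [sub_nonneg, div_le_one (by linarith)]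
  linarith

lemma V_succ (z : ℕ) : (1 - 1 / ((z : ℝ) + 1)) * V z ≤ V (z + 1) := by
  have hz : 0 ≤ V z := (V_pos z).le
  by_cases hp : (z + 1).Prime
  · have : primesLe (z + 1) = insert (z + 1) (primesLe z) := by
      ext q
      rw [mem_insert, mem_primesLe, mem_primesLe]
      constructor
      · rintro ⟨h1, h2⟩
        rcases Nat.lt_or_ge q (z + 1) with h | h
        · exact Or.inr ⟨by omega, h2⟩
        · exact Or.inl (by omega)
      · rintro (rfl | ⟨h1, h2⟩)
        · exact ⟨le_rfl, hp⟩
        · exact ⟨by omega, h2⟩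
    unfold V
    rw [this, prod_insert (fun h => by have := (mem_primesLe.1 h).1; omega)]
    push_cast
    exact le_rfl
  · have : primesLe (z + 1) = primesLe z := by
      ext q
      rw [mem_primesLe, mem_primesLe]
      constructor
      · rintro ⟨h1, h2⟩
        rcases Nat.lt_or_ge q (z + 1) with h | h
        · exact ⟨by omega, h2⟩
        · have : q = z + 1 := by omega
          exact absurd (this ▸ h2) hp
      · rintro ⟨h1, h2⟩
        exact ⟨by omega, h2⟩
    unfold V at hz ⊢
    rw [this]
    have : 0 ≤ 1 / ((z : ℝ) + 1) := by positivity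
    nlinarith

/-- The sieving limit of Banks, Ford and Tao. -/
noncomputable def zBFT (n : ℕ) : ℕ := sSup {z : ℕ | 1 / Real.log n ≤ V z}

lemma V_zero : V 0 = 1 := by
  unfold V primesLe
  have : (range (0 + 1)).filter Nat.Prime = ∅ := by decide
  rw [this, prod_empty]

lemma bdd_of_three {n : ℕ} (hn : 3 ≤ n) : BddAbove {z : ℕ | 1 / Real.log n ≤ V z} := by
  have hlog : 0 < Real.log n := Real.log_pos (by exact_mod_cast (by omega : 1 < n))
  have h1 : 0 < 1 / Real.log n := by positivity
  obtain ⟨Z, hZ⟩ := eventually_atTop.1 (V_tendsto_zero.eventually (gt_mem_nhds h1))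
  refine ⟨Z, fun z hz => ?_⟩
  by_contra hc
  exact absurd hz (not_le.2 (hZ z (by omega)))

lemma one_le_log_three {n : ℕ} (hn : 3 ≤ n) : 1 ≤ Real.log n := by
  rw [Real.le_log_iff_exp_le (by positivity)]
  have h1 := Real.exp_one_lt_d9
  have h2 : (3 : ℝ) ≤ n := by exact_mod_cast hn
  linarith

lemma zero_mem {n : ℕ} (hn : 3 ≤ n) : (0 : ℕ) ∈ {z : ℕ | 1 / Real.log n ≤ V z} := by
  show 1 / Real.log n ≤ V 0
  rw [V_zero, div_le_one (by have := one_le_log_three hn; linarith)]
  exact one_le_log_three hn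

lemma zBFT_mono : Monotone zBFT := by
  intro n m hnm
  rcases Nat.lt_or_ge n 3 with hn | hn
  · have : zBFT n = 0 := by
      unfold zBFT
      interval_cases n
      · have : {z : ℕ | 1 / Real.log ((0 : ℕ) : ℝ) ≤ V z} = Set.univ := by
          ext z
          simp [(V_pos z).le]
        rw [this, csSup_of_not_bddAbove not_bddAbove_univ, csSup_empty]; rfl
      · have : {z : ℕ | 1 / Real.log ((1 : ℕ) : ℝ) ≤ V z} = Set.univ := by
          ext z
          simp [(V_pos z).le]
        rw [this, csSup_of_not_bddAbove not_bddAbove_univ, csSup_empty]; rfl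
      · have : {z : ℕ | 1 / Real.log ((2 : ℕ) : ℝ) ≤ V z} = ∅ := by
          ext z
          simp only [Set.mem_ofPred_eq, Set.mem_empty_iff_false, iff_false, not_le]
          have h1 : V z ≤ 1 := by rw [← V_zero]; exact V_anti (Nat.zero_le z)
          refine h1.trans_lt ?_
          have h2 := Real.log_two_lt_d9
          have h3 := Real.log_pos (by norm_num : (1 : ℝ) < 2)
          rw [lt_div_iff₀ (by push_cast; exact h3)]
          push_cast
          linarith
        rw [this]
        exact csSup_empty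
    rw [this]; exact Nat.zero_le _
  · unfold zBFT
    refine csSup_le_csSup (bdd_of_three (hn.trans hnm)) ⟨0, zero_mem hn⟩ ?_
    intro z hz
    refine le_trans ?_ (show 1 / Real.log n ≤ V z from hz)
    have h1 := one_le_log_three hn
    have h2 : Real.log n ≤ Real.log m := Real.log_le_log (by
      have : (3 : ℝ) ≤ n := by exact_mod_cast hn
      linarith) (by exact_mod_cast hnm)
    exact one_div_le_one_div_of_le (by linarith) h2

lemma zBFT_tendsto : Tendsto zBFT atTop atTop := by
  refine tendsto_atTop.2 fun B => ?_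
  have h1 : Tendsto (fun n : ℕ => 1 / Real.log n) atTop (𝓝 0) := by
    have := (Real.tendsto_log_atTop.comp tendsto_natCast_atTop_atTop).inv_tendsto_atTop
    refine this.congr fun n => ?_
    simp
  filter_upwards [h1.eventually (gt_mem_nhds (V_pos B)), eventually_ge_atTop 3] with n hn hn3
  exact le_csSup (bdd_of_three hn3) (le_of_lt hn)

lemma zBFT_lim : Tendsto (fun n : ℕ => V (zBFT n) * Real.log n) atTop (𝓝 1) := by
  have h1 : ∀ᶠ n : ℕ in atTop, 1 ≤ V (zBFT n) * Real.log n := by
    filter_upwards [eventually_ge_atTop 3] with n hn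
    have hmem : zBFT n ∈ {z : ℕ | 1 / Real.log n ≤ V z} :=
      Nat.sSup_mem ⟨0, zero_mem hn⟩ (bdd_of_three hn)
    have h2 : 1 / Real.log n ≤ V (zBFT n) := hmem
    have h3 := one_le_log_three hn
    rwa [div_le_iff₀ (by linarith)] at h2
  have h2 : ∀ᶠ n : ℕ in atTop, V (zBFT n) * Real.log n ≤
      1 + 1 / (zBFT n : ℝ) := by
    filter_upwards [eventually_ge_atTop 3, zBFT_tendsto.eventually_ge_atTop 1] with n hn hz
    have h3 := one_le_log_three hn
    have hz' : (1 : ℝ) ≤ zBFT n := by exact_mod_cast hz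
    have hnm : ¬ (zBFT n + 1 ∈ {z : ℕ | 1 / Real.log n ≤ V z}) := by
      intro h
      have := le_csSup (bdd_of_three hn) h
      unfold zBFT at this
      omega
    have h4 : V (zBFT n + 1) < 1 / Real.log n := not_le.1 hnm
    have h5 := V_succ (zBFT n)
    rw [lt_div_iff₀ (by linarith)] at h4
    have h6 : (1 - 1 / ((zBFT n : ℝ) + 1)) * V (zBFT n) * Real.log n < 1 := by
      calc (1 - 1 / ((zBFT n : ℝ) + 1)) * V (zBFT n) * Real.log n ≤
          V (zBFT n + 1) * Real.log n := by gcongr
        _ < 1 := h4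
    have e : 1 - 1 / ((zBFT n : ℝ) + 1) = zBFT n / (zBFT n + 1) := by
      field_simp; ring
    rw [e] at h6
    have h7 : V (zBFT n) * Real.log n * (zBFT n / (zBFT n + 1)) < 1 := by linarith
    rw [← lt_div_iff₀ (by positivity), one_div_div] at h7
    have e2 : ((zBFT n : ℝ) + 1) / zBFT n = 1 + 1 / zBFT n := by
      field_simp
    rw [e2] at h7
    exact h7.le
  have h3 : Tendsto (fun n : ℕ => 1 + 1 / (zBFT n : ℝ)) atTop (𝓝 1) := by
    have := (tendsto_natCast_atTop_atTop (R := ℝ).comp zBFT_tendsto).inv_tendsto_atTop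
    have h4 : Tendsto (fun n : ℕ => 1 + 1 / (zBFT n : ℝ)) atTop (𝓝 (1 + 0)) := by
      refine tendsto_const_nhds.add (this.congr fun n => ?_)
      simp
    rwa [add_zero] at h4
  exact tendsto_of_tendsto_of_tendsto_of_le_of_le' tendsto_const_nhds h3 h1 h2

end Pool.Agent.H532.RM
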