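import Mathlib
import Pool.Agent.H532.RM.Bft
import Pool.Graph.R_pool_sql_team_seeded_b0a926ef.R529.BU.Lim

/-!
Mertens' theorem for `V` and its consequences.
-/

namespace Pool.Agent.H532.RM

open Finset Filter
open scoped Topology

lemma V_eq_QQ (z : ℕ) : V z = Pool.Agent.H510R2.Maier.QQ z := by
  unfold V primesLe Pool.Agent.H510R2.Maier.QQ
  refine prod_congr ?_ fun _ _ => rfl
  ext p
  simp only [mem_filter, mem_range, mem_Icc]
  constructor
  · rintro ⟨h1, h2⟩; exact ⟨⟨h2.one_lt.le, by omega⟩, h2⟩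
  · rintro ⟨⟨h1, h3⟩, h2⟩; exact ⟨by omega, h2⟩

/-- Mertens' theorem. -/
theorem V_log : Tendsto (fun z : ℕ => V z * Real.log z) atTop
    (𝓝 (Real.exp (-Real.eulerMascheroniConstant))) := by
  have h1 := Pool.Agent.H510R2.Maier.QQ_real.comp tendsto_natCast_atTop_atTop
  have h2 := h1.inv₀ (Real.exp_pos _).ne'
  rw [← Real.exp_neg] at h2
  refine h2.congr fun z => ?_
  simp only [Function.comp, Nat.floor_natCast]
  rw [V_eq_QQ, inv_div, div_inv_eq_mul, mul_comm]

/-- `c / log z ≤ V z ≤ C / log z`. -/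
theorem V_two_sided : ∃ c C : ℝ, 0 < c ∧ 0 < C ∧ ∀ z : ℕ, 2 ≤ z →
    c ≤ V z * Real.log z ∧ V z * Real.log z ≤ C := by
  set e : ℝ := Real.exp (-Real.eulerMascheroniConstant) with he
  have he0 : 0 < e := Real.exp_pos _
  have h1 := V_log.eventually (Icc_mem_nhds (half_lt_self he0) (lt_add_of_pos_right e one_pos))
  obtain ⟨Z, hZ⟩ := eventually_atTop.1 h1
  have hpos : ∀ z : ℕ, 2 ≤ z → 0 < V z * Real.log z := fun z hz =>
    mul_pos (V_pos z) (Real.log_pos (by exact_mod_cast hz))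
  obtain ⟨c, hc, hc'⟩ : ∃ c : ℝ, 0 < c ∧ ∀ z ∈ Icc 2 (max Z 2), c ≤ V z * Real.log z := by
    have hne : (Icc 2 (max Z 2)).Nonempty := ⟨2, mem_Icc.2 ⟨le_rfl, le_max_right _ _⟩⟩
    obtain ⟨z0, hz0, hmin⟩ := exists_min_image (Icc 2 (max Z 2)) (fun z => V z * Real.log z) hne
    exact ⟨V z0 * Real.log z0, hpos z0 (mem_Icc.1 hz0).1, hmin⟩
  obtain ⟨C, hC'⟩ : ∃ C : ℝ, ∀ z ∈ Icc 2 (max Z 2), V z * Real.log z ≤ C := by
    have hne : (Icc 2 (max Z 2)).Nonempty := ⟨2, mem_Icc.2 ⟨le_rfl, le_max_right _ _⟩⟩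
    obtain ⟨z0, hz0, hmax⟩ := exists_max_image (Icc 2 (max Z 2)) (fun z => V z * Real.log z) hne
    exact ⟨V z0 * Real.log z0, hmax⟩
  refine ⟨min c (e / 2), max C (e + 1), lt_min hc (by positivity),
    lt_max_of_lt_right (by positivity), fun z hz => ?_⟩
  rcases le_total z (max Z 2) with h | h
  · have hm : z ∈ Icc 2 (max Z 2) := mem_Icc.2 ⟨hz, h⟩
    exact ⟨(min_le_left _ _).trans (hc' z hm), (hC' z hm).trans (le_max_left _ _)⟩
  · have := hZ z ((le_max_left _ _).trans h)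
    exact ⟨(min_le_right _ _).trans this.1, this.2.trans (le_max_right _ _)⟩

/-- Slowly varying. -/
lemma V_ratio (f g : ℕ → ℕ) (hf : Tendsto f atTop atTop) (hg : Tendsto g atTop atTop)
    (h : Tendsto (fun j => Real.log (f j) / Real.log (g j)) atTop (𝓝 1)) :
    Tendsto (fun j => V (f j) / V (g j)) atTop (𝓝 1) := by
  have h1 := V_log.comp hf
  have h2 := V_log.comp hg
  have h3 := (h1.div h2 (Real.exp_pos _).ne').div h one_ne_zero
  rw [div_self (Real.exp_pos _).ne', div_one] at h3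
  refine h3.congr' ?_
  filter_upwards [hf.eventually_ge_atTop 2, hg.eventually_ge_atTop 2] with j h4 h5
  have h6 : 0 < Real.log (f j) := Real.log_pos (by exact_mod_cast h4)
  have h7 : 0 < Real.log (g j) := Real.log_pos (by exact_mod_cast h5)
  have h8 := V_pos (g j)
  simp only [Function.comp, Pi.div_apply]
  field_simp

/-- For primes `p > w`: `∏_{p < q ≤ Z} (1 - 1 / q) = V Z / V p`. -/
lemma V_split {w Z : ℕ} (h : w ≤ Z) :
    V Z = V w * ∏ p ∈ (primesLe Z).filter (fun p => w < p), (1 - 1 / (p : ℝ)) := by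
  unfold V
  have : primesLe Z = primesLe w ∪ (primesLe Z).filter (fun p => w < p) := by
    ext p
    simp only [mem_union, mem_filter, mem_primesLe]
    constructor
    · rintro ⟨h1, h2⟩
      rcases le_or_gt p w with h3 | h3
      · exact Or.inl ⟨h3, h2⟩
      · exact Or.inr ⟨⟨h1, h2⟩, h3⟩
    · rintro (⟨h1, h2⟩ | ⟨h1, _⟩)
      · exact ⟨h1.trans h, h2⟩
      · exact h1
  conv_lhs => rw [this]
  rw [prod_union]
  rw [Finset.disjoint_left]
  intro p h1 h2
  have := (mem_primesLe.1 h1).1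
  have := (mem_filter.1 h2).2
  omega

end Pool.Agent.H532.RM
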