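import Mathlib
import Pool.Agent.H532.RM.Mertens
import Pool.Agent.H532.RM.Main

/-!
Upper bounds of the right order for sifted sets in intervals and in progressions.
-/

namespace Pool.Agent.H532.RM

open Finset Filter
open scoped Topology

/-- The number of the integers in `(m, m + U]` outside the classes `c p`, `p ≤ Z`. -/
def T1 (c : ℕ → ℕ) (Z m U : ℕ) : ℕ := (TT {0} c (primesLe Z) m U).card

lemma mem_T1 {c : ℕ → ℕ} {Q : Finset ℕ} {m U n : ℕ} : n ∈ TT {0} c Q m U ↔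
    (m < n ∧ n ≤ m + U) ∧ ∀ p ∈ Q, n % p ≠ c p % p := by
  simp [TT]

lemma TT_anti (c : ℕ → ℕ) {Q Q' : Finset ℕ} (h : Q ⊆ Q') (m U : ℕ) :
    TT {0} c Q' m U ⊆ TT {0} c Q m U := fun n hn =>
  mem_T1.2 ⟨(mem_T1.1 hn).1, fun p hp => (mem_T1.1 hn).2 p (h hp)⟩

lemma primesLe_mono {z w : ℕ} (h : z ≤ w) : primesLe z ⊆ primesLe w := fun _ hp =>
    mem_primesLe.2 ⟨(mem_primesLe.1 hp).1.trans h, (mem_primesLe.1 hp).2⟩

lemma T1_anti (c : ℕ → ℕ) {z w : ℕ} (h : z ≤ w) (m U : ℕ) : T1 c w m U ≤ T1 c z m U :=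
  card_le_card (TT_anti c (primesLe_mono h) m U)

lemma T1_le (c : ℕ → ℕ) (z m U : ℕ) : T1 c z m U ≤ U := by
  have : (TT {0} c (primesLe z) m U).card ≤ (Ioc m (m + U)).card := card_filter_le _ _
  rw [Nat.card_Ioc, Nat.add_sub_cancel_left] at this
  exact this

lemma floor_pow_large (e : ℝ) (he : 0 < e) : ∀ᶠ ζ : ℕ in atTop,
    e / 2 * Real.log ζ ≤ Real.log ⌊(ζ : ℝ) ^ e⌋₊ ∧ 2 ≤ ⌊(ζ : ℝ) ^ e⌋₊ := by
  have h1 : Tendsto (fun ζ : ℕ => (ζ : ℝ) ^ (e / 2)) atTop atTop :=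
    (tendsto_rpow_atTop (by positivity)).comp tendsto_natCast_atTop_atTop
  filter_upwards [h1.eventually_ge_atTop 3, eventually_ge_atTop 1] with ζ hζ hζ1
  have hζ0 : (0 : ℝ) < ζ := by exact_mod_cast hζ1
  set a := (ζ : ℝ) ^ (e / 2) with ha
  have e1 : (ζ : ℝ) ^ e = a * a := by
    rw [ha, ← Real.rpow_add hζ0]; congr 1; ring
  have h2 : (ζ : ℝ) ^ e - 1 < ⌊(ζ : ℝ) ^ e⌋₊ := Nat.sub_one_lt_floor _
  have h3 : a ≤ ⌊(ζ : ℝ) ^ e⌋₊ := by
    rw [e1] at h2 ⊢
    nlinarith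
  constructor
  · calc e / 2 * Real.log ζ = Real.log a := by rw [ha, Real.log_rpow hζ0]
      _ ≤ Real.log ⌊(ζ : ℝ) ^ e⌋₊ := Real.log_le_log (by linarith) h3
  · have : (2 : ℝ) ≤ ⌊(ζ : ℝ) ^ e⌋₊ := by linarith
    exact_mod_cast this

lemma V_floor_pow (e : ℝ) (he : 0 < e) : ∃ C : ℝ, 0 < C ∧ ∀ᶠ ζ : ℕ in atTop,
    V ⌊(ζ : ℝ) ^ e⌋₊ ≤ C * V ζ := by
  obtain ⟨c, C, hc, hC, hV⟩ := V_two_sided
  refine ⟨2 * C / (e * c), by positivity, ?_⟩
  filter_upwards [floor_pow_large e he, eventually_ge_atTop 2] with ζ h1 h2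
  have h3 := (hV _ h1.2).2
  have h4 := (hV ζ h2).1
  have h5 : 0 < Real.log ζ := Real.log_pos (by exact_mod_cast h2)
  have h6 := V_pos ζ
  have h7 := V_pos ⌊(ζ : ℝ) ^ e⌋₊
  have h8 : V ⌊(ζ : ℝ) ^ e⌋₊ * (e / 2 * Real.log ζ) ≤ C := by
    refine le_trans ?_ h3
    gcongr
    exact h1.1
  have h9 : V ⌊(ζ : ℝ) ^ e⌋₊ ≤ 2 * C / (e * Real.log ζ) := by
    rw [le_div_iff₀ (by positivity)]; linarith
  refine h9.trans ?_
  rw [div_mul_eq_mul_div, div_le_div_iff₀ (by positivity) (by positivity)]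
  have : 2 * C * (e * c) ≤ 2 * C * e * (V ζ * Real.log ζ) := by
    have : 2 * C * (e * c) = 2 * C * e * c := by ring
    rw [this]
    gcongr
  linarith

/-- The upper bound sieve. -/
theorem upper : ∃ C : ℝ, 0 < C ∧ ∃ ζ0 : ℕ, ∀ ζ : ℕ, ζ0 ≤ ζ → ∀ U : ℕ, ζ ≤ U ^ 2 →
    ∀ (c : ℕ → ℕ) (m : ℕ), (T1 c ζ m U : ℝ) ≤ C * (U * V ζ) := by
  obtain ⟨C0, hC0, hf⟩ := fund 1
  obtain ⟨U0, h0⟩ := hf C0 le_rfl
  have hCr : (1 : ℝ) ≤ C0 := by exact_mod_cast hC0
  set e : ℝ := 1 / ((C0 : ℝ) * C0) with he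
  have he0 : 0 < e := by positivity
  have he1 : e ≤ 1 := by
    rw [he, div_le_one (by positivity)]; nlinarith
  obtain ⟨C1, hC1, hV⟩ := V_floor_pow (e / 2) (by positivity)
  obtain ⟨ζ1, hζ1⟩ := eventually_atTop.1 hV
  refine ⟨2 * C1, by positivity, max (max ζ1 (U0 ^ 2 + 1)) 2, fun ζ hζ U hU c m => ?_⟩
  have a1 : ζ1 ≤ ζ := (le_max_left _ _).trans ((le_max_left _ _).trans hζ)
  have a2 : U0 ^ 2 + 1 ≤ ζ := (le_max_right _ _).trans ((le_max_left _ _).trans hζ)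
  have a3 : 2 ≤ ζ := (le_max_right _ _).trans hζ
  have hU0U : U0 ≤ U := by
    by_contra h
    have : U ^ 2 ≤ U0 ^ 2 := Nat.pow_le_pow_left (by omega) 2
    omega
  set v : ℕ := ⌊(ζ : ℝ) ^ (e / 2)⌋₊ with hv
  have hζr : (1 : ℝ) ≤ ζ := by exact_mod_cast (by omega : 1 ≤ ζ)
  have hvζ : v ≤ ζ := by
    have h1 : (ζ : ℝ) ^ (e / 2) ≤ ζ := by
      calc (ζ : ℝ) ^ (e / 2) ≤ (ζ : ℝ) ^ (1 : ℝ) :=
            Real.rpow_le_rpow_of_exponent_le hζr (by linarith)
        _ = ζ := Real.rpow_one _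
    have h2 : (v : ℝ) ≤ ζ := (Nat.floor_le (by positivity)).trans h1
    exact_mod_cast h2
  have h2 : (T1 c ζ m U : ℝ) ≤ ((TT {0} c (primesLe v) m U).card : ℝ) := by
    exact_mod_cast T1_anti c hvζ m U
  have h3 := h0 U hU0U {0} (card_singleton 0) c (primesLe v) (fun p hp => by
    have hp' := mem_primesLe.1 hp
    refine ⟨hp'.2, ?_, by rw [nuD_zero]; exact hp'.2.one_lt⟩
    have b1 : (p : ℝ) ≤ v := by exact_mod_cast hp'.1
    have b2 : (v : ℝ) ≤ (ζ : ℝ) ^ (e / 2) := Nat.floor_le (by positivity)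
    have b3 : (ζ : ℝ) ≤ (U : ℝ) ^ 2 := by exact_mod_cast hU
    calc (p : ℝ) ≤ (ζ : ℝ) ^ (e / 2) := b1.trans b2
      _ ≤ ((U : ℝ) ^ 2) ^ (e / 2) := Real.rpow_le_rpow (by positivity) b3 (by positivity)
      _ = (U : ℝ) ^ e := by
        rw [← Real.rpow_natCast, ← Real.rpow_mul (by positivity)]
        congr 1; push_cast; ring) m
  rw [VDQ_zero] at h3
  have h4 := (abs_le.1 h3).2
  have h5 : (1 / 2 : ℝ) ^ C0 ≤ 1 := pow_le_one₀ (by norm_num) (by norm_num)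
  have hVv := (V_pos v).le
  have h6 : ((TT {0} c (primesLe v) m U).card : ℝ) ≤ 2 * (U * V v) := by
    have : 0 ≤ (U : ℝ) * V v := by positivity
    nlinarith
  calc (T1 c ζ m U : ℝ) ≤ 2 * (U * V v) := h2.trans h6
    _ ≤ 2 * (U * (C1 * V ζ)) := by
        gcongr
        exact hζ1 ζ a1
    _ = 2 * C1 * (U * V ζ) := by ring

/-- A progression modulo a prime `p > ζ` inside the window. -/
lemma prog_le (c : ℕ → ℕ) (ζ p r m U : ℕ) (hp : p.Prime) (hζ : ζ < p) :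
    ∃ (c' : ℕ → ℕ) (m' : ℕ),
      ((TT {0} c (primesLe ζ) m U).filter (fun n => n % p = r)).card ≤
        T1 c' ζ m' (U / p + 2) := by
  classical
  have hex : ∀ q : ℕ, ∃ x : ℕ, q ∈ primesLe ζ → p * x + r ≡ c q + p [MOD q] := by
    intro q
    by_cases hq : q ∈ primesLe ζ
    · have hq' := mem_primesLe.1 hq
      have hcop : Nat.Coprime p q := by
        rw [Nat.coprime_primes hp hq'.2]; omega
      obtain ⟨x, hx⟩ := Nat.exists_mul_mod_eq_one_of_coprime hcop hq'.2.one_lt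
      have hx' : p * x ≡ 1 [MOD q] := by
        rw [Nat.ModEq, hx.2, Nat.mod_eq_of_lt hq'.2.one_lt]
      refine ⟨x * (c q + p + (q - 1) * r), fun _ => ?_⟩
      have h1 : p * (x * (c q + p + (q - 1) * r)) ≡ 1 * (c q + p + (q - 1) * r) [MOD q] := by
        rw [← mul_assoc]; exact hx'.mul_right _
      have h2 : p * (x * (c q + p + (q - 1) * r)) + r ≡ 1 * (c q + p + (q - 1) * r) + r [MOD q] :=
        h1.add_right r
      have h3 : 1 * (c q + p + (q - 1) * r) + r = c q + p + q * r := by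
        have : q * r = (q - 1) * r + r := by
          have hq1 : q = (q - 1) + 1 := by have := hq'.2.one_lt; omega
          nth_rewrite 1 [hq1]; ring
        rw [this]; ring
      rw [h3] at h2
      refine h2.trans ?_
      simp [Nat.ModEq]
    · exact ⟨0, fun h => absurd h hq⟩
  choose c' hc' using hex
  refine ⟨c', (m + 1) / p, ?_⟩
  refine card_le_card_of_injOn (fun n => n / p + 1) ?_ ?_
  · intro n hn
    obtain ⟨h1, h2⟩ := mem_filter.1 (mem_coe.1 hn)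
    obtain ⟨⟨h3, h4⟩, h5⟩ := mem_T1.1 h1
    refine mem_coe.2 (mem_T1.2 ⟨⟨?_, ?_⟩, ?_⟩)
    · have : (m + 1) / p ≤ n / p := Nat.div_le_div_right (by omega)
      show (m + 1) / p < n / p + 1
      omega
    · show n / p + 1 ≤ (m + 1) / p + (U / p + 2)
      have h6 : n ≤ (m + 1) + U := by omega
      have h7 : n / p ≤ ((m + 1) + U) / p := Nat.div_le_div_right h6
      have h8 : ((m + 1) + U) / p ≤ (m + 1) / p + U / p + 1 := by
        rw [Nat.add_div hp.pos]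
        split_ifs <;> omega
      omega
    · intro q hq h6
      have h7 : n / p + 1 ≡ c' q [MOD q] := h6
      have h8 : p * (n / p + 1) + r ≡ p * c' q + r [MOD q] := (h7.mul_left p).add_right r
      have h9 : p * (n / p + 1) + r = n + p := by
        have := Nat.div_add_mod n p
        rw [h2] at this
        rw [mul_add, mul_one]
        omega
      rw [h9] at h8
      have h10 : n + p ≡ c q + p [MOD q] := h8.trans (hc' q hq)
      exact h5 q hq (Nat.ModEq.add_right_cancel' p h10)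
  · intro n hn n' hn' h
    have h2 := (mem_filter.1 (mem_coe.1 hn)).2
    have h2' := (mem_filter.1 (mem_coe.1 hn')).2
    have h3 : n / p + 1 = n' / p + 1 := h
    have h4 : n / p = n' / p := by omega
    rw [← Nat.div_add_mod n p, ← Nat.div_add_mod n' p, h4, h2, h2']

lemma sum_inv_le (ζ w : ℕ) (h : ζ ≤ w) :
    ∑ p ∈ (primesLe w).filter (fun p => ζ < p), 1 / (p : ℝ) ≤ Real.log (V ζ / V w) := by
  rw [V_split h, Real.log_div (V_pos ζ).ne' (mul_ne_zero (V_pos ζ).ne' ?_), Real.log_mul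
    (V_pos ζ).ne' ?_, Real.log_prod]
  · rw [sub_add_cancel_left, ← sum_neg_distrib]
    refine sum_le_sum fun p hp => ?_
    have hp2 : (2 : ℝ) ≤ p := by
      exact_mod_cast (mem_primesLe.1 (mem_filter.1 hp).1).2.two_le
    have h1 : 0 < 1 - 1 / (p : ℝ) := by
      rw [sub_pos, div_lt_one (by linarith)]; linarith
    have := Real.log_le_sub_one_of_pos h1
    linarith
  all_goals
    try intro p hp
    try refine (prod_pos fun p hp => ?_).ne'
    try refine ne_of_gt ?_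
    have hp2 : (2 : ℝ) ≤ p := by
      exact_mod_cast (mem_primesLe.1 (mem_filter.1 hp).1).2.two_le
    rw [sub_pos, div_lt_one (by linarith)]; linarith

/-- Sieving by a few more primes does not change much. -/
theorem loss : ∃ C : ℝ, 0 < C ∧ ∃ ζ0 : ℕ, ∀ ζ : ℕ, ζ0 ≤ ζ → ∀ w U : ℕ, ζ ≤ w → w ≤ U →
    (ζ : ℝ) * w ^ 2 ≤ U ^ 2 → ∀ (c : ℕ → ℕ) (m : ℕ),
    (T1 c ζ m U : ℝ) - C * (U * V ζ) * Real.log (V ζ / V w) ≤ T1 c w m U := by
  classical
  obtain ⟨C, hC, ζ0, h⟩ := upper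
  refine ⟨3 * C, by positivity, ζ0, fun ζ hζ w U hw hwU hU c m => ?_⟩
  set P := (primesLe w).filter (fun p => ζ < p) with hP
  have hsub : TT {0} c (primesLe ζ) m U ⊆ TT {0} c (primesLe w) m U ∪
      P.biUnion (fun p => (TT {0} c (primesLe ζ) m U).filter (fun n => n % p = c p % p)) := by
    intro n hn
    rw [mem_union]
    by_cases hall : ∀ p ∈ P, n % p ≠ c p % p
    · left
      refine mem_T1.2 ⟨(mem_T1.1 hn).1, fun p hp => ?_⟩
      rcases le_or_gt p ζ with h1 | h1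
      · exact (mem_T1.1 hn).2 p (mem_primesLe.2 ⟨h1, (mem_primesLe.1 hp).2⟩)
      · exact hall p (mem_filter.2 ⟨hp, h1⟩)
    · right
      push Not at hall
      obtain ⟨p, hp, hh⟩ := hall
      exact mem_biUnion.2 ⟨p, hp, mem_filter.2 ⟨hn, hh⟩⟩
  have hcard : (T1 c ζ m U : ℝ) ≤ T1 c w m U + ∑ p ∈ P,
      (((TT {0} c (primesLe ζ) m U).filter (fun n => n % p = c p % p)).card : ℝ) := by
    have h1 := (card_le_card hsub).trans ((card_union_le _ _).trans
      (Nat.add_le_add_left card_biUnion_le _))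
    unfold T1
    exact_mod_cast h1
  have hbound : ∀ p ∈ P,
      (((TT {0} c (primesLe ζ) m U).filter (fun n => n % p = c p % p)).card : ℝ) ≤
        3 * C * (U * V ζ) * (1 / (p : ℝ)) := by
    intro p hp
    obtain ⟨h1, h2⟩ := mem_filter.1 hp
    have h3 := mem_primesLe.1 h1
    have hp0 : (0 : ℝ) < p := by exact_mod_cast h3.2.pos
    obtain ⟨c', m', h4⟩ := prog_le c ζ p (c p % p) m U h3.2 h2
    have h5 : ζ ≤ (U / p + 2) ^ 2 := by
      have h6 : (U : ℝ) / p ≤ ((U / p + 2 : ℕ) : ℝ) := by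
        have h7 : (U : ℝ) / p < (U / p : ℕ) + 1 := by
          have := Nat.lt_div_mul_add h3.2.pos (a := U)
          rw [div_lt_iff₀ hp0]
          have h8 : (U : ℝ) < (U / p : ℕ) * p + p := by exact_mod_cast this
          linarith
        push_cast
        linarith
      have hw0 : (0 : ℝ) < w := by exact_mod_cast (h3.2.pos.trans_le h3.1)
      have hpw : (p : ℝ) ≤ w := by exact_mod_cast h3.1
      have h8 : (ζ : ℝ) ≤ ((U : ℝ) / w) ^ 2 := by
        rw [div_pow, le_div_iff₀ (by positivity)]; exact hU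
      have h9 : ((U : ℝ) / w) ^ 2 ≤ (((U / p + 2 : ℕ) : ℝ)) ^ 2 := by
        have : (U : ℝ) / w ≤ (U : ℝ) / p := by gcongr
        gcongr
        exact this.trans h6
      exact_mod_cast h8.trans h9
    have h6 := h ζ hζ (U / p + 2) h5 c' m'
    have h7 : (((TT {0} c (primesLe ζ) m U).filter (fun n => n % p = c p % p)).card : ℝ) ≤
        T1 c' ζ m' (U / p + 2) := by exact_mod_cast h4
    refine h7.trans (h6.trans ?_)
    have h8 : (((U / p + 2 : ℕ) : ℝ)) ≤ 3 * U * (1 / (p : ℝ)) := by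
      push_cast
      have h9 : ((U / p : ℕ) : ℝ) ≤ (U : ℝ) / p := Nat.cast_div_le
      have h10 : (1 : ℝ) ≤ (U : ℝ) / p := by
        rw [one_le_div hp0]
        exact_mod_cast h3.1.trans hwU
      have e : 3 * (U : ℝ) * (1 / p) = U / p + 2 * (U / p) := by ring
      rw [e]
      linarith
    have hVζ := (V_pos ζ).le
    calc C * ((((U / p + 2 : ℕ) : ℝ)) * V ζ) ≤ C * ((3 * U * (1 / (p : ℝ))) * V ζ) := by gcongr
      _ = 3 * C * (U * V ζ) * (1 / (p : ℝ)) := by ring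
  have hsum : ∑ p ∈ P,
      (((TT {0} c (primesLe ζ) m U).filter (fun n => n % p = c p % p)).card : ℝ) ≤
        3 * C * (U * V ζ) * Real.log (V ζ / V w) := by
    refine (sum_le_sum hbound).trans ?_
    rw [← mul_sum]
    have hVζ := (V_pos ζ).le
    gcongr
    exact sum_inv_le ζ w hw
  linarith

end Pool.Agent.H532.RM
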