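import Mathlib
import Pool.Agent.H532.RM.Upper

/-!
The interval sieve: extremal numbers and the Chinese remainder theorem.
-/

namespace Pool.Agent.H532.RM

open Finset Filter
open scoped Topology

/-- the largest number of elements of a sifted interval of length `U` -/
noncomputable def smax (U Z : ℕ) : ℕ := ⨆ m : ℕ, T1 (fun _ => 0) Z m U

/-- the smallest number of elements of a sifted interval of length `U` -/
noncomputable def smin (U Z : ℕ) : ℕ := ⨅ m : ℕ, T1 (fun _ => 0) Z m U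

lemma bdd_T1 (c : ℕ → ℕ) (U Z : ℕ) : BddAbove (Set.range fun m : ℕ => T1 c Z m U) :=
  ⟨U, by rintro _ ⟨m, rfl⟩; exact T1_le c Z m U⟩

lemma le_smax (m U Z : ℕ) : T1 (fun _ => 0) Z m U ≤ smax U Z :=
  le_ciSup (bdd_T1 (fun _ => 0) U Z) m

lemma smin_le (m U Z : ℕ) : smin U Z ≤ T1 (fun _ => 0) Z m U :=
  ciInf_le ⟨0, fun _ _ => Nat.zero_le _⟩ m

lemma exists_smax (U Z : ℕ) : ∃ m, T1 (fun _ => 0) Z m U = smax U Z := by
  have := Nat.sSup_mem (Set.range_nonempty fun m : ℕ => T1 (fun _ => 0) Z m U)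
    (bdd_T1 (fun _ => 0) U Z)
  exact this

lemma exists_smin (U Z : ℕ) : ∃ m, T1 (fun _ => 0) Z m U = smin U Z := by
  have := Nat.sInf_mem (Set.range_nonempty fun m : ℕ => T1 (fun _ => 0) Z m U)
  exact this

/-- windows which agree modulo all primes -/
lemma T1_shift (c c' : ℕ → ℕ) (Z m m' : ℕ)
    (h : ∀ p ∈ primesLe Z, m + c' p ≡ m' + c p [MOD p]) (U : ℕ) :
    T1 c Z m U = T1 c' Z m' U := by
  unfold T1
  have key : ∀ p ∈ primesLe Z, ∀ k : ℕ, ((m + k) % p = c p % p ↔ (m' + k) % p = c' p % p) := by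
    intro p hp k
    have h1 := h p hp
    constructor
    · intro h2
      have h3 : m + k ≡ c p [MOD p] := h2
      have h4 : m' + c p + k ≡ m + c' p + k [MOD p] := (h1.add_right k).symm
      have h5 : m + c' p + k ≡ c' p + c p [MOD p] := by
        have := h3.add_right (c' p)
        have e1 : m + k + c' p = m + c' p + k := by ring
        have e2 : c p + c' p = c' p + c p := by ring
        rwa [e1, e2] at this
      have h6 : m' + k + c p ≡ c' p + c p [MOD p] := by
        have e1 : m' + k + c p = m' + c p + k := by ring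
        rw [e1]; exact h4.trans h5
      exact Nat.ModEq.add_right_cancel' _ h6
    · intro h2
      have h3 : m' + k ≡ c' p [MOD p] := h2
      have h4 : m + c' p + k ≡ m' + c p + k [MOD p] := (h1.add_right k)
      have h5 : m' + c p + k ≡ c p + c' p [MOD p] := by
        have := h3.add_right (c p)
        have e1 : m' + k + c p = m' + c p + k := by ring
        have e2 : c' p + c p = c p + c' p := by ring
        rwa [e1, e2] at this
      have h6 : m + k + c' p ≡ c p + c' p [MOD p] := by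
        have e1 : m + k + c' p = m + c' p + k := by ring
        rw [e1]; exact h4.trans h5
      exact Nat.ModEq.add_right_cancel' _ h6
  refine card_bij (fun n _ => m' + (n - m)) ?_ ?_ ?_
  · intro n hn
    obtain ⟨⟨h1, h2⟩, h3⟩ := mem_T1.1 hn
    refine mem_T1.2 ⟨⟨by omega, by omega⟩, fun p hp h4 => ?_⟩
    have h5 := (key p hp (n - m)).2 h4
    have e : m + (n - m) = n := by omega
    rw [e] at h5
    exact h3 p hp h5
  · intro n hn n' hn' h
    have h1 := (mem_T1.1 hn).1
    have h2 := (mem_T1.1 hn').1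
    omega
  · intro n hn
    obtain ⟨⟨h1, h2⟩, h3⟩ := mem_T1.1 hn
    refine ⟨m + (n - m'), mem_T1.2 ⟨⟨by omega, by omega⟩, fun p hp h4 => ?_⟩, by omega⟩
    have h5 := (key p hp (n - m')).1 h4
    have e : m' + (n - m') = n := by omega
    rw [e] at h5
    exact h3 p hp h5

/-- a solution of congruences in a given interval -/
lemma crt (Z : ℕ) (r : ℕ → ℕ) (B : ℕ) : ∃ x, B ≤ x ∧ x < B + 4 ^ Z ∧
    ∀ p ∈ primesLe Z, x ≡ r p [MOD p] := by
  classical
  obtain ⟨k, hk⟩ := Nat.chineseRemainderOfFinset r (fun p => p) (primesLe Z)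
    (fun p hp => (mem_primesLe.1 hp).2.ne_zero)
    (fun p hp q hq hne => (Nat.coprime_primes (mem_primesLe.1 hp).2 (mem_primesLe.1 hq).2).2 hne)
  set P := primorial Z with hP
  have hPe : P = ∏ p ∈ primesLe Z, p := rfl
  have hPpos : 0 < P := primorial_pos Z
  have hP4 : P ≤ 4 ^ Z := primorial_le_four_pow Z
  refine ⟨B + (k + (P - B % P)) % P, by omega, ?_, ?_⟩
  · have := Nat.mod_lt (k + (P - B % P)) hPpos
    omega
  · intro p hp
    have h1 : B + (k + (P - B % P)) % P ≡ k [MOD P] := by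
      have h2 : (k + (P - B % P)) % P ≡ k + (P - B % P) [MOD P] := Nat.mod_modEq _ _
      have h3 : B + (k + (P - B % P)) % P ≡ B + (k + (P - B % P)) [MOD P] := h2.add_left B
      refine h3.trans ?_
      have h4 : B ≡ B % P [MOD P] := (Nat.mod_modEq B P).symm
      have h5 : B + (k + (P - B % P)) ≡ B % P + (k + (P - B % P)) [MOD P] := h4.add_right _
      refine h5.trans ?_
      have h6 : B % P < P := Nat.mod_lt _ hPpos
      have e : B % P + (k + (P - B % P)) = k + P := by omega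
      rw [e]
      simp [Nat.ModEq]
    have h7 : p ∣ P := by rw [hPe]; exact dvd_prod_of_mem _ hp
    exact (h1.of_dvd h7).trans (hk p hp)

lemma T1_crt (c : ℕ → ℕ) (Z m : ℕ) : ∃ m', ∀ U, T1 c Z m U = T1 (fun _ => 0) Z m' U := by
  obtain ⟨x, _, _, hx⟩ := crt Z (fun p => m + (p - c p % p)) 0
  refine ⟨x, T1_shift c (fun _ => 0) Z m x fun p hp => ?_⟩
  have h1 := hx p hp
  have hp0 := (mem_primesLe.1 hp).2.pos
  have h2 : x + c p ≡ m + (p - c p % p) + c p [MOD p] := h1.add_right _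
  refine Nat.ModEq.symm (h2.trans ?_)
  have h3 : m + (p - c p % p) + c p ≡ m + (p - c p % p) + c p % p [MOD p] :=
    (Nat.mod_modEq (c p) p).symm.add_left _
  refine h3.trans ?_
  have h4 : c p % p < p := Nat.mod_lt _ hp0
  have e : m + (p - c p % p) + c p % p = m + 0 + p := by omega
  rw [e]
  simp [Nat.ModEq]

lemma T1_le_smax (c : ℕ → ℕ) (Z m U : ℕ) : T1 c Z m U ≤ smax U Z := by
  obtain ⟨m', h⟩ := T1_crt c Z m
  rw [h U]; exact le_smax m' U Z

lemma smin_le_T1 (c : ℕ → ℕ) (Z m U : ℕ) : smin U Z ≤ T1 c Z m U := by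
  obtain ⟨m', h⟩ := T1_crt c Z m
  rw [h U]; exact smin_le m' U Z

/-- every window pattern occurs in every interval of length `4 ^ Z`, for arbitrary classes -/
lemma T1_attain (c : ℕ → ℕ) (Z m B : ℕ) : ∃ x, B ≤ x ∧ x < B + 4 ^ Z ∧
    ∀ U, T1 c Z x U = T1 (fun _ => 0) Z m U := by
  obtain ⟨x, h1, h2, hx⟩ := crt Z (fun p => m + c p) B
  exact ⟨x, h1, h2, T1_shift c (fun _ => 0) Z x m fun p hp => by simpa using hx p hp⟩

lemma smax_anti {z w : ℕ} (h : z ≤ w) (U : ℕ) : smax U w ≤ smax U z := by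
  obtain ⟨m, hm⟩ := exists_smax U w
  rw [← hm]
  exact (T1_anti _ h m U).trans (le_smax m U z)

lemma smin_anti {z w : ℕ} (h : z ≤ w) (U : ℕ) : smin U w ≤ smin U z := by
  obtain ⟨m, hm⟩ := exists_smin U z
  rw [← hm]
  exact (smin_le m U w).trans (T1_anti _ h m U)

lemma T1_succ (c : ℕ → ℕ) (Z m U : ℕ) : T1 c Z m U ≤ T1 c Z m (U + 1) ∧
    T1 c Z m (U + 1) ≤ T1 c Z m U + 1 := by
  constructor
  · refine card_le_card fun n hn => ?_
    obtain ⟨⟨h1, h2⟩, h3⟩ := mem_T1.1 hn
    exact mem_T1.2 ⟨⟨h1, by omega⟩, h3⟩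
  · have : TT {0} c (primesLe Z) m (U + 1) ⊆ insert (m + (U + 1)) (TT {0} c (primesLe Z) m U) := by
      intro n hn
      obtain ⟨⟨h1, h2⟩, h3⟩ := mem_T1.1 hn
      rw [mem_insert]
      rcases Nat.lt_or_ge (m + U) n with h | h
      · left; omega
      · right; exact mem_T1.2 ⟨⟨h1, h⟩, h3⟩
    exact (card_le_card this).trans (card_insert_le _ _)

lemma smax_succ (U Z : ℕ) : smax U Z ≤ smax (U + 1) Z ∧ smax (U + 1) Z ≤ smax U Z + 1 := by
  constructor
  · obtain ⟨m, hm⟩ := exists_smax U Z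
    rw [← hm]
    exact (T1_succ _ Z m U).1.trans (le_smax m (U + 1) Z)
  · obtain ⟨m, hm⟩ := exists_smax (U + 1) Z
    rw [← hm]
    exact (T1_succ _ Z m U).2.trans (Nat.add_le_add_right (le_smax m U Z) 1)

lemma smin_succ (U Z : ℕ) : smin U Z ≤ smin (U + 1) Z ∧ smin (U + 1) Z ≤ smin U Z + 1 := by
  constructor
  · obtain ⟨m, hm⟩ := exists_smin (U + 1) Z
    rw [← hm]
    exact (smin_le m U Z).trans (T1_succ _ Z m U).1
  · obtain ⟨m, hm⟩ := exists_smin U Z
    rw [← hm]
    exact (smin_le m (U + 1) Z).trans (T1_succ _ Z m U).2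

end Pool.Agent.H532.RM
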