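import Mathlib
import Pool.Agent.H532.RM.ThmA

/-!
The semi-random sieve: from the dyadic blocks to all real intervals.
-/

namespace Pool.Agent.H532.RM

open Finset MeasureTheory Function ProbabilityTheory Filter
open scoped ENNReal Topology

/-- The number of elements of `R` in `(x, x + H]`. -/
noncomputable def count (R : Set ℕ) (x H : ℝ) : ℕ :=
  {n : ℕ | n ∈ R ∧ x < n ∧ (n : ℝ) ≤ x + H}.ncard

lemma count_eq_cn (R : Set ℕ) (x H : ℝ) (hx : 0 ≤ x) (hH : 0 ≤ H) :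
    (count R x H : ℝ) = cn R ⌊x⌋₊ (⌊x + H⌋₊ - ⌊x⌋₊) := by
  classical
  have hle : ⌊x⌋₊ ≤ ⌊x + H⌋₊ := Nat.floor_mono (by linarith)
  unfold count cn
  have : {n : ℕ | n ∈ R ∧ x < n ∧ (n : ℝ) ≤ x + H} =
      (((Ioc ⌊x⌋₊ (⌊x⌋₊ + (⌊x + H⌋₊ - ⌊x⌋₊))).filter (· ∈ R) : Finset ℕ) : Set ℕ) := by
    ext n
    simp only [Set.mem_ofPred_eq, coe_filter, mem_Ioc, Nat.add_sub_cancel' hle]
    rw [Nat.floor_lt hx, Nat.le_floor_iff (by linarith)]
    tauto
  rw [this, Set.ncard_coe_finset]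

lemma cn_mono (R : Set ℕ) {m U m' U' : ℕ} (h1 : m' ≤ m) (h2 : m + U ≤ m' + U') :
    cn R m U ≤ cn R m' U' := by
  classical
  unfold cn
  have : (Ioc m (m + U)).filter (· ∈ R) ⊆ (Ioc m' (m' + U')).filter (· ∈ R) :=
    filter_subset_filter _ (Ioc_subset_Ioc h1 h2)
  convert (Nat.cast_le (α := ℝ)).2 (card_le_card this) using 3

lemma cn_add (R : Set ℕ) (m U U' : ℕ) : cn R m (U + U') = cn R m U + cn R (m + U) U' := by
  classical
  unfold cn
  have h : (Ioc m (m + (U + U'))).filter (· ∈ R) =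
      (Ioc m (m + U)).filter (· ∈ R) ∪ (Ioc (m + U) (m + U + U')).filter (· ∈ R) := by
    rw [← filter_union, Ioc_union_Ioc_eq_Ioc (by omega) (by omega), add_assoc]
  have hd : Disjoint ((Ioc m (m + U)).filter (· ∈ R))
      ((Ioc (m + U) (m + U + U')).filter (· ∈ R)) := by
    refine disjoint_filter_filter ?_
    rw [Finset.disjoint_left]
    intro n h1 h2
    have := mem_Ioc.1 h1
    have := mem_Ioc.1 h2
    omega
  have := card_union_of_disjoint hd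
  rw [← h] at this
  have h3 : (((Ioc m (m + (U + U'))).filter (· ∈ R)).card : ℝ) =
      (((Ioc m (m + U)).filter (· ∈ R)).card : ℝ) +
      (((Ioc (m + U) (m + U + U')).filter (· ∈ R)).card : ℝ) := by exact_mod_cast this
  convert h3 using 3

lemma cn_nonneg (R : Set ℕ) (m U : ℕ) : 0 ≤ cn R m U := by
  unfold cn; positivity

/-- The asymptotic formula in the `i`-th block. -/
def BP (R : Set ℕ) (δ : ℝ) (T i : ℕ) : Prop :=
  ∀ m U : ℕ, 2 ^ i ≤ m + 1 → m + U < 2 ^ (i + 1) → T ≤ U →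
      |cn R m U * (i * Real.log 2) - U| ≤ δ * U

lemma piece (R : Set ℕ) (δ : ℝ) (hδ : 0 < δ) (hδ1 : δ < 1) (T i s : ℕ) (h : BP R δ T i)
    (hTs : T ≤ s) (hs : s ≤ 2 ^ i) (m u : ℕ) (hm : 2 ^ i ≤ m + 1) (hu : m + u < 2 ^ (i + 1)) :
    (1 - δ) * (u - s) ≤ cn R m u * (i * Real.log 2) ∧
      cn R m u * (i * Real.log 2) ≤ (1 + δ) * (u + s) := by
  have hlog2 : 0 < Real.log 2 := Real.log_pos (by norm_num)
  have hL : 0 ≤ (i : ℝ) * Real.log 2 := by positivity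
  have hc0 := cn_nonneg R m u
  rcases le_or_gt s u with hsu | hsu
  · have h1 := abs_le.1 (h m u hm hu (hTs.trans hsu))
    have hu0 : (0 : ℝ) ≤ u := by positivity
    have hs0 : (0 : ℝ) ≤ s := by positivity
    constructor
    · nlinarith [h1.1]
    · nlinarith [h1.2]
  · have hsur : (u : ℝ) < s := by exact_mod_cast hsu
    constructor
    · have h2 : (1 - δ) * ((u : ℝ) - s) ≤ 0 := by
        have : 0 ≤ 1 - δ := by linarith
        nlinarith
      have h3 : 0 ≤ cn R m u * (i * Real.log 2) := by positivity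
      linarith
    · set m' := min m (2 ^ (i + 1) - 1 - s) with hm'
      have hp : 2 ^ (i + 1) = 2 * 2 ^ i := by ring
      have h1 : m' ≤ m := min_le_left _ _
      have h2 : m + u ≤ m' + s := by omega
      have h3 : 2 ^ i ≤ m' + 1 := by omega
      have h4 : m' + s < 2 ^ (i + 1) := by omega
      have h5 := (abs_le.1 (h m' s h3 h4 hTs)).2
      have h6 := cn_mono R h1 h2
      have h7 : cn R m u * (i * Real.log 2) ≤ cn R m' s * (i * Real.log 2) := by gcongr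
      have hu0 : (0 : ℝ) ≤ u := by positivity
      nlinarith

/-- From the blocks to a real interval. -/
lemma from_blocks (R : Set ℕ) (δ : ℝ) (hδ : 0 < δ) (hδ1 : δ ≤ 1 / 60) (T : ℕ → ℕ) (x H : ℝ)
    (j : ℕ) (hj : j = Nat.log 2 ⌊x⌋₊) (hx : 1 ≤ x) (h1 : BP R δ (T j) j)
    (h2 : BP R δ (T (j + 1)) (j + 1)) (hT1 : (T j : ℝ) ≤ δ * H) (hT2 : (T (j + 1) : ℝ) ≤ δ * H)
    (hj1 : 1 / δ ≤ j) (hH : 1 / δ ≤ H) (hHx : H ≤ x) :
    |(count R x H : ℝ) * Real.log x / H - 1| ≤ 8 * δ := by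
  have hlog2 : 0 < Real.log 2 := Real.log_pos (by norm_num)
  have hδi : (60 : ℝ) ≤ 1 / δ := by
    rw [le_div_iff₀ hδ]; linarith
  have hH0 : 0 < H := by linarith
  have hjr : (0 : ℝ) < j := by linarith
  rw [count_eq_cn R x H (by linarith) hH0.le]
  set X0 := ⌊x⌋₊ with hX0
  set Y0 := ⌊x + H⌋₊ with hY0
  have hX1 : 1 ≤ X0 := Nat.le_floor (by simpa using hx)
  have hX0x : (X0 : ℝ) ≤ x := Nat.floor_le (by linarith)
  have hxX0 : x < X0 + 1 := Nat.lt_floor_add_one x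
  have hY0x : (Y0 : ℝ) ≤ x + H := Nat.floor_le (by linarith)
  have hxY0 : x + H < Y0 + 1 := Nat.lt_floor_add_one (x + H)
  have hpow1 : 2 ^ j ≤ X0 := by rw [hj]; exact Nat.pow_log_le_self 2 (by omega)
  have hpow2 : X0 < 2 ^ (j + 1) := by rw [hj]; exact Nat.lt_pow_succ_log_self (by norm_num) _
  have hXY : X0 ≤ Y0 := Nat.floor_mono (by linarith)
  set s := ⌈δ * H⌉₊ with hs
  have hδH : 1 ≤ δ * H := by
    rw [div_le_iff₀ hδ] at hH; linarith
  have hs1 : δ * H ≤ s := Nat.le_ceil _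
  have hs2 : (s : ℝ) < δ * H + 1 := Nat.ceil_lt_add_one (by positivity)
  have hs3 : (s : ℝ) ≤ 2 * (δ * H) := by linarith
  have hT1s : T j ≤ s := by
    have : (T j : ℝ) ≤ s := hT1.trans hs1
    exact_mod_cast this
  have hT2s : T (j + 1) ≤ s := by
    have : (T (j + 1) : ℝ) ≤ s := hT2.trans hs1
    exact_mod_cast this
  have hx2 : x < 2 ^ (j + 1) := by
    have : (X0 : ℝ) + 1 ≤ 2 ^ (j + 1) := by exact_mod_cast hpow2
    linarith
  have hs4 : s ≤ 2 ^ j := by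
    have h3 : (s : ℝ) ≤ 2 ^ j := by
      have h4 : δ * H ≤ (1 / 60) * 2 ^ (j + 1) := by
        have : H ≤ 2 ^ (j + 1) := by linarith
        gcongr
      have h5 : (2 : ℝ) ^ (j + 1) = 2 * 2 ^ j := by ring
      have h6 : (0 : ℝ) < 2 ^ j := by positivity
      nlinarith
    exact_mod_cast h3
  have hs5 : s ≤ 2 ^ (j + 1) := hs4.trans (Nat.pow_le_pow_right (by norm_num) (by omega))
  have hp1 := piece R δ hδ (by linarith) (T j) j s h1 hT1s hs4
  have hp2 := piece R δ hδ (by linarith) (T (j + 1)) (j + 1) s h2 hT2s hs5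
  set L1 : ℝ := j * Real.log 2 with hL1
  set L2 : ℝ := ((j + 1 : ℕ) : ℝ) * Real.log 2 with hL2
  have hL10 : 0 < L1 := by positivity
  have hL12 : L1 ≤ L2 := by
    rw [hL1, hL2]; push_cast; nlinarith
  have hlogx1 : L1 ≤ Real.log x := by
    rw [hL1, ← Real.log_pow]
    refine Real.log_le_log (by positivity) ?_
    have : ((2 ^ j : ℕ) : ℝ) ≤ X0 := by exact_mod_cast hpow1
    push_cast at this
    linarith
  have hlogx2 : Real.log x ≤ L2 := by
    rw [hL2, ← Real.log_pow]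
    exact Real.log_le_log (by linarith) hx2.le
  set U := Y0 - X0 with hU
  have hUr : (U : ℝ) = Y0 - X0 := by rw [hU, Nat.cast_sub hXY]
  have hδ2 : 1 / (j : ℝ) ≤ δ := by
    rw [div_le_iff₀ hjr]; rw [div_le_iff₀ hδ] at hj1; linarith
  set c := cn R X0 U with hc
  have hc0 : 0 ≤ c := cn_nonneg _ _ _
  have main : (1 - δ) * (U - 2 * s) ≤ c * L2 ∧ c * L1 ≤ (1 + δ) * (U + 2 * s) := by
    have hs0 : (0 : ℝ) ≤ s := by positivity
    rcases lt_or_ge Y0 (2 ^ (j + 1)) with hY | hY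
    · obtain ⟨a1, a2⟩ := hp1 X0 U (by omega) (by omega)
      constructor
      · have h3 : c * L1 ≤ c * L2 := by gcongr
        nlinarith
      · nlinarith
    · have hU2 : U = (2 ^ (j + 1) - 1 - X0) + (Y0 - (2 ^ (j + 1) - 1)) := by omega
      have hmid : X0 + (2 ^ (j + 1) - 1 - X0) = 2 ^ (j + 1) - 1 := by omega
      have hsplit := cn_add R X0 (2 ^ (j + 1) - 1 - X0) (Y0 - (2 ^ (j + 1) - 1))
      rw [← hU2, hmid] at hsplit
      have hYlt : Y0 < 2 ^ (j + 1 + 1) := by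
        have : (Y0 : ℝ) < 2 ^ (j + 1 + 1) := by
          have e : (2 : ℝ) ^ (j + 1 + 1) = 2 * 2 ^ (j + 1) := by ring
          rw [e]; linarith
        exact_mod_cast this
      have hpos : 1 ≤ 2 ^ (j + 1) := Nat.one_le_two_pow
      obtain ⟨a1, a2⟩ := hp1 X0 (2 ^ (j + 1) - 1 - X0) (by omega) (by omega)
      obtain ⟨a3, a4⟩ := hp2 (2 ^ (j + 1) - 1) (Y0 - (2 ^ (j + 1) - 1)) (by omega) (by omega)
      set u1 := 2 ^ (j + 1) - 1 - X0 with hu1
      set u2 := Y0 - (2 ^ (j + 1) - 1) with hu2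
      set c1 := cn R X0 u1 with hc1
      set c2 := cn R (2 ^ (j + 1) - 1) u2 with hc2
      have hc10 : 0 ≤ c1 := cn_nonneg _ _ _
      have hc20 : 0 ≤ c2 := cn_nonneg _ _ _
      have hUr2 : (U : ℝ) = u1 + u2 := by exact_mod_cast hU2
      have e1 : c1 * L1 ≤ c1 * L2 := by gcongr
      have e2 : c2 * L1 ≤ c2 * L2 := by gcongr
      rw [hc, hsplit, hUr2]
      constructor
      · nlinarith
      · nlinarith
  obtain ⟨m1, m2⟩ := main
  have hUlow : (1 - δ) * H ≤ U := by rw [hUr]; linarith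
  have hUup : (U : ℝ) ≤ (1 + δ) * H := by rw [hUr]; linarith
  -- upper bound
  have hup : c * Real.log x ≤ (1 + 8 * δ) * H := by
    have h3 : c * Real.log x ≤ c * L2 := by gcongr
    have h4 : L2 ≤ (1 + δ) * L1 := by
      rw [hL2, hL1]; push_cast
      have : 1 ≤ δ * j := by
        rw [div_le_iff₀ hjr] at hδ2; exact hδ2
      nlinarith
    have h5 : c * L2 ≤ (1 + δ) * (c * L1) := by
      calc c * L2 ≤ c * ((1 + δ) * L1) := by gcongr
        _ = (1 + δ) * (c * L1) := by ring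
    have h6 : (1 + δ) * (c * L1) ≤ (1 + δ) * ((1 + δ) * (U + 2 * s)) := by gcongr
    have h7 : (U : ℝ) + 2 * s ≤ (1 + 5 * δ) * H := by linarith
    have h8 : (1 + δ) * ((1 + δ) * (U + 2 * s)) ≤ (1 + δ) * ((1 + δ) * ((1 + 5 * δ) * H)) := by
      gcongr
    have h9 : (1 + δ) * ((1 + δ) * ((1 + 5 * δ) * H)) ≤ (1 + 8 * δ) * H := by
      have : (1 + δ) * ((1 + δ) * (1 + 5 * δ)) ≤ 1 + 8 * δ := by nlinarith [sq_nonneg δ]
      calc (1 + δ) * ((1 + δ) * ((1 + 5 * δ) * H)) = (1 + δ) * ((1 + δ) * (1 + 5 * δ)) * H := by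
            ring
        _ ≤ (1 + 8 * δ) * H := by gcongr
    linarith
  have hlow : (1 - 8 * δ) * H ≤ c * Real.log x := by
    have h3 : c * L1 ≤ c * Real.log x := by gcongr
    have h4 : (1 - δ) * L2 ≤ L1 := by
      rw [hL2, hL1]; push_cast
      have : 1 ≤ δ * j := by
        rw [div_le_iff₀ hjr] at hδ2; exact hδ2
      nlinarith
    have h5 : (1 - δ) * (c * L2) ≤ c * L1 := by
      calc (1 - δ) * (c * L2) = c * ((1 - δ) * L2) := by ring
        _ ≤ c * L1 := by gcongr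
    have h10 : 0 ≤ 1 - δ := by linarith
    have h6 : (1 - δ) * ((1 - δ) * (U - 2 * s)) ≤ (1 - δ) * (c * L2) := by gcongr
    have h7 : (1 - 5 * δ) * H ≤ (U : ℝ) - 2 * s := by linarith
    have h8 : (1 - δ) * ((1 - δ) * ((1 - 5 * δ) * H)) ≤ (1 - δ) * ((1 - δ) * (U - 2 * s)) := by
      gcongr
    have h9 : (1 - 8 * δ) * H ≤ (1 - δ) * ((1 - δ) * ((1 - 5 * δ) * H)) := by
      have : 1 - 8 * δ ≤ (1 - δ) * ((1 - δ) * (1 - 5 * δ)) := by nlinarith [sq_nonneg δ]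
      calc (1 - 8 * δ) * H ≤ (1 - δ) * ((1 - δ) * (1 - 5 * δ)) * H := by gcongr
        _ = _ := by ring
    linarith
  rw [abs_le]
  constructor
  · rw [le_sub_iff_add_le, le_div_iff₀ hH0]
    linarith
  · rw [sub_le_iff_le_add, div_le_iff₀ hH0]
    linarith

/-- **The semi-random sieve, in all intervals.** -/
theorem thmA (δ : ℝ) (hδ : 0 < δ) : ∃ K : ℕ, ∀ {Ω : Type}
    [MeasurableSpace Ω] (μ : Measure Ω) [IsProbabilityMeasure μ] (A : ℕ → Ω → ℕ),
    RandomClasses μ A → ∀ z : ℕ → ℕ, Monotone z →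
    Tendsto (fun n : ℕ => V (z n) * Real.log n) atTop (𝓝 1) →
    ∀ (y : ℕ → ℕ) (b : ℕ → ℕ → ℕ), ∀ᵐ ω ∂μ, ∀ᶠ x : ℝ in atTop, ∀ H : ℝ,
      ((y (Nat.log 2 ⌊x⌋₊) : ℝ) + y (Nat.log 2 ⌊x⌋₊ + 1) + Real.log x) ^ K ≤ H → H ≤ x →
      |(count (RS z y b (fun p => A p ω)) x H : ℝ) * Real.log x / H - 1| ≤ δ := by
  set δ1 : ℝ := min (δ / 8) (1 / 60) with hδ1
  have hδ1p : 0 < δ1 := lt_min (by positivity) (by norm_num)
  obtain ⟨K, hK1, hK⟩ := block_prop δ1 hδ1p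
  refine ⟨K + 1, ?_⟩
  intro Ω _ μ _ A hA z hzm hz y b
  filter_upwards [hK μ A hA z hzm hz y b] with ω hω
  obtain ⟨J, hJ⟩ := eventually_atTop.1 hω
  set R := RS z y b (fun p => A p ω) with hR
  have ev1 : ∀ᶠ x : ℝ in atTop, (2 : ℝ) ^ (max J (⌈1 / δ1⌉₊)) + 1 ≤ x := eventually_ge_atTop _
  have ev2 : ∀ᶠ x : ℝ in atTop, max 2 (2 ^ K / δ1) ≤ Real.log x :=
    Real.tendsto_log_atTop.eventually_ge_atTop _
  filter_upwards [ev1, ev2, eventually_ge_atTop 1] with x hx1 hx2 hx3 H hH hHx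
  set j := Nat.log 2 ⌊x⌋₊ with hj
  have hjmax : max J (⌈1 / δ1⌉₊) ≤ j := by
    rw [hj]
    refine Nat.le_log_of_pow_le (by norm_num) ?_
    refine Nat.le_floor ?_
    push_cast
    linarith
  have hJj : J ≤ j := (le_max_left _ _).trans hjmax
  have hδj : 1 / δ1 ≤ j := by
    have h1 : (⌈1 / δ1⌉₊ : ℝ) ≤ j := by exact_mod_cast (le_max_right _ _).trans hjmax
    exact (Nat.le_ceil _).trans h1
  have hlog2a : 2 ≤ Real.log x := (le_max_left _ _).trans hx2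
  have hlog2b : 2 ^ K / δ1 ≤ Real.log x := (le_max_right _ _).trans hx2
  have hlog2 : 0 < Real.log 2 := Real.log_pos (by norm_num)
  have hjx : (j : ℝ) * Real.log 2 ≤ Real.log x := by
    rw [← Real.log_pow]
    refine Real.log_le_log (by positivity) ?_
    have h1 : 2 ^ j ≤ ⌊x⌋₊ := Nat.pow_log_le_self 2
      (Nat.floor_pos.2 hx3).ne'
    have h2 : ((2 ^ j : ℕ) : ℝ) ≤ ⌊x⌋₊ := by exact_mod_cast h1
    push_cast at h2
    exact h2.trans (Nat.floor_le (by linarith))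
  have hjx2 : (j : ℝ) + 1 ≤ 2 * Real.log x := by
    have h1 := Real.log_two_gt_d9
    nlinarith
  set W : ℝ := (y j : ℝ) + y (j + 1) + Real.log x with hW
  have hy1 : (0 : ℝ) ≤ y j := by positivity
  have hy2 : (0 : ℝ) ≤ y (j + 1) := by positivity
  have hWl : Real.log x ≤ W := by linarith
  have hW0 : 0 < W := by linarith
  have hWK : (2 * W) ^ K ≤ δ1 * H := by
    have h1 : 2 ^ K ≤ δ1 * W := by
      rw [div_le_iff₀ hδ1p] at hlog2b
      nlinarith
    calc (2 * W) ^ K = 2 ^ K * W ^ K := by rw [mul_pow]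
      _ ≤ δ1 * W * W ^ K := by gcongr
      _ = δ1 * W ^ (K + 1) := by ring
      _ ≤ δ1 * H := by gcongr
  have hT1 : (((y j + j) ^ K : ℕ) : ℝ) ≤ δ1 * H := by
    push_cast
    refine le_trans ?_ hWK
    gcongr
    linarith
  have hT2 : (((y (j + 1) + (j + 1)) ^ K : ℕ) : ℝ) ≤ δ1 * H := by
    push_cast
    refine le_trans ?_ hWK
    gcongr
    linarith
  have hH1 : 1 / δ1 ≤ H := by
    rw [div_le_iff₀ hδ1p]
    have h1 : (1 : ℝ) ≤ (2 * W) ^ K := one_le_pow₀ (by linarith)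
    linarith
  have hBP1 : BP R δ1 ((y j + j) ^ K) j := fun m U h1 h2 h3 => hJ j hJj m U h1 h2 h3
  have hBP2 : BP R δ1 ((y (j + 1) + (j + 1)) ^ K) (j + 1) := fun m U h1 h2 h3 =>
    hJ (j + 1) (by omega) m U h1 h2 h3
  have := from_blocks R δ1 hδ1p (min_le_right _ _) (fun i => (y i + i) ^ K) x H j hj hx3 hBP1
    hBP2 hT1 hT2 hδj hH1 hHx
  refine this.trans ?_
  have := min_le_left (δ / 8) (1 / 60)
  linarith

end Pool.Agent.H532.RM
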