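import Mathlib
import Pool.Agent.H532.RM.Mertens
import Pool.Agent.H532.RM.Block

/-!
A sharp bound for the weighted sum of the class sizes.
-/

namespace Pool.Agent.H532.RM

open Finset Filter
open scoped Topology

lemma log_div_sq_le (n : ℕ) (hn : 4 ≤ n) :
    Real.log n / (n : ℝ) ^ 2 ≤ (Real.log ((n - 1 : ℕ) : ℝ) + 1) / ((n - 1 : ℕ) : ℝ) -
      (Real.log n + 1) / n := by
  obtain ⟨k, rfl⟩ : ∃ k, n = k + 1 := ⟨n - 1, by omega⟩
  have hk : (3 : ℝ) ≤ k := by exact_mod_cast (by omega : 3 ≤ k)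
  rw [Nat.add_sub_cancel]
  push_cast
  have h1 : Real.log ((k : ℝ) + 1) - Real.log k ≤ 1 / k := by
    rw [← Real.log_div (by positivity) (by positivity)]
    have := Real.log_le_sub_one_of_pos (show 0 < ((k : ℝ) + 1) / k by positivity)
    have e : ((k : ℝ) + 1) / k - 1 = 1 / k := by field_simp; ring
    linarith
  have h2 : (4 : ℝ) / 3 ≤ Real.log ((k : ℝ) + 1) := by
    have h3 : (4 : ℝ) / 3 ≤ Real.log 4 := by
      have : Real.log 4 = 2 * Real.log 2 := by
        rw [show (4 : ℝ) = 2 ^ 2 by norm_num, Real.log_pow]; push_cast; ring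
      have := Real.log_two_gt_d9
      linarith
    exact h3.trans (Real.log_le_log (by norm_num) (by linarith))
  have h3 : ((k : ℝ) + 1) / k ≤ 4 / 3 := by
    rw [div_le_div_iff₀ (by linarith) (by norm_num)]; linarith
  set a := Real.log (k : ℝ) with ha
  set b := Real.log ((k : ℝ) + 1) with hb
  rw [div_sub_div _ _ (by positivity) (by positivity), div_le_div_iff₀ (by positivity)
    (by positivity)]
  -- b * (k (k+1)) ≤ ((a+1)(k+1) - k(b+1)) (k+1)^2
  have h4 : b - a ≤ 1 / k := h1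
  have h5 : (k : ℝ) * (b - a) ≤ 1 := by
    rw [le_div_iff₀ (by linarith)] at h4; linarith
  have h6 : ((k : ℝ) + 1) ≤ k * b := by
    rw [div_le_iff₀ (by linarith)] at h3
    nlinarith
  have h7 : b * k ≤ ((a + 1) * (k + 1) - k * (b + 1)) * (k + 1) := by
    have e : (a + 1) * ((k : ℝ) + 1) - k * (b + 1) = a + 1 - k * (b - a) := by ring
    rw [e]
    have h8 : b - 1 / k ≤ a := by linarith
    have h9 : (b - a) * (k + 1) * (k : ℝ) ≤ k + 1 := by nlinarith
    have h10 : (k : ℝ) * ((b - a) * (k + 1)) ≤ k * (k * b - 1) + (k + 1) - k * (k * b - 1) := by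
      nlinarith
    -- (a + 1 - k(b-a)) (k+1) - b k = b - (b-a)(k+1) ... 
    have e2 : (a + 1 - k * (b - a)) * ((k : ℝ) + 1) - b * k =
        (b + 1 + k) - (b - a) * (k + 1) ^ 2 := by ring
    have h11 : (b - a) * ((k : ℝ) + 1) ^ 2 ≤ (k + 1) ^ 2 / k := by
      rw [le_div_iff₀ (by linarith)]
      nlinarith
    have h12 : ((k : ℝ) + 1) ^ 2 / k ≤ b + 1 + k := by
      rw [div_le_iff₀ (by linarith)]
      nlinarith
    linarith
  nlinarith

lemma sum_log_div_sq (w Z : ℕ) (hw : 3 ≤ w) :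
    ∑ n ∈ Ioc w Z, Real.log n / (n : ℝ) ^ 2 ≤ 2 * (Real.log w / w) := by
  have key : ∀ Z, w ≤ Z → ∑ n ∈ Ioc w Z, Real.log n / (n : ℝ) ^ 2 ≤
      (Real.log w + 1) / w - (Real.log Z + 1) / Z := by
    intro Z hZ
    induction Z, hZ using Nat.le_induction with
    | base => simp
    | succ n hn ih =>
      rw [sum_Ioc_succ_top hn]
      have := log_div_sq_le (n + 1) (by omega)
      rw [Nat.add_sub_cancel] at this
      push_cast at this ⊢
      linarith
  have hw3 : (3 : ℝ) ≤ w := by exact_mod_cast hw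
  have hlog : 1 ≤ Real.log w := by
    rw [Real.le_log_iff_exp_le (by linarith)]
    have := Real.exp_one_lt_d9
    linarith
  rcases le_total w Z with h | h
  · refine (key Z h).trans ?_
    have h1 : 0 ≤ (Real.log Z + 1) / (Z : ℝ) := by
      have : 0 ≤ Real.log Z := Real.log_natCast_nonneg Z
      positivity
    have h2 : (Real.log w + 1) / (w : ℝ) ≤ 2 * (Real.log w / w) := by
      rw [← mul_div_assoc]
      gcongr
      linarith
    linarith
  · rw [Ioc_eq_empty (by omega), sum_empty]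
    positivity

lemma rho_one (P : Finset ℕ) : rho 1 P = ∏ p ∈ P, (1 - 1 / (p : ℝ)) := by
  unfold rho
  simp

lemma uu_one (w Z p : ℕ) (hp : p ∈ (primesLe Z).filter (fun p => w < p)) :
    uu 1 ((primesLe Z).filter (fun p => w < p)) p = V Z / V p := by
  obtain ⟨h1, h2⟩ := mem_filter.1 hp
  have h3 := mem_primesLe.1 h1
  have h4 := V_split h3.1
  unfold uu
  rw [rho_one, eq_div_iff (V_pos p).ne', mul_comm, h4]
  congr 1
  refine prod_congr ?_ fun _ _ => rfl
  ext q
  simp only [mem_filter]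
  constructor
  · rintro ⟨⟨a, _⟩, b⟩; exact ⟨a, b⟩
  · rintro ⟨a, b⟩; exact ⟨⟨a, by omega⟩, b⟩

lemma log_div_anti {w p : ℕ} (hw : 3 ≤ w) (h : w ≤ p) :
    Real.log p / (p : ℝ) ≤ Real.log w / w := by
  refine Real.log_div_self_antitoneOn ?_ ?_ (by exact_mod_cast h)
  · have h1 := Real.exp_one_lt_d9
    have : (3 : ℝ) ≤ w := by exact_mod_cast hw
    show Real.exp 1 ≤ (w : ℝ)
    linarith
  · have h1 := Real.exp_one_lt_d9
    have : (3 : ℝ) ≤ p := by exact_mod_cast hw.trans h
    show Real.exp 1 ≤ (p : ℝ)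
    linarith

/-- The sharp bound. -/
theorem Kb : ∃ C : ℝ, 0 < C ∧ ∀ w Z U : ℕ, 4 ≤ w →
    KK 1 (fun p => (U : ℝ) / p + 1) ((primesLe Z).filter (fun p => w < p)) ≤
      1 + C * (U * V Z * (Real.log w / w)) ∧
    ∀ p ∈ (primesLe Z).filter (fun p => w < p),
      uu 1 ((primesLe Z).filter (fun p => w < p)) p * ((U : ℝ) / p + 1) ≤
      1 + C * (U * V Z * (Real.log w / w)) := by
  obtain ⟨c, _, hc, _, hV⟩ := V_two_sided
  refine ⟨2 / c, by positivity, fun w Z U hw => ?_⟩
  set P := (primesLe Z).filter (fun p => w < p) with hP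
  have hbig : ∀ p ∈ P, 0 < p ∧ 4 * 1 ≤ p := fun p hp => by
    have := (mem_filter.1 hp).2
    omega
  have huu : ∀ p ∈ P, uu 1 P p ≤ V Z * Real.log p / c := by
    intro p hp
    rw [hP, uu_one w Z p hp]
    have h1 := (mem_filter.1 hp).2
    have h2 := (hV p (by omega)).1
    have h3 := V_pos p
    have h4 := V_pos Z
    rw [div_le_div_iff₀ h3 hc]
    nlinarith
  have hVZ := (V_pos Z).le
  have hlw : 0 ≤ Real.log w / (w : ℝ) := by positivity
  constructor
  · have h1 : KK 1 (fun p => (U : ℝ) / p + 1) P = KK 1 (fun _ => 1) P +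
        U * ∑ p ∈ P, uu 1 P p / (p : ℝ) ^ 2 := by
      unfold KK
      rw [mul_sum, ← sum_add_distrib]
      refine sum_congr rfl fun p hp => ?_
      have : (p : ℝ) ≠ 0 := by exact_mod_cast (hbig p hp).1.ne'
      push_cast
      field_simp
      ring
    rw [h1, KK_one]
    have h2 := rho_nonneg 1 P hbig
    have h3 : ∑ p ∈ P, uu 1 P p / (p : ℝ) ^ 2 ≤ V Z / c * (2 * (Real.log w / w)) := by
      calc ∑ p ∈ P, uu 1 P p / (p : ℝ) ^ 2 ≤ ∑ p ∈ P, V Z / c * (Real.log p / (p : ℝ) ^ 2) := by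
            refine sum_le_sum fun p hp => ?_
            have h4 := huu p hp
            calc uu 1 P p / (p : ℝ) ^ 2 ≤ (V Z * Real.log p / c) / (p : ℝ) ^ 2 := by gcongr
              _ = V Z / c * (Real.log p / (p : ℝ) ^ 2) := by ring
        _ = V Z / c * ∑ p ∈ P, (Real.log p / (p : ℝ) ^ 2) := by rw [mul_sum]
        _ ≤ V Z / c * ∑ p ∈ Ioc w Z, (Real.log p / (p : ℝ) ^ 2) := by
            gcongr
            intro p hp
            obtain ⟨a, b⟩ := mem_filter.1 hp
            exact mem_Ioc.2 ⟨b, (mem_primesLe.1 a).1⟩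
        _ ≤ V Z / c * (2 * (Real.log w / w)) := by
            gcongr
            exact sum_log_div_sq w Z (by omega)
    have h4 : (U : ℝ) * ∑ p ∈ P, uu 1 P p / (p : ℝ) ^ 2 ≤
        U * (V Z / c * (2 * (Real.log w / w))) := by gcongr
    have e : (U : ℝ) * (V Z / c * (2 * (Real.log w / w))) =
        2 / c * (U * V Z * (Real.log w / w)) := by ring
    linarith
  · intro p hp
    have h1 := uu_le_one 1 P hbig p
    have h2 := huu p hp
    have h3 := (mem_filter.1 hp).2
    have h4 := log_div_anti (by omega : 3 ≤ w) h3.le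
    have h5 : uu 1 P p * ((U : ℝ) / p) ≤ 1 / c * (U * V Z * (Real.log w / w)) := by
      calc uu 1 P p * ((U : ℝ) / p) ≤ (V Z * Real.log p / c) * ((U : ℝ) / p) := by gcongr
        _ = 1 / c * (U * V Z * (Real.log p / p)) := by ring
        _ ≤ 1 / c * (U * V Z * (Real.log w / w)) := by gcongr
    have h6 : 0 ≤ 1 / c * (U * V Z * (Real.log w / w)) := by positivity
    have e : 2 / c * (U * V Z * (Real.log w / w)) = 2 * (1 / c * (U * V Z * (Real.log w / w))) := by
      ring
    rw [mul_add, mul_one, e]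
    linarith

end Pool.Agent.H532.RM
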