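import Mathlib
import Pool.Agent.H532.RM.Kb
import Pool.Agent.H532.RM.Upper

/-!
Concentration in all intervals of a dyadic block of length at least `Λ (log x)²`, relative to the
set sieved by the primes up to `log x (loglog x)³`.
-/

namespace Pool.Agent.H532.RM

open Finset MeasureTheory Function ProbabilityTheory Filter
open scoped ENNReal Topology

section
variable {Ω : Type} [MeasurableSpace Ω] {μ : Measure Ω} [IsProbabilityMeasure μ]
  {A : ℕ → Ω → ℕ}

lemma ae_lt (hA : RandomClasses μ A) : ∀ᵐ ω ∂μ, ∀ p : ℕ, p.Prime → A p ω < p := by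
  rw [ae_all_iff]
  intro p
  by_cases hpp : p.Prime
  · have h1 : μ {ω | A p ω < p} = 1 := by
      have h2 : {ω | A p ω < p} = ⋃ r ∈ range p, {ω | A p ω = r} := by
        ext ω; simp
      have h3 : μ (⋃ r ∈ range p, {ω | A p ω = r}) = ∑ r ∈ range p, μ {ω | A p ω = r} := by
        refine measure_biUnion_finset ?_ ?_
        · intro r _ r' _ hne
          refine Set.disjoint_left.2 fun ω h h' => hne ?_
          exact (show A p ω = r from h).symm.trans (show A p ω = r' from h')
        · intro r _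
          exact (hA.meas p) (measurableSet_singleton r)
      rw [h2, h3, sum_congr rfl fun r hr => hA.unif p hpp r (mem_range.1 hr), sum_const,
        card_range, nsmul_eq_mul]
      exact ENNReal.mul_inv_cancel (by exact_mod_cast hpp.ne_zero) (ENNReal.natCast_ne_top p)
    have hms : MeasurableSet {ω | A p ω < p} := by
      have : {ω | A p ω < p} = A p ⁻¹' {r | r < p} := rfl
      rw [this]; exact (hA.meas p) MeasurableSet.of_discrete
    have h4 : ∀ᵐ ω ∂μ, A p ω < p := by
      rw [ae_iff]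
      have : {ω | ¬ A p ω < p} = {ω | A p ω < p}ᶜ := rfl
      rw [this, prob_compl_eq_zero_iff hms]; exact h1
    filter_upwards [h4] with ω hω _ using hω
  · exact Filter.Eventually.of_forall fun ω h => absurd h hpp

lemma T1_mix (a b : ℕ → ℕ) (Q : Finset ℕ) (hQ : ∀ p ∈ Q, 0 < p) (m U : ℕ) :
    TT {0} (mix 0 b a) Q m U = TT {0} a Q m U := by
  refine TT_congr _ _ _ _ _ _ fun p hp => ?_
  unfold mix
  rw [if_neg (by have := hQ p hp; omega)]

/-- One interval. -/
theorem tail1 (hA : RandomClasses μ A) (w Z : ℕ) (hw : 4 ≤ w) (hwZ : w ≤ Z) (m U : ℕ) (Kh : ℝ)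
    (hK1 : KK 1 (fun p => (U : ℝ) / p + 1) ((primesLe Z).filter (fun p => w < p)) ≤ Kh)
    (hK2 : ∀ p ∈ (primesLe Z).filter (fun p => w < p),
      uu 1 ((primesLe Z).filter (fun p => w < p)) p * ((U : ℝ) / p + 1) ≤ Kh)
    (θ : ℝ) (hθ : 0 ≤ θ) (h4 : 4 * θ * Kh ≤ 1) (t M : ℝ)
    (hM : ∀ a, V Z / V w * T1 a w m U ≤ M) :
    μ {ω | t ≤ |(T1 (fun p => A p ω) Z m U : ℝ) - V Z / V w * T1 (fun p => A p ω) w m U|} ≤
      ENNReal.ofReal (2 * Real.exp (-(θ * (t - 4 * θ * Kh * M)))) := by
  classical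
  set P := (primesLe Z).filter (fun p => w < p) with hP
  have hPp : ∀ p ∈ P, p.Prime ∧ w < p := fun p hp =>
    ⟨(mem_primesLe.1 (mem_filter.1 hp).1).2, (mem_filter.1 hp).2⟩
  have hρ : rho 1 P = V Z / V w := by
    rw [rho_one, V_split hwZ, mul_div_cancel_left₀ _ (V_pos w).ne']
  have hun : primesLe w ∪ P = primesLe Z := by
    ext p
    simp only [hP, mem_union, mem_filter, mem_primesLe]
    constructor
    · rintro (⟨h1, h2⟩ | ⟨h1, _⟩)
      · exact ⟨h1.trans hwZ, h2⟩
      · exact h1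
    · rintro ⟨h1, h2⟩
      rcases le_or_gt p w with h3 | h3
      · exact Or.inl ⟨h3, h2⟩
      · exact Or.inr ⟨⟨h1, h2⟩, h3⟩
  have hdis : Disjoint (primesLe w) P := by
    rw [Finset.disjoint_left]
    intro p h1 h2
    have := (mem_primesLe.1 h1).1
    have := (hPp p h2).2
    omega
  have hposw : ∀ p ∈ primesLe w, 0 < p := fun p hp => (mem_primesLe.1 hp).2.pos
  have hposZ : ∀ p ∈ primesLe Z, 0 < p := fun p hp => (mem_primesLe.1 hp).2.pos
  have hcard : ({0} : Finset ℕ).card = 1 := card_singleton 0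
  have htail := tail_prob hA (primesLe Z) P (fun p hp => (mem_primesLe.1 hp).2)
    (filter_subset _ _) (OmD {0}) 1 (fun p => (U : ℝ) / p + 1) θ hθ
    (Sf {0} 0 (fun _ => 0) (primesLe w) m U)
    (by
      have : primesLe Z \ P = primesLe w := by
        rw [← hun, union_sdiff_right, sdiff_eq_self_of_disjoint hdis]
      rw [this]; exact Sf_dep _ _ _ _ _ _)
    (fun a => by
      have := sieveOK_Sf {0} (singleton_nonempty 0) 0 (fun _ => 0) (primesLe w) P m U a
        (fun p hp => ⟨(hPp p hp).1, fun d hd => by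
          rw [mem_singleton] at hd; rw [hd]; exact (hPp p hp).1.pos,
          by rw [hcard]; have := (hPp p hp).2; omega⟩)
      rw [hcard] at this
      have e : (fun p : ℕ => ((1 : ℕ) : ℝ) * ((U : ℝ) / p + 1)) =
          (fun p : ℕ => (U : ℝ) / p + 1) := by
        funext p; push_cast; ring
      rwa [e] at this)
    Kh hK1 hK2 h4 t M
    (fun a => by
      rw [hρ]
      have := hM a
      unfold Sf
      rw [T1_mix a _ _ hposw]
      exact this)
  refine le_trans ?_ htail
  refine measure_mono_ae ?_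
  filter_upwards [ae_lt hA] with ω hω h
  have h1 := surv_Sf {0} 0 (fun _ => 0) (primesLe w) P m U (fun p => A p ω)
    (fun p hp => (hPp p hp).1.pos) (fun p hp => hω p (hPp p hp).1)
  rw [hun] at h1
  show t ≤ _
  rw [h1, hρ]
  unfold Sf
  rw [T1_mix _ _ _ hposw, T1_mix _ _ _ hposZ]
  exact h

end

/-- The auxiliary sieving level. -/
def wj (j : ℕ) : ℕ := j * (Nat.log 2 j) ^ 3

lemma nlog_tendsto : Tendsto (fun j : ℕ => Nat.log 2 j) atTop atTop := by
  refine tendsto_atTop.2 fun B => ?_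
  filter_upwards [eventually_ge_atTop (2 ^ B)] with j hj
  exact Nat.le_log_of_pow_le (by norm_num) hj

lemma wj_log (j : ℕ) (hj : 2 ≤ j) : Real.log (wj j) ≤ 5 * Nat.log 2 j := by
  set l := Nat.log 2 j with hl
  have hl1 : 1 ≤ l := Nat.le_log_of_pow_le (by norm_num) (by simpa using hj)
  have h1 : j < 2 ^ (l + 1) := Nat.lt_pow_succ_log_self (by norm_num) j
  have h2 : wj j ≤ 2 ^ (4 * l + 1) := by
    unfold wj
    rw [← hl]
    have h3 : l ≤ 2 ^ l := Nat.lt_two_pow_self.le
    calc j * l ^ 3 ≤ 2 ^ (l + 1) * (2 ^ l) ^ 3 := by gcongr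
      _ = 2 ^ (4 * l + 1) := by rw [← pow_mul, ← pow_add]; congr 1; ring
  have h4 : 0 < wj j := by
    unfold wj; positivity
  have h5 : Real.log (wj j) ≤ ((4 * l + 1 : ℕ) : ℝ) * Real.log 2 := by
    rw [← Real.log_pow]
    refine Real.log_le_log (by exact_mod_cast h4) ?_
    exact_mod_cast h2
  have h6 := Real.log_two_lt_d9
  have h7 : (1 : ℝ) ≤ l := by exact_mod_cast hl1
  push_cast at h5
  nlinarith

lemma wj_tendsto : Tendsto wj atTop atTop := by
  refine tendsto_atTop.2 fun B => ?_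
  filter_upwards [eventually_ge_atTop B, nlog_tendsto.eventually_ge_atTop 1] with j hj hl
  unfold wj
  calc B ≤ j * 1 := by omega
    _ ≤ j * (Nat.log 2 j) ^ 3 := Nat.mul_le_mul_left _ (Nat.one_le_pow _ _ hl)

/-- `w / log w` is much larger than `j`. -/
lemma wj_large (C : ℝ) : ∀ᶠ j : ℕ in atTop, C * j * Real.log (wj j) ≤ wj j := by
  have h1 : Tendsto (fun j : ℕ => ((Nat.log 2 j : ℕ) : ℝ)) atTop atTop :=
    tendsto_natCast_atTop_atTop.comp nlog_tendsto
  filter_upwards [h1.eventually_ge_atTop (max 1 (5 * |C|)), eventually_ge_atTop 2] with j hj hj2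
  have a1 : (1 : ℝ) ≤ Nat.log 2 j := (le_max_left _ _).trans hj
  have a2 : 5 * |C| ≤ Nat.log 2 j := (le_max_right _ _).trans hj
  have h2 := wj_log j hj2
  have h3 : 0 ≤ Real.log (wj j) := Real.log_natCast_nonneg _
  have h4 : (wj j : ℝ) = j * (Nat.log 2 j : ℝ) ^ 3 := by unfold wj; push_cast; rfl
  rw [h4]
  set l : ℝ := (Nat.log 2 j : ℝ) with hl
  calc C * j * Real.log (j * (l ^ 3)) = C * j * Real.log (wj j) := by rw [h4]
    _ ≤ |C| * j * (5 * l) := by
        have : C ≤ |C| := le_abs_self C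
        gcongr
    _ = j * ((5 * |C|) * l) := by ring
    _ ≤ j * (l * l) := by gcongr
    _ ≤ j * l ^ 3 := by
        have : l * l ≤ l ^ 3 := by nlinarith [sq_nonneg l]
        gcongr

theorem conc (δ : ℝ) (hδ : 0 < δ) (hδ1 : δ ≤ 1) : ∃ Λ : ℕ, 1 ≤ Λ ∧ ∀ {Ω : Type}
    [MeasurableSpace Ω] (μ : Measure Ω) [IsProbabilityMeasure μ] (A : ℕ → Ω → ℕ),
    RandomClasses μ A → ∀ Z : ℕ → ℕ,
    Tendsto (fun j : ℕ => V (Z j) * (j * Real.log 2)) atTop (𝓝 1) →
    ∀ᵐ ω ∂μ, ∀ᶠ j : ℕ in atTop, ∀ m < 2 ^ (j + 3), ∀ U < 2 ^ (j + 3), Λ * j ^ 2 ≤ U →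
      |(T1 (fun p => A p ω) (Z j) m U : ℝ) -
        V (Z j) / V (wj j) * T1 (fun p => A p ω) (wj j) m U| ≤ δ * (U / j) := by
  classical
  obtain ⟨C', hC', hKb⟩ := Kb
  obtain ⟨C0, hC0, ζ0, hup⟩ := upper
  set C : ℝ := max C0 1 with hC
  have hC1 : 1 ≤ C := le_max_right _ _
  obtain ⟨Λ, hΛ⟩ : ∃ Λ : ℕ, 2000 * C / δ ^ 2 ≤ Λ := exists_nat_ge _
  refine ⟨Λ + 1, by omega, ?_⟩
  intro Ω _ μ _ A hA Z hZ
  set F : ℕ → Finset ℕ := fun j => (range (2 ^ (j + 3))).filter (fun U => (Λ + 1) * j ^ 2 ≤ U)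
    with hF
  set E : ℕ → ℕ → ℕ → Set Ω := fun j m U =>
    {ω | δ * (U / j) ≤ |(T1 (fun p => A p ω) (Z j) m U : ℝ) -
        V (Z j) / V (wj j) * T1 (fun p => A p ω) (wj j) m U|} with hE
  have hlog2 : (0 : ℝ) < Real.log 2 := Real.log_pos (by norm_num)
  -- `V (Z j) ≤ 2 / j`
  have ev1 : ∀ᶠ j : ℕ in atTop, V (Z j) * j ≤ 2 := by
    filter_upwards [hZ.eventually (gt_mem_nhds (by norm_num : (1 : ℝ) < 1.2))] with j hj
    have h1 := Real.log_two_gt_d9
    have h2 := (V_pos (Z j)).le
    have h3 : 0 ≤ V (Z j) * j := by positivity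
    nlinarith
  have ev2 : ∀ᶠ j : ℕ in atTop, wj j ≤ Z j := by
    have h1 : ∀ᶠ j : ℕ in atTop, V (Z j) < V (wj j) := by
      obtain ⟨c, _, hc, _, hV⟩ := V_two_sided
      filter_upwards [ev1, wj_tendsto.eventually_ge_atTop 2, eventually_ge_atTop 2,
        wj_large 0, (tendsto_natCast_atTop_atTop (R := ℝ)).eventually_ge_atTop 1,
        ((Real.isLittleO_log_id_atTop.comp_tendsto (tendsto_natCast_atTop_atTop (R := ℝ))).bound
          (show (0 : ℝ) < c / 20 by positivity))] with j h1 h2 h3 _ h4 h5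
      have h6 := (hV (wj j) h2).1
      have h7 := wj_log j h3
      have h8 : 0 < Real.log (wj j) := Real.log_pos (by exact_mod_cast h2)
      -- log wj ≤ 5 * Nat.log 2 j ≤ 5 * log j / log 2
      have h9 : (Nat.log 2 j : ℝ) * Real.log 2 ≤ Real.log j := by
        rw [← Real.log_pow]
        refine Real.log_le_log (by positivity) ?_
        exact_mod_cast Nat.pow_log_le_self 2 (by omega)
      simp only [comp_apply, id_eq, Real.norm_eq_abs] at h5
      rw [abs_of_nonneg (Real.log_natCast_nonneg j), abs_of_nonneg (by positivity)] at h5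
      have h10 := Real.log_two_gt_d9
      have h11 : Real.log (wj j) ≤ c / 2.5 * j := by
        have : (Nat.log 2 j : ℝ) * 0.69 ≤ c / 20 * j := by
          have h0 : (0 : ℝ) ≤ Nat.log 2 j := by positivity
          nlinarith
        have h0 : 0 ≤ c * (j : ℝ) := by positivity
        have e1 : c / 2.5 * (j : ℝ) = 0.4 * (c * j) := by ring
        have e2 : c / 20 * (j : ℝ) = 0.05 * (c * j) := by ring
        rw [e2] at this
        rw [e1]
        linarith
      have h12 : c / (c / 2.5 * j) ≤ V (wj j) := by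
        calc c / (c / 2.5 * j) ≤ c / Real.log (wj j) := by gcongr
          _ ≤ V (wj j) := by rw [div_le_iff₀ h8]; exact h6
      have h13 : V (Z j) ≤ 2 / j := by rw [le_div_iff₀ (by linarith)]; exact h1
      have h14 : (2 : ℝ) / j < c / (c / 2.5 * j) := by
        have e : c / (c / 2.5 * j) = 2.5 / j := by field_simp
        rw [e]
        gcongr
        norm_num
      linarith
    filter_upwards [h1] with j hj
    by_contra h
    exact absurd (V_anti (not_le.1 h).le) (not_le.2 hj)
  have ev3 := wj_large (50000 * C * C' / δ ^ 2)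
  have hmeas : ∀ᶠ j : ℕ in atTop,
      μ (⋃ m ∈ range (2 ^ (j + 3)), ⋃ U ∈ F j, E j m U) ≤
        ENNReal.ofReal ((1 / 2 : ℝ) ^ j) := by
    filter_upwards [ev1, ev2, ev3, wj_tendsto.eventually_ge_atTop (max 4 ζ0),
      eventually_ge_atTop 16, nlog_tendsto.eventually_ge_atTop 1] with j h1 h2 h3 h4 h5 h6
    have hw4 : 4 ≤ wj j := (le_max_left _ _).trans h4
    have hwζ : ζ0 ≤ wj j := (le_max_right _ _).trans h4
    have hjr : (16 : ℝ) ≤ j := by exact_mod_cast h5
    have hwr : (4 : ℝ) ≤ wj j := by exact_mod_cast hw4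
    have hlw : 0 < Real.log (wj j) := Real.log_pos (by linarith)
    have hVZ := V_pos (Z j)
    have hVw := V_pos (wj j)
    have hone : ∀ m ∈ range (2 ^ (j + 3)), ∀ U ∈ F j, μ (E j m U) ≤
        ENNReal.ofReal (2 * Real.exp (-(4 * ((j : ℝ) + 4)))) := by
      intro m _ U hU
      have hU' := (mem_filter.1 hU).2
      have hUr : ((Λ : ℝ) + 1) * j ^ 2 ≤ U := by exact_mod_cast hU'
      have hΛ0 : (0 : ℝ) ≤ Λ := by positivity
      have hU0 : (0 : ℝ) < U := by nlinarith
      set a : ℝ := C' * (U * V (Z j) * (Real.log (wj j) / wj j)) with ha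
      have ha0 : 0 ≤ a := by positivity
      obtain ⟨k1, k2⟩ := hKb (wj j) (Z j) U hw4
      set Kh : ℝ := 1 + a with hKh
      have hKhpos : 0 < Kh := by rw [hKh]; linarith
      set θ : ℝ := δ / (16 * C * Kh) with hθ
      have hθ0 : 0 ≤ θ := by positivity
      have hθK : 4 * θ * Kh = δ / (4 * C) := by
        rw [hθ]; field_simp; ring
      have h4θ : 4 * θ * Kh ≤ 1 := by
        rw [hθK, div_le_one (by positivity)]; linarith
      have hM : ∀ c, V (Z j) / V (wj j) * T1 c (wj j) m U ≤ C * (U * V (Z j)) := by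
        intro c
        have hw2 : wj j ≤ U ^ 2 := by
          -- crude
          have hlj : Nat.log 2 j ≤ j := (Nat.log_lt_self 2 (by omega)).le
          have h7 : wj j ≤ j * j ^ 3 := by
            unfold wj; gcongr
          have h8 : j ^ 2 ≤ U := by
            calc j ^ 2 = 1 * j ^ 2 := (one_mul _).symm
              _ ≤ (Λ + 1) * j ^ 2 := Nat.mul_le_mul_right _ (by omega)
              _ ≤ U := hU'
          calc wj j ≤ j * j ^ 3 := h7
            _ = (j ^ 2) ^ 2 := by ring
            _ ≤ U ^ 2 := Nat.pow_le_pow_left h8 2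
        have h7 := hup (wj j) hwζ U hw2 c m
        calc V (Z j) / V (wj j) * T1 c (wj j) m U ≤
            V (Z j) / V (wj j) * (C0 * (U * V (wj j))) := by gcongr
          _ = C0 * (U * V (Z j)) := by field_simp
          _ ≤ C * (U * V (Z j)) := by
              have : C0 ≤ C := le_max_left _ _
              gcongr
      have htail := tail1 hA (wj j) (Z j) hw4 h2 m U Kh k1 k2 θ hθ0 h4θ (δ * (U / j))
        (C * (U * V (Z j))) hM
      refine htail.trans (ENNReal.ofReal_le_ofReal ?_)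
      have hexp : 4 * ((j : ℝ) + 4) ≤ θ * (δ * (U / j) - 4 * θ * Kh * (C * (U * V (Z j)))) := by
        rw [hθK]
        have e1 : δ / (4 * C) * (C * (U * V (Z j))) = δ / 4 * (U * V (Z j)) := by
          field_simp
        rw [e1]
        have h8 : U * V (Z j) ≤ 2 * (U / j) := by
          rw [← mul_div_assoc, le_div_iff₀ (by linarith)]
          nlinarith
        have h9 : δ / 2 * (U / j) ≤ δ * (U / j) - δ / 4 * (U * V (Z j)) := by
          have : δ / 4 * (U * V (Z j)) ≤ δ / 4 * (2 * (U / j)) := by gcongr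
          linarith
        refine le_trans ?_ (mul_le_mul_of_nonneg_left h9 hθ0)
        -- θ * (δ/2 * (U/j)) = δ^2 U / (32 C Kh j)
        have e2 : θ * (δ / 2 * (U / j)) = δ ^ 2 * (U / j) / (32 * C * Kh) := by
          rw [hθ]; field_simp; ring
        rw [e2, le_div_iff₀ (by positivity)]
        have h10 : 32 * C * Kh * 1 ≤ 32 * C * (1 + a) := by rw [hKh]; linarith
        -- 4 (j+4) ≤ 5 j
        have h11 : 4 * ((j : ℝ) + 4) ≤ 5 * j := by linarith
        have h12 : 5 * (j : ℝ) * (32 * C) ≤ δ ^ 2 * (U / j) / 2 := by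
          have h13 : 2000 * C ≤ Λ * δ ^ 2 := by
            rwa [div_le_iff₀ (by positivity)] at hΛ
          have h14 : (Λ : ℝ) * j ≤ U / j := by
            rw [le_div_iff₀ (by linarith)]
            nlinarith
          have h15 : δ ^ 2 * (Λ * j) ≤ δ ^ 2 * (U / j) := by gcongr
          nlinarith
        have h16 : 5 * (j : ℝ) * (32 * C) * a ≤ δ ^ 2 * (U / j) / 2 := by
          have h17 : 50000 * C * C' * (j * Real.log (wj j)) ≤ δ ^ 2 * wj j := by
            have : 50000 * C * C' / δ ^ 2 * j * Real.log (wj j) =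
              50000 * C * C' * (j * Real.log (wj j)) / δ ^ 2 := by ring
            rw [this, div_le_iff₀ (by positivity)] at h3
            linarith
          have h18 : a ≤ C' * (2 * (U / j) * (Real.log (wj j) / wj j)) := by
            rw [ha]; gcongr
          calc 5 * (j : ℝ) * (32 * C) * a ≤
              5 * (j : ℝ) * (32 * C) * (C' * (2 * (U / j) * (Real.log (wj j) / wj j))) := by
                gcongr
            _ = 320 * (C * C' * (j * Real.log (wj j)) / wj j) * (U / j) := by ring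
            _ ≤ (δ ^ 2 / 2) * (U / j) := by
                have : 320 * (C * C' * (j * Real.log (wj j)) / wj j) ≤ δ ^ 2 / 2 := by
                  rw [← mul_div_assoc, div_le_iff₀ (by linarith)]
                  have h19 : 0 ≤ C * C' * (j * Real.log (wj j)) := by positivity
                  nlinarith
                gcongr
            _ = δ ^ 2 * (U / j) / 2 := by ring
        have hKh0 : 0 ≤ 32 * C * Kh := by positivity
        calc 4 * ((j : ℝ) + 4) * (32 * C * Kh) ≤ 5 * j * (32 * C * Kh) := by gcongr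
          _ = 5 * j * (32 * C) + 5 * j * (32 * C) * a := by rw [hKh]; ring
          _ ≤ δ ^ 2 * (U / j) := by linarith
      gcongr
    calc μ (⋃ m ∈ range (2 ^ (j + 3)), ⋃ U ∈ F j, E j m U)
        ≤ ∑ m ∈ range (2 ^ (j + 3)), μ (⋃ U ∈ F j, E j m U) :=
          measure_biUnion_finset_le _ _
      _ ≤ ∑ m ∈ range (2 ^ (j + 3)), ∑ U ∈ F j, μ (E j m U) := by
          gcongr with m hm
          exact measure_biUnion_finset_le _ _
      _ ≤ ∑ m ∈ range (2 ^ (j + 3)), ∑ U ∈ F j,
            ENNReal.ofReal (2 * Real.exp (-(4 * ((j : ℝ) + 4)))) := by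
          gcongr with m hm U hU
          exact hone m hm U hU
      _ ≤ ∑ m ∈ range (2 ^ (j + 3)), ∑ U ∈ range (2 ^ (j + 3)),
            ENNReal.ofReal (2 * Real.exp (-(4 * ((j : ℝ) + 4)))) := by
          gcongr
          exact filter_subset _ _
      _ = ENNReal.ofReal ((2 : ℝ) ^ (j + 3) * ((2 : ℝ) ^ (j + 3) *
            (2 * Real.exp (-(4 * ((j : ℝ) + 4)))))) := by
          rw [sum_const, sum_const, card_range, nsmul_eq_mul, nsmul_eq_mul]
          have hp0 : (0 : ℝ) ≤ (2 : ℝ) ^ (j + 3) := by positivity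
          have : ENNReal.ofReal ((2 : ℝ) ^ (j + 3)) = ((2 ^ (j + 3) : ℕ) : ℝ≥0∞) := by
            rw [← ENNReal.ofReal_natCast]; push_cast; rfl
          rw [ENNReal.ofReal_mul hp0, ENNReal.ofReal_mul hp0, this]
      _ ≤ ENNReal.ofReal ((1 / 2 : ℝ) ^ j) := by
          refine ENNReal.ofReal_le_ofReal ?_
          have h3 : Real.exp (-(4 * ((j : ℝ) + 4))) ≤ (1 / 16 : ℝ) ^ (j + 4) := by
            have h4 : Real.exp (-4) ≤ 1 / 16 := by
              rw [Real.exp_neg, ← one_div]
              refine one_div_le_one_div_of_le (by norm_num) ?_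
              have h5 := Real.exp_one_gt_d9
              have h6 : Real.exp 4 = Real.exp 1 ^ 4 := by rw [← Real.exp_nat_mul]; norm_num
              rw [h6]
              have h7 : (2 : ℝ) ≤ Real.exp 1 := by linarith
              calc (16 : ℝ) = 2 ^ 4 := by norm_num
                _ ≤ Real.exp 1 ^ 4 := by gcongr
            calc Real.exp (-(4 * ((j : ℝ) + 4))) = Real.exp (-4) ^ (j + 4) := by
                  rw [← Real.exp_nat_mul]; congr 1; push_cast; ring
              _ ≤ (1 / 16 : ℝ) ^ (j + 4) := by gcongr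
          calc (2 : ℝ) ^ (j + 3) * ((2 : ℝ) ^ (j + 3) * (2 * Real.exp (-(4 * ((j : ℝ) + 4)))))
              ≤ 2 ^ (j + 3) * (2 ^ (j + 3) * (2 * (1 / 16 : ℝ) ^ (j + 4))) := by gcongr
            _ = (1 / 512) * (1 / 4) ^ j := by
                have : (1 / 16 : ℝ) ^ (j + 4) = (1 / 2) ^ (j + 3) * ((1 / 2) ^ (j + 3) *
                    ((1 / 1024) * (1 / 4) ^ j)) := by
                  have e1 : (1 / 16 : ℝ) ^ (j + 4) = (1 / 2) ^ j * (1 / 2) ^ j * (1 / 4) ^ j *
                      (1 / 16) ^ 4 := by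
                    rw [pow_add, ← mul_pow, ← mul_pow]; norm_num
                  rw [e1]; ring
                rw [this]
                have h5 : (2 : ℝ) ^ (j + 3) * (1 / 2) ^ (j + 3) = 1 := by
                  rw [← mul_pow]; norm_num
                calc (2 : ℝ) ^ (j + 3) * (2 ^ (j + 3) * (2 * ((1 / 2) ^ (j + 3) *
                    ((1 / 2) ^ (j + 3) * ((1 / 1024) * (1 / 4) ^ j)))))
                    = (2 ^ (j + 3) * (1 / 2) ^ (j + 3)) * (2 ^ (j + 3) * (1 / 2) ^ (j + 3)) *
                      (2 * ((1 / 1024) * (1 / 4) ^ j)) := by ring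
                  _ = (1 / 512) * (1 / 4) ^ j := by rw [h5]; ring
            _ ≤ (1 / 2 : ℝ) ^ j := by
                have h6 : (1 / 4 : ℝ) ^ j ≤ (1 / 2) ^ j := by gcongr; norm_num
                have h7 : (0 : ℝ) ≤ (1 / 4 : ℝ) ^ j := by positivity
                linarith
  have hbc := borel_cantelli_nat μ _ hmeas
  filter_upwards [hbc] with ω hω
  filter_upwards [hω] with j hj m hm U hU hΛU
  by_contra hcon
  refine hj ?_
  refine Set.mem_biUnion (x := m) (mem_coe.2 (mem_range.2 hm)) ?_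
  refine Set.mem_biUnion (x := U) (mem_coe.2 (mem_filter.2 ⟨mem_range.2 hU, hΛU⟩)) ?_
  exact (not_le.1 hcon).le

end Pool.Agent.H532.RM
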