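import Mathlib
import Pool.Agent.H532.RM.Tail

/-!
Large primes: every class contains at most one element of a window. Probability generating
functions of the number of survivors are almost binomial.
-/

namespace Pool.Agent.H532.RM

open Finset MeasureTheory Function
open scoped ENNReal

/-- algebra: the generating function after one random class -/
lemma bin_identity (p : ℕ) (g : ℝ) (hg : -1 < g) (N : ℕ) (X : ℕ → ℕ)
    (h2 : ∀ r ∈ range p, X r ≤ 2) (hXN : ∀ r ∈ range p, X r ≤ N)
    (hs : ∑ r ∈ range p, X r = N) :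
    ∑ r ∈ range p, (1 + g) ^ (N - X r) = (1 + g) ^ N * (p - g / (1 + g) * N +
      (((range p).filter (fun r => X r = 2)).card : ℝ) * (g / (1 + g)) ^ 2) := by
  have hg1 : 0 < 1 + g := by linarith
  have hterm : ∀ r ∈ range p, (1 + g) ^ (N - X r) = (1 + g) ^ N *
      (1 - g / (1 + g) * X r + (if X r = 2 then (g / (1 + g)) ^ 2 else 0)) := by
    intro r hr
    have h1 := h2 r hr
    have h3 := hXN r hr
    have e1 : (1 + g) ^ N = (1 + g) ^ (N - X r) * (1 + g) ^ (X r) := by
      rw [← pow_add]; congr 1; omega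
    rw [e1]
    have hX : X r = 0 ∨ X r = 1 ∨ X r = 2 := by omega
    rcases hX with h | h | h
    · rw [h]; simp
    · rw [h]; simp; field_simp; ring
    · rw [h]
      simp only [if_true]
      push_cast
      field_simp
      ring
  rw [sum_congr rfl hterm, ← mul_sum, sum_add_distrib, sum_sub_distrib, ← mul_sum]
  have hs' : ∑ r ∈ range p, (X r : ℝ) = N := by exact_mod_cast hs
  rw [hs', ← sum_filter, sum_const, sum_const, card_range, nsmul_eq_mul, nsmul_eq_mul, mul_one]

/-- upper bound of the generating function -/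
lemma bin_step_upper (p : ℕ) (hp : 0 < p) (g C : ℝ) (hg : -1 < g) (hC : |g / (1 + g)| ≤ C)
    (N : ℕ) (hN : 2 * C * N ≤ p) (ν : ℕ) (X : ℕ → ℕ) (h2 : ∀ r ∈ range p, X r ≤ 2)
    (hXN : ∀ r ∈ range p, X r ≤ N) (hs : ∑ r ∈ range p, X r = N)
    (hν : ((range p).filter (fun r => X r = 2)).card ≤ ν) :
    ∑ r ∈ range p, (1 + g) ^ (N - X r) ≤
      p * ((1 + g * (1 - 1 / p)) ^ N * (1 + 2 * C ^ 2 * ν / p)) := by
  have hg1 : 0 < 1 + g := by linarith
  have hp' : (0 : ℝ) < p := by exact_mod_cast hp
  rw [bin_identity p g hg N X h2 hXN hs]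
  set s : ℝ := g / (1 + g) with hsdef
  have e1 : 1 + g * (1 - 1 / (p : ℝ)) = (1 + g) * (1 - s / p) := by
    rw [hsdef]; field_simp; ring
  rw [e1, mul_pow]
  have hC0 : 0 ≤ C := (abs_nonneg _).trans hC
  have hsC := abs_le.1 hC
  have hNs : |s * N / p| ≤ 1 / 2 := by
    rw [abs_div, abs_mul, abs_of_pos hp', Nat.abs_cast, div_le_iff₀ hp']
    have : |s| * (N : ℝ) ≤ C * N := by gcongr
    linarith
  have hNs' := abs_le.1 hNs
  have hp1 : (1 : ℝ) ≤ p := by exact_mod_cast hp
  rcases Nat.eq_zero_or_pos N with h0 | h0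
  · subst h0
    have hf : (range p).filter (fun r => X r = 2) = ∅ := by
      rw [filter_eq_empty_iff]
      intro r hr h
      have := hXN r hr
      omega
    rw [hf]
    simp
    have : 0 ≤ (p : ℝ) * (2 * C ^ 2 * ν / p) := by positivity
    nlinarith
  · have hN1 : (1 : ℝ) ≤ N := by exact_mod_cast h0
    have hsp : -(1 / 2) ≤ s / p ∧ s / p ≤ 1 / 2 := by
      have h3 : |s / p| ≤ 1 / 2 := by
        rw [abs_div, abs_of_pos hp', div_le_iff₀ hp']
        have h4 : |s| * 1 ≤ C * N := by
          have := mul_le_mul hC hN1 (by norm_num) hC0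
          linarith
        linarith
      exact abs_le.1 h3
    have hbern : 1 + (N : ℝ) * (-(s / p)) ≤ (1 + -(s / p)) ^ N :=
      one_add_mul_le_pow (by linarith) N
    have e2 : (1 + -(s / p)) ^ N = (1 - s / p) ^ N := by ring
    have e3 : 1 + (N : ℝ) * (-(s / p)) = 1 - s * N / p := by ring
    rw [e2, e3] at hbern
    have hhalf : 1 / 2 ≤ (1 - s / p) ^ N := by linarith
    set n2 : ℝ := (((range p).filter (fun r => X r = 2)).card : ℝ) with hn2
    have hn2ν : n2 ≤ ν := by rw [hn2]; exact_mod_cast hν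
    have hn20 : 0 ≤ n2 := by rw [hn2]; positivity
    have hs2 : s ^ 2 ≤ C ^ 2 := by
      rw [← sq_abs]; gcongr
    have hpow : 0 < (1 + g) ^ N := by positivity
    have main : (p : ℝ) - s * N + n2 * s ^ 2 ≤
        p * ((1 - s / p) ^ N * (1 + 2 * C ^ 2 * ν / p)) := by
      have h5 : (p : ℝ) - s * N ≤ p * (1 - s / p) ^ N := by
        have : (p : ℝ) - s * N = p * (1 - s * N / p) := by field_simp
        rw [this]; gcongr
      have h6 : n2 * s ^ 2 ≤ p * ((1 - s / p) ^ N * (2 * C ^ 2 * ν / p)) := by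
        have e4 : p * ((1 - s / p) ^ N * (2 * C ^ 2 * ν / p)) =
            (1 - s / p) ^ N * (2 * (ν * C ^ 2)) := by field_simp
        rw [e4]
        have h7 : n2 * s ^ 2 ≤ ν * C ^ 2 := by gcongr
        have h8 : 0 ≤ (ν : ℝ) * C ^ 2 := by positivity
        nlinarith
      calc (p : ℝ) - s * N + n2 * s ^ 2 ≤
          p * (1 - s / p) ^ N + p * ((1 - s / p) ^ N * (2 * C ^ 2 * ν / p)) := by linarith
        _ = _ := by ring
    calc (1 + g) ^ N * (p - s * N + n2 * s ^ 2) ≤
        (1 + g) ^ N * (p * ((1 - s / p) ^ N * (1 + 2 * C ^ 2 * ν / p))) := by gcongr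
      _ = p * ((1 + g) ^ N * (1 - s / p) ^ N * (1 + 2 * C ^ 2 * ν / p)) := by ring

/-- lower bound of the generating function -/
lemma bin_step_lower (p : ℕ) (hp : 0 < p) (g C : ℝ) (hg : -1 < g) (hC : |g / (1 + g)| ≤ C)
    (N : ℕ) (hN : 2 * C * N ≤ p) (X : ℕ → ℕ) (h2 : ∀ r ∈ range p, X r ≤ 1)
    (hXN : ∀ r ∈ range p, X r ≤ N) (hs : ∑ r ∈ range p, X r = N) :
    p * ((1 + g * (1 - 1 / p)) ^ N * (1 - 2 * (C * N / p) ^ 2)) ≤
    ∑ r ∈ range p, (1 + g) ^ (N - X r) := by
  have hg1 : 0 < 1 + g := by linarith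
  have hp' : (0 : ℝ) < p := by exact_mod_cast hp
  rw [bin_identity p g hg N X (fun r hr => (h2 r hr).trans (by norm_num)) hXN hs]
  have hf : (range p).filter (fun r => X r = 2) = ∅ := by
    rw [filter_eq_empty_iff]
    intro r hr h
    have := h2 r hr
    omega
  rw [hf]
  simp only [card_empty, Nat.cast_zero, zero_mul, add_zero]
  set s : ℝ := g / (1 + g) with hsdef
  have e1 : 1 + g * (1 - 1 / (p : ℝ)) = (1 + g) * (1 - s / p) := by
    rw [hsdef]; field_simp; ring
  rw [e1, mul_pow]
  have hC0 : 0 ≤ C := (abs_nonneg _).trans hC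
  have hNs : |s * N / p| ≤ 1 / 2 := by
    rw [abs_div, abs_mul, abs_of_pos hp', Nat.abs_cast, div_le_iff₀ hp']
    have : |s| * (N : ℝ) ≤ C * N := by gcongr
    linarith
  have hNs' := abs_le.1 hNs
  have hsq : (s * N / p) ^ 2 ≤ (C * N / p) ^ 2 := by
    rw [← sq_abs]
    have h3 : |s * N / p| ≤ C * N / p := by
      rw [abs_div, abs_mul, abs_of_pos hp', Nat.abs_cast]
      gcongr
    gcongr
  -- (1 - s/p)^N ≤ 1 - sN/p + (sN/p)^2 and ≥ 1/2
  rcases Nat.eq_zero_or_pos N with h0 | h0
  · subst h0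
    simp
  · have hN1 : (1 : ℝ) ≤ N := by exact_mod_cast h0
    have hp1 : (1 : ℝ) ≤ p := by exact_mod_cast hp
    have hsp : -(1 / 2) ≤ s / p ∧ s / p ≤ 1 / 2 := by
      have h3 : |s / p| ≤ 1 / 2 := by
        rw [abs_div, abs_of_pos hp', div_le_iff₀ hp']
        have h4 : |s| * 1 ≤ C * N := by
          have := mul_le_mul hC hN1 (by norm_num) hC0
          linarith
        linarith
      exact abs_le.1 h3
    have hbern : 1 + (N : ℝ) * (-(s / p)) ≤ (1 + -(s / p)) ^ N :=
      one_add_mul_le_pow (by linarith) N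
    have e2 : (1 + -(s / p)) ^ N = (1 - s / p) ^ N := by ring
    have e3 : 1 + (N : ℝ) * (-(s / p)) = 1 - s * N / p := by ring
    rw [e2, e3] at hbern
    have hhalf : 1 / 2 ≤ (1 - s / p) ^ N := by linarith
    have hup : (1 - s / p) ^ N ≤ 1 - s * N / p + (s * N / p) ^ 2 := by
      have h3 : (1 - s / p) ^ N ≤ Real.exp (-(s * N / p)) := by
        calc (1 - s / p) ^ N ≤ Real.exp (-(s / p)) ^ N := by
              gcongr
              · linarith
              · exact Real.one_sub_le_exp_neg _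
          _ = Real.exp (-(s * N / p)) := by
            rw [← Real.exp_nat_mul]; congr 1; ring
      have h4 := Real.abs_exp_sub_one_sub_id_le (x := -(s * N / p))
        (by rw [abs_neg]; linarith)
      have h5 := (abs_le.1 h4).2
      nlinarith
    set A := (1 - s / p) ^ N with hA
    set t := (C * N / p) ^ 2 with ht
    have ht0 : 0 ≤ t := by positivity
    have main : p * (A * (1 - 2 * t)) ≤ (p : ℝ) - s * N := by
      have e4 : (p : ℝ) - s * N = p * (1 - s * N / p) := by field_simp
      rw [e4]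
      refine mul_le_mul_of_nonneg_left ?_ hp'.le
      nlinarith
    have hpow : 0 < (1 + g) ^ N := by positivity
    calc p * ((1 + g) ^ N * A * (1 - 2 * t)) = (1 + g) ^ N * (p * (A * (1 - 2 * t))) := by ring
      _ ≤ (1 + g) ^ N * (p - s * N) := by gcongr

variable {ι : Type}

/-- Data for the binomial regime: exactly one class modulo `p` removes a given element, every class
contains at most two elements of `S`, and at most `ν p` classes contain two. -/
structure BinOK (Om : ι → ℕ → Finset ℕ) (C : ℝ) (ν : ℕ → ℕ) (M : ℕ) (P : Finset ℕ)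
    (S : Finset ι) : Prop where
  pos : ∀ p ∈ P, 0 < p
  big : ∀ p ∈ P, 2 * C * M ≤ p
  card : S.card ≤ M
  om : ∀ n ∈ S, ∀ p ∈ P, Om n p ⊆ range p ∧ (Om n p).card = 1
  two : ∀ p ∈ P, ∀ r ∈ range p, (S.filter (fun n => r ∈ Om n p)).card ≤ 2
  nu : ∀ p ∈ P, ((range p).filter (fun r => (S.filter (fun n => r ∈ Om n p)).card = 2)).card ≤ ν p

lemma BinOK.mono {Om : ι → ℕ → Finset ℕ} {C : ℝ} {ν : ℕ → ℕ} {M : ℕ} {P Q : Finset ℕ}
    {S T : Finset ι} (h : BinOK Om C ν M P S) (hQ : Q ⊆ P) (hT : T ⊆ S) :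
    BinOK Om C ν M Q T where
  pos p hp := h.pos p (hQ hp)
  big p hp := h.big p (hQ hp)
  card := (card_le_card hT).trans h.card
  om n hn p hp := h.om n (hT hn) p (hQ hp)
  two p hp r hr := (card_le_card (filter_subset_filter _ hT)).trans (h.two p (hQ hp) r hr)
  nu p hp := by
    refine le_trans (card_le_card ?_) (h.nu p (hQ hp))
    intro r hr
    obtain ⟨h1, h2⟩ := mem_filter.1 hr
    refine mem_filter.2 ⟨h1, le_antisymm (h.two p (hQ hp) r h1) ?_⟩
    rw [← h2]
    exact card_le_card (filter_subset_filter _ hT)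

lemma sum_hit_nat (Om : ι → ℕ → Finset ℕ) (p : ℕ) (S : Finset ι)
    (h : ∀ n ∈ S, Om n p ⊆ range p ∧ (Om n p).card = 1) :
    ∑ r ∈ range p, (S.filter (fun n => r ∈ Om n p)).card = S.card := by
  have := sum_hit Om p 1 S h
  rw [Nat.cast_one, one_mul] at this
  exact_mod_cast this

lemma card_split_nat (Om : ι → ℕ → Finset ℕ) (p r : ℕ) (S : Finset ι) :
    (S.filter (fun n => r ∉ Om n p)).card =
      S.card - (S.filter (fun n => r ∈ Om n p)).card := by
  have := Finset.card_filter_add_card_filter_not (s := S) (fun n => r ∈ Om n p)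
  omega

lemma rho_one_le (P : Finset ℕ) (h : ∀ p ∈ P, 0 < p) : rho 1 P ≤ 1 := by
  refine prod_le_one (fun p hp => ?_) (fun p hp => ?_)
  · have h3 : (1 : ℝ) ≤ p := by exact_mod_cast h p hp
    rw [sub_nonneg, div_le_one (by linarith)]
    push_cast; linarith
  · have : (0 : ℝ) ≤ ((1 : ℕ) : ℝ) / p := by positivity
    linarith

lemma rho_one_nonneg (P : Finset ℕ) (h : ∀ p ∈ P, 0 < p) : 0 ≤ rho 1 P := by
  refine prod_nonneg fun p hp => ?_
  have h3 : (1 : ℝ) ≤ p := by exact_mod_cast h p hp
  rw [sub_nonneg, div_le_one (by linarith)]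
  push_cast; linarith

/-- the constant `C` is admissible for all damped parameters -/
lemma damp {g C t : ℝ} (hg : -1 < g) (hC : |g| ≤ C * min 1 (1 + g)) (ht0 : 0 ≤ t) (ht1 : t ≤ 1) :
    -1 < g * t ∧ |g * t / (1 + g * t)| ≤ C := by
  have h1 : min 1 (1 + g) ≤ 1 + g * t := by
    rcases le_or_gt 0 g with h | h
    · refine (min_le_left _ _).trans ?_
      nlinarith
    · refine (min_le_right _ _).trans ?_
      nlinarith
  have h2 : 0 < min 1 (1 + g) := lt_min one_pos (by linarith)
  have h3 : 0 < 1 + g * t := lt_of_lt_of_le h2 h1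
  refine ⟨by linarith, ?_⟩
  rw [abs_div, abs_of_pos h3, div_le_iff₀ h3, abs_mul, abs_of_nonneg ht0]
  have hC0 : 0 ≤ C := by
    by_contra hneg
    have : C * min 1 (1 + g) < 0 := mul_neg_of_neg_of_pos (not_le.1 hneg) h2
    linarith [abs_nonneg g]
  calc |g| * t ≤ |g| * 1 := by gcongr
    _ ≤ C * min 1 (1 + g) := by linarith
    _ ≤ C * (1 + g * t) := by gcongr

theorem bin_upper (ν' : ℕ → Measure ℕ) [∀ p, IsProbabilityMeasure (ν' p)]
    (Om : ι → ℕ → Finset ℕ) (g C : ℝ) (hg : -1 < g) (hC : |g| ≤ C * min 1 (1 + g))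
    (ν : ℕ → ℕ) (M : ℕ) (P : Finset ℕ) :
    (∀ p ∈ P, UnifOn (ν' p) p) → ∀ S : Finset ι, BinOK Om C ν M P S → ∀ x : ℕ → ℕ,
    lmarginal ν' P (fun a => ENNReal.ofReal ((1 + g) ^ (surv Om P a S).card)) x ≤
      ENNReal.ofReal ((1 + g * rho 1 P) ^ S.card * ∏ p ∈ P, (1 + 2 * C ^ 2 * ν p / p)) := by
  induction P using Finset.induction_on_min with
  | empty =>
    intro _ S _ x
    simp [surv, rho]
  | insert p P hp ih =>
    intro hν S hS x
    have hpn : p ∉ P := fun h => lt_irrefl _ (hp p h)
    have hSP : BinOK Om C ν M P S := hS.mono (subset_insert _ _) (Subset.refl _)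
    have hpm : p ∈ insert p P := mem_insert_self _ _
    have hp0 := hS.pos p hpm
    have hp0' : (0 : ℝ) < p := by exact_mod_cast hp0
    have hρ0 := rho_one_nonneg P hSP.pos
    have hρ1 := rho_one_le P hSP.pos
    obtain ⟨hd1, hd2⟩ := damp hg hC hρ0 hρ1
    have hC0 : 0 ≤ C := (abs_nonneg _).trans hd2
    have hφ : Measurable (fun t : ℝ => ENNReal.ofReal ((1 + g) ^ t)) := by
      have : 0 < 1 + g := by linarith
      exact ENNReal.measurable_ofReal.comp (measurable_const.pow measurable_id)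
    have key := lmarginal_insert_surv ν' Om (fun t : ℝ => ENNReal.ofReal ((1 + g) ^ t)) hφ P p
      hpn S x (hν p hpm)
    simp only [Real.rpow_natCast] at key
    rw [key]
    set g' := g * rho 1 P with hg'
    set Q0 : ℝ := ∏ q ∈ P, (1 + 2 * C ^ 2 * ν q / q) with hQ
    have hQ0 : 0 ≤ Q0 := prod_nonneg fun q hq => by positivity
    have hle : ∀ r ∈ range p, lmarginal ν' P (fun a =>
        ENNReal.ofReal ((1 + g) ^ (surv Om P a (S.filter (fun n => r ∉ Om n p))).card))
        (update x p r) ≤ ENNReal.ofReal ((1 + g') ^ (S.card -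
          (S.filter (fun n => r ∈ Om n p)).card) * Q0) := by
      intro r _
      have := ih (fun q hq => hν q (mem_insert_of_mem hq)) (S.filter (fun n => r ∉ Om n p))
        (hSP.mono (Subset.refl _) (filter_subset _ _)) (update x p r)
      rw [card_split_nat] at this
      exact this
    have hbig : 2 * C * (S.card : ℝ) ≤ p := by
      have h1 : (S.card : ℝ) ≤ M := by exact_mod_cast hS.card
      have h2 := hS.big p hpm
      have : 2 * C * (S.card : ℝ) ≤ 2 * C * M := by gcongr
      linarith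
    have hstep := bin_step_upper p hp0 g' C hd1 hd2 S.card hbig (ν p)
      (fun r => (S.filter (fun n => r ∈ Om n p)).card) (hS.two p hpm)
      (fun r _ => card_le_card (filter_subset _ _))
      (sum_hit_nat Om p S fun n hn => hS.om n hn p hpm) (hS.nu p hpm)
    calc (∑ r ∈ range p, lmarginal ν' P (fun a =>
        ENNReal.ofReal ((1 + g) ^ (surv Om P a (S.filter (fun n => r ∉ Om n p))).card))
        (update x p r)) / p
        ≤ (∑ r ∈ range p, ENNReal.ofReal ((1 + g') ^ (S.card -
          (S.filter (fun n => r ∈ Om n p)).card) * Q0)) / p := by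
          gcongr with r hr
          exact hle r hr
      _ = ENNReal.ofReal ((∑ r ∈ range p, (1 + g') ^ (S.card -
          (S.filter (fun n => r ∈ Om n p)).card)) * Q0 / p) := by
          have h0 : 0 < 1 + g' := by linarith
          rw [ENNReal.ofReal_div_of_pos hp0', Finset.sum_mul, ENNReal.ofReal_sum_of_nonneg
            (fun _ _ => by positivity), ENNReal.ofReal_natCast]
      _ ≤ ENNReal.ofReal ((1 + g * rho 1 (insert p P)) ^ S.card *
            ∏ q ∈ insert p P, (1 + 2 * C ^ 2 * ν q / q)) := by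
          refine ENNReal.ofReal_le_ofReal ?_
          rw [div_le_iff₀ hp0', prod_insert hpn, rho_insert 1 hpn]
          have e : g * ((1 - ((1 : ℕ) : ℝ) / p) * rho 1 P) = g' * (1 - 1 / p) := by
            rw [hg']; push_cast; ring
          rw [e]
          calc (∑ r ∈ range p, (1 + g') ^ (S.card -
              (S.filter (fun n => r ∈ Om n p)).card)) * Q0 ≤
              (p * ((1 + g' * (1 - 1 / p)) ^ S.card * (1 + 2 * C ^ 2 * ν p / p))) * Q0 := by
                gcongr
            _ = (1 + g' * (1 - 1 / p)) ^ S.card * ((1 + 2 * C ^ 2 * ν p / p) * Q0) * p := by ring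

theorem bin_lower (ν' : ℕ → Measure ℕ) [∀ p, IsProbabilityMeasure (ν' p)]
    (Om : ι → ℕ → Finset ℕ) (g C : ℝ) (hg : -1 < g) (hC : |g| ≤ C * min 1 (1 + g))
    (M : ℕ) (P : Finset ℕ) :
    (∀ p ∈ P, UnifOn (ν' p) p) → ∀ S : Finset ι, BinOK Om C (fun _ => 0) M P S →
    ∀ x : ℕ → ℕ,
    ENNReal.ofReal ((1 + g * rho 1 P) ^ S.card * ∏ p ∈ P, (1 - 2 * (C * M / p) ^ 2)) ≤
    lmarginal ν' P (fun a => ENNReal.ofReal ((1 + g) ^ (surv Om P a S).card)) x := by
  induction P using Finset.induction_on_min with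
  | empty =>
    intro _ S _ x
    simp [surv, rho]
  | insert p P hp ih =>
    intro hν S hS x
    have hpn : p ∉ P := fun h => lt_irrefl _ (hp p h)
    have hSP : BinOK Om C (fun _ => 0) M P S := hS.mono (subset_insert _ _) (Subset.refl _)
    have hpm : p ∈ insert p P := mem_insert_self _ _
    have hp0 := hS.pos p hpm
    have hp0' : (0 : ℝ) < p := by exact_mod_cast hp0
    have hρ0 := rho_one_nonneg P hSP.pos
    have hρ1 := rho_one_le P hSP.pos
    obtain ⟨hd1, hd2⟩ := damp hg hC hρ0 hρ1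
    have hC0 : 0 ≤ C := (abs_nonneg _).trans hd2
    have hφ : Measurable (fun t : ℝ => ENNReal.ofReal ((1 + g) ^ t)) := by
      exact ENNReal.measurable_ofReal.comp (measurable_const.pow measurable_id)
    have key := lmarginal_insert_surv ν' Om (fun t : ℝ => ENNReal.ofReal ((1 + g) ^ t)) hφ P p
      hpn S x (hν p hpm)
    simp only [Real.rpow_natCast] at key
    rw [key]
    set g' := g * rho 1 P with hg'
    set Q0 : ℝ := ∏ q ∈ P, (1 - 2 * (C * M / q) ^ 2) with hQ
    have hfac : ∀ q ∈ insert p P, 0 ≤ 1 - 2 * (C * M / (q : ℝ)) ^ 2 := by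
      intro q hq
      have hq0 : (0 : ℝ) < q := by exact_mod_cast hS.pos q hq
      have h1 : C * M / (q : ℝ) ≤ 1 / 2 := by
        rw [div_le_iff₀ hq0]
        have := hS.big q hq
        linarith
      have h2 : 0 ≤ C * M / (q : ℝ) := by positivity
      nlinarith
    have hQ0 : 0 ≤ Q0 := prod_nonneg fun q hq => hfac q (mem_insert_of_mem hq)
    have hle : ∀ r ∈ range p, ENNReal.ofReal ((1 + g') ^ (S.card -
          (S.filter (fun n => r ∈ Om n p)).card) * Q0) ≤ lmarginal ν' P (fun a =>
        ENNReal.ofReal ((1 + g) ^ (surv Om P a (S.filter (fun n => r ∉ Om n p))).card))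
        (update x p r) := by
      intro r _
      have := ih (fun q hq => hν q (mem_insert_of_mem hq)) (S.filter (fun n => r ∉ Om n p))
        (hSP.mono (Subset.refl _) (filter_subset _ _)) (update x p r)
      rw [card_split_nat] at this
      exact this
    have hbig : 2 * C * (S.card : ℝ) ≤ p := by
      have h1 : (S.card : ℝ) ≤ M := by exact_mod_cast hS.card
      have h2 := hS.big p hpm
      have : 2 * C * (S.card : ℝ) ≤ 2 * C * M := by gcongr
      linarith
    have hone : ∀ r ∈ range p, (S.filter (fun n => r ∈ Om n p)).card ≤ 1 := by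
      intro r hr
      have h1 := hS.two p hpm r hr
      have h2 := hS.nu p hpm
      by_contra hc
      have h3 : (S.filter (fun n => r ∈ Om n p)).card = 2 := by omega
      have h4 : r ∈ (range p).filter (fun r => (S.filter (fun n => r ∈ Om n p)).card = 2) :=
        mem_filter.2 ⟨hr, h3⟩
      have h5 := card_pos.2 ⟨r, h4⟩
      omega
    have hstep := bin_step_lower p hp0 g' C hd1 hd2 S.card hbig
      (fun r => (S.filter (fun n => r ∈ Om n p)).card) hone
      (fun r _ => card_le_card (filter_subset _ _))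
      (sum_hit_nat Om p S fun n hn => hS.om n hn p hpm)
    calc ENNReal.ofReal ((1 + g * rho 1 (insert p P)) ^ S.card *
            ∏ q ∈ insert p P, (1 - 2 * (C * M / q) ^ 2))
        ≤ ENNReal.ofReal ((∑ r ∈ range p, (1 + g') ^ (S.card -
          (S.filter (fun n => r ∈ Om n p)).card)) * Q0 / p) := by
          refine ENNReal.ofReal_le_ofReal ?_
          rw [le_div_iff₀ hp0', prod_insert hpn, rho_insert 1 hpn]
          have e : g * ((1 - ((1 : ℕ) : ℝ) / p) * rho 1 P) = g' * (1 - 1 / p) := by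
            rw [hg']; push_cast; ring
          rw [e]
          have h0 : 0 ≤ 1 + g' * (1 - 1 / (p : ℝ)) := by
            have h1 : 1 / (p : ℝ) ≤ 1 := by
              rw [div_le_one hp0']
              exact_mod_cast hp0
            have h2 : 0 ≤ 1 / (p : ℝ) := by positivity
            rcases le_or_gt 0 g' with h | h
            · have : 0 ≤ g' * (1 - 1 / (p : ℝ)) := mul_nonneg h (by linarith)
              linarith
            · nlinarith
          calc (1 + g' * (1 - 1 / p)) ^ S.card * ((1 - 2 * (C * M / p) ^ 2) * Q0) * p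
              ≤ (1 + g' * (1 - 1 / p)) ^ S.card * ((1 - 2 * (C * S.card / p) ^ 2) * Q0) * p := by
                have h1 : (S.card : ℝ) ≤ M := by exact_mod_cast hS.card
                gcongr
            _ = (p * ((1 + g' * (1 - 1 / p)) ^ S.card * (1 - 2 * (C * S.card / p) ^ 2))) * Q0 := by
                ring
            _ ≤ (∑ r ∈ range p, (1 + g') ^ (S.card -
              (S.filter (fun n => r ∈ Om n p)).card)) * Q0 := by gcongr
      _ = (∑ r ∈ range p, ENNReal.ofReal ((1 + g') ^ (S.card -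
          (S.filter (fun n => r ∈ Om n p)).card) * Q0)) / p := by
          have h0 : 0 < 1 + g' := by linarith
          rw [ENNReal.ofReal_div_of_pos hp0', Finset.sum_mul, ENNReal.ofReal_sum_of_nonneg
            (fun _ _ => by positivity), ENNReal.ofReal_natCast]
      _ ≤ (∑ r ∈ range p, lmarginal ν' P (fun a =>
        ENNReal.ofReal ((1 + g) ^ (surv Om P a (S.filter (fun n => r ∉ Om n p))).card))
        (update x p r)) / p := by
          gcongr with r hr
          exact hle r hr

end Pool.Agent.H532.RM
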