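import Mathlib
import Pool.Agent.H532.RM.Bin
import Pool.Agent.H532.RM.Block

/-!
The generating functions for one window and for two windows, large primes.
-/

namespace Pool.Agent.H532.RM

open Finset MeasureTheory Function
open scoped ENNReal

/-- `S` is contained in the window `(m, m + U]`. -/
def InWin (m U : ℕ) (S : Finset ℕ) : Prop := ∀ n ∈ S, m < n ∧ n ≤ m + U

lemma mem_Om0 {n p r : ℕ} : r ∈ OmD {0} n p ↔ r = n % p := by simp [OmD, eq_comm]

lemma class_le_one {S : Finset ℕ} {m U p : ℕ} (hS : InWin m U S) (hU : U ≤ p) (r : ℕ) :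
    (S.filter (fun n => r ∈ OmD {0} n p)).card ≤ 1 := by
  rw [card_le_one]
  intro n hn n' hn'
  obtain ⟨h1, h2⟩ := mem_filter.1 hn
  obtain ⟨h1', h2'⟩ := mem_filter.1 hn'
  rw [mem_Om0] at h2 h2'
  have hw := hS n h1
  have hw' := hS n' h1'
  have h3 : n % p = n' % p := by rw [← h2, ← h2']
  by_contra hne
  rcases Nat.lt_or_gt_of_ne hne with h | h
  · have h4 : p ∣ n' - n := (Nat.modEq_iff_dvd' h.le).1 h3
    have := Nat.le_of_dvd (by omega) h4
    omega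
  · have h4 : p ∣ n - n' := (Nat.modEq_iff_dvd' h.le).1 h3.symm
    have := Nat.le_of_dvd (by omega) h4
    omega

lemma om0_ok (n p : ℕ) (hp : 0 < p) :
    OmD {0} n p ⊆ range p ∧ (OmD {0} n p).card = 1 := by
  refine ⟨OmD_subset _ _ _ hp, ?_⟩
  have := OmD_card {0} n p (fun d hd => by rw [mem_singleton] at hd; rw [hd]; exact hp)
  simpa using this

lemma binOK_single {C : ℝ} {M U W m : ℕ} {P S : Finset ℕ}
    (hS : InWin m U S) (hP : ∀ p ∈ P, W < p) (hUW : U ≤ W) (hM : S.card ≤ M)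
    (hCM : 2 * C * M ≤ W) : BinOK (OmD {0}) C (fun _ => 0) M P S where
  pos p hp := by have := hP p hp; omega
  big p hp := by
    have h1 : (W : ℝ) ≤ p := by exact_mod_cast (hP p hp).le
    linarith
  card := hM
  om n _ p hp := om0_ok n p (by have := hP p hp; omega)
  two p hp r _ := (class_le_one hS (hUW.trans (hP p hp).le) r).trans (by norm_num)
  nu p hp := by
    rw [Nat.le_zero, card_eq_zero, filter_eq_empty_iff]
    intro r _ h
    have := class_le_one hS (hUW.trans (hP p hp).le) r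
    omega

lemma binOK_pair {C : ℝ} {M U W m m' : ℕ} {P S T : Finset ℕ}
    (hS : InWin m U S) (hT : InWin m' U T) (hP : ∀ p ∈ P, W < p) (hUW : U ≤ W)
    (hM : (S ∪ T).card ≤ M) (hCM : 2 * C * M ≤ W) :
    BinOK (OmD {0}) C (fun p => ((S ×ˢ T).filter (fun q => q.1 % p = q.2 % p)).card) M P
      (S ∪ T) where
  pos p hp := by have := hP p hp; omega
  big p hp := by
    have h1 : (W : ℝ) ≤ p := by exact_mod_cast (hP p hp).le
    linarith
  card := hM
  om n _ p hp := om0_ok n p (by have := hP p hp; omega)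
  two p hp r _ := by
    have h1 := class_le_one hS (hUW.trans (hP p hp).le) r
    have h2 := class_le_one hT (hUW.trans (hP p hp).le) r
    rw [filter_union]
    exact (card_union_le _ _).trans (by omega)
  nu p hp := by
    have h0 : (range p).filter (fun r => ((S ∪ T).filter (fun n => r ∈ OmD {0} n p)).card = 2) ⊆
        ((S ×ˢ T).filter (fun q => q.1 % p = q.2 % p)).image (fun q => q.1 % p) := by
      intro r hr
      obtain ⟨_, h3⟩ := mem_filter.1 hr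
      have h1 := class_le_one hS (hUW.trans (hP p hp).le) r
      have h2 := class_le_one hT (hUW.trans (hP p hp).le) r
      rw [filter_union] at h3
      have h4 := card_union_le (S.filter (fun n => r ∈ OmD {0} n p))
        (T.filter (fun n => r ∈ OmD {0} n p))
      rw [h3] at h4
      obtain ⟨n, hn⟩ := card_pos.1 (show 0 < (S.filter (fun n => r ∈ OmD {0} n p)).card by omega)
      obtain ⟨n', hn'⟩ := card_pos.1 (show 0 < (T.filter (fun n => r ∈ OmD {0} n p)).card by omega)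
      obtain ⟨a1, a2⟩ := mem_filter.1 hn
      obtain ⟨b1, b2⟩ := mem_filter.1 hn'
      rw [mem_Om0] at a2 b2
      refine mem_image.2 ⟨(n, n'), mem_filter.2 ⟨mem_product.2 ⟨a1, b1⟩, ?_⟩, a2.symm⟩
      show n % p = n' % p
      rw [← a2, ← b2]
    exact (card_le_card h0).trans card_image_le

lemma card_primes_dvd {P : Finset ℕ} (hP : ∀ p ∈ P, p.Prime) {d J : ℕ} (hd : 0 < d)
    (hd2 : d < 2 ^ J) : (P.filter (· ∣ d)).card ≤ J := by
  have h1 : ∏ p ∈ P.filter (· ∣ d), p ∣ d :=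
    Finset.prod_primes_dvd d (fun p hp => (hP p (mem_filter.1 hp).1).prime)
      (fun p hp => (mem_filter.1 hp).2)
  have h2 : 2 ^ (P.filter (· ∣ d)).card ≤ ∏ p ∈ P.filter (· ∣ d), p := by
    rw [← prod_const]
    exact prod_le_prod' fun p hp => (hP p (mem_filter.1 hp).1).two_le
  have h3 := Nat.le_of_dvd hd h1
  have h4 : 2 ^ (P.filter (· ∣ d)).card < 2 ^ J := lt_of_le_of_lt (h2.trans h3) hd2
  exact ((Nat.pow_lt_pow_iff_right (by norm_num)).1 h4).le

lemma sum_pairs_le {P S T : Finset ℕ} {J : ℕ} (hP : ∀ p ∈ P, p.Prime)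
    (hS : ∀ n ∈ S, n < 2 ^ J) (hT : ∀ n ∈ T, n < 2 ^ J) (hd : Disjoint S T) :
    ∑ p ∈ P, ((S ×ˢ T).filter (fun q => q.1 % p = q.2 % p)).card ≤ S.card * T.card * J := by
  have h1 : ∑ p ∈ P, ((S ×ˢ T).filter (fun q => q.1 % p = q.2 % p)).card =
      ∑ q ∈ S ×ˢ T, (P.filter (fun p => q.1 % p = q.2 % p)).card := by
    simp only [card_filter]
    exact sum_comm
  rw [h1]
  calc ∑ q ∈ S ×ˢ T, (P.filter (fun p => q.1 % p = q.2 % p)).card ≤ ∑ q ∈ S ×ˢ T, J := by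
        refine sum_le_sum fun q hq => ?_
        obtain ⟨hq1, hq2⟩ := mem_product.1 hq
        have hne : q.1 ≠ q.2 := fun h => by
          refine Finset.disjoint_left.1 hd hq1 ?_
          rw [h]; exact hq2
        have a1 := hS _ hq1
        have a2 := hT _ hq2
        rcases Nat.lt_or_gt_of_ne hne with h | h
        · refine le_trans (card_le_card ?_) (card_primes_dvd hP (d := q.2 - q.1) (J := J)
            (by omega) (by omega))
          intro p hp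
          obtain ⟨h2, h3⟩ := mem_filter.1 hp
          exact mem_filter.2 ⟨h2, (Nat.modEq_iff_dvd' h.le).1 h3⟩
        · refine le_trans (card_le_card ?_) (card_primes_dvd hP (d := q.1 - q.2) (J := J)
            (by omega) (by omega))
          intro p hp
          obtain ⟨h2, h3⟩ := mem_filter.1 hp
          exact mem_filter.2 ⟨h2, (Nat.modEq_iff_dvd' h.le).1 h3.symm⟩
    _ = S.card * T.card * J := by rw [sum_const, card_product, smul_eq_mul]

lemma prod_pair_le {P : Finset ℕ} {W : ℕ} (hW : 0 < W) (hP : ∀ p ∈ P, W < p) (C : ℝ)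
    (ν : ℕ → ℕ) (B : ℕ) (hB : ∑ p ∈ P, ν p ≤ B) :
    ∏ p ∈ P, (1 + 2 * C ^ 2 * ν p / p) ≤ Real.exp (2 * C ^ 2 * B / W) := by
  have hW' : (0 : ℝ) < W := by exact_mod_cast hW
  calc ∏ p ∈ P, (1 + 2 * C ^ 2 * (ν p : ℝ) / p) ≤
      ∏ p ∈ P, Real.exp (2 * C ^ 2 * ν p / W) := by
        refine prod_le_prod (fun p _ => by positivity) fun p hp => ?_
        have h1 : (W : ℝ) ≤ p := by exact_mod_cast (hP p hp).le
        have h2 : 2 * C ^ 2 * (ν p : ℝ) / p ≤ 2 * C ^ 2 * ν p / W := by gcongr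
        have h3 := Real.add_one_le_exp (2 * C ^ 2 * (ν p : ℝ) / W)
        linarith
    _ = Real.exp (2 * C ^ 2 * (∑ p ∈ P, ν p : ℕ) / W) := by
        rw [← Real.exp_sum]
        congr 1
        push_cast
        rw [mul_sum, sum_div]
    _ ≤ Real.exp (2 * C ^ 2 * B / W) := by
        gcongr

lemma one_sub_sum_le' (P : Finset ℕ) (f : ℕ → ℝ) (h : ∀ p ∈ P, 0 ≤ f p ∧ f p ≤ 1) :
    1 - ∑ p ∈ P, f p ≤ ∏ p ∈ P, (1 - f p) ∧ ∏ p ∈ P, (1 - f p) ≤ 1 ∧
      0 ≤ ∏ p ∈ P, (1 - f p) := by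
  classical
  induction P using Finset.induction_on with
  | empty => simp
  | insert p P hp ih =>
    rw [sum_insert hp, prod_insert hp]
    obtain ⟨h1, h2, h3⟩ := ih fun q hq => h q (mem_insert_of_mem hq)
    obtain ⟨h4, h5⟩ := h p (mem_insert_self _ _)
    refine ⟨?_, ?_, ?_⟩
    · nlinarith
    · nlinarith
    · exact mul_nonneg (by linarith) h3

lemma sum_inv_sq_le {P : Finset ℕ} {W : ℕ} (hW : 0 < W) (hP : ∀ p ∈ P, W < p) :
    ∑ p ∈ P, 1 / (p : ℝ) ^ 2 ≤ 1 / (W : ℝ) := by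
  obtain ⟨Z, hZ⟩ : ∃ Z, ∀ p ∈ P, p ≤ Z := ⟨P.sup id, fun p hp => le_sup (f := id) hp⟩
  have hsub : P ⊆ Ioc W (max W Z) := fun p hp =>
    mem_Ioc.2 ⟨hP p hp, (hZ p hp).trans (le_max_right _ _)⟩
  calc ∑ p ∈ P, 1 / (p : ℝ) ^ 2 ≤ ∑ p ∈ Ioc W (max W Z), 1 / (p : ℝ) ^ 2 :=
        sum_le_sum_of_subset_of_nonneg hsub fun _ _ _ => by positivity
    _ = ∑ p ∈ Ioc W (max W Z), ((p : ℝ) ^ 2)⁻¹ := by simp only [one_div]
    _ ≤ (W : ℝ)⁻¹ - ((max W Z : ℕ) : ℝ)⁻¹ :=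
        sum_Ioc_inv_sq_le_sub hW.ne' (le_max_left _ _)
    _ ≤ 1 / (W : ℝ) := by
        rw [one_div]
        have : (0 : ℝ) ≤ ((max W Z : ℕ) : ℝ)⁻¹ := by positivity
        linarith

lemma prod_single_ge {P : Finset ℕ} {W : ℕ} (hW : 0 < W) (hP : ∀ p ∈ P, W < p) (C : ℝ)
    (hC : 0 ≤ C) (M : ℕ) (hCM : 2 * C * M ≤ W) :
    1 - 2 * C ^ 2 * (M : ℝ) ^ 2 / W ≤ ∏ p ∈ P, (1 - 2 * (C * M / p) ^ 2) := by
  have hW' : (0 : ℝ) < W := by exact_mod_cast hW
  have h0 : ∀ p ∈ P, 0 ≤ 2 * (C * M / (p : ℝ)) ^ 2 ∧ 2 * (C * M / (p : ℝ)) ^ 2 ≤ 1 := by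
    intro p hp
    have h1 : (W : ℝ) ≤ p := by exact_mod_cast (hP p hp).le
    have h2 : C * M / (p : ℝ) ≤ 1 / 2 := by
      rw [div_le_iff₀ (by linarith)]; linarith
    have h3 : 0 ≤ C * M / (p : ℝ) := by
      have : (0 : ℝ) < p := by linarith
      positivity
    exact ⟨by positivity, by nlinarith⟩
  have h1 : 1 - ∑ p ∈ P, 2 * (C * M / (p : ℝ)) ^ 2 ≤ ∏ p ∈ P, (1 - 2 * (C * M / p) ^ 2) :=
    (one_sub_sum_le' P _ h0).1
  refine le_trans ?_ h1
  have h2 : ∑ p ∈ P, 2 * (C * M / (p : ℝ)) ^ 2 = 2 * C ^ 2 * (M : ℝ) ^ 2 *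
      ∑ p ∈ P, 1 / (p : ℝ) ^ 2 := by
    rw [mul_sum]
    refine sum_congr rfl fun p _ => ?_
    rw [div_pow, mul_pow]; ring
  rw [h2]
  have h3 : 2 * C ^ 2 * (M : ℝ) ^ 2 * ∑ p ∈ P, 1 / (p : ℝ) ^ 2 ≤
      2 * C ^ 2 * (M : ℝ) ^ 2 * (1 / W) := by
    gcongr
    exact sum_inv_sq_le hW hP
  have e : 2 * C ^ 2 * (M : ℝ) ^ 2 * (1 / W) = 2 * C ^ 2 * (M : ℝ) ^ 2 / W := by ring
  linarith

/-- One window: upper bound. -/
theorem gf1_upper (ν' : ℕ → Measure ℕ) [∀ p, IsProbabilityMeasure (ν' p)]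
    (g C : ℝ) (hg : -1 < g) (hC : |g| ≤ C * min 1 (1 + g)) {U W m : ℕ} {P S : Finset ℕ}
    (hν : ∀ p ∈ P, UnifOn (ν' p) p)
    (hS : InWin m U S) (hP : ∀ p ∈ P, W < p) (hUW : U ≤ W)
    (hCM : 2 * C * S.card ≤ W) (x : ℕ → ℕ) :
    lmarginal ν' P (fun a => ENNReal.ofReal ((1 + g) ^ (surv (OmD {0}) P a S).card)) x ≤
      ENNReal.ofReal ((1 + g * rho 1 P) ^ S.card) := by
  have h := bin_upper ν' (OmD {0}) g C hg hC (fun _ => 0) S.card P hν S
    (binOK_single hS hP hUW le_rfl hCM) x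
  simpa using h

/-- One window: lower bound. -/
theorem gf1_lower (ν' : ℕ → Measure ℕ) [∀ p, IsProbabilityMeasure (ν' p)]
    (g C : ℝ) (hg : -1 < g) (hC : |g| ≤ C * min 1 (1 + g)) (hC0 : 0 ≤ C) {U W m : ℕ}
    {P S : Finset ℕ} (hW : 0 < W)
    (hν : ∀ p ∈ P, UnifOn (ν' p) p)
    (hS : InWin m U S) (hP : ∀ p ∈ P, W < p) (hUW : U ≤ W)
    (hCM : 2 * C * S.card ≤ W) (x : ℕ → ℕ) :
    ENNReal.ofReal ((1 + g * rho 1 P) ^ S.card * (1 - 2 * C ^ 2 * (S.card : ℝ) ^ 2 / W)) ≤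
    lmarginal ν' P (fun a => ENNReal.ofReal ((1 + g) ^ (surv (OmD {0}) P a S).card)) x := by
  have hpos : ∀ p ∈ P, 0 < p := fun p hp => by have := hP p hp; omega
  have h := bin_lower ν' (OmD {0}) g C hg hC S.card P hν S
    (binOK_single hS hP hUW le_rfl hCM) x
  refine le_trans (ENNReal.ofReal_le_ofReal ?_) h
  have h1 := prod_single_ge hW hP C hC0 S.card hCM
  have h2 : 0 ≤ 1 + g * rho 1 P := by
    have := (damp hg hC (rho_one_nonneg P hpos) (rho_one_le P hpos)).1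
    linarith
  gcongr

/-- Two windows: upper bound. -/
theorem gf2_upper (ν' : ℕ → Measure ℕ) [∀ p, IsProbabilityMeasure (ν' p)]
    (g C : ℝ) (hg : -1 < g) (hC : |g| ≤ C * min 1 (1 + g)) {U W m m' N J : ℕ}
    {P S T : Finset ℕ} (hW : 0 < W)
    (hν : ∀ p ∈ P, UnifOn (ν' p) p) (hPp : ∀ p ∈ P, p.Prime)
    (hS : InWin m U S) (hT : InWin m' U T) (hST : Disjoint S T)
    (hSN : S.card = N) (hTN : T.card = N)
    (hSJ : ∀ n ∈ S, n < 2 ^ J) (hTJ : ∀ n ∈ T, n < 2 ^ J)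
    (hP : ∀ p ∈ P, W < p) (hUW : U ≤ W)
    (hCM : 4 * C * N ≤ W) (x : ℕ → ℕ) :
    lmarginal ν' P (fun a => ENNReal.ofReal ((1 + g) ^ (surv (OmD {0}) P a S).card *
      (1 + g) ^ (surv (OmD {0}) P a T).card)) x ≤
      ENNReal.ofReal ((1 + g * rho 1 P) ^ N * (1 + g * rho 1 P) ^ N *
        Real.exp (2 * C ^ 2 * (N : ℝ) ^ 2 * J / W)) := by
  have hcard : (S ∪ T).card = 2 * N := by
    rw [card_union_of_disjoint hST, hSN, hTN]; ring
  have hpos : ∀ p ∈ P, 0 < p := fun p hp => by have := hP p hp; omega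
  have h := bin_upper ν' (OmD {0}) g C hg hC _ (2 * N) P hν (S ∪ T)
    (binOK_pair hS hT hP hUW hcard.le (by push_cast; linarith)) x
  have e1 : ∀ a : ℕ → ℕ, (surv (OmD {0}) P a (S ∪ T)).card =
      (surv (OmD {0}) P a S).card + (surv (OmD {0}) P a T).card := by
    intro a
    unfold surv
    rw [filter_union, card_union_of_disjoint]
    exact hST.mono (filter_subset _ _) (filter_subset _ _)
  simp only [e1, pow_add] at h
  refine h.trans (ENNReal.ofReal_le_ofReal ?_)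
  have h2 : 0 ≤ 1 + g * rho 1 P := by
    have := (damp hg hC (rho_one_nonneg P hpos) (rho_one_le P hpos)).1
    linarith
  rw [hcard, two_mul, pow_add]
  have h3 := prod_pair_le hW hP C (fun p => ((S ×ˢ T).filter (fun q => q.1 % p = q.2 % p)).card)
    (S.card * T.card * J) (sum_pairs_le hPp hSJ hTJ hST)
  rw [hSN, hTN] at h3
  refine mul_le_mul_of_nonneg_left (h3.trans (le_of_eq ?_)) (by positivity)
  congr 1
  push_cast
  ring

end Pool.Agent.H532.RM
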