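import Mathlib
import Pool.Agent.H532.RM.SM
import Pool.Agent.H532.RM.Conc

/-!
Large deviations of the number of the elements of a window: upper bound for all windows.
-/

namespace Pool.Agent.H532.RM

open Finset MeasureTheory Function ProbabilityTheory Filter
open scoped ENNReal Topology

/-- The rate function of Poisson variables. -/
noncomputable def rate (x y : ℝ) : ℝ := x * Real.log (x / y) - x + y

lemma borel_cantelli_sq {Ω : Type} [MeasurableSpace Ω] (μ : Measure Ω) [IsProbabilityMeasure μ]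
    (E : ℕ → Set Ω) (hE : ∀ᶠ j : ℕ in atTop, μ (E j) ≤ ENNReal.ofReal (1 / (j : ℝ) ^ 2)) :
    ∀ᵐ ω ∂μ, ∀ᶠ j : ℕ in atTop, ω ∉ E j := by
  classical
  obtain ⟨J, hJ⟩ := eventually_atTop.1 hE
  have h1 : ∑' j, μ (if J ≤ j then E j else ∅) ≠ ∞ := by
    have h2 : ∀ j, μ (if J ≤ j then E j else ∅) ≤ ENNReal.ofReal (1 / (j : ℝ) ^ 2) := by
      intro j
      split_ifs with h
      · exact hJ j h
      · simp
    have h3 : Summable (fun j : ℕ => 1 / (j : ℝ) ^ 2) := Real.summable_one_div_nat_pow.2 (by norm_num)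
    refine ne_top_of_le_ne_top ?_ (ENNReal.tsum_le_tsum h2)
    exact h3.tsum_ofReal_ne_top
  have h4 := ae_eventually_notMem h1
  filter_upwards [h4] with ω hω
  filter_upwards [hω, eventually_ge_atTop J] with j hj hJj
  rwa [if_pos hJj] at hj

/-- the large primes -/
def bigP (W Z : ℕ) : Finset ℕ := (primesLe Z).filter (fun p => W < p)

lemma mem_bigP {W Z p : ℕ} : p ∈ bigP W Z ↔ (p ≤ Z ∧ p.Prime) ∧ W < p := by
  unfold bigP
  rw [mem_filter, mem_primesLe]

lemma rho_bigP {W Z : ℕ} (h : W ≤ Z) : rho 1 (bigP W Z) = V Z / V W := by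
  unfold bigP
  rw [rho_one, V_split h, mul_div_cancel_left₀ _ (V_pos W).ne']

lemma primesLe_union_bigP {W Z : ℕ} (h : W ≤ Z) : primesLe W ∪ bigP W Z = primesLe Z := by
  ext p
  simp only [mem_union, mem_bigP, mem_primesLe]
  constructor
  · rintro (⟨h1, h2⟩ | ⟨h1, _⟩)
    · exact ⟨h1.trans h, h2⟩
    · exact h1
  · rintro ⟨h1, h2⟩
    rcases le_or_gt p W with h3 | h3
    · exact Or.inl ⟨h3, h2⟩
    · exact Or.inr ⟨⟨h1, h2⟩, h3⟩

lemma TT_update (x : ℕ → ℕ) (W Z m U : ℕ) (y : bigP W Z → ℕ) :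
    TT {0} (updateFinset x (bigP W Z) y) (primesLe W) m U = TT {0} x (primesLe W) m U := by
  refine TT_congr _ _ _ _ _ _ fun p hp => ?_
  rw [updateFinset_def]
  have : p ∉ bigP W Z := fun h => by
    have := (mem_bigP.1 h).2
    have := (mem_primesLe.1 hp).1
    omega
  simp [this]

lemma surv_TT {W Z : ℕ} (hWZ : W ≤ Z) (m U : ℕ) (a : ℕ → ℕ) (ha : ∀ p, p.Prime → a p < p) :
    surv (OmD {0}) (bigP W Z) a (TT {0} a (primesLe W) m U) = TT {0} a (primesLe Z) m U := by
  have h1 := surv_Sf {0} 0 (fun _ => 0) (primesLe W) (bigP W Z) m U a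
    (fun p hp => (mem_bigP.1 hp).1.2.pos) (fun p hp => ha p (mem_bigP.1 hp).1.2)
  rw [primesLe_union_bigP hWZ] at h1
  unfold Sf at h1
  rwa [T1_mix _ _ _ (fun p hp => (mem_primesLe.1 hp).2.pos),
    T1_mix _ _ _ (fun p hp => (mem_primesLe.1 hp).2.pos)] at h1

lemma inWin_TT (c : ℕ → ℕ) (Q : Finset ℕ) (m U : ℕ) : InWin m U (TT {0} c Q m U) :=
  fun _ hn => (mem_T1.1 hn).1

lemma dep_TT (W Z m U : ℕ) (h : W ≤ Z) :
    DepOn (primesLe Z) (fun a => TT {0} a (primesLe W) m U) := fun a b hab =>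
  TT_congr _ _ _ _ _ _ fun p hp => by rw [hab p (primesLe_mono h hp)]

lemma dep_surv (W Z m U : ℕ) (h : W ≤ Z) :
    DepOn (primesLe Z) (fun a => surv (OmD {0}) (bigP W Z) a (TT {0} a (primesLe W) m U)) := by
  intro a b hab
  have h1 : TT {0} a (primesLe W) m U = TT {0} b (primesLe W) m U := dep_TT W Z m U h a b hab
  show surv _ _ a _ = surv _ _ b _
  rw [h1]
  unfold surv
  refine filter_congr fun n _ => ?_
  have h2 : ∀ p ∈ bigP W Z, a p = b p := fun p hp => hab p (mem_primesLe.2 (mem_bigP.1 hp).1)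
  constructor
  · intro h3 p hp; rw [← h2 p hp]; exact h3 p hp
  · intro h3 p hp; rw [h2 p hp]; exact h3 p hp

section
variable {Ω : Type} [MeasurableSpace Ω] {μ : Measure Ω} [IsProbabilityMeasure μ]
  {A : ℕ → Ω → ℕ}

theorem chern (hA : RandomClasses μ A) {W Z : ℕ} (hWZ : W ≤ Z) (m U : ℕ) (hUW : U ≤ W)
    (g C : ℝ) (hg : -1 < g) (hC : |g| ≤ C * min 1 (1 + g)) (n b : ℕ) (hCn : 2 * C * n ≤ W) :
    μ {ω | T1 (fun p => A p ω) W m U = n ∧ T1 (fun p => A p ω) Z m U = b} ≤
      ENNReal.ofReal (Real.exp (g * (V Z / V W) * n - b * Real.log (1 + g))) := by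
  classical
  have := fun p => law_prob hA p
  set P := bigP W Z with hP
  have hPW : ∀ p ∈ P, W < p := fun p hp => (mem_bigP.1 hp).2
  have hpos : ∀ p ∈ P, 0 < p := fun p hp => by have := hPW p hp; omega
  have hρ : rho 1 P = V Z / V W := rho_bigP hWZ
  rw [← hρ]
  set ρ := rho 1 P with hρd
  have hgp : 0 < 1 + g := by linarith
  set f : (ℕ → ℕ) → ℝ≥0∞ := fun a => if (TT {0} a (primesLe W) m U).card = n ∧
    (surv (OmD {0}) P a (TT {0} a (primesLe W) m U)).card = b then 1 else 0 with hf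
  have hdep : DepOn (primesLe Z) f := by
    intro a a' h
    have h1 : TT {0} a (primesLe W) m U = TT {0} a' (primesLe W) m U := dep_TT W Z m U hWZ a a' h
    have h2 : surv (OmD {0}) P a (TT {0} a (primesLe W) m U) =
      surv (OmD {0}) P a' (TT {0} a' (primesLe W) m U) := dep_surv W Z m U hWZ a a' h
    rw [hf]
    simp only
    rw [h2, h1]
  have hle := lintegral_le_of_lmarginal hA (primesLe Z) P (fun p hp => (mem_primesLe.1 hp).2)
    (filter_subset _ _) f hdep
    (ENNReal.ofReal (Real.exp (g * ρ * n - b * Real.log (1 + g)))) (fun x => by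
      set S := TT {0} x (primesLe W) m U with hS
      have e1 : lmarginal (law μ A) P f x = lmarginal (law μ A) P (fun a =>
          if S.card = n ∧ (surv (OmD {0}) P a S).card = b then 1 else 0) x := by
        unfold lmarginal
        refine lintegral_congr fun y => ?_
        rw [hf]
        simp only
        rw [TT_update x W Z m U y]
      rw [e1]
      by_cases hn : S.card = n
      · have h2 := gf1_upper (law μ A) g C hg hC (fun p hp => law_unif hA (mem_bigP.1 hp).1.2)
          (inWin_TT x (primesLe W) m U) hPW hUW (by rw [← hS, hn]; exact hCn) x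
        rw [← hS, hn] at h2
        have hbd : lmarginal (law μ A) P (fun a =>
            if S.card = n ∧ (surv (OmD {0}) P a S).card = b then 1 else 0) x ≤
            ENNReal.ofReal (Real.exp (-(b * Real.log (1 + g)))) *
              lmarginal (law μ A) P (fun a =>
                ENNReal.ofReal ((1 + g) ^ (surv (OmD {0}) P a S).card)) x := by
          unfold lmarginal
          rw [← lintegral_const_mul _ (measurable_of_countable _)]
          refine lintegral_mono fun y => ?_
          simp only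
          split_ifs with h
          · rw [h.2, ← ENNReal.ofReal_mul (Real.exp_pos _).le]
            have : Real.exp (-(b * Real.log (1 + g))) * (1 + g) ^ b = 1 := by
              rw [Real.exp_neg, Real.exp_nat_mul, Real.exp_log hgp]
              exact inv_mul_cancel₀ (pow_pos hgp b).ne'
            rw [this, ENNReal.ofReal_one]
          · exact bot_le
        refine hbd.trans ?_
        calc _ ≤ ENNReal.ofReal (Real.exp (-(b * Real.log (1 + g)))) *
              ENNReal.ofReal ((1 + g * ρ) ^ n) := by gcongr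
          _ = ENNReal.ofReal (Real.exp (-(b * Real.log (1 + g))) * (1 + g * ρ) ^ n) := by
              rw [ENNReal.ofReal_mul (Real.exp_pos _).le]
          _ ≤ ENNReal.ofReal (Real.exp (g * ρ * n - b * Real.log (1 + g))) := by
              refine ENNReal.ofReal_le_ofReal ?_
              have h3 : (1 + g * ρ) ^ n ≤ Real.exp (g * ρ * n) := by
                have h4 : 0 ≤ 1 + g * ρ := by
                  have := (damp hg hC (rho_one_nonneg P hpos) (rho_one_le P hpos)).1
                  linarith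
                calc (1 + g * ρ) ^ n ≤ Real.exp (g * ρ) ^ n := by
                      gcongr
                      rw [add_comm]
                      exact Real.add_one_le_exp _
                  _ = Real.exp (g * ρ * n) := by rw [← Real.exp_nat_mul]; congr 1; ring
              calc Real.exp (-(b * Real.log (1 + g))) * (1 + g * ρ) ^ n ≤
                  Real.exp (-(b * Real.log (1 + g))) * Real.exp (g * ρ * n) := by gcongr
                _ = Real.exp (g * ρ * n - b * Real.log (1 + g)) := by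
                    rw [← Real.exp_add]; congr 1; ring
      · have : lmarginal (law μ A) P (fun a =>
            if S.card = n ∧ (surv (OmD {0}) P a S).card = b then (1 : ℝ≥0∞) else 0) x = 0 := by
          unfold lmarginal
          simp [hn]
        rw [this]
        exact bot_le)
  refine le_trans ?_ hle
  have hms : MeasurableSet {ω | (TT {0} (fun p => A p ω) (primesLe W) m U).card = n ∧
    (surv (OmD {0}) P (fun p => A p ω) (TT {0} (fun p => A p ω) (primesLe W) m U)).card = b} := by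
    have hA' : Measurable (fun ω (p : ℕ) => A p ω) := measurable_pi_lambda _ hA.meas
    have h1 : Measurable (fun a : ℕ → ℕ => ((TT {0} a (primesLe W) m U).card,
        (surv (OmD {0}) P a (TT {0} a (primesLe W) m U)).card)) := by
      refine DepOn.measurable (s := primesLe Z) ?_
      intro a a' h
      have h1 : TT {0} a (primesLe W) m U = TT {0} a' (primesLe W) m U :=
        dep_TT W Z m U hWZ a a' h
      have h2 : surv (OmD {0}) P a (TT {0} a (primesLe W) m U) =
        surv (OmD {0}) P a' (TT {0} a' (primesLe W) m U) := dep_surv W Z m U hWZ a a' h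
      show (_, _) = (_, _)
      rw [h2, h1]
    have h2 := h1.comp hA'
    have e : {ω | (TT {0} (fun p => A p ω) (primesLe W) m U).card = n ∧
      (surv (OmD {0}) P (fun p => A p ω) (TT {0} (fun p => A p ω) (primesLe W) m U)).card = b} =
      (fun ω => ((TT {0} (fun p => A p ω) (primesLe W) m U).card,
        (surv (OmD {0}) P (fun p => A p ω)
          (TT {0} (fun p => A p ω) (primesLe W) m U)).card)) ⁻¹' {(n, b)} := by
      ext ω
      simp
    rw [e]
    exact h2 (measurableSet_singleton _)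
  have hrw : ∫⁻ ω, f (fun p => A p ω) ∂μ =
      μ {ω | (TT {0} (fun p => A p ω) (primesLe W) m U).card = n ∧
    (surv (OmD {0}) P (fun p => A p ω) (TT {0} (fun p => A p ω) (primesLe W) m U)).card = b} := by
    rw [← lintegral_indicator_one hms]
    refine lintegral_congr fun ω => ?_
    rw [Set.indicator_apply]
    rfl
  rw [hrw]
  refine measure_mono_ae ?_
  filter_upwards [ae_lt hA] with ω hω h
  refine ⟨h.1, ?_⟩
  rw [surv_TT hWZ m U _ hω]
  exact h.2

theorem chern_rate (hA : RandomClasses μ A) {W Z : ℕ} (hWZ : W ≤ Z) (m U : ℕ) (hUW : U ≤ W)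
    (R : ℝ) (hR : V W / V Z ≤ R) (n b : ℕ) (hbn : b ≤ n)
    (hCn : 2 * (R + 2 * n + 1) * n ≤ W) :
    μ {ω | T1 (fun p => A p ω) W m U = n ∧ T1 (fun p => A p ω) Z m U = b} ≤
      ENNReal.ofReal (2 * Real.exp (-(rate b (V Z / V W * n)))) := by
  have hVW := V_pos W
  have hVZ := V_pos Z
  set ρ := V Z / V W with hρ
  have hρ0 : 0 < ρ := by positivity
  have hρ1 : ρ ≤ 1 := by rw [hρ, div_le_one hVW]; exact V_anti hWZ
  have hρR : 1 / ρ ≤ R := by
    rw [hρ, one_div_div]; exact hR
  have hR1 : 1 ≤ R := le_trans (by rw [le_div_iff₀ hρ0]; linarith) hρR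
  have hn0 : (0 : ℝ) ≤ n := Nat.cast_nonneg n
  rcases Nat.eq_zero_or_pos n with h0 | h0
  · have hb0 : b = 0 := by omega
    subst h0; subst hb0
    refine prob_le_one.trans ?_
    rw [← ENNReal.ofReal_one]
    refine ENNReal.ofReal_le_ofReal ?_
    unfold rate
    simp
  have hn1 : (1 : ℝ) ≤ n := by exact_mod_cast h0
  rcases Nat.eq_zero_or_pos b with hb | hb
  · subst hb
    have h1 := chern hA hWZ m U hUW (1 / (2 * n) - 1) (R + 2 * n + 1) (by
      have : 0 < 1 / (2 * (n : ℝ)) := by positivity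
      linarith) (by
      have a1 : 0 < 1 / (2 * (n : ℝ)) := by positivity
      have a2 : 1 / (2 * (n : ℝ)) ≤ 1 / 2 := by
        rw [div_le_div_iff₀ (by positivity) (by norm_num)]; linarith
      have e : 1 + (1 / (2 * (n : ℝ)) - 1) = 1 / (2 * n) := by ring
      rw [e, min_eq_right (by linarith), abs_of_nonpos (by linarith)]
      have a3 : (R + 2 * n + 1) * (1 / (2 * (n : ℝ))) = R / (2 * n) + 1 + 1 / (2 * n) := by
        field_simp
      rw [a3]
      have : 0 ≤ R / (2 * (n : ℝ)) := by positivity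
      linarith) n 0 hCn
    refine h1.trans (ENNReal.ofReal_le_ofReal ?_)
    unfold rate
    simp only [Nat.cast_zero, zero_mul, sub_zero, zero_div, zero_add]
    have e1 : (1 / (2 * (n : ℝ)) - 1) * ρ * n = ρ / 2 + -(ρ * n) := by
      field_simp
      ring
    rw [e1, Real.exp_add]
    have h2 : Real.exp (ρ / 2) ≤ 2 := by
      have h3 := exp_le_one_add_two_mul (y := ρ / 2) (by positivity) (by linarith)
      linarith
    gcongr
  · have hb1 : (1 : ℝ) ≤ b := by exact_mod_cast hb
    have hbn' : (b : ℝ) ≤ n := by exact_mod_cast hbn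
    set t : ℝ := b / (ρ * n) with ht
    have hρn : 0 < ρ * n := by positivity
    have ht0 : 0 < t := by positivity
    have htR : t ≤ R := by
      have : t ≤ 1 / ρ := by
        rw [ht, div_le_div_iff₀ hρn hρ0]
        nlinarith
      linarith
    have htn : 1 / n ≤ t := by
      rw [ht, div_le_div_iff₀ (by linarith) hρn]
      nlinarith
    have h1 := chern hA hWZ m U hUW (t - 1) (R + 2 * n + 1) (by linarith) (by
      have e : 1 + (t - 1) = t := by ring
      rw [e]
      have h2 : 1 ≤ n * t := by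
        rw [div_le_iff₀ (by linarith)] at htn
        linarith
      have h3 : |t - 1| ≤ R + 1 := by
        rw [abs_le]; constructor <;> linarith
      have h4 : |t - 1| ≤ (R + 2 * n + 1) * t := by
        have h5 : |t - 1| ≤ t + 1 := by
          rw [abs_le]; constructor <;> linarith
        nlinarith
      rcases le_total 1 t with h6 | h6
      · rw [min_eq_left h6]; linarith
      · rw [min_eq_right h6]; exact h4) n b hCn
    refine h1.trans (ENNReal.ofReal_le_ofReal ?_)
    have e : 1 + (t - 1) = t := by ring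
    rw [e]
    have e2 : (t - 1) * ρ * n - b * Real.log t = -(rate b (ρ * n)) := by
      unfold rate
      rw [← ht]
      have : t * (ρ * n) = b := by rw [ht]; field_simp
      linear_combination this
    rw [e2]
    have := Real.exp_pos (-(rate b (ρ * n)))
    linarith

end

/-- The level separating medium and large primes. -/
def Wj (j : ℕ) : ℕ := j ^ 40

/-- The number of elements of all short windows: large deviations. -/
theorem star (η : ℝ) (hη : 0 < η) {Ω : Type}
    [MeasurableSpace Ω] (μ : Measure Ω) [IsProbabilityMeasure μ] (A : ℕ → Ω → ℕ)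
    (hA : RandomClasses μ A) (Z : ℕ → ℕ)
    (hZ : Tendsto (fun j : ℕ => V (Z j) * (j * Real.log 2)) atTop (𝓝 1)) 
    (hZW : ∀ᶠ j : ℕ in atTop, Wj j ≤ Z j) :
    ∀ᵐ ω ∂μ, ∀ᶠ j : ℕ in atTop, ∀ m < 2 ^ (j + 3), ∀ U ≤ j ^ 3,
      rate (T1 (fun p => A p ω) (Z j) m U)
        (V (Z j) / V (Wj j) * T1 (fun p => A p ω) (Wj j) m U) ≤ (1 + η) * (j * Real.log 2) := by
  classical
  set E : ℕ → Set Ω := fun j => ⋃ m ∈ range (2 ^ (j + 3)), ⋃ U ∈ range (j ^ 3 + 1),
    ⋃ n ∈ range (j ^ 3 + 1), ⋃ b ∈ (range (j ^ 3 + 1)).filter (fun b =>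
      b ≤ n ∧ (1 + η) * (j * Real.log 2) < rate b (V (Z j) / V (Wj j) * n)),
    {ω | T1 (fun p => A p ω) (Wj j) m U = n ∧ T1 (fun p => A p ω) (Z j) m U = b} with hE
  have hlog2 : (0 : ℝ) < Real.log 2 := Real.log_pos (by norm_num)
  have hVZ : ∀ᶠ j : ℕ in atTop, 1 / V (Z j) ≤ j := by
    filter_upwards [hZ.eventually (lt_mem_nhds (show (0.9 : ℝ) < 1 by norm_num)),
      eventually_ge_atTop 1] with j hj hj1
    have hj0 : (0 : ℝ) < j := by exact_mod_cast hj1
    have h1 := V_pos (Z j)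
    rw [div_le_iff₀ h1]
    have h2 := Real.log_two_lt_d9
    have h3 : 0 < V (Z j) * j := by positivity
    nlinarith
  have hsmall : ∀ᶠ j : ℕ in atTop, (2 : ℝ) ^ (j + 3) * ((j : ℝ) ^ 3 + 1) ^ 3 *
      (2 * Real.exp (-((1 + η) * (j * Real.log 2)))) ≤ 1 / (j : ℝ) ^ 2 := by
    -- 16 (j^3+1)^3 j^2 exp(-η j log 2) → 0
    have h1 : Tendsto (fun j : ℕ => (j : ℝ) ^ 11 * Real.exp (-(η * Real.log 2) * j)) atTop
        (𝓝 0) := by
      have := Real.tendsto_pow_mul_exp_neg_atTop_nhds_zero 11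
      have h2 : Tendsto (fun j : ℕ => (η * Real.log 2) * (j : ℝ)) atTop atTop :=
        (tendsto_natCast_atTop_atTop).const_mul_atTop (by positivity)
      have h3 := (this.comp h2).const_mul ((1 / (η * Real.log 2)) ^ 11)
      rw [mul_zero] at h3
      refine h3.congr fun j => ?_
      simp only [comp_apply]
      rw [mul_pow, neg_mul, ← mul_assoc, ← mul_assoc, ← mul_pow, one_div,
        inv_mul_cancel₀ (by positivity), one_pow, one_mul]
    filter_upwards [h1.eventually (gt_mem_nhds (show (0 : ℝ) < 1 / 128 by norm_num)),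
      eventually_ge_atTop 1] with j hj hj1
    have hj0 : (1 : ℝ) ≤ j := by exact_mod_cast hj1
    have e1 : Real.exp (-((1 + η) * (j * Real.log 2))) =
        (1 / 2) ^ j * Real.exp (-(η * Real.log 2) * j) := by
      have h2 : Real.exp (-(j * Real.log 2)) = (1 / 2) ^ j := by
        rw [Real.exp_neg, Real.exp_nat_mul, Real.exp_log (by norm_num), one_div, inv_pow]
      rw [← h2, ← Real.exp_add]
      congr 1; ring
    have e2 : (2 : ℝ) ^ (j + 3) * (1 / 2) ^ j = 8 := by
      rw [pow_add, mul_right_comm, ← mul_pow]; norm_num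
    have h3 : ((j : ℝ) ^ 3 + 1) ^ 3 ≤ 8 * (j : ℝ) ^ 9 := by
      have h4 : (j : ℝ) ^ 3 + 1 ≤ 2 * (j : ℝ) ^ 3 := by
        have : (1 : ℝ) ≤ (j : ℝ) ^ 3 := one_le_pow₀ hj0
        linarith
      calc ((j : ℝ) ^ 3 + 1) ^ 3 ≤ (2 * (j : ℝ) ^ 3) ^ 3 := by gcongr
        _ = 8 * (j : ℝ) ^ 9 := by ring
    rw [le_div_iff₀ (by positivity), e1]
    have hexp := Real.exp_pos (-(η * Real.log 2) * (j : ℝ))
    calc (2 : ℝ) ^ (j + 3) * ((j : ℝ) ^ 3 + 1) ^ 3 *
        (2 * ((1 / 2) ^ j * Real.exp (-(η * Real.log 2) * j))) * (j : ℝ) ^ 2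
        = ((2 : ℝ) ^ (j + 3) * (1 / 2) ^ j) * ((j : ℝ) ^ 3 + 1) ^ 3 *
          (2 * Real.exp (-(η * Real.log 2) * j)) * (j : ℝ) ^ 2 := by ring
      _ = 8 * ((j : ℝ) ^ 3 + 1) ^ 3 * (2 * Real.exp (-(η * Real.log 2) * j)) * (j : ℝ) ^ 2 := by
          rw [e2]
      _ ≤ 8 * (8 * (j : ℝ) ^ 9) * (2 * Real.exp (-(η * Real.log 2) * j)) * (j : ℝ) ^ 2 := by
          gcongr
      _ = 128 * ((j : ℝ) ^ 11 * Real.exp (-(η * Real.log 2) * j)) := by ring
      _ ≤ 1 := by linarith
  have hmeas : ∀ᶠ j : ℕ in atTop, μ (E j) ≤ ENNReal.ofReal (1 / (j : ℝ) ^ 2) := by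
    filter_upwards [hVZ, hsmall, hZW, eventually_ge_atTop 2] with j h1 h2 h3 hj2
    have hjr : (2 : ℝ) ≤ j := by exact_mod_cast hj2
    have hVW1 : V (Wj j) ≤ 1 := by
      unfold V
      refine prod_le_one (fun p hp => ?_) (fun p hp => ?_)
      · have : (1 : ℝ) ≤ p := by exact_mod_cast (mem_primesLe.1 hp).2.one_lt.le
        rw [sub_nonneg, div_le_one (by linarith)]
        exact this
      · have : (0 : ℝ) ≤ 1 / (p : ℝ) := by positivity
        linarith
    have hVZp := V_pos (Z j)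
    have hR : V (Wj j) / V (Z j) ≤ j := by
      refine le_trans ?_ h1
      gcongr
    have hUW : ∀ U ≤ j ^ 3, U ≤ Wj j := fun U hU => hU.trans (by
      unfold Wj; exact Nat.pow_le_pow_right (by omega) (by norm_num))
    have hone : ∀ m ∈ range (2 ^ (j + 3)), ∀ U ∈ range (j ^ 3 + 1), ∀ n ∈ range (j ^ 3 + 1),
        ∀ b ∈ (range (j ^ 3 + 1)).filter (fun b =>
      b ≤ n ∧ (1 + η) * (j * Real.log 2) < rate b (V (Z j) / V (Wj j) * n)),
        μ {ω | T1 (fun p => A p ω) (Wj j) m U = n ∧ T1 (fun p => A p ω) (Z j) m U = b} ≤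
        ENNReal.ofReal (2 * Real.exp (-((1 + η) * (j * Real.log 2)))) := by
      intro m _ U hU n hn b hb
      obtain ⟨hb1, hb2, hb3⟩ := mem_filter.1 hb
      have hn' : (n : ℝ) ≤ (j : ℝ) ^ 3 := by
        have : n ≤ j ^ 3 := by have := mem_range.1 hn; omega
        exact_mod_cast this
      have hcn : 2 * ((j : ℝ) + 2 * n + 1) * n ≤ (Wj j : ℕ) := by
        have hj3 : (1 : ℝ) ≤ (j : ℝ) ^ 3 := one_le_pow₀ (by linarith)
        have hj13 : (j : ℝ) ≤ (j : ℝ) ^ 3 := by
          calc (j : ℝ) = (j : ℝ) ^ 1 := (pow_one _).symm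
            _ ≤ (j : ℝ) ^ 3 := pow_le_pow_right₀ (by linarith) (by norm_num)
        calc 2 * ((j : ℝ) + 2 * n + 1) * n ≤ 2 * ((j : ℝ) ^ 3 + 2 * (j : ℝ) ^ 3 + (j : ℝ) ^ 3) *
              (j : ℝ) ^ 3 := by gcongr
          _ = 8 * (j : ℝ) ^ 6 := by ring
          _ ≤ (j : ℝ) ^ 3 * (j : ℝ) ^ 6 := by
              gcongr
              calc (8 : ℝ) = 2 ^ 3 := by norm_num
                _ ≤ (j : ℝ) ^ 3 := by gcongr
          _ = (j : ℝ) ^ 9 := by ring
          _ ≤ (j : ℝ) ^ 40 := pow_le_pow_right₀ (by linarith) (by norm_num)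
          _ = (Wj j : ℕ) := by unfold Wj; push_cast; rfl
      have h4 := chern_rate hA h3 m U (hUW U (by have := mem_range.1 hU; omega)) j hR n b hb2 hcn
      refine h4.trans (ENNReal.ofReal_le_ofReal ?_)
      have : Real.exp (-(rate b (V (Z j) / V (Wj j) * n))) ≤
          Real.exp (-((1 + η) * (j * Real.log 2))) := Real.exp_le_exp.2 (by linarith)
      linarith
    obtain ⟨κ0, hκ0⟩ : ∃ t : ℝ, t = 2 * Real.exp (-((1 + η) * (j * Real.log 2))) := ⟨_, rfl⟩
    rw [← hκ0] at hone h2
    have hc0 : (0 : ℝ) ≤ κ0 := by rw [hκ0]; positivity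
    calc μ (E j) ≤ ∑ m ∈ range (2 ^ (j + 3)), ∑ U ∈ range (j ^ 3 + 1), ∑ n ∈ range (j ^ 3 + 1),
          ∑ b ∈ (range (j ^ 3 + 1)).filter (fun b =>
      b ≤ n ∧ (1 + η) * (j * Real.log 2) < rate b (V (Z j) / V (Wj j) * n)),
          μ {ω | T1 (fun p => A p ω) (Wj j) m U = n ∧ T1 (fun p => A p ω) (Z j) m U = b} := by
          refine (measure_biUnion_finset_le _ _).trans (sum_le_sum fun m _ => ?_)
          refine (measure_biUnion_finset_le _ _).trans (sum_le_sum fun U _ => ?_)
          refine (measure_biUnion_finset_le _ _).trans (sum_le_sum fun n _ => ?_)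
          exact measure_biUnion_finset_le _ _
      _ ≤ ∑ m ∈ range (2 ^ (j + 3)), ∑ U ∈ range (j ^ 3 + 1), ∑ n ∈ range (j ^ 3 + 1),
          ∑ b ∈ (range (j ^ 3 + 1)).filter (fun b =>
      b ≤ n ∧ (1 + η) * (j * Real.log 2) < rate b (V (Z j) / V (Wj j) * n)),
          ENNReal.ofReal κ0 := by
          refine sum_le_sum fun m hm => sum_le_sum fun U hU => sum_le_sum fun n hn =>
            sum_le_sum fun b hb => hone m hm U hU n hn b hb
      _ ≤ ∑ m ∈ range (2 ^ (j + 3)), ∑ U ∈ range (j ^ 3 + 1), ∑ n ∈ range (j ^ 3 + 1),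
          ∑ b ∈ range (j ^ 3 + 1),
          ENNReal.ofReal κ0 := by
          refine sum_le_sum fun m hm => sum_le_sum fun U hU => sum_le_sum fun n hn => ?_
          exact sum_le_sum_of_subset (filter_subset _ _)
      _ = ENNReal.ofReal ((2 : ℝ) ^ (j + 3) * ((j : ℝ) ^ 3 + 1) ^ 3 * κ0) := by
          simp only [sum_const, card_range, nsmul_eq_mul]
          have e1 : ENNReal.ofReal ((2 : ℝ) ^ (j + 3)) = ((2 ^ (j + 3) : ℕ) : ℝ≥0∞) := by
            rw [← ENNReal.ofReal_natCast]; push_cast; rfl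
          have e2 : ENNReal.ofReal ((j : ℝ) ^ 3 + 1) = ((j ^ 3 + 1 : ℕ) : ℝ≥0∞) := by
            rw [← ENNReal.ofReal_natCast]; push_cast; rfl
          have e3 : (2 : ℝ) ^ (j + 3) * ((j : ℝ) ^ 3 + 1) ^ 3 * κ0 =
              (2 : ℝ) ^ (j + 3) * (((j : ℝ) ^ 3 + 1) * (((j : ℝ) ^ 3 + 1) *
                (((j : ℝ) ^ 3 + 1) * κ0))) := by ring
          have hj3 : (0 : ℝ) ≤ (j : ℝ) ^ 3 + 1 := by positivity
          rw [e3, ENNReal.ofReal_mul (by positivity), ENNReal.ofReal_mul hj3,
            ENNReal.ofReal_mul hj3, ENNReal.ofReal_mul hj3, e1, e2]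
      _ ≤ ENNReal.ofReal (1 / (j : ℝ) ^ 2) := ENNReal.ofReal_le_ofReal h2
  have hbc := borel_cantelli_sq μ E hmeas
  filter_upwards [hbc] with ω hω
  filter_upwards [hω, hZW] with j hj hWZ m hm U hU
  by_contra hcon
  refine hj ?_
  have hn : T1 (fun p => A p ω) (Wj j) m U ≤ U := T1_le _ _ _ _
  have hb : T1 (fun p => A p ω) (Z j) m U ≤ U := T1_le _ _ _ _
  have hbn : T1 (fun p => A p ω) (Z j) m U ≤ T1 (fun p => A p ω) (Wj j) m U := T1_anti _ hWZ _ _
  refine Set.mem_biUnion (x := m) (mem_coe.2 (mem_range.2 hm)) ?_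
  refine Set.mem_biUnion (x := U) (mem_coe.2 (mem_range.2 (by omega))) ?_
  refine Set.mem_biUnion (x := T1 (fun p => A p ω) (Wj j) m U)
    (mem_coe.2 (mem_range.2 (by omega))) ?_
  refine Set.mem_biUnion (x := T1 (fun p => A p ω) (Z j) m U)
    (mem_coe.2 (mem_filter.2 ⟨mem_range.2 (by omega), hbn, not_le.1 hcon⟩)) ?_
  exact ⟨rfl, rfl⟩

end Pool.Agent.H532.RM
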