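import Mathlib
import Pool.Agent.H532.RM.Star

/-!
Medium primes `w_j < p ≤ j ^ 40`: concentration in all windows of length at least `λ j ^ 2`.
-/

namespace Pool.Agent.H532.RM

open Finset MeasureTheory Function ProbabilityTheory Filter
open scoped ENNReal Topology

lemma wj_le_Wj : ∀ᶠ j : ℕ in atTop, wj j ≤ Wj j := by
  filter_upwards [eventually_ge_atTop 2] with j hj
  have hlj : Nat.log 2 j ≤ j := (Nat.log_lt_self 2 (by omega)).le
  unfold wj Wj
  calc j * Nat.log 2 j ^ 3 ≤ j * j ^ 3 := by gcongr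
    _ = j ^ 4 := by ring
    _ ≤ j ^ 40 := Nat.pow_le_pow_right (by omega) (by norm_num)

theorem conc2 (δ lam : ℝ) (hδ : 0 < δ) (hδ1 : δ ≤ 1) (hlam : 0 < lam) {Ω : Type}
    [MeasurableSpace Ω] (μ : Measure Ω) [IsProbabilityMeasure μ] (A : ℕ → Ω → ℕ)
    (hA : RandomClasses μ A) :
    ∀ᵐ ω ∂μ, ∀ᶠ j : ℕ in atTop, ∀ m < 2 ^ (j + 3), ∀ U : ℕ, U < 2 ^ (j + 3) →
      lam * (j : ℝ) ^ 2 ≤ U →
      |(T1 (fun p => A p ω) (Wj j) m U : ℝ) -
        V (Wj j) / V (wj j) * T1 (fun p => A p ω) (wj j) m U| ≤ δ * (U * V (Wj j)) := by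
  classical
  obtain ⟨C', hC', hKb⟩ := Kb
  obtain ⟨C0, hC0, ζ0, hup⟩ := upper
  obtain ⟨c, _, hc, _, hVts⟩ := V_two_sided
  set C : ℝ := max C0 1 with hC
  have hC1 : 1 ≤ C := le_max_right _ _
  set F : ℕ → Finset ℕ := fun j => (range (2 ^ (j + 3))).filter (fun U => lam * (j : ℝ) ^ 2 ≤ U)
    with hF
  set E : ℕ → ℕ → ℕ → Set Ω := fun j m U =>
    {ω | δ * (U * V (Wj j)) ≤ |(T1 (fun p => A p ω) (Wj j) m U : ℝ) -
        V (Wj j) / V (wj j) * T1 (fun p => A p ω) (wj j) m U|} with hE
  have hlog2 : (0 : ℝ) < Real.log 2 := Real.log_pos (by norm_num)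
  have hjt : Tendsto (fun j : ℕ => (j : ℝ)) atTop atTop := tendsto_natCast_atTop_atTop
  -- `j ^ 2 V_W` is much larger than `j`
  have ev1 : ∀ᶠ j : ℕ in atTop, 640 * C / (δ ^ 2 * lam) * j ≤ (j : ℝ) ^ 2 * V (Wj j) := by
    have h1 := (Real.isLittleO_log_id_atTop.comp_tendsto hjt).bound
      (show (0 : ℝ) < c / (40 * (640 * C / (δ ^ 2 * lam))) by positivity)
    filter_upwards [h1, eventually_ge_atTop 2] with j h1 hj2
    have hjr : (2 : ℝ) ≤ j := by exact_mod_cast hj2
    simp only [comp_apply, id_eq, Real.norm_eq_abs] at h1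
    rw [abs_of_nonneg (Real.log_natCast_nonneg j), abs_of_nonneg (by positivity)] at h1
    have h2 := (hVts (Wj j) (by
      unfold Wj
      calc 2 ≤ j := hj2
        _ ≤ j ^ 40 := Nat.le_self_pow (by norm_num) j)).1
    have h3 : Real.log (Wj j : ℕ) = 40 * Real.log j := by
      unfold Wj; push_cast; rw [Real.log_pow]; norm_num
    rw [h3] at h2
    have hlj : 0 < Real.log j := Real.log_pos (by linarith)
    set D : ℝ := 640 * C / (δ ^ 2 * lam) with hD
    have hD0 : 0 < D := by positivity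
    have h4 : D * (40 * Real.log j) ≤ c * j := by
      calc D * (40 * Real.log j) ≤ D * (40 * (c / (40 * D) * j)) := by gcongr
        _ = c * j := by field_simp
    have h5 : c * j ≤ (V (Wj j) * (40 * Real.log j)) * j := by gcongr
    have h6 : D * (40 * Real.log j) ≤ (V (Wj j) * j) * (40 * Real.log j) := by
      calc D * (40 * Real.log j) ≤ (V (Wj j) * (40 * Real.log j)) * j := h4.trans h5
        _ = (V (Wj j) * j) * (40 * Real.log j) := by ring
    have h7 : D ≤ V (Wj j) * j := le_of_mul_le_mul_right h6 (by positivity)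
    calc D * (j : ℝ) ≤ (V (Wj j) * j) * j := by gcongr
      _ = (j : ℝ) ^ 2 * V (Wj j) := by ring
  have ev2 := wj_le_Wj
  have ev3 := wj_large (640 * C * C' / δ ^ 2)
  have ev4 : ∀ᶠ j : ℕ in atTop, (1 : ℝ) ≤ lam * j := by
    filter_upwards [hjt.eventually_ge_atTop (1 / lam)] with j hj
    rw [div_le_iff₀ hlam] at hj
    linarith
  have evpoly : ∀ᶠ j : ℕ in atTop, Nat.log 2 j ^ 3 ≤ j := by
    have h2 := (Real.isLittleO_pow_log_id_atTop (n := 3)).comp_tendsto hjt
    have h3 := h2.bound (show (0 : ℝ) < 1 / 8 by norm_num)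
    filter_upwards [h3, eventually_ge_atTop 1] with j hj hj1
    simp only [comp_apply, id_eq, Real.norm_eq_abs] at hj
    rw [abs_of_nonneg (pow_nonneg (Real.log_natCast_nonneg j) 3), abs_of_nonneg (by positivity)]
      at hj
    have h9 : (Nat.log 2 j : ℝ) * Real.log 2 ≤ Real.log j := by
      rw [← Real.log_pow]
      refine Real.log_le_log (by positivity) ?_
      exact_mod_cast Nat.pow_log_le_self 2 (by omega)
    have h10 : (Nat.log 2 j : ℝ) ≤ 2 * Real.log j := by
      have := Real.log_two_gt_d9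
      have h0 : (0 : ℝ) ≤ Nat.log 2 j := by positivity
      nlinarith
    have h11 : ((Nat.log 2 j : ℝ)) ^ 3 ≤ j := by
      calc ((Nat.log 2 j : ℝ)) ^ 3 ≤ (2 * Real.log j) ^ 3 := by gcongr
        _ = 8 * Real.log j ^ 3 := by ring
        _ ≤ 8 * (1 / 8 * j) := by gcongr
        _ = j := by ring
    exact_mod_cast h11
  have hmeas : ∀ᶠ j : ℕ in atTop,
      μ (⋃ m ∈ range (2 ^ (j + 3)), ⋃ U ∈ F j, E j m U) ≤
        ENNReal.ofReal ((1 / 2 : ℝ) ^ j) := by
    filter_upwards [ev1, ev2, ev3, wj_tendsto.eventually_ge_atTop (max 4 ζ0),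
      eventually_ge_atTop 16, ev4, evpoly] with j h1 h2 h3 h4 h5 h6 hpoly
    have hw4 : 4 ≤ wj j := (le_max_left _ _).trans h4
    have hwζ : ζ0 ≤ wj j := (le_max_right _ _).trans h4
    have hjr : (16 : ℝ) ≤ j := by exact_mod_cast h5
    have hwr : (4 : ℝ) ≤ wj j := by exact_mod_cast hw4
    have hlw : 0 < Real.log (wj j) := Real.log_pos (by linarith)
    have hVZ := V_pos (Wj j)
    have hVw := V_pos (wj j)
    have hone : ∀ m ∈ range (2 ^ (j + 3)), ∀ U ∈ F j, μ (E j m U) ≤
        ENNReal.ofReal (2 * Real.exp (-(4 * ((j : ℝ) + 4)))) := by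
      intro m _ U hU
      have hUr := (mem_filter.1 hU).2
      have hjU : (j : ℝ) ≤ U := by nlinarith
      have hU0 : (0 : ℝ) < U := by linarith
      have hjU' : j ≤ U := by exact_mod_cast hjU
      set a : ℝ := C' * (U * V (Wj j) * (Real.log (wj j) / wj j)) with ha
      have ha0 : 0 ≤ a := by positivity
      obtain ⟨k1, k2⟩ := hKb (wj j) (Wj j) U hw4
      set Kh : ℝ := 1 + a with hKh
      have hKhpos : 0 < Kh := by rw [hKh]; linarith
      set θ : ℝ := δ / (8 * C * Kh) with hθ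
      have hθ0 : 0 ≤ θ := by positivity
      have hθK : 4 * θ * Kh = δ / (2 * C) := by
        rw [hθ]; field_simp; ring
      have h4θ : 4 * θ * Kh ≤ 1 := by
        rw [hθK, div_le_one (by positivity)]; linarith
      have hM : ∀ c, V (Wj j) / V (wj j) * T1 c (wj j) m U ≤ C * (U * V (Wj j)) := by
        intro c
        have hw2 : wj j ≤ U ^ 2 := by
          calc wj j ≤ j * j := by
                unfold wj; gcongr
            _ = j ^ 2 := by ring
            _ ≤ U ^ 2 := Nat.pow_le_pow_left hjU' 2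
        have h7 := hup (wj j) hwζ U hw2 c m
        calc V (Wj j) / V (wj j) * T1 c (wj j) m U ≤
            V (Wj j) / V (wj j) * (C0 * (U * V (wj j))) := by gcongr
          _ = C0 * (U * V (Wj j)) := by field_simp
          _ ≤ C * (U * V (Wj j)) := by
              have : C0 ≤ C := le_max_left _ _
              gcongr
      have htail := tail1 hA (wj j) (Wj j) hw4 h2 m U Kh k1 k2 θ hθ0 h4θ (δ * (U * V (Wj j)))
        (C * (U * V (Wj j))) hM
      refine htail.trans (ENNReal.ofReal_le_ofReal ?_)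
      have hexp : 4 * ((j : ℝ) + 4) ≤
          θ * (δ * (U * V (Wj j)) - 4 * θ * Kh * (C * (U * V (Wj j)))) := by
        rw [hθK]
        have e1 : δ * (U * V (Wj j)) - δ / (2 * C) * (C * (U * V (Wj j))) =
            δ / 2 * (U * V (Wj j)) := by
          field_simp; ring
        rw [e1]
        have e2 : θ * (δ / 2 * (U * V (Wj j))) = δ ^ 2 * (U * V (Wj j)) / (16 * C * Kh) := by
          rw [hθ]; field_simp; ring
        rw [e2, le_div_iff₀ (by positivity)]
        have h11 : 4 * ((j : ℝ) + 4) ≤ 5 * j := by linarith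
        have h12 : 5 * (j : ℝ) * (16 * C) ≤ δ ^ 2 * (U * V (Wj j)) / 2 := by
          have h13 : 640 * C * j ≤ δ ^ 2 * lam * ((j : ℝ) ^ 2 * V (Wj j)) := by
            have e3 : 640 * C / (δ ^ 2 * lam) * (j : ℝ) = 640 * C * j / (δ ^ 2 * lam) := by ring
            rw [e3, div_le_iff₀ (by positivity)] at h1
            linarith
          have h14 : δ ^ 2 * lam * ((j : ℝ) ^ 2 * V (Wj j)) ≤ δ ^ 2 * (U * V (Wj j)) := by
            calc δ ^ 2 * lam * ((j : ℝ) ^ 2 * V (Wj j)) = δ ^ 2 * ((lam * j ^ 2) * V (Wj j)) := by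
                  ring
              _ ≤ δ ^ 2 * (U * V (Wj j)) := by gcongr
          have h15 : 0 ≤ C * (j : ℝ) := by positivity
          linarith
        have h16 : 5 * (j : ℝ) * (16 * C) * a ≤ δ ^ 2 * (U * V (Wj j)) / 2 := by
          have h17 : 640 * C * C' * (j * Real.log (wj j)) ≤ δ ^ 2 * wj j := by
            have : 640 * C * C' / δ ^ 2 * j * Real.log (wj j) =
              640 * C * C' * (j * Real.log (wj j)) / δ ^ 2 := by ring
            rw [this, div_le_iff₀ (by positivity)] at h3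
            linarith
          rw [ha]
          calc 5 * (j : ℝ) * (16 * C) * (C' * (U * V (Wj j) * (Real.log (wj j) / wj j))) =
              80 * (C * C' * (j * Real.log (wj j)) / wj j) * (U * V (Wj j)) := by ring
            _ ≤ (δ ^ 2 / 2) * (U * V (Wj j)) := by
                have : 80 * (C * C' * (j * Real.log (wj j)) / wj j) ≤ δ ^ 2 / 2 := by
                  rw [← mul_div_assoc, div_le_iff₀ (by linarith)]
                  have h19 : 0 ≤ C * C' * (j * Real.log (wj j)) := by positivity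
                  nlinarith
                gcongr
            _ = δ ^ 2 * (U * V (Wj j)) / 2 := by ring
        calc 4 * ((j : ℝ) + 4) * (16 * C * Kh) ≤ 5 * j * (16 * C * Kh) := by gcongr
          _ = 5 * j * (16 * C) + 5 * j * (16 * C) * a := by rw [hKh]; ring
          _ ≤ δ ^ 2 * (U * V (Wj j)) := by linarith
      gcongr
    obtain ⟨κ0, hκ0⟩ : ∃ t : ℝ, t = 2 * Real.exp (-(4 * ((j : ℝ) + 4))) := ⟨_, rfl⟩
    rw [← hκ0] at hone
    have hκ00 : 0 ≤ κ0 := by rw [hκ0]; positivity
    calc μ (⋃ m ∈ range (2 ^ (j + 3)), ⋃ U ∈ F j, E j m U)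
        ≤ ∑ m ∈ range (2 ^ (j + 3)), μ (⋃ U ∈ F j, E j m U) :=
          measure_biUnion_finset_le _ _
      _ ≤ ∑ m ∈ range (2 ^ (j + 3)), ∑ U ∈ F j, μ (E j m U) := by
          gcongr with m hm
          exact measure_biUnion_finset_le _ _
      _ ≤ ∑ m ∈ range (2 ^ (j + 3)), ∑ U ∈ F j, ENNReal.ofReal κ0 := by
          gcongr with m hm U hU
          exact hone m hm U hU
      _ ≤ ∑ m ∈ range (2 ^ (j + 3)), ∑ U ∈ range (2 ^ (j + 3)), ENNReal.ofReal κ0 := by
          gcongr
          exact filter_subset _ _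
      _ = ENNReal.ofReal ((2 : ℝ) ^ (j + 3) * ((2 : ℝ) ^ (j + 3) * κ0)) := by
          rw [sum_const, sum_const, card_range, nsmul_eq_mul, nsmul_eq_mul]
          have hp0 : (0 : ℝ) ≤ (2 : ℝ) ^ (j + 3) := by positivity
          have : ENNReal.ofReal ((2 : ℝ) ^ (j + 3)) = ((2 ^ (j + 3) : ℕ) : ℝ≥0∞) := by
            rw [← ENNReal.ofReal_natCast]; push_cast; rfl
          rw [ENNReal.ofReal_mul hp0, ENNReal.ofReal_mul hp0, this]
      _ ≤ ENNReal.ofReal ((1 / 2 : ℝ) ^ j) := by
          refine ENNReal.ofReal_le_ofReal ?_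
          rw [hκ0]
          have h3 : Real.exp (-(4 * ((j : ℝ) + 4))) ≤ (1 / 16 : ℝ) ^ (j + 4) := by
            have h4 : Real.exp (-4) ≤ 1 / 16 := by
              rw [Real.exp_neg, ← one_div]
              refine one_div_le_one_div_of_le (by norm_num) ?_
              have h5 := Real.exp_one_gt_d9
              have h6 : Real.exp 4 = Real.exp 1 ^ 4 := by rw [← Real.exp_nat_mul]; norm_num
              rw [h6]
              have h7 : (2 : ℝ) ≤ Real.exp 1 := by linarith
              calc (16 : ℝ) = 2 ^ 4 := by norm_num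
                _ ≤ Real.exp 1 ^ 4 := by gcongr
            calc Real.exp (-(4 * ((j : ℝ) + 4))) = Real.exp (-4) ^ (j + 4) := by
                  rw [← Real.exp_nat_mul]; congr 1; push_cast; ring
              _ ≤ (1 / 16 : ℝ) ^ (j + 4) := by gcongr
          calc (2 : ℝ) ^ (j + 3) * ((2 : ℝ) ^ (j + 3) * (2 * Real.exp (-(4 * ((j : ℝ) + 4)))))
              ≤ 2 ^ (j + 3) * (2 ^ (j + 3) * (2 * (1 / 16 : ℝ) ^ (j + 4))) := by gcongr
            _ = (1 / 512) * (1 / 4) ^ j := by
                have : (1 / 16 : ℝ) ^ (j + 4) = (1 / 2) ^ (j + 3) * ((1 / 2) ^ (j + 3) *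
                    ((1 / 1024) * (1 / 4) ^ j)) := by
                  have e1 : (1 / 16 : ℝ) ^ (j + 4) = (1 / 2) ^ j * (1 / 2) ^ j * (1 / 4) ^ j *
                      (1 / 16) ^ 4 := by
                    rw [pow_add, ← mul_pow, ← mul_pow]; norm_num
                  rw [e1]; ring
                rw [this]
                have h5 : (2 : ℝ) ^ (j + 3) * (1 / 2) ^ (j + 3) = 1 := by
                  rw [← mul_pow]; norm_num
                calc (2 : ℝ) ^ (j + 3) * ((2 : ℝ) ^ (j + 3) * (2 * ((1 / 2) ^ (j + 3) *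
                    ((1 / 2) ^ (j + 3) * ((1 / 1024) * (1 / 4) ^ j)))))
                    = (2 ^ (j + 3) * (1 / 2) ^ (j + 3)) * (2 ^ (j + 3) * (1 / 2) ^ (j + 3)) *
                      (2 * ((1 / 1024) * (1 / 4) ^ j)) := by ring
                  _ = (1 / 512) * (1 / 4) ^ j := by rw [h5]; ring
            _ ≤ (1 / 2 : ℝ) ^ j := by
                have h6 : (1 / 4 : ℝ) ^ j ≤ (1 / 2) ^ j := by gcongr; norm_num
                have h7 : (0 : ℝ) ≤ (1 / 4 : ℝ) ^ j := by positivity
                linarith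
  have hbc := borel_cantelli_nat μ _ hmeas
  filter_upwards [hbc] with ω hω
  filter_upwards [hω] with j hj m hm U hU hΛU
  by_contra hcon
  refine hj ?_
  refine Set.mem_biUnion (x := m) (mem_coe.2 (mem_range.2 hm)) ?_
  refine Set.mem_biUnion (x := U) (mem_coe.2 (mem_filter.2 ⟨mem_range.2 hU, hΛU⟩)) ?_
  exact (not_le.1 hcon).le

end Pool.Agent.H532.RM
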