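import Mathlib
import Pool.Agent.H532.RM.Star

/-!
Large deviations of the number of the elements of a window: existence of extreme windows.
-/

namespace Pool.Agent.H532.RM

open Finset MeasureTheory Function ProbabilityTheory Filter
open scoped ENNReal Topology

section
variable {Ω : Type} [MeasurableSpace Ω] {μ : Measure Ω} [IsProbabilityMeasure μ]
  {A : ℕ → Ω → ℕ}

theorem ex_bound (hA : RandomClasses μ A) {W Z : ℕ} (hWZ : W ≤ Z) (hW : 0 < W) (U n J : ℕ)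
    (hUW : U ≤ W) (g C h : ℝ) (hg : -1 < g) (hC : |g| ≤ C * min 1 (1 + g)) (hC1 : 1 ≤ C)
    (h0 : 0 < h) (hh : h ≤ 1 / 2) (hCN : 10 * C * n ≤ W)
    (hgρ : |g * (V Z / V W)| ≤ h / 24) (b : ℝ) (hb : b = (1 + g) * (V Z / V W) * n)
    (Bs : Finset ℕ) (hBs : ∀ m ∈ Bs, m + U < 2 ^ J) (D0 : ℝ) (hD0 : 0 < D0)
    (Q : (ℕ → ℕ) → Prop) (hQdep : ∀ a a' : ℕ → ℕ, (∀ p ∈ primesLe W, a p = a' p) → Q a → Q a')
    (bad : ℕ → Prop)
    (hQ : ∀ a, Q a → ∃ M ⊆ Bs, D0 ≤ M.card ∧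
      (∀ m ∈ M, ∀ m' ∈ M, m ≠ m' → m + U ≤ m' ∨ m' + U ≤ m) ∧ ∃ S : ℕ → Finset ℕ, ∀ m ∈ M,
        InWin m U (S m) ∧ (S m).card = n ∧ ∀ a' : ℕ → ℕ,
          bad ((surv (OmD {0}) (bigP W Z) a' (TT {0} a (primesLe W) m U)).card) →
          ¬ ((1 - h) * b ≤ ((surv (OmD {0}) (bigP W Z) a' (S m)).card : ℝ) ∧
            ((surv (OmD {0}) (bigP W Z) a' (S m)).card : ℝ) ≤ (1 + h) * b)) :
    μ {ω | Q (fun p => A p ω) ∧ ∀ m ∈ Bs, bad (T1 (fun p => A p ω) Z m U)} ≤
      ENNReal.ofReal (4 * C ^ 2 * (n : ℝ) ^ 2 / W +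
        (Real.exp (2 * C ^ 2 * (n : ℝ) ^ 2 * J / W) - 1) +
        Real.exp (b * Real.log (1 + g) - g * (V Z / V W) * n + h * b * |Real.log (1 + g)| +
          2 * (g * (V Z / V W)) ^ 2 * n) / D0 + 4 * Real.exp (-(b * h ^ 2 / 12))) := by
  classical
  have := fun p => law_prob hA p
  set P := bigP W Z with hP
  have hPW : ∀ p ∈ P, W < p := fun p hp => (mem_bigP.1 hp).2
  have hPp : ∀ p ∈ P, p.Prime := fun p hp => (mem_bigP.1 hp).1.2
  have hρ : rho 1 P = V Z / V W := rho_bigP hWZ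
  rw [← hρ] at hgρ hb ⊢
  set err : ℝ := 4 * C ^ 2 * (n : ℝ) ^ 2 / W +
        (Real.exp (2 * C ^ 2 * (n : ℝ) ^ 2 * J / W) - 1) +
        Real.exp (b * Real.log (1 + g) - g * rho 1 P * n + h * b * |Real.log (1 + g)| +
          2 * (g * rho 1 P) ^ 2 * n) / D0 + 4 * Real.exp (-(b * h ^ 2 / 12)) with herr
  set f : (ℕ → ℕ) → ℝ≥0∞ := fun a => if Q a ∧ ∀ m ∈ Bs,
    bad ((surv (OmD {0}) P a (TT {0} a (primesLe W) m U)).card) then 1 else 0 with hf
  have hevdep : ∀ a a' : ℕ → ℕ, (∀ p ∈ primesLe Z, a p = a' p) →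
      ((Q a ∧ ∀ m ∈ Bs, bad ((surv (OmD {0}) P a (TT {0} a (primesLe W) m U)).card)) ↔
      (Q a' ∧ ∀ m ∈ Bs, bad ((surv (OmD {0}) P a' (TT {0} a' (primesLe W) m U)).card))) := by
    intro a a' haa
    have h1 : Q a ↔ Q a' :=
      ⟨hQdep a a' fun p hp => haa p (primesLe_mono hWZ hp),
        hQdep a' a fun p hp => (haa p (primesLe_mono hWZ hp)).symm⟩
    have h2 : ∀ m, surv (OmD {0}) P a (TT {0} a (primesLe W) m U) =
      surv (OmD {0}) P a' (TT {0} a' (primesLe W) m U) := fun m => dep_surv W Z m U hWZ a a' haa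
    simp only [h1, h2]
  have hdep : DepOn (primesLe Z) f := by
    intro a a' haa
    rw [hf]
    simp only
    rw [if_congr (hevdep a a' haa) rfl rfl]
  have hle := lintegral_le_of_lmarginal hA (primesLe Z) P (fun p hp => (mem_primesLe.1 hp).2)
    (filter_subset _ _) f hdep (ENNReal.ofReal err) (fun x => by
      have hQu : ∀ y : P → ℕ, (Q (updateFinset x P y) ↔ Q x) := by
        intro y
        have h1 : ∀ p ∈ primesLe W, updateFinset x P y p = x p := by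
          intro p hp
          rw [updateFinset_def]
          have : p ∉ P := fun h => by
            have := hPW p h
            have := (mem_primesLe.1 hp).1
            omega
          simp [this]
        exact ⟨hQdep _ _ h1, hQdep _ _ fun p hp => (h1 p hp).symm⟩
      by_cases hQx : Q x
      · obtain ⟨M, hMB, hMD, hMsep, S, hS⟩ := hQ x hQx
        have hMne : M.Nonempty := by
          rw [← card_pos]
          have : (0 : ℝ) < M.card := lt_of_lt_of_le hD0 hMD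
          exact_mod_cast this
        have hsm := sm_windows (law μ A) g C h hg hC hC1 h0 hh M hMne S id (U := U) (W := W)
          (N := n) (J := J) (P := P) hW (fun p hp => law_unif hA (hPp p hp)) hPp
          (fun m hm => (hS m hm).1) (fun m hm => (hS m hm).2.1)
          (fun m hm k hk => by
            have h1 := ((hS m hm).1 k hk).2
            have h2 := hBs m (hMB hm)
            omega)
          (fun m hm m' hm' hne => by
            rw [Finset.disjoint_left]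
            intro k hk hk'
            have h1 := (hS m hm).1 k hk
            have h2 := (hS m' hm').1 k hk'
            rcases hMsep m hm m' hm' hne with h3 | h3 <;> omega)
          hPW hUW hCN hgρ b hb x
        refine le_trans ?_ (hsm.trans (ENNReal.ofReal_le_ofReal ?_))
        · unfold lmarginal
          refine lintegral_mono fun y => ?_
          rw [hf]
          simp only
          split_ifs with h1 h2
          · exact le_rfl
          · exfalso
            refine h2 fun m hm => ?_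
            refine (hS m hm).2.2 _ ?_
            have h3 := h1.2 m (hMB hm)
            rwa [TT_update x W Z m U y] at h3
          · exact bot_le
          · exact le_rfl
        · rw [herr]
          gcongr
      · have : lmarginal (law μ A) P f x = 0 := by
          unfold lmarginal
          rw [hf]
          simp only [hQu, hQx, false_and, if_false, lintegral_zero]
        rw [this]
        exact bot_le)
  refine le_trans ?_ hle
  have hms : MeasurableSet {ω | Q (fun p => A p ω) ∧ ∀ m ∈ Bs,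
    bad ((surv (OmD {0}) P (fun p => A p ω) (TT {0} (fun p => A p ω) (primesLe W) m U)).card)} := by
    have hA' : Measurable (fun ω (p : ℕ) => A p ω) := measurable_pi_lambda _ hA.meas
    have h1 : Measurable (fun a : ℕ → ℕ => (Q a ∧ ∀ m ∈ Bs,
        bad ((surv (OmD {0}) P a (TT {0} a (primesLe W) m U)).card) : Prop)) := by
      refine DepOn.measurable (s := primesLe Z) ?_
      intro a a' haa
      exact propext (hevdep a a' haa)
    have h2 := h1.comp hA'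
    have e : {ω | Q (fun p => A p ω) ∧ ∀ m ∈ Bs,
      bad ((surv (OmD {0}) P (fun p => A p ω)
        (TT {0} (fun p => A p ω) (primesLe W) m U)).card)} =
      (fun ω => (Q (fun p => A p ω) ∧ ∀ m ∈ Bs,
        bad ((surv (OmD {0}) P (fun p => A p ω)
          (TT {0} (fun p => A p ω) (primesLe W) m U)).card) : Prop)) ⁻¹' {True} := by
      ext ω
      simp
    rw [e]
    exact h2 (measurableSet_singleton _)
  have hrw : ∫⁻ ω, f (fun p => A p ω) ∂μ =
      μ {ω | Q (fun p => A p ω) ∧ ∀ m ∈ Bs,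
    bad ((surv (OmD {0}) P (fun p => A p ω)
      (TT {0} (fun p => A p ω) (primesLe W) m U)).card)} := by
    rw [← lintegral_indicator_one hms]
    refine lintegral_congr fun ω => ?_
    rw [Set.indicator_apply]
    rfl
  rw [hrw]
  refine measure_mono_ae ?_
  filter_upwards [ae_lt hA] with ω hω h1
  refine ⟨h1.1, fun m hm => ?_⟩
  rw [surv_TT hWZ m U _ hω]
  exact h1.2 m hm

end

/-- Admissible parameters: `b` is the target number, `n` the number before the last step. -/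
structure Adm (η C3 h ρ : ℝ) (j n b : ℕ) : Prop where
  b1 : (j : ℝ) ≤ (b : ℝ) ^ 2
  bj : (b : ℝ) ≤ C3 * j
  nj : ρ * n ≤ C3 * j
  bn : (b : ℝ) ≤ h / 48 * n
  rt : rate b (ρ * n) + h * b * |Real.log (b / (ρ * n))| + 2 * (b - ρ * n) ^ 2 / n ≤
    (1 - η) * (j * Real.log 2)

/-- separated starting points -/
def Sep (U : ℕ) (M : Finset ℕ) : Prop :=
  ∀ m ∈ M, ∀ m' ∈ M, m ≠ m' → m + U ≤ m' ∨ m' + U ≤ m

/-- the blocks -/
def Blk (j k : ℕ) : Finset ℕ := Ico (k * 2 ^ (j - 1)) ((k + 1) * 2 ^ (j - 1))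

lemma pow3_le : ∀ᶠ j : ℕ in atTop, j ^ 3 ≤ 2 ^ (j - 1) := by
  have h1 := tendsto_pow_const_div_const_pow_of_one_lt 3 (show (1 : ℝ) < 2 by norm_num)
  filter_upwards [h1.eventually (gt_mem_nhds (show (0 : ℝ) < 1 / 2 by norm_num)),
    eventually_ge_atTop 1] with j hj hj1
  rw [div_lt_iff₀ (by positivity)] at hj
  have h2 : (j : ℝ) ^ 3 ≤ 2 ^ (j - 1) := by
    have : (2 : ℝ) ^ j = 2 ^ (j - 1) * 2 := by
      rw [← pow_succ]; congr 1; omega
    rw [this] at hj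
    linarith
  exact_mod_cast h2

lemma err_small (K h η : ℝ) (hh : 0 < h) (hη : 0 < η) : ∀ᶠ j : ℕ in atTop,
    4 * K / (j : ℝ) ^ 32 + 16 * K / (j : ℝ) ^ 31 + Real.exp (-(η / 2 * (j * Real.log 2))) +
      4 * Real.exp (-(Real.sqrt j * h ^ 2 / 12)) ≤ 1 / (j : ℝ) ^ 20 := by
  have hlog2 : (0 : ℝ) < Real.log 2 := Real.log_pos (by norm_num)
  have hj : Tendsto (fun j : ℕ => (j : ℝ)) atTop atTop := tendsto_natCast_atTop_atTop
  have hsq : Tendsto (fun j : ℕ => Real.sqrt j) atTop atTop :=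
    Real.tendsto_sqrt_atTop.comp hj
  have gen : ∀ (c : ℝ) (k : ℕ), 0 < c → Tendsto (fun x : ℝ => x ^ k * Real.exp (-(c * x)))
      atTop (𝓝 0) := by
    intro c k hc
    have h2 := (Real.tendsto_pow_mul_exp_neg_atTop_nhds_zero k).comp
      (tendsto_id.const_mul_atTop hc)
    have h3 := h2.const_mul ((1 / c) ^ k)
    rw [mul_zero] at h3
    refine h3.congr fun x => ?_
    simp only [comp_apply, id]
    rw [mul_pow, ← mul_assoc, ← mul_assoc, ← mul_pow, one_div, inv_mul_cancel₀ hc.ne', one_pow,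
      one_mul]
  have t1 : Tendsto (fun j : ℕ => (j : ℝ) ^ 20 * Real.exp (-((η / 2 * Real.log 2) * j))) atTop
      (𝓝 0) := (gen (η / 2 * Real.log 2) 20 (by positivity)).comp hj
  have t2 : Tendsto (fun j : ℕ => (Real.sqrt j) ^ 40 * Real.exp (-((h ^ 2 / 12) * Real.sqrt j)))
      atTop (𝓝 0) := (gen (h ^ 2 / 12) 40 (by positivity)).comp hsq
  filter_upwards [t1.eventually (gt_mem_nhds (show (0 : ℝ) < 1 / 4 by norm_num)),
    t2.eventually (gt_mem_nhds (show (0 : ℝ) < 1 / 16 by norm_num)),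
    hj.eventually_ge_atTop (80 * |K| + 1)] with j h1 h2 h3
  have hj1 : (1 : ℝ) ≤ j := by
    have := abs_nonneg K
    linarith
  have hKj : 80 * |K| ≤ (j : ℝ) := by linarith
  have hj0 : (0 : ℝ) < j := by linarith
  have e1 : Real.exp (-(η / 2 * (j * Real.log 2))) ≤ 1 / 4 / (j : ℝ) ^ 20 := by
    rw [le_div_iff₀ (by positivity)]
    have : Real.exp (-(η / 2 * (j * Real.log 2))) = Real.exp (-((η / 2 * Real.log 2) * j)) := by
      congr 1; ring
    rw [this]; linarith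
  have e2 : 4 * Real.exp (-(Real.sqrt j * h ^ 2 / 12)) ≤ 1 / 4 / (j : ℝ) ^ 20 := by
    rw [le_div_iff₀ (by positivity)]
    have h4 : Real.exp (-(Real.sqrt j * h ^ 2 / 12)) = Real.exp (-((h ^ 2 / 12) * Real.sqrt j)) := by
      congr 1; ring
    have h5 : (Real.sqrt j) ^ 40 = (j : ℝ) ^ 20 := by
      have : (Real.sqrt j) ^ 40 = ((Real.sqrt j) ^ 2) ^ 20 := by ring
      rw [this, Real.sq_sqrt hj0.le]
    rw [h4]
    rw [h5] at h2
    linarith
  have hK1 : K ≤ |K| := le_abs_self K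
  have e3 : 16 * K / (j : ℝ) ^ 31 ≤ 1 / 4 / (j : ℝ) ^ 20 := by
    rw [div_le_div_iff₀ (by positivity) (by positivity)]
    have h6 : (j : ℝ) ^ 31 = j ^ 20 * (j * j ^ 10) := by ring
    rw [h6]
    have h7 : (1 : ℝ) ≤ (j : ℝ) ^ 10 := one_le_pow₀ hj1
    have h8 : 16 * K ≤ 1 / 4 * (j * (j : ℝ) ^ 10) := by
      have : 1 / 4 * ((j : ℝ) * 1) ≤ 1 / 4 * (j * (j : ℝ) ^ 10) := by gcongr
      linarith [abs_nonneg K]
    calc 16 * K * (j : ℝ) ^ 20 ≤ 1 / 4 * (j * (j : ℝ) ^ 10) * (j : ℝ) ^ 20 := by gcongr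
      _ = 1 / 4 * ((j : ℝ) ^ 20 * (j * (j : ℝ) ^ 10)) := by ring
  have e4 : 4 * K / (j : ℝ) ^ 32 ≤ 1 / 4 / (j : ℝ) ^ 20 := by
    rw [div_le_div_iff₀ (by positivity) (by positivity)]
    have h6 : (j : ℝ) ^ 32 = j ^ 20 * (j * j ^ 11) := by ring
    rw [h6]
    have h7 : (1 : ℝ) ≤ (j : ℝ) ^ 11 := one_le_pow₀ hj1
    have h8 : 4 * K ≤ 1 / 4 * (j * (j : ℝ) ^ 11) := by
      have : 1 / 4 * ((j : ℝ) * 1) ≤ 1 / 4 * (j * (j : ℝ) ^ 11) := by gcongr
      linarith [abs_nonneg K]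
    calc 4 * K * (j : ℝ) ^ 20 ≤ 1 / 4 * (j * (j : ℝ) ^ 11) * (j : ℝ) ^ 20 := by gcongr
      _ = 1 / 4 * ((j : ℝ) ^ 20 * (j * (j : ℝ) ^ 11)) := by ring
  have e5 : 1 / (j : ℝ) ^ 20 = 1 / 4 / (j : ℝ) ^ 20 + 1 / 4 / (j : ℝ) ^ 20 +
      1 / 4 / (j : ℝ) ^ 20 + 1 / 4 / (j : ℝ) ^ 20 := by ring
  rw [e5]
  linarith

/-- the families of windows with many elements -/
def Qup (j k U n : ℕ) (D0 : ℝ) (a : ℕ → ℕ) : Prop := ∃ M ⊆ Blk j k, D0 ≤ (M.card : ℝ) ∧ Sep U M ∧
  ∀ m ∈ M, n ≤ T1 a (Wj j) m U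

/-- the families of windows with few elements -/
def Qdn (j k U n : ℕ) (D0 : ℝ) (a : ℕ → ℕ) : Prop := ∃ M ⊆ Blk j k, D0 ≤ (M.card : ℝ) ∧ Sep U M ∧
  ∀ m ∈ M, T1 a (Wj j) m U ≤ n

theorem star2_one (η C3 h : ℝ) (hη : 0 < η) (hC3 : 1 ≤ C3) (hh : 0 < h)
    (hh2 : h ≤ 1 / 2) : ∀ᶠ j : ℕ in atTop, ∀ {Ω : Type}
    [MeasurableSpace Ω] (μ : Measure Ω) [IsProbabilityMeasure μ] (A : ℕ → Ω → ℕ)
    (_ : RandomClasses μ A) (Z : ℕ) (_ : Wj j ≤ Z) (_ : 1 / V Z ≤ j)
    (_ : V Z / V (Wj j) ≤ h / 48) (k : ℕ) (_ : k < 5)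
    (U n b : ℕ) (_ : U ≤ j ^ 3) (_ : n ≤ U) (_ : Adm η C3 h (V Z / V (Wj j)) j n b),
    μ {ω | Qup j k U n (Real.exp ((1 - η / 2) * (j * Real.log 2))) (fun p => A p ω) ∧
      ∀ m ∈ Blk j k, (T1 (fun p => A p ω) Z m U : ℝ) < (1 - h) * b} ≤
        ENNReal.ofReal (1 / (j : ℝ) ^ 20) ∧
    μ {ω | Qdn j k U n (Real.exp ((1 - η / 2) * (j * Real.log 2))) (fun p => A p ω) ∧
      ∀ m ∈ Blk j k, (1 + h) * b < (T1 (fun p => A p ω) Z m U : ℝ)} ≤
        ENNReal.ofReal (1 / (j : ℝ) ^ 20) := by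
  classical
  filter_upwards [err_small ((C3 + 2) ^ 2) h η hh hη, pow3_le,
    (tendsto_natCast_atTop_atTop (R := ℝ)).eventually_ge_atTop (10 * (C3 + 2) ^ 2)] with
    j herr hp3 hjC
  intro Ω _ μ _ A hA Z hWZ hVZ hρh k hk U n b hU hnU hadm
  have hC32 : (9 : ℝ) ≤ (C3 + 2) ^ 2 := by nlinarith
  have hj90 : (90 : ℝ) ≤ j := by linarith
  have hj0 : (0 : ℝ) < j := by linarith
  have hjn : 0 < j := by exact_mod_cast hj0
  have hVW := V_pos (Wj j)
  have hVZp := V_pos Z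
  set ρ := V Z / V (Wj j) with hρ
  have hρ0 : 0 < ρ := by positivity
  have hVW1 : V (Wj j) ≤ 1 := by
    unfold V
    refine prod_le_one (fun p hp => ?_) (fun p hp => ?_)
    · have : (1 : ℝ) ≤ p := by exact_mod_cast (mem_primesLe.1 hp).2.one_lt.le
      rw [sub_nonneg, div_le_one (by linarith)]
      exact this
    · have : (0 : ℝ) ≤ 1 / (p : ℝ) := by positivity
      linarith
  have hρj : 1 / ρ ≤ j := by
    rw [hρ, one_div_div]
    refine le_trans ?_ hVZ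
    gcongr
  obtain ⟨hb1, hbj, hnj, hbn, hrt⟩ := hadm
  have hb0 : (0 : ℝ) < b := by
    rcases Nat.eq_zero_or_pos b with h0 | h0
    · rw [h0] at hb1
      norm_num at hb1
      linarith
    · exact_mod_cast h0
  have hb1' : (1 : ℝ) ≤ b := by
    have : 0 < b := by exact_mod_cast hb0
    exact_mod_cast this
  have hn0 : (0 : ℝ) < n := by
    by_contra hneg
    have : (n : ℝ) = 0 := le_antisymm (not_lt.1 hneg) (Nat.cast_nonneg n)
    rw [this] at hbn
    linarith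
  have hρn : 0 < ρ * n := by positivity
  set t : ℝ := b / (ρ * n) with ht
  have ht0 : 0 < t := by positivity
  have htj : t ≤ j := by
    have h1 : t ≤ 1 / ρ := by
      rw [ht, div_le_div_iff₀ hρn hρ0]
      have : (b : ℝ) ≤ n := by
        have : h / 48 * (n : ℝ) ≤ 1 * n := by
          have : h / 48 ≤ 1 := by linarith
          gcongr
        linarith
      nlinarith
    linarith
  have htC : 1 ≤ C3 * j * t := by
    rw [ht, mul_div_assoc', le_div_iff₀ hρn, one_mul]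
    have : C3 * (j : ℝ) * 1 ≤ C3 * j * b := by gcongr
    linarith
  set C : ℝ := (C3 + 2) * j with hC
  have hC1 : 1 ≤ C := by rw [hC]; nlinarith
  have hgC : |t - 1| ≤ C * min 1 (1 + (t - 1)) := by
    have e : 1 + (t - 1) = t := by ring
    rw [e]
    have h3 : |t - 1| ≤ C := by
      rw [abs_le, hC]
      constructor <;> nlinarith
    have h4 : |t - 1| ≤ C * t := by
      have h5 : |t - 1| ≤ t + 1 := by
        rw [abs_le]; constructor <;> linarith
      rw [hC]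
      nlinarith
    rcases le_total 1 t with h6 | h6
    · rw [min_eq_left h6]; linarith
    · rw [min_eq_right h6]; exact h4
  have hnr : (n : ℝ) ≤ (j : ℝ) ^ 3 := by exact_mod_cast hnU.trans hU
  have hWr : ((Wj j : ℕ) : ℝ) = (j : ℝ) ^ 40 := by unfold Wj; push_cast; rfl
  have hWpos : 0 < Wj j := by unfold Wj; positivity
  have hUW : U ≤ Wj j := hU.trans (by unfold Wj; exact Nat.pow_le_pow_right hjn (by norm_num))
  have hCN : 10 * C * n ≤ (Wj j : ℕ) := by
    rw [hWr, hC]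
    have h1 : 10 * (C3 + 2) ≤ (j : ℝ) := by nlinarith
    calc 10 * ((C3 + 2) * j) * (n : ℝ) ≤ 10 * ((C3 + 2) * j) * (j : ℝ) ^ 3 := by gcongr
      _ = (10 * (C3 + 2)) * (j : ℝ) ^ 4 := by ring
      _ ≤ j * (j : ℝ) ^ 4 := by gcongr
      _ = (j : ℝ) ^ 5 := by ring
      _ ≤ (j : ℝ) ^ 40 := pow_le_pow_right₀ (by linarith) (by norm_num)
  have egr : (t - 1) * ρ = b / n - ρ := by
    rw [ht]; field_simp
  have hgρ : |(t - 1) * ρ| ≤ h / 24 := by
    rw [egr]
    have h1 : (b : ℝ) / n ≤ h / 48 := by rw [div_le_iff₀ hn0]; exact hbn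
    have h2 : 0 ≤ (b : ℝ) / n := by positivity
    rw [abs_le]
    constructor <;> linarith
  have hbt : (b : ℝ) = (1 + (t - 1)) * ρ * n := by
    rw [ht]; field_simp; ring
  have hBs : ∀ m ∈ Blk j k, m + U < 2 ^ (j + 3) := by
    intro m hm
    have h1 := (mem_Ico.1 hm).2
    have h2 : (k + 1) * 2 ^ (j - 1) ≤ 5 * 2 ^ (j - 1) := Nat.mul_le_mul_right _ (by omega)
    have h3 : 2 ^ (j + 3) = 16 * 2 ^ (j - 1) := by
      have : j + 3 = 4 + (j - 1) := by omega
      rw [this, pow_add]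
      norm_num
    have h4 : 0 < 2 ^ (j - 1) := by positivity
    omega
  set L : ℝ := j * Real.log 2 with hL
  set D0 : ℝ := Real.exp ((1 - η / 2) * L) with hD0
  have herr' : 4 * C ^ 2 * (n : ℝ) ^ 2 / (Wj j : ℕ) +
        (Real.exp (2 * C ^ 2 * (n : ℝ) ^ 2 * ((j + 3 : ℕ) : ℝ) / (Wj j : ℕ)) - 1) +
        Real.exp (b * Real.log (1 + (t - 1)) - (t - 1) * ρ * n +
          h * b * |Real.log (1 + (t - 1))| +
          2 * ((t - 1) * ρ) ^ 2 * n) / D0 + 4 * Real.exp (-(b * h ^ 2 / 12)) ≤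
      1 / (j : ℝ) ^ 20 := by
    refine le_trans ?_ herr
    have k1 : 4 * C ^ 2 * (n : ℝ) ^ 2 / (Wj j : ℕ) ≤ 4 * (C3 + 2) ^ 2 / (j : ℝ) ^ 32 := by
      rw [hWr, hC]
      calc 4 * ((C3 + 2) * (j : ℝ)) ^ 2 * (n : ℝ) ^ 2 / (j : ℝ) ^ 40
          ≤ 4 * ((C3 + 2) * (j : ℝ)) ^ 2 * ((j : ℝ) ^ 3) ^ 2 / (j : ℝ) ^ 40 := by gcongr
        _ = 4 * (C3 + 2) ^ 2 / (j : ℝ) ^ 32 := by
          field_simp
    have k2 : Real.exp (2 * C ^ 2 * (n : ℝ) ^ 2 * ((j + 3 : ℕ) : ℝ) / (Wj j : ℕ)) - 1 ≤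
        16 * (C3 + 2) ^ 2 / (j : ℝ) ^ 31 := by
      have x1 : 2 * C ^ 2 * (n : ℝ) ^ 2 * ((j + 3 : ℕ) : ℝ) / (Wj j : ℕ) ≤
          8 * (C3 + 2) ^ 2 / (j : ℝ) ^ 31 := by
        rw [hWr, hC]
        push_cast
        calc 2 * ((C3 + 2) * (j : ℝ)) ^ 2 * (n : ℝ) ^ 2 * ((j : ℝ) + 3) / (j : ℝ) ^ 40
            ≤ 2 * ((C3 + 2) * (j : ℝ)) ^ 2 * ((j : ℝ) ^ 3) ^ 2 * (4 * j) / (j : ℝ) ^ 40 := by
              gcongr
              linarith
          _ = 8 * (C3 + 2) ^ 2 / (j : ℝ) ^ 31 := by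
            field_simp
            ring
      have x2 : 8 * (C3 + 2) ^ 2 / (j : ℝ) ^ 31 ≤ 1 := by
        rw [div_le_one (by positivity)]
        calc 8 * (C3 + 2) ^ 2 ≤ (j : ℝ) ^ 1 := by rw [pow_one]; linarith
          _ ≤ (j : ℝ) ^ 31 := pow_le_pow_right₀ (by linarith) (by norm_num)
      have x0 : 0 ≤ 2 * C ^ 2 * (n : ℝ) ^ 2 * ((j + 3 : ℕ) : ℝ) / (Wj j : ℕ) := by positivity
      have x3 := exp_le_one_add_two_mul x0 (x1.trans x2)
      have x4 : 16 * (C3 + 2) ^ 2 / (j : ℝ) ^ 31 = 2 * (8 * (C3 + 2) ^ 2 / (j : ℝ) ^ 31) := by ring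
      rw [x4]
      linarith
    have k3 : Real.exp (b * Real.log (1 + (t - 1)) - (t - 1) * ρ * n +
          h * b * |Real.log (1 + (t - 1))| +
          2 * ((t - 1) * ρ) ^ 2 * n) / D0 ≤ Real.exp (-(η / 2 * L)) := by
      rw [hD0, ← Real.exp_sub]
      refine Real.exp_le_exp.2 ?_
      have e1 : 1 + (t - 1) = t := by ring
      have e2 : (t - 1) * ρ * n = b - ρ * n := by
        rw [ht]; field_simp
      have e3 : ((t - 1) * ρ) ^ 2 * n = (b - ρ * n) ^ 2 / n := by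
        have : (t - 1) * ρ = (b - ρ * n) / n := by rw [← e2]; field_simp
        rw [this]; field_simp
      have e4 : 2 * ((t - 1) * ρ) ^ 2 * n = 2 * (b - ρ * n) ^ 2 / n := by
        rw [mul_assoc, e3]; ring
      rw [e4, e1, e2]
      unfold rate at hrt
      rw [← ht] at hrt
      linarith
    have k4 : 4 * Real.exp (-(b * h ^ 2 / 12)) ≤ 4 * Real.exp (-(Real.sqrt j * h ^ 2 / 12)) := by
      have : Real.sqrt j ≤ b := by
        rw [Real.sqrt_le_left hb0.le]; exact hb1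
      gcongr
    linarith
  have hVdep : ∀ (a a' : ℕ → ℕ), (∀ p ∈ primesLe (Wj j), a p = a' p) → ∀ m,
      T1 a (Wj j) m U = T1 a' (Wj j) m U := by
    intro a a' haa m
    unfold T1
    rw [TT_congr {0} a a' (primesLe (Wj j)) m U fun p hp => by rw [haa p hp]]
  constructor
  · have hex := ex_bound hA hWZ hWpos U n (j + 3) hUW (t - 1) C h (by linarith) hgC hC1 hh hh2
      hCN hgρ b hbt (Blk j k) hBs D0 (Real.exp_pos _) (Qup j k U n D0)
      (fun a a' haa => by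
        rintro ⟨M, h1, h2, h3, h4⟩
        exact ⟨M, h1, h2, h3, fun m hm => by rw [← hVdep a a' haa m]; exact h4 m hm⟩)
      (fun c => (c : ℝ) < (1 - h) * b)
      (fun a hQ => by
        obtain ⟨M, h1, h2, h3, h4⟩ := hQ
        refine ⟨M, h1, h2, h3, ?_⟩
        have h5 : ∀ m, ∃ S : Finset ℕ, m ∈ M → S ⊆ TT {0} a (primesLe (Wj j)) m U ∧ S.card = n := by
          intro m
          by_cases hm : m ∈ M
          · obtain ⟨S, hS1, hS2⟩ := exists_subset_card_eq (h4 m hm)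
            exact ⟨S, fun _ => ⟨hS1, hS2⟩⟩
          · exact ⟨∅, fun h => absurd h hm⟩
        choose S hS using h5
        refine ⟨S, fun m hm => ?_⟩
        obtain ⟨hS1, hS2⟩ := hS m hm
        refine ⟨fun k hk => inWin_TT a _ m U k (hS1 hk), hS2, fun a' hbad hgood => ?_⟩
        have h6 : ((surv (OmD {0}) (bigP (Wj j) Z) a' (S m)).card : ℝ) ≤
            ((surv (OmD {0}) (bigP (Wj j) Z) a' (TT {0} a (primesLe (Wj j)) m U)).card : ℝ) := by
          exact_mod_cast card_le_card (filter_subset_filter _ hS1)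
        linarith [hgood.1])
    exact hex.trans (ENNReal.ofReal_le_ofReal herr')
  · have hex := ex_bound hA hWZ hWpos U n (j + 3) hUW (t - 1) C h (by linarith) hgC hC1 hh hh2
      hCN hgρ b hbt (Blk j k) hBs D0 (Real.exp_pos _) (Qdn j k U n D0)
      (fun a a' haa => by
        rintro ⟨M, h1, h2, h3, h4⟩
        exact ⟨M, h1, h2, h3, fun m hm => by rw [← hVdep a a' haa m]; exact h4 m hm⟩)
      (fun c => (1 + h) * b < (c : ℝ))
      (fun a hQ => by
        obtain ⟨M, h1, h2, h3, h4⟩ := hQ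
        refine ⟨M, h1, h2, h3, ?_⟩
        have h5 : ∀ m, ∃ S : Finset ℕ, m ∈ M → TT {0} a (primesLe (Wj j)) m U ⊆ S ∧
            S ⊆ Ioc m (m + U) ∧ S.card = n := by
          intro m
          by_cases hm : m ∈ M
          · obtain ⟨S, hS1, hS2, hS3⟩ := exists_subsuperset_card_eq
              (s := TT {0} a (primesLe (Wj j)) m U) (t := Ioc m (m + U)) (n := n)
              (filter_subset _ _) (h4 m hm) (by rw [Nat.card_Ioc]; omega)
            exact ⟨S, fun _ => ⟨hS1, hS2, hS3⟩⟩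
          · exact ⟨∅, fun h => absurd h hm⟩
        choose S hS using h5
        refine ⟨S, fun m hm => ?_⟩
        obtain ⟨hS1, hS2, hS3⟩ := hS m hm
        refine ⟨fun k hk => mem_Ioc.1 (hS2 hk), hS3, fun a' hbad hgood => ?_⟩
        have h6 : ((surv (OmD {0}) (bigP (Wj j) Z) a' (TT {0} a (primesLe (Wj j)) m U)).card : ℝ) ≤
            ((surv (OmD {0}) (bigP (Wj j) Z) a' (S m)).card : ℝ) := by
          exact_mod_cast card_le_card (filter_subset_filter _ hS1)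
        linarith [hgood.2])
    exact hex.trans (ENNReal.ofReal_le_ofReal herr')

/-- Existence of the extreme windows in every block. -/
theorem star2 (η C3 h : ℝ) (hη : 0 < η) (hC3 : 1 ≤ C3) (hh : 0 < h) (hh2 : h ≤ 1 / 2)
    {Ω : Type} [MeasurableSpace Ω] (μ : Measure Ω) [IsProbabilityMeasure μ] (A : ℕ → Ω → ℕ)
    (hA : RandomClasses μ A) (Z : ℕ → ℕ)
    (hZ1 : ∀ᶠ j : ℕ in atTop, 1 / V (Z j) ≤ j)
    (hZ2 : ∀ᶠ j : ℕ in atTop, V (Z j) / V (Wj j) ≤ h / 48)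
    (hZW : ∀ᶠ j : ℕ in atTop, Wj j ≤ Z j) :
    ∀ᵐ ω ∂μ, ∀ᶠ j : ℕ in atTop, ∀ k < 5, ∀ U ≤ j ^ 3, ∀ n ≤ U, ∀ b ≤ U,
      Adm η C3 h (V (Z j) / V (Wj j)) j n b →
      (Qup j k U n (Real.exp ((1 - η / 2) * (j * Real.log 2))) (fun p => A p ω) →
        ∃ m ∈ Blk j k, (1 - h) * b ≤ (T1 (fun p => A p ω) (Z j) m U : ℝ)) ∧
      (Qdn j k U n (Real.exp ((1 - η / 2) * (j * Real.log 2))) (fun p => A p ω) →
        ∃ m ∈ Blk j k, (T1 (fun p => A p ω) (Z j) m U : ℝ) ≤ (1 + h) * b) := by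
  classical
  set Ev : ℕ → ℕ → ℕ → ℕ → ℕ → Set Ω := fun j k U n b =>
    {ω | (Qup j k U n (Real.exp ((1 - η / 2) * (j * Real.log 2))) (fun p => A p ω) ∧
        ∀ m ∈ Blk j k, (T1 (fun p => A p ω) (Z j) m U : ℝ) < (1 - h) * b)} ∪
    {ω | (Qdn j k U n (Real.exp ((1 - η / 2) * (j * Real.log 2))) (fun p => A p ω) ∧
      ∀ m ∈ Blk j k, (1 + h) * b < (T1 (fun p => A p ω) (Z j) m U : ℝ))} with hEv
  set F : ℕ → Finset (ℕ × ℕ × ℕ × ℕ) := fun j => (range 5 ×ˢ range (j ^ 3 + 1) ×ˢ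
    range (j ^ 3 + 1) ×ˢ range (j ^ 3 + 1)).filter (fun q => q.2.2.1 ≤ q.2.1 ∧
      Adm η C3 h (V (Z j) / V (Wj j)) j q.2.2.1 q.2.2.2) with hF
  set E : ℕ → Set Ω := fun j => ⋃ q ∈ F j, Ev j q.1 q.2.1 q.2.2.1 q.2.2.2 with hE
  have hmeas : ∀ᶠ j : ℕ in atTop, μ (E j) ≤ ENNReal.ofReal (1 / (j : ℝ) ^ 2) := by
    filter_upwards [star2_one η C3 h hη hC3 hh hh2, hZ1, hZ2, hZW, eventually_ge_atTop 2]
      with j hone h1 h2 h3 hj2
    have hjr : (2 : ℝ) ≤ j := by exact_mod_cast hj2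
    have hj0 : (0 : ℝ) < j := by linarith
    have hq : ∀ q ∈ F j, μ (Ev j q.1 q.2.1 q.2.2.1 q.2.2.2) ≤
        ENNReal.ofReal (2 / (j : ℝ) ^ 20) := by
      intro q hq
      obtain ⟨hq1, hq2, hq3⟩ := mem_filter.1 hq
      simp only [mem_product, mem_range] at hq1
      obtain ⟨g1, g2⟩ := hone μ A hA (Z j) h3 h1 h2 q.1 hq1.1 q.2.1 q.2.2.1 q.2.2.2
        (by omega) hq2 hq3
      refine (measure_union_le _ _).trans ?_
      calc _ ≤ ENNReal.ofReal (1 / (j : ℝ) ^ 20) + ENNReal.ofReal (1 / (j : ℝ) ^ 20) :=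
            add_le_add g1 g2
        _ = ENNReal.ofReal (2 / (j : ℝ) ^ 20) := by
            rw [← ENNReal.ofReal_add (by positivity) (by positivity)]
            congr 1; ring
    calc μ (E j) ≤ ∑ q ∈ F j, μ (Ev j q.1 q.2.1 q.2.2.1 q.2.2.2) :=
          measure_biUnion_finset_le _ _
      _ ≤ ∑ q ∈ F j, ENNReal.ofReal (2 / (j : ℝ) ^ 20) := sum_le_sum hq
      _ = (F j).card * ENNReal.ofReal (2 / (j : ℝ) ^ 20) := by rw [sum_const, nsmul_eq_mul]
      _ ≤ ENNReal.ofReal (5 * ((j : ℝ) ^ 3 + 1) ^ 3) * ENNReal.ofReal (2 / (j : ℝ) ^ 20) := by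
          gcongr
          rw [← ENNReal.ofReal_natCast]
          refine ENNReal.ofReal_le_ofReal ?_
          have h4 : (F j).card ≤ 5 * (j ^ 3 + 1) ^ 3 := by
            refine (card_filter_le _ _).trans (le_of_eq ?_)
            simp only [card_product, card_range]
            ring
          exact_mod_cast h4
      _ ≤ ENNReal.ofReal (1 / (j : ℝ) ^ 2) := by
          rw [← ENNReal.ofReal_mul (by positivity)]
          refine ENNReal.ofReal_le_ofReal ?_
          have h5 : ((j : ℝ) ^ 3 + 1) ^ 3 ≤ 8 * (j : ℝ) ^ 9 := by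
            have h4 : (j : ℝ) ^ 3 + 1 ≤ 2 * (j : ℝ) ^ 3 := by
              have : (1 : ℝ) ≤ (j : ℝ) ^ 3 := one_le_pow₀ (by linarith)
              linarith
            calc ((j : ℝ) ^ 3 + 1) ^ 3 ≤ (2 * (j : ℝ) ^ 3) ^ 3 := by gcongr
              _ = 8 * (j : ℝ) ^ 9 := by ring
          have h6 : (80 : ℝ) ≤ (j : ℝ) ^ 9 := by
            calc (80 : ℝ) ≤ 2 ^ 9 := by norm_num
              _ ≤ (j : ℝ) ^ 9 := by gcongr
          calc 5 * ((j : ℝ) ^ 3 + 1) ^ 3 * (2 / (j : ℝ) ^ 20) ≤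
              5 * (8 * (j : ℝ) ^ 9) * (2 / (j : ℝ) ^ 20) := by gcongr
            _ = 80 / (j : ℝ) ^ 9 * (1 / (j : ℝ) ^ 2) := by field_simp; ring
            _ ≤ 1 * (1 / (j : ℝ) ^ 2) := by
                gcongr
                rw [div_le_one (by positivity)]; exact h6
            _ = 1 / (j : ℝ) ^ 2 := one_mul _
  have hbc := borel_cantelli_sq μ E hmeas
  filter_upwards [hbc] with ω hω
  filter_upwards [hω] with j hj k hk U hU n hn b hb hadm
  have hmemF : (k, U, n, b) ∈ F j := by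
    rw [hF]
    refine mem_filter.2 ⟨?_, hn, hadm⟩
    simp only [mem_product, mem_range]
    omega
  have hnot : ω ∉ Ev j k U n b := fun hmem =>
    hj (Set.mem_biUnion (x := (k, U, n, b)) (mem_coe.2 hmemF) hmem)
  rw [hEv] at hnot
  simp only [Set.mem_union, Set.mem_setOf_eq, not_or, not_and] at hnot
  constructor
  · intro hQ
    have := hnot.1 hQ
    push Not at this
    exact this
  · intro hQ
    have := hnot.2 hQ
    push Not at this
    exact this

end Pool.Agent.H532.RM
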