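import Mathlib
import Pool.Agent.H532.RM.Conc
import Pool.Agent.H532.RM.Crt

/-!
Windows of a dyadic block: the extremal numbers of elements, in terms of the interval sieve.
-/

namespace Pool.Agent.H532.RM

open Finset MeasureTheory Function ProbabilityTheory Filter
open scoped ENNReal Topology

/-- normalised maximum and minimum of the interval sieve -/
noncomputable def rp (U ζ : ℕ) : ℝ := smax U ζ / (U * V ζ)
/-- normalised minimum -/
noncomputable def rm (U ζ : ℕ) : ℝ := smin U ζ / (U * V ζ)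

lemma rp_nonneg (U ζ : ℕ) : 0 ≤ rp U ζ := by
  have := (V_pos ζ).le
  unfold rp; positivity

lemma rm_nonneg (U ζ : ℕ) : 0 ≤ rm U ζ := by
  have := (V_pos ζ).le
  unfold rm; positivity

lemma smin_le_smax (U ζ : ℕ) : smin U ζ ≤ smax U ζ := (smin_le 0 U ζ).trans (le_smax 0 U ζ)

lemma rm_le_rp (U ζ : ℕ) : rm U ζ ≤ rp U ζ := by
  have := (V_pos ζ).le
  have h : (smin U ζ : ℝ) ≤ smax U ζ := by exact_mod_cast smin_le_smax U ζ
  unfold rm rp
  gcongr

/-- `V (j / 4) / V (w_j) → 1`. -/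
lemma V_v_w : Tendsto (fun j : ℕ => V (j / 4) / V (wj j)) atTop (𝓝 1) := by
  refine V_ratio (fun j => j / 4) wj ?_ wj_tendsto ?_
  · refine tendsto_atTop.2 fun B => ?_
    filter_upwards [eventually_ge_atTop (4 * B)] with j hj
    omega
  · -- log (j/4) / log (w_j) → 1
    have h1 : Tendsto (fun j : ℕ => Real.log (j : ℝ)) atTop atTop :=
      Real.tendsto_log_atTop.comp tendsto_natCast_atTop_atTop
    -- lower bound: log(j/4) ≥ log j - 3 ; upper: log(wj) ≤ log j + 3 log (2 log j)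
    have hup : ∀ᶠ j : ℕ in atTop, Real.log (j / 4 : ℕ) / Real.log (wj j) ≤ 1 := by
      filter_upwards [eventually_ge_atTop 16, nlog_tendsto.eventually_ge_atTop 1] with j hj hl
      have h2 : j ≤ wj j := by
        unfold wj
        calc j = j * 1 := (mul_one j).symm
          _ ≤ _ := Nat.mul_le_mul_left _ (Nat.one_le_pow _ _ hl)
      have h3 : (4 : ℕ) ≤ j / 4 := by omega
      have h4 : 0 < Real.log (wj j) := Real.log_pos (by exact_mod_cast (by omega : 1 < wj j))
      rw [div_le_one h4]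
      refine Real.log_le_log (by exact_mod_cast (by omega : 0 < j / 4)) ?_
      exact_mod_cast (by omega : j / 4 ≤ wj j)
    have hlow : ∀ᶠ j : ℕ in atTop, (Real.log j - 3) / (Real.log j + 3 * Real.log (2 * Real.log j)) ≤
        Real.log (j / 4 : ℕ) / Real.log (wj j) := by
      filter_upwards [eventually_ge_atTop 16, nlog_tendsto.eventually_ge_atTop 1,
        h1.eventually_ge_atTop 3] with j hj hl hlog
      have hj0 : (16 : ℝ) ≤ j := by exact_mod_cast hj
      have h2 : j ≤ wj j := by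
        unfold wj
        calc j = j * 1 := (mul_one j).symm
          _ ≤ _ := Nat.mul_le_mul_left _ (Nat.one_le_pow _ _ hl)
      have h4 : 0 < Real.log (wj j) := Real.log_pos (by exact_mod_cast (by omega : 1 < wj j))
      have hl1 : (1 : ℝ) ≤ Nat.log 2 j := by exact_mod_cast hl
      have h9 : (Nat.log 2 j : ℝ) * Real.log 2 ≤ Real.log j := by
        rw [← Real.log_pow]
        refine Real.log_le_log (by positivity) ?_
        exact_mod_cast Nat.pow_log_le_self 2 (by omega)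
      have h10 : (Nat.log 2 j : ℝ) ≤ 2 * Real.log j := by
        have := Real.log_two_gt_d9
        nlinarith
      have h5 : Real.log (wj j) ≤ Real.log j + 3 * Real.log (2 * Real.log j) := by
        have e : (wj j : ℝ) = j * (Nat.log 2 j : ℝ) ^ 3 := by unfold wj; push_cast; rfl
        rw [e, Real.log_mul (by linarith) (by positivity), Real.log_pow]
        push_cast
        have := Real.log_le_log (by linarith) h10
        linarith
      have h6 : Real.log j - 3 ≤ Real.log (j / 4 : ℕ) := by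
        have h7 : (j : ℝ) / 8 ≤ ((j / 4 : ℕ) : ℝ) := by
          have : j ≤ 8 * (j / 4) := by omega
          have h8 : (j : ℝ) ≤ 8 * ((j / 4 : ℕ) : ℝ) := by exact_mod_cast this
          linarith
        have h8 : Real.log ((j : ℝ) / 8) ≤ Real.log (j / 4 : ℕ) :=
          Real.log_le_log (by positivity) h7
        rw [Real.log_div (by linarith) (by norm_num)] at h8
        have h11 : Real.log 8 ≤ 3 := by
          have : Real.log 8 = 3 * Real.log 2 := by
            rw [show (8 : ℝ) = 2 ^ 3 by norm_num, Real.log_pow]; push_cast; ring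
          have := Real.log_two_lt_d9
          linarith
        linarith
      have h12 : 0 ≤ Real.log j - 3 := by linarith
      calc (Real.log j - 3) / (Real.log j + 3 * Real.log (2 * Real.log j)) ≤
          (Real.log j - 3) / Real.log (wj j) := by gcongr
        _ ≤ Real.log (j / 4 : ℕ) / Real.log (wj j) := by gcongr
    have hlim : Tendsto (fun x : ℝ => (x - 3) / (x + 3 * Real.log (2 * x))) atTop (𝓝 1) := by
      have h2 : Tendsto (fun x : ℝ => 3 * Real.log (2 * x) / x) atTop (𝓝 0) := by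
        have h3 : Tendsto (fun x : ℝ => Real.log x / x) atTop (𝓝 0) :=
          Real.isLittleO_log_id_atTop.tendsto_div_nhds_zero
        have h4 : Tendsto (fun x : ℝ => 3 * Real.log 2 / x) atTop (𝓝 0) :=
          tendsto_const_nhds.div_atTop tendsto_id
        have h5 := (h3.const_mul 3).add h4
        rw [mul_zero, zero_add] at h5
        refine h5.congr' ?_
        filter_upwards [eventually_gt_atTop 0] with x hx
        rw [Real.log_mul (by norm_num) hx.ne']
        field_simp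
        ring
      have h6 : Tendsto (fun x : ℝ => 3 / x) atTop (𝓝 0) :=
        tendsto_const_nhds.div_atTop tendsto_id
      have h7 := (h6.const_sub 1).div (h2.const_add 1) (by norm_num)
      simp only [sub_zero, add_zero, div_one] at h7
      refine h7.congr' ?_
      filter_upwards [eventually_gt_atTop 0] with x hx
      simp only [Pi.div_apply]
      field_simp
    exact tendsto_of_tendsto_of_tendsto_of_le_of_le' (hlim.comp h1) tendsto_const_nhds hlow hup

/-- the set used below: windows of a block -/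
def BlockOK (a : ℕ → ℕ) (Z : ℕ → ℕ) (δ : ℝ) (Λ j : ℕ) : Prop :=
  ∀ U : ℕ, Λ * j ^ 2 ≤ U → U < 2 ^ (j + 3) → ∀ ζ : ℕ, j / 4 ≤ ζ → ζ ≤ wj j →
    (∀ m < 2 ^ (j + 3), rm U ζ - δ ≤ (T1 a (Z j) m U : ℝ) * (j * Real.log 2) / U ∧
      (T1 a (Z j) m U : ℝ) * (j * Real.log 2) / U ≤ rp U ζ + δ) ∧
    (∀ B : ℕ, B + 4 ^ (j / 4) ≤ 2 ^ (j + 3) →
      (∃ x, B ≤ x ∧ x < B + 4 ^ (j / 4) ∧
        rp U ζ - δ ≤ (T1 a (Z j) x U : ℝ) * (j * Real.log 2) / U) ∧
      (∃ x, B ≤ x ∧ x < B + 4 ^ (j / 4) ∧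
        (T1 a (Z j) x U : ℝ) * (j * Real.log 2) / U ≤ rm U ζ + δ))

/-- the normalised maximum is bounded -/
lemma rp_bdd : ∃ C : ℝ, 0 < C ∧ ∃ ζ0 : ℕ, ∀ ζ : ℕ, ζ0 ≤ ζ → ∀ U : ℕ, 0 < U → ζ ≤ U ^ 2 →
    rp U ζ ≤ C := by
  obtain ⟨C2, hC2, ζ2, hup⟩ := upper
  refine ⟨C2, hC2, ζ2, fun ζ hζ U hU hζU => ?_⟩
  obtain ⟨m, hm⟩ := exists_smax U ζ
  have h1 := hup ζ hζ U hζU (fun _ => 0) m
  rw [hm] at h1
  have hVζ := V_pos ζ
  have hUr : (0 : ℝ) < U := by exact_mod_cast hU
  unfold rp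
  rw [div_le_iff₀ (by positivity)]
  exact h1

/-- pure algebra: from `T1 a w` to `T1 a Z` -/
lemma transfer_le {T T' U L VZ Vw δ1 : ℝ} (hU : 0 < U) (hL : 0 < L) (hVw : 0 < Vw)
    (h : |T - VZ / Vw * T'| ≤ δ1 * (U / L)) :
    |T * L / U - (VZ * L) * (T' / (U * Vw))| ≤ δ1 := by
  have e : T * L / U - (VZ * L) * (T' / (U * Vw)) = (T - VZ / Vw * T') * (L / U) := by
    field_simp
  rw [e, abs_mul, abs_of_pos (by positivity : 0 < L / U)]
  calc |T - VZ / Vw * T'| * (L / U) ≤ δ1 * (U / L) * (L / U) := by gcongr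
    _ = δ1 := by field_simp

theorem thmB_block (δ : ℝ) (hδ : 0 < δ) : ∃ Λ : ℕ, 1 ≤ Λ ∧ ∀ {Ω : Type}
    [MeasurableSpace Ω] (μ : Measure Ω) [IsProbabilityMeasure μ] (A : ℕ → Ω → ℕ),
    RandomClasses μ A → ∀ Z : ℕ → ℕ,
    Tendsto (fun j : ℕ => V (Z j) * (j * Real.log 2)) atTop (𝓝 1) →
    ∀ᵐ ω ∂μ, ∀ᶠ j : ℕ in atTop, BlockOK (fun p => A p ω) Z δ Λ j := by
  obtain ⟨C1, hC1, ζ1, hloss⟩ := loss
  obtain ⟨C2, hC2, ζ2, hup⟩ := upper
  set C : ℝ := max (max C1 C2) 1 with hC
  have hC11 : C1 ≤ C := (le_max_left _ _).trans (le_max_left _ _)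
  have hC22 : C2 ≤ C := (le_max_right _ _).trans (le_max_left _ _)
  have hC10 : 1 ≤ C := le_max_right _ _
  set δ0 : ℝ := min δ (1 / (2 * C)) with hδ0
  have hδ0p : 0 < δ0 := lt_min hδ (by positivity)
  set δ1 : ℝ := min 1 (δ0 / (100 * C)) with hδ1
  have hδ1p : 0 < δ1 := lt_min one_pos (by positivity)
  have hδ11 : δ1 ≤ 1 := min_le_left _ _
  obtain ⟨Λ, hΛ1, hΛ⟩ := conc δ1 hδ1p hδ11
  refine ⟨Λ, hΛ1, ?_⟩
  intro Ω _ μ _ A hA Z hZ
  filter_upwards [hΛ μ A hA Z hZ] with ω hω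
  set a : ℕ → ℕ := fun p => A p ω with ha
  have hη : 0 < δ0 / (100 * C) := by positivity
  -- error terms
  have evκ : ∀ᶠ j : ℕ in atTop, Real.log (V (j / 4) / V (wj j)) ≤ δ0 / (100 * C) := by
    have h1 : Tendsto (fun j : ℕ => Real.log (V (j / 4) / V (wj j))) atTop (𝓝 0) := by
      have := (Real.continuousAt_log one_ne_zero).tendsto.comp V_v_w
      rwa [Real.log_one] at this
    exact (h1.eventually (gt_mem_nhds hη)).mono fun j hj => hj.le
  have evV : ∀ᶠ j : ℕ in atTop, V (j / 4) / V (wj j) ≤ 1 + min 1 (δ0 / (100 * C)) :=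
    (V_v_w.eventually (gt_mem_nhds (by
      have := lt_min one_pos hη; linarith :
      (1 : ℝ) < 1 + min 1 (δ0 / (100 * C))))).mono fun j hj => hj.le
  have evZ := hZ.eventually (Metric.ball_mem_nhds _ (lt_min one_pos hη))
  have evpoly : ∀ᶠ j : ℕ in atTop, Nat.log 2 j ^ 6 ≤ j := by
    have h1 : Tendsto (fun j : ℕ => (j : ℝ)) atTop atTop := tendsto_natCast_atTop_atTop
    have h2 := (Real.isLittleO_pow_log_id_atTop (n := 6)).comp_tendsto h1
    have h3 := h2.bound (show (0 : ℝ) < 1 / 64 by norm_num)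
    filter_upwards [h3, eventually_ge_atTop 1] with j hj hj1
    simp only [comp_apply, id_eq, Real.norm_eq_abs] at hj
    rw [abs_of_nonneg (pow_nonneg (Real.log_natCast_nonneg j) 6), abs_of_nonneg (by positivity)]
      at hj
    have h9 : (Nat.log 2 j : ℝ) * Real.log 2 ≤ Real.log j := by
      rw [← Real.log_pow]
      refine Real.log_le_log (by positivity) ?_
      exact_mod_cast Nat.pow_log_le_self 2 (by omega)
    have h10 : (Nat.log 2 j : ℝ) ≤ 2 * Real.log j := by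
      have := Real.log_two_gt_d9
      have h0 : (0 : ℝ) ≤ Nat.log 2 j := by positivity
      nlinarith
    have h11 : ((Nat.log 2 j : ℝ)) ^ 6 ≤ j := by
      calc ((Nat.log 2 j : ℝ)) ^ 6 ≤ (2 * Real.log j) ^ 6 := by gcongr
        _ = 64 * Real.log j ^ 6 := by ring
        _ ≤ 64 * (1 / 64 * j) := by gcongr
        _ = j := by ring
    exact_mod_cast h11
  filter_upwards [hω, evκ, evV, evZ, evpoly, eventually_ge_atTop (max (4 * max ζ1 ζ2) 16),
    nlog_tendsto.eventually_ge_atTop 1] with j hj hκ hV1 hZ1 hpoly hjge hlj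
  intro U hU1 hU2 ζ hζ1 hζ2
  have hjb : 4 * max ζ1 ζ2 ≤ j := (le_max_left _ _).trans hjge
  have hj16 : 16 ≤ j := (le_max_right _ _).trans hjge
  have hjr : (16 : ℝ) ≤ j := by exact_mod_cast hj16
  set v : ℕ := j / 4 with hv
  set w : ℕ := wj j with hw
  have hvζ1 : ζ1 ≤ v := by have := le_max_left ζ1 ζ2; omega
  have hvζ2 : ζ2 ≤ v := by have := le_max_right ζ1 ζ2; omega
  have hjw : j ≤ w := by
    rw [hw]; unfold wj
    calc j = j * 1 := (mul_one j).symm
      _ ≤ _ := Nat.mul_le_mul_left _ (Nat.one_le_pow _ _ hlj)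
  have hvw : v ≤ w := by omega
  have hj2U : j ^ 2 ≤ U := by
    calc j ^ 2 = 1 * j ^ 2 := (one_mul _).symm
      _ ≤ Λ * j ^ 2 := Nat.mul_le_mul_right _ hΛ1
      _ ≤ U := hU1
  have hU0 : 0 < U := by
    have : 0 < j ^ 2 := by positivity
    omega
  have hUr : (0 : ℝ) < U := by exact_mod_cast hU0
  have hw2 : w ^ 2 ≤ j ^ 3 := by
    rw [hw]; unfold wj
    calc (j * Nat.log 2 j ^ 3) ^ 2 = j ^ 2 * Nat.log 2 j ^ 6 := by ring
      _ ≤ j ^ 2 * j := by gcongr
      _ = j ^ 3 := by ring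
  have hvw2 : v * w ^ 2 ≤ U ^ 2 := by
    calc v * w ^ 2 ≤ j * j ^ 3 := by
          gcongr
          omega
      _ = (j ^ 2) ^ 2 := by ring
      _ ≤ U ^ 2 := Nat.pow_le_pow_left hj2U 2
  have hvw2r : (v : ℝ) * (w : ℝ) ^ 2 ≤ (U : ℝ) ^ 2 := by exact_mod_cast hvw2
  have hwU : w ≤ U := by
    have h1 : w ^ 2 ≤ U ^ 2 := by
      calc w ^ 2 ≤ j ^ 3 := hw2
        _ ≤ j ^ 4 := Nat.pow_le_pow_right (by omega) (by norm_num)
        _ = (j ^ 2) ^ 2 := by ring
        _ ≤ U ^ 2 := Nat.pow_le_pow_left hj2U 2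
    exact (Nat.pow_le_pow_iff_left (by norm_num)).1 h1
  have hVv := V_pos v
  have hVw := V_pos w
  have hVζ := V_pos ζ
  have hVζw : V w ≤ V ζ := V_anti hζ2
  have hVζv : V ζ ≤ V v := V_anti hζ1
  set ε : ℝ := δ0 / (100 * C) with hε
  have hε1 : ε ≤ 1 / 100 := by
    rw [hε, div_le_div_iff₀ (by positivity) (by norm_num)]
    have : δ0 ≤ 1 / (2 * C) := min_le_right _ _
    have h2 : 1 / (2 * C) ≤ 1 := by rw [div_le_one (by positivity)]; linarith
    nlinarith
  have hCε : C * ε = δ0 / 100 := by rw [hε]; field_simp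
  have hVvw : V v ≤ (1 + ε) * V w := by
    have h1 : V v / V w ≤ 1 + ε := hV1.trans (by
      have := min_le_right 1 (δ0 / (100 * C)); linarith)
    rwa [div_le_iff₀ hVw] at h1
  -- the loss
  have hlossj : ∀ (c : ℕ → ℕ) (m : ℕ), (T1 c v m U : ℝ) - C * ε * (U * V v) ≤ T1 c w m U := by
    intro c m
    have h1 := hloss v hvζ1 w U hvw hwU hvw2r c m
    have h0 : 0 ≤ Real.log (V v / V w) := Real.log_nonneg (by
      rw [le_div_iff₀ hVw, one_mul]; exact V_anti hvw)
    have h2 : C1 * (U * V v) * Real.log (V v / V w) ≤ C * ε * (U * V v) := by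
      calc C1 * (U * V v) * Real.log (V v / V w) ≤ C * (U * V v) * ε := by gcongr
        _ = C * ε * (U * V v) := by ring
    linarith
  -- bound for `rp`
  have hζU : ζ ≤ U ^ 2 := hζ2.trans (hwU.trans (Nat.le_self_pow (by norm_num) U))
  have hrpC : rp U ζ ≤ C := by
    obtain ⟨m, hm⟩ := exists_smax U ζ
    have h1 := hup ζ (hvζ2.trans hζ1) U hζU (fun _ => 0) m
    rw [hm] at h1
    unfold rp
    rw [div_le_iff₀ (by positivity)]
    calc (smax U ζ : ℝ) ≤ C2 * (U * V ζ) := h1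
      _ ≤ C * (U * V ζ) := by gcongr
  have hrmC : rm U ζ ≤ C := (rm_le_rp U ζ).trans hrpC
  have hrp0 := rp_nonneg U ζ
  have hrm0 := rm_nonneg U ζ
  -- normalised `T1 a w`
  have hUVw : 0 < (U : ℝ) * V w := by positivity
  have hCεV : C * ε * (U * V v) ≤ δ0 / 50 * (U * V w) := by
    rw [hCε]
    calc δ0 / 100 * (U * V v) ≤ δ0 / 100 * (U * ((1 + ε) * V w)) := by gcongr
      _ = (δ0 / 100 * (1 + ε)) * (U * V w) := by ring
      _ ≤ δ0 / 50 * (U * V w) := by
        have : δ0 / 100 * (1 + ε) ≤ δ0 / 50 := by nlinarith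
        gcongr
  have hrpUV : (smax U ζ : ℝ) = rp U ζ * (U * V ζ) := by
    unfold rp; field_simp
  have hrmUV : (smin U ζ : ℝ) = rm U ζ * (U * V ζ) := by
    unfold rm; field_simp
  have hδ0δ : δ0 ≤ δ := min_le_left _ _
  have up1 : ∀ (c : ℕ → ℕ) (m : ℕ), (T1 c w m U : ℝ) / (U * V w) ≤ rp U ζ + δ0 / 100 := by
    intro c m
    have h1 : (T1 c w m U : ℝ) ≤ smax U ζ := by
      exact_mod_cast (T1_anti c hζ2 m U).trans (T1_le_smax c ζ m U)
    rw [div_le_iff₀ hUVw]
    refine h1.trans ?_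
    rw [hrpUV]
    calc rp U ζ * (U * V ζ) ≤ rp U ζ * (U * ((1 + ε) * V w)) := by
          gcongr; exact hVζv.trans hVvw
      _ = (rp U ζ + rp U ζ * ε) * (U * V w) := by ring
      _ ≤ (rp U ζ + C * ε) * (U * V w) := by gcongr
      _ = (rp U ζ + δ0 / 100) * (U * V w) := by rw [hCε]
  have low1 : ∀ (c : ℕ → ℕ) (m : ℕ), rm U ζ - δ0 / 50 ≤ (T1 c w m U : ℝ) / (U * V w) := by
    intro c m
    rw [le_div_iff₀ hUVw]
    have h1 : (smin U ζ : ℝ) ≤ T1 c v m U := by
      exact_mod_cast (smin_anti hζ1 U).trans (smin_le_T1 c v m U)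
    have h2 := hlossj c m
    have h3 : rm U ζ * (U * V w) ≤ smin U ζ := by
      rw [hrmUV]; gcongr
    linarith
  have up2 : ∀ (c : ℕ → ℕ) (m : ℕ), smax U v ≤ T1 c v m U →
      rp U ζ - δ0 / 50 ≤ (T1 c w m U : ℝ) / (U * V w) := by
    intro c m hcm
    rw [le_div_iff₀ hUVw]
    have h1 : (smax U ζ : ℝ) ≤ T1 c v m U := by
      exact_mod_cast (smax_anti hζ1 U).trans hcm
    have h2 := hlossj c m
    have h3 : rp U ζ * (U * V w) ≤ smax U ζ := by
      rw [hrpUV]; gcongr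
    linarith
  have low2 : ∀ (c : ℕ → ℕ) (m : ℕ), T1 c v m U ≤ smin U v →
      (T1 c w m U : ℝ) / (U * V w) ≤ rm U ζ + δ0 / 30 := by
    intro c m hcm
    rw [div_le_iff₀ hUVw]
    have h1 : (T1 c w m U : ℝ) ≤ smin U v := by
      exact_mod_cast (T1_anti c hvw m U).trans hcm
    obtain ⟨m0, hm0⟩ := exists_smin U ζ
    have h2 := hlossj (fun _ => 0) m0
    have h3 : (T1 (fun _ => 0) w m0 U : ℝ) ≤ smin U ζ := by
      rw [← hm0]; exact_mod_cast T1_anti _ hζ2 m0 U
    have h4 : (smin U v : ℝ) ≤ T1 (fun _ => 0) v m0 U := by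
      exact_mod_cast smin_le m0 U v
    have h5 : (smin U ζ : ℝ) ≤ (rm U ζ + δ0 / 100) * (U * V w) := by
      rw [hrmUV]
      calc rm U ζ * (U * V ζ) ≤ rm U ζ * (U * ((1 + ε) * V w)) := by
            gcongr; exact hVζv.trans hVvw
        _ = (rm U ζ + rm U ζ * ε) * (U * V w) := by ring
        _ ≤ (rm U ζ + C * ε) * (U * V w) := by gcongr
        _ = (rm U ζ + δ0 / 100) * (U * V w) := by rw [hCε]
    have e : (rm U ζ + δ0 / 30) * (U * V w) = (rm U ζ + δ0 / 100) * (U * V w) +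
        (δ0 / 30 - δ0 / 100) * (U * V w) := by ring
    rw [e]
    have h6 : δ0 / 50 * (U * V w) ≤ (δ0 / 30 - δ0 / 100) * (U * V w) := by
      gcongr; linarith
    linarith
  -- to `T1 a (Z j)`
  rw [Real.dist_eq] at hZ1
  have hZε : |V (Z j) * (j * Real.log 2) - 1| ≤ ε := (hZ1.trans_le (min_le_right _ _)).le
  have hL : 0 < (j : ℝ) * Real.log 2 := mul_pos (by linarith) (Real.log_pos (by norm_num))
  have htr : ∀ m < 2 ^ (j + 3), |(T1 a (Z j) m U : ℝ) * (j * Real.log 2) / U -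
      (T1 a w m U : ℝ) / (U * V w)| ≤ δ0 / 20 := by
    intro m hm
    have h1 := hj m hm U hU2 hU1
    have h2 : |(T1 a (Z j) m U : ℝ) - V (Z j) / V w * T1 a w m U| ≤
        δ1 * (U / (j * Real.log 2)) := by
      refine h1.trans ?_
      have h3 : (U : ℝ) / j ≤ U / (j * Real.log 2) := by
        have : (j : ℝ) * Real.log 2 ≤ j := by
          have := Real.log_two_lt_d9
          nlinarith
        gcongr
      gcongr
    have h4 := transfer_le hUr hL hVw h2
    set q : ℝ := (T1 a w m U : ℝ) / (U * V w) with hq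
    have hq0 : 0 ≤ q := by positivity
    have hqC : q ≤ 2 * C := by
      have := up1 a m
      have h5 : δ0 ≤ 1 / (2 * C) := min_le_right _ _
      have h6 : 1 / (2 * C) ≤ 1 := by rw [div_le_one (by positivity)]; linarith
      linarith
    have e : (T1 a (Z j) m U : ℝ) * (j * Real.log 2) / U - q =
        ((T1 a (Z j) m U : ℝ) * (j * Real.log 2) / U - V (Z j) * (j * Real.log 2) * q) +
          (V (Z j) * (j * Real.log 2) - 1) * q := by ring
    rw [e]
    refine (abs_add_le _ _).trans ?_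
    rw [abs_mul, abs_of_nonneg hq0]
    have h7 : |V (Z j) * (j * Real.log 2) - 1| * q ≤ ε * (2 * C) := by gcongr
    have h8 : δ1 ≤ δ0 / 100 := by
      refine (min_le_right _ _).trans ?_
      gcongr
      linarith
    have h9 : ε * (2 * C) = δ0 / 50 := by
      have : ε * (2 * C) = 2 * (C * ε) := by ring
      rw [this, hCε]; ring
    linarith
  refine ⟨fun m hm => ?_, fun B hB => ⟨?_, ?_⟩⟩
  · have h1 := abs_le.1 (htr m hm)
    have h2 := up1 a m
    have h3 := low1 a m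
    constructor <;> linarith
  · obtain ⟨m, hm⟩ := exists_smax U v
    obtain ⟨x, hx1, hx2, hx3⟩ := T1_attain a v m B
    refine ⟨x, hx1, hx2, ?_⟩
    have h1 := abs_le.1 (htr x (by omega))
    have h2 := up2 a x (by rw [hx3 U, hm])
    linarith
  · obtain ⟨m, hm⟩ := exists_smin U v
    obtain ⟨x, hx1, hx2, hx3⟩ := T1_attain a v m B
    refine ⟨x, hx1, hx2, ?_⟩
    have h1 := abs_le.1 (htr x (by omega))
    have h2 := low2 a x (by rw [hx3 U, hm])
    linarith

end Pool.Agent.H532.RM
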