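import Mathlib
import Pool.Agent.H532.RM.Conc2
import Pool.Agent.H532.RM.Star2
import Pool.Agent.H532.RM.ThmB

/-!
The number of the elements of a window of length `≥ λ j ^ 2` after sieving by the primes up to
`j ^ 40`, in terms of the interval sieve up to `≈ j`.
-/

namespace Pool.Agent.H532.RM

open Finset MeasureTheory Function ProbabilityTheory Filter
open scoped ENNReal Topology

/-- small primes -/
def vj (j : ℕ) : ℕ := j / Nat.log 2 j

lemma nlog_le (j : ℕ) (hj : 3 ≤ j) : (Nat.log 2 j : ℝ) ≤ 2 * Real.log j := by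
  have hj0 : (3 : ℝ) ≤ j := by exact_mod_cast hj
  have h9 : (Nat.log 2 j : ℝ) * Real.log 2 ≤ Real.log j := by
    rw [← Real.log_pow]
    refine Real.log_le_log (by positivity) ?_
    exact_mod_cast Nat.pow_log_le_self 2 (by omega)
  have := Real.log_two_gt_d9
  have h0 : (0 : ℝ) ≤ Nat.log 2 j := by positivity
  nlinarith

lemma vj_tendsto : Tendsto vj atTop atTop := by
  have hjt : Tendsto (fun j : ℕ => (j : ℝ)) atTop atTop := tendsto_natCast_atTop_atTop
  refine tendsto_atTop.2 fun B => ?_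
  have h1 := (Real.isLittleO_log_id_atTop.comp_tendsto hjt).bound
    (show (0 : ℝ) < 1 / (2 * ((B : ℝ) + 1)) by positivity)
  filter_upwards [h1, eventually_ge_atTop 3, nlog_tendsto.eventually_ge_atTop 1] with j h1 h3 hl
  simp only [comp_apply, id_eq, Real.norm_eq_abs] at h1
  rw [abs_of_nonneg (Real.log_natCast_nonneg j), abs_of_nonneg (by positivity)] at h1
  have h4 := nlog_le j h3
  unfold vj
  rw [Nat.le_div_iff_mul_le (by omega)]
  have h5 : (B : ℝ) * Nat.log 2 j ≤ j := by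
    calc (B : ℝ) * Nat.log 2 j ≤ (B + 1) * (2 * (1 / (2 * ((B : ℝ) + 1)) * j)) := by
          have h0 : (0 : ℝ) ≤ Nat.log 2 j := by positivity
          have : (Nat.log 2 j : ℝ) ≤ 2 * (1 / (2 * ((B : ℝ) + 1)) * j) := by linarith
          gcongr
          linarith
      _ = j := by field_simp
  exact_mod_cast h5

lemma V_vj_w : Tendsto (fun j : ℕ => V (vj j) / V (wj j)) atTop (𝓝 1) := by
  refine V_ratio vj wj vj_tendsto wj_tendsto ?_
  have h1 : Tendsto (fun j : ℕ => Real.log (j : ℝ)) atTop atTop :=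
    Real.tendsto_log_atTop.comp tendsto_natCast_atTop_atTop
  have hup : ∀ᶠ j : ℕ in atTop, Real.log (vj j) / Real.log (wj j) ≤ 1 := by
    filter_upwards [eventually_ge_atTop 16, nlog_tendsto.eventually_ge_atTop 1,
      vj_tendsto.eventually_ge_atTop 1] with j hj hl hv
    have h2 : j ≤ wj j := by
      unfold wj
      calc j = j * 1 := (mul_one j).symm
        _ ≤ _ := Nat.mul_le_mul_left _ (Nat.one_le_pow _ _ hl)
    have h4 : 0 < Real.log (wj j) := Real.log_pos (by exact_mod_cast (by omega : 1 < wj j))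
    rw [div_le_one h4]
    refine Real.log_le_log (by exact_mod_cast hv) ?_
    have : vj j ≤ j := Nat.div_le_self _ _
    exact_mod_cast this.trans h2
  have hlow : ∀ᶠ j : ℕ in atTop, (Real.log j - Real.log (4 * Real.log j)) /
      (Real.log j + 3 * Real.log (2 * Real.log j)) ≤
      Real.log (vj j) / Real.log (wj j) := by
    have hll : ∀ᶠ x : ℝ in atTop, Real.log (4 * x) ≤ x := by
      have := (Real.isLittleO_log_id_atTop).bound (show (0 : ℝ) < 1 / 4 by norm_num)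
      filter_upwards [(tendsto_id.const_mul_atTop (show (0 : ℝ) < 4 by norm_num)).eventually this,
        eventually_gt_atTop 0] with x hx hx0
      simp only [id, Real.norm_eq_abs] at hx
      rw [abs_of_pos (show 0 < 4 * x by linarith)] at hx
      have := le_abs_self (Real.log (4 * x))
      linarith
    filter_upwards [eventually_ge_atTop 16, nlog_tendsto.eventually_ge_atTop 1,
      h1.eventually_ge_atTop 3, h1.eventually hll] with j hj hl hlog hll
    have hj0 : (16 : ℝ) ≤ j := by exact_mod_cast hj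
    have h2 : j ≤ wj j := by
      unfold wj
      calc j = j * 1 := (mul_one j).symm
        _ ≤ _ := Nat.mul_le_mul_left _ (Nat.one_le_pow _ _ hl)
    have h4 : 0 < Real.log (wj j) := Real.log_pos (by exact_mod_cast (by omega : 1 < wj j))
    have hl1 : (1 : ℝ) ≤ Nat.log 2 j := by exact_mod_cast hl
    have h10 := nlog_le j (by omega)
    have h5 : Real.log (wj j) ≤ Real.log j + 3 * Real.log (2 * Real.log j) := by
      have e : (wj j : ℝ) = j * (Nat.log 2 j : ℝ) ^ 3 := by unfold wj; push_cast; rfl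
      rw [e, Real.log_mul (by linarith) (by positivity), Real.log_pow]
      push_cast
      have := Real.log_le_log (by linarith) h10
      linarith
    have h6 : Real.log j - Real.log (4 * Real.log j) ≤ Real.log (vj j) := by
      have h7 : (j : ℝ) / (4 * Real.log j) ≤ ((vj j : ℕ) : ℝ) := by
        have h71 : (j : ℝ) < (vj j + 1) * Nat.log 2 j := by
          have := Nat.lt_div_mul_add (a := j) (b := Nat.log 2 j) (by omega)
          unfold vj
          have h8 : j < (j / Nat.log 2 j + 1) * Nat.log 2 j := by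
            rw [add_mul, one_mul]; exact this
          exact_mod_cast h8
        have hv1 : (1 : ℝ) ≤ vj j := by
          have : 1 ≤ vj j := by
            unfold vj
            rw [Nat.le_div_iff_mul_le (by omega), one_mul]
            exact (Nat.log_lt_self 2 (by omega)).le
          exact_mod_cast this
        rw [div_le_iff₀ (by linarith)]
        calc (j : ℝ) ≤ (vj j + 1) * Nat.log 2 j := h71.le
          _ ≤ (vj j + vj j) * (2 * Real.log j) := by gcongr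
          _ = vj j * (4 * Real.log j) := by ring
      have h8 := Real.log_le_log (by positivity) h7
      rwa [Real.log_div (by linarith) (by linarith)] at h8
    have h12 : 0 ≤ Real.log j - Real.log (4 * Real.log j) := by linarith
    have h13 : 0 ≤ Real.log (vj j) := h12.trans h6
    calc (Real.log j - Real.log (4 * Real.log j)) / (Real.log j + 3 * Real.log (2 * Real.log j)) ≤
        (Real.log j - Real.log (4 * Real.log j)) / Real.log (wj j) := by gcongr
      _ ≤ Real.log (vj j) / Real.log (wj j) := by gcongr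
  have hlim : Tendsto (fun x : ℝ => (x - Real.log (4 * x)) / (x + 3 * Real.log (2 * x))) atTop
      (𝓝 1) := by
    have h3 : Tendsto (fun x : ℝ => Real.log x / x) atTop (𝓝 0) :=
      Real.isLittleO_log_id_atTop.tendsto_div_nhds_zero
    have gen : ∀ a : ℝ, 0 < a → Tendsto (fun x : ℝ => Real.log (a * x) / x) atTop (𝓝 0) := by
      intro a ha
      have h4 : Tendsto (fun x : ℝ => Real.log a / x) atTop (𝓝 0) :=
        tendsto_const_nhds.div_atTop tendsto_id
      have h5 := h4.add h3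
      rw [zero_add] at h5
      refine h5.congr' ?_
      filter_upwards [eventually_gt_atTop 0] with x hx
      rw [Real.log_mul ha.ne' hx.ne', add_div]
    have h6 := gen 4 (by norm_num)
    have h7 := (gen 2 (by norm_num)).const_mul 3
    rw [mul_zero] at h7
    have h8 := (h6.const_sub 1).div (h7.const_add 1) (by norm_num)
    simp only [sub_zero, add_zero, div_one] at h8
    refine h8.congr' ?_
    filter_upwards [eventually_gt_atTop 0] with x hx
    simp only [Pi.div_apply]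
    field_simp
  exact tendsto_of_tendsto_of_tendsto_of_le_of_le' (hlim.comp h1) tendsto_const_nhds hlow hup

lemma nlog_pow6 : ∀ᶠ j : ℕ in atTop, Nat.log 2 j ^ 6 ≤ j := by
  have h1 : Tendsto (fun j : ℕ => (j : ℝ)) atTop atTop := tendsto_natCast_atTop_atTop
  have h2 := (Real.isLittleO_pow_log_id_atTop (n := 6)).comp_tendsto h1
  have h3 := h2.bound (show (0 : ℝ) < 1 / 64 by norm_num)
  filter_upwards [h3, eventually_ge_atTop 3] with j hj hj1
  simp only [comp_apply, id_eq, Real.norm_eq_abs] at hj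
  rw [abs_of_nonneg (pow_nonneg (Real.log_natCast_nonneg j) 6), abs_of_nonneg (by positivity)]
    at hj
  have h10 := nlog_le j hj1
  have h11 : ((Nat.log 2 j : ℝ)) ^ 6 ≤ j := by
    calc ((Nat.log 2 j : ℝ)) ^ 6 ≤ (2 * Real.log j) ^ 6 := by gcongr
      _ = 64 * Real.log j ^ 6 := by ring
      _ ≤ 64 * (1 / 64 * j) := by gcongr
      _ = j := by ring
  exact_mod_cast h11

/-- sieving up to `w_j`, compared with the extremal numbers of the interval sieve -/
structure NormOK (δ lam : ℝ) (j : ℕ) : Prop where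
  up : ∀ U ζ : ℕ, lam * (j : ℝ) ^ 2 ≤ U → j / 4 ≤ ζ → ζ ≤ j → ∀ (c : ℕ → ℕ) (m : ℕ),
    (T1 c (wj j) m U : ℝ) ≤ (rp U ζ + δ) * (U * V (wj j))
  low : ∀ U ζ : ℕ, lam * (j : ℝ) ^ 2 ≤ U → j / 4 ≤ ζ → ζ ≤ j → ∀ (c : ℕ → ℕ) (m : ℕ),
    (rm U ζ - δ) * (U * V (wj j)) ≤ T1 c (wj j) m U
  up2 : ∀ U ζ : ℕ, lam * (j : ℝ) ^ 2 ≤ U → j / 4 ≤ ζ → ζ ≤ j → ∀ (c : ℕ → ℕ) (m : ℕ),
    smax U (vj j) ≤ T1 c (vj j) m U → (rp U ζ - δ) * (U * V (wj j)) ≤ T1 c (wj j) m U
  low2 : ∀ U ζ : ℕ, lam * (j : ℝ) ^ 2 ≤ U → j / 4 ≤ ζ → ζ ≤ j → ∀ (c : ℕ → ℕ) (m : ℕ),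
    T1 c (vj j) m U ≤ smin U (vj j) → (T1 c (wj j) m U : ℝ) ≤ (rm U ζ + δ) * (U * V (wj j))

theorem normOK (δ lam : ℝ) (hδ : 0 < δ) (hlam : 0 < lam) : ∀ᶠ j : ℕ in atTop,
    NormOK δ lam j := by
  obtain ⟨C1, hC1, ζ1, hloss⟩ := loss
  obtain ⟨C2, hC2, ζ2, hup⟩ := upper
  set C : ℝ := max (max C1 C2) 1 with hC
  have hC11 : C1 ≤ C := (le_max_left _ _).trans (le_max_left _ _)
  have hC22 : C2 ≤ C := (le_max_right _ _).trans (le_max_left _ _)
  have hC10 : 1 ≤ C := le_max_right _ _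
  set δ0 : ℝ := min δ (1 / (2 * C)) with hδ0
  have hδ0p : 0 < δ0 := lt_min hδ (by positivity)
  have hη : 0 < δ0 / (100 * C) := by positivity
  have hjt : Tendsto (fun j : ℕ => (j : ℝ)) atTop atTop := tendsto_natCast_atTop_atTop
  have evκ : ∀ᶠ j : ℕ in atTop, Real.log (V (vj j) / V (wj j)) ≤ δ0 / (100 * C) := by
    have h1 : Tendsto (fun j : ℕ => Real.log (V (vj j) / V (wj j))) atTop (𝓝 0) := by
      have := (Real.continuousAt_log one_ne_zero).tendsto.comp V_vj_w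
      rwa [Real.log_one] at this
    exact (h1.eventually (gt_mem_nhds hη)).mono fun j hj => hj.le
  have evV : ∀ᶠ j : ℕ in atTop, V (vj j) / V (wj j) ≤ 1 + min 1 (δ0 / (100 * C)) :=
    (V_vj_w.eventually (gt_mem_nhds (by
      have := lt_min one_pos hη; linarith :
      (1 : ℝ) < 1 + min 1 (δ0 / (100 * C))))).mono fun j hj => hj.le
  filter_upwards [evκ, evV, nlog_pow6, vj_tendsto.eventually_ge_atTop (max ζ1 ζ2),
    nlog_tendsto.eventually_ge_atTop 4, eventually_ge_atTop 16,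
    hjt.eventually_ge_atTop (1 / lam ^ 2),
    (hjt.comp nlog_tendsto).eventually_ge_atTop (1 / lam ^ 2)] with
    j hκ hV1 hpoly hv hlj hj16 hjlam hllam
  have hvζ1 : ζ1 ≤ vj j := (le_max_left _ _).trans hv
  have hvζ2 : ζ2 ≤ vj j := (le_max_right _ _).trans hv
  have hjr : (16 : ℝ) ≤ j := by exact_mod_cast hj16
  set v : ℕ := vj j with hvdef
  set w : ℕ := wj j with hw
  have hv4 : v ≤ j / 4 := by
    rw [hvdef]; unfold vj
    exact Nat.div_le_div_left hlj (by norm_num)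
  have hjw : j ≤ w := by
    rw [hw]; unfold wj
    calc j = j * 1 := (mul_one j).symm
      _ ≤ _ := Nat.mul_le_mul_left _ (Nat.one_le_pow _ _ (by omega))
  have hvw : v ≤ w := by omega
  have hVv := V_pos v
  have hVw := V_pos w
  set ε : ℝ := δ0 / (100 * C) with hε
  have hε1 : ε ≤ 1 / 100 := by
    rw [hε, div_le_div_iff₀ (by positivity) (by norm_num)]
    have : δ0 ≤ 1 / (2 * C) := min_le_right _ _
    have h2 : 1 / (2 * C) ≤ 1 := by rw [div_le_one (by positivity)]; linarith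
    nlinarith
  have hε0 : 0 < ε := hη
  have hCε : C * ε = δ0 / 100 := by rw [hε]; field_simp
  have hVvw : V v ≤ (1 + ε) * V w := by
    have h1 : V v / V w ≤ 1 + ε := hV1.trans (by
      have := min_le_right 1 (δ0 / (100 * C)); linarith)
    rwa [div_le_iff₀ hVw] at h1
  have hδ0δ : δ0 ≤ δ := min_le_left _ _
  have hw2 : w ^ 2 ≤ j ^ 3 := by
    rw [hw]; unfold wj
    calc (j * Nat.log 2 j ^ 3) ^ 2 = j ^ 2 * Nat.log 2 j ^ 6 := by ring
      _ ≤ j ^ 2 * j := by gcongr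
      _ = j ^ 3 := by ring
  have hw2r : (w : ℝ) ^ 2 ≤ (j : ℝ) ^ 3 := by exact_mod_cast hw2
  -- facts on `U`
  have hU : ∀ U : ℕ, lam * (j : ℝ) ^ 2 ≤ U → (0 : ℝ) < U ∧ w ≤ U ∧
      (v : ℝ) * (w : ℝ) ^ 2 ≤ (U : ℝ) ^ 2 ∧ j ≤ U ^ 2 ∧
      (∀ (c : ℕ → ℕ) (m : ℕ), (T1 c v m U : ℝ) - C * ε * (U * V v) ≤ T1 c w m U) ∧
      C * ε * (U * V v) ≤ δ0 / 50 * (U * V w) := by
    intro U hU
    have hU0 : (0 : ℝ) < U := lt_of_lt_of_le (by positivity) hU
    have hl2 : 1 ≤ lam ^ 2 * j := by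
      rw [div_le_iff₀ (by positivity)] at hjlam; linarith
    have hU4 : lam ^ 2 * (j : ℝ) ^ 4 ≤ (U : ℝ) ^ 2 := by
      calc lam ^ 2 * (j : ℝ) ^ 4 = (lam * (j : ℝ) ^ 2) ^ 2 := by ring
        _ ≤ (U : ℝ) ^ 2 := by gcongr
    have hj3U : (j : ℝ) ^ 3 ≤ (U : ℝ) ^ 2 := by
      calc (j : ℝ) ^ 3 = 1 * (j : ℝ) ^ 3 := (one_mul _).symm
        _ ≤ (lam ^ 2 * j) * (j : ℝ) ^ 3 := by gcongr
        _ = lam ^ 2 * (j : ℝ) ^ 4 := by ring
        _ ≤ (U : ℝ) ^ 2 := hU4
    have hwU : w ≤ U := by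
      have h1 : (w : ℝ) ^ 2 ≤ (U : ℝ) ^ 2 := hw2r.trans hj3U
      have h2 : w ^ 2 ≤ U ^ 2 := by exact_mod_cast h1
      exact (Nat.pow_le_pow_iff_left (by norm_num)).1 h2
    have hvl : (v : ℝ) ≤ lam ^ 2 * j := by
      have h1 : v * Nat.log 2 j ≤ j := by
        rw [hvdef]; unfold vj; exact Nat.div_mul_le_self _ _
      have h2 : (v : ℝ) * Nat.log 2 j ≤ j := by exact_mod_cast h1
      have h3 : 1 ≤ lam ^ 2 * (Nat.log 2 j : ℝ) := by
        simp only [comp_apply] at hllam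
        rw [div_le_iff₀ (by positivity)] at hllam; linarith
      calc (v : ℝ) = v * 1 := (mul_one _).symm
        _ ≤ v * (lam ^ 2 * (Nat.log 2 j : ℝ)) := by gcongr
        _ = lam ^ 2 * (v * Nat.log 2 j) := by ring
        _ ≤ lam ^ 2 * j := by gcongr
    have hvw2 : (v : ℝ) * (w : ℝ) ^ 2 ≤ (U : ℝ) ^ 2 := by
      calc (v : ℝ) * (w : ℝ) ^ 2 ≤ (lam ^ 2 * j) * (j : ℝ) ^ 3 := by gcongr
        _ = lam ^ 2 * (j : ℝ) ^ 4 := by ring
        _ ≤ (U : ℝ) ^ 2 := hU4
    refine ⟨hU0, hwU, hvw2, ?_, ?_, ?_⟩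
    · calc j ≤ w := hjw
        _ ≤ U := hwU
        _ ≤ U ^ 2 := Nat.le_self_pow (by norm_num) U
    · intro c m
      have h1 := hloss v hvζ1 w U hvw hwU hvw2 c m
      have h0 : 0 ≤ Real.log (V v / V w) := Real.log_nonneg (by
        rw [le_div_iff₀ hVw, one_mul]; exact V_anti hvw)
      have h2 : C1 * (U * V v) * Real.log (V v / V w) ≤ C * ε * (U * V v) := by
        calc C1 * (U * V v) * Real.log (V v / V w) ≤ C * (U * V v) * ε := by gcongr
          _ = C * ε * (U * V v) := by ring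
      linarith
    · rw [hCε]
      calc δ0 / 100 * (U * V v) ≤ δ0 / 100 * (U * ((1 + ε) * V w)) := by gcongr
        _ = (δ0 / 100 * (1 + ε)) * (U * V w) := by ring
        _ ≤ δ0 / 50 * (U * V w) := by
          have : δ0 / 100 * (1 + ε) ≤ δ0 / 50 := by nlinarith
          gcongr
  have hrpC : ∀ U ζ : ℕ, lam * (j : ℝ) ^ 2 ≤ U → j / 4 ≤ ζ → ζ ≤ j → rp U ζ ≤ C ∧
      (smax U ζ : ℝ) = rp U ζ * (U * V ζ) ∧ (smin U ζ : ℝ) = rm U ζ * (U * V ζ) ∧
      V w ≤ V ζ ∧ V ζ ≤ (1 + ε) * V w ∧ 0 ≤ rm U ζ ∧ rm U ζ ≤ C ∧ v ≤ ζ ∧ ζ ≤ w ∧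
      0 ≤ rp U ζ := by
    intro U ζ hUU hζ1 hζ2
    obtain ⟨hU0, hwU, _, hjU, _, _⟩ := hU U hUU
    have hVζ := V_pos ζ
    obtain ⟨m, hm⟩ := exists_smax U ζ
    have h1 := hup ζ (by omega) U (by omega) (fun _ => 0) m
    rw [hm] at h1
    have h2 : rp U ζ ≤ C := by
      unfold rp
      rw [div_le_iff₀ (by positivity)]
      calc (smax U ζ : ℝ) ≤ C2 * (U * V ζ) := h1
        _ ≤ C * (U * V ζ) := by gcongr
    refine ⟨h2, ?_, ?_, V_anti (by omega), (V_anti (by omega)).trans hVvw, rm_nonneg U ζ,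
      (rm_le_rp U ζ).trans h2, by omega, by omega, rp_nonneg U ζ⟩
    · unfold rp; field_simp
    · unfold rm; field_simp
  refine ⟨?_, ?_, ?_, ?_⟩
  · intro U ζ hUU hζ1 hζ2 c m
    obtain ⟨hU0, hwU, _, hjU, hlossj, hCεV⟩ := hU U hUU
    obtain ⟨r1, r2, r3, r4, r5, r6, r7, r8, r9, r10⟩ := hrpC U ζ hUU hζ1 hζ2
    have h1 : (T1 c w m U : ℝ) ≤ smax U ζ := by
      exact_mod_cast (T1_anti c r9 m U).trans (T1_le_smax c ζ m U)
    refine h1.trans ?_
    rw [r2]
    calc rp U ζ * (U * V ζ) ≤ rp U ζ * (U * ((1 + ε) * V w)) := by gcongr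
      _ = (rp U ζ + rp U ζ * ε) * (U * V w) := by ring
      _ ≤ (rp U ζ + C * ε) * (U * V w) := by gcongr
      _ ≤ (rp U ζ + δ) * (U * V w) := by
          rw [hCε]; gcongr; linarith
  · intro U ζ hUU hζ1 hζ2 c m
    obtain ⟨hU0, hwU, _, hjU, hlossj, hCεV⟩ := hU U hUU
    obtain ⟨r1, r2, r3, r4, r5, r6, r7, r8, r9, r10⟩ := hrpC U ζ hUU hζ1 hζ2
    have h1 : (smin U ζ : ℝ) ≤ T1 c v m U := by
      exact_mod_cast (smin_anti r8 U).trans (smin_le_T1 c v m U)
    have h2 := hlossj c m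
    have h3 : rm U ζ * (U * V w) ≤ smin U ζ := by
      rw [r3]; gcongr
    have h4 : δ0 / 50 * (U * V w) ≤ δ * (U * V w) := by
      gcongr; linarith
    linarith
  · intro U ζ hUU hζ1 hζ2 c m hcm
    obtain ⟨hU0, hwU, _, hjU, hlossj, hCεV⟩ := hU U hUU
    obtain ⟨r1, r2, r3, r4, r5, r6, r7, r8, r9, r10⟩ := hrpC U ζ hUU hζ1 hζ2
    have h1 : (smax U ζ : ℝ) ≤ T1 c v m U := by
      exact_mod_cast (smax_anti r8 U).trans hcm
    have h2 := hlossj c m
    have h3 : rp U ζ * (U * V w) ≤ smax U ζ := by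
      rw [r2]; gcongr
    have h4 : δ0 / 50 * (U * V w) ≤ δ * (U * V w) := by
      gcongr; linarith
    linarith
  · intro U ζ hUU hζ1 hζ2 c m hcm
    obtain ⟨hU0, hwU, _, hjU, hlossj, hCεV⟩ := hU U hUU
    obtain ⟨r1, r2, r3, r4, r5, r6, r7, r8, r9, r10⟩ := hrpC U ζ hUU hζ1 hζ2
    have h1 : (T1 c w m U : ℝ) ≤ smin U v := by
      exact_mod_cast (T1_anti c hvw m U).trans hcm
    obtain ⟨m0, hm0⟩ := exists_smin U ζ
    have h2 := hlossj (fun _ => 0) m0
    have h3 : (T1 (fun _ => 0) w m0 U : ℝ) ≤ smin U ζ := by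
      rw [← hm0]; exact_mod_cast T1_anti _ r9 m0 U
    have h4 : (smin U v : ℝ) ≤ T1 (fun _ => 0) v m0 U := by
      exact_mod_cast smin_le m0 U v
    have h5 : (smin U ζ : ℝ) ≤ (rm U ζ + δ0 / 100) * (U * V w) := by
      rw [r3]
      calc rm U ζ * (U * V ζ) ≤ rm U ζ * (U * ((1 + ε) * V w)) := by gcongr
        _ = (rm U ζ + rm U ζ * ε) * (U * V w) := by ring
        _ ≤ (rm U ζ + C * ε) * (U * V w) := by gcongr
        _ = (rm U ζ + δ0 / 100) * (U * V w) := by rw [hCε]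
    have h6 : (δ0 / 100 + δ0 / 50) * (U * V w) ≤ δ * (U * V w) := by
      gcongr; linarith
    linarith

/-- progressions of windows -/
lemma apfam (η : ℝ) (hη : 0 < η) (hη1 : η ≤ 1) : ∀ᶠ j : ℕ in atTop, ∀ B : ℕ, ∀ U ≤ j ^ 3, ∀ x0 : ℕ, B ≤ x0 →
    x0 < B + 4 ^ (vj j) → ∃ M : Finset ℕ, M ⊆ Ico B (B + 2 ^ (j - 1)) ∧
      Real.exp ((1 - η / 2) * (j * Real.log 2)) ≤ (M.card : ℝ) ∧ Sep U M ∧
      ∀ m ∈ M, ∀ p ∈ primesLe (vj j), m ≡ x0 [MOD p] := by
  have hlog2 : (0 : ℝ) < Real.log 2 := Real.log_pos (by norm_num)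
  have hjt : Tendsto (fun j : ℕ => (j : ℝ)) atTop atTop := tendsto_natCast_atTop_atTop
  -- `8 * 4 ^ v * (j ^ 3 + 1) ≤ 2 ^ (η j / 2)`
  have ev1 : ∀ᶠ j : ℕ in atTop, 8 * ((4 : ℝ) ^ (vj j) * ((j : ℝ) ^ 3 + 1)) ≤
      Real.exp (η / 2 * (j * Real.log 2)) ∧ (4 : ℝ) ^ (vj j) * 4 ≤ 2 ^ j := by
    have h1 : Tendsto (fun j : ℕ => (j : ℝ) ^ 3 * Real.exp (-((η / 4 * Real.log 2) * j))) atTop
        (𝓝 0) := by
      have hc : 0 < η / 4 * Real.log 2 := by positivity
      have h2 := (Real.tendsto_pow_mul_exp_neg_atTop_nhds_zero 3).comp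
        (hjt.const_mul_atTop hc)
      have h3 := h2.const_mul ((1 / (η / 4 * Real.log 2)) ^ 3)
      rw [mul_zero] at h3
      refine h3.congr fun x => ?_
      simp only [comp_apply]
      rw [mul_pow, ← mul_assoc, ← mul_assoc, ← mul_pow, one_div, inv_mul_cancel₀ hc.ne', one_pow,
        one_mul]
    filter_upwards [h1.eventually (gt_mem_nhds (show (0 : ℝ) < 1 / 16 by norm_num)),
      (hjt.comp nlog_tendsto).eventually_ge_atTop (8 / η + 16), eventually_ge_atTop 16] with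
      j h1 h2 h3
    simp only [comp_apply] at h2
    have hjr : (16 : ℝ) ≤ j := by exact_mod_cast h3
    have h8η : 0 < 8 / η := by positivity
    have hl16 : (16 : ℝ) ≤ Nat.log 2 j := by linarith
    have hvl : (vj j : ℝ) * Nat.log 2 j ≤ j := by
      have : vj j * Nat.log 2 j ≤ j := by unfold vj; exact Nat.div_mul_le_self _ _
      exact_mod_cast this
    have hvη : (vj j : ℝ) ≤ η / 8 * j := by
      have h4 : 8 / η ≤ Nat.log 2 j := by linarith
      have h5 : (vj j : ℝ) * (8 / η) ≤ j := by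
        calc (vj j : ℝ) * (8 / η) ≤ vj j * Nat.log 2 j := by gcongr
          _ ≤ j := hvl
      have h6 : (vj j : ℝ) = (vj j * (8 / η)) * (η / 8) := by field_simp
      rw [h6]
      calc (vj j * (8 / η)) * (η / 8) ≤ j * (η / 8) := by gcongr
        _ = η / 8 * j := by ring
    have hv16 : (vj j : ℝ) * 16 ≤ j := by
      calc (vj j : ℝ) * 16 ≤ vj j * Nat.log 2 j := by gcongr
        _ ≤ j := hvl
    have h4v : (4 : ℝ) ^ (vj j) = Real.exp (vj j * (2 * Real.log 2)) := by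
      have : (4 : ℝ) = 2 ^ 2 := by norm_num
      rw [this, ← pow_mul, ← Real.exp_log (show (0 : ℝ) < 2 ^ (2 * vj j) by positivity),
        Real.log_pow]
      congr 1
      push_cast
      ring
    constructor
    · have h5 : (4 : ℝ) ^ (vj j) ≤ Real.exp (η / 4 * (j * Real.log 2)) := by
        rw [h4v]
        refine Real.exp_le_exp.2 ?_
        calc (vj j : ℝ) * (2 * Real.log 2) ≤ (η / 8 * j) * (2 * Real.log 2) := by gcongr
          _ = η / 4 * (j * Real.log 2) := by ring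
      have h6 : 8 * ((j : ℝ) ^ 3 + 1) ≤ Real.exp (η / 4 * (j * Real.log 2)) := by
        have e1 : Real.exp (-((η / 4 * Real.log 2) * j)) =
            (Real.exp (η / 4 * (j * Real.log 2)))⁻¹ := by
          rw [← Real.exp_neg]; congr 1; ring
        rw [e1, ← div_eq_mul_inv, div_lt_iff₀ (Real.exp_pos _)] at h1
        have h7 : (1 : ℝ) ≤ (j : ℝ) ^ 3 := one_le_pow₀ (by linarith)
        linarith
      calc 8 * ((4 : ℝ) ^ (vj j) * ((j : ℝ) ^ 3 + 1)) =
          (4 : ℝ) ^ (vj j) * (8 * ((j : ℝ) ^ 3 + 1)) := by ring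
        _ ≤ Real.exp (η / 4 * (j * Real.log 2)) * Real.exp (η / 4 * (j * Real.log 2)) := by
            gcongr
        _ = Real.exp (η / 2 * (j * Real.log 2)) := by
            rw [← Real.exp_add]; congr 1; ring
    · have : (4 : ℝ) ^ (vj j) * 4 = 2 ^ (2 * vj j + 2) := by
        rw [pow_add, pow_mul]; norm_num
      rw [this]
      refine pow_le_pow_right₀ (by norm_num) ?_
      have : (2 * vj j + 2 : ℝ) ≤ j := by linarith
      exact_mod_cast this
  filter_upwards [ev1, eventually_ge_atTop 2] with j hj hj2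
  obtain ⟨hj1, hj4⟩ := hj
  intro B U hU x0 hx1 hx2
  set P := primorial (vj j) with hP
  have hPpos : 0 < P := primorial_pos _
  have hP4 : P ≤ 4 ^ (vj j) := primorial_le_four_pow _
  set s : ℕ := P * (U + 1) with hs
  have hspos : 0 < s := by rw [hs]; positivity
  have h4v : 4 ^ (vj j) * 4 ≤ 2 ^ j := by exact_mod_cast hj4
  have h2j : 2 ^ j = 2 * 2 ^ (j - 1) := by
    rw [← pow_succ']; congr 1; omega
  set G : ℕ := (2 ^ (j - 1) - 4 ^ (vj j)) / s with hG
  have hGs : G * s ≤ 2 ^ (j - 1) - 4 ^ (vj j) := Nat.div_mul_le_self _ _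
  refine ⟨(range G).image (fun i => x0 + i * s), ?_, ?_, ?_, ?_⟩
  · intro m hm
    obtain ⟨i, hi, rfl⟩ := mem_image.1 hm
    have h1 : i * s ≤ G * s := Nat.mul_le_mul_right _ (mem_range.1 hi).le
    rw [mem_Ico]
    constructor <;> omega
  · rw [card_image_of_injective _ (fun i i' h => by
      have h1 : i * s = i' * s := by
        have : x0 + i * s = x0 + i' * s := h
        omega
      exact Nat.eq_of_mul_eq_mul_right hspos h1), card_range]
    -- G ≥ ...
    have hsr : (s : ℝ) ≤ 4 ^ (vj j) * ((j : ℝ) ^ 3 + 1) := by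
      rw [hs]; push_cast
      have h1 : (P : ℝ) ≤ 4 ^ (vj j) := by exact_mod_cast hP4
      have h2 : (U : ℝ) ≤ (j : ℝ) ^ 3 := by exact_mod_cast hU
      gcongr
    have hsr0 : (0 : ℝ) < s := by exact_mod_cast hspos
    have h3 : (2 : ℝ) ^ (j - 1) - 4 ^ (vj j) < ((G : ℝ) + 1) * s := by
      have h4 := Nat.lt_div_mul_add (a := 2 ^ (j - 1) - 4 ^ (vj j)) hspos
      rw [← hG] at h4
      have h5 : 2 ^ (j - 1) < G * s + s + 4 ^ (vj j) := by omega
      have h6 : ((2 : ℝ) ^ (j - 1)) < G * s + s + 4 ^ (vj j) := by exact_mod_cast h5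
      linarith
    have h7 : (4 : ℝ) ^ (vj j) ≤ 2 ^ (j - 1) / 2 := by
      have : (2 : ℝ) ^ j = 2 * 2 ^ (j - 1) := by exact_mod_cast h2j
      rw [this] at hj4; linarith
    have h8 : (2 : ℝ) ^ (j - 1) / 2 ≤ (G + 1) * s := by linarith
    set X := Real.exp ((1 - η / 2) * (j * Real.log 2)) with hX
    have hXe : X * Real.exp (η / 2 * (j * Real.log 2)) = 2 ^ j := by
      rw [hX, ← Real.exp_add]
      have : (1 - η / 2) * (j * Real.log 2) + η / 2 * (j * Real.log 2) = j * Real.log 2 := by ring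
      rw [this, Real.exp_nat_mul, Real.exp_log (by norm_num)]
    have hX0 : 0 < X := Real.exp_pos _
    have h9 : X * (8 * s) ≤ 2 ^ j := by
      rw [← hXe]
      gcongr
      linarith
    have h10 : 2 * X ≤ G + 1 := by
      have h11 : (2 * X) * s ≤ (G + 1) * s := by
        have e : (2 : ℝ) ^ j = 2 * 2 ^ (j - 1) := by exact_mod_cast h2j
        rw [e] at h9
        linarith
      exact le_of_mul_le_mul_right h11 hsr0
    have h12 : 1 ≤ X := by
      rw [hX]
      refine Real.one_le_exp ?_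
      have : 0 ≤ (1 - η / 2) := by linarith
      positivity
    linarith
  · intro m hm m' hm' hne
    obtain ⟨i, hi, rfl⟩ := mem_image.1 hm
    obtain ⟨i', hi', rfl⟩ := mem_image.1 hm'
    have hsU : U ≤ s := by
      rw [hs]
      calc U ≤ 1 * (U + 1) := by omega
        _ ≤ P * (U + 1) := Nat.mul_le_mul_right _ hPpos
    rcases Nat.lt_trichotomy i i' with h | h | h
    · left
      have : (i + 1) * s ≤ i' * s := Nat.mul_le_mul_right _ h
      rw [add_mul, one_mul] at this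
      omega
    · exact absurd (by rw [h]) hne
    · right
      have : (i' + 1) * s ≤ i * s := Nat.mul_le_mul_right _ h
      rw [add_mul, one_mul] at this
      omega
  · intro m hm p hp
    obtain ⟨i, hi, rfl⟩ := mem_image.1 hm
    have h1 : p ∣ i * s := by
      have hpP : p ∣ P := by
        have : P = ∏ q ∈ primesLe (vj j), q := rfl
        rw [this]; exact dvd_prod_of_mem _ hp
      exact Dvd.dvd.mul_left (Dvd.dvd.mul_right hpP _) _
    have h2 : i * s ≡ 0 [MOD p] := (Nat.modEq_zero_iff_dvd).2 h1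
    simpa using h2.add_left x0

/-- Sieving up to `j ^ 40`: the windows of a block. -/
structure WinOK (a : ℕ → ℕ) (δ lam η : ℝ) (j : ℕ) : Prop where
  up : ∀ U ζ : ℕ, U ≤ j ^ 3 → lam * (j : ℝ) ^ 2 ≤ U → j / 4 ≤ ζ → ζ ≤ j → ∀ m < 2 ^ (j + 3),
    (T1 a (Wj j) m U : ℝ) ≤ (rp U ζ + δ) * (U * V (Wj j))
  low : ∀ U ζ : ℕ, U ≤ j ^ 3 → lam * (j : ℝ) ^ 2 ≤ U → j / 4 ≤ ζ → ζ ≤ j → ∀ m < 2 ^ (j + 3),
    (rm U ζ - δ) * (U * V (Wj j)) ≤ T1 a (Wj j) m U
  qup : ∀ U ζ : ℕ, U ≤ j ^ 3 → lam * (j : ℝ) ^ 2 ≤ U → j / 4 ≤ ζ → ζ ≤ j → ∀ k < 5, ∀ n : ℕ,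
    (n : ℝ) ≤ (rp U ζ - δ) * (U * V (Wj j)) →
    Qup j k U n (Real.exp ((1 - η / 2) * (j * Real.log 2))) a
  qdn : ∀ U ζ : ℕ, U ≤ j ^ 3 → lam * (j : ℝ) ^ 2 ≤ U → j / 4 ≤ ζ → ζ ≤ j → ∀ k < 5, ∀ n : ℕ,
    (rm U ζ + δ) * (U * V (Wj j)) ≤ n →
    Qdn j k U n (Real.exp ((1 - η / 2) * (j * Real.log 2))) a

theorem winOK (δ lam η : ℝ) (hδ : 0 < δ) (hδ1 : δ ≤ 1) (hlam : 0 < lam) (hη : 0 < η)
    (hη1 : η ≤ 1) {Ω : Type} [MeasurableSpace Ω] (μ : Measure Ω) [IsProbabilityMeasure μ]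
    (A : ℕ → Ω → ℕ) (hA : RandomClasses μ A) :
    ∀ᵐ ω ∂μ, ∀ᶠ j : ℕ in atTop, WinOK (fun p => A p ω) δ lam η j := by
  filter_upwards [conc2 (δ / 2) lam (by positivity) (by linarith) hlam μ A hA] with ω hω
  filter_upwards [hω, normOK (δ / 2) lam (by positivity) hlam, apfam η hη hη1, pow3_le,
    eventually_ge_atTop 1] with j hc hn hap hp3 hj1
  set a : ℕ → ℕ := fun p => A p ω with ha
  have hj3 : j ^ 3 < 2 ^ (j + 3) := by
    have h1 : 2 ^ (j + 3) = 16 * 2 ^ (j - 1) := by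
      have : j + 3 = 4 + (j - 1) := by omega
      rw [this, pow_add]
      norm_num
    have h2 : 0 < 2 ^ (j - 1) := by positivity
    omega
  have hVW := V_pos (Wj j)
  have hVw := V_pos (wj j)
  have key : ∀ m < 2 ^ (j + 3), ∀ U : ℕ, U ≤ j ^ 3 → lam * (j : ℝ) ^ 2 ≤ U →
      (∀ r : ℝ, (T1 a (wj j) m U : ℝ) ≤ r * (U * V (wj j)) →
        (T1 a (Wj j) m U : ℝ) ≤ (r + δ / 2) * (U * V (Wj j))) ∧
      (∀ r : ℝ, r * (U * V (wj j)) ≤ (T1 a (wj j) m U : ℝ) →
        (r - δ / 2) * (U * V (Wj j)) ≤ (T1 a (Wj j) m U : ℝ)) := by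
    intro m hm U hU1 hU2
    have h1 := abs_le.1 (hc m hm U (by omega) hU2)
    constructor
    · intro r hr
      have h2 : V (Wj j) / V (wj j) * (T1 a (wj j) m U : ℝ) ≤ r * (U * V (Wj j)) := by
        calc V (Wj j) / V (wj j) * (T1 a (wj j) m U : ℝ) ≤
            V (Wj j) / V (wj j) * (r * (U * V (wj j))) := by gcongr
          _ = r * (U * V (Wj j)) := by field_simp
      linarith [h1.2]
    · intro r hr
      have h2 : r * (U * V (Wj j)) ≤ V (Wj j) / V (wj j) * (T1 a (wj j) m U : ℝ) := by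
        calc r * (U * V (Wj j)) = V (Wj j) / V (wj j) * (r * (U * V (wj j))) := by field_simp
          _ ≤ V (Wj j) / V (wj j) * (T1 a (wj j) m U : ℝ) := by gcongr
      linarith [h1.1]
  have hblk : ∀ k < 5, ∀ m ∈ Ico (k * 2 ^ (j - 1)) (k * 2 ^ (j - 1) + 2 ^ (j - 1)),
      m < 2 ^ (j + 3) ∧ m ∈ Blk j k := by
    intro k hk m hm
    have h1 := mem_Ico.1 hm
    have h2 : k * 2 ^ (j - 1) ≤ 4 * 2 ^ (j - 1) := Nat.mul_le_mul_right _ (by omega)
    have h3 : 2 ^ (j + 3) = 16 * 2 ^ (j - 1) := by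
      have : j + 3 = 4 + (j - 1) := by omega
      rw [this, pow_add]
      norm_num
    have h4 : 0 < 2 ^ (j - 1) := by positivity
    refine ⟨by omega, ?_⟩
    unfold Blk
    rw [add_mul, one_mul]
    exact hm
  refine ⟨?_, ?_, ?_, ?_⟩
  · intro U ζ hU1 hU2 h1 h2 m hm
    have h3 := (key m hm U hU1 hU2).1 _ (hn.up U ζ hU2 h1 h2 a m)
    refine h3.trans (le_of_eq ?_)
    ring
  · intro U ζ hU1 hU2 h1 h2 m hm
    have h3 := (key m hm U hU1 hU2).2 _ (hn.low U ζ hU2 h1 h2 a m)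
    refine le_trans (le_of_eq ?_) h3
    ring
  · intro U ζ hU1 hU2 h1 h2 k hk n hnn
    obtain ⟨m0, hm0⟩ := exists_smax U (vj j)
    obtain ⟨x0, hx1, hx2, hx3⟩ := T1_attain a (vj j) m0 (k * 2 ^ (j - 1))
    obtain ⟨M, hM1, hM2, hM3, hM4⟩ := hap (k * 2 ^ (j - 1)) U hU1 x0 hx1 hx2
    refine ⟨M, fun m hm => (hblk k hk m (hM1 hm)).2, hM2, hM3, fun m hm => ?_⟩
    have h4 : T1 a (vj j) m U = smax U (vj j) := by
      rw [← hm0, ← hx3 U]
      refine T1_shift a a (vj j) m x0 (fun p hp => ?_) U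
      exact (hM4 m hm p hp).add_right _
    have h5 := (key m (hblk k hk m (hM1 hm)).1 U hU1 hU2).2 _
      (hn.up2 U ζ hU2 h1 h2 a m h4.ge)
    have h6 : (n : ℝ) ≤ (T1 a (Wj j) m U : ℝ) := by
      refine hnn.trans (le_trans (le_of_eq ?_) h5)
      ring
    exact_mod_cast h6
  · intro U ζ hU1 hU2 h1 h2 k hk n hnn
    obtain ⟨m0, hm0⟩ := exists_smin U (vj j)
    obtain ⟨x0, hx1, hx2, hx3⟩ := T1_attain a (vj j) m0 (k * 2 ^ (j - 1))
    obtain ⟨M, hM1, hM2, hM3, hM4⟩ := hap (k * 2 ^ (j - 1)) U hU1 x0 hx1 hx2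
    refine ⟨M, fun m hm => (hblk k hk m (hM1 hm)).2, hM2, hM3, fun m hm => ?_⟩
    have h4 : T1 a (vj j) m U = smin U (vj j) := by
      rw [← hm0, ← hx3 U]
      refine T1_shift a a (vj j) m x0 (fun p hp => ?_) U
      exact (hM4 m hm p hp).add_right _
    have h5 := (key m (hblk k hk m (hM1 hm)).1 U hU1 hU2).1 _
      (hn.low2 U ζ hU2 h1 h2 a m h4.le)
    have h6 : (T1 a (Wj j) m U : ℝ) ≤ n := by
      refine h5.trans (le_trans (le_of_eq ?_) hnn)
      ring
    exact_mod_cast h6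

end Pool.Agent.H532.RM
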