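import Mathlib
import Pool.Agent.H532.RM.Norm

/-!
Arithmetic progressions: the sieve by the primes which do not divide the modulus.
-/

namespace Pool.Agent.H532.RM

open Finset MeasureTheory Function ProbabilityTheory Filter
open scoped ENNReal Topology

/-- the primes up to `Z` which do not divide `q` -/
def Qs (q Z : ℕ) : Finset ℕ := (primesLe Z).filter (fun p => ¬ p ∣ q)

/-- the density of the integers without prime factors in `Qs q Z` -/
noncomputable def Vq (q Z : ℕ) : ℝ := ∏ p ∈ Qs q Z, (1 - 1 / (p : ℝ))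

/-- the number of survivors -/
def Tc (c : ℕ → ℕ) (q Z m U : ℕ) : ℕ := (TT {0} c (Qs q Z) m U).card

lemma mem_Qs {q Z p : ℕ} : p ∈ Qs q Z ↔ (p ≤ Z ∧ p.Prime) ∧ ¬ p ∣ q := by
  rw [Qs, mem_filter, mem_primesLe]

lemma fac_pos {p : ℕ} (hp : p.Prime) : (0 : ℝ) < 1 - 1 / (p : ℝ) := by
  have hp2 : (2 : ℝ) ≤ p := by exact_mod_cast hp.two_le
  rw [sub_pos, div_lt_one (by linarith)]
  linarith

lemma fac_le_one {p : ℕ} : (1 : ℝ) - 1 / (p : ℝ) ≤ 1 := by
  have : (0 : ℝ) ≤ 1 / (p : ℝ) := by positivity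
  linarith

lemma Vq_pos (q Z : ℕ) : 0 < Vq q Z := prod_pos fun _ hp => fac_pos (mem_Qs.1 hp).1.2

lemma prodfac_mono {s t : Finset ℕ} (h : s ⊆ t) (ht : ∀ p ∈ t, p.Prime) :
    ∏ p ∈ t, (1 - 1 / (p : ℝ)) ≤ ∏ p ∈ s, (1 - 1 / (p : ℝ)) := by
  rw [← prod_sdiff h]
  have h1 : ∏ p ∈ t \ s, (1 - 1 / (p : ℝ)) ≤ 1 :=
    prod_le_one (fun p hp => (fac_pos (ht p (mem_sdiff.1 hp).1)).le) (fun p _ => fac_le_one)
  have h2 : 0 < ∏ p ∈ s, (1 - 1 / (p : ℝ)) := prod_pos fun p hp => fac_pos (ht p (h hp))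
  nlinarith

lemma V_le_Vq (q Z : ℕ) : V Z ≤ Vq q Z :=
  prodfac_mono (filter_subset _ _) fun _ hp => (mem_primesLe.1 hp).2

lemma Vq_le_one (q Z : ℕ) : Vq q Z ≤ 1 :=
  prod_le_one (fun p hp => (fac_pos (mem_Qs.1 hp).1.2).le) (fun p _ => fac_le_one)

lemma Qs_mono (q : ℕ) {z w : ℕ} (h : z ≤ w) : Qs q z ⊆ Qs q w := fun _ hp =>
  mem_Qs.2 ⟨⟨(mem_Qs.1 hp).1.1.trans h, (mem_Qs.1 hp).1.2⟩, (mem_Qs.1 hp).2⟩

lemma Vq_anti (q : ℕ) {z w : ℕ} (h : z ≤ w) : Vq q w ≤ Vq q z :=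
  prodfac_mono (Qs_mono q h) fun _ hp => (mem_Qs.1 hp).1.2

lemma Tc_anti (c : ℕ → ℕ) (q : ℕ) {z w : ℕ} (h : z ≤ w) (m U : ℕ) :
    Tc c q w m U ≤ Tc c q z m U := card_le_card (TT_anti c (Qs_mono q h) m U)

lemma Tc_le (c : ℕ → ℕ) (q z m U : ℕ) : Tc c q z m U ≤ U := by
  have : (TT {0} c (Qs q z) m U).card ≤ (Ioc m (m + U)).card := card_filter_le _ _
  rw [Nat.card_Ioc, Nat.add_sub_cancel_left] at this
  exact this

lemma Vq_split (q : ℕ) {w Z : ℕ} (h : w ≤ Z) :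
    Vq q Z = Vq q w * ∏ p ∈ (Qs q Z).filter (fun p => w < p), (1 - 1 / (p : ℝ)) := by
  unfold Vq
  have : Qs q Z = Qs q w ∪ (Qs q Z).filter (fun p => w < p) := by
    ext p
    simp only [mem_union, mem_filter, mem_Qs]
    constructor
    · rintro ⟨⟨h1, h2⟩, h4⟩
      rcases le_or_gt p w with h3 | h3
      · exact Or.inl ⟨⟨h3, h2⟩, h4⟩
      · exact Or.inr ⟨⟨⟨h1, h2⟩, h4⟩, h3⟩
    · rintro (⟨⟨h1, h2⟩, h4⟩ | ⟨h1, _⟩)
      · exact ⟨⟨h1.trans h, h2⟩, h4⟩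
      · exact h1
  conv_lhs => rw [this]
  rw [prod_union]
  rw [Finset.disjoint_left]
  intro p h1 h2
  have := (mem_Qs.1 h1).1.1
  have := (mem_filter.1 h2).2
  omega

lemma Vq_ratio (q : ℕ) {v w : ℕ} (h : v ≤ w) : Vq q v * V w ≤ Vq q w * V v := by
  rw [Vq_split q h, V_split h]
  have h1 : ∏ p ∈ (primesLe w).filter (fun p => v < p), (1 - 1 / (p : ℝ)) ≤
      ∏ p ∈ (Qs q w).filter (fun p => v < p), (1 - 1 / (p : ℝ)) := by
    refine prodfac_mono (fun p hp => ?_) (fun p hp => (mem_primesLe.1 (mem_filter.1 hp).1).2)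
    obtain ⟨h2, h3⟩ := mem_filter.1 hp
    exact mem_filter.2 ⟨mem_primesLe.2 (mem_Qs.1 h2).1, h3⟩
  have h2 := Vq_pos q v
  have h3 := V_pos v
  calc Vq q v * (V v * ∏ p ∈ (primesLe w).filter (fun p => v < p), (1 - 1 / (p : ℝ))) =
      (Vq q v * V v) * ∏ p ∈ (primesLe w).filter (fun p => v < p), (1 - 1 / (p : ℝ)) := by ring
    _ ≤ (Vq q v * V v) * ∏ p ∈ (Qs q w).filter (fun p => v < p), (1 - 1 / (p : ℝ)) := by
        gcongr
    _ = _ := by ring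

lemma VDQ_zero' (Q : Finset ℕ) : VDQ {0} Q = ∏ p ∈ Q, (1 - 1 / (p : ℝ)) := by
  unfold VDQ
  exact prod_congr rfl fun p _ => by rw [nuD_zero]; norm_num

/-- The upper bound sieve. -/
theorem upperQ : ∃ C : ℝ, 0 < C ∧ ∃ ζ0 : ℕ, ∀ ζ : ℕ, ζ0 ≤ ζ → ∀ U : ℕ, ζ ≤ U ^ 2 →
    ∀ (q : ℕ) (c : ℕ → ℕ) (m : ℕ), (Tc c q ζ m U : ℝ) ≤ C * (U * Vq q ζ) := by
  obtain ⟨C0, hC0, hf⟩ := fund 1
  obtain ⟨U0, h0⟩ := hf C0 le_rfl
  have hCr : (1 : ℝ) ≤ C0 := by exact_mod_cast hC0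
  set e : ℝ := 1 / ((C0 : ℝ) * C0) with he
  have he0 : 0 < e := by positivity
  have he1 : e ≤ 1 := by
    rw [he, div_le_one (by positivity)]; nlinarith
  obtain ⟨C1, hC1, hV⟩ := V_floor_pow (e / 2) (by positivity)
  obtain ⟨ζ1, hζ1⟩ := eventually_atTop.1 hV
  refine ⟨2 * C1, by positivity, max (max ζ1 (U0 ^ 2 + 1)) 2, fun ζ hζ U hU q c m => ?_⟩
  have a1 : ζ1 ≤ ζ := (le_max_left _ _).trans ((le_max_left _ _).trans hζ)
  have a2 : U0 ^ 2 + 1 ≤ ζ := (le_max_right _ _).trans ((le_max_left _ _).trans hζ)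
  have a3 : 2 ≤ ζ := (le_max_right _ _).trans hζ
  have hU0U : U0 ≤ U := by
    by_contra h
    have : U ^ 2 ≤ U0 ^ 2 := Nat.pow_le_pow_left (by omega) 2
    omega
  set v : ℕ := ⌊(ζ : ℝ) ^ (e / 2)⌋₊ with hv
  have hζr : (1 : ℝ) ≤ ζ := by exact_mod_cast (by omega : 1 ≤ ζ)
  have hvζ : v ≤ ζ := by
    have h1 : (ζ : ℝ) ^ (e / 2) ≤ ζ := by
      calc (ζ : ℝ) ^ (e / 2) ≤ (ζ : ℝ) ^ (1 : ℝ) :=
            Real.rpow_le_rpow_of_exponent_le hζr (by linarith)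
        _ = ζ := Real.rpow_one _
    have h2 : (v : ℝ) ≤ ζ := (Nat.floor_le (by positivity)).trans h1
    exact_mod_cast h2
  have h2 : (Tc c q ζ m U : ℝ) ≤ ((TT {0} c (Qs q v) m U).card : ℝ) := by
    exact_mod_cast Tc_anti c q hvζ m U
  have h3 := h0 U hU0U {0} (card_singleton 0) c (Qs q v) (fun p hp => by
    have hp' := (mem_Qs.1 hp).1
    refine ⟨hp'.2, ?_, by rw [nuD_zero]; exact hp'.2.one_lt⟩
    have b1 : (p : ℝ) ≤ v := by exact_mod_cast hp'.1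
    have b2 : (v : ℝ) ≤ (ζ : ℝ) ^ (e / 2) := Nat.floor_le (by positivity)
    have b3 : (ζ : ℝ) ≤ (U : ℝ) ^ 2 := by exact_mod_cast hU
    calc (p : ℝ) ≤ (ζ : ℝ) ^ (e / 2) := b1.trans b2
      _ ≤ ((U : ℝ) ^ 2) ^ (e / 2) := Real.rpow_le_rpow (by positivity) b3 (by positivity)
      _ = (U : ℝ) ^ e := by
        rw [← Real.rpow_natCast, ← Real.rpow_mul (by positivity)]
        congr 1; push_cast; ring) m
  rw [VDQ_zero'] at h3
  have h4 := (abs_le.1 h3).2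
  have h5 : (1 / 2 : ℝ) ^ C0 ≤ 1 := pow_le_one₀ (by norm_num) (by norm_num)
  have hVv := (Vq_pos q v).le
  have e3 : ∏ p ∈ Qs q v, (1 - 1 / (p : ℝ)) = Vq q v := rfl
  rw [e3] at h4
  have h6 : ((TT {0} c (Qs q v) m U).card : ℝ) ≤ 2 * (U * Vq q v) := by
    have : 0 ≤ (U : ℝ) * Vq q v := by positivity
    nlinarith
  have h7 : Vq q v ≤ C1 * Vq q ζ := by
    have h8 := Vq_ratio q hvζ
    have h9 := hζ1 ζ a1
    have h10 := V_pos ζ
    have h11 := Vq_pos q ζ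
    have h12 : Vq q v * V ζ ≤ (C1 * Vq q ζ) * V ζ := by
      calc Vq q v * V ζ ≤ Vq q ζ * V v := h8
        _ ≤ Vq q ζ * (C1 * V ζ) := by gcongr
        _ = (C1 * Vq q ζ) * V ζ := by ring
    exact le_of_mul_le_mul_right h12 h10
  calc (Tc c q ζ m U : ℝ) ≤ 2 * (U * Vq q v) := h2.trans h6
    _ ≤ 2 * (U * (C1 * Vq q ζ)) := by gcongr
    _ = 2 * C1 * (U * Vq q ζ) := by ring

/-- A progression modulo a prime `p` outside `Q` inside the window. -/
lemma prog_leQ (c : ℕ → ℕ) (Q : Finset ℕ) (hQ : ∀ l ∈ Q, l.Prime) (p r m U : ℕ) (hp : p.Prime)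
    (hpQ : p ∉ Q) :
    ∃ (c' : ℕ → ℕ) (m' : ℕ),
      ((TT {0} c Q m U).filter (fun n => n % p = r)).card ≤
        (TT {0} c' Q m' (U / p + 2)).card := by
  classical
  have hex : ∀ q : ℕ, ∃ x : ℕ, q ∈ Q → p * x + r ≡ c q + p [MOD q] := by
    intro q
    by_cases hq : q ∈ Q
    · have hq' := hQ q hq
      have hcop : Nat.Coprime p q := by
        rw [Nat.coprime_primes hp hq']; rintro rfl; exact hpQ hq
      obtain ⟨x, hx⟩ := Nat.exists_mul_mod_eq_one_of_coprime hcop hq'.one_lt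
      have hx' : p * x ≡ 1 [MOD q] := by
        rw [Nat.ModEq, hx.2, Nat.mod_eq_of_lt hq'.one_lt]
      refine ⟨x * (c q + p + (q - 1) * r), fun _ => ?_⟩
      have h1 : p * (x * (c q + p + (q - 1) * r)) ≡ 1 * (c q + p + (q - 1) * r) [MOD q] := by
        rw [← mul_assoc]; exact hx'.mul_right _
      have h2 : p * (x * (c q + p + (q - 1) * r)) + r ≡ 1 * (c q + p + (q - 1) * r) + r [MOD q] :=
        h1.add_right r
      have h3 : 1 * (c q + p + (q - 1) * r) + r = c q + p + q * r := by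
        have : q * r = (q - 1) * r + r := by
          have hq1 : q = (q - 1) + 1 := by have := hq'.one_lt; omega
          nth_rewrite 1 [hq1]; ring
        rw [this]; ring
      rw [h3] at h2
      refine h2.trans ?_
      simp [Nat.ModEq]
    · exact ⟨0, fun h => absurd h hq⟩
  choose c' hc' using hex
  refine ⟨c', (m + 1) / p, ?_⟩
  refine card_le_card_of_injOn (fun n => n / p + 1) ?_ ?_
  · intro n hn
    obtain ⟨h1, h2⟩ := mem_filter.1 (mem_coe.1 hn)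
    obtain ⟨⟨h3, h4⟩, h5⟩ := mem_T1.1 h1
    refine mem_coe.2 (mem_T1.2 ⟨⟨?_, ?_⟩, ?_⟩)
    · have : (m + 1) / p ≤ n / p := Nat.div_le_div_right (by omega)
      show (m + 1) / p < n / p + 1
      omega
    · show n / p + 1 ≤ (m + 1) / p + (U / p + 2)
      have h6 : n ≤ (m + 1) + U := by omega
      have h7 : n / p ≤ ((m + 1) + U) / p := Nat.div_le_div_right h6
      have h8 : ((m + 1) + U) / p ≤ (m + 1) / p + U / p + 1 := by
        rw [Nat.add_div hp.pos]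
        split_ifs <;> omega
      omega
    · intro q hq h6
      have h7 : n / p + 1 ≡ c' q [MOD q] := h6
      have h8 : p * (n / p + 1) + r ≡ p * c' q + r [MOD q] := (h7.mul_left p).add_right r
      have h9 : p * (n / p + 1) + r = n + p := by
        have := Nat.div_add_mod n p
        rw [h2] at this
        rw [mul_add, mul_one]
        omega
      rw [h9] at h8
      have h10 : n + p ≡ c q + p [MOD q] := h8.trans (hc' q hq)
      exact h5 q hq (Nat.ModEq.add_right_cancel' p h10)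
  · intro n hn n' hn' h
    have h2 := (mem_filter.1 (mem_coe.1 hn)).2
    have h2' := (mem_filter.1 (mem_coe.1 hn')).2
    have h3 : n / p + 1 = n' / p + 1 := h
    have h4 : n / p = n' / p := by omega
    rw [← Nat.div_add_mod n p, ← Nat.div_add_mod n' p, h4, h2, h2']

/-- Sieving by a few more primes does not change much. -/
theorem lossQ : ∃ C : ℝ, 0 < C ∧ ∃ ζ0 : ℕ, ∀ ζ : ℕ, ζ0 ≤ ζ → ∀ w U : ℕ, ζ ≤ w → w ≤ U →
    (ζ : ℝ) * w ^ 2 ≤ U ^ 2 → ∀ (q : ℕ) (c : ℕ → ℕ) (m : ℕ),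
    (Tc c q ζ m U : ℝ) - C * (U * Vq q ζ) * Real.log (V ζ / V w) ≤ Tc c q w m U := by
  classical
  obtain ⟨C, hC, ζ0, h⟩ := upperQ
  refine ⟨3 * C, by positivity, ζ0, fun ζ hζ w U hw hwU hU q c m => ?_⟩
  set P := (Qs q w).filter (fun p => ζ < p) with hP
  have hsub : TT {0} c (Qs q ζ) m U ⊆ TT {0} c (Qs q w) m U ∪
      P.biUnion (fun p => (TT {0} c (Qs q ζ) m U).filter (fun n => n % p = c p % p)) := by
    intro n hn
    rw [mem_union]
    by_cases hall : ∀ p ∈ P, n % p ≠ c p % p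
    · left
      refine mem_T1.2 ⟨(mem_T1.1 hn).1, fun p hp => ?_⟩
      have hp' := mem_Qs.1 hp
      rcases le_or_gt p ζ with h1 | h1
      · exact (mem_T1.1 hn).2 p (mem_Qs.2 ⟨⟨h1, hp'.1.2⟩, hp'.2⟩)
      · exact hall p (mem_filter.2 ⟨hp, h1⟩)
    · right
      push Not at hall
      obtain ⟨p, hp, hh⟩ := hall
      exact mem_biUnion.2 ⟨p, hp, mem_filter.2 ⟨hn, hh⟩⟩
  have hcard : (Tc c q ζ m U : ℝ) ≤ Tc c q w m U + ∑ p ∈ P,
      (((TT {0} c (Qs q ζ) m U).filter (fun n => n % p = c p % p)).card : ℝ) := by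
    have h1 := (card_le_card hsub).trans ((card_union_le _ _).trans
      (Nat.add_le_add_left card_biUnion_le _))
    unfold Tc
    exact_mod_cast h1
  have hVζ := (Vq_pos q ζ).le
  have hbound : ∀ p ∈ P,
      (((TT {0} c (Qs q ζ) m U).filter (fun n => n % p = c p % p)).card : ℝ) ≤
        3 * C * (U * Vq q ζ) * (1 / (p : ℝ)) := by
    intro p hp
    obtain ⟨h1, h2⟩ := mem_filter.1 hp
    have h3 := (mem_Qs.1 h1).1
    have hp0 : (0 : ℝ) < p := by exact_mod_cast h3.2.pos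
    obtain ⟨c', m', h4⟩ := prog_leQ c (Qs q ζ) (fun l hl => (mem_Qs.1 hl).1.2) p (c p % p) m U h3.2
      (fun hc => by have := (mem_Qs.1 hc).1.1; omega)
    have h5 : ζ ≤ (U / p + 2) ^ 2 := by
      have h6 : (U : ℝ) / p ≤ ((U / p + 2 : ℕ) : ℝ) := by
        have h7 : (U : ℝ) / p < (U / p : ℕ) + 1 := by
          have := Nat.lt_div_mul_add h3.2.pos (a := U)
          rw [div_lt_iff₀ hp0]
          have h8 : (U : ℝ) < (U / p : ℕ) * p + p := by exact_mod_cast this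
          linarith
        push_cast
        linarith
      have hw0 : (0 : ℝ) < w := by exact_mod_cast (h3.2.pos.trans_le h3.1)
      have hpw : (p : ℝ) ≤ w := by exact_mod_cast h3.1
      have h8 : (ζ : ℝ) ≤ ((U : ℝ) / w) ^ 2 := by
        rw [div_pow, le_div_iff₀ (by positivity)]; exact hU
      have h9 : ((U : ℝ) / w) ^ 2 ≤ (((U / p + 2 : ℕ) : ℝ)) ^ 2 := by
        have : (U : ℝ) / w ≤ (U : ℝ) / p := by gcongr
        gcongr
        exact this.trans h6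
      exact_mod_cast h8.trans h9
    have h6 := h ζ hζ (U / p + 2) h5 q c' m'
    have h7 : (((TT {0} c (Qs q ζ) m U).filter (fun n => n % p = c p % p)).card : ℝ) ≤
        Tc c' q ζ m' (U / p + 2) := by unfold Tc; exact_mod_cast h4
    refine h7.trans (h6.trans ?_)
    have h8 : (((U / p + 2 : ℕ) : ℝ)) ≤ 3 * U * (1 / (p : ℝ)) := by
      push_cast
      have h9 : ((U / p : ℕ) : ℝ) ≤ (U : ℝ) / p := Nat.cast_div_le
      have h10 : (1 : ℝ) ≤ (U : ℝ) / p := by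
        rw [one_le_div hp0]
        exact_mod_cast h3.1.trans hwU
      have e : 3 * (U : ℝ) * (1 / p) = U / p + 2 * (U / p) := by ring
      rw [e]
      linarith
    calc C * ((((U / p + 2 : ℕ) : ℝ)) * Vq q ζ) ≤ C * ((3 * U * (1 / (p : ℝ))) * Vq q ζ) := by
          gcongr
      _ = 3 * C * (U * Vq q ζ) * (1 / (p : ℝ)) := by ring
  have hsum : ∑ p ∈ P,
      (((TT {0} c (Qs q ζ) m U).filter (fun n => n % p = c p % p)).card : ℝ) ≤
        3 * C * (U * Vq q ζ) * Real.log (V ζ / V w) := by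
    refine (sum_le_sum hbound).trans ?_
    rw [← mul_sum]
    gcongr
    refine le_trans ?_ (sum_inv_le ζ w hw)
    refine sum_le_sum_of_subset_of_nonneg (fun p hp => ?_) (fun _ _ _ => by positivity)
    obtain ⟨h2, h3⟩ := mem_filter.1 hp
    exact mem_filter.2 ⟨mem_primesLe.2 (mem_Qs.1 h2).1, h3⟩
  linarith

lemma one_sub_sum_le (s : Finset ℕ) {f : ℕ → ℝ} (h : ∀ p ∈ s, 0 ≤ f p ∧ f p ≤ 1) :
    1 - ∑ p ∈ s, f p ≤ ∏ p ∈ s, (1 - f p) := by
  induction s using Finset.induction_on with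
  | empty => simp
  | insert a s ha ih =>
    rw [sum_insert ha, prod_insert ha]
    have h1 := ih fun p hp => h p (mem_insert_of_mem hp)
    have h2 := h a (mem_insert_self a s)
    have h3 : ∏ p ∈ s, (1 - f p) ≤ 1 := prod_le_one
      (fun p hp => by linarith [(h p (mem_insert_of_mem hp)).2])
      (fun p hp => by linarith [(h p (mem_insert_of_mem hp)).1])
    have h4 : 0 ≤ ∏ p ∈ s, (1 - f p) := prod_nonneg
      (fun p hp => by linarith [(h p (mem_insert_of_mem hp)).2])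
    nlinarith

/-- the primes dividing `q` are few -/
lemma card_div (q w j : ℕ) (hq : 0 < q) (hq2 : q < 2 ^ (j + 3)) (s : Finset ℕ)
    (hs : ∀ p ∈ s, p.Prime ∧ p ∣ q) : s.card ≤ j + 3 := by
  have h1 : ∏ p ∈ s, p ∣ q :=
    Finset.prod_primes_dvd q (fun p hp => (hs p hp).1.prime) fun p hp => (hs p hp).2
  have h2 : 2 ^ s.card ≤ ∏ p ∈ s, p := by
    rw [← prod_const]
    exact prod_le_prod (fun _ _ => by norm_num) fun p hp => (hs p hp).1.two_le
  have h3 := (h2.trans (Nat.le_of_dvd hq h1)).trans_lt hq2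
  exact ((Nat.pow_lt_pow_iff_right (by norm_num)).1 h3).le

/-- the large primes dividing `q` do not matter -/
lemma prod_div_ge (q w j : ℕ) (hq : 0 < q) (hq2 : q < 2 ^ (j + 3)) (hw : 2 * (j + 3) ≤ w)
    (hj : 1 ≤ j) (s : Finset ℕ) (hs : ∀ p ∈ s, p.Prime ∧ p ∣ q ∧ w < p) :
    1 - ((j : ℝ) + 3) / w ≤ ∏ p ∈ s, (1 - 1 / (p : ℝ)) := by
  have hc := card_div q w j hq hq2 s fun p hp => ⟨(hs p hp).1, (hs p hp).2.1⟩
  have hw0 : (0 : ℝ) < w := by
    have : 0 < w := by omega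
    exact_mod_cast this
  have h1 : 1 - ∑ p ∈ s, 1 / (p : ℝ) ≤ ∏ p ∈ s, (1 - 1 / (p : ℝ)) := by
    refine one_sub_sum_le s fun p hp => ⟨by positivity, ?_⟩
    have : (1 : ℝ) ≤ p := by exact_mod_cast (hs p hp).1.one_lt.le
    rw [div_le_one (by linarith)]; exact this
  have h2 : ∑ p ∈ s, 1 / (p : ℝ) ≤ ((j : ℝ) + 3) / w := by
    calc ∑ p ∈ s, 1 / (p : ℝ) ≤ ∑ p ∈ s, 1 / (w : ℝ) := by
          refine sum_le_sum fun p hp => ?_
          have : (w : ℝ) ≤ p := by exact_mod_cast (hs p hp).2.2.le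
          gcongr
      _ = s.card * (1 / (w : ℝ)) := by rw [sum_const, nsmul_eq_mul]
      _ ≤ ((j : ℝ) + 3) * (1 / (w : ℝ)) := by
          have : (s.card : ℝ) ≤ j + 3 := by exact_mod_cast hc
          gcongr
      _ = _ := by ring
  linarith

end Pool.Agent.H532.RM
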