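import Mathlib
import Pool.Agent.H532.RM.AP1

/-!
Arithmetic progressions: concentration.
-/

namespace Pool.Agent.H532.RM

open Finset MeasureTheory Function ProbabilityTheory Filter
open scoped ENNReal Topology

/-- the survivors in the progression `n0 + q, …, n0 + q U` (their indices) -/
def Sq (a : ℕ → ℕ) (Q : Finset ℕ) (q n0 U : ℕ) : Finset ℕ :=
  (Ioc 0 U).filter (fun i => ∀ p ∈ Q, (n0 + q * i) % p ≠ a p % p)

lemma mem_Sq {a : ℕ → ℕ} {Q : Finset ℕ} {q n0 U i : ℕ} : i ∈ Sq a Q q n0 U ↔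
    (0 < i ∧ i ≤ U) ∧ ∀ p ∈ Q, (n0 + q * i) % p ≠ a p % p := by
  simp [Sq]

lemma Sq_anti (a : ℕ → ℕ) {Q Q' : Finset ℕ} (h : Q ⊆ Q') (q n0 U : ℕ) :
    Sq a Q' q n0 U ⊆ Sq a Q q n0 U := fun _ hi =>
  mem_Sq.2 ⟨(mem_Sq.1 hi).1, fun p hp => (mem_Sq.1 hi).2 p (h hp)⟩

/-- the classes of the indices -/
lemma exists_class (a : ℕ → ℕ) (q n0 : ℕ) : ∃ c : ℕ → ℕ, ∀ p : ℕ, p.Prime → ¬ p ∣ q →
    n0 + q * c p ≡ a p [MOD p] := by
  have : ∀ p : ℕ, ∃ x : ℕ, p.Prime → ¬ p ∣ q → n0 + q * x ≡ a p [MOD p] := by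
    intro p
    by_cases h : p.Prime ∧ ¬ p ∣ q
    · obtain ⟨hp, hpq⟩ := h
      have hcop : Nat.Coprime q p := ((Nat.Prime.coprime_iff_not_dvd hp).2 hpq).symm
      obtain ⟨x, hx⟩ := Nat.exists_mul_mod_eq_one_of_coprime hcop hp.one_lt
      have hx' : q * x ≡ 1 [MOD p] := by
        rw [Nat.ModEq, hx.2, Nat.mod_eq_of_lt hp.one_lt]
      refine ⟨x * (a p + (p - 1) * n0), fun _ _ => ?_⟩
      have h1 : q * (x * (a p + (p - 1) * n0)) ≡ 1 * (a p + (p - 1) * n0) [MOD p] := by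
        rw [← mul_assoc]; exact hx'.mul_right _
      have h2 : n0 + q * (x * (a p + (p - 1) * n0)) ≡ n0 + 1 * (a p + (p - 1) * n0) [MOD p] :=
        h1.add_left n0
      have h3 : n0 + 1 * (a p + (p - 1) * n0) = a p + p * n0 := by
        have : p * n0 = (p - 1) * n0 + n0 := by
          have hq1 : p = (p - 1) + 1 := by have := hp.one_lt; omega
          nth_rewrite 1 [hq1]; ring
        rw [this]; ring
      rw [h3] at h2
      refine h2.trans ?_
      simp [Nat.ModEq]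
    · exact ⟨0, fun h1 h2 => absurd ⟨h1, h2⟩ h⟩
  choose c hc using this
  exact ⟨c, hc⟩

lemma class_iff {q n0 p i j : ℕ} (hp : p.Prime) (hpq : ¬ p ∣ q) :
    (n0 + q * i) % p = (n0 + q * j) % p ↔ i % p = j % p := by
  constructor
  · intro h
    have h1 : q * i ≡ q * j [MOD p] := Nat.ModEq.add_left_cancel' n0 h
    exact Nat.ModEq.cancel_left_of_coprime ((Nat.Prime.coprime_iff_not_dvd hp).2 hpq) h1
  · intro h
    have h1 : i ≡ j [MOD p] := h
    exact (h1.mul_left q).add_left n0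

lemma Sq_eq (a : ℕ → ℕ) (q n0 : ℕ) : ∃ c : ℕ → ℕ, ∀ Z U : ℕ,
    Sq a (Qs q Z) q n0 U = TT {0} c (Qs q Z) 0 U := by
  obtain ⟨c, hc⟩ := exists_class a q n0
  refine ⟨c, fun Z U => ?_⟩
  ext i
  rw [mem_Sq, mem_T1, zero_add]
  refine and_congr Iff.rfl (forall₂_congr fun p hp => ?_)
  obtain ⟨⟨_, h1⟩, h2⟩ := mem_Qs.1 hp
  have h3 : (n0 + q * c p) % p = a p % p := hc p h1 h2
  rw [← h3, Ne, Ne, class_iff h1 h2]

lemma Sq_card_le (a : ℕ → ℕ) (q n0 Z U : ℕ) : ∃ c : ℕ → ℕ,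
    (Sq a (Qs q Z) q n0 U).card = Tc c q Z 0 U := by
  obtain ⟨c, hc⟩ := Sq_eq a q n0
  exact ⟨c, by rw [hc Z U]; rfl⟩

section
variable {Ω : Type} [MeasurableSpace Ω] {μ : Measure Ω} [IsProbabilityMeasure μ]
  {A : ℕ → Ω → ℕ}

/-- One progression. -/
theorem tailq (hA : RandomClasses μ A) (q n0 w Z : ℕ) (hw : 4 ≤ w) (hwZ : w ≤ Z) (U : ℕ) (Kh : ℝ)
    (hK1 : KK 1 (fun p => (U : ℝ) / p + 1) ((Qs q Z).filter (fun p => w < p)) ≤ Kh)
    (hK2 : ∀ p ∈ (Qs q Z).filter (fun p => w < p),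
      uu 1 ((Qs q Z).filter (fun p => w < p)) p * ((U : ℝ) / p + 1) ≤ Kh)
    (θ : ℝ) (hθ : 0 ≤ θ) (h4 : 4 * θ * Kh ≤ 1) (t M : ℝ)
    (hM : ∀ a, Vq q Z / Vq q w * (Sq a (Qs q w) q n0 U).card ≤ M) :
    μ {ω | t ≤ |((Sq (fun p => A p ω) (Qs q Z) q n0 U).card : ℝ) -
      Vq q Z / Vq q w * (Sq (fun p => A p ω) (Qs q w) q n0 U).card|} ≤
      ENNReal.ofReal (2 * Real.exp (-(θ * (t - 4 * θ * Kh * M)))) := by
  classical
  set P := (Qs q Z).filter (fun p => w < p) with hP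
  have hPp : ∀ p ∈ P, p.Prime ∧ w < p ∧ ¬ p ∣ q := fun p hp =>
    ⟨(mem_Qs.1 (mem_filter.1 hp).1).1.2, (mem_filter.1 hp).2, (mem_Qs.1 (mem_filter.1 hp).1).2⟩
  have hρ : rho 1 P = Vq q Z / Vq q w := by
    rw [rho_one, Vq_split q hwZ, mul_div_cancel_left₀ _ (Vq_pos q w).ne']
  have hun : Qs q w ∪ P = Qs q Z := by
    ext p
    simp only [hP, mem_union, mem_filter, mem_Qs]
    constructor
    · rintro (⟨⟨h1, h2⟩, h3⟩ | ⟨h1, _⟩)
      · exact ⟨⟨h1.trans hwZ, h2⟩, h3⟩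
      · exact h1
    · rintro ⟨⟨h1, h2⟩, h4⟩
      rcases le_or_gt p w with h3 | h3
      · exact Or.inl ⟨⟨h3, h2⟩, h4⟩
      · exact Or.inr ⟨⟨⟨h1, h2⟩, h4⟩, h3⟩
  have hdis : Disjoint (Qs q w) P := by
    rw [Finset.disjoint_left]
    intro p h1 h2
    have := (mem_Qs.1 h1).1.1
    have := (hPp p h2).2.1
    omega
  have htail := tail_prob hA (Qs q Z) P (fun p hp => (mem_Qs.1 hp).1.2)
    (filter_subset _ _) (fun i p => {(n0 + q * i) % p}) 1 (fun p => (U : ℝ) / p + 1) θ hθ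
    (fun a => Sq a (Qs q w) q n0 U)
    (by
      have : Qs q Z \ P = Qs q w := by
        rw [← hun, union_sdiff_right, sdiff_eq_self_of_disjoint hdis]
      rw [this]
      intro a a' h
      ext i
      rw [mem_Sq, mem_Sq]
      refine and_congr Iff.rfl (forall₂_congr fun p hp => ?_)
      rw [h p hp])
    (fun a => by
      refine ⟨fun p hp => ?_, fun i _ p hp => ⟨?_, card_singleton _⟩, fun p _ => by positivity,
        fun p hp r hr => ?_⟩
      · obtain ⟨h1, h2, _⟩ := hPp p hp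
        exact ⟨h1.pos, by omega⟩
      · rw [singleton_subset_iff, mem_range]
        exact Nat.mod_lt _ (hPp p hp).1.pos
      · obtain ⟨h1, h2, h3⟩ := hPp p hp
        have hU : (0 : ℝ) ≤ (U : ℝ) / p + 1 := by positivity
        rcases ((Sq a (Qs q w) q n0 U).filter
          (fun n => r ∈ ({(n0 + q * n) % p} : Finset ℕ))).eq_empty_or_nonempty with h4 | ⟨i0, hi0⟩
        · rw [h4, card_empty, Nat.cast_zero]; exact hU
        · have h5 := (mem_filter.1 hi0).2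
          rw [mem_singleton] at h5
          refine le_trans ?_ (card_class_le 0 U 0 p (i0 % p) h1.pos)
          have : (Sq a (Qs q w) q n0 U).filter
              (fun n => r ∈ ({(n0 + q * n) % p} : Finset ℕ)) ⊆
              (Ioc 0 (0 + U)).filter (fun n => (n + 0) % p = i0 % p) := by
            intro i hi
            obtain ⟨h6, h7⟩ := mem_filter.1 hi
            rw [mem_singleton] at h7
            refine mem_filter.2 ⟨mem_Ioc.2 (by have := (mem_Sq.1 h6).1; omega), ?_⟩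
            rw [add_zero]
            exact (class_iff h1 h3).1 (h7.symm.trans h5)
          exact_mod_cast card_le_card this)
    Kh hK1 hK2 h4 t M
    (fun a => by rw [hρ]; exact hM a)
  refine le_trans ?_ htail
  refine measure_mono_ae ?_
  filter_upwards [ae_lt hA] with ω hω h
  have h1 : surv (fun i p => ({(n0 + q * i) % p} : Finset ℕ)) P (fun p => A p ω)
      (Sq (fun p => A p ω) (Qs q w) q n0 U) = Sq (fun p => A p ω) (Qs q Z) q n0 U := by
    ext i
    unfold surv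
    rw [mem_filter, mem_Sq, mem_Sq, ← hun]
    constructor
    · rintro ⟨⟨h2, h3⟩, h4⟩
      refine ⟨h2, fun p hp => ?_⟩
      rcases mem_union.1 hp with hp | hp
      · exact h3 p hp
      · have := h4 p hp
        rw [mem_singleton] at this
        rw [Nat.mod_eq_of_lt (hω p (hPp p hp).1)]
        exact fun h => this h.symm
    · rintro ⟨h2, h3⟩
      refine ⟨⟨h2, fun p hp => h3 p (mem_union_left _ hp)⟩, fun p hp h4 => ?_⟩
      rw [mem_singleton] at h4
      have := h3 p (mem_union_right _ hp)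
      rw [Nat.mod_eq_of_lt (hω p (hPp p hp).1)] at this
      exact this h4.symm
  show t ≤ _
  rw [h1, hρ]
  exact h

end

lemma uu_q (q w Z j : ℕ) (hq : 0 < q) (hq2 : q < 2 ^ (j + 3)) (hw : 2 * (j + 3) ≤ w)
    (hj : 1 ≤ j) (p : ℕ) (hp : p ∈ (Qs q Z).filter (fun p => w < p)) :
    uu 1 ((Qs q Z).filter (fun p => w < p)) p ≤ 2 * (V Z / V p) := by
  obtain ⟨h1, h2⟩ := mem_filter.1 hp
  have h3 := (mem_Qs.1 h1).1
  have h4 := V_split h3.1
  have hw0 : (0 : ℝ) < w := by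
    have : 0 < w := by omega
    exact_mod_cast this
  have h5 : V Z / V p = ∏ r ∈ (primesLe Z).filter (fun r => p < r), (1 - 1 / (r : ℝ)) := by
    rw [h4, mul_div_cancel_left₀ _ (V_pos p).ne']
  rw [h5]
  unfold uu
  rw [rho_one]
  set s1 := ((Qs q Z).filter (fun p => w < p)).filter (fun r => p < r) with hs1
  set s2 := (primesLe Z).filter (fun r => p < r) with hs2
  have hsub : s1 ⊆ s2 := by
    intro r hr
    obtain ⟨h6, h7⟩ := mem_filter.1 hr
    exact mem_filter.2 ⟨mem_primesLe.2 (mem_Qs.1 (mem_filter.1 h6).1).1, h7⟩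
  rw [← prod_sdiff hsub]
  have h6 := prod_div_ge q w j hq hq2 hw hj (s2 \ s1) (fun r hr => by
    obtain ⟨h7, h8⟩ := mem_sdiff.1 hr
    obtain ⟨h9, h10⟩ := mem_filter.1 h7
    have h11 := mem_primesLe.1 h9
    refine ⟨h11.2, ?_, by omega⟩
    by_contra hcon
    exact h8 (mem_filter.2 ⟨mem_filter.2 ⟨mem_Qs.2 ⟨h11, hcon⟩, by omega⟩, h10⟩))
  have h7 : (1 : ℝ) / 2 ≤ 1 - ((j : ℝ) + 3) / w := by
    have : ((j : ℝ) + 3) / w ≤ 1 / 2 := by
      rw [div_le_div_iff₀ hw0 (by norm_num)]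
      have : (2 : ℝ) * ((j : ℝ) + 3) ≤ w := by exact_mod_cast hw
      linarith
    linarith
  have h8 : 0 < ∏ r ∈ s1, (1 - 1 / (r : ℝ)) := prod_pos fun r hr =>
    fac_pos (mem_primesLe.1 (mem_filter.1 (hsub hr)).1).2
  have h9 : (1 : ℝ) / 2 ≤ ∏ r ∈ s2 \ s1, (1 - 1 / (r : ℝ)) := h7.trans h6
  nlinarith

/-- The sharp bound. -/
theorem KbQ : ∃ C : ℝ, 0 < C ∧ ∀ w Z U q j : ℕ, 4 ≤ w → 0 < q → q < 2 ^ (j + 3) →
    2 * (j + 3) ≤ w → 1 ≤ j →
    KK 1 (fun p => (U : ℝ) / p + 1) ((Qs q Z).filter (fun p => w < p)) ≤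
      1 + C * (U * V Z * (Real.log w / w)) ∧
    ∀ p ∈ (Qs q Z).filter (fun p => w < p),
      uu 1 ((Qs q Z).filter (fun p => w < p)) p * ((U : ℝ) / p + 1) ≤
      1 + C * (U * V Z * (Real.log w / w)) := by
  obtain ⟨c, _, hc, _, hV⟩ := V_two_sided
  refine ⟨4 / c, by positivity, fun w Z U q j hw hq hq2 hw2 hj => ?_⟩
  set P := (Qs q Z).filter (fun p => w < p) with hP
  have hbig : ∀ p ∈ P, 0 < p ∧ 4 * 1 ≤ p := fun p hp => by
    have := (mem_filter.1 hp).2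
    omega
  have hVZ := (V_pos Z).le
  have huu : ∀ p ∈ P, uu 1 P p ≤ 2 * (V Z * Real.log p / c) := by
    intro p hp
    refine (uu_q q w Z j hq hq2 hw2 hj p hp).trans ?_
    have h1 := (mem_filter.1 hp).2
    have h2 := (hV p (by omega)).1
    have h3 := V_pos p
    have h4 := V_pos Z
    have : V Z / V p ≤ V Z * Real.log p / c := by
      rw [div_le_div_iff₀ h3 hc]
      nlinarith
    linarith
  have hlw : 0 ≤ Real.log w / (w : ℝ) := by positivity
  constructor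
  · have h1 : KK 1 (fun p => (U : ℝ) / p + 1) P = KK 1 (fun _ => 1) P +
        U * ∑ p ∈ P, uu 1 P p / (p : ℝ) ^ 2 := by
      unfold KK
      rw [mul_sum, ← sum_add_distrib]
      refine sum_congr rfl fun p hp => ?_
      have : (p : ℝ) ≠ 0 := by exact_mod_cast (hbig p hp).1.ne'
      push_cast
      field_simp
      ring
    rw [h1, KK_one]
    have h2 := rho_nonneg 1 P hbig
    have h3 : ∑ p ∈ P, uu 1 P p / (p : ℝ) ^ 2 ≤ 2 * (V Z / c * (2 * (Real.log w / w))) := by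
      calc ∑ p ∈ P, uu 1 P p / (p : ℝ) ^ 2 ≤
          ∑ p ∈ P, 2 * (V Z / c) * (Real.log p / (p : ℝ) ^ 2) := by
            refine sum_le_sum fun p hp => ?_
            have h4 := huu p hp
            calc uu 1 P p / (p : ℝ) ^ 2 ≤ (2 * (V Z * Real.log p / c)) / (p : ℝ) ^ 2 := by gcongr
              _ = 2 * (V Z / c) * (Real.log p / (p : ℝ) ^ 2) := by ring
        _ = 2 * (V Z / c) * ∑ p ∈ P, (Real.log p / (p : ℝ) ^ 2) := by rw [mul_sum]
        _ ≤ 2 * (V Z / c) * ∑ p ∈ Ioc w Z, (Real.log p / (p : ℝ) ^ 2) := by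
            gcongr
            intro p hp
            obtain ⟨a, b⟩ := mem_filter.1 hp
            exact mem_Ioc.2 ⟨b, (mem_Qs.1 a).1.1⟩
        _ ≤ 2 * (V Z / c) * (2 * (Real.log w / w)) := by
            gcongr
            exact sum_log_div_sq w Z (by omega)
        _ = _ := by ring
    have h4 : (U : ℝ) * ∑ p ∈ P, uu 1 P p / (p : ℝ) ^ 2 ≤
        U * (2 * (V Z / c * (2 * (Real.log w / w)))) := by gcongr
    have e : (U : ℝ) * (2 * (V Z / c * (2 * (Real.log w / w)))) =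
        4 / c * (U * V Z * (Real.log w / w)) := by ring
    linarith
  · intro p hp
    have h1 := uu_le_one 1 P hbig p
    have h2 := huu p hp
    have h3 := (mem_filter.1 hp).2
    have h4 := log_div_anti (by omega : 3 ≤ w) h3.le
    have h5 : uu 1 P p * ((U : ℝ) / p) ≤ 2 / c * (U * V Z * (Real.log w / w)) := by
      calc uu 1 P p * ((U : ℝ) / p) ≤ (2 * (V Z * Real.log p / c)) * ((U : ℝ) / p) := by gcongr
        _ = 2 / c * (U * V Z * (Real.log p / p)) := by ring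
        _ ≤ 2 / c * (U * V Z * (Real.log w / w)) := by gcongr
    have h6 : 0 ≤ 2 / c * (U * V Z * (Real.log w / w)) := by positivity
    have e : 4 / c * (U * V Z * (Real.log w / w)) = 2 * (2 / c * (U * V Z * (Real.log w / w))) := by
      ring
    rw [mul_add, mul_one, e]
    linarith

end Pool.Agent.H532.RM
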