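import Mathlib
import Pool.Agent.H532.RM.AP2

/-!
Arithmetic progressions: concentration in all progressions of a block.
-/

namespace Pool.Agent.H532.RM

open Finset MeasureTheory Function ProbabilityTheory Filter
open scoped ENNReal Topology

lemma wj_le_of_small (Z : ℕ → ℕ)
    (ev1 : ∀ᶠ j : ℕ in atTop, V (Z j) * j ≤ 2) : ∀ᶠ j : ℕ in atTop, wj j ≤ Z j := by
  have h1 : ∀ᶠ j : ℕ in atTop, V (Z j) < V (wj j) := by
    obtain ⟨c, _, hc, _, hV⟩ := V_two_sided
    filter_upwards [ev1, wj_tendsto.eventually_ge_atTop 2, eventually_ge_atTop 2,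
      wj_large 0, (tendsto_natCast_atTop_atTop (R := ℝ)).eventually_ge_atTop 1,
      ((Real.isLittleO_log_id_atTop.comp_tendsto (tendsto_natCast_atTop_atTop (R := ℝ))).bound
        (show (0 : ℝ) < c / 20 by positivity))] with j h1 h2 h3 _ h4 h5
    have h6 := (hV (wj j) h2).1
    have h7 := wj_log j h3
    have h8 : 0 < Real.log (wj j) := Real.log_pos (by exact_mod_cast h2)
    have h9 : (Nat.log 2 j : ℝ) * Real.log 2 ≤ Real.log j := by
      rw [← Real.log_pow]
      refine Real.log_le_log (by positivity) ?_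
      exact_mod_cast Nat.pow_log_le_self 2 (by omega)
    simp only [comp_apply, id_eq, Real.norm_eq_abs] at h5
    rw [abs_of_nonneg (Real.log_natCast_nonneg j), abs_of_nonneg (by positivity)] at h5
    have h10 := Real.log_two_gt_d9
    have h11 : Real.log (wj j) ≤ c / 2.5 * j := by
      have : (Nat.log 2 j : ℝ) * 0.69 ≤ c / 20 * j := by
        have h0 : (0 : ℝ) ≤ Nat.log 2 j := by positivity
        nlinarith
      have h0 : 0 ≤ c * (j : ℝ) := by positivity
      have e1 : c / 2.5 * (j : ℝ) = 0.4 * (c * j) := by ring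
      have e2 : c / 20 * (j : ℝ) = 0.05 * (c * j) := by ring
      rw [e2] at this
      rw [e1]
      linarith
    have h12 : c / (c / 2.5 * j) ≤ V (wj j) := by
      calc c / (c / 2.5 * j) ≤ c / Real.log (wj j) := by gcongr
        _ ≤ V (wj j) := by rw [div_le_iff₀ h8]; exact h6
    have h13 : V (Z j) ≤ 2 / j := by rw [le_div_iff₀ (by linarith)]; exact h1
    have h14 : (2 : ℝ) / j < c / (c / 2.5 * j) := by
      have e : c / (c / 2.5 * j) = 2.5 / j := by field_simp
      rw [e]
      gcongr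
      norm_num
    linarith
  filter_upwards [h1] with j hj
  by_contra h
  exact absurd (V_anti (not_le.1 h).le) (not_le.2 hj)

theorem concQ (δ : ℝ) (hδ : 0 < δ) (hδ1 : δ ≤ 1) : ∃ Λ : ℕ, 1 ≤ Λ ∧ ∀ {Ω : Type}
    [MeasurableSpace Ω] (μ : Measure Ω) [IsProbabilityMeasure μ] (A : ℕ → Ω → ℕ),
    RandomClasses μ A → ∀ Z : ℕ → ℕ,
    Tendsto (fun j : ℕ => V (Z j) * (j * Real.log 2)) atTop (𝓝 1) →
    ∀ᵐ ω ∂μ, ∀ᶠ j : ℕ in atTop, ∀ q, 0 < q → q < 2 ^ (j + 3) → ∀ m < 2 ^ (j + 3),
      ∀ U < 2 ^ (j + 3), Λ * j ^ 2 ≤ U →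
      |((Sq (fun p => A p ω) (Qs q (Z j)) q m U).card : ℝ) -
        Vq q (Z j) / Vq q (wj j) * (Sq (fun p => A p ω) (Qs q (wj j)) q m U).card| ≤
          δ * (U * Vq q (Z j)) := by
  classical
  obtain ⟨C', hC', hKb⟩ := KbQ
  obtain ⟨C0, hC0, ζ0, hup⟩ := upperQ
  set C : ℝ := max C0 1 with hC
  have hC1 : 1 ≤ C := le_max_right _ _
  obtain ⟨Λ, hΛ⟩ : ∃ Λ : ℕ, 2000 * C / δ ^ 2 ≤ Λ := exists_nat_ge _
  refine ⟨Λ + 1, by omega, ?_⟩
  intro Ω _ μ _ A hA Z hZ
  set F : ℕ → Finset ℕ := fun j => (range (2 ^ (j + 3))).filter (fun U => (Λ + 1) * j ^ 2 ≤ U)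
    with hF
  set Gq : ℕ → Finset ℕ := fun j => (range (2 ^ (j + 3))).filter (fun q => 0 < q) with hGq
  set E : ℕ → ℕ → ℕ → ℕ → Set Ω := fun j q m U =>
    {ω | δ * (U * Vq q (Z j)) ≤ |((Sq (fun p => A p ω) (Qs q (Z j)) q m U).card : ℝ) -
        Vq q (Z j) / Vq q (wj j) * (Sq (fun p => A p ω) (Qs q (wj j)) q m U).card|} with hE
  have hlog2 : (0 : ℝ) < Real.log 2 := Real.log_pos (by norm_num)
  -- `1 / j ≤ V (Z j) ≤ 2 / j`
  have ev1 : ∀ᶠ j : ℕ in atTop, V (Z j) * j ≤ 2 := by
    filter_upwards [hZ.eventually (gt_mem_nhds (by norm_num : (1 : ℝ) < 1.2))] with j hj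
    have h1 := Real.log_two_gt_d9
    have h2 := (V_pos (Z j)).le
    have h3 : 0 ≤ V (Z j) * j := by positivity
    nlinarith
  have ev1' : ∀ᶠ j : ℕ in atTop, 1 ≤ V (Z j) * j := by
    filter_upwards [hZ.eventually (lt_mem_nhds (by norm_num : (0.8 : ℝ) < 1))] with j hj
    have h1 := Real.log_two_lt_d9
    have h2 := (V_pos (Z j)).le
    have h3 : 0 ≤ V (Z j) * j := by positivity
    nlinarith
  have ev2 := wj_le_of_small Z ev1
  have ev3 := wj_large (50000 * C * C' / δ ^ 2)
  have ev4 : ∀ᶠ j : ℕ in atTop, 2 * (j + 3) ≤ wj j := by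
    filter_upwards [nlog_tendsto.eventually_ge_atTop 2, eventually_ge_atTop 2] with j hj hj2
    unfold wj
    have : 2 ^ 3 ≤ Nat.log 2 j ^ 3 := Nat.pow_le_pow_left hj 3
    calc 2 * (j + 3) ≤ j * 2 ^ 3 := by omega
      _ ≤ _ := Nat.mul_le_mul_left _ this
  have hmeas : ∀ᶠ j : ℕ in atTop,
      μ (⋃ q ∈ Gq j, ⋃ m ∈ range (2 ^ (j + 3)), ⋃ U ∈ F j, E j q m U) ≤
        ENNReal.ofReal ((1 / 2 : ℝ) ^ j) := by
    filter_upwards [ev1, ev1', ev2, ev3, ev4, wj_tendsto.eventually_ge_atTop (max 4 ζ0),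
      eventually_ge_atTop 16] with j h1 h1' h2 h3 h3' h4 h5
    have hw4 : 4 ≤ wj j := (le_max_left _ _).trans h4
    have hwζ : ζ0 ≤ wj j := (le_max_right _ _).trans h4
    have hjr : (16 : ℝ) ≤ j := by exact_mod_cast h5
    have hwr : (4 : ℝ) ≤ wj j := by exact_mod_cast hw4
    have hlw : 0 < Real.log (wj j) := Real.log_pos (by linarith)
    have hVZ := V_pos (Z j)
    have hVw := V_pos (wj j)
    have hone : ∀ q ∈ Gq j, ∀ m ∈ range (2 ^ (j + 3)), ∀ U ∈ F j, μ (E j q m U) ≤
        ENNReal.ofReal (2 * Real.exp (-(4 * ((j : ℝ) + 4)))) := by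
      intro q hq m _ U hU
      have hq' := mem_filter.1 hq
      have hq2 := mem_range.1 hq'.1
      have hU' := (mem_filter.1 hU).2
      have hUr : ((Λ : ℝ) + 1) * j ^ 2 ≤ U := by exact_mod_cast hU'
      have hΛ0 : (0 : ℝ) ≤ Λ := by positivity
      have hU0 : (0 : ℝ) < U := by nlinarith
      have hVqZ := Vq_pos q (Z j)
      have hVqw := Vq_pos q (wj j)
      have hVV := V_le_Vq q (Z j)
      set a : ℝ := C' * (U * V (Z j) * (Real.log (wj j) / wj j)) with ha
      have ha0 : 0 ≤ a := by positivity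
      obtain ⟨k1, k2⟩ := hKb (wj j) (Z j) U q j hw4 hq'.2 hq2 h3' (by omega)
      set Kh : ℝ := 1 + a with hKh
      have hKhpos : 0 < Kh := by rw [hKh]; linarith
      set θ : ℝ := δ / (16 * C * Kh) with hθ
      have hθ0 : 0 ≤ θ := by positivity
      have hθK : 4 * θ * Kh = δ / (4 * C) := by
        rw [hθ]; field_simp; ring
      have h4θ : 4 * θ * Kh ≤ 1 := by
        rw [hθK, div_le_one (by positivity)]; linarith
      have hM : ∀ c, Vq q (Z j) / Vq q (wj j) * (Sq c (Qs q (wj j)) q m U).card ≤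
          C * (U * Vq q (Z j)) := by
        intro c
        have hw2 : wj j ≤ U ^ 2 := by
          have hlj : Nat.log 2 j ≤ j := (Nat.log_lt_self 2 (by omega)).le
          have h7 : wj j ≤ j * j ^ 3 := by
            unfold wj; gcongr
          have h8 : j ^ 2 ≤ U := by
            calc j ^ 2 = 1 * j ^ 2 := (one_mul _).symm
              _ ≤ (Λ + 1) * j ^ 2 := Nat.mul_le_mul_right _ (by omega)
              _ ≤ U := hU'
          calc wj j ≤ j * j ^ 3 := h7
            _ = (j ^ 2) ^ 2 := by ring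
            _ ≤ U ^ 2 := Nat.pow_le_pow_left h8 2
        obtain ⟨c1, hc1⟩ := Sq_card_le c q m (wj j) U
        rw [hc1]
        have h7 := hup (wj j) hwζ U hw2 q c1 0
        calc Vq q (Z j) / Vq q (wj j) * (Tc c1 q (wj j) 0 U : ℝ) ≤
            Vq q (Z j) / Vq q (wj j) * (C0 * (U * Vq q (wj j))) := by gcongr
          _ = C0 * (U * Vq q (Z j)) := by field_simp
          _ ≤ C * (U * Vq q (Z j)) := by
              have : C0 ≤ C := le_max_left _ _
              gcongr
      have htail := tailq hA q m (wj j) (Z j) hw4 h2 U Kh k1 k2 θ hθ0 h4θ (δ * (U * Vq q (Z j)))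
        (C * (U * Vq q (Z j))) hM
      refine htail.trans (ENNReal.ofReal_le_ofReal ?_)
      have hexp : 4 * ((j : ℝ) + 4) ≤
          θ * (δ * (U * Vq q (Z j)) - 4 * θ * Kh * (C * (U * Vq q (Z j)))) := by
        rw [hθK]
        have e1 : δ * (U * Vq q (Z j)) - δ / (4 * C) * (C * (U * Vq q (Z j))) =
            3 / 4 * δ * (U * Vq q (Z j)) := by
          field_simp; ring
        rw [e1]
        have h8 : (U : ℝ) / j ≤ U * Vq q (Z j) := by
          rw [div_le_iff₀ (by linarith)]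
          calc (U : ℝ) = U * 1 := (mul_one _).symm
            _ ≤ U * (V (Z j) * j) := by gcongr
            _ ≤ U * (Vq q (Z j) * j) := by gcongr
            _ = U * Vq q (Z j) * j := by ring
        have h9 : δ / 2 * (U / j) ≤ 3 / 4 * δ * (U * Vq q (Z j)) := by
          calc δ / 2 * (U / j) ≤ δ / 2 * (U * Vq q (Z j)) := by gcongr
            _ ≤ 3 / 4 * δ * (U * Vq q (Z j)) := by
              gcongr
              linarith
        refine le_trans ?_ (mul_le_mul_of_nonneg_left h9 hθ0)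
        have e2 : θ * (δ / 2 * (U / j)) = δ ^ 2 * (U / j) / (32 * C * Kh) := by
          rw [hθ]; field_simp; ring
        rw [e2, le_div_iff₀ (by positivity)]
        have h11 : 4 * ((j : ℝ) + 4) ≤ 5 * j := by linarith
        have h12 : 5 * (j : ℝ) * (32 * C) ≤ δ ^ 2 * (U / j) / 2 := by
          have h13 : 2000 * C ≤ Λ * δ ^ 2 := by
            rwa [div_le_iff₀ (by positivity)] at hΛ
          have h14 : (Λ : ℝ) * j ≤ U / j := by
            rw [le_div_iff₀ (by linarith)]
            nlinarith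
          have h15 : δ ^ 2 * (Λ * j) ≤ δ ^ 2 * (U / j) := by gcongr
          nlinarith
        have h16 : 5 * (j : ℝ) * (32 * C) * a ≤ δ ^ 2 * (U / j) / 2 := by
          have h17 : 50000 * C * C' * (j * Real.log (wj j)) ≤ δ ^ 2 * wj j := by
            have : 50000 * C * C' / δ ^ 2 * j * Real.log (wj j) =
              50000 * C * C' * (j * Real.log (wj j)) / δ ^ 2 := by ring
            rw [this, div_le_iff₀ (by positivity)] at h3
            linarith
          have h8' : U * V (Z j) ≤ 2 * (U / j) := by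
            rw [← mul_div_assoc, le_div_iff₀ (by linarith)]
            nlinarith
          have h18 : a ≤ C' * (2 * (U / j) * (Real.log (wj j) / wj j)) := by
            rw [ha]; gcongr
          calc 5 * (j : ℝ) * (32 * C) * a ≤
              5 * (j : ℝ) * (32 * C) * (C' * (2 * (U / j) * (Real.log (wj j) / wj j))) := by
                gcongr
            _ = 320 * (C * C' * (j * Real.log (wj j)) / wj j) * (U / j) := by ring
            _ ≤ (δ ^ 2 / 2) * (U / j) := by
                have : 320 * (C * C' * (j * Real.log (wj j)) / wj j) ≤ δ ^ 2 / 2 := by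
                  rw [← mul_div_assoc, div_le_iff₀ (by linarith)]
                  have h19 : 0 ≤ C * C' * (j * Real.log (wj j)) := by positivity
                  nlinarith
                gcongr
            _ = δ ^ 2 * (U / j) / 2 := by ring
        have hKh0 : 0 ≤ 32 * C * Kh := by positivity
        calc 4 * ((j : ℝ) + 4) * (32 * C * Kh) ≤ 5 * j * (32 * C * Kh) := by gcongr
          _ = 5 * j * (32 * C) + 5 * j * (32 * C) * a := by rw [hKh]; ring
          _ ≤ δ ^ 2 * (U / j) := by linarith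
      gcongr
    calc μ (⋃ q ∈ Gq j, ⋃ m ∈ range (2 ^ (j + 3)), ⋃ U ∈ F j, E j q m U)
        ≤ ∑ q ∈ Gq j, μ (⋃ m ∈ range (2 ^ (j + 3)), ⋃ U ∈ F j, E j q m U) :=
          measure_biUnion_finset_le _ _
      _ ≤ ∑ q ∈ Gq j, ∑ m ∈ range (2 ^ (j + 3)), μ (⋃ U ∈ F j, E j q m U) := by
          gcongr with q hq
          exact measure_biUnion_finset_le _ _
      _ ≤ ∑ q ∈ Gq j, ∑ m ∈ range (2 ^ (j + 3)), ∑ U ∈ F j, μ (E j q m U) := by
          gcongr with q hq m hm
          exact measure_biUnion_finset_le _ _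
      _ ≤ ∑ q ∈ Gq j, ∑ m ∈ range (2 ^ (j + 3)), ∑ U ∈ F j,
            ENNReal.ofReal (2 * Real.exp (-(4 * ((j : ℝ) + 4)))) := by
          gcongr with q hq m hm U hU
          exact hone q hq m hm U hU
      _ ≤ ∑ q ∈ range (2 ^ (j + 3)), ∑ m ∈ range (2 ^ (j + 3)), ∑ U ∈ range (2 ^ (j + 3)),
            ENNReal.ofReal (2 * Real.exp (-(4 * ((j : ℝ) + 4)))) := by
          refine (sum_le_sum fun q _ => sum_le_sum fun m _ =>
            sum_le_sum_of_subset (filter_subset _ _)).trans ?_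
          exact sum_le_sum_of_subset (filter_subset _ _)
      _ = ENNReal.ofReal ((2 : ℝ) ^ (j + 3) * ((2 : ℝ) ^ (j + 3) * ((2 : ℝ) ^ (j + 3) *
            (2 * Real.exp (-(4 * ((j : ℝ) + 4))))))) := by
          rw [sum_const, sum_const, sum_const, card_range, nsmul_eq_mul, nsmul_eq_mul,
            nsmul_eq_mul]
          have hp0 : (0 : ℝ) ≤ (2 : ℝ) ^ (j + 3) := by positivity
          have : ENNReal.ofReal ((2 : ℝ) ^ (j + 3)) = ((2 ^ (j + 3) : ℕ) : ℝ≥0∞) := by
            rw [← ENNReal.ofReal_natCast]; push_cast; rfl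
          rw [ENNReal.ofReal_mul hp0, ENNReal.ofReal_mul hp0, ENNReal.ofReal_mul hp0, this]
      _ ≤ ENNReal.ofReal ((1 / 2 : ℝ) ^ j) := by
          refine ENNReal.ofReal_le_ofReal ?_
          have h3 : Real.exp (-(4 * ((j : ℝ) + 4))) ≤ (1 / 16 : ℝ) ^ (j + 4) := by
            have h4 : Real.exp (-4) ≤ 1 / 16 := by
              rw [Real.exp_neg, ← one_div]
              refine one_div_le_one_div_of_le (by norm_num) ?_
              have h5 := Real.exp_one_gt_d9
              have h6 : Real.exp 4 = Real.exp 1 ^ 4 := by rw [← Real.exp_nat_mul]; norm_num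
              rw [h6]
              have h7 : (2 : ℝ) ≤ Real.exp 1 := by linarith
              calc (16 : ℝ) = 2 ^ 4 := by norm_num
                _ ≤ Real.exp 1 ^ 4 := by gcongr
            calc Real.exp (-(4 * ((j : ℝ) + 4))) = Real.exp (-4) ^ (j + 4) := by
                  rw [← Real.exp_nat_mul]; congr 1; push_cast; ring
              _ ≤ (1 / 16 : ℝ) ^ (j + 4) := by gcongr
          calc (2 : ℝ) ^ (j + 3) * ((2 : ℝ) ^ (j + 3) * ((2 : ℝ) ^ (j + 3) *
                (2 * Real.exp (-(4 * ((j : ℝ) + 4))))))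
              ≤ 2 ^ (j + 3) * (2 ^ (j + 3) * (2 ^ (j + 3) * (2 * (1 / 16 : ℝ) ^ (j + 4)))) := by
                gcongr
            _ = (1 / 64) * (1 / 2) ^ j := by
                have e1 : (1 / 16 : ℝ) ^ (j + 4) = ((1 / 2) ^ (j + 3) * (1 / 2) ^ (j + 3) *
                    (1 / 2) ^ (j + 3)) * ((1 / 2) ^ j * (1 / 128)) := by
                  have e2 : (1 / 16 : ℝ) = (1 / 2) ^ 4 := by norm_num
                  rw [e2, ← pow_mul, ← pow_add, ← pow_add, show (1 / 128 : ℝ) = (1 / 2) ^ 7 by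
                    norm_num, ← pow_add, ← pow_add]
                  congr 1
                  ring
                rw [e1]
                have h5 : (2 : ℝ) ^ (j + 3) * (1 / 2) ^ (j + 3) = 1 := by
                  rw [← mul_pow]; norm_num
                calc (2 : ℝ) ^ (j + 3) * (2 ^ (j + 3) * (2 ^ (j + 3) * (2 *
                    ((1 / 2) ^ (j + 3) * (1 / 2) ^ (j + 3) * (1 / 2) ^ (j + 3) *
                      ((1 / 2) ^ j * (1 / 128))))))
                    = (2 ^ (j + 3) * (1 / 2) ^ (j + 3)) * (2 ^ (j + 3) * (1 / 2) ^ (j + 3)) *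
                      (2 ^ (j + 3) * (1 / 2) ^ (j + 3)) *
                      (2 * ((1 / 2) ^ j * (1 / 128))) := by ring
                  _ = (1 / 64) * (1 / 2) ^ j := by rw [h5]; ring
            _ ≤ (1 / 2 : ℝ) ^ j := by
                have h7 : (0 : ℝ) ≤ (1 / 2 : ℝ) ^ j := by positivity
                linarith
  have hbc := borel_cantelli_nat μ _ hmeas
  filter_upwards [hbc] with ω hω
  filter_upwards [hω] with j hj q hq hq2 m hm U hU hΛU
  by_contra hcon
  refine hj ?_
  refine Set.mem_biUnion (x := q) (mem_coe.2 (mem_filter.2 ⟨mem_range.2 hq2, hq⟩)) ?_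
  refine Set.mem_biUnion (x := m) (mem_coe.2 (mem_range.2 hm)) ?_
  refine Set.mem_biUnion (x := U) (mem_coe.2 (mem_filter.2 ⟨mem_range.2 hU, hΛU⟩)) ?_
  exact (not_le.1 hcon).le

end Pool.Agent.H532.RM
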