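import Mathlib
import Pool.Agent.H532.RM.AP3

/-!
Arithmetic progressions: the extremal numbers of elements in a block.
-/

namespace Pool.Agent.H532.RM

open Finset MeasureTheory Function ProbabilityTheory Filter
open scoped ENNReal Topology

/-- the largest number of survivors in an interval -/
noncomputable def smaxq (q U Z : ℕ) : ℕ := ⨆ m : ℕ, Tc (fun _ => 0) q Z m U

/-- the smallest number of survivors in an interval -/
noncomputable def sminq (q U Z : ℕ) : ℕ := ⨅ m : ℕ, Tc (fun _ => 0) q Z m U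

lemma bdd_Tc (c : ℕ → ℕ) (q U Z : ℕ) : BddAbove (Set.range fun m : ℕ => Tc c q Z m U) :=
  ⟨U, by rintro _ ⟨m, rfl⟩; exact Tc_le c q Z m U⟩

lemma le_smaxq (q m U Z : ℕ) : Tc (fun _ => 0) q Z m U ≤ smaxq q U Z :=
  le_ciSup (bdd_Tc (fun _ => 0) q U Z) m

lemma sminq_le (q m U Z : ℕ) : sminq q U Z ≤ Tc (fun _ => 0) q Z m U :=
  ciInf_le ⟨0, fun _ _ => Nat.zero_le _⟩ m

lemma exists_smaxq (q U Z : ℕ) : ∃ m, Tc (fun _ => 0) q Z m U = smaxq q U Z :=
  Nat.sSup_mem (Set.range_nonempty fun m : ℕ => Tc (fun _ => 0) q Z m U)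
    (bdd_Tc (fun _ => 0) q U Z)

lemma exists_sminq (q U Z : ℕ) : ∃ m, Tc (fun _ => 0) q Z m U = sminq q U Z :=
  Nat.sInf_mem (Set.range_nonempty fun m : ℕ => Tc (fun _ => 0) q Z m U)

/-- windows which agree modulo all primes of `Q` -/
lemma TT_shift (c c' : ℕ → ℕ) (Q : Finset ℕ) (m m' : ℕ)
    (h : ∀ p ∈ Q, m + c' p ≡ m' + c p [MOD p]) (U : ℕ) :
    (TT {0} c Q m U).card = (TT {0} c' Q m' U).card := by
  have key : ∀ p ∈ Q, ∀ k : ℕ, ((m + k) % p = c p % p ↔ (m' + k) % p = c' p % p) := by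
    intro p hp k
    have h1 := h p hp
    constructor
    · intro h2
      have h3 : m + k ≡ c p [MOD p] := h2
      have h4 : m' + c p + k ≡ m + c' p + k [MOD p] := (h1.add_right k).symm
      have h5 : m + c' p + k ≡ c' p + c p [MOD p] := by
        have := h3.add_right (c' p)
        have e1 : m + k + c' p = m + c' p + k := by ring
        have e2 : c p + c' p = c' p + c p := by ring
        rwa [e1, e2] at this
      have h6 : m' + k + c p ≡ c' p + c p [MOD p] := by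
        have e1 : m' + k + c p = m' + c p + k := by ring
        rw [e1]; exact h4.trans h5
      exact Nat.ModEq.add_right_cancel' _ h6
    · intro h2
      have h3 : m' + k ≡ c' p [MOD p] := h2
      have h4 : m + c' p + k ≡ m' + c p + k [MOD p] := (h1.add_right k)
      have h5 : m' + c p + k ≡ c p + c' p [MOD p] := by
        have := h3.add_right (c p)
        have e1 : m' + k + c p = m' + c p + k := by ring
        have e2 : c' p + c p = c p + c' p := by ring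
        rwa [e1, e2] at this
      have h6 : m + k + c' p ≡ c p + c' p [MOD p] := by
        have e1 : m + k + c' p = m + c' p + k := by ring
        rw [e1]; exact h4.trans h5
      exact Nat.ModEq.add_right_cancel' _ h6
  refine card_bij (fun n _ => m' + (n - m)) ?_ ?_ ?_
  · intro n hn
    obtain ⟨⟨h1, h2⟩, h3⟩ := mem_T1.1 hn
    refine mem_T1.2 ⟨⟨by omega, by omega⟩, fun p hp h4 => ?_⟩
    have h5 := (key p hp (n - m)).2 h4
    have e : m + (n - m) = n := by omega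
    rw [e] at h5
    exact h3 p hp h5
  · intro n hn n' hn' h
    have h1 := (mem_T1.1 hn).1
    have h2 := (mem_T1.1 hn').1
    omega
  · intro n hn
    obtain ⟨⟨h1, h2⟩, h3⟩ := mem_T1.1 hn
    refine ⟨m + (n - m'), mem_T1.2 ⟨⟨by omega, by omega⟩, fun p hp h4 => ?_⟩, by omega⟩
    have h5 := (key p hp (n - m')).1 h4
    have e : m' + (n - m') = n := by omega
    rw [e] at h5
    exact h3 p hp h5

lemma Tc_crt (c : ℕ → ℕ) (q Z m : ℕ) : ∃ m', ∀ U, Tc c q Z m U = Tc (fun _ => 0) q Z m' U := by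
  obtain ⟨x, _, _, hx⟩ := crt Z (fun p => m + (p - c p % p)) 0
  refine ⟨x, fun U => TT_shift c (fun _ => 0) _ m x (fun p hp => ?_) U⟩
  have hp1 : p ∈ primesLe Z := (mem_filter.1 hp).1
  have h1 := hx p hp1
  have hp0 := (mem_primesLe.1 hp1).2.pos
  have h2 : x + c p ≡ m + (p - c p % p) + c p [MOD p] := h1.add_right _
  refine Nat.ModEq.symm (h2.trans ?_)
  have h3 : m + (p - c p % p) + c p ≡ m + (p - c p % p) + c p % p [MOD p] :=
    (Nat.mod_modEq (c p) p).symm.add_left _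
  refine h3.trans ?_
  have h4 : c p % p < p := Nat.mod_lt _ hp0
  have e : m + (p - c p % p) + c p % p = m + 0 + p := by omega
  rw [e]
  simp [Nat.ModEq]

lemma Tc_le_smaxq (c : ℕ → ℕ) (q Z m U : ℕ) : Tc c q Z m U ≤ smaxq q U Z := by
  obtain ⟨m', h⟩ := Tc_crt c q Z m
  rw [h U]; exact le_smaxq q m' U Z

lemma sminq_le_Tc (c : ℕ → ℕ) (q Z m U : ℕ) : sminq q U Z ≤ Tc c q Z m U := by
  obtain ⟨m', h⟩ := Tc_crt c q Z m
  rw [h U]; exact sminq_le q m' U Z

lemma smaxq_anti (q : ℕ) {z w : ℕ} (h : z ≤ w) (U : ℕ) : smaxq q U w ≤ smaxq q U z := by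
  obtain ⟨m, hm⟩ := exists_smaxq q U w
  rw [← hm]
  exact (Tc_anti _ q h m U).trans (le_smaxq q m U z)

lemma sminq_anti (q : ℕ) {z w : ℕ} (h : z ≤ w) (U : ℕ) : sminq q U w ≤ sminq q U z := by
  obtain ⟨m, hm⟩ := exists_sminq q U z
  rw [← hm]
  exact (sminq_le q m U w).trans (Tc_anti _ q h m U)

/-- the progression meets no class of a prime divisor of the modulus -/
def Adm' (a : ℕ → ℕ) (q n : ℕ) : Prop := ∀ p : ℕ, p.Prime → p ∣ q → ¬ n ≡ a p [MOD p]

/-- every pattern occurs for an admissible progression -/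
lemma attain_q (a : ℕ → ℕ) (q v w j : ℕ) (hq : 0 < q) (hq2 : q < 2 ^ (j + 3)) (hvw : v ≤ w)
    (hj : 1 ≤ j) (hsum : Real.log (V v / V w) + ((j : ℝ) + 3) / w ≤ 1 / 4) (hw : 0 < w)
    (m B E : ℕ) (hE : 4 ^ v * (2 * j + 7) ≤ E) : ∃ n, B ≤ n ∧ n < B + E ∧ Adm' a q n ∧
      ∀ U, (Sq a (Qs q v) q n U).card = Tc (fun _ => 0) q v m U := by
  classical
  set r : ℕ → ℕ := fun p => if p ∣ q then a p + 1 else a p + q * m with hr
  obtain ⟨x, hx1, hx2, hx3⟩ := crt v r B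
  set P := primorial v with hP
  have hPpos : 0 < P := primorial_pos v
  have hP4 : P ≤ 4 ^ v := primorial_le_four_pow v
  have hPd : ∀ p ∈ primesLe v, p ∣ P := fun p hp => by
    have hPe : P = ∏ p ∈ primesLe v, p := rfl
    rw [hPe]; exact dvd_prod_of_mem _ hp
  set K := 2 * (j + 3) with hK
  set D := q.primeFactors.filter (fun p => v < p) with hD
  have hDp : ∀ p ∈ D, p.Prime ∧ p ∣ q ∧ v < p := fun p hp => by
    obtain ⟨h1, h2⟩ := mem_filter.1 hp
    exact ⟨Nat.prime_of_mem_primeFactors h1, Nat.dvd_of_mem_primeFactors h1, h2⟩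
  set bad : ℕ → Finset ℕ := fun p => (Ioc 0 (0 + K)).filter (fun k => (x + P * k) % p = a p % p)
    with hbad
  have hbadc : ∀ p ∈ D, ((bad p).card : ℝ) ≤ K / p + 1 := by
    intro p hp
    obtain ⟨h1, h2, h3⟩ := hDp p hp
    have hpP : ¬ p ∣ P := by
      intro h
      have := (Nat.Prime.dvd_primorial_iff h1).1 h
      omega
    rcases (bad p).eq_empty_or_nonempty with h4 | ⟨k0, hk0⟩
    · rw [h4, card_empty, Nat.cast_zero]
      positivity
    · have h5 := (mem_filter.1 hk0).2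
      refine le_trans ?_ (card_class_le 0 K 0 p (k0 % p) h1.pos)
      have : bad p ⊆ (Ioc 0 (0 + K)).filter (fun n => (n + 0) % p = k0 % p) := by
        intro k hk
        obtain ⟨h6, h7⟩ := mem_filter.1 hk
        refine mem_filter.2 ⟨h6, ?_⟩
        rw [add_zero]
        exact (class_iff h1 hpP).1 (h7.trans h5.symm)
      exact_mod_cast card_le_card this
  have hDsum : ∑ p ∈ D, 1 / (p : ℝ) ≤ 1 / 4 := by
    have h1 : ∑ p ∈ D, 1 / (p : ℝ) = ∑ p ∈ D.filter (fun p => p ≤ w), 1 / (p : ℝ) +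
        ∑ p ∈ D.filter (fun p => ¬ p ≤ w), 1 / (p : ℝ) :=
      (sum_filter_add_sum_filter_not D (fun p => p ≤ w) _).symm
    have h2 : ∑ p ∈ D.filter (fun p => p ≤ w), 1 / (p : ℝ) ≤ Real.log (V v / V w) := by
      refine le_trans ?_ (sum_inv_le v w hvw)
      refine sum_le_sum_of_subset_of_nonneg (fun p hp => ?_) (fun _ _ _ => by positivity)
      obtain ⟨h3, h4⟩ := mem_filter.1 hp
      obtain ⟨h5, h6, h7⟩ := hDp p h3
      exact mem_filter.2 ⟨mem_primesLe.2 ⟨h4, h5⟩, h7⟩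
    have h3 : ∑ p ∈ D.filter (fun p => ¬ p ≤ w), 1 / (p : ℝ) ≤ ((j : ℝ) + 3) / w := by
      have hw0 : (0 : ℝ) < w := by exact_mod_cast hw
      have hc := card_div q w j hq hq2 (D.filter (fun p => ¬ p ≤ w)) fun p hp =>
        ⟨(hDp p (mem_filter.1 hp).1).1, (hDp p (mem_filter.1 hp).1).2.1⟩
      calc ∑ p ∈ D.filter (fun p => ¬ p ≤ w), 1 / (p : ℝ) ≤
          ∑ p ∈ D.filter (fun p => ¬ p ≤ w), 1 / (w : ℝ) := by
            refine sum_le_sum fun p hp => ?_
            have h4 := (mem_filter.1 hp).2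
            have : (w : ℝ) ≤ p := by exact_mod_cast (not_le.1 h4).le
            gcongr
        _ = (D.filter (fun p => ¬ p ≤ w)).card * (1 / (w : ℝ)) := by rw [sum_const, nsmul_eq_mul]
        _ ≤ ((j : ℝ) + 3) * (1 / (w : ℝ)) := by
            have : ((D.filter (fun p => ¬ p ≤ w)).card : ℝ) ≤ j + 3 := by exact_mod_cast hc
            gcongr
        _ = _ := by ring
    linarith
  have hDc : D.card ≤ j + 3 := card_div q w j hq hq2 D fun p hp => ⟨(hDp p hp).1, (hDp p hp).2.1⟩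
  have htot : ((D.biUnion bad).card : ℝ) < K := by
    have h1 : ((D.biUnion bad).card : ℝ) ≤ ∑ p ∈ D, ((bad p).card : ℝ) := by
      exact_mod_cast card_biUnion_le
    have h2 : ∑ p ∈ D, ((bad p).card : ℝ) ≤ ∑ p ∈ D, (K * (1 / (p : ℝ)) + 1) := by
      refine sum_le_sum fun p hp => (hbadc p hp).trans_eq ?_
      ring
    have h3 : ∑ p ∈ D, (K * (1 / (p : ℝ)) + 1) = K * ∑ p ∈ D, 1 / (p : ℝ) + D.card := by
      rw [sum_add_distrib, mul_sum]; simp
    have h4 : (D.card : ℝ) ≤ j + 3 := by exact_mod_cast hDc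
    have h5 : (K : ℝ) = 2 * ((j : ℝ) + 3) := by rw [hK]; push_cast; ring
    have h6 : (K : ℝ) * ∑ p ∈ D, 1 / (p : ℝ) ≤ K * (1 / 4) := by gcongr
    have h7 : (0 : ℝ) ≤ j := Nat.cast_nonneg j
    rw [h5] at h6 ⊢
    rw [h3, h5] at h2
    linarith
  obtain ⟨k, hk1, hk2⟩ : ∃ k ∈ Ioc 0 (0 + K), k ∉ D.biUnion bad := by
    by_contra hcon
    push Not at hcon
    have h1 : Ioc 0 (0 + K) ⊆ D.biUnion bad := fun k hk => hcon k hk
    have h2 := card_le_card h1
    rw [Nat.card_Ioc, zero_add, Nat.sub_zero] at h2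
    have h3 : (K : ℝ) ≤ ((D.biUnion bad).card : ℝ) := by exact_mod_cast h2
    linarith
  have hk1' := mem_Ioc.1 hk1
  have hcong : ∀ p ∈ primesLe v, x + P * k ≡ r p [MOD p] := by
    intro p hp
    refine Nat.ModEq.trans ?_ (hx3 p hp)
    obtain ⟨t, ht⟩ := hPd p hp
    rw [ht, mul_assoc]
    simp [Nat.ModEq]
  refine ⟨x + P * k, by omega, ?_, ?_, ?_⟩
  · have h1 : P * k ≤ 4 ^ v * (2 * (j + 3)) := by
      refine Nat.mul_le_mul hP4 ?_
      omega
    have h2 : 4 ^ v + 4 ^ v * (2 * (j + 3)) = 4 ^ v * (2 * j + 7) := by ring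
    omega
  · intro p hp hpq hmod
    rcases le_or_gt p v with h1 | h1
    · have h2 := hcong p (mem_primesLe.2 ⟨h1, hp⟩)
      simp only [hr, if_pos hpq] at h2
      have h3 : a p + 0 ≡ a p + 1 [MOD p] := by
        rw [add_zero]; exact hmod.symm.trans h2
      have h4 : 0 ≡ 1 [MOD p] := Nat.ModEq.add_left_cancel' _ h3
      have h5 := (Nat.modEq_iff_dvd' (Nat.zero_le 1)).1 h4
      exact hp.one_lt.ne' (Nat.dvd_one.1 (by simpa using h5))
    · refine hk2 (mem_biUnion.2 ⟨p, mem_filter.2 ⟨?_, h1⟩, ?_⟩)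
      · exact Nat.mem_primeFactors.2 ⟨hp, hpq, hq.ne'⟩
      · exact mem_filter.2 ⟨hk1, hmod⟩
  · intro U
    have h1 : (TT {0} (fun _ => 0) (Qs q v) m U).card =
        (TT {0} (fun p => p * m + (p - m % p)) (Qs q v) 0 U).card := by
      refine TT_shift _ _ _ _ _ (fun p hp => ?_) U
      have hp0 := (mem_Qs.1 hp).1.2.pos
      have h2 : m ≡ m % p [MOD p] := (Nat.mod_modEq m p).symm
      have h3 : m + (p * m + (p - m % p)) ≡ m % p + (p * m + (p - m % p)) [MOD p] :=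
        h2.add_right _
      refine h3.trans ?_
      have h4 : m % p < p := Nat.mod_lt _ hp0
      have e : m % p + (p * m + (p - m % p)) = p * m + p := by omega
      rw [e]
      simp [Nat.ModEq]
    show _ = (TT {0} (fun _ => 0) (Qs q v) m U).card
    rw [h1]
    congr 1
    ext i
    rw [mem_Sq, mem_T1, zero_add]
    refine and_congr Iff.rfl (forall₂_congr fun p hp => ?_)
    obtain ⟨⟨hpv, hpp⟩, hpq⟩ := mem_Qs.1 hp
    have h2 := hcong p (mem_primesLe.2 ⟨hpv, hpp⟩)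
    simp only [hr, if_neg hpq] at h2
    -- `n + q i ≡ a p` iff `i + m ≡ 0`
    have hp0 := hpp.pos
    rw [Ne, Ne, not_iff_not]
    have h3 : (x + P * k + q * i) % p = a p % p ↔ (0 + q * (m + i)) % p = (0 + q * 0) % p := by
      constructor
      · intro h4
        have h5 : x + P * k + q * i ≡ a p [MOD p] := h4
        have h6 : a p + q * m + q * i ≡ a p + 0 [MOD p] := by
          rw [add_zero]; exact (h2.symm.add_right (q * i)).trans h5
        have h7 : q * m + q * i ≡ 0 [MOD p] := by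
          rw [add_assoc] at h6
          exact Nat.ModEq.add_left_cancel' _ h6
        rw [zero_add, mul_add, zero_add, mul_zero]
        exact h7
      · intro h4
        rw [zero_add, mul_add, zero_add, mul_zero] at h4
        have h7 : q * m + q * i ≡ 0 [MOD p] := h4
        have h5 : x + P * k + q * i ≡ a p + q * m + q * i [MOD p] := h2.add_right _
        have h6 : a p + (q * m + q * i) ≡ a p + 0 [MOD p] := h7.add_left _
        rw [← add_assoc, add_zero] at h6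
        exact h5.trans h6
    rw [h3, class_iff hpp hpq]
    constructor
    · intro h4
      have h5 : m + i ≡ 0 [MOD p] := h4
      show i ≡ p * m + (p - m % p) [MOD p]
      have h6 : m + i ≡ m + (p * m + (p - m % p)) [MOD p] := by
        refine h5.trans (Nat.ModEq.symm ?_)
        have h7 : m + (p * m + (p - m % p)) ≡ m % p + (p * m + (p - m % p)) [MOD p] :=
          (Nat.mod_modEq m p).symm.add_right _
        refine h7.trans ?_
        have h4 : m % p < p := Nat.mod_lt _ hp0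
        have e : m % p + (p * m + (p - m % p)) = p * m + p := by omega
        rw [e]
        simp [Nat.ModEq]
      exact Nat.ModEq.add_left_cancel' _ h6
    · intro h4
      have h5 : i ≡ p * m + (p - m % p) [MOD p] := h4
      show m + i ≡ 0 [MOD p]
      have h6 : m + i ≡ m % p + (p * m + (p - m % p)) [MOD p] :=
        (Nat.mod_modEq m p).symm.add h5
      refine h6.trans ?_
      have h4 : m % p < p := Nat.mod_lt _ hp0
      have e : m % p + (p * m + (p - m % p)) = p * m + p := by omega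
      rw [e]
      simp [Nat.ModEq]

/-- normalised maximum -/
noncomputable def rpq (q U ζ : ℕ) : ℝ := smaxq q U ζ / (U * Vq q ζ)
/-- normalised minimum -/
noncomputable def rmq (q U ζ : ℕ) : ℝ := sminq q U ζ / (U * Vq q ζ)

lemma rpq_nonneg (q U ζ : ℕ) : 0 ≤ rpq q U ζ := by
  have := (Vq_pos q ζ).le
  unfold rpq; positivity

lemma rmq_nonneg (q U ζ : ℕ) : 0 ≤ rmq q U ζ := by
  have := (Vq_pos q ζ).le
  unfold rmq; positivity

lemma rmq_le_rpq (q U ζ : ℕ) : rmq q U ζ ≤ rpq q U ζ := by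
  have := (Vq_pos q ζ).le
  have h : (sminq q U ζ : ℝ) ≤ smaxq q U ζ := by
    exact_mod_cast (sminq_le q 0 U ζ).trans (le_smaxq q 0 U ζ)
  unfold rmq rpq
  gcongr

/-- the normalised maximum is bounded -/
lemma rpq_bdd : ∃ C : ℝ, 0 < C ∧ ∃ ζ0 : ℕ, ∀ ζ : ℕ, ζ0 ≤ ζ → ∀ q U : ℕ, 0 < U → ζ ≤ U ^ 2 →
    rpq q U ζ ≤ C := by
  obtain ⟨C2, hC2, ζ2, hup⟩ := upperQ
  refine ⟨C2, hC2, ζ2, fun ζ hζ q U hU hζU => ?_⟩
  obtain ⟨m, hm⟩ := exists_smaxq q U ζ
  have h1 := hup ζ hζ U hζU q (fun _ => 0) m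
  rw [hm] at h1
  have hVζ := Vq_pos q ζ
  have hUr : (0 : ℝ) < U := by exact_mod_cast hU
  unfold rpq
  rw [div_le_iff₀ (by positivity)]
  exact h1

/-- the progressions of a block -/
def BlockQ (a : ℕ → ℕ) (Z : ℕ → ℕ) (δ : ℝ) (Λ j : ℕ) : Prop :=
  ∀ q : ℕ, 0 < q → q < 2 ^ (j + 3) → ∀ U : ℕ, Λ * j ^ 2 ≤ U → U < 2 ^ (j + 3) → ∀ ζ : ℕ,
    vj j ≤ ζ → ζ ≤ wj j →
    (∀ m < 2 ^ (j + 3),
      rmq q U ζ - δ ≤ ((Sq a (Qs q (Z j)) q m U).card : ℝ) / (U * Vq q (Z j)) ∧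
      ((Sq a (Qs q (Z j)) q m U).card : ℝ) / (U * Vq q (Z j)) ≤ rpq q U ζ + δ) ∧
    (∀ B E : ℕ, 4 ^ vj j * (2 * j + 7) ≤ E → B + E ≤ 2 ^ (j + 3) →
      (∃ x, B ≤ x ∧ x < B + E ∧ Adm' a q x ∧
        rpq q U ζ - δ ≤ ((Sq a (Qs q (Z j)) q x U).card : ℝ) / (U * Vq q (Z j))) ∧
      (∃ x, B ≤ x ∧ x < B + E ∧ Adm' a q x ∧
        ((Sq a (Qs q (Z j)) q x U).card : ℝ) / (U * Vq q (Z j)) ≤ rmq q U ζ + δ))

theorem blockQ (δ : ℝ) (hδ : 0 < δ) : ∃ Λ : ℕ, 1 ≤ Λ ∧ ∀ {Ω : Type}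
    [MeasurableSpace Ω] (μ : Measure Ω) [IsProbabilityMeasure μ] (A : ℕ → Ω → ℕ),
    RandomClasses μ A → ∀ Z : ℕ → ℕ,
    Tendsto (fun j : ℕ => V (Z j) * (j * Real.log 2)) atTop (𝓝 1) →
    ∀ᵐ ω ∂μ, ∀ᶠ j : ℕ in atTop, BlockQ (fun p => A p ω) Z δ Λ j := by
  obtain ⟨C1, hC1, ζ1, hloss⟩ := lossQ
  obtain ⟨C2, hC2, ζ2, hup⟩ := upperQ
  set C : ℝ := max (max C1 C2) 1 with hC
  have hC11 : C1 ≤ C := (le_max_left _ _).trans (le_max_left _ _)
  have hC22 : C2 ≤ C := (le_max_right _ _).trans (le_max_left _ _)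
  have hC10 : 1 ≤ C := le_max_right _ _
  set δ0 : ℝ := min δ (1 / (2 * C)) with hδ0
  have hδ0p : 0 < δ0 := lt_min hδ (by positivity)
  set δ1 : ℝ := min 1 (δ0 / (100 * C)) with hδ1
  have hδ1p : 0 < δ1 := lt_min one_pos (by positivity)
  have hδ11 : δ1 ≤ 1 := min_le_left _ _
  obtain ⟨Λ, hΛ1, hΛ⟩ := concQ δ1 hδ1p hδ11
  refine ⟨Λ, hΛ1, ?_⟩
  intro Ω _ μ _ A hA Z hZ
  filter_upwards [hΛ μ A hA Z hZ] with ω hω
  set a : ℕ → ℕ := fun p => A p ω with ha
  have hη : 0 < δ0 / (100 * C) := by positivity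
  -- error terms
  have hlogV : Tendsto (fun j : ℕ => Real.log (V (vj j) / V (wj j))) atTop (𝓝 0) := by
    have := (Real.continuousAt_log one_ne_zero).tendsto.comp V_vj_w
    rwa [Real.log_one] at this
  have evκ : ∀ᶠ j : ℕ in atTop, Real.log (V (vj j) / V (wj j)) ≤ min (δ0 / (100 * C)) (1 / 8) :=
    (hlogV.eventually (gt_mem_nhds (lt_min hη (by norm_num)))).mono fun j hj => hj.le
  have evV : ∀ᶠ j : ℕ in atTop, V (vj j) / V (wj j) ≤ 1 + min 1 (δ0 / (100 * C)) :=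
    (V_vj_w.eventually (gt_mem_nhds (by
      have := lt_min one_pos hη; linarith :
      (1 : ℝ) < 1 + min 1 (δ0 / (100 * C))))).mono fun j hj => hj.le
  filter_upwards [hω, evκ, evV, nlog_pow6, vj_tendsto.eventually_ge_atTop (max ζ1 ζ2),
    eventually_ge_atTop 16, nlog_tendsto.eventually_ge_atTop 4] with j hj hκ' hV1 hpoly hvge
    hj16 hlj
  have hκ : Real.log (V (vj j) / V (wj j)) ≤ δ0 / (100 * C) := hκ'.trans (min_le_left _ _)
  have hκ8 : Real.log (V (vj j) / V (wj j)) ≤ 1 / 8 := hκ'.trans (min_le_right _ _)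
  intro q hq hq2 U hU1 hU2 ζ hζ1 hζ2
  have hjr : (16 : ℝ) ≤ j := by exact_mod_cast hj16
  set v : ℕ := vj j with hv
  set w : ℕ := wj j with hw
  have hvζ1 : ζ1 ≤ v := (le_max_left ζ1 ζ2).trans hvge
  have hvζ2 : ζ2 ≤ v := (le_max_right ζ1 ζ2).trans hvge
  have hv4 : v ≤ j := by
    rw [hv]; unfold vj
    exact Nat.div_le_self _ _
  have hjw8 : 8 * (j + 3) ≤ w := by
    rw [hw]; unfold wj
    have h1 : 4 ^ 3 ≤ Nat.log 2 j ^ 3 := Nat.pow_le_pow_left hlj 3
    calc 8 * (j + 3) ≤ j * 4 ^ 3 := by omega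
      _ ≤ _ := Nat.mul_le_mul_left _ h1
  have hjw : j ≤ w := by omega
  have hvw : v ≤ w := by omega
  have hj2U : j ^ 2 ≤ U := by
    calc j ^ 2 = 1 * j ^ 2 := (one_mul _).symm
      _ ≤ Λ * j ^ 2 := Nat.mul_le_mul_right _ hΛ1
      _ ≤ U := hU1
  have hU0 : 0 < U := by
    have : 0 < j ^ 2 := by positivity
    omega
  have hUr : (0 : ℝ) < U := by exact_mod_cast hU0
  have hw2 : w ^ 2 ≤ j ^ 3 := by
    rw [hw]; unfold wj
    calc (j * Nat.log 2 j ^ 3) ^ 2 = j ^ 2 * Nat.log 2 j ^ 6 := by ring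
      _ ≤ j ^ 2 * j := by gcongr
      _ = j ^ 3 := by ring
  have hvw2 : v * w ^ 2 ≤ U ^ 2 := by
    calc v * w ^ 2 ≤ j * j ^ 3 := by gcongr
      _ = (j ^ 2) ^ 2 := by ring
      _ ≤ U ^ 2 := Nat.pow_le_pow_left hj2U 2
  have hvw2r : (v : ℝ) * (w : ℝ) ^ 2 ≤ (U : ℝ) ^ 2 := by exact_mod_cast hvw2
  have hwU : w ≤ U := by
    have h1 : w ^ 2 ≤ U ^ 2 := by
      calc w ^ 2 ≤ j ^ 3 := hw2
        _ ≤ j ^ 4 := Nat.pow_le_pow_right (by omega) (by norm_num)
        _ = (j ^ 2) ^ 2 := by ring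
        _ ≤ U ^ 2 := Nat.pow_le_pow_left hj2U 2
    exact (Nat.pow_le_pow_iff_left (by norm_num)).1 h1
  have hVv := Vq_pos q v
  have hVw := Vq_pos q w
  have hVζ := Vq_pos q ζ
  have hVζw : Vq q w ≤ Vq q ζ := Vq_anti q hζ2
  have hVζv : Vq q ζ ≤ Vq q v := Vq_anti q hζ1
  set ε : ℝ := δ0 / (100 * C) with hε
  have hε1 : ε ≤ 1 / 100 := by
    rw [hε, div_le_div_iff₀ (by positivity) (by norm_num)]
    have : δ0 ≤ 1 / (2 * C) := min_le_right _ _
    have h2 : 1 / (2 * C) ≤ 1 := by rw [div_le_one (by positivity)]; linarith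
    nlinarith
  have hCε : C * ε = δ0 / 100 := by rw [hε]; field_simp
  have hVvw : Vq q v ≤ (1 + ε) * Vq q w := by
    have h1 : V v / V w ≤ 1 + ε := hV1.trans (by
      have := min_le_right 1 (δ0 / (100 * C)); linarith)
    have hVw' := V_pos w
    rw [div_le_iff₀ hVw'] at h1
    have h2 := Vq_ratio q hvw
    have h3 : Vq q v * V w ≤ ((1 + ε) * Vq q w) * V w := by
      calc Vq q v * V w ≤ Vq q w * V v := h2
        _ ≤ Vq q w * ((1 + ε) * V w) := by gcongr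
        _ = _ := by ring
    exact le_of_mul_le_mul_right h3 hVw'
  -- the loss
  have hlossj : ∀ (c : ℕ → ℕ) (m : ℕ), (Tc c q v m U : ℝ) - C * ε * (U * Vq q v) ≤
      Tc c q w m U := by
    intro c m
    have h1 := hloss v hvζ1 w U hvw hwU hvw2r q c m
    have hVw' := V_pos w
    have h0 : 0 ≤ Real.log (V v / V w) := Real.log_nonneg (by
      rw [le_div_iff₀ hVw', one_mul]; exact V_anti hvw)
    have h2 : C1 * (U * Vq q v) * Real.log (V v / V w) ≤ C * ε * (U * Vq q v) := by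
      calc C1 * (U * Vq q v) * Real.log (V v / V w) ≤ C * (U * Vq q v) * ε := by gcongr
        _ = C * ε * (U * Vq q v) := by ring
    linarith
  -- bound for `rpq`
  have hζU : ζ ≤ U ^ 2 := hζ2.trans (hwU.trans (Nat.le_self_pow (by norm_num) U))
  have hrpC : rpq q U ζ ≤ C := by
    obtain ⟨m, hm⟩ := exists_smaxq q U ζ
    have h1 := hup ζ (hvζ2.trans hζ1) U hζU q (fun _ => 0) m
    rw [hm] at h1
    unfold rpq
    rw [div_le_iff₀ (by positivity)]
    calc (smaxq q U ζ : ℝ) ≤ C2 * (U * Vq q ζ) := h1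
      _ ≤ C * (U * Vq q ζ) := by gcongr
  have hrmC : rmq q U ζ ≤ C := (rmq_le_rpq q U ζ).trans hrpC
  have hrp0 := rpq_nonneg q U ζ
  have hrm0 := rmq_nonneg q U ζ
  have hUVw : 0 < (U : ℝ) * Vq q w := by positivity
  have hCεV : C * ε * (U * Vq q v) ≤ δ0 / 50 * (U * Vq q w) := by
    rw [hCε]
    calc δ0 / 100 * (U * Vq q v) ≤ δ0 / 100 * (U * ((1 + ε) * Vq q w)) := by gcongr
      _ = (δ0 / 100 * (1 + ε)) * (U * Vq q w) := by ring
      _ ≤ δ0 / 50 * (U * Vq q w) := by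
        have : δ0 / 100 * (1 + ε) ≤ δ0 / 50 := by nlinarith
        gcongr
  have hrpUV : (smaxq q U ζ : ℝ) = rpq q U ζ * (U * Vq q ζ) := by
    unfold rpq; field_simp
  have hrmUV : (sminq q U ζ : ℝ) = rmq q U ζ * (U * Vq q ζ) := by
    unfold rmq; field_simp
  have hδ0δ : δ0 ≤ δ := min_le_left _ _
  have up1 : ∀ (c : ℕ → ℕ) (m : ℕ), (Tc c q w m U : ℝ) / (U * Vq q w) ≤
      rpq q U ζ + δ0 / 100 := by
    intro c m
    have h1 : (Tc c q w m U : ℝ) ≤ smaxq q U ζ := by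
      exact_mod_cast (Tc_anti c q hζ2 m U).trans (Tc_le_smaxq c q ζ m U)
    rw [div_le_iff₀ hUVw]
    refine h1.trans ?_
    rw [hrpUV]
    calc rpq q U ζ * (U * Vq q ζ) ≤ rpq q U ζ * (U * ((1 + ε) * Vq q w)) := by
          gcongr; exact hVζv.trans hVvw
      _ = (rpq q U ζ + rpq q U ζ * ε) * (U * Vq q w) := by ring
      _ ≤ (rpq q U ζ + C * ε) * (U * Vq q w) := by gcongr
      _ = (rpq q U ζ + δ0 / 100) * (U * Vq q w) := by rw [hCε]
  have low1 : ∀ (c : ℕ → ℕ) (m : ℕ), rmq q U ζ - δ0 / 50 ≤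
      (Tc c q w m U : ℝ) / (U * Vq q w) := by
    intro c m
    rw [le_div_iff₀ hUVw]
    have h1 : (sminq q U ζ : ℝ) ≤ Tc c q v m U := by
      exact_mod_cast (sminq_anti q hζ1 U).trans (sminq_le_Tc c q v m U)
    have h2 := hlossj c m
    have h3 : rmq q U ζ * (U * Vq q w) ≤ sminq q U ζ := by
      rw [hrmUV]; gcongr
    linarith
  have up2 : ∀ (c : ℕ → ℕ) (m : ℕ), smaxq q U v ≤ Tc c q v m U →
      rpq q U ζ - δ0 / 50 ≤ (Tc c q w m U : ℝ) / (U * Vq q w) := by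
    intro c m hcm
    rw [le_div_iff₀ hUVw]
    have h1 : (smaxq q U ζ : ℝ) ≤ Tc c q v m U := by
      exact_mod_cast (smaxq_anti q hζ1 U).trans hcm
    have h2 := hlossj c m
    have h3 : rpq q U ζ * (U * Vq q w) ≤ smaxq q U ζ := by
      rw [hrpUV]; gcongr
    linarith
  have low2 : ∀ (c : ℕ → ℕ) (m : ℕ), Tc c q v m U ≤ sminq q U v →
      (Tc c q w m U : ℝ) / (U * Vq q w) ≤ rmq q U ζ + δ0 / 30 := by
    intro c m hcm
    rw [div_le_iff₀ hUVw]
    have h1 : (Tc c q w m U : ℝ) ≤ sminq q U v := by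
      exact_mod_cast (Tc_anti c q hvw m U).trans hcm
    obtain ⟨m0, hm0⟩ := exists_sminq q U ζ
    have h2 := hlossj (fun _ => 0) m0
    have h3 : (Tc (fun _ => 0) q w m0 U : ℝ) ≤ sminq q U ζ := by
      rw [← hm0]; exact_mod_cast Tc_anti _ q hζ2 m0 U
    have h4 : (sminq q U v : ℝ) ≤ Tc (fun _ => 0) q v m0 U := by
      exact_mod_cast sminq_le q m0 U v
    have h5 : (sminq q U ζ : ℝ) ≤ (rmq q U ζ + δ0 / 100) * (U * Vq q w) := by
      rw [hrmUV]
      calc rmq q U ζ * (U * Vq q ζ) ≤ rmq q U ζ * (U * ((1 + ε) * Vq q w)) := by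
            gcongr; exact hVζv.trans hVvw
        _ = (rmq q U ζ + rmq q U ζ * ε) * (U * Vq q w) := by ring
        _ ≤ (rmq q U ζ + C * ε) * (U * Vq q w) := by gcongr
        _ = (rmq q U ζ + δ0 / 100) * (U * Vq q w) := by rw [hCε]
    have e : (rmq q U ζ + δ0 / 30) * (U * Vq q w) = (rmq q U ζ + δ0 / 100) * (U * Vq q w) +
        (δ0 / 30 - δ0 / 100) * (U * Vq q w) := by ring
    rw [e]
    have h6 : δ0 / 50 * (U * Vq q w) ≤ (δ0 / 30 - δ0 / 100) * (U * Vq q w) := by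
      gcongr; linarith
    linarith
  -- to `Z j`
  have hVZ := Vq_pos q (Z j)
  have htr : ∀ m < 2 ^ (j + 3), |((Sq a (Qs q (Z j)) q m U).card : ℝ) / (U * Vq q (Z j)) -
      ((Sq a (Qs q w) q m U).card : ℝ) / (U * Vq q w)| ≤ δ0 / 100 := by
    intro m hm
    have h1 := hj q hq hq2 m hm U hU2 hU1
    have e : ((Sq a (Qs q (Z j)) q m U).card : ℝ) / (U * Vq q (Z j)) -
        ((Sq a (Qs q w) q m U).card : ℝ) / (U * Vq q w) =
        (((Sq a (Qs q (Z j)) q m U).card : ℝ) -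
          Vq q (Z j) / Vq q w * (Sq a (Qs q w) q m U).card) / (U * Vq q (Z j)) := by
      field_simp
    have hp : 0 < (U : ℝ) * Vq q (Z j) := by positivity
    rw [e, abs_div, abs_of_pos hp, div_le_iff₀ hp]
    refine h1.trans ?_
    have h2 : δ1 ≤ δ0 / 100 := by
      refine (min_le_right _ _).trans ?_
      gcongr
      linarith
    gcongr
  have hw0 : 0 < w := by omega
  have hsum : Real.log (V v / V w) + ((j : ℝ) + 3) / w ≤ 1 / 4 := by
    have h1 : ((j : ℝ) + 3) / w ≤ 1 / 8 := by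
      rw [div_le_div_iff₀ (by exact_mod_cast hw0) (by norm_num)]
      have : (8 : ℝ) * ((j : ℝ) + 3) ≤ w := by exact_mod_cast hjw8
      linarith
    linarith
  refine ⟨fun m hm => ?_, fun B E hE hBE => ⟨?_, ?_⟩⟩
  · have h1 := abs_le.1 (htr m hm)
    obtain ⟨c, hc⟩ := Sq_card_le a q m w U
    have h2 := up1 c 0
    have h3 := low1 c 0
    rw [← hc] at h2 h3
    constructor <;> linarith
  · obtain ⟨m, hm⟩ := exists_smaxq q U v
    obtain ⟨x, hx1, hx2, hx3, hx4⟩ := attain_q a q v w j hq hq2 hvw (by omega) hsum hw0 m B E hE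
    refine ⟨x, hx1, hx2, hx3, ?_⟩
    have h1 := abs_le.1 (htr x (by omega))
    obtain ⟨c, hc⟩ := Sq_eq a q x
    have hcv : Tc c q v 0 U = (Sq a (Qs q v) q x U).card := by rw [hc v U]; rfl
    have hcw : Tc c q w 0 U = (Sq a (Qs q w) q x U).card := by rw [hc w U]; rfl
    have h2 := up2 c 0 (by rw [hcv, hx4 U, hm])
    rw [hcw] at h2
    linarith
  · obtain ⟨m, hm⟩ := exists_sminq q U v
    obtain ⟨x, hx1, hx2, hx3, hx4⟩ := attain_q a q v w j hq hq2 hvw (by omega) hsum hw0 m B E hE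
    refine ⟨x, hx1, hx2, hx3, ?_⟩
    have h1 := abs_le.1 (htr x (by omega))
    obtain ⟨c, hc⟩ := Sq_eq a q x
    have hcv : Tc c q v 0 U = (Sq a (Qs q v) q x U).card := by rw [hc v U]; rfl
    have hcw : Tc c q w 0 U = (Sq a (Qs q w) q x U).card := by rw [hc w U]; rfl
    have h2 := low2 c 0 (by rw [hcv, hx4 U, hm])
    rw [hcw] at h2
    linarith

end Pool.Agent.H532.RM
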