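import Mathlib
import Pool.Agent.H532.RM.Star

/-!
The rate function and the extremes at the critical scale.
-/

namespace Pool.Agent.H532.RM

open Finset Filter
open scoped Topology

lemma rate_self (r : ℝ) : rate r r = 0 := by
  unfold rate
  rcases eq_or_ne r 0 with h | h
  · rw [h]; simp
  · rw [div_self h, Real.log_one]; ring

lemma rate_zero (r : ℝ) : rate 0 r = r := by unfold rate; simp

lemma rate_scale {s : ℝ} (hs : 0 < s) (K r : ℝ) : rate (s * K) (s * r) = s * rate K r := by
  unfold rate
  rw [mul_div_mul_left _ _ hs.ne']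
  ring

/-- Hellinger lower bound -/
lemma rate_ge {K r : ℝ} (hK : 0 ≤ K) (hr : 0 < r) : (Real.sqrt K - Real.sqrt r) ^ 2 ≤ rate K r := by
  rcases hK.eq_or_lt with h | h
  · rw [← h, rate_zero, Real.sqrt_zero, zero_sub, neg_sq, Real.sq_sqrt hr.le]
  · have h1 := xlogx_ge (K / r) (by positivity)
    have h2 : Real.sqrt (K / r) = Real.sqrt K / Real.sqrt r := Real.sqrt_div h.le r
    have hs : 0 < Real.sqrt r := Real.sqrt_pos.2 hr
    have h3 : r = Real.sqrt r ^ 2 := (Real.sq_sqrt hr.le).symm
    have h4 : r * (Real.sqrt (K / r) - 1) ^ 2 ≤ r * (K / r * Real.log (K / r) - K / r + 1) := by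
      gcongr
    have h5 : r * (K / r * Real.log (K / r) - K / r + 1) = rate K r := by
      unfold rate; field_simp
    have h6 : r * (Real.sqrt (K / r) - 1) ^ 2 = (Real.sqrt K - Real.sqrt r) ^ 2 := by
      rw [h2]
      nth_rewrite 1 [h3]
      field_simp
    rw [h5, h6] at h4
    exact h4

lemma rate_nonneg {K r : ℝ} (hK : 0 ≤ K) (hr : 0 ≤ r) (h : r = 0 → K = 0) : 0 ≤ rate K r := by
  rcases hr.eq_or_lt with h1 | h1
  · rw [h h1.symm, ← h1, rate_self]
  · exact (sq_nonneg _).trans (rate_ge hK h1)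

lemma rate_nonneg' {K r : ℝ} (hK : 0 ≤ K) (hr : 0 < r) : 0 ≤ rate K r :=
  rate_nonneg hK hr.le fun h => absurd h hr.ne'

/-- quadratic upper bound -/
lemma rate_le_sq {K r : ℝ} (hK : 0 ≤ K) (hr : 0 < r) : rate K r ≤ (K - r) ^ 2 / r := by
  unfold rate
  rcases hK.eq_or_lt with h | h
  · rw [← h]
    simp only [zero_mul, zero_sub, neg_sq, sub_self, neg_zero, zero_add]
    rw [sq, mul_div_assoc, div_self hr.ne', mul_one]
  · have h1 := Real.log_le_sub_one_of_pos (show 0 < K / r by positivity)
    calc K * Real.log (K / r) - K + r ≤ K * (K / r - 1) - K + r := by gcongr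
      _ = (K - r) ^ 2 / r := by field_simp; ring

/-- convexity, along the segment from the centre -/
lemma rate_convex {K r t : ℝ} (hK : 0 ≤ K) (hr : 0 ≤ r) (ht0 : 0 ≤ t) (ht1 : t ≤ 1) 
    (h0 : r = 0 → K = 0) :
    rate ((1 - t) * r + t * K) r ≤ t * rate K r := by
  rcases hr.eq_or_lt with h | hr'
  · have := h0 h.symm
    rw [← h, this]
    simp [rate]
  · have hconv := Real.convexOn_mul_log.2 (show r / r ∈ Set.Ici (0 : ℝ) from by
      rw [Set.mem_Ici]; positivity) (show K / r ∈ Set.Ici (0 : ℝ) from by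
      rw [Set.mem_Ici]; positivity) (show 0 ≤ 1 - t by linarith) ht0 (by ring)
    simp only [smul_eq_mul] at hconv
    rw [div_self hr'.ne', Real.log_one, mul_zero, mul_zero, zero_add] at hconv
    have e : (1 - t) * 1 + t * (K / r) = ((1 - t) * r + t * K) / r := by
      field_simp
    rw [e] at hconv
    unfold rate
    have h1 : ((1 - t) * r + t * K) * Real.log (((1 - t) * r + t * K) / r) =
        r * (((1 - t) * r + t * K) / r * Real.log (((1 - t) * r + t * K) / r)) := by
      field_simp
    rw [h1]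
    have h2 : r * (((1 - t) * r + t * K) / r * Real.log (((1 - t) * r + t * K) / r)) ≤
        r * (t * (K / r * Real.log (K / r))) := by gcongr
    have h3 : r * (t * (K / r * Real.log (K / r))) = t * (K * Real.log (K / r)) := by
      field_simp
    rw [h3] at h2
    linarith

/-- monotonicity in the second variable, to the left of `K` -/
lemma rate_anti_right {K y y' : ℝ} (hy : 0 < y) (hyy : y ≤ y') (hK : y' ≤ K) :
    rate K y' ≤ rate K y := by
  have hy' : 0 < y' := hy.trans_le hyy
  have hK0 : 0 < K := hy'.trans_le hK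
  have h1 := Real.one_sub_inv_le_log_of_pos (show 0 < y' / y by positivity)
  rw [inv_div] at h1
  have h2 : Real.log (K / y) = Real.log (K / y') + Real.log (y' / y) := by
    rw [← Real.log_mul (by positivity) (by positivity)]
    congr 1
    field_simp
  unfold rate
  rw [h2]
  have h3 : y' - y ≤ K * (1 - y / y') := by
    have : y' - y = y' * (1 - y / y') := by field_simp
    rw [this]
    have h4 : 0 ≤ 1 - y / y' := by
      rw [sub_nonneg, div_le_one hy']; exact hyy
    gcongr
  have h5 : K * (1 - y / y') ≤ K * Real.log (y' / y) := by gcongr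
  linarith

/-- monotonicity in the second variable, to the right of `K` -/
lemma rate_mono_right {K y y' : ℝ} (hK0 : 0 ≤ K) (hy : 0 < y) (hKy : K ≤ y) (hyy : y ≤ y') :
    rate K y ≤ rate K y' := by
  have hy' : 0 < y' := hy.trans_le hyy
  rcases hK0.eq_or_lt with h | h
  · rw [← h, rate_zero, rate_zero]; exact hyy
  have h1 := Real.log_le_sub_one_of_pos (show 0 < y' / y by positivity)
  have h2 : Real.log (K / y) = Real.log (K / y') + Real.log (y' / y) := by
    rw [← Real.log_mul (by positivity) (by positivity)]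
    congr 1
    field_simp
  unfold rate
  rw [h2]
  have h3 : K * (y' / y - 1) ≤ y' - y := by
    have : y' - y = y * (y' / y - 1) := by field_simp
    rw [this]
    have h4 : 0 ≤ y' / y - 1 := by
      rw [sub_nonneg, one_le_div hy]; exact hyy
    gcongr
  have h5 : K * Real.log (y' / y) ≤ K * (y' / y - 1) := by gcongr
  linarith

/-- rounding -/
lemma rate_round {x y b : ℝ} (hx : 0 ≤ x) (hy : 0 < y) (hb : 0 ≤ b) (hbx : |b - x| ≤ 1)
    (hside : (y ≤ x ∧ b ≤ x) ∨ (x ≤ y ∧ x ≤ b)) : rate b y ≤ max (rate x y) (1 / y) := by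
  have hbet : (y ≤ b ∧ b ≤ x) ∨ (x ≤ b ∧ b ≤ y) ∨ |b - y| ≤ 1 := by
    have h1 := abs_le.1 hbx
    rcases hside with ⟨h2, h3⟩ | ⟨h2, h3⟩
    · rcases le_total y b with h4 | h4
      · exact Or.inl ⟨h4, h3⟩
      · right; right; rw [abs_le]; constructor <;> linarith
    · rcases le_total b y with h4 | h4
      · exact Or.inr (Or.inl ⟨h3, h4⟩)
      · right; right; rw [abs_le]; constructor <;> linarith
  have hseg : ∀ t : ℝ, 0 ≤ t → t ≤ 1 → b = (1 - t) * y + t * x → rate b y ≤ rate x y := by
    intro t ht0 ht1 he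
    rw [he]
    refine (rate_convex hx hy.le ht0 ht1 fun h => absurd h hy.ne').trans ?_
    have := rate_nonneg' hx hy
    nlinarith
  rcases hbet with ⟨h1, h2⟩ | ⟨h1, h2⟩ | h1
  · refine le_max_of_le_left ?_
    rcases (h1.trans h2).eq_or_lt with h3 | h3
    · have : b = x := le_antisymm h2 (h3 ▸ h1)
      rw [this]
    · refine hseg ((b - y) / (x - y)) (div_nonneg (by linarith) (by linarith))
        (by rw [div_le_one (by linarith)]; linarith) ?_
      have : x - y ≠ 0 := by linarith
      field_simp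
      ring
  · refine le_max_of_le_left ?_
    rcases (h1.trans h2).eq_or_lt with h3 | h3
    · have : b = x := le_antisymm (h3 ▸ h2) h1
      rw [this]
    · refine hseg ((y - b) / (y - x)) (div_nonneg (by linarith) (by linarith))
        (by rw [div_le_one (by linarith)]; linarith) ?_
      have : y - x ≠ 0 := by linarith
      field_simp
      ring
  · refine le_max_of_le_right ((rate_le_sq hb hy).trans ?_)
    have h2 : (b - y) ^ 2 ≤ 1 := by
      rw [← sq_abs]
      exact pow_le_one₀ (abs_nonneg _) h1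
    gcongr

/-- the largest normalised number of elements at the critical scale -/
noncomputable def upE (lam r : ℝ) : ℝ := sSup {K | r ≤ K ∧ lam * rate K r ≤ 1}

/-- the smallest normalised number of elements at the critical scale -/
noncomputable def loE (lam r : ℝ) : ℝ := sInf {K | 0 ≤ K ∧ K ≤ r ∧ lam * rate K r ≤ 1}

lemma upE_bdd {lam r : ℝ} (hl : 0 < lam) (hr : 0 < r) :
    ∀ K ∈ {K | r ≤ K ∧ lam * rate K r ≤ 1}, K ≤ 2 * r + 2 / lam := by
  rintro K ⟨h1, h2⟩
  have hK : 0 < K := hr.trans_le h1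
  have h3 := rate_ge hK.le hr
  have h4 : (Real.sqrt K - Real.sqrt r) ^ 2 ≤ 1 / lam := by
    rw [le_div_iff₀ hl]; nlinarith
  have h5 : K = (Real.sqrt r + (Real.sqrt K - Real.sqrt r)) ^ 2 := by
    rw [add_sub_cancel, Real.sq_sqrt hK.le]
  have h6 : (Real.sqrt r) ^ 2 = r := Real.sq_sqrt hr.le
  have h7 : 2 / lam = 2 * (1 / lam) := by ring
  rw [h5, h7]
  nlinarith [sq_nonneg (Real.sqrt r - (Real.sqrt K - Real.sqrt r))]

lemma le_upE {lam r K : ℝ} (hl : 0 < lam) (hr : 0 < r) (h1 : r ≤ K) (h2 : lam * rate K r ≤ 1) :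
    K ≤ upE lam r := le_csSup ⟨_, upE_bdd hl hr⟩ ⟨h1, h2⟩

lemma r_le_upE {lam r : ℝ} (hl : 0 < lam) (hr : 0 < r) : r ≤ upE lam r :=
  le_upE hl hr le_rfl (by rw [rate_self]; simp)

lemma upE_le {lam r : ℝ} (hl : 0 < lam) (hr : 0 < r) : upE lam r ≤ 2 * r + 2 / lam :=
  csSup_le ⟨r, le_rfl, by rw [rate_self]; simp⟩ (upE_bdd hl hr)

lemma rate_cont (r : ℝ) (hr : r ≠ 0) : Continuous fun K => rate K r := by
  have h : (fun K => rate K r) = fun K => r * ((K / r) * Real.log (K / r)) - K + r := by
    funext K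
    unfold rate
    field_simp
  rw [h]
  have h1 := Real.continuous_mul_log.comp (continuous_id.div_const r)
  exact ((h1.const_mul r).sub continuous_id).add continuous_const

lemma upE_mem {lam r : ℝ} (hl : 0 < lam) (hr : 0 < r) : lam * rate (upE lam r) r ≤ 1 := by
  have hcl : IsClosed {K | r ≤ K ∧ lam * rate K r ≤ 1} :=
    (isClosed_le continuous_const continuous_id).inter
      (isClosed_le ((rate_cont r hr.ne').const_mul lam) continuous_const)
  exact (hcl.csSup_mem ⟨r, le_rfl, by rw [rate_self]; simp⟩ ⟨_, upE_bdd hl hr⟩).2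

/-- stability -/
lemma upE_stable {lam r s s' : ℝ} (hl : 0 < lam) (hr : 0 < r) (hs : 1 ≤ s) (hs' : 1 ≤ s')
    {K : ℝ} (hK1 : s' * r ≤ K) (hK2 : lam * rate K (s' * r) ≤ s) : K ≤ s * s' * upE lam r := by
  have hs0 : 0 < s := by linarith
  have hs'0 : 0 < s' := by linarith
  set K1 := K / s' with hK1d
  have e1 : K = s' * K1 := by rw [hK1d]; field_simp
  have hK1r : r ≤ K1 := by rw [hK1d, le_div_iff₀ hs'0]; linarith
  rw [e1, rate_scale hs'0] at hK2
  have hrt := rate_nonneg' (hr.le.trans hK1r) hr
  have h1 : lam * rate K1 r ≤ s := by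
    have : lam * rate K1 r * 1 ≤ lam * rate K1 r * s' := by gcongr
    nlinarith
  have h2 := rate_convex (K := K1) (r := r) (t := 1 / s) (hr.le.trans hK1r) hr.le (by positivity)
    (by rw [div_le_one hs0]; exact hs) (fun h => absurd h hr.ne')
  have h3 : lam * rate ((1 - 1 / s) * r + 1 / s * K1) r ≤ 1 := by
    calc lam * rate ((1 - 1 / s) * r + 1 / s * K1) r ≤ lam * (1 / s * rate K1 r) := by gcongr
      _ = 1 / s * (lam * rate K1 r) := by ring
      _ ≤ 1 / s * s := by gcongr
      _ = 1 := by field_simp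
  have h4 : r ≤ (1 - 1 / s) * r + 1 / s * K1 := by
    have : 0 ≤ 1 / s * (K1 - r) := mul_nonneg (by positivity) (by linarith)
    linarith
  have h5 := le_upE hl hr h4 h3
  have h6 : 1 / s * K1 ≤ upE lam r := by
    have : 0 ≤ (1 - 1 / s) * r := mul_nonneg (by
      rw [sub_nonneg, div_le_one hs0]; exact hs) hr.le
    linarith
  have h7 : K1 ≤ s * upE lam r := by
    have : K1 = s * (1 / s * K1) := by field_simp
    rw [this]; gcongr
  rw [e1]
  calc s' * K1 ≤ s' * (s * upE lam r) := by gcongr
    _ = s * s' * upE lam r := by ring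

lemma loE_nonneg (lam r : ℝ) : 0 ≤ loE lam r := by
  unfold loE
  refine Real.sInf_nonneg ?_
  rintro K ⟨h, _⟩
  exact h

lemma loE_le {lam r K : ℝ} (h1 : 0 ≤ K) (h2 : K ≤ r) (h3 : lam * rate K r ≤ 1) :
    loE lam r ≤ K := csInf_le ⟨0, by rintro K ⟨h, _⟩; exact h⟩ ⟨h1, h2, h3⟩

lemma loE_le_r {lam r : ℝ} (hr : 0 ≤ r) : loE lam r ≤ r :=
  loE_le hr le_rfl (by rw [rate_self]; simp)

lemma loE_mem {lam r : ℝ} (hr : 0 ≤ r) : lam * rate (loE lam r) r ≤ 1 := by
  rcases hr.eq_or_lt with h | h
  · have h1 : loE lam r = 0 := by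
      have h2 := loE_le_r (lam := lam) hr
      have h3 := loE_nonneg lam r
      linarith
    rw [h1, ← h, rate_self]; simp
  · have hcl : IsClosed {K | 0 ≤ K ∧ K ≤ r ∧ lam * rate K r ≤ 1} :=
      (isClosed_le continuous_const continuous_id).inter
        ((isClosed_le continuous_id continuous_const).inter
        (isClosed_le ((rate_cont r h.ne').const_mul lam) continuous_const))
    exact (hcl.csInf_mem ⟨r, hr, le_rfl, by rw [rate_self]; simp⟩
      ⟨0, by rintro K ⟨h, _⟩; exact h⟩).2.2

/-- shift of the centre upwards -/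
lemma rate_shift {K r d : ℝ} (hK : 0 ≤ K) (hKr : K ≤ r) (hd : 0 ≤ d) :
    rate (K + d) (r + d) ≤ rate K r := by
  have hr : 0 ≤ r := hK.trans hKr
  rcases hr.eq_or_lt with h | h
  · have : K = 0 := le_antisymm (by rw [h]; exact hKr) hK
    rw [this, ← h, zero_add, rate_self, rate_self]
  · set s := (r + d) / r with hs
    have hs1 : 1 ≤ s := by rw [hs, one_le_div h]; linarith
    have hs0 : 0 < s := by linarith
    have e1 : s * r = r + d := by rw [hs]; field_simp
    have h1 := rate_convex (K := s * K) (r := r + d) (t := 1 / s) (by positivity) (by linarith)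
      (by positivity) (by rw [div_le_one hs0]; exact hs1) (fun h0 => by linarith)
    have e2 : (1 - 1 / s) * (r + d) + 1 / s * (s * K) = K + d := by
      have : (1 - 1 / s) * (r + d) = d := by
        have e3 : 1 / s = r / (r + d) := by rw [hs, one_div_div]
        have hrd : r + d ≠ 0 := by linarith
        rw [e3]
        field_simp
        ring
      rw [this]
      field_simp
      ring
    rw [e2] at h1
    refine h1.trans (le_of_eq ?_)
    rw [← e1, rate_scale hs0]
    field_simp

/-- stability of the lower extreme -/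
lemma loE_stable {lam r y K s : ℝ} (hl : 0 < lam) (hr : 0 ≤ r) (hs : 1 ≤ s) (hK : 0 ≤ K)
    (hKy : K ≤ y) (hrate : lam * rate K y ≤ s) :
    loE lam r ≤ K + (1 - 1 / s) * y + max (r - y) 0 := by
  have hs0 : 0 < s := by linarith
  have hy : 0 ≤ y := hK.trans hKy
  set K2 := (1 - 1 / s) * y + 1 / s * K with hK2
  have ht : 1 / s ≤ 1 := by rw [div_le_one hs0]; exact hs
  have ht0 : 0 < 1 / s := by positivity
  have h1 := rate_convex (K := K) (r := y) (t := 1 / s) hK hy ht0.le ht
    (fun h => le_antisymm (h ▸ hKy) hK)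
  have h2 : lam * rate K2 y ≤ 1 := by
    calc lam * rate K2 y ≤ lam * (1 / s * rate K y) := by gcongr
      _ = 1 / s * (lam * rate K y) := by ring
      _ ≤ 1 / s * s := by gcongr
      _ = 1 := by field_simp
  have hK20 : 0 ≤ K2 := by
    have : 0 ≤ (1 - 1 / s) * y := mul_nonneg (by linarith) hy
    have : 0 ≤ 1 / s * K := by positivity
    linarith
  have hK2y : K2 ≤ y := by
    have : 1 / s * K ≤ 1 / s * y := by gcongr
    rw [hK2]; linarith
  have hK2K : K2 ≤ K + (1 - 1 / s) * y := by
    have : 1 / s * K ≤ 1 * K := by gcongr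
    rw [hK2]; linarith
  rcases le_total y r with h | h
  · rw [max_eq_left (by linarith)]
    have h3 := rate_shift hK20 hK2y (show 0 ≤ r - y by linarith)
    rw [add_sub_cancel] at h3
    have h4 := loE_le (lam := lam) (r := r) (K := K2 + (r - y)) (by linarith) (by linarith)
      ((mul_le_mul_of_nonneg_left h3 hl.le).trans h2)
    linarith
  · rw [max_eq_right (by linarith), add_zero]
    rcases le_total K2 r with h5 | h5
    · rcases hr.eq_or_lt with h6 | h6
      · have := loE_le_r (lam := lam) hr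
        have h7 : 0 ≤ (1 - 1 / s) * y := mul_nonneg (by linarith) hy
        linarith
      · have h3 := rate_mono_right hK20 h6 h5 h
        have h4 := loE_le (lam := lam) hK20 h5 ((mul_le_mul_of_nonneg_left h3 hl.le).trans h2)
        linarith
    · have := loE_le_r (lam := lam) hr
      linarith

end Pool.Agent.H532.RM
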