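import Mathlib
import Pool.Agent.H532.RM.ThmB
import Pool.Agent.H532.RM.ThmA2

/-!
The random sieve: extremal numbers of elements of real intervals.
-/

namespace Pool.Agent.H532.RM

open Finset MeasureTheory Function ProbabilityTheory Filter
open scoped ENNReal Topology

/-- The random sieve. -/
def RB (z : ℕ → ℕ) (a : ℕ → ℕ) : Set ℕ :=
  {n | ∀ p : ℕ, p.Prime → p ≤ z n → ¬ n ≡ a p [MOD p]}

lemma cn_le_T1 (z : ℕ → ℕ) (hz : Monotone z) (a : ℕ → ℕ) (N1 m U : ℕ)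
    (hm : N1 ≤ m + 1) : cn (RB z a) m U ≤ (T1 a (z N1) m U : ℝ) := by
  classical
  unfold cn T1
  have : (Ioc m (m + U)).filter (· ∈ RB z a) ⊆ TT {0} a (primesLe (z N1)) m U := by
    intro n hn
    obtain ⟨h1, h2⟩ := mem_filter.1 hn
    have h3 := mem_Ioc.1 h1
    refine mem_T1.2 ⟨h3, fun p hp h4 => ?_⟩
    have hp' := mem_primesLe.1 hp
    exact h2 p hp'.2 (hp'.1.trans (hz (by omega))) h4
  convert (Nat.cast_le (α := ℝ)).2 (card_le_card this) using 3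

lemma T1_le_cn (z : ℕ → ℕ) (hz : Monotone z) (a : ℕ → ℕ) (N2 m U : ℕ)
    (hm : m + U ≤ N2) : (T1 a (z N2) m U : ℝ) ≤ cn (RB z a) m U := by
  classical
  unfold cn T1
  have : TT {0} a (primesLe (z N2)) m U ⊆ (Ioc m (m + U)).filter (· ∈ RB z a) := by
    intro n hn
    obtain ⟨h1, h2⟩ := mem_T1.1 hn
    refine mem_filter.2 ⟨mem_Ioc.2 h1, fun p hp hpz h4 => ?_⟩
    exact h2 p (mem_primesLe.2 ⟨hpz.trans (hz (by omega)), hp⟩) h4
  convert (Nat.cast_le (α := ℝ)).2 (card_le_card this) using 3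

lemma V_pow_two_add (z : ℕ → ℕ) (hz : Tendsto (fun n : ℕ => V (z n) * Real.log n) atTop (𝓝 1))
    (k : ℕ) : Tendsto (fun j : ℕ => V (z (2 ^ (j + k))) * (j * Real.log 2)) atTop (𝓝 1) := by
  have h1 := (V_pow_two z hz).comp (tendsto_add_atTop_nat k)
  have h2 : Tendsto (fun j : ℕ => (j : ℝ) / ((j : ℝ) + k)) atTop (𝓝 1) :=
    tendsto_natCast_div_add_atTop (k : ℝ)
  have h3 := h1.mul h2
  rw [mul_one] at h3
  refine h3.congr' ?_
  filter_upwards [eventually_gt_atTop 0] with j hj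
  simp only [comp_apply]
  have hj' : (0 : ℝ) < j := by exact_mod_cast hj
  have hk : ((j : ℝ) + k) ≠ 0 := by positivity
  push_cast
  field_simp

lemma floor_window (x H : ℝ) (hx : 0 ≤ x) (hH : 0 ≤ H) :
    ⌊x⌋₊ + ⌊H⌋₊ ≤ ⌊x + H⌋₊ ∧ ⌊x + H⌋₊ ≤ ⌊x⌋₊ + ⌊H⌋₊ + 1 := by
  constructor
  · refine Nat.le_floor ?_
    push_cast
    exact add_le_add (Nat.floor_le hx) (Nat.floor_le hH)
  · have h1 := Nat.lt_floor_add_one x
    have h2 := Nat.lt_floor_add_one H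
    have : ⌊x + H⌋₊ < ⌊x⌋₊ + ⌊H⌋₊ + 2 := by
      rw [Nat.floor_lt (by linarith)]
      push_cast
      linarith
    omega

/-- abbreviation for the density -/
noncomputable def FF (R : Set ℕ) (x H : ℝ) : ℝ := (count R x H : ℝ) * Real.log x / H

/-- the final real step, all the estimates collected -/
lemma real_step (R : Set ℕ) (x H : ℝ) (j : ℕ) (ε C1 : ℝ) (hj : 16 ≤ j) (hx1 : (2 : ℝ) ^ j ≤ x)
    (hx2 : x ≤ 2 ^ (j + 2)) (hH : 1 < H) (hε : 2 / (j : ℝ) ≤ ε / 4) (hε1 : ε ≤ 1)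
    (hHε : 1 / H ≤ ε / 4)
    (hq : cn R ⌊x⌋₊ (⌊x + H⌋₊ - ⌊x⌋₊) * (j * Real.log 2) / ((⌊x + H⌋₊ - ⌊x⌋₊ : ℕ) : ℝ) ≤ C1) :
    |FF R x H - cn R ⌊x⌋₊ (⌊x + H⌋₊ - ⌊x⌋₊) * (j * Real.log 2) /
      ((⌊x + H⌋₊ - ⌊x⌋₊ : ℕ) : ℝ)| ≤ ε * C1 := by
  have hx0 : 0 < x := lt_of_lt_of_le (by positivity) hx1
  have hw := floor_window x H hx0.le (by linarith)
  unfold FF
  rw [count_eq_cn R x H hx0.le (by linarith)]
  set U' : ℕ := ⌊x + H⌋₊ - ⌊x⌋₊ with hU'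
  set c := cn R ⌊x⌋₊ U' with hc
  have hc0 : 0 ≤ c := cn_nonneg _ _ _
  have hjr : (16 : ℝ) ≤ j := by exact_mod_cast hj
  have hlog2 : 0 < Real.log 2 := Real.log_pos (by norm_num)
  set L : ℝ := j * Real.log 2 with hL
  have hL0 : 0 < L := by positivity
  have hfH := Nat.lt_floor_add_one H
  have hfH2 := Nat.floor_le (show 0 ≤ H by linarith)
  have hU'1 : H - 1 < U' := by
    have : ⌊H⌋₊ ≤ U' := by omega
    have : (⌊H⌋₊ : ℝ) ≤ U' := by exact_mod_cast this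
    linarith
  have hU'2 : (U' : ℝ) ≤ H + 1 := by
    have : U' ≤ ⌊H⌋₊ + 1 := by omega
    have : (U' : ℝ) ≤ ⌊H⌋₊ + 1 := by exact_mod_cast this
    linarith
  have hU'0 : (0 : ℝ) < U' := by linarith
  have hH0 : 0 < H := by linarith
  have hl1 : L ≤ Real.log x := by
    rw [hL, ← Real.log_pow]
    exact Real.log_le_log (by positivity) hx1
  have hl2 : Real.log x ≤ L * (1 + 2 / j) := by
    have h1 : Real.log x ≤ Real.log (2 ^ (j + 2)) := Real.log_le_log hx0 hx2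
    rw [Real.log_pow] at h1
    push_cast at h1
    have e : L * (1 + 2 / j) = (j + 2) * Real.log 2 := by
      rw [hL]; field_simp
    rw [e]; exact h1
  -- g = (U'/H) (log x / L)
  set g : ℝ := (U' / H) * (Real.log x / L) with hg
  have e : c * Real.log x / H = (c * L / U') * g := by
    rw [hg]; field_simp
  rw [e]
  have hg1 : |g - 1| ≤ ε := by
    have a1 : 1 - ε / 4 ≤ U' / H := by
      rw [le_div_iff₀ hH0]
      have : 1 ≤ ε / 4 * H := by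
        rw [div_le_iff₀ hH0] at hHε; exact hHε
      linarith
    have a2 : U' / H ≤ 1 + ε / 4 := by
      rw [div_le_iff₀ hH0]
      have : 1 ≤ ε / 4 * H := by
        rw [div_le_iff₀ hH0] at hHε; exact hHε
      linarith
    have a3 : 1 ≤ Real.log x / L := by rwa [one_le_div hL0]
    have a4 : Real.log x / L ≤ 1 + ε / 4 := by
      rw [div_le_iff₀ hL0]
      calc Real.log x ≤ L * (1 + 2 / j) := hl2
        _ ≤ L * (1 + ε / 4) := by gcongr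
        _ = (1 + ε / 4) * L := by ring
    have hεpos : 0 ≤ ε := by
      have : 0 ≤ 2 / (j : ℝ) := by positivity
      linarith
    have a0 : 0 ≤ 1 - ε / 4 := by linarith
    rw [abs_le]
    constructor
    · have : (1 - ε / 4) * 1 ≤ g := by
        rw [hg]
        exact mul_le_mul a1 a3 (by norm_num) (a0.trans a1)
      linarith
    · have : g ≤ (1 + ε / 4) * (1 + ε / 4) := by
        rw [hg]
        exact mul_le_mul a2 a4 (by linarith) (by linarith)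
      nlinarith
  have hq0 : 0 ≤ c * L / U' := by positivity
  have e2 : c * L / U' * g - c * L / U' = (g - 1) * (c * L / U') := by ring
  rw [e2, abs_mul, abs_of_nonneg hq0]
  have hεpos : 0 ≤ ε := (abs_nonneg _).trans hg1
  gcongr

lemma rp_succ (U ζ : ℕ) (hU : 0 < U) : rp (U + 1) ζ ≤ rp U ζ + 1 / (U * V ζ) := by
  have hVζ := V_pos ζ
  have hUr : (0 : ℝ) < U := by exact_mod_cast hU
  have h1 : (smax (U + 1) ζ : ℝ) ≤ smax U ζ + 1 := by exact_mod_cast (smax_succ U ζ).2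
  unfold rp
  rw [← add_div]
  calc (smax (U + 1) ζ : ℝ) / (((U + 1 : ℕ) : ℝ) * V ζ) ≤ (smax U ζ + 1) / (U * V ζ) := by
        gcongr
        push_cast; linarith
    _ = _ := rfl

lemma rm_succ (U ζ : ℕ) (hU : 0 < U) : rm U ζ - rm U ζ / U ≤ rm (U + 1) ζ := by
  have hVζ := V_pos ζ
  have hUr : (0 : ℝ) < U := by exact_mod_cast hU
  have h1 : (smin U ζ : ℝ) ≤ smin (U + 1) ζ := by exact_mod_cast (smin_succ U ζ).1
  have h0 := rm_nonneg U ζ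
  have h2 : rm U ζ * (U / (U + 1)) ≤ rm (U + 1) ζ := by
    unfold rm
    have e : (smin U ζ : ℝ) / (U * V ζ) * (U / (U + 1)) = smin U ζ / ((U + 1) * V ζ) := by
      field_simp
    rw [e]
    push_cast
    gcongr
  refine le_trans ?_ h2
  have h3 : rm U ζ * (U / (U + 1)) = rm U ζ - rm U ζ / (U + 1) := by
    field_simp; ring
  rw [h3]
  have : rm U ζ / ((U : ℝ) + 1) ≤ rm U ζ / U := by gcongr; linarith
  linarith

/-- **Exact extremes.** -/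
theorem thmB (δ : ℝ) (hδ : 0 < δ) : ∃ Λ : ℝ, 1 ≤ Λ ∧ ∀ {Ω : Type}
    [MeasurableSpace Ω] (μ : Measure Ω) [IsProbabilityMeasure μ] (A : ℕ → Ω → ℕ),
    RandomClasses μ A → ∀ z : ℕ → ℕ, Monotone z →
    Tendsto (fun n : ℕ => V (z n) * Real.log n) atTop (𝓝 1) →
    ∀ᵐ ω ∂μ, ∀ᶠ X : ℝ in atTop, ∀ H : ℝ, Λ * Real.log X ^ 2 ≤ H → H ≤ X →
      (∀ x : ℝ, X ≤ x → x ≤ 2 * X →
        rm ⌊H⌋₊ ⌊Real.log X⌋₊ - δ ≤ FF (RB z (fun p => A p ω)) x H ∧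
        FF (RB z (fun p => A p ω)) x H ≤ rp ⌊H⌋₊ ⌊Real.log X⌋₊ + δ) ∧
      (∃ x : ℝ, X ≤ x ∧ x ≤ 2 * X ∧
        rp ⌊H⌋₊ ⌊Real.log X⌋₊ - δ ≤ FF (RB z (fun p => A p ω)) x H) ∧
      (∃ x : ℝ, X ≤ x ∧ x ≤ 2 * X ∧
        FF (RB z (fun p => A p ω)) x H ≤ rm ⌊H⌋₊ ⌊Real.log X⌋₊ + δ) := by
  obtain ⟨C, hC, ζ0, hrp⟩ := rp_bdd
  obtain ⟨c, _, hc, _, hV⟩ := V_two_sided
  set C1 : ℝ := C + 2 with hC1
  have hC1p : 0 < C1 := by linarith
  set δ1 : ℝ := min (δ / 8) (1 / 2) with hδ1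
  have hδ1p : 0 < δ1 := lt_min (by positivity) (by norm_num)
  have hδ18 : δ1 ≤ δ / 8 := min_le_left _ _
  have hδ1h : δ1 ≤ 1 / 2 := min_le_right _ _
  obtain ⟨Λ, hΛ1, hΛ⟩ := thmB_block δ1 hδ1p
  have hΛr : (1 : ℝ) ≤ Λ := by exact_mod_cast hΛ1
  refine ⟨3 * Λ + 3, by linarith, ?_⟩
  intro Ω _ μ _ A hA z hzm hz
  filter_upwards [hΛ μ A hA (fun j => z (2 ^ j)) (V_pow_two z hz),
    hΛ μ A hA (fun j => z (2 ^ (j + 3))) (V_pow_two_add z hz 3)] with ω h1 h2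
  obtain ⟨J1, hJ1⟩ := eventually_atTop.1 h1
  obtain ⟨J2, hJ2⟩ := eventually_atTop.1 h2
  set ε : ℝ := min (δ / (8 * C1)) 1 with hε
  have hεp : 0 < ε := lt_min (by positivity) one_pos
  have hε1 : ε ≤ 1 := min_le_right _ _
  have hεC : ε * C1 ≤ δ / 8 := by
    calc ε * C1 ≤ δ / (8 * C1) * C1 := by gcongr; exact min_le_left _ _
      _ = δ / 8 := by field_simp
  obtain ⟨J3, hJ3⟩ : ∃ J3 : ℕ, 8 / ε + 16 * (C + 1 / c + 1) / δ ≤ J3 := exists_nat_ge _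
  set J : ℕ := max (max J1 J2) (max J3 (max 16 (4 * ζ0 + 4))) with hJ
  filter_upwards [eventually_ge_atTop ((2 : ℝ) ^ J + 1)] with X hX H hΛH hHX
  have hX1 : (1 : ℝ) ≤ X := by
    have : (0 : ℝ) < 2 ^ J := by positivity
    linarith
  have hX0 : 0 < X := by linarith
  set j := Nat.log 2 ⌊X⌋₊ with hj
  have hJj : J ≤ j := by
    rw [hj]
    refine Nat.le_log_of_pow_le (by norm_num) (Nat.le_floor ?_)
    push_cast; linarith
  have hjJ1 : J1 ≤ j := ((le_max_left _ _).trans (le_max_left _ _)).trans hJj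
  have hjJ2 : J2 ≤ j := ((le_max_right _ _).trans (le_max_left _ _)).trans hJj
  have hjJ3 : J3 ≤ j := ((le_max_left _ _).trans (le_max_right _ _)).trans hJj
  have hj16 : 16 ≤ j :=
    ((le_max_left _ _).trans ((le_max_right _ _).trans (le_max_right _ _))).trans hJj
  have hjζ : 4 * ζ0 + 4 ≤ j :=
    ((le_max_right _ _).trans ((le_max_right _ _).trans (le_max_right _ _))).trans hJj
  have hjr : (16 : ℝ) ≤ j := by exact_mod_cast hj16
  have hfl : ⌊X⌋₊ ≠ 0 := (Nat.floor_pos.2 hX1).ne'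
  have hX2 : (2 : ℝ) ^ j ≤ X := by
    have h3 : 2 ^ j ≤ ⌊X⌋₊ := Nat.pow_log_le_self 2 hfl
    have h4 : ((2 ^ j : ℕ) : ℝ) ≤ ⌊X⌋₊ := by exact_mod_cast h3
    push_cast at h4
    exact h4.trans (Nat.floor_le hX0.le)
  have hX3 : X < 2 ^ (j + 1) := by
    have h3 : ⌊X⌋₊ < 2 ^ (j + 1) := Nat.lt_pow_succ_log_self (by norm_num) _
    rw [Nat.floor_lt hX0.le] at h3
    push_cast at h3
    exact h3
  have hlog2 : 0 < Real.log 2 := Real.log_pos (by norm_num)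
  have hl2a := Real.log_two_gt_d9
  have hl2b := Real.log_two_lt_d9
  have hlX1 : j * Real.log 2 ≤ Real.log X := by
    rw [← Real.log_pow]; exact Real.log_le_log (by positivity) hX2
  have hlX2 : Real.log X ≤ (j + 1) * Real.log 2 := by
    have := Real.log_le_log hX0 hX3.le
    rw [Real.log_pow] at this
    push_cast at this
    exact this
  set ζ := ⌊Real.log X⌋₊ with hζ
  have hlX0 : 0 ≤ Real.log X := Real.log_nonneg hX1
  have hζ1 : j / 4 ≤ ζ := by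
    refine Nat.le_floor ?_
    have h3 : ((j / 4 : ℕ) : ℝ) ≤ (j : ℝ) / 4 := Nat.cast_div_le
    nlinarith
  have hζj : ζ ≤ j := by
    have h3 : (ζ : ℝ) ≤ j := by
      refine (Nat.floor_le hlX0).trans ?_
      nlinarith
    exact_mod_cast h3
  have hlogj : 1 ≤ Nat.log 2 j := Nat.le_log_of_pow_le (by norm_num) (by omega)
  have hζ2 : ζ ≤ wj j := by
    refine hζj.trans ?_
    unfold wj
    calc j = j * 1 := (mul_one j).symm
      _ ≤ _ := Nat.mul_le_mul_left _ (Nat.one_le_pow _ _ hlogj)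
  have hζ0 : ζ0 ≤ ζ := by omega
  have hζ22 : 2 ≤ ζ := by omega
  have hVζ := V_pos ζ
  -- sizes
  have hHj : (Λ : ℝ) * j ^ 2 + 2 ≤ H := by
    refine le_trans ?_ hΛH
    have h3 : (0.69 * (j : ℝ)) ^ 2 ≤ Real.log X ^ 2 := by
      have : 0.69 * (j : ℝ) ≤ Real.log X := by nlinarith
      gcongr
    nlinarith
  have hH1 : 1 < H := by nlinarith
  have hH0 : 0 < H := by linarith
  set U0 := ⌊H⌋₊ with hU0
  have hU0H : (U0 : ℝ) ≤ H := Nat.floor_le hH0.le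
  have hHU0 : H < U0 + 1 := Nat.lt_floor_add_one H
  have hU0b : Λ * j ^ 2 ≤ U0 := by
    refine Nat.le_floor ?_
    push_cast; linarith
  have hU0j : (j : ℝ) ^ 2 ≤ U0 := by
    have h3 : (Λ : ℝ) * j ^ 2 ≤ U0 := by exact_mod_cast hU0b
    have h4 : (j : ℝ) ^ 2 ≤ Λ * j ^ 2 := by nlinarith [sq_nonneg (j : ℝ)]
    linarith
  have hU0pos : (0 : ℝ) < U0 := by nlinarith
  have hU0pos' : 0 < U0 := by exact_mod_cast hU0pos
  have hU0lt : U0 + 1 < 2 ^ (j + 3) := by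
    have h3 : (U0 : ℝ) + 1 < 2 ^ (j + 3) := by
      have e : (2 : ℝ) ^ (j + 3) = 4 * 2 ^ (j + 1) := by ring
      have h4 : (1 : ℝ) ≤ 2 ^ (j + 1) := one_le_pow₀ (by norm_num)
      rw [e]; linarith
    exact_mod_cast h3
  have hζU0 : ζ ≤ U0 ^ 2 := by
    have h3 : j ^ 2 ≤ U0 := by exact_mod_cast hU0j
    calc ζ ≤ j := hζj
      _ ≤ j ^ 2 := Nat.le_self_pow (by norm_num) j
      _ ≤ U0 := h3
      _ ≤ U0 ^ 2 := Nat.le_self_pow (by norm_num) U0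
  have hrpC : rp U0 ζ ≤ C := hrp ζ hζ0 U0 hU0pos' hζU0
  have hrpC' : rp (U0 + 1) ζ ≤ C := hrp ζ hζ0 (U0 + 1) (by omega)
    (hζU0.trans (Nat.pow_le_pow_left (by omega) 2))
  have hJ3' : 8 / ε + 16 * (C + 1 / c + 1) / δ ≤ j := hJ3.trans (by exact_mod_cast hjJ3)
  have hp1 : 0 < 8 / ε := by positivity
  have hp2 : 0 < 16 * (C + 1 / c + 1) / δ := by positivity
  have hjε : 2 / (j : ℝ) ≤ ε / 4 := by
    rw [div_le_div_iff₀ (by linarith) (by norm_num)]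
    have h3 : 8 / ε ≤ j := by linarith
    rw [div_le_iff₀ hεp] at h3
    linarith
  have hHε : 1 / H ≤ ε / 4 := by
    have h3 : 1 / H ≤ 2 / (j : ℝ) := by
      rw [div_le_div_iff₀ hH0 (by linarith)]
      nlinarith
    linarith
  have hsmall : 1 / (U0 * V ζ) ≤ δ / 16 ∧ C / U0 ≤ δ / 16 := by
    have h3 : 16 * (C + 1 / c + 1) / δ ≤ j := by linarith
    rw [div_le_iff₀ hδ] at h3
    have h4 := (hV ζ hζ22).1
    have h5 : Real.log ζ ≤ j := by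
      have h6 : Real.log ζ ≤ ζ := (Real.log_le_sub_one_of_pos (by
        exact_mod_cast (by omega : 0 < ζ))).trans (by linarith)
      have h7 : (ζ : ℝ) ≤ j := by exact_mod_cast hζj
      linarith
    have h6 : c / j ≤ V ζ := by
      rw [div_le_iff₀ (by linarith)]
      calc c ≤ V ζ * Real.log ζ := h4
        _ ≤ V ζ * j := by gcongr
    have h7 : 0 < 1 / c := by positivity
    constructor
    · calc 1 / (U0 * V ζ) ≤ 1 / ((j : ℝ) ^ 2 * (c / j)) := by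
            have : 0 < c / (j : ℝ) := by positivity
            gcongr
        _ = (1 / c) / j := by
            have : (j : ℝ) ≠ 0 := by linarith
            field_simp
        _ ≤ δ / 16 := by
            rw [div_le_div_iff₀ (by linarith) (by norm_num)]
            nlinarith
    · calc C / U0 ≤ C / (j : ℝ) ^ 2 := by gcongr
        _ ≤ C / j := by
            have : (j : ℝ) ≤ j ^ 2 := by nlinarith
            gcongr
        _ ≤ δ / 16 := by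
            rw [div_le_div_iff₀ (by linarith) (by norm_num)]
            nlinarith
  obtain ⟨hsm1, hsm2⟩ := hsmall
  set a : ℕ → ℕ := fun p => A p ω with ha
  set R := RB z a with hR
  have hB1 := hJ1 j hjJ1
  have hB2 := hJ2 j hjJ2
  have hrpboth : ∀ U' : ℕ, U' = U0 ∨ U' = U0 + 1 → rp U' ζ ≤ rp U0 ζ + δ / 16 ∧
      rm U0 ζ - δ / 16 ≤ rm U' ζ ∧ rp U' ζ ≤ C := by
    rintro U' (rfl | rfl)
    · exact ⟨by linarith, by linarith, hrpC⟩
    · have h3 := rp_succ U0 ζ hU0pos'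
      have h4 := rm_succ U0 ζ hU0pos'
      have h5 : rm U0 ζ / U0 ≤ C / U0 := by
        have := (rm_le_rp U0 ζ).trans hrpC
        gcongr
      exact ⟨by linarith, by linarith, hrpC'⟩
  have hj3 : (2 : ℝ) ^ (j + 3) = 4 * 2 ^ (j + 1) := by ring
  have hgen : ∀ x : ℝ, X ≤ x → x ≤ 2 * X →
      |FF R x H - cn R ⌊x⌋₊ (⌊x + H⌋₊ - ⌊x⌋₊) * (j * Real.log 2) /
        ((⌊x + H⌋₊ - ⌊x⌋₊ : ℕ) : ℝ)| ≤ δ / 8 ∧
      (cn R ⌊x⌋₊ (⌊x + H⌋₊ - ⌊x⌋₊) ≤ T1 a (z (2 ^ j)) ⌊x⌋₊ (⌊x + H⌋₊ - ⌊x⌋₊)) ∧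
      (T1 a (z (2 ^ (j + 3))) ⌊x⌋₊ (⌊x + H⌋₊ - ⌊x⌋₊) ≤ cn R ⌊x⌋₊ (⌊x + H⌋₊ - ⌊x⌋₊)) ∧
      ⌊x⌋₊ < 2 ^ (j + 3) ∧ (⌊x + H⌋₊ - ⌊x⌋₊ = U0 ∨ ⌊x + H⌋₊ - ⌊x⌋₊ = U0 + 1) := by
    intro x hx1 hx2
    have hx0 : 0 < x := by linarith
    have hfw := floor_window x H hx0.le hH0.le
    set U' := ⌊x + H⌋₊ - ⌊x⌋₊ with hU'
    have hU'or : U' = U0 ∨ U' = U0 + 1 := by omega
    have hxlt : ⌊x⌋₊ < 2 ^ (j + 3) := by
      have h3 : (⌊x⌋₊ : ℝ) < 2 ^ (j + 3) := by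
        have := Nat.floor_le hx0.le
        rw [hj3]
        have : (0 : ℝ) < 2 ^ (j + 1) := by positivity
        linarith
      exact_mod_cast h3
    have hsum : ⌊x⌋₊ + U' ≤ 2 ^ (j + 3) := by
      have h3 : ⌊x⌋₊ + U' = ⌊x + H⌋₊ := by omega
      rw [h3]
      have h4 : (⌊x + H⌋₊ : ℝ) ≤ 2 ^ (j + 3) := by
        have := Nat.floor_le (show 0 ≤ x + H by linarith)
        rw [hj3]
        have : (0 : ℝ) < 2 ^ (j + 1) := by positivity
        linarith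
      exact_mod_cast h4
    have hlow : 2 ^ j ≤ ⌊x⌋₊ + 1 := by
      have h3 : 2 ^ j ≤ ⌊x⌋₊ := Nat.le_floor (by push_cast; linarith)
      omega
    have hcn1 := cn_le_T1 z hzm a (2 ^ j) ⌊x⌋₊ U' hlow
    have hcn2 := T1_le_cn z hzm a (2 ^ (j + 3)) ⌊x⌋₊ U' hsum
    have hU'b : Λ * j ^ 2 ≤ U' := by omega
    have hU'lt : U' < 2 ^ (j + 3) := by omega
    obtain ⟨k1, _⟩ := hB1 U' hU'b hU'lt ζ hζ1 hζ2
    have k2 := (k1 ⌊x⌋₊ hxlt).2
    have hU'pos : (0 : ℝ) < U' := by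
      have : 0 < U' := by omega
      exact_mod_cast this
    have hq : cn R ⌊x⌋₊ U' * (j * Real.log 2) / U' ≤ C1 := by
      calc cn R ⌊x⌋₊ U' * (j * Real.log 2) / U' ≤
          (T1 a (z (2 ^ j)) ⌊x⌋₊ U' : ℝ) * (j * Real.log 2) / U' := by gcongr
        _ ≤ rp U' ζ + δ1 := k2
        _ ≤ C1 := by
          have := (hrpboth U' hU'or).2.2
          linarith
    refine ⟨?_, hcn1, hcn2, hxlt, hU'or⟩
    have hx4 : x ≤ 2 ^ (j + 2) := by
      have e : (2 : ℝ) ^ (j + 2) = 2 * 2 ^ (j + 1) := by ring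
      rw [e]; linarith
    have := real_step R x H j ε C1 hj16 (hX2.trans hx1) hx4 hH1 hjε hε1 hHε hq
    exact this.trans hεC
  have hpos3 : ∀ U' : ℕ, (U' = U0 ∨ U' = U0 + 1) → (0 : ℝ) < U' := by
    intro U' h
    have : 0 < U' := by omega
    exact_mod_cast this
  have hLnn : 0 ≤ (j : ℝ) * Real.log 2 := by positivity
  refine ⟨?_, ?_, ?_⟩
  · intro x hx1 hx2
    obtain ⟨g1, g2, g3, g4, g5⟩ := hgen x hx1 hx2
    set U' := ⌊x + H⌋₊ - ⌊x⌋₊ with hU'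
    have hU'b : Λ * j ^ 2 ≤ U' := by omega
    have hU'lt : U' < 2 ^ (j + 3) := by omega
    have hU'pos := hpos3 U' g5
    have k1 := ((hB1 U' hU'b hU'lt ζ hζ1 hζ2).1 ⌊x⌋₊ g4).2
    have k2 := ((hB2 U' hU'b hU'lt ζ hζ1 hζ2).1 ⌊x⌋₊ g4).1
    have k3 := hrpboth U' g5
    have g1' := abs_le.1 g1
    have l1 : cn R ⌊x⌋₊ U' * (j * Real.log 2) / U' ≤
        (T1 a (z (2 ^ j)) ⌊x⌋₊ U' : ℝ) * (j * Real.log 2) / U' := by gcongr
    have l2 : (T1 a (z (2 ^ (j + 3))) ⌊x⌋₊ U' : ℝ) * (j * Real.log 2) / U' ≤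
        cn R ⌊x⌋₊ U' * (j * Real.log 2) / U' := by gcongr
    constructor <;> linarith [k3.1, k3.2.1]
  · -- a maximal window
    have hBsum : ⌈X⌉₊ + 4 ^ (j / 4) ≤ 2 ^ (j + 3) ∧
        ((⌈X⌉₊ : ℝ) + 4 ^ (j / 4)) ≤ 2 * X := by
      have h3 : (⌈X⌉₊ : ℝ) < X + 1 := Nat.ceil_lt_add_one hX0.le
      have h4 : (4 : ℝ) ^ (j / 4) * 4 ≤ 2 ^ j := by
        have e : (4 : ℝ) = 2 ^ 2 := by norm_num
        rw [e, ← pow_mul, ← pow_add]
        exact pow_le_pow_right₀ (by norm_num) (by omega)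
      have h5 : (4 : ℝ) ≤ 4 ^ (j / 4) := by
        calc (4 : ℝ) = 4 ^ 1 := by norm_num
          _ ≤ 4 ^ (j / 4) := pow_le_pow_right₀ (by norm_num) (by omega)
      have h6 : ((⌈X⌉₊ : ℝ) + 4 ^ (j / 4)) ≤ 2 * X := by linarith
      refine ⟨?_, h6⟩
      have h7 : ((⌈X⌉₊ : ℝ) + 4 ^ (j / 4)) ≤ 2 ^ (j + 3) := by
        rw [hj3]
        have : (0 : ℝ) < 2 ^ (j + 1) := by positivity
        linarith
      exact_mod_cast h7
    obtain ⟨x, hx1, hx2, hx3⟩ :=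
      ((hB2 U0 hU0b (by omega) ζ hζ1 hζ2).2 ⌈X⌉₊ hBsum.1).1
    have hxX : X ≤ x := (Nat.le_ceil X).trans (by exact_mod_cast hx1)
    have hx2X : (x : ℝ) ≤ 2 * X := by
      have : (x : ℝ) ≤ ⌈X⌉₊ + 4 ^ (j / 4) := by exact_mod_cast hx2.le
      linarith [hBsum.2]
    obtain ⟨g1, g2, g3, g4, g5⟩ := hgen x hxX hx2X
    have hU' : ⌊(x : ℝ) + H⌋₊ - ⌊(x : ℝ)⌋₊ = U0 := by
      rw [Nat.floor_natCast, add_comm, Nat.floor_add_natCast hH0.le, Nat.add_sub_cancel]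
    rw [hU', Nat.floor_natCast] at g1 g3
    have g1' := abs_le.1 g1
    refine ⟨x, hxX, hx2X, ?_⟩
    have l2 : (T1 a (z (2 ^ (j + 3))) x U0 : ℝ) * (j * Real.log 2) / U0 ≤
        cn R x U0 * (j * Real.log 2) / U0 := by gcongr
    linarith
  · have hBsum : ⌈X⌉₊ + 4 ^ (j / 4) ≤ 2 ^ (j + 3) ∧
        ((⌈X⌉₊ : ℝ) + 4 ^ (j / 4)) ≤ 2 * X := by
      have h3 : (⌈X⌉₊ : ℝ) < X + 1 := Nat.ceil_lt_add_one hX0.le
      have h4 : (4 : ℝ) ^ (j / 4) * 4 ≤ 2 ^ j := by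
        have e : (4 : ℝ) = 2 ^ 2 := by norm_num
        rw [e, ← pow_mul, ← pow_add]
        exact pow_le_pow_right₀ (by norm_num) (by omega)
      have h5 : (4 : ℝ) ≤ 4 ^ (j / 4) := by
        calc (4 : ℝ) = 4 ^ 1 := by norm_num
          _ ≤ 4 ^ (j / 4) := pow_le_pow_right₀ (by norm_num) (by omega)
      have h6 : ((⌈X⌉₊ : ℝ) + 4 ^ (j / 4)) ≤ 2 * X := by linarith
      refine ⟨?_, h6⟩
      have h7 : ((⌈X⌉₊ : ℝ) + 4 ^ (j / 4)) ≤ 2 ^ (j + 3) := by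
        rw [hj3]
        have : (0 : ℝ) < 2 ^ (j + 1) := by positivity
        linarith
      exact_mod_cast h7
    obtain ⟨x, hx1, hx2, hx3⟩ :=
      ((hB1 U0 hU0b (by omega) ζ hζ1 hζ2).2 ⌈X⌉₊ hBsum.1).2
    have hxX : X ≤ x := (Nat.le_ceil X).trans (by exact_mod_cast hx1)
    have hx2X : (x : ℝ) ≤ 2 * X := by
      have : (x : ℝ) ≤ ⌈X⌉₊ + 4 ^ (j / 4) := by exact_mod_cast hx2.le
      linarith [hBsum.2]
    obtain ⟨g1, g2, g3, g4, g5⟩ := hgen x hxX hx2X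
    have hU' : ⌊(x : ℝ) + H⌋₊ - ⌊(x : ℝ)⌋₊ = U0 := by
      rw [Nat.floor_natCast, add_comm, Nat.floor_add_natCast hH0.le, Nat.add_sub_cancel]
    rw [hU', Nat.floor_natCast] at g1 g2
    have g1' := abs_le.1 g1
    refine ⟨x, hxX, hx2X, ?_⟩
    have l2 : cn R x U0 * (j * Real.log 2) / U0 ≤
        (T1 a (z (2 ^ j)) x U0 : ℝ) * (j * Real.log 2) / U0 := by gcongr
    linarith

end Pool.Agent.H532.RM
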