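import Mathlib
import Pool.Agent.H532.RM.Norm
import Pool.Agent.H532.RM.Rate
import Pool.Agent.H532.RM.ThmB2

/-!
From dyadic blocks to real windows: bookkeeping.
-/

namespace Pool.Agent.H532.RM

open Finset MeasureTheory Function ProbabilityTheory Filter
open scoped ENNReal Topology

/-- the scale of `X` and `H` -/
structure SC (ε X H : ℝ) (j : ℕ) : Prop where
  X0 : 0 < X
  x1 : (2 : ℝ) ^ j ≤ X
  x2 : X < 2 ^ (j + 1)
  l1 : j * Real.log 2 ≤ Real.log X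
  l2 : Real.log X ≤ (1 + ε) * (j * Real.log 2)
  l3 : Real.log (2 * X) ≤ (1 + ε) * Real.log X
  z1 : j / 4 ≤ ⌊Real.log X⌋₊
  z2 : ⌊Real.log X⌋₊ ≤ j
  H0 : 1 < H
  u1 : (1 - ε) * H ≤ ⌊H⌋₊
  u3 : (⌊H⌋₊ : ℝ) + 1 ≤ (1 + ε) * H
  j16 : 16 ≤ j

lemma sc_ev (ε : ℝ) (hε : 0 < ε) (J : ℕ) : ∀ᶠ X : ℝ in atTop, J ≤ Nat.log 2 ⌊X⌋₊ ∧
    ∀ H : ℝ, Real.log X ≤ H → SC ε X H (Nat.log 2 ⌊X⌋₊) := by
  obtain ⟨J1, hJ1⟩ : ∃ J1 : ℕ, 4 / ε + 16 ≤ J1 := exists_nat_ge _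
  filter_upwards [eventually_ge_atTop ((2 : ℝ) ^ (max J J1) + 1)] with X hX
  have hX1 : (1 : ℝ) ≤ X := by
    have : (0 : ℝ) < 2 ^ (max J J1) := by positivity
    linarith
  have hX0 : 0 < X := by linarith
  set j := Nat.log 2 ⌊X⌋₊ with hj
  have hJj : max J J1 ≤ j := by
    rw [hj]
    refine Nat.le_log_of_pow_le (by norm_num) (Nat.le_floor ?_)
    push_cast; linarith
  refine ⟨(le_max_left _ _).trans hJj, fun H hH => ?_⟩
  have hjJ1 : (J1 : ℝ) ≤ j := by exact_mod_cast (le_max_right _ _).trans hJj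
  have h4ε : 0 < 4 / ε := by positivity
  have hj16r : (16 : ℝ) ≤ j := by linarith
  have hj16 : 16 ≤ j := by exact_mod_cast hj16r
  have hjε : 4 / ε ≤ j := by linarith
  have hjε' : 4 ≤ ε * j := by
    rw [div_le_iff₀ hε] at hjε; linarith
  have hfl : ⌊X⌋₊ ≠ 0 := (Nat.floor_pos.2 hX1).ne'
  have hX2 : (2 : ℝ) ^ j ≤ X := by
    have h3 : 2 ^ j ≤ ⌊X⌋₊ := Nat.pow_log_le_self 2 hfl
    have h4 : ((2 ^ j : ℕ) : ℝ) ≤ ⌊X⌋₊ := by exact_mod_cast h3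
    push_cast at h4
    exact h4.trans (Nat.floor_le hX0.le)
  have hX3 : X < 2 ^ (j + 1) := by
    have h3 : ⌊X⌋₊ < 2 ^ (j + 1) := Nat.lt_pow_succ_log_self (by norm_num) _
    rw [Nat.floor_lt hX0.le] at h3
    push_cast at h3
    exact h3
  have hl2a := Real.log_two_gt_d9
  have hl2b := Real.log_two_lt_d9
  have hlX1 : j * Real.log 2 ≤ Real.log X := by
    rw [← Real.log_pow]; exact Real.log_le_log (by positivity) hX2
  have hlX2 : Real.log X ≤ (j + 1) * Real.log 2 := by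
    have := Real.log_le_log hX0 hX3.le
    rw [Real.log_pow] at this
    push_cast at this
    exact this
  have hlX0 : 0 ≤ Real.log X := Real.log_nonneg hX1
  have hlX11 : 0.69 * j ≤ Real.log X := by nlinarith
  have hHbig : 0.69 * j ≤ H := hlX11.trans hH
  have hεH : 1 ≤ ε * H := by nlinarith
  refine ⟨hX0, hX2, hX3, hlX1, ?_, ?_, ?_, ?_, by linarith, ?_, ?_, hj16⟩
  · nlinarith
  · rw [Real.log_mul (by norm_num) hX0.ne']
    nlinarith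
  · refine Nat.le_floor ?_
    have h3 : ((j / 4 : ℕ) : ℝ) ≤ (j : ℝ) / 4 := Nat.cast_div_le
    linarith
  · have h3 : (⌊Real.log X⌋₊ : ℝ) ≤ j := by
      refine (Nat.floor_le hlX0).trans ?_
      nlinarith
    exact_mod_cast h3
  · have := Nat.lt_floor_add_one H
    linarith
  · have := Nat.floor_le (show 0 ≤ H by linarith)
    linarith

lemma ff_bounds {ε X H : ℝ} {j : ℕ} (hs : SC ε X H j) (z : ℕ → ℕ) (hz : Monotone z) (a : ℕ → ℕ)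
    (hHX : H ≤ X) (hε : 0 < ε) (x : ℝ) (hx1 : X ≤ x) (hx2 : x ≤ 2 * X) :
    ⌊x⌋₊ < 2 ^ (j + 3) ∧ (⌊x + H⌋₊ - ⌊x⌋₊ = ⌊H⌋₊ ∨ ⌊x + H⌋₊ - ⌊x⌋₊ = ⌊H⌋₊ + 1) ∧
    (T1 a (z (2 ^ (j + 3))) ⌊x⌋₊ (⌊x + H⌋₊ - ⌊x⌋₊) : ℝ) * (Real.log X / H) ≤
      FF (RB z a) x H ∧
    FF (RB z a) x H ≤
      (1 + ε) * ((T1 a (z (2 ^ j)) ⌊x⌋₊ (⌊x + H⌋₊ - ⌊x⌋₊) : ℝ) * (Real.log X / H)) := by
  have hX0 := hs.X0
  have hx0 : 0 < x := by linarith
  have hH0 : 0 < H := by linarith [hs.H0]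
  have hfw := floor_window x H hx0.le hH0.le
  have hj3 : (2 : ℝ) ^ (j + 3) = 4 * 2 ^ (j + 1) := by ring
  have hx2' := hs.x2
  have hxlt : ⌊x⌋₊ < 2 ^ (j + 3) := by
    have h3 : (⌊x⌋₊ : ℝ) < 2 ^ (j + 3) := by
      have := Nat.floor_le hx0.le
      rw [hj3]
      have : (0 : ℝ) < 2 ^ (j + 1) := by positivity
      linarith
    exact_mod_cast h3
  set U' := ⌊x + H⌋₊ - ⌊x⌋₊ with hU'
  have hsum : ⌊x⌋₊ + U' ≤ 2 ^ (j + 3) := by
    have h3 : ⌊x⌋₊ + U' = ⌊x + H⌋₊ := by omega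
    rw [h3]
    have h4 : (⌊x + H⌋₊ : ℝ) ≤ 2 ^ (j + 3) := by
      have := Nat.floor_le (show 0 ≤ x + H by linarith)
      rw [hj3]
      have : (0 : ℝ) < 2 ^ (j + 1) := by positivity
      linarith
    exact_mod_cast h4
  have hlow : 2 ^ j ≤ ⌊x⌋₊ + 1 := by
    have h3 : 2 ^ j ≤ ⌊x⌋₊ := Nat.le_floor (by push_cast; linarith [hs.x1])
    omega
  have hcn1 := cn_le_T1 z hz a (2 ^ j) ⌊x⌋₊ U' hlow
  have hcn2 := T1_le_cn z hz a (2 ^ (j + 3)) ⌊x⌋₊ U' hsum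
  have hX1 : (1 : ℝ) ≤ X := le_trans (one_le_pow₀ (by norm_num)) hs.x1
  have hlX : 0 ≤ Real.log X := Real.log_nonneg hX1
  have hlx1 : Real.log X ≤ Real.log x := Real.log_le_log hX0 hx1
  have hlx2 : Real.log x ≤ (1 + ε) * Real.log X :=
    (Real.log_le_log hx0 hx2).trans hs.l3
  refine ⟨hxlt, by omega, ?_, ?_⟩
  · unfold FF
    rw [count_eq_cn _ x H hx0.le hH0.le, ← hU', mul_div_assoc]
    have h0 := cn_nonneg (RB z a) ⌊x⌋₊ U'
    have h1 : Real.log X / H ≤ Real.log x / H := by gcongr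
    exact mul_le_mul hcn2 h1 (by positivity) h0
  · unfold FF
    rw [count_eq_cn _ x H hx0.le hH0.le, ← hU', mul_div_assoc]
    calc cn (RB z a) ⌊x⌋₊ U' * (Real.log x / H) ≤
        (T1 a (z (2 ^ j)) ⌊x⌋₊ U' : ℝ) * ((1 + ε) * Real.log X / H) := by
          have h1 : Real.log x / H ≤ (1 + ε) * Real.log X / H := by gcongr
          have h2 : 0 ≤ Real.log x / H := div_nonneg (hlX.trans hlx1) hH0.le
          exact mul_le_mul hcn1 h1 h2 (by positivity)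
      _ = _ := by ring

/-- a block inside `[X, 2X]` -/
lemma blk_in {ε X H : ℝ} {j : ℕ} (hs : SC ε X H j) : ∃ k < 5, ∀ m ∈ Blk j k,
    X ≤ (m : ℝ) ∧ (m : ℝ) ≤ 2 * X := by
  have hX0 := hs.X0
  have hj := hs.j16
  have hp : (0 : ℝ) < 2 ^ (j - 1) := by positivity
  have h2j : (2 : ℝ) ^ j = 2 * 2 ^ (j - 1) := by
    rw [← pow_succ']; congr 1; omega
  have h2j1 : (2 : ℝ) ^ (j + 1) = 4 * 2 ^ (j - 1) := by
    rw [pow_succ, h2j]; ring
  have hx1 := hs.x1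
  have hx2 := hs.x2
  rw [h2j] at hx1
  rw [h2j1] at hx2
  refine ⟨⌈X / 2 ^ (j - 1)⌉₊, ?_, ?_⟩
  · have h1 : X / 2 ^ (j - 1) ≤ 4 := by
      rw [div_le_iff₀ hp]; linarith
    have h2 : ⌈X / 2 ^ (j - 1)⌉₊ ≤ 4 := Nat.ceil_le.2 (by exact_mod_cast h1)
    omega
  · intro m hm
    have hm' := mem_Ico.1 hm
    have h1 : X / 2 ^ (j - 1) ≤ ⌈X / 2 ^ (j - 1)⌉₊ := Nat.le_ceil _
    have h2 : (⌈X / 2 ^ (j - 1)⌉₊ : ℝ) < X / 2 ^ (j - 1) + 1 := Nat.ceil_lt_add_one (by positivity)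
    have h3 : ((⌈X / 2 ^ (j - 1)⌉₊ * 2 ^ (j - 1) : ℕ) : ℝ) ≤ m := by exact_mod_cast hm'.1
    have h4 : (m : ℝ) < (((⌈X / 2 ^ (j - 1)⌉₊ + 1) * 2 ^ (j - 1) : ℕ) : ℝ) := by
      exact_mod_cast hm'.2
    push_cast at h3 h4
    constructor
    · rw [div_le_iff₀ hp] at h1
      linarith
    · have h5 : ((⌈X / 2 ^ (j - 1)⌉₊ : ℝ) + 1) * 2 ^ (j - 1) < (X / 2 ^ (j - 1) + 1 + 1) *
          2 ^ (j - 1) := by
        gcongr
      have h6 : (X / 2 ^ (j - 1) + 1 + 1) * 2 ^ (j - 1) = X + 2 * 2 ^ (j - 1) := by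
        field_simp
        ring
      linarith

lemma adm_of {η C3 h ρ θ κ C6 : ℝ} {j n b : ℕ} (hη : 0 < η) (h0 : 0 < h) (hθ : 0 < θ)
    (hρ : 0 < ρ) (hκ : 0 < κ) (hκ1 : κ ≤ 1) (hC6 : 1 ≤ C6)
    (hy1 : κ ≤ ρ * n * θ) (hy2 : ρ * n * θ ≤ C6) (hb1 : κ ≤ b * θ) (hb2 : b * θ ≤ C6)
    (hθ1 : κ * j ≤ 1 / θ) (hθ2 : 1 / θ ≤ C6 * j) (hC3 : C6 ^ 2 ≤ C3)
    (hrate : rate b (ρ * n) ≤ (1 - 3 / 2 * η) * (j * Real.log 2))
    (hh : h * (C6 ^ 2 * Real.log (C6 / κ)) ≤ η / 4 * Real.log 2)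
    (hρ1 : 48 * C6 * ρ ≤ h * κ) (hρ2 : 8 * C6 ^ 4 * ρ ≤ η * κ ^ 2 * Real.log 2)
    (hjκ : 1 / κ ^ 4 ≤ j) : Adm η C3 h ρ j n b := by
  have hj0 : (0 : ℝ) < j := lt_of_lt_of_le (by positivity) hjκ
  have hb0 : (0 : ℝ) < b := by
    by_contra hneg
    have : (b : ℝ) = 0 := le_antisymm (not_lt.1 hneg) (Nat.cast_nonneg b)
    rw [this, zero_mul] at hb1
    linarith
  have hn0 : (0 : ℝ) < n := by
    by_contra hneg
    have : (n : ℝ) = 0 := le_antisymm (not_lt.1 hneg) (Nat.cast_nonneg n)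
    rw [this, mul_zero, zero_mul] at hy1
    linarith
  have hbj : (b : ℝ) ≤ C6 ^ 2 * j := by
    calc (b : ℝ) = (b * θ) * (1 / θ) := by field_simp
      _ ≤ C6 * (C6 * j) := by gcongr
      _ = C6 ^ 2 * j := by ring
  have hnj : ρ * n ≤ C6 ^ 2 * j := by
    calc ρ * n = (ρ * n * θ) * (1 / θ) := by field_simp
      _ ≤ C6 * (C6 * j) := by gcongr
      _ = C6 ^ 2 * j := by ring
  have hbl : κ ^ 2 * j ≤ b := by
    calc κ ^ 2 * j = κ * (κ * j) := by ring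
      _ ≤ (b * θ) * (1 / θ) := by gcongr
      _ = b := by field_simp
  have hnl : κ ^ 2 * j ≤ ρ * n := by
    calc κ ^ 2 * j = κ * (κ * j) := by ring
      _ ≤ (ρ * n * θ) * (1 / θ) := by gcongr
      _ = ρ * n := by field_simp
  refine ⟨?_, ?_, ?_, ?_, ?_⟩
  · have h1 : 1 ≤ κ ^ 4 * j := by
      rw [div_le_iff₀ (by positivity)] at hjκ; linarith
    calc (j : ℝ) = 1 * j := (one_mul _).symm
      _ ≤ (κ ^ 4 * j) * j := by gcongr
      _ = (κ ^ 2 * j) ^ 2 := by ring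
      _ ≤ (b : ℝ) ^ 2 := by gcongr
  · exact hbj.trans (by gcongr)
  · exact hnj.trans (by gcongr)
  · have h1 : (b : ℝ) * (48 * ρ * θ) ≤ h * n * (ρ * θ) := by
      calc (b : ℝ) * (48 * ρ * θ) = 48 * (b * θ) * ρ := by ring
        _ ≤ 48 * C6 * ρ := by gcongr
        _ ≤ h * κ := hρ1
        _ ≤ h * (ρ * n * θ) := by gcongr
        _ = h * n * (ρ * θ) := by ring
    have h2 : (b : ℝ) * 48 ≤ h * n := by
      have h3 : ((b : ℝ) * 48) * (ρ * θ) ≤ (h * n) * (ρ * θ) := by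
        calc ((b : ℝ) * 48) * (ρ * θ) = (b : ℝ) * (48 * ρ * θ) := by ring
          _ ≤ _ := h1
      exact le_of_mul_le_mul_right h3 (by positivity)
    linarith
  · have hlog : |Real.log (b / (ρ * n))| ≤ Real.log (C6 / κ) := by
      have hq : (b : ℝ) / (ρ * n) = (b * θ) / (ρ * n * θ) := by field_simp
      rw [hq, abs_le]
      constructor
      · rw [← Real.log_inv, inv_div]
        refine Real.log_le_log (by positivity) ?_
        rw [div_le_div_iff₀ (by positivity) (by positivity)]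
        calc κ * (ρ * n * θ) ≤ κ * C6 := by gcongr
          _ ≤ (b * θ) * C6 := by gcongr
      · refine Real.log_le_log (by positivity) ?_
        gcongr
    have hlog0 : 0 ≤ Real.log (C6 / κ) := (abs_nonneg _).trans hlog
    have h1 : h * b * |Real.log (b / (ρ * n))| ≤ η / 4 * (j * Real.log 2) := by
      calc h * b * |Real.log (b / (ρ * n))| ≤ h * (C6 ^ 2 * j) * Real.log (C6 / κ) := by gcongr
        _ = h * (C6 ^ 2 * Real.log (C6 / κ)) * j := by ring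
        _ ≤ η / 4 * Real.log 2 * j := by gcongr
        _ = η / 4 * (j * Real.log 2) := by ring
    have h2 : 2 * (b - ρ * n) ^ 2 / n ≤ η / 4 * (j * Real.log 2) := by
      have h3 : (b - ρ * n) ^ 2 ≤ (C6 ^ 2 * j) ^ 2 := by
        rw [sq_le_sq, abs_of_nonneg (show 0 ≤ C6 ^ 2 * (j : ℝ) by positivity), abs_le]
        have : 0 ≤ ρ * (n : ℝ) := by positivity
        constructor <;> linarith
      rw [div_le_iff₀ hn0]
      have h4 : κ ^ 2 * j / ρ ≤ n := by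
        rw [div_le_iff₀ hρ]; linarith
      calc 2 * ((b : ℝ) - ρ * n) ^ 2 ≤ 2 * (C6 ^ 2 * j) ^ 2 := by gcongr
        _ = (8 * C6 ^ 4 * ρ) * ((j : ℝ) ^ 2 / (4 * ρ)) := by field_simp; ring
        _ ≤ (η * κ ^ 2 * Real.log 2) * ((j : ℝ) ^ 2 / (4 * ρ)) := by gcongr
        _ = η / 4 * (j * Real.log 2) * (κ ^ 2 * j / ρ) := by field_simp
        _ ≤ η / 4 * (j * Real.log 2) * n := by
            have := Real.log_pos (show (1 : ℝ) < 2 by norm_num)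
            gcongr
    linarith

end Pool.Agent.H532.RM
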