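import Mathlib
import Pool.Agent.H532.RM.AP4
import Pool.Agent.H532.RM.Scale

/-!
Arithmetic progressions: the random sieve.
-/

namespace Pool.Agent.H532.RM

open Finset MeasureTheory Function ProbabilityTheory Filter
open scoped ENNReal Topology

/-- the number of the terms of the progression `n + q, …, n + U q` in `R` -/
noncomputable def cq (R : Set ℕ) (q n U : ℕ) : ℕ := {i : ℕ | 1 ≤ i ∧ i ≤ U ∧ n + q * i ∈ R}.ncard

/-- the density -/
noncomputable def Fq (R : Set ℕ) (X : ℝ) (q n U : ℕ) : ℝ :=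
  (cq R q n U : ℝ) * (Real.log X * ((Nat.totient q : ℝ) / q)) / U

lemma cq_le (z : ℕ → ℕ) (hz : Monotone z) (a : ℕ → ℕ) (N1 q n U : ℕ) (hn : N1 ≤ n) :
    cq (RB z a) q n U ≤ (Sq a (Qs q (z N1)) q n U).card := by
  unfold cq
  rw [← Set.ncard_coe_finset]
  refine Set.ncard_le_ncard ?_ (Finset.finite_toSet _)
  rintro i ⟨h1, h2, h3⟩
  refine mem_coe.2 (mem_Sq.2 ⟨⟨by omega, h2⟩, fun p hp h4 => ?_⟩)
  have hp' := (mem_Qs.1 hp).1
  exact h3 p hp'.2 (hp'.1.trans (hz (hn.trans (Nat.le_add_right _ _)))) h4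

lemma le_cq (z : ℕ → ℕ) (hz : Monotone z) (a : ℕ → ℕ) (N2 q n U : ℕ) (hn : n + q * U ≤ N2)
    (hadm : Adm' a q n) : (Sq a (Qs q (z N2)) q n U).card ≤ cq (RB z a) q n U := by
  unfold cq
  rw [← Set.ncard_coe_finset]
  refine Set.ncard_le_ncard ?_ ?_
  · intro i hi
    obtain ⟨⟨h1, h2⟩, h3⟩ := mem_Sq.1 (mem_coe.1 hi)
    refine ⟨by omega, h2, fun p hp hpz h4 => ?_⟩
    by_cases hpq : p ∣ q
    · refine hadm p hp hpq (Nat.ModEq.trans ?_ h4)
      obtain ⟨t, rfl⟩ := hpq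
      rw [mul_assoc]
      simp [Nat.ModEq]
    · refine h3 p (mem_Qs.2 ⟨⟨hpz.trans (hz ?_), hp⟩, hpq⟩) h4
      have : q * i ≤ q * U := Nat.mul_le_mul_left _ h2
      omega
  · exact (Set.finite_Icc 1 U).subset fun i hi => ⟨hi.1, hi.2.1⟩

/-- the local factor of the primes dividing `q` -/
lemma Vq_totient (q Z j : ℕ) (hq : 0 < q) (hq2 : q < 2 ^ (j + 3)) (hZ : 2 * (j + 3) ≤ Z)
    (hj : 1 ≤ j) : Vq q Z * ((Nat.totient q : ℝ) / q) ≤ V Z ∧
      (1 - ((j : ℝ) + 3) / Z) * V Z ≤ Vq q Z * ((Nat.totient q : ℝ) / q) := by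
  have hq0 : (0 : ℝ) < q := by exact_mod_cast hq
  have h1 : (Nat.totient q : ℝ) / q = ∏ p ∈ q.primeFactors, (1 - 1 / (p : ℝ)) := by
    have h2 := Nat.totient_eq_mul_prod_factors q
    have h3 : (Nat.totient q : ℝ) = q * ∏ p ∈ q.primeFactors, (1 - (p : ℝ)⁻¹) := by
      have h4 := congrArg (fun x : ℚ => (x : ℝ)) h2
      push_cast at h4
      exact h4
    rw [h3, mul_div_cancel_left₀ _ hq0.ne']
    exact prod_congr rfl fun p _ => by rw [one_div]
  have h2 : ∏ p ∈ q.primeFactors, (1 - 1 / (p : ℝ)) =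
      (∏ p ∈ q.primeFactors.filter (fun p => p ≤ Z), (1 - 1 / (p : ℝ))) *
      ∏ p ∈ q.primeFactors.filter (fun p => ¬ p ≤ Z), (1 - 1 / (p : ℝ)) :=
    (prod_filter_mul_prod_filter_not _ _ _).symm
  have h3 : V Z = Vq q Z * ∏ p ∈ q.primeFactors.filter (fun p => p ≤ Z), (1 - 1 / (p : ℝ)) := by
    unfold V Vq
    rw [← prod_filter_mul_prod_filter_not (primesLe Z) (fun p => ¬ p ∣ q)]
    congr 1
    refine prod_congr ?_ fun _ _ => rfl
    ext p
    simp only [mem_filter, mem_primesLe, not_not, Nat.mem_primeFactors]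
    constructor
    · rintro ⟨⟨h4, h5⟩, h6⟩; exact ⟨⟨h5, h6, hq.ne'⟩, h4⟩
    · rintro ⟨⟨h5, h6, _⟩, h4⟩; exact ⟨⟨h4, h5⟩, h6⟩
  set T := ∏ p ∈ q.primeFactors.filter (fun p => ¬ p ≤ Z), (1 - 1 / (p : ℝ)) with hT
  have hpr : ∀ p ∈ q.primeFactors.filter (fun p => ¬ p ≤ Z), p.Prime ∧ p ∣ q ∧ Z < p := by
    intro p hp
    obtain ⟨h4, h5⟩ := mem_filter.1 hp
    exact ⟨Nat.prime_of_mem_primeFactors h4, Nat.dvd_of_mem_primeFactors h4, not_le.1 h5⟩
  have hT1 : T ≤ 1 := prod_le_one (fun p hp => (fac_pos (hpr p hp).1).le) fun p _ => fac_le_one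
  have hT2 := prod_div_ge q Z j hq hq2 hZ hj _ hpr
  have hV := V_pos Z
  have e : Vq q Z * ((Nat.totient q : ℝ) / q) = V Z * T := by
    rw [h1, h2, h3]; ring
  rw [e]
  constructor
  · nlinarith
  · rw [mul_comm]; gcongr

lemma pow_vj_small (δ : ℝ) (hδ : 0 < δ) : ∀ᶠ j : ℕ in atTop,
    (((4 ^ vj j * (2 * j + 7) : ℕ) : ℝ)) + 2 ≤ ((2 : ℝ) ^ j) ^ δ := by
  have hjt : Tendsto (fun j : ℕ => (j : ℝ)) atTop atTop := tendsto_natCast_atTop_atTop
  have hlog2 : (0 : ℝ) < Real.log 2 := Real.log_pos (by norm_num)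
  have hc : 0 < δ / 4 * Real.log 2 := by positivity
  have h1 : ∀ᶠ j : ℕ in atTop, (2 * (j : ℝ) + 9) ≤ Real.exp (δ / 4 * Real.log 2 * j) := by
    have h2 : Tendsto (fun j : ℕ => (j : ℝ) ^ 1 * Real.exp (-(δ / 4 * Real.log 2 * j))) atTop
        (𝓝 0) := by
      have h3 := (Real.tendsto_pow_mul_exp_neg_atTop_nhds_zero 1).comp
        (hjt.const_mul_atTop hc)
      have h4 := h3.const_mul (1 / (δ / 4 * Real.log 2))
      rw [mul_zero] at h4
      refine h4.congr fun x => ?_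
      simp only [comp_apply, pow_one]
      rw [← mul_assoc, ← mul_assoc, one_div, inv_mul_cancel₀ hc.ne', one_mul]
    filter_upwards [h2.eventually (gt_mem_nhds (show (0 : ℝ) < 1 / 11 by norm_num)),
      eventually_ge_atTop 1] with j hj hj1
    rw [pow_one, Real.exp_neg, ← div_eq_mul_inv, div_lt_iff₀ (Real.exp_pos _)] at hj
    have : (1 : ℝ) ≤ j := by exact_mod_cast hj1
    linarith
  filter_upwards [h1, (hjt.comp nlog_tendsto).eventually_ge_atTop (8 / δ),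
    nlog_tendsto.eventually_ge_atTop 1] with j hj hl hl1
  simp only [comp_apply] at hl
  have hl0 : (0 : ℝ) < Nat.log 2 j := by exact_mod_cast hl1
  have hv : (vj j : ℝ) ≤ δ / 8 * j := by
    have h2 : (vj j : ℝ) ≤ (j : ℝ) / Nat.log 2 j := by unfold vj; exact Nat.cast_div_le
    refine h2.trans ?_
    rw [div_le_iff₀ hl0]
    rw [div_le_iff₀ hδ] at hl
    have h3 : (0 : ℝ) ≤ j := Nat.cast_nonneg j
    nlinarith
  have h4 : (4 : ℝ) ^ vj j ≤ Real.exp (δ / 4 * Real.log 2 * j) := by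
    have e : (4 : ℝ) ^ vj j = Real.exp (vj j * (2 * Real.log 2)) := by
      rw [Real.exp_nat_mul]
      congr 1
      rw [two_mul, Real.exp_add, Real.exp_log (by norm_num)]
      norm_num
    rw [e]
    refine Real.exp_le_exp.2 ?_
    calc (vj j : ℝ) * (2 * Real.log 2) ≤ δ / 8 * j * (2 * Real.log 2) := by gcongr
      _ = _ := by ring
  have e2 : ((2 : ℝ) ^ j) ^ δ = Real.exp (δ * Real.log 2 * j) := by
    rw [Real.rpow_def_of_pos (by positivity), Real.log_pow]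
    congr 1; ring
  rw [e2]
  push_cast
  have h5 : (1 : ℝ) ≤ 4 ^ vj j := one_le_pow₀ (by norm_num)
  calc (4 : ℝ) ^ vj j * (2 * (j : ℝ) + 7) + 2 ≤ 4 ^ vj j * (2 * (j : ℝ) + 9) := by nlinarith
    _ ≤ Real.exp (δ / 4 * Real.log 2 * j) * Real.exp (δ / 4 * Real.log 2 * j) := by gcongr
    _ = Real.exp (δ / 2 * Real.log 2 * j) := by rw [← Real.exp_add]; congr 1; ring
    _ ≤ Real.exp (δ * Real.log 2 * j) := by
        refine Real.exp_le_exp.2 ?_
        have : (0 : ℝ) ≤ Real.log 2 * j := by positivity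
        nlinarith

/-- **Exact extremes in progressions.** -/
theorem apMain (δ : ℝ) (hδ : 0 < δ) : ∃ Λ : ℝ, 1 ≤ Λ ∧ ∀ {Ω : Type}
    [MeasurableSpace Ω] (μ : Measure Ω) [IsProbabilityMeasure μ] (A : ℕ → Ω → ℕ),
    RandomClasses μ A → ∀ z : ℕ → ℕ, Monotone z →
    Tendsto (fun n : ℕ => V (z n) * Real.log n) atTop (𝓝 1) →
    ∀ᵐ ω ∂μ, ∀ᶠ X : ℝ in atTop, ∀ q U : ℕ, 1 ≤ q → Λ * Real.log X ^ 2 ≤ U →
      (q : ℝ) * U ≤ 4 * X →
      (∀ n : ℕ, X ≤ n → (n : ℝ) ≤ 2 * X → Adm' (fun p => A p ω) q n →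
        rmq q U ⌊Real.log X⌋₊ - δ ≤ Fq (RB z (fun p => A p ω)) X q n U ∧
        Fq (RB z (fun p => A p ω)) X q n U ≤ rpq q U ⌊Real.log X⌋₊ + δ) ∧
      (∀ x : ℝ, X ≤ x → x ≤ 2 * X →
        (∃ n : ℕ, x ≤ n ∧ (n : ℝ) ≤ x + X ^ δ ∧ Adm' (fun p => A p ω) q n ∧
          rpq q U ⌊Real.log X⌋₊ - δ ≤ Fq (RB z (fun p => A p ω)) X q n U) ∧
        (∃ n : ℕ, x ≤ n ∧ (n : ℝ) ≤ x + X ^ δ ∧ Adm' (fun p => A p ω) q n ∧
          Fq (RB z (fun p => A p ω)) X q n U ≤ rmq q U ⌊Real.log X⌋₊ + δ)) := by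
  obtain ⟨C, hC, ζ0, hrp⟩ := rpq_bdd
  set δ1 : ℝ := min (δ / 4) (1 / 2) with hδ1
  have hδ1p : 0 < δ1 := lt_min (by positivity) (by norm_num)
  have hδ18 : δ1 ≤ δ / 4 := min_le_left _ _
  have hδ1h : δ1 ≤ 1 / 2 := min_le_right _ _
  obtain ⟨Λ, hΛ1, hΛ⟩ := blockQ δ1 hδ1p
  have hΛr : (1 : ℝ) ≤ Λ := by exact_mod_cast hΛ1
  refine ⟨3 * Λ + 3, by linarith, ?_⟩
  intro Ω _ μ _ A hA z hzm hz
  set ε : ℝ := min (δ / (8 * (C + 1))) (1 / 8) with hε
  have hC1 : 0 < C + 1 := by linarith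
  have hεp : 0 < ε := lt_min (by positivity) (by norm_num)
  have hε8 : ε ≤ 1 / 8 := min_le_right _ _
  have hεC : ε * (C + 1) ≤ δ / 8 := by
    calc ε * (C + 1) ≤ δ / (8 * (C + 1)) * (C + 1) := by gcongr; exact min_le_left _ _
      _ = δ / 8 := by field_simp
  set ε0 : ℝ := ε / 4 with hε0
  have hε0p : 0 < ε0 := by positivity
  filter_upwards [hΛ μ A hA (fun j => z (2 ^ j)) (V_pow_two z hz),
    hΛ μ A hA (fun j => z (2 ^ (j + 4))) (V_pow_two_add z hz 4)] with ω h1 h2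
  -- eventual facts in `j`
  have ev : ∀ᶠ j : ℕ in atTop, BlockQ (fun p => A p ω) (fun j => z (2 ^ j)) δ1 Λ j ∧
      BlockQ (fun p => A p ω) (fun j => z (2 ^ (j + 4))) δ1 Λ j ∧
      (((4 ^ vj j * (2 * j + 7) : ℕ) : ℝ)) + 2 ≤ ((2 : ℝ) ^ j) ^ δ ∧
      (((4 ^ vj j * (2 * j + 7) : ℕ) : ℝ)) + 2 ≤ (2 : ℝ) ^ j ∧
      |V (z (2 ^ j)) * (j * Real.log 2) - 1| ≤ ε0 ∧
      |V (z (2 ^ (j + 4))) * (j * Real.log 2) - 1| ≤ ε0 ∧
      (j + 3) / ε0 ≤ z (2 ^ j) ∧ ζ0 ≤ vj j ∧ vj j ≤ j / 4 := by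
    have e1 := (V_pow_two z hz).eventually (Metric.closedBall_mem_nhds _ hε0p)
    have e2 := (V_pow_two_add z hz 4).eventually (Metric.closedBall_mem_nhds _ hε0p)
    have e3 : ∀ᶠ j : ℕ in atTop, ((j : ℝ) + 3) / ε0 ≤ z (2 ^ j) := by
      have f1 : ∀ᶠ j : ℕ in atTop, V (z (2 ^ j)) * j ≤ 2 := by
        filter_upwards [(V_pow_two z hz).eventually
          (gt_mem_nhds (by norm_num : (1 : ℝ) < 1.2))] with j hj
        have h1 := Real.log_two_gt_d9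
        have h2 := (V_pos (z (2 ^ j))).le
        have h3 : 0 ≤ V (z (2 ^ j)) * j := by positivity
        nlinarith
      have f2 := wj_le_of_small (fun j => z (2 ^ j)) f1
      have f3 : Tendsto (fun j : ℕ => ((Nat.log 2 j : ℕ) : ℝ)) atTop atTop :=
        tendsto_natCast_atTop_atTop.comp nlog_tendsto
      filter_upwards [f2, f3.eventually_ge_atTop (max 1 (4 / ε0)), eventually_ge_atTop 3] with
        j g1 g2 g3
      have g4 : (wj j : ℝ) ≤ z (2 ^ j) := by exact_mod_cast g1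
      refine le_trans ?_ g4
      have e4 : (wj j : ℝ) = j * (Nat.log 2 j : ℝ) ^ 3 := by unfold wj; push_cast; rfl
      rw [e4]
      have a1 : (1 : ℝ) ≤ Nat.log 2 j := (le_max_left _ _).trans g2
      have a2 : 4 / ε0 ≤ Nat.log 2 j := (le_max_right _ _).trans g2
      have a3 : (Nat.log 2 j : ℝ) ≤ (Nat.log 2 j : ℝ) ^ 3 := by nlinarith [sq_nonneg (Nat.log 2 j : ℝ)]
      have a4 : (3 : ℝ) ≤ j := by exact_mod_cast g3
      calc ((j : ℝ) + 3) / ε0 ≤ (j * 2) / ε0 := by gcongr; linarith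
        _ ≤ (j * 4) / ε0 := by gcongr; norm_num
        _ = j * (4 / ε0) := by ring
        _ ≤ j * (Nat.log 2 j : ℝ) ^ 3 := by
            gcongr
            exact a2.trans a3
    filter_upwards [h1, h2, pow_vj_small δ hδ, pow_vj_small 1 one_pos, e1, e2, e3,
      vj_tendsto.eventually_ge_atTop ζ0, nlog_tendsto.eventually_ge_atTop 4] with
      j g1 g2 g3 g4 g5 g6 g7 g8 g9
    rw [Real.rpow_one] at g4
    rw [Real.dist_eq] at g5 g6
    refine ⟨g1, g2, g3, g4, g5, g6, g7, g8, ?_⟩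
    unfold vj
    exact Nat.div_le_div_left g9 (by norm_num)
  obtain ⟨J, hJ⟩ := eventually_atTop.1 ev
  filter_upwards [sc_ev ε0 hε0p J, Real.tendsto_log_atTop.eventually_ge_atTop 2,
    eventually_ge_atTop 2] with X hX hlX2 hX2 q U hq hΛU hqU
  obtain ⟨hJj, hSC⟩ := hX
  set j := Nat.log 2 ⌊X⌋₊ with hj
  have hs := hSC (Real.log X) le_rfl
  obtain ⟨g1, g2, g3, g4, g5, g6, g7, g8, g9⟩ := hJ j hJj
  set a : ℕ → ℕ := fun p => A p ω with ha
  set R := RB z a with hR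
  set ζ := ⌊Real.log X⌋₊ with hζ
  have hX0 := hs.X0
  have hx1 := hs.x1
  have hx2 := hs.x2
  have hj16 := hs.j16
  have hjr : (16 : ℝ) ≤ j := by exact_mod_cast hj16
  have hl1 := hs.l1
  have hl2 := hs.l2
  have hlog2 : (0 : ℝ) < Real.log 2 := Real.log_pos (by norm_num)
  have hl2a := Real.log_two_gt_d9
  have hl2b := Real.log_two_lt_d9
  have hj3 : (2 : ℝ) ^ (j + 3) = 8 * 2 ^ j := by ring
  have hj1 : (2 : ℝ) ^ (j + 1) = 2 * 2 ^ j := by ring
  have hlX0 : 0 < Real.log X := by linarith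
  have hq0 : (0 : ℝ) < q := by exact_mod_cast hq
  -- sizes
  have hζ1 : vj j ≤ ζ := g9.trans hs.z1
  have hlogj : 1 ≤ Nat.log 2 j := Nat.le_log_of_pow_le (by norm_num) (by omega)
  have hζ2 : ζ ≤ wj j := by
    refine hs.z2.trans ?_
    unfold wj
    calc j = j * 1 := (mul_one j).symm
      _ ≤ _ := Nat.mul_le_mul_left _ (Nat.one_le_pow _ _ hlogj)
  have hζ0 : ζ0 ≤ ζ := g8.trans hζ1
  have hUj : (Λ : ℝ) * j ^ 2 ≤ U := by
    refine le_trans ?_ hΛU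
    have h3 : (0.69 * (j : ℝ)) ^ 2 ≤ Real.log X ^ 2 := by
      have : 0.69 * (j : ℝ) ≤ Real.log X := by nlinarith
      gcongr
    nlinarith
  have hUj' : Λ * j ^ 2 ≤ U := by exact_mod_cast hUj
  have hU1 : (1 : ℝ) ≤ U := by nlinarith
  have hU0 : (0 : ℝ) < U := by linarith
  have hU0' : 0 < U := by exact_mod_cast hU0
  have hqr : (1 : ℝ) ≤ q := by exact_mod_cast hq
  have hU2 : U < 2 ^ (j + 3) := by
    have h3 : (U : ℝ) < 2 ^ (j + 3) := by
      rw [hj3]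
      have : (U : ℝ) ≤ q * U := by nlinarith
      linarith
    exact_mod_cast h3
  have hq2 : q < 2 ^ (j + 3) := by
    have h3 : (q : ℝ) < 2 ^ (j + 3) := by
      rw [hj3]
      have : (q : ℝ) ≤ q * U := by nlinarith
      linarith
    exact_mod_cast h3
  have hζU : ζ ≤ U ^ 2 := by
    have h3 : j ^ 2 ≤ U := by
      calc j ^ 2 = 1 * j ^ 2 := (one_mul _).symm
        _ ≤ Λ * j ^ 2 := Nat.mul_le_mul_right _ hΛ1
        _ ≤ U := hUj'
    calc ζ ≤ j := hs.z2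
      _ ≤ j ^ 2 := Nat.le_self_pow (by norm_num) j
      _ ≤ U := h3
      _ ≤ U ^ 2 := Nat.le_self_pow (by norm_num) U
  have hrpC : rpq q U ζ ≤ C := hrp ζ hζ0 q U hU0' hζU
  have hrmC : rmq q U ζ ≤ C := (rmq_le_rpq q U ζ).trans hrpC
  have hrp0 := rpq_nonneg q U ζ
  have hrm0 := rmq_nonneg q U ζ
  -- the factors
  have hz2 : (z (2 ^ j) : ℝ) ≤ z (2 ^ (j + 4)) := by
    exact_mod_cast hzm (Nat.pow_le_pow_right (by norm_num) (by omega))
  have hfac : ∀ Z : ℕ, ((j : ℝ) + 3) / ε0 ≤ Z → |V Z * (j * Real.log 2) - 1| ≤ ε0 →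
      1 - ε ≤ Vq q Z * (Real.log X * ((Nat.totient q : ℝ) / q)) ∧
      Vq q Z * (Real.log X * ((Nat.totient q : ℝ) / q)) ≤ 1 + ε := by
    intro Z hZ1 hZ2
    have hZ0 : (0 : ℝ) < Z := lt_of_lt_of_le (by positivity) hZ1
    have hjZ : ((j : ℝ) + 3) / Z ≤ ε0 := by
      rw [div_le_iff₀ hZ0]
      rw [div_le_iff₀ hε0p] at hZ1
      linarith
    have hε01 : ε0 ≤ 1 / 32 := by rw [hε0]; linarith
    have hZb : 2 * (j + 3) ≤ Z := by
      have : (2 : ℝ) * ((j : ℝ) + 3) ≤ Z := by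
        rw [div_le_iff₀ hZ0] at hjZ
        nlinarith
      exact_mod_cast this
    obtain ⟨k1, k2⟩ := Vq_totient q Z j hq hq2 hZb (by omega)
    have hVZ := V_pos Z
    have k3 := abs_le.1 hZ2
    set L : ℝ := j * Real.log 2 with hL
    have hL0 : 0 < L := by positivity
    have e : Vq q Z * (Real.log X * ((Nat.totient q : ℝ) / q)) =
        (Vq q Z * ((Nat.totient q : ℝ) / q)) * Real.log X := by ring
    rw [e]
    constructor
    · calc 1 - ε ≤ (1 - ε0) * (1 - ε0) := by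
            have : ε = 4 * ε0 := by rw [hε0]; ring
            nlinarith
        _ ≤ (1 - ε0) * (V Z * L) := by
            have : 0 ≤ 1 - ε0 := by linarith
            gcongr
            linarith
        _ ≤ (1 - ((j : ℝ) + 3) / Z) * (V Z * L) := by gcongr
        _ = ((1 - ((j : ℝ) + 3) / Z) * V Z) * L := by ring
        _ ≤ (Vq q Z * ((Nat.totient q : ℝ) / q)) * L := by gcongr
        _ ≤ (Vq q Z * ((Nat.totient q : ℝ) / q)) * Real.log X := by
            have := (Vq_pos q Z).le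
            gcongr
    · calc (Vq q Z * ((Nat.totient q : ℝ) / q)) * Real.log X ≤ V Z * Real.log X := by gcongr
        _ ≤ V Z * ((1 + ε0) * L) := by gcongr
        _ = (1 + ε0) * (V Z * L) := by ring
        _ ≤ (1 + ε0) * (1 + ε0) := by
            gcongr
            linarith
        _ ≤ 1 + ε := by
            have : ε = 4 * ε0 := by rw [hε0]; ring
            nlinarith
  obtain ⟨u1, u2⟩ := hfac (z (2 ^ j)) g7 g5
  obtain ⟨v1, v2⟩ := hfac (z (2 ^ (j + 4))) (g7.trans hz2) g6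
  have htot : (0 : ℝ) ≤ (Nat.totient q : ℝ) / q := by positivity
  -- from the block to `Fq`
  have hupF : ∀ n : ℕ, X ≤ n → Fq R X q n U ≤
      ((Sq a (Qs q (z (2 ^ j))) q n U).card : ℝ) / (U * Vq q (z (2 ^ j))) * (1 + ε) := by
    intro n hn
    have hVq := Vq_pos q (z (2 ^ j))
    have h3 : (cq R q n U : ℝ) ≤ (Sq a (Qs q (z (2 ^ j))) q n U).card := by
      have hn' : 2 ^ j ≤ n := by
        have : (2 : ℝ) ^ j ≤ n := hx1.trans hn
        exact_mod_cast this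
      exact_mod_cast cq_le z hzm a (2 ^ j) q n U hn'
    have e : ((Sq a (Qs q (z (2 ^ j))) q n U).card : ℝ) / (U * Vq q (z (2 ^ j))) *
        (Vq q (z (2 ^ j)) * (Real.log X * ((Nat.totient q : ℝ) / q))) =
        ((Sq a (Qs q (z (2 ^ j))) q n U).card : ℝ) *
          (Real.log X * ((Nat.totient q : ℝ) / q)) / U := by
      field_simp
    calc Fq R X q n U ≤ ((Sq a (Qs q (z (2 ^ j))) q n U).card : ℝ) *
          (Real.log X * ((Nat.totient q : ℝ) / q)) / U := by unfold Fq; gcongr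
      _ = _ := e.symm
      _ ≤ _ := by gcongr
  have hlowF : ∀ n : ℕ, X ≤ n → (n : ℝ) ≤ 3 * X → Adm' a q n →
      ((Sq a (Qs q (z (2 ^ (j + 4)))) q n U).card : ℝ) / (U * Vq q (z (2 ^ (j + 4)))) * (1 - ε) ≤
        Fq R X q n U := by
    intro n hn hn2 hadm
    have hVq := Vq_pos q (z (2 ^ (j + 4)))
    have h3 : ((Sq a (Qs q (z (2 ^ (j + 4)))) q n U).card : ℝ) ≤ cq R q n U := by
      have hn' : n + q * U ≤ 2 ^ (j + 4) := by
        have h4 : ((n + q * U : ℕ) : ℝ) ≤ 2 ^ (j + 4) := by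
          push_cast
          have e4 : (2 : ℝ) ^ (j + 4) = 16 * 2 ^ j := by ring
          rw [e4]
          linarith
        exact_mod_cast h4
      exact_mod_cast le_cq z hzm a (2 ^ (j + 4)) q n U hn' hadm
    have e : ((Sq a (Qs q (z (2 ^ (j + 4)))) q n U).card : ℝ) /
        (U * Vq q (z (2 ^ (j + 4)))) *
        (Vq q (z (2 ^ (j + 4))) * (Real.log X * ((Nat.totient q : ℝ) / q))) =
        ((Sq a (Qs q (z (2 ^ (j + 4)))) q n U).card : ℝ) *
          (Real.log X * ((Nat.totient q : ℝ) / q)) / U := by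
      field_simp
    calc _ ≤ ((Sq a (Qs q (z (2 ^ (j + 4)))) q n U).card : ℝ) /
          (U * Vq q (z (2 ^ (j + 4)))) *
          (Vq q (z (2 ^ (j + 4))) * (Real.log X * ((Nat.totient q : ℝ) / q))) := by gcongr
      _ = _ := e
      _ ≤ Fq R X q n U := by unfold Fq; gcongr
  have hB1 := g1 q hq hq2 U hUj' hU2 ζ hζ1 hζ2
  have hB2 := g2 q hq hq2 U hUj' hU2 ζ hζ1 hζ2
  have hnlt : ∀ n : ℕ, (n : ℝ) ≤ 3 * X → n < 2 ^ (j + 3) := by
    intro n hn
    have h3 : (n : ℝ) < 2 ^ (j + 3) := by rw [hj3]; linarith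
    exact_mod_cast h3
  refine ⟨fun n hn1 hn2 hadm => ⟨?_, ?_⟩, fun x hxX hx2X => ?_⟩
  · have h3 := hlowF n hn1 (by linarith) hadm
    have h4 := (hB2.1 n (hnlt n (by linarith))).1
    refine le_trans ?_ h3
    have h5 : (rmq q U ζ - δ1) * (1 - ε) ≤
        ((Sq a (Qs q (z (2 ^ (j + 4)))) q n U).card : ℝ) / (U * Vq q (z (2 ^ (j + 4)))) *
          (1 - ε) := by
      have : 0 ≤ 1 - ε := by linarith
      gcongr
    refine le_trans ?_ h5
    have h6 : rmq q U ζ * ε ≤ (C + 1) * ε := by gcongr; linarith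
    nlinarith
  · have h3 := hupF n hn1
    have h4 := (hB1.1 n (hnlt n (by linarith))).2
    refine h3.trans ?_
    have h5 : ((Sq a (Qs q (z (2 ^ j))) q n U).card : ℝ) / (U * Vq q (z (2 ^ j))) * (1 + ε) ≤
        (rpq q U ζ + δ1) * (1 + ε) := by gcongr
    refine h5.trans ?_
    have h6 : rpq q U ζ * ε ≤ C * ε := by gcongr
    nlinarith
  · have hceil := Nat.le_ceil x
    have hceil2 := Nat.ceil_lt_add_one (show 0 ≤ x by linarith)
    set E := 4 ^ vj j * (2 * j + 7) with hE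
    have hXδ : ((2 : ℝ) ^ j) ^ δ ≤ X ^ δ := Real.rpow_le_rpow (by positivity) hx1 hδ.le
    have hBE : ⌈x⌉₊ + E ≤ 2 ^ (j + 3) := by
      have h3 : ((⌈x⌉₊ + E : ℕ) : ℝ) ≤ 2 ^ (j + 3) := by
        push_cast
        rw [hj3]
        push_cast at g4
        linarith
      exact_mod_cast h3
    have hgo : ∀ n : ℕ, ⌈x⌉₊ ≤ n → n < ⌈x⌉₊ + E → x ≤ n ∧ (n : ℝ) ≤ x + X ^ δ ∧
        (n : ℝ) ≤ 3 * X := by
      intro n hn1 hn2
      have h3 : (⌈x⌉₊ : ℝ) ≤ n := by exact_mod_cast hn1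
      have h4 : (n : ℝ) < ⌈x⌉₊ + E := by exact_mod_cast hn2
      refine ⟨hceil.trans h3, by linarith, by linarith⟩
    constructor
    · obtain ⟨n, hn1, hn2, hadm, hn3⟩ := (hB2.2 ⌈x⌉₊ E le_rfl hBE).1
      obtain ⟨k1, k2, k3⟩ := hgo n hn1 hn2
      refine ⟨n, k1, k2, hadm, ?_⟩
      refine le_trans ?_ (hlowF n (hxX.trans k1) k3 hadm)
      have h5 : (rpq q U ζ - δ1) * (1 - ε) ≤
          ((Sq a (Qs q (z (2 ^ (j + 4)))) q n U).card : ℝ) / (U * Vq q (z (2 ^ (j + 4)))) *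
            (1 - ε) := by
        have : 0 ≤ 1 - ε := by linarith
        gcongr
      refine le_trans ?_ h5
      have h6 : rpq q U ζ * ε ≤ C * ε := by gcongr
      nlinarith
    · obtain ⟨n, hn1, hn2, hadm, hn3⟩ := (hB1.2 ⌈x⌉₊ E le_rfl hBE).2
      obtain ⟨k1, k2, k3⟩ := hgo n hn1 hn2
      refine ⟨n, k1, k2, hadm, ?_⟩
      refine (hupF n (hxX.trans k1)).trans ?_
      have h5 : ((Sq a (Qs q (z (2 ^ j))) q n U).card : ℝ) / (U * Vq q (z (2 ^ j))) * (1 + ε) ≤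
          (rmq q U ζ + δ1) * (1 + ε) := by gcongr
      refine h5.trans ?_
      have h6 : rmq q U ζ * ε ≤ C * ε := by gcongr
      nlinarith

end Pool.Agent.H532.RM
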