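import Mathlib
import Pool.Agent.H532.RM.Rate

/-!
Numerical part of the critical scale theorem.
-/

namespace Pool.Agent.H532.RM

open Finset Filter
open scoped Topology

lemma rate_th {θ : ℝ} (hθ : 0 < θ) (c y : ℝ) : rate (c * θ) (y * θ) = θ * rate c y := by
  rw [mul_comm c, mul_comm y, rate_scale hθ]

lemma numA {c1 t1 ρ θ LX L H lam r s' η : ℝ} (hc1 : 0 ≤ c1) (ht1 : 0 ≤ t1) (hρ : 0 < ρ)
    (hLX : 0 < LX) (hH : 0 < H) (hL : L ≤ LX) (hθ : θ = LX / H) (hlam : lam = H / LX ^ 2)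
    (hr : 0 < r) (hs' : 1 ≤ s') (hη : 0 ≤ η) (hstar : rate c1 (ρ * t1) ≤ (1 + η) * L)
    (h0 : t1 = 0 → c1 = 0) (hy : ρ * t1 * θ ≤ s' * r) :
    c1 * θ ≤ (1 + η) * s' * upE lam r := by
  have hθ0 : 0 < θ := by rw [hθ]; positivity
  have hl0 : 0 < lam := by rw [hlam]; positivity
  have hE := r_le_upE hl0 hr
  have hs0 : 0 < s' := by linarith
  rcases le_or_gt (c1 * θ) (s' * r) with h | h
  · calc c1 * θ ≤ s' * r := h
      _ ≤ s' * upE lam r := by gcongr
      _ ≤ (1 + η) * s' * upE lam r := by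
          have : 0 ≤ s' * upE lam r := mul_nonneg hs0.le (hr.le.trans hE)
          nlinarith
  · have hK : 0 < c1 * θ := lt_of_lt_of_le (by positivity) h.le
    have ht : 0 < t1 := by
      rcases ht1.eq_or_lt with h1 | h1
      · rw [h0 h1.symm, zero_mul] at hK
        exact absurd hK (lt_irrefl _)
      · exact h1
    have hy0 : 0 < ρ * t1 * θ := by positivity
    have h1 := rate_anti_right hy0 hy h.le
    have h2 : lam * rate (c1 * θ) (ρ * t1 * θ) ≤ 1 + η := by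
      rw [rate_th hθ0]
      have e : lam * θ = 1 / LX := by rw [hlam, hθ]; field_simp
      calc lam * (θ * rate c1 (ρ * t1)) = (lam * θ) * rate c1 (ρ * t1) := by ring
        _ ≤ (lam * θ) * ((1 + η) * L) := by gcongr
        _ ≤ (lam * θ) * ((1 + η) * LX) := by gcongr
        _ = 1 + η := by rw [e]; field_simp
    exact upE_stable hl0 hr (by linarith) hs' h.le
      ((mul_le_mul_of_nonneg_left h1 hl0.le).trans h2)

lemma numB {c2 t1 ρ θ LX L H lam r e Y η : ℝ} (hc2 : 0 ≤ c2) (ht1 : 0 ≤ t1) (hρ : 0 < ρ)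
    (hLX : 0 < LX) (hH : 0 < H) (hL : L ≤ LX) (hθ : θ = LX / H) (hlam : lam = H / LX ^ 2)
    (hr : 0 ≤ r) (he : 0 ≤ e) (hη : 0 ≤ η) (hstar : rate c2 (ρ * t1) ≤ (1 + η) * L)
    (hy : r - e ≤ ρ * t1 * θ) (hY : ρ * t1 * θ ≤ Y) :
    loE lam r ≤ c2 * θ + η * Y + e := by
  have hθ0 : 0 < θ := by rw [hθ]; positivity
  have hl0 : 0 < lam := by rw [hlam]; positivity
  have hy0 : 0 ≤ ρ * t1 * θ := by positivity
  have hηY : 0 ≤ η * Y := mul_nonneg hη (hy0.trans hY)
  rcases le_or_gt (c2 * θ) (ρ * t1 * θ) with h | h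
  · have h2 : lam * rate (c2 * θ) (ρ * t1 * θ) ≤ 1 + η := by
      rw [rate_th hθ0]
      have e : lam * θ = 1 / LX := by rw [hlam, hθ]; field_simp
      calc lam * (θ * rate c2 (ρ * t1)) = (lam * θ) * rate c2 (ρ * t1) := by ring
        _ ≤ (lam * θ) * ((1 + η) * L) := by gcongr
        _ ≤ (lam * θ) * ((1 + η) * LX) := by gcongr
        _ = 1 + η := by rw [e]; field_simp
    have h3 := loE_stable hl0 hr (by linarith : 1 ≤ 1 + η) (by positivity : 0 ≤ c2 * θ) h h2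
    have h4 : (1 - 1 / (1 + η)) * (ρ * t1 * θ) ≤ η * Y := by
      have h5 : 1 - 1 / (1 + η) ≤ η := by
        rw [sub_le_iff_le_add, ← sub_le_iff_le_add', le_div_iff₀ (by linarith)]
        nlinarith
      calc (1 - 1 / (1 + η)) * (ρ * t1 * θ) ≤ η * (ρ * t1 * θ) := by gcongr
        _ ≤ η * Y := by gcongr
    have h6 : max (r - ρ * t1 * θ) 0 ≤ e := max_le (by linarith) he
    linarith
  · have := loE_le_r (lam := lam) hr
    linarith

lemma numC {n : ℕ} {ρ θ LX H lam r η τ : ℝ} (hρ : 0 < ρ)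
    (hLX : 0 < LX) (hH : 0 < H) (hθ : θ = LX / H) (hlam : lam = H / LX ^ 2)
    (hr : 0 < r) (hη : 0 ≤ η) (hη1 : η ≤ 1 / 4) (hτ : τ ≤ 1) (hy0 : 0 < ρ * n * θ)
    (hy : ρ * n * θ ≤ r) (hy2 : (1 - τ) * r ≤ ρ * n * θ) :
    ∃ b : ℕ, rate b (ρ * n) ≤ max ((1 - 2 * η) * LX) (1 / (ρ * n)) ∧
      ρ * n * θ - θ ≤ b * θ ∧ b * θ ≤ upE lam r ∧
      (1 - 2 * η) * (1 - τ) * upE lam r - θ ≤ b * θ := by
  have hθ0 : 0 < θ := by rw [hθ]; positivity
  have hl0 : 0 < lam := by rw [hlam]; positivity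
  set E := upE lam r with hE
  have hrE : r ≤ E := r_le_upE hl0 hr
  have hE0 : 0 < E := by linarith
  set y := ρ * n * θ with hyd
  set E1 := E * (y / r) with hE1
  have hyr : y / r ≤ 1 := by rw [div_le_one hr]; exact hy
  have hyr0 : 0 < y / r := by positivity
  have hyE1 : y ≤ E1 := by
    rw [hE1]
    calc y = r * (y / r) := by field_simp
      _ ≤ E * (y / r) := by gcongr
  have hE1E : E1 ≤ E := by
    rw [hE1]
    calc E * (y / r) ≤ E * 1 := by gcongr
      _ = E := mul_one _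
  set K := (1 - (1 - 2 * η)) * y + (1 - 2 * η) * E1 with hK
  have hKy : y ≤ K := by
    rw [hK]
    nlinarith
  have hKE1 : K ≤ E1 := by rw [hK]; nlinarith
  have hrate1 : lam * rate E1 y ≤ 1 := by
    have h1 : rate E1 y = (y / r) * rate E r := by
      have e1 : E1 = (y / r) * E := by rw [hE1]; ring
      have e2 : y = (y / r) * r := by field_simp
      rw [e1]
      nth_rewrite 2 [e2]
      rw [rate_scale hyr0]
    rw [h1]
    have h2 := upE_mem hl0 hr
    rw [← hE] at h2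
    have h3 := rate_nonneg' (hr.le.trans hrE) hr
    calc lam * ((y / r) * rate E r) ≤ lam * (1 * rate E r) := by gcongr
      _ ≤ 1 := by rw [one_mul]; exact h2
  have hrateK : lam * rate K y ≤ 1 - 2 * η := by
    have h1 := rate_convex (K := E1) (r := y) (t := 1 - 2 * η) (by linarith) hy0.le
      (by linarith) (by linarith) (fun h => absurd h hy0.ne')
    calc lam * rate K y ≤ lam * ((1 - 2 * η) * rate E1 y) := by rw [hK]; gcongr
      _ = (1 - 2 * η) * (lam * rate E1 y) := by ring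
      _ ≤ (1 - 2 * η) * 1 := by
          have : 0 ≤ 1 - 2 * η := by linarith
          gcongr
      _ = 1 - 2 * η := mul_one _
  have hρn : 0 < ρ * n := by
    by_contra hneg
    have : ρ * n * θ ≤ 0 := mul_nonpos_of_nonpos_of_nonneg (not_lt.1 hneg) hθ0.le
    linarith
  have hKθ : 0 ≤ K / θ := div_nonneg (by linarith) hθ0.le
  have hrx : rate (K / θ) (ρ * n) ≤ (1 - 2 * η) * LX := by
    have e1 : K = K / θ * θ := by field_simp
    have h1 : rate K y = θ * rate (K / θ) (ρ * n) := by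
      rw [← rate_th hθ0, ← e1]
    rw [h1] at hrateK
    have e : lam * θ = 1 / LX := by rw [hlam, hθ]; field_simp
    rw [← mul_assoc, e, one_div, inv_mul_le_iff₀ hLX] at hrateK
    linarith
  have hfl1 := Nat.floor_le hKθ
  have hfl2 := Nat.lt_floor_add_one (K / θ)
  refine ⟨⌊K / θ⌋₊, ?_, ?_, ?_, ?_⟩
  · refine (rate_round hKθ hρn (Nat.cast_nonneg _) ?_ (Or.inl ⟨?_, hfl1⟩)).trans
      (max_le_max hrx le_rfl)
    · rw [abs_le]; constructor <;> linarith
    · rw [le_div_iff₀ hθ0]; exact hKy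
  · have h1 : (K / θ - 1) * θ ≤ ⌊K / θ⌋₊ * θ := by
      have : K / θ - 1 ≤ ⌊K / θ⌋₊ := by linarith
      gcongr
    have h2 : (K / θ - 1) * θ = K - θ := by field_simp
    linarith
  · calc (⌊K / θ⌋₊ : ℝ) * θ ≤ K / θ * θ := by gcongr
      _ = K := by field_simp
      _ ≤ E := hKE1.trans hE1E
  · have h1 : (K / θ - 1) * θ ≤ ⌊K / θ⌋₊ * θ := by
      have : K / θ - 1 ≤ ⌊K / θ⌋₊ := by linarith
      gcongr
    have h2 : (K / θ - 1) * θ = K - θ := by field_simp
    have h3 : (1 - τ) * E ≤ E1 := by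
      have h4 : 1 - τ ≤ y / r := by rw [le_div_iff₀ hr]; exact hy2
      rw [hE1]
      calc (1 - τ) * E ≤ (y / r) * E := by gcongr
        _ = E * (y / r) := by ring
    have h5 : (1 - 2 * η) * (1 - τ) * E ≤ K := by
      have h6 : (1 - 2 * η) * ((1 - τ) * E) ≤ (1 - 2 * η) * E1 := by
        have : 0 ≤ 1 - 2 * η := by linarith
        gcongr
      have h7 : 0 ≤ (1 - (1 - 2 * η)) * y := mul_nonneg (by linarith) hy0.le
      rw [hK]
      linarith
    linarith

lemma numD {n : ℕ} {ρ θ LX H lam r η : ℝ} (hρ : 0 < ρ)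
    (hLX : 0 < LX) (hH : 0 < H) (hθ : θ = LX / H) (hlam : lam = H / LX ^ 2)
    (hr : 0 ≤ r) (hη : 0 ≤ η) (hη1 : η ≤ 1 / 4) (hy0 : 0 < ρ * n * θ) (hy : r ≤ ρ * n * θ) :
    ∃ b : ℕ, rate b (ρ * n) ≤ max ((1 - 2 * η) * LX) (1 / (ρ * n)) ∧
      2 * η * (ρ * n * θ) ≤ b * θ ∧
      b * θ ≤ loE lam r + (ρ * n * θ - r) + 2 * η * (ρ * n * θ) + θ := by
  have hθ0 : 0 < θ := by rw [hθ]; positivity
  have hl0 : 0 < lam := by rw [hlam]; positivity
  set E := loE lam r with hE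
  have hEr : E ≤ r := loE_le_r hr
  have hE0 : 0 ≤ E := loE_nonneg _ _
  set y := ρ * n * θ with hyd
  set E1 := E + (y - r) with hE1
  have hE1y : E1 ≤ y := by rw [hE1]; linarith
  have hE10 : 0 ≤ E1 := by rw [hE1]; linarith
  set K := (1 - (1 - 2 * η)) * y + (1 - 2 * η) * E1 with hK
  have hKy : K ≤ y := by rw [hK]; nlinarith
  have hK0 : 2 * η * y ≤ K := by rw [hK]; nlinarith
  have hKE : K ≤ E1 + 2 * η * y := by rw [hK]; nlinarith
  have hrate1 : lam * rate E1 y ≤ 1 := by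
    have h1 := rate_shift hE0 hEr (show 0 ≤ y - r by linarith)
    rw [add_sub_cancel] at h1
    have h2 := loE_mem (lam := lam) hr
    rw [← hE] at h2
    exact (mul_le_mul_of_nonneg_left h1 hl0.le).trans h2
  have hrateK : lam * rate K y ≤ 1 - 2 * η := by
    have h1 := rate_convex (K := E1) (r := y) (t := 1 - 2 * η) hE10 hy0.le
      (by linarith) (by linarith) (fun h => absurd h hy0.ne')
    calc lam * rate K y ≤ lam * ((1 - 2 * η) * rate E1 y) := by rw [hK]; gcongr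
      _ = (1 - 2 * η) * (lam * rate E1 y) := by ring
      _ ≤ (1 - 2 * η) * 1 := by
          have : 0 ≤ 1 - 2 * η := by linarith
          gcongr
      _ = 1 - 2 * η := mul_one _
  have hρn : 0 < ρ * n := by
    by_contra hneg
    have : ρ * n * θ ≤ 0 := mul_nonpos_of_nonpos_of_nonneg (not_lt.1 hneg) hθ0.le
    linarith
  have hK00 : 0 ≤ K := le_trans (by positivity) hK0
  have hKθ : 0 ≤ K / θ := div_nonneg hK00 hθ0.le
  have hrx : rate (K / θ) (ρ * n) ≤ (1 - 2 * η) * LX := by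
    have e1 : K = K / θ * θ := by field_simp
    have h1 : rate K y = θ * rate (K / θ) (ρ * n) := by
      rw [← rate_th hθ0, ← e1]
    rw [h1] at hrateK
    have e : lam * θ = 1 / LX := by rw [hlam, hθ]; field_simp
    rw [← mul_assoc, e, one_div, inv_mul_le_iff₀ hLX] at hrateK
    linarith
  have hfl1 := Nat.le_ceil (K / θ)
  have hfl2 := Nat.ceil_lt_add_one hKθ
  refine ⟨⌈K / θ⌉₊, ?_, ?_, ?_⟩
  · refine (rate_round hKθ hρn (Nat.cast_nonneg _) ?_ (Or.inr ⟨?_, hfl1⟩)).trans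
      (max_le_max hrx le_rfl)
    · rw [abs_le]; constructor <;> linarith
    · rw [div_le_iff₀ hθ0]; exact hKy
  · calc 2 * η * y ≤ K := hK0
      _ = K / θ * θ := by field_simp
      _ ≤ ⌈K / θ⌉₊ * θ := by gcongr
  · calc (⌈K / θ⌉₊ : ℝ) * θ ≤ (K / θ + 1) * θ := by gcongr
      _ = K + θ := by field_simp
      _ ≤ _ := by linarith

end Pool.Agent.H532.RM
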