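import Mathlib
import Pool.Agent.H532.RM.ThmB2
import Pool.Graph.R_pool_sql_team_seeded_b0a926ef.R529.BU.Lim

/-!
The interval sieve: windows of length at least `ζ ^ K` are regular, windows of length at most
`ζ ^ N` are not.
-/

namespace Pool.Agent.H532.RM

open Finset Filter
open scoped Topology

/-- The fundamental lemma: long windows. -/
theorem rp_to_one (δ : ℝ) (hδ : 0 < δ) : ∃ K : ℕ, ∀ᶠ ζ : ℕ in atTop, ∀ U : ℕ, ζ ^ K ≤ U →
    |rp U ζ - 1| ≤ δ ∧ |rm U ζ - 1| ≤ δ := by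
  obtain ⟨C, hC, hf⟩ := fund 1
  obtain ⟨b0, hb0⟩ : ∃ b : ℕ, (1 / 2 : ℝ) ^ b < δ := exists_pow_lt_of_lt_one hδ (by norm_num)
  set b := max C b0 with hb
  obtain ⟨U0, h0⟩ := hf b (le_max_left _ _)
  have hb1 : 1 ≤ b := hC.trans (le_max_left _ _)
  have hCb : 1 ≤ C * b := Nat.mul_pos hC hb1
  refine ⟨C * b, ?_⟩
  filter_upwards [eventually_ge_atTop (max U0 2)] with ζ hζ U hU
  have hζ0 : U0 ≤ ζ := (le_max_left _ _).trans hζ
  have hζ2 : 2 ≤ ζ := (le_max_right _ _).trans hζ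
  have hζU : ζ ≤ U := (Nat.le_self_pow (by omega) ζ).trans hU
  have hq : (1 / 2 : ℝ) ^ b ≤ δ :=
    (pow_le_pow_of_le_one (by norm_num) (by norm_num) (le_max_right _ _)).trans hb0.le
  have hVζ := V_pos ζ
  have hUr : (0 : ℝ) < U := by exact_mod_cast (by omega : 0 < U)
  have key : ∀ m : ℕ, |(T1 (fun _ => 0) ζ m U : ℝ) - U * V ζ| ≤ δ * (U * V ζ) := by
    intro m
    have h1 := h0 U (by omega) {0} (card_singleton 0) (fun _ => 0) (primesLe ζ) (fun p hp => by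
      have hp' := mem_primesLe.1 hp
      refine ⟨hp'.2, ?_, by rw [nuD_zero]; exact hp'.2.one_lt⟩
      have b1 : (p : ℝ) ≤ ζ := by exact_mod_cast hp'.1
      refine b1.trans ?_
      have h4 : ((ζ : ℝ) ^ (C * b)) ≤ U := by exact_mod_cast hU
      have h5 : ((ζ : ℝ) ^ (C * b)) ^ (1 / ((C : ℝ) * b)) ≤ (U : ℝ) ^ (1 / ((C : ℝ) * b)) :=
        Real.rpow_le_rpow (by positivity) h4 (by positivity)
      have h6 : ((ζ : ℝ) ^ (C * b)) ^ (1 / ((C : ℝ) * b)) = ζ := by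
        rw [one_div, ← Nat.cast_mul]
        exact Real.pow_rpow_inv_natCast (by positivity) (by omega)
      rw [h6] at h5
      exact h5) m
    rw [VDQ_zero] at h1
    refine h1.trans ?_
    gcongr
  constructor
  · obtain ⟨m, hm⟩ := exists_smax U ζ
    have h1 := key m
    rw [hm] at h1
    have e : rp U ζ - 1 = ((smax U ζ : ℝ) - U * V ζ) / (U * V ζ) := by
      unfold rp; field_simp
    rw [e, abs_div, abs_of_pos (by positivity : (0 : ℝ) < U * V ζ), div_le_iff₀ (by positivity)]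
    exact h1
  · obtain ⟨m, hm⟩ := exists_smin U ζ
    have h1 := key m
    rw [hm] at h1
    have e : rm U ζ - 1 = ((smin U ζ : ℝ) - U * V ζ) / (U * V ζ) := by
      unfold rm; field_simp
    rw [e, abs_div, abs_of_pos (by positivity : (0 : ℝ) < U * V ζ), div_le_iff₀ (by positivity)]
    exact h1

lemma T1_add (c : ℕ → ℕ) (Z m U U' : ℕ) :
    T1 c Z m (U + U') = T1 c Z m U + T1 c Z (m + U) U' := by
  unfold T1
  rw [← card_union_of_disjoint]
  · congr 1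
    ext n
    rw [mem_union, mem_T1, mem_T1, mem_T1]
    constructor
    · rintro ⟨⟨h1, h2⟩, h3⟩
      rcases le_or_gt n (m + U) with h | h
      · exact Or.inl ⟨⟨h1, h⟩, h3⟩
      · exact Or.inr ⟨⟨h, by omega⟩, h3⟩
    · rintro (⟨⟨h1, h2⟩, h3⟩ | ⟨⟨h1, h2⟩, h3⟩)
      · exact ⟨⟨h1, by omega⟩, h3⟩
      · exact ⟨⟨by omega, by omega⟩, h3⟩
  · rw [Finset.disjoint_left]
    intro n h1 h2
    have a1 := (mem_T1.1 h1).1
    have a2 := (mem_T1.1 h2).1
    omega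

lemma T1_mono_U (c : ℕ → ℕ) (Z m : ℕ) {U U' : ℕ} (h : U ≤ U') : T1 c Z m U ≤ T1 c Z m U' := by
  obtain ⟨k, rfl⟩ := Nat.exists_eq_add_of_le h
  rw [T1_add]; omega

lemma T1_mul_le (c : ℕ → ℕ) (Z m U k : ℕ) : T1 c Z m (k * U) ≤ k * smax U Z := by
  induction k with
  | zero => simpa using T1_le c Z m 0
  | succ k ih =>
    rw [Nat.succ_mul, T1_add, Nat.succ_mul]
    exact Nat.add_le_add ih (T1_le_smax c Z _ U)

lemma le_T1_mul (c : ℕ → ℕ) (Z m U k : ℕ) : k * smin U Z ≤ T1 c Z m (k * U) := by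
  induction k with
  | zero => simp
  | succ k ih =>
    rw [Nat.succ_mul, Nat.succ_mul, T1_add]
    exact Nat.add_le_add ih (smin_le_T1 c Z _ U)

lemma T1_eq_RR (ζ : ℕ) (x : ℝ) :
    (T1 (fun _ => 0) ζ 0 ⌊x⌋₊ : ℝ) = ((Pool.Agent.R529.BU.RR x ζ).card : ℝ) := by
  unfold T1
  congr 2
  ext n
  rw [mem_T1, Pool.Agent.R529.BU.mem_RR]
  constructor
  · rintro ⟨⟨h1, h2⟩, h3⟩
    refine ⟨⟨by omega, by omega⟩, fun p hp hd => ?_⟩
    by_contra hcon
    have h4 : p ≤ ζ := by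
      have := not_lt.1 hcon
      exact_mod_cast this
    have := h3 p (mem_primesLe.2 ⟨h4, hp⟩)
    rw [Nat.zero_mod] at this
    exact this (Nat.mod_eq_zero_of_dvd hd)
  · rintro ⟨⟨h1, h2⟩, h3⟩
    refine ⟨⟨by omega, by omega⟩, fun p hp hd => ?_⟩
    rw [Nat.zero_mod] at hd
    have h4 := h3 p (mem_primesLe.1 hp).2 (Nat.dvd_of_mod_eq_zero hd)
    have h5 : ζ < p := by exact_mod_cast h4
    have := (mem_primesLe.1 hp).1
    omega

/-- Buchstab's asymptotic formula. -/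
lemma buch (u : ℝ) (hu : 2 ≤ u) : Tendsto (fun ζ : ℕ =>
    (T1 (fun _ => 0) ζ 0 ⌊(ζ : ℝ) ^ u⌋₊ : ℝ) / ((ζ : ℝ) ^ u * V ζ)) atTop
    (𝓝 (Pool.Agent.R529.BU.om u / Real.exp (-Real.eulerMascheroniConstant))) := by
  have h1 : Tendsto (fun ζ : ℕ => (T1 (fun _ => 0) ζ 0 ⌊(ζ : ℝ) ^ u⌋₊ : ℝ) * Real.log ζ /
      (ζ : ℝ) ^ u) atTop (𝓝 (Pool.Agent.R529.BU.om u)) := by
    rw [Metric.tendsto_atTop]
    intro ε hε
    obtain ⟨n, hn⟩ := exists_nat_ge u
    have hn2 : 2 ≤ n := by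
      have : (2 : ℝ) ≤ n := hu.trans hn
      exact_mod_cast this
    obtain ⟨z0, hz0⟩ := Pool.Agent.R529.BU.QA_all n hn2 (1 / 2) (ε / 2) (by norm_num)
      (by positivity)
    obtain ⟨N, hN⟩ := exists_nat_ge (max z0 2)
    refine ⟨N, fun ζ hζ => ?_⟩
    have hζr : max z0 2 ≤ (ζ : ℝ) := hN.trans (by exact_mod_cast hζ)
    have hζz : z0 ≤ ζ := (le_max_left _ _).trans hζr
    have hζ2 : (2 : ℝ) ≤ ζ := (le_max_right _ _).trans hζr
    have hζ1 : (1 : ℝ) ≤ ζ := by linarith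
    have h2 := hz0 ζ hζz ((ζ : ℝ) ^ u)
      (Real.rpow_le_rpow_of_exponent_le hζ1 (by linarith))
      (Real.rpow_le_rpow_of_exponent_le hζ1 hn)
    have hlog : 0 < Real.log ζ := Real.log_pos (by linarith)
    rw [Real.log_rpow (by linarith), mul_div_assoc, div_self hlog.ne', mul_one] at h2
    have hx : 0 < (ζ : ℝ) ^ u := by positivity
    rw [Real.dist_eq, T1_eq_RR]
    have hWW : Pool.Agent.R529.BU.WW u = u * Pool.Agent.R529.BU.om u := rfl
    rw [hWW] at h2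
    have hu0 : 0 < u := by linarith
    have e : ((Pool.Agent.R529.BU.RR ((ζ : ℝ) ^ u) ζ).card : ℝ) * Real.log ζ / (ζ : ℝ) ^ u -
        Pool.Agent.R529.BU.om u =
        (((Pool.Agent.R529.BU.RR ((ζ : ℝ) ^ u) ζ).card : ℝ) * (u * Real.log ζ) -
          (ζ : ℝ) ^ u * (u * Pool.Agent.R529.BU.om u)) / (u * (ζ : ℝ) ^ u) := by
      field_simp
    rw [e, abs_div, abs_of_pos (by positivity : 0 < u * (ζ : ℝ) ^ u), div_lt_iff₀ (by positivity)]
    calc |((Pool.Agent.R529.BU.RR ((ζ : ℝ) ^ u) ζ).card : ℝ) * (u * Real.log ζ) -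
          (ζ : ℝ) ^ u * (u * Pool.Agent.R529.BU.om u)| ≤ ε / 2 * (ζ : ℝ) ^ u := h2
      _ < ε * (u * (ζ : ℝ) ^ u) := by
        have h6 : 0 < ε * (ζ : ℝ) ^ u := mul_pos hε hx
        have h7 : ε * (u * (ζ : ℝ) ^ u) = u * (ε * (ζ : ℝ) ^ u) := by ring
        rw [h7]
        nlinarith
  have h3 := h1.div V_log (Real.exp_pos _).ne'
  refine h3.congr' ?_
  filter_upwards [eventually_ge_atTop 2] with ζ hζ
  have hlog : 0 < Real.log ζ := Real.log_pos (by exact_mod_cast hζ)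
  have hVζ := V_pos ζ
  have hζ0 : (0 : ℝ) < ζ := by exact_mod_cast (by omega : 0 < ζ)
  have hx : 0 < (ζ : ℝ) ^ u := by positivity
  simp only [Pi.div_apply]
  field_simp

/-- Short windows are irregular (Maier's phenomenon). -/
theorem maier (N : ℝ) : ∃ c : ℝ, 0 < c ∧ c < 1 ∧ ∀ᶠ ζ : ℕ in atTop, ∀ U : ℕ, 1 ≤ U →
    (U : ℝ) ≤ (ζ : ℝ) ^ N → 1 + c ≤ rp U ζ ∧ rm U ζ ≤ 1 - c := by
  set g : ℝ := Real.exp (-Real.eulerMascheroniConstant) with hg
  have hg0 : 0 < g := Real.exp_pos _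
  obtain ⟨u1, hu1, ho1⟩ := Pool.Agent.R529.BU.om_gt (max (N + 1) 2)
  obtain ⟨u2, hu2, ho2⟩ := Pool.Agent.R529.BU.om_lt (max (N + 1) 2)
  have hu12 : 2 ≤ u1 := (le_max_right _ _).trans hu1
  have hu22 : 2 ≤ u2 := (le_max_right _ _).trans hu2
  have hu1N : N + 1 ≤ u1 := (le_max_left _ _).trans hu1
  have hu2N : N + 1 ≤ u2 := (le_max_left _ _).trans hu2
  set q1 : ℝ := Pool.Agent.R529.BU.om u1 / g with hq1
  set q2 : ℝ := Pool.Agent.R529.BU.om u2 / g with hq2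
  have hq11 : 1 < q1 := by rwa [hq1, one_lt_div hg0]
  have hq21 : q2 < 1 := by rwa [hq2, div_lt_one hg0]
  set c : ℝ := min (min ((q1 - 1) / 4) ((1 - q2) / 4)) (1 / 8) with hc
  have hc1 : c ≤ (q1 - 1) / 4 := (min_le_left _ _).trans (min_le_left _ _)
  have hc2 : c ≤ (1 - q2) / 4 := (min_le_left _ _).trans (min_le_right _ _)
  have hc3 : c ≤ 1 / 8 := min_le_right _ _
  have hc0 : 0 < c := lt_min (lt_min (by linarith) (by linarith)) (by norm_num)
  refine ⟨c, hc0, by linarith, ?_⟩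
  have b1 := (buch u1 hu12).eventually (lt_mem_nhds (by linarith : 1 + 3 * c < q1))
  have b2 := (buch u2 hu22).eventually (gt_mem_nhds (by linarith : q2 < 1 - 3 * c))
  have b3 : ∀ᶠ ζ : ℕ in atTop, max 4 (2 / c) ≤ (ζ : ℝ) :=
    tendsto_natCast_atTop_atTop.eventually_ge_atTop _
  filter_upwards [b1, b2, b3] with ζ h1 h2 h3 U hU hUN
  have hζ4 : (4 : ℝ) ≤ ζ := (le_max_left _ _).trans h3
  have hζc : 2 / c ≤ ζ := (le_max_right _ _).trans h3
  have hζc' : 2 ≤ ζ * c := by rwa [div_le_iff₀ hc0] at hζc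
  have hζ1 : (1 : ℝ) ≤ ζ := by linarith
  have hζ0 : (0 : ℝ) < ζ := by linarith
  have hUr : (0 : ℝ) < U := by exact_mod_cast hU
  have hVζ := V_pos ζ
  have hNu : ∀ u : ℝ, N + 1 ≤ u → (U : ℝ) * ζ ≤ (ζ : ℝ) ^ u := by
    intro u hu
    calc (U : ℝ) * ζ ≤ (ζ : ℝ) ^ N * ζ := by gcongr
      _ = (ζ : ℝ) ^ (N + 1) := by rw [Real.rpow_add hζ0, Real.rpow_one]
      _ ≤ (ζ : ℝ) ^ u := Real.rpow_le_rpow_of_exponent_le hζ1 hu
  constructor
  · set M := ⌊(ζ : ℝ) ^ u1⌋₊ with hM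
    set T := T1 (fun _ => 0) ζ 0 M with hT
    have hx : 0 < (ζ : ℝ) ^ u1 := by positivity
    rw [lt_div_iff₀ (by positivity)] at h1
    set k := M / U + 1 with hk
    have hMk : M ≤ k * U := by
      have := Nat.lt_div_mul_add hU (a := M)
      rw [hk, Nat.add_mul, one_mul]; exact this.le
    have hkM : k * U ≤ M + U := by
      rw [hk, Nat.add_mul, one_mul]
      exact Nat.add_le_add_right (Nat.div_mul_le_self M U) U
    have h4 : T ≤ k * smax U ζ := (T1_mono_U _ ζ 0 hMk).trans (T1_mul_le _ ζ 0 U k)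
    have h5 : (T : ℝ) ≤ k * smax U ζ := by exact_mod_cast h4
    have h6 : (k : ℝ) * U ≤ (ζ : ℝ) ^ u1 * (1 + c / 2) := by
      have h7 : (k : ℝ) * U ≤ M + U := by exact_mod_cast hkM
      have h8 : (M : ℝ) ≤ (ζ : ℝ) ^ u1 := Nat.floor_le hx.le
      have h9 := hNu u1 hu1N
      have h10 : (U : ℝ) ≤ (ζ : ℝ) ^ u1 * (c / 2) := by
        have : 2 * (U : ℝ) ≤ (ζ : ℝ) ^ u1 * c := by
          calc 2 * (U : ℝ) ≤ (ζ * c) * U := by gcongr
            _ = (U * ζ) * c := by ring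
            _ ≤ (ζ : ℝ) ^ u1 * c := by gcongr
        linarith
      linarith
    have hk0 : (0 : ℝ) < k := by
      have : 0 < k := by rw [hk]; exact Nat.succ_pos _
      exact_mod_cast this
    unfold rp
    rw [le_div_iff₀ (by positivity)]
    have h11 : (1 + c) * (U * V ζ) * k ≤ smax U ζ * k := by
      calc (1 + c) * (U * V ζ) * k = (1 + c) * V ζ * (k * U) := by ring
        _ ≤ (1 + c) * V ζ * ((ζ : ℝ) ^ u1 * (1 + c / 2)) := by gcongr
        _ = ((1 + c) * (1 + c / 2)) * ((ζ : ℝ) ^ u1 * V ζ) := by ring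
        _ ≤ (1 + 3 * c) * ((ζ : ℝ) ^ u1 * V ζ) := by
            gcongr
            nlinarith
        _ ≤ T := h1.le
        _ ≤ smax U ζ * k := by linarith
    exact le_of_mul_le_mul_right h11 hk0
  · set M := ⌊(ζ : ℝ) ^ u2⌋₊ with hM
    set T := T1 (fun _ => 0) ζ 0 M with hT
    have hx : 0 < (ζ : ℝ) ^ u2 := by positivity
    rw [div_lt_iff₀ (by positivity)] at h2
    set k := M / U with hk
    have hkM : k * U ≤ M := Nat.div_mul_le_self M U
    have hMk : M ≤ k * U + U := by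
      have := Nat.lt_div_mul_add hU (a := M)
      rw [hk]; exact this.le
    have h4 : k * smin U ζ ≤ T := (le_T1_mul _ ζ 0 U k).trans (T1_mono_U _ ζ 0 hkM)
    have h5 : (k : ℝ) * smin U ζ ≤ T := by exact_mod_cast h4
    have h6 : (ζ : ℝ) ^ u2 * (1 - c) ≤ k * U := by
      have h7 : (M : ℝ) ≤ k * U + U := by exact_mod_cast hMk
      have h8 : (ζ : ℝ) ^ u2 - 1 < M := Nat.sub_one_lt_floor _
      have h9 := hNu u2 hu2N
      have h10 : (U : ℝ) ≤ (ζ : ℝ) ^ u2 * (c / 2) := by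
        have : 2 * (U : ℝ) ≤ (ζ : ℝ) ^ u2 * c := by
          calc 2 * (U : ℝ) ≤ (ζ * c) * U := by gcongr
            _ = (U * ζ) * c := by ring
            _ ≤ (ζ : ℝ) ^ u2 * c := by gcongr
        linarith
      have h12 : (1 : ℝ) ≤ U := by exact_mod_cast hU
      linarith
    have hk0 : (0 : ℝ) < k := by
      by_contra h
      have h0 : (k : ℝ) = 0 := le_antisymm (not_lt.1 h) (by positivity)
      rw [h0, zero_mul] at h6
      have : 0 < (ζ : ℝ) ^ u2 * (1 - c) := mul_pos hx (by linarith)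
      linarith
    unfold rm
    rw [div_le_iff₀ (by positivity)]
    have h11 : smin U ζ * k ≤ (1 - c) * (U * V ζ) * k := by
      calc (smin U ζ : ℝ) * k ≤ T := by linarith
        _ ≤ (1 - 3 * c) * ((ζ : ℝ) ^ u2 * V ζ) := h2.le
        _ ≤ ((1 - c) * (1 - c)) * ((ζ : ℝ) ^ u2 * V ζ) := by
            gcongr
            nlinarith
        _ = (1 - c) * V ζ * ((ζ : ℝ) ^ u2 * (1 - c)) := by ring
        _ ≤ (1 - c) * V ζ * (k * U) := by
            have : 0 ≤ 1 - c := by linarith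
            gcongr
        _ = (1 - c) * (U * V ζ) * k := by ring
    exact le_of_mul_le_mul_right h11 hk0

end Pool.Agent.H532.RM
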