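import Mathlib
import Pool.Agent.H532.RM.Scale
import Pool.Agent.H532.RM.CSnum
import Pool.Agent.H532.RM.Facts

/-!
The critical scale `H ≍ (log X) ^ 2`: exact extremes.
-/

namespace Pool.Agent.H532.RM

open Finset MeasureTheory Function ProbabilityTheory Filter
open scoped ENNReal Topology

lemma V_le_one (z : ℕ) : V z ≤ 1 := by
  unfold V
  refine prod_le_one (fun p hp => ?_) (fun p hp => ?_)
  · have : (1 : ℝ) ≤ p := by exact_mod_cast (mem_primesLe.1 hp).2.one_lt.le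
    rw [sub_nonneg, div_le_one (by linarith)]
    exact this
  · have : (0 : ℝ) ≤ 1 / (p : ℝ) := by positivity
    linarith

lemma Wj_tendsto : Tendsto Wj atTop atTop :=
  tendsto_atTop_mono (fun j => Nat.le_self_pow (by norm_num) j) tendsto_id

lemma V_Wj_zero : Tendsto (fun j => V (Wj j)) atTop (𝓝 0) := V_tendsto_zero.comp Wj_tendsto

section
variable {Z : ℕ → ℕ} (hZ : Tendsto (fun j : ℕ => V (Z j) * (j * Real.log 2)) atTop (𝓝 1))
include hZ

lemma rho_small : Tendsto (fun j : ℕ => V (Z j) / V (Wj j)) atTop (𝓝 0) := by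
  obtain ⟨c, _, hc, _, hV⟩ := V_two_sided
  have hjt : Tendsto (fun j : ℕ => (j : ℝ)) atTop atTop := tendsto_natCast_atTop_atTop
  have h3 : Tendsto (fun j : ℕ => Real.log (j : ℝ) / j) atTop (𝓝 0) :=
    Real.isLittleO_log_id_atTop.tendsto_div_nhds_zero.comp hjt
  have h4 := hZ.mul (h3.const_mul (40 / (c * Real.log 2)))
  rw [mul_zero, mul_zero] at h4
  refine squeeze_zero' ?_ ?_ h4
  · exact Eventually.of_forall fun j => div_nonneg (V_pos _).le (V_pos _).le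
  · filter_upwards [eventually_ge_atTop 2] with j hj
    have hj2 : (2 : ℝ) ≤ j := by exact_mod_cast hj
    have h1 := (hV (Wj j) (by
      unfold Wj
      calc 2 ≤ j := hj
        _ ≤ j ^ 40 := Nat.le_self_pow (by norm_num) j)).1
    have h2 : Real.log (Wj j : ℕ) = 40 * Real.log j := by
      unfold Wj; push_cast; rw [Real.log_pow]; norm_num
    rw [h2] at h1
    have hVW := V_pos (Wj j)
    have hVZ := V_pos (Z j)
    have hlj : 0 < Real.log j := Real.log_pos (by linarith)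
    have hlog2 := Real.log_pos (show (1 : ℝ) < 2 by norm_num)
    rw [div_le_iff₀ hVW]
    have e : V (Z j) * (j * Real.log 2) * (40 / (c * Real.log 2) * (Real.log j / j)) * V (Wj j) =
        V (Z j) * ((V (Wj j) * (40 * Real.log j)) / c) := by
      field_simp
    rw [e]
    have h5 : 1 ≤ (V (Wj j) * (40 * Real.log j)) / c := by
      rw [le_div_iff₀ hc, one_mul]; exact h1
    nlinarith

lemma Wj_le_Z : ∀ᶠ j : ℕ in atTop, Wj j ≤ Z j := by
  filter_upwards [(rho_small hZ).eventually (gt_mem_nhds one_pos)] with j hj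
  by_contra hcon
  have h1 := V_anti (not_le.1 hcon).le
  rw [div_lt_one (V_pos _)] at hj
  linarith

lemma one_div_V_le : ∀ᶠ j : ℕ in atTop, 1 / V (Z j) ≤ j := by
  filter_upwards [hZ.eventually (lt_mem_nhds (show (0.9 : ℝ) < 1 by norm_num)),
    eventually_ge_atTop 1] with j hj hj1
  have hj0 : (0 : ℝ) < j := by exact_mod_cast hj1
  have h1 := V_pos (Z j)
  rw [div_le_iff₀ h1]
  have h2 := Real.log_two_lt_d9
  have h3 : 0 < V (Z j) * j := by positivity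
  nlinarith

end

/-- everything we know about a block -/
structure BlkOK (a : ℕ → ℕ) (Z : ℕ) (δ' lam η C3 h ε κρ : ℝ) (j : ℕ) : Prop where
  st : ∀ m < 2 ^ (j + 3), ∀ U ≤ j ^ 3, rate (T1 a Z m U) (V Z / V (Wj j) * T1 a (Wj j) m U) ≤
    (1 + η) * (j * Real.log 2)
  st2 : ∀ k < 5, ∀ U ≤ j ^ 3, ∀ n ≤ U, ∀ b ≤ U, Adm η C3 h (V Z / V (Wj j)) j n b →
      (Qup j k U n (Real.exp ((1 - η / 2) * (j * Real.log 2))) a →
        ∃ m ∈ Blk j k, (1 - h) * b ≤ (T1 a Z m U : ℝ)) ∧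
      (Qdn j k U n (Real.exp ((1 - η / 2) * (j * Real.log 2))) a →
        ∃ m ∈ Blk j k, (T1 a Z m U : ℝ) ≤ (1 + h) * b)
  win : WinOK a δ' lam η j
  v1 : 1 - ε ≤ V Z * (j * Real.log 2)
  v2 : V Z * (j * Real.log 2) ≤ 1 + ε
  rho : V Z / V (Wj j) ≤ κρ
  WZ : Wj j ≤ Z

theorem blkOK (δ' lam η C3 h ε κρ : ℝ) (hδ : 0 < δ') (hδ1 : δ' ≤ 1) (hlam : 0 < lam)
    (hη : 0 < η) (hη1 : η ≤ 1) (hC3 : 1 ≤ C3) (hh : 0 < h) (hh2 : h ≤ 1 / 2) (hε : 0 < ε)
    (hκρ : 0 < κρ) {Ω : Type} [MeasurableSpace Ω] (μ : Measure Ω) [IsProbabilityMeasure μ]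
    (A : ℕ → Ω → ℕ) (hA : RandomClasses μ A) (Z : ℕ → ℕ)
    (hZ : Tendsto (fun j : ℕ => V (Z j) * (j * Real.log 2)) atTop (𝓝 1)) :
    ∀ᵐ ω ∂μ, ∀ᶠ j : ℕ in atTop, BlkOK (fun p => A p ω) (Z j) δ' lam η C3 h ε κρ j := by
  have hρ := rho_small hZ
  filter_upwards [star η hη μ A hA Z hZ (Wj_le_Z hZ), star2 η C3 h hη hC3 hh hh2 μ A hA Z
    (one_div_V_le hZ)
    ((hρ.eventually (gt_mem_nhds (show (0 : ℝ) < h / 48 by positivity))).mono fun j hj => hj.le)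
    (Wj_le_Z hZ), winOK δ' lam η hδ hδ1 hlam hη hη1 μ A hA] with ω h1 h2 h3
  filter_upwards [h1, h2, h3, Wj_le_Z hZ, hρ.eventually (gt_mem_nhds hκρ),
    hZ.eventually (lt_mem_nhds (show 1 - ε < 1 by linarith)),
    hZ.eventually (gt_mem_nhds (show 1 < 1 + ε by linarith))] with j g1 g2 g3 g4 g5 g6 g7
  exact ⟨g1, g2, g3, g6.le, g7.le, g5.le, g4⟩

/-- the normalised extremal numbers -/
structure NumOK (C ε lam : ℝ) (j : ℕ) : Prop where
  r1 : ∀ U ζ : ℕ, lam * (j : ℝ) ^ 2 ≤ U → U ≤ j ^ 3 → j / 4 ≤ ζ → ζ ≤ j →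
    1 ≤ rp U ζ ∧ rp U ζ ≤ C ∧ rm U ζ ≤ C ∧ 0 ≤ rm U ζ
  r2 : ∀ U ζ : ℕ, lam * (j : ℝ) ^ 2 ≤ U → U ≤ j ^ 3 → j / 4 ≤ ζ → ζ ≤ j →
    rp (U + 1) ζ ≤ rp U ζ + ε ∧ rm U ζ - ε ≤ rm (U + 1) ζ
  w : (C + 1) * V (Wj j) ≤ 1
  big : 1 ≤ lam * j

theorem numOK : ∃ C : ℝ, 1 ≤ C ∧ ∀ ε lam : ℝ, 0 < ε → 0 < lam → ∀ᶠ j : ℕ in atTop,
    NumOK C ε lam j := by
  obtain ⟨C, hC, ζ0, hrp⟩ := rp_bdd
  obtain ⟨c, _, hc, _, hV⟩ := V_two_sided
  obtain ⟨cm, hcm, _, hmaier⟩ := maier 4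
  obtain ⟨ζ1, hζ1⟩ := eventually_atTop.1 hmaier
  refine ⟨max C 1, le_max_right _ _, fun ε lam hε hlam => ?_⟩
  have hjt : Tendsto (fun j : ℕ => (j : ℝ)) atTop atTop := tendsto_natCast_atTop_atTop
  have hW : ∀ᶠ j : ℕ in atTop, (max C 1 + 1) * V (Wj j) ≤ 1 := by
    have hCp : 0 < max C 1 + 1 := by positivity
    filter_upwards [V_Wj_zero.eventually (gt_mem_nhds (show 0 < 1 / (max C 1 + 1) by
      positivity))] with j hj
    rw [lt_div_iff₀ hCp] at hj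
    linarith
  filter_upwards [hW, hjt.eventually_ge_atTop (1 / lam), eventually_ge_atTop (4 * ζ0 + 4 * ζ1 + 8192),
    hjt.eventually_ge_atTop ((1 / c + C) / (lam * ε) + 1)] with j hw h1 h2 h3
  have hj64 : (8192 : ℝ) ≤ j := by exact_mod_cast (by omega : 8192 ≤ j)
  have hlj : 1 ≤ lam * j := by
    rw [div_le_iff₀ hlam] at h1; linarith
  have hlj2 : (j : ℝ) ≤ lam * (j : ℝ) ^ 2 := by nlinarith
  have main : ∀ U ζ : ℕ, lam * (j : ℝ) ^ 2 ≤ U → U ≤ j ^ 3 + 1 → j / 4 ≤ ζ → ζ ≤ j →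
    1 ≤ rp U ζ ∧ rp U ζ ≤ C ∧ rm U ζ ≤ C ∧ 0 ≤ rm U ζ := by
    intro U ζ hU1 hU2 hz1 hz2
    have hjU : (j : ℝ) ≤ U := hlj2.trans hU1
    have hjU' : j ≤ U := by exact_mod_cast hjU
    have hUpos : 0 < U := by omega
    have g1 := hrp ζ (by omega) U hUpos (by
      calc ζ ≤ j := hz2
        _ ≤ U := hjU'
        _ ≤ U ^ 2 := Nat.le_self_pow (by norm_num) U)
    have g2 := (hζ1 ζ (by omega) U (by omega) (by
      have hζj : (j : ℝ) / 8 ≤ ζ := by
        have : j ≤ 8 * ζ := by omega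
        have h4 : (j : ℝ) ≤ 8 * ζ := by exact_mod_cast this
        linarith
      have hU2r : (U : ℝ) ≤ (j : ℝ) ^ 3 + 1 := by exact_mod_cast hU2
      have hj1 : (1 : ℝ) ≤ (j : ℝ) ^ 3 := one_le_pow₀ (by linarith)
      have e : ((ζ : ℝ)) ^ (4 : ℝ) = (ζ : ℝ) ^ 4 := by
        rw [← Real.rpow_natCast]; norm_num
      rw [e]
      have h5 : ((j : ℝ) / 8) ^ 4 ≤ (ζ : ℝ) ^ 4 := by gcongr
      refine le_trans ?_ h5
      have h6 : ((j : ℝ) / 8) ^ 4 = (j : ℝ) ^ 3 * (j / 4096) := by ring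
      rw [h6]
      have h7 : (j : ℝ) ^ 3 * 2 ≤ (j : ℝ) ^ 3 * (j / 4096) := by
        gcongr; linarith
      linarith)).1
    exact ⟨by linarith, g1, (rm_le_rp U ζ).trans g1, rm_nonneg U ζ⟩
  refine ⟨fun U ζ hU1 hU2 hz1 hz2 => ?_, fun U ζ hU1 hU2 hz1 hz2 => ?_, hw, hlj⟩
  · obtain ⟨g1, g2, g3, g4⟩ := main U ζ hU1 (by omega) hz1 hz2
    exact ⟨g1, g2.trans (le_max_left _ _), g3.trans (le_max_left _ _), g4⟩
  · obtain ⟨g1, g2, g3, g4⟩ := main U ζ hU1 (by omega) hz1 hz2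
    have hjU : (j : ℝ) ≤ U := hlj2.trans hU1
    have hU0 : (0 : ℝ) < U := by linarith
    have hUpos : 0 < U := by exact_mod_cast hU0
    have k1 := rp_succ U ζ hUpos
    have k2 := rm_succ U ζ hUpos
    have hζ2 : 2 ≤ ζ := by omega
    have h4 := (hV ζ hζ2).1
    have h5 : Real.log ζ ≤ j := by
      have h6 : Real.log ζ ≤ ζ := (Real.log_le_sub_one_of_pos (by
        exact_mod_cast (by omega : 0 < ζ))).trans (by linarith)
      have h7 : (ζ : ℝ) ≤ j := by exact_mod_cast hz2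
      linarith
    have hVζ := V_pos ζ
    have hj0 : (0 : ℝ) < j := by linarith
    have h6 : c / j ≤ V ζ := by
      rw [div_le_iff₀ hj0]
      calc c ≤ V ζ * Real.log ζ := h4
        _ ≤ V ζ * j := by gcongr
    have h7 : (1 / c + C) / (lam * ε) ≤ j := by linarith
    rw [div_le_iff₀ (by positivity)] at h7
    have hc1 : 0 < 1 / c := by positivity
    have k3 : 1 / (U * V ζ) ≤ ε := by
      calc 1 / (U * V ζ) ≤ 1 / ((lam * (j : ℝ) ^ 2) * (c / j)) := by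
            have : 0 < c / (j : ℝ) := by positivity
            gcongr
        _ = (1 / c) / (lam * j) := by field_simp
        _ ≤ ε := by
            rw [div_le_iff₀ (by positivity)]
            nlinarith
    have k4 : rm U ζ / U ≤ ε := by
      calc rm U ζ / U ≤ C / (lam * (j : ℝ) ^ 2) := by gcongr
        _ ≤ ε := by
            rw [div_le_iff₀ (by positivity)]
            have h8 : (lam * ε) * (j : ℝ) ≤ (lam * ε) * (j : ℝ) ^ 2 := by
              have : (j : ℝ) ≤ (j : ℝ) ^ 2 := by nlinarith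
              gcongr
            nlinarith
    constructor <;> linarith

end Pool.Agent.H532.RM
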