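import Mathlib
import Pool.Agent.H532.RM.CSA

/-!
The critical scale: deterministic deduction.
-/

namespace Pool.Agent.H532.RM

open Finset MeasureTheory Function ProbabilityTheory Filter
open scoped ENNReal Topology

/-- the relations between the parameters -/
structure Par (δ C C4 δ1 ε κ C6 h κρ : ℝ) : Prop where
  δ0 : 0 < δ
  δ1' : δ ≤ 1
  C1 : 1 ≤ C
  C4e : C4 = 2 * C + 2 / δ
  d1 : δ1 = δ / (64 * C4)
  e1 : ε = δ1 / (16 * C)
  k1 : κ = δ1 ^ 2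
  C6e : C6 = C4 + 3
  h0 : 0 < h
  h1 : h ≤ δ1
  h2 : h * (C6 ^ 2 * Real.log (C6 / κ)) ≤ δ1 / 4 * Real.log 2
  r0 : 0 < κρ
  r1 : 48 * C6 * κρ ≤ h * κ
  r2 : 8 * C6 ^ 4 * κρ ≤ δ1 * κ ^ 2 * Real.log 2

lemma exists_par (δ C : ℝ) (h0 : 0 < δ) (h1 : δ ≤ 1) (hC : 1 ≤ C) :
    ∃ C4 δ1 ε κ C6 h κρ : ℝ, Par δ C C4 δ1 ε κ C6 h κρ := by
  set C4 : ℝ := 2 * C + 2 / δ with hC4
  have hC40 : 0 < C4 := by positivity
  set δ1 : ℝ := δ / (64 * C4) with hδ1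
  have hδ10 : 0 < δ1 := by positivity
  set κ : ℝ := δ1 ^ 2 with hκ
  have hκ0 : 0 < κ := by positivity
  set C6 : ℝ := C4 + 3 with hC6
  have hC60 : 0 < C6 := by positivity
  have hlog2 := Real.log_pos (show (1 : ℝ) < 2 by norm_num)
  set Q : ℝ := C6 ^ 2 * (|Real.log (C6 / κ)| + 1) with hQ
  have hQ0 : 0 < Q := by positivity
  set h : ℝ := min δ1 (δ1 / 4 * Real.log 2 / Q) with hh
  have hh0 : 0 < h := lt_min hδ10 (by positivity)
  set κρ : ℝ := min (h * κ / (48 * C6)) (δ1 * κ ^ 2 * Real.log 2 / (8 * C6 ^ 4)) with hκρ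
  refine ⟨C4, δ1, δ1 / (16 * C), κ, C6, h, κρ, ⟨h0, h1, hC, rfl, rfl, rfl, rfl, rfl, hh0,
    min_le_left _ _, ?_, lt_min (by positivity) (by positivity), ?_, ?_⟩⟩
  · calc h * (C6 ^ 2 * Real.log (C6 / κ)) ≤ h * Q := by
          rw [hQ]
          have := le_abs_self (Real.log (C6 / κ))
          gcongr
          linarith
      _ ≤ (δ1 / 4 * Real.log 2 / Q) * Q := by
          gcongr; exact min_le_right _ _
      _ = δ1 / 4 * Real.log 2 := by field_simp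
  · calc 48 * C6 * κρ ≤ 48 * C6 * (h * κ / (48 * C6)) := by
          gcongr; exact min_le_left _ _
      _ = h * κ := by field_simp
  · calc 8 * C6 ^ 4 * κρ ≤ 8 * C6 ^ 4 * (δ1 * κ ^ 2 * Real.log 2 / (8 * C6 ^ 4)) := by
          gcongr; exact min_le_right _ _
      _ = δ1 * κ ^ 2 * Real.log 2 := by field_simp

/-- numerical consequences -/
lemma Par.num {δ C C4 δ1 ε κ C6 h κρ : ℝ} (P : Par δ C C4 δ1 ε κ C6 h κρ) :
    4 ≤ C4 ∧ 2 * C + 2 ≤ C4 ∧ 2 / δ ≤ C4 ∧ 0 < δ1 ∧ δ1 ≤ 1 / 256 ∧ δ1 * C4 = δ / 64 ∧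
    0 < ε ∧ ε ≤ δ1 / 16 ∧ ε * C = δ1 / 16 ∧ 0 < κ ∧ κ ≤ δ1 / 256 ∧ κ ≤ 1 ∧ 1 ≤ C6 ∧
    h ≤ 1 / 2 ∧ 1 ≤ C6 ^ 2 ∧ κ ≤ δ / 2 := by
  obtain ⟨h0, h1, hC, e4, ed, ee, ek, e6, hh0, hh1, _, _, _, _⟩ := P
  have a1 : 2 ≤ 2 / δ := by rw [le_div_iff₀ h0]; linarith
  have a2 : 4 ≤ C4 := by rw [e4]; linarith
  have a3 : 0 < C4 := by linarith
  have a4 : 0 < δ1 := by rw [ed]; positivity
  have a5 : δ1 * C4 = δ / 64 := by rw [ed]; field_simp
  have a6 : δ1 ≤ 1 / 256 := by nlinarith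
  have a7 : ε * C = δ1 / 16 := by rw [ee]; field_simp
  have a8 : 0 < ε := by rw [ee]; positivity
  have a9 : ε ≤ δ1 / 16 := by nlinarith
  have a10 : 0 < κ := by rw [ek]; positivity
  have a11 : κ ≤ δ1 / 256 := by rw [ek]; nlinarith
  have a12 : (1 : ℝ) ≤ C6 := by rw [e6]; linarith
  have a13 : δ1 ≤ δ := by nlinarith
  refine ⟨a2, by rw [e4]; linarith, by rw [e4]; linarith, a4, a6, a5, a8, a9, a7, a10, a11,
    by linarith, a12, by linarith, by nlinarith, by linarith⟩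

section
variable {δ C C4 δ1 ε κ C6 h κρ : ℝ} (P : Par δ C C4 δ1 ε κ C6 h κρ)
  {X H : ℝ} {j : ℕ} (hs : SC ε X H j) (z : ℕ → ℕ) (hz : Monotone z) (a : ℕ → ℕ)
  (hHX : H ≤ X) (hH1 : δ * Real.log X ^ 2 ≤ H) (hH2 : H ≤ 1 / δ * Real.log X ^ 2)
  (hN : NumOK C ε (δ / 4) j) (hj : 2 / (δ * δ1) + 1 / κ ^ 4 ≤ j)
include P hs hH1 hH2 hj

/-- common facts -/
lemma common : 0 < Real.log X ∧ 0 < H ∧ δ / 4 * (j : ℝ) ^ 2 ≤ ⌊H⌋₊ ∧ ⌊H⌋₊ + 1 ≤ j ^ 3 ∧
    0 < Real.log X / H ∧ Real.log X / H ≤ δ1 ∧ κ * j ≤ 1 / (Real.log X / H) ∧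
    1 / (Real.log X / H) ≤ C6 * j ∧ 11 ≤ (j : ℝ) * Real.log 2 ∧
    0 < H / Real.log X ^ 2 ∧ δ ≤ H / Real.log X ^ 2 ∧ 1 / κ ^ 4 ≤ j ∧
    C4 ≤ (1 - ε) * Real.log X := by
  obtain ⟨a1, a2, a3, a4, a5, a6, a7, a8, a9, a10, a11, a12, a13, a14, a15, a16⟩ := P.num
  have hδ0 := P.δ0
  have hδ1 := P.δ1'
  have hl2a := Real.log_two_gt_d9
  have hl2b := Real.log_two_lt_d9
  have hj16 : (16 : ℝ) ≤ j := by exact_mod_cast hs.j16
  have b1 := hs.l1
  have b2 := hs.l2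
  have hLj : 0.69 * (j : ℝ) ≤ Real.log X := by nlinarith
  have hLj2 : Real.log X ≤ 0.7 * j := by nlinarith
  have hL0 : 0 < Real.log X := by linarith
  have hH0 : 0 < H := by linarith [hs.H0]
  have hκ4 : 0 < 1 / κ ^ 4 := by positivity
  have hdd : 0 < 2 / (δ * δ1) := by positivity
  have hj1 : 2 / (δ * δ1) ≤ j := by linarith
  have hj1' : 2 ≤ (δ * δ1) * j := by
    rw [div_le_iff₀ (by positivity)] at hj1; linarith
  have hθ1 : Real.log X / H ≤ 1 / (δ * Real.log X) := by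
    rw [div_le_div_iff₀ hH0 (by positivity)]
    nlinarith
  have hδLX : 1 ≤ δ1 * (δ * Real.log X) := by
    have : (δ * δ1) * (0.69 * j) ≤ (δ * δ1) * Real.log X := by gcongr
    linarith
  have hδj : 2 / δ1 ≤ δ * j := by
    rw [div_le_iff₀ a4]; linarith
  have h512 : 512 ≤ 2 / δ1 := by rw [le_div_iff₀ a4]; linarith
  have hU1 := hs.u1
  have hU3 := hs.u3
  refine ⟨hL0, hH0, ?_, ?_, by positivity, ?_, ?_, ?_, by nlinarith, by positivity, ?_,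
    by linarith, ?_⟩
  · calc δ / 4 * (j : ℝ) ^ 2 ≤ (1 - ε) * (δ * (0.69 * (j : ℝ)) ^ 2) := by
          have : 0 ≤ δ * (j : ℝ) ^ 2 := by positivity
          nlinarith
      _ ≤ (1 - ε) * (δ * Real.log X ^ 2) := by
          have : 0 ≤ 1 - ε := by linarith
          gcongr
      _ ≤ (1 - ε) * H := by
          have : 0 ≤ 1 - ε := by linarith
          gcongr
      _ ≤ ⌊H⌋₊ := hU1
  · have h3 : ((⌊H⌋₊ + 1 : ℕ) : ℝ) ≤ (j : ℝ) ^ 3 := by
      push_cast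
      calc (⌊H⌋₊ : ℝ) + 1 ≤ (1 + ε) * H := hU3
        _ ≤ (1 + ε) * (1 / δ * (0.7 * (j : ℝ)) ^ 2) := by
            have : H ≤ 1 / δ * (0.7 * (j : ℝ)) ^ 2 := hH2.trans (by gcongr)
            gcongr
        _ ≤ 1 / δ * (j : ℝ) ^ 2 := by
            have : 0 ≤ 1 / δ * (j : ℝ) ^ 2 := by positivity
            nlinarith
        _ ≤ j * (j : ℝ) ^ 2 := by
            have : 1 / δ ≤ j := by
              rw [div_le_iff₀ hδ0]
              linarith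
            gcongr
        _ = (j : ℝ) ^ 3 := by ring
    exact_mod_cast h3
  · refine hθ1.trans ?_
    rw [div_le_iff₀ (by positivity)]
    exact hδLX
  · rw [one_div_div, le_div_iff₀ hL0]
    calc κ * j * Real.log X ≤ (δ / 2 * j) * Real.log X := by gcongr
      _ ≤ (δ * Real.log X) * Real.log X := by
          have : δ / 2 * (j : ℝ) ≤ δ * Real.log X := by nlinarith
          gcongr
      _ = δ * Real.log X ^ 2 := by ring
      _ ≤ H := hH1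
  · rw [one_div_div, div_le_iff₀ hL0]
    calc H ≤ 1 / δ * Real.log X ^ 2 := hH2
      _ = (1 / δ * Real.log X) * Real.log X := by ring
      _ ≤ (C6 * j) * Real.log X := by
          have h3 : 1 / δ ≤ C6 := by
            have : 1 / δ ≤ 2 / δ := by gcongr; norm_num
            rw [P.C6e]; linarith
          have h4 : 1 / δ * Real.log X ≤ C6 * j := by
            calc 1 / δ * Real.log X ≤ C6 * (0.7 * j) := by gcongr
              _ ≤ C6 * j := by nlinarith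
          gcongr
  · rw [le_div_iff₀ (by positivity)]; exact hH1
  · -- C4 ≤ (1 - ε) log X
    have h3 : 2 * C4 ≤ δ * (δ / 64) * j := by
      calc 2 * C4 ≤ (δ * δ1 * j) * C4 := by gcongr
        _ = δ * (δ1 * C4) * j := by ring
        _ = δ * (δ / 64) * j := by rw [a6]
    have h4 : δ * (δ / 64) * (j : ℝ) ≤ 1 * (1 / 64) * j := by gcongr
    nlinarith

end

end Pool.Agent.H532.RM
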