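import Mathlib
import Pool.Agent.H532.RM.CSB

/-!
The critical scale: deterministic deduction, the four estimates.
-/

namespace Pool.Agent.H532.RM

open Finset MeasureTheory Function ProbabilityTheory Filter
open scoped ENNReal Topology

lemma cube_le {ε : ℝ} (h0 : 0 < ε) (h1 : ε ≤ 1 / 16) :
    (1 + ε) * (1 + ε) * (1 + ε) ≤ 1 + 4 * ε := by
  have h2 : ε * ε ≤ 1 / 16 * ε := by gcongr
  have h3 : ε * ε * ε ≤ 1 / 16 * ε * (1 / 16) := by gcongr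
  calc (1 + ε) * (1 + ε) * (1 + ε) = 1 + 3 * ε + 3 * (ε * ε) + ε * ε * ε := by ring
    _ ≤ 1 + 4 * ε := by linarith

section
variable {δ C C4 δ1 ε κ C6 h κρ : ℝ} (P : Par δ C C4 δ1 ε κ C6 h κρ)
  {X H : ℝ} {j : ℕ} (hs : SC ε X H j)
  (hH1 : δ * Real.log X ^ 2 ≤ H) (hH2 : H ≤ 1 / δ * Real.log X ^ 2)
  (hN : NumOK C ε (δ / 4) j) (hj : 2 / (δ * δ1) + 1 / κ ^ 4 ≤ j)
include P hs hH1 hH2 hN hj

/-- all windows: upper bound -/
lemma detA (z : ℕ → ℕ) (hz : Monotone z) (a : ℕ → ℕ) (hHX : H ≤ X)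
    (hB : BlkOK a (z (2 ^ j)) δ1 (δ / 4) δ1 (C6 ^ 2) h ε κρ j)
    (x : ℝ) (hx1 : X ≤ x) (hx2 : x ≤ 2 * X) :
    FF (RB z a) x H ≤ upE (H / Real.log X ^ 2) (rp ⌊H⌋₊ ⌊Real.log X⌋₊) + δ := by
  obtain ⟨a1, a2, a3, a4, a5, a6, a7, a8, a9, a10, a11, a12, a13, a14, a15, a16⟩ := P.num
  obtain ⟨c1, c2, c3, c4, c5, c6, c7, c8, c9, c10, c11, c12, c13⟩ := common P hs hH1 hH2 hj
  obtain ⟨w1, w2, _, w4⟩ := ff_bounds hs z hz a hHX a7 x hx1 hx2
  set U' := ⌊x + H⌋₊ - ⌊x⌋₊ with hU'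
  set Z := z (2 ^ j) with hZ
  set ζ := ⌊Real.log X⌋₊ with hζ
  set U0 := ⌊H⌋₊ with hU0
  have hz1 := hs.z1
  have hz2 := hs.z2
  have hC1 := P.C1
  have hU'1 : δ / 4 * (j : ℝ) ^ 2 ≤ U' := by
    have : (U0 : ℝ) ≤ U' := by exact_mod_cast (by omega : U0 ≤ U')
    linarith
  have hU'2 : U' ≤ j ^ 3 := by omega
  have hU'3 : (U' : ℝ) ≤ (1 + ε) * H := by
    have : (U' : ℝ) ≤ U0 + 1 := by exact_mod_cast (by omega : U' ≤ U0 + 1)
    linarith [hs.u3]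
  have hr := hN.r1 U0 ζ c3 (by omega) hz1 hz2
  have hr' := hN.r1 U' ζ hU'1 hU'2 hz1 hz2
  have hrr : rp U' ζ ≤ rp U0 ζ + ε := by
    rcases w2 with h' | h'
    · rw [h']; linarith
    · rw [h']; exact (hN.r2 U0 ζ c3 (by omega) hz1 hz2).1
  set r := rp U0 ζ with hrdef
  have hVZ := V_pos Z
  have hVW := V_pos (Wj j)
  set L : ℝ := j * Real.log 2 with hL
  have hL0 : 0 < L := by linarith
  have hVZL := hB.v2
  -- `U' V_Z θ ≤ (1 + ε)^3`
  have hUV : (U' : ℝ) * V Z * (Real.log X / H) ≤ 1 + 4 * ε := by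
    have h1 : Real.log X ≤ (1 + ε) * L := hs.l2
    calc (U' : ℝ) * V Z * (Real.log X / H) ≤ ((1 + ε) * H) * V Z * (((1 + ε) * L) / H) := by
          gcongr
      _ = (1 + ε) * (1 + ε) * (V Z * L) := by field_simp
      _ ≤ (1 + ε) * (1 + ε) * (1 + ε) := by gcongr
      _ ≤ 1 + 4 * ε := cube_le a7 (by linarith)
  have hUV0 : 0 ≤ (U' : ℝ) * V Z * (Real.log X / H) := by positivity
  have hwin := hB.win.up U' ζ hU'2 hU'1 hz1 hz2 ⌊x⌋₊ w1
  set t1 : ℝ := (T1 a (Wj j) ⌊x⌋₊ U' : ℝ) with ht1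
  have hy : V Z / V (Wj j) * t1 * (Real.log X / H) ≤ ((1 + 2 * δ1) * (1 + 4 * ε)) * r := by
    calc V Z / V (Wj j) * t1 * (Real.log X / H) ≤
        V Z / V (Wj j) * ((rp U' ζ + δ1) * (U' * V (Wj j))) * (Real.log X / H) := by gcongr
      _ = (rp U' ζ + δ1) * ((U' : ℝ) * V Z * (Real.log X / H)) := by field_simp
      _ ≤ (rp U' ζ + δ1) * (1 + 4 * ε) := by
          have : 0 ≤ rp U' ζ + δ1 := by linarith
          gcongr
      _ ≤ ((1 + 2 * δ1) * r) * (1 + 4 * ε) := by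
          gcongr
          nlinarith
      _ = ((1 + 2 * δ1) * (1 + 4 * ε)) * r := by ring
  have hstar := hB.st ⌊x⌋₊ w1 U' hU'2
  have hc1 : (0 : ℝ) ≤ (T1 a Z ⌊x⌋₊ U' : ℝ) := Nat.cast_nonneg _
  have hnum := numA (c1 := (T1 a Z ⌊x⌋₊ U' : ℝ)) (t1 := t1) (ρ := V Z / V (Wj j))
    (θ := Real.log X / H) (LX := Real.log X) (L := L) (H := H)
    (lam := H / Real.log X ^ 2) (r := r) (s' := (1 + 2 * δ1) * (1 + 4 * ε)) (η := δ1)
    hc1 (Nat.cast_nonneg _) (by positivity) c1 c2 hs.l1 rfl rfl (by linarith)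
    (by nlinarith) (by linarith) hstar (fun h0 => by
      have h1 : T1 a Z ⌊x⌋₊ U' ≤ T1 a (Wj j) ⌊x⌋₊ U' := T1_anti a hB.WZ _ _
      have h2 : (T1 a Z ⌊x⌋₊ U' : ℝ) ≤ t1 := by rw [ht1]; exact_mod_cast h1
      linarith) hy
  set E := upE (H / Real.log X ^ 2) r with hE
  have hE0 : 0 < E := lt_of_lt_of_le (by linarith : 0 < r) (r_le_upE c10 (by linarith))
  have hE1 : E ≤ C4 := by
    have h1 := upE_le (lam := H / Real.log X ^ 2) (r := r) c10 (by linarith)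
    have h2 : 2 / (H / Real.log X ^ 2) ≤ 2 / δ := by
      have := P.δ0
      gcongr
    rw [P.C4e]; linarith
  have hfac : (1 + ε) * ((1 + δ1) * ((1 + 2 * δ1) * (1 + 4 * ε))) ≤ 1 + 8 * δ1 := by
    have h1 : (1 + ε) * (1 + 4 * ε) ≤ 1 + 6 * ε := by nlinarith
    have h2 : (1 + δ1) * (1 + 2 * δ1) ≤ 1 + 4 * δ1 := by nlinarith
    calc (1 + ε) * ((1 + δ1) * ((1 + 2 * δ1) * (1 + 4 * ε))) =
        ((1 + ε) * (1 + 4 * ε)) * ((1 + δ1) * (1 + 2 * δ1)) := by ring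
      _ ≤ (1 + 6 * ε) * (1 + 4 * δ1) := by gcongr
      _ ≤ 1 + 8 * δ1 := by nlinarith
  calc FF (RB z a) x H ≤ (1 + ε) * ((T1 a Z ⌊x⌋₊ U' : ℝ) * (Real.log X / H)) := w4
    _ ≤ (1 + ε) * ((1 + δ1) * ((1 + 2 * δ1) * (1 + 4 * ε)) * E) := by gcongr
    _ = ((1 + ε) * ((1 + δ1) * ((1 + 2 * δ1) * (1 + 4 * ε)))) * E := by ring
    _ ≤ (1 + 8 * δ1) * E := by gcongr
    _ = E + 8 * (δ1 * E) := by ring
    _ ≤ E + 8 * (δ1 * C4) := by gcongr
    _ ≤ E + δ := by rw [a6]; linarith [P.δ0]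

/-- all windows: lower bound -/
lemma detB (z : ℕ → ℕ) (hz : Monotone z) (a : ℕ → ℕ) (hHX : H ≤ X)
    (hB : BlkOK a (z (2 ^ (j + 3))) δ1 (δ / 4) δ1 (C6 ^ 2) h ε κρ j)
    (x : ℝ) (hx1 : X ≤ x) (hx2 : x ≤ 2 * X) :
    loE (H / Real.log X ^ 2) (rm ⌊H⌋₊ ⌊Real.log X⌋₊) - δ ≤ FF (RB z a) x H := by
  obtain ⟨a1, a2, a3, a4, a5, a6, a7, a8, a9, a10, a11, a12, a13, a14, a15, a16⟩ := P.num
  obtain ⟨c1, c2, c3, c4, c5, c6, c7, c8, c9, c10, c11, c12, c13⟩ := common P hs hH1 hH2 hj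
  obtain ⟨w1, w2, w3, _⟩ := ff_bounds hs z hz a hHX a7 x hx1 hx2
  set U' := ⌊x + H⌋₊ - ⌊x⌋₊ with hU'
  set Z := z (2 ^ (j + 3)) with hZ
  set ζ := ⌊Real.log X⌋₊ with hζ
  set U0 := ⌊H⌋₊ with hU0
  have hz1 := hs.z1
  have hz2 := hs.z2
  have hC1 := P.C1
  have hU'1 : δ / 4 * (j : ℝ) ^ 2 ≤ U' := by
    have : (U0 : ℝ) ≤ U' := by exact_mod_cast (by omega : U0 ≤ U')
    linarith
  have hU'2 : U' ≤ j ^ 3 := by omega
  have hU'3 : (U' : ℝ) ≤ (1 + ε) * H := by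
    have : (U' : ℝ) ≤ U0 + 1 := by exact_mod_cast (by omega : U' ≤ U0 + 1)
    linarith [hs.u3]
  have hU'4 : (1 - ε) * H ≤ U' := by
    have : (U0 : ℝ) ≤ U' := by exact_mod_cast (by omega : U0 ≤ U')
    linarith [hs.u1]
  have hr := hN.r1 U0 ζ c3 (by omega) hz1 hz2
  have hr' := hN.r1 U' ζ hU'1 hU'2 hz1 hz2
  have hrr : rm U0 ζ - ε ≤ rm U' ζ := by
    rcases w2 with h' | h'
    · rw [h']; linarith
    · rw [h']; exact (hN.r2 U0 ζ c3 (by omega) hz1 hz2).2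
  set r := rm U0 ζ with hrdef
  have hVZ := V_pos Z
  have hVW := V_pos (Wj j)
  set L : ℝ := j * Real.log 2 with hL
  have hL0 : 0 < L := by linarith
  have hVZL := hB.v2
  have hVZL1 := hB.v1
  have hε1 : ε ≤ 1 / 16 := by linarith
  have hUV : (U' : ℝ) * V Z * (Real.log X / H) ≤ 1 + 4 * ε := by
    have h1 : Real.log X ≤ (1 + ε) * L := hs.l2
    calc (U' : ℝ) * V Z * (Real.log X / H) ≤ ((1 + ε) * H) * V Z * (((1 + ε) * L) / H) := by
          gcongr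
      _ = (1 + ε) * (1 + ε) * (V Z * L) := by field_simp
      _ ≤ (1 + ε) * (1 + ε) * (1 + ε) := by gcongr
      _ ≤ 1 + 4 * ε := cube_le a7 (by linarith)
  have hUV2 : 1 - 2 * ε ≤ (U' : ℝ) * V Z * (Real.log X / H) := by
    have h1 : L ≤ Real.log X := hs.l1
    calc 1 - 2 * ε ≤ (1 - ε) * (1 - ε) := by nlinarith
      _ ≤ (1 - ε) * (V Z * L) := by
          have : 0 ≤ 1 - ε := by linarith
          gcongr
      _ = ((1 - ε) * H) * V Z * (L / H) := by field_simp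
      _ ≤ (U' : ℝ) * V Z * (Real.log X / H) := by gcongr
  have hUV0 : 0 ≤ (U' : ℝ) * V Z * (Real.log X / H) := by positivity
  have hwin := hB.win.up U' ζ hU'2 hU'1 hz1 hz2 ⌊x⌋₊ w1
  have hwin2 := hB.win.low U' ζ hU'2 hU'1 hz1 hz2 ⌊x⌋₊ w1
  set t1 : ℝ := (T1 a (Wj j) ⌊x⌋₊ U' : ℝ) with ht1
  have hY : V Z / V (Wj j) * t1 * (Real.log X / H) ≤ 2 * C := by
    calc V Z / V (Wj j) * t1 * (Real.log X / H) ≤
        V Z / V (Wj j) * ((rp U' ζ + δ1) * (U' * V (Wj j))) * (Real.log X / H) := by gcongr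
      _ = (rp U' ζ + δ1) * ((U' : ℝ) * V Z * (Real.log X / H)) := by field_simp
      _ ≤ (C + δ1) * (1 + 4 * ε) := by
          have : 0 ≤ rp U' ζ + δ1 := by linarith
          gcongr
          exact hr'.2.1
      _ ≤ 2 * C := by nlinarith
  have hy : r - 2 * δ1 ≤ V Z / V (Wj j) * t1 * (Real.log X / H) := by
    rcases le_or_gt 0 (rm U' ζ - δ1) with h1 | h1
    · calc r - 2 * δ1 ≤ (rm U' ζ - δ1) * (1 - 2 * ε) := by
            have : rm U' ζ ≤ C := hr'.2.2.1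
            nlinarith
        _ ≤ (rm U' ζ - δ1) * ((U' : ℝ) * V Z * (Real.log X / H)) := by gcongr
        _ = V Z / V (Wj j) * ((rm U' ζ - δ1) * (U' * V (Wj j))) * (Real.log X / H) := by
            field_simp
        _ ≤ V Z / V (Wj j) * t1 * (Real.log X / H) := by gcongr
    · have : 0 ≤ V Z / V (Wj j) * t1 * (Real.log X / H) := by positivity
      linarith
  have hstar := hB.st ⌊x⌋₊ w1 U' hU'2
  have hc1 : (0 : ℝ) ≤ (T1 a Z ⌊x⌋₊ U' : ℝ) := Nat.cast_nonneg _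
  have hnum := numB (c2 := (T1 a Z ⌊x⌋₊ U' : ℝ)) (t1 := t1) (ρ := V Z / V (Wj j))
    (θ := Real.log X / H) (LX := Real.log X) (L := L) (H := H)
    (lam := H / Real.log X ^ 2) (r := r) (e := 2 * δ1) (Y := 2 * C) (η := δ1)
    hc1 (Nat.cast_nonneg _) (by positivity) c1 c2 hs.l1 rfl rfl hr.2.2.2
    (by linarith) (by linarith) hstar hy hY
  have hfin : δ1 * (2 * C) + 2 * δ1 ≤ δ := by
    have : δ1 * (2 * C + 2) ≤ δ1 * C4 := by gcongr
    rw [a6] at this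
    linarith [P.δ0]
  linarith

/-- existence of a window with many elements -/
lemma detC (z : ℕ → ℕ) (hz : Monotone z) (a : ℕ → ℕ) (hHX : H ≤ X)
    (hB : BlkOK a (z (2 ^ (j + 3))) δ1 (δ / 4) δ1 (C6 ^ 2) h ε κρ j) :
    ∃ x : ℝ, X ≤ x ∧ x ≤ 2 * X ∧
      upE (H / Real.log X ^ 2) (rp ⌊H⌋₊ ⌊Real.log X⌋₊) - δ ≤ FF (RB z a) x H := by
  obtain ⟨a1, a2, a3, a4, a5, a6, a7, a8, a9, a10, a11, a12, a13, a14, a15, a16⟩ := P.num
  obtain ⟨c1, c2, c3, c4, c5, c6, c7, c8, c9, c10, c11, c12, c13⟩ := common P hs hH1 hH2 hj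
  set Z := z (2 ^ (j + 3)) with hZ
  set ζ := ⌊Real.log X⌋₊ with hζ
  set U0 := ⌊H⌋₊ with hU0
  have hz1 := hs.z1
  have hz2 := hs.z2
  have hC1 := P.C1
  have hr := hN.r1 U0 ζ c3 (by omega) hz1 hz2
  set r := rp U0 ζ with hrdef
  have hVZ := V_pos Z
  have hVW := V_pos (Wj j)
  set L : ℝ := j * Real.log 2 with hL
  have hL0 : 0 < L := by linarith
  have hVZL := hB.v2
  have hVZL1 := hB.v1
  have hε1 : ε ≤ 1 / 16 := by linarith
  have hu1 := hs.u1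
  have hU0H : (U0 : ℝ) ≤ H := Nat.floor_le c2.le
  set θ := Real.log X / H with hθ
  have hUV : (U0 : ℝ) * V Z * θ ≤ 1 + 3 * ε := by
    have h1 : Real.log X ≤ (1 + ε) * L := hs.l2
    calc (U0 : ℝ) * V Z * θ ≤ H * V Z * (((1 + ε) * L) / H) := by
          rw [hθ]; gcongr
      _ = (1 + ε) * (V Z * L) := by field_simp
      _ ≤ (1 + ε) * (1 + ε) := by gcongr
      _ ≤ 1 + 3 * ε := by nlinarith
  have hUV2 : 1 - 2 * ε ≤ (U0 : ℝ) * V Z * θ := by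
    have h1 : L ≤ Real.log X := hs.l1
    calc 1 - 2 * ε ≤ (1 - ε) * (1 - ε) := by nlinarith
      _ ≤ (1 - ε) * (V Z * L) := by
          have : 0 ≤ 1 - ε := by linarith
          gcongr
      _ = ((1 - ε) * H) * V Z * (L / H) := by field_simp
      _ ≤ (U0 : ℝ) * V Z * θ := by rw [hθ]; gcongr
  have hU00 : (0 : ℝ) < U0 := lt_of_lt_of_le (by
    have h1 := P.δ0
    have h2 : (0 : ℝ) < j := by have := hs.j16; exact_mod_cast (by omega : 0 < j)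
    positivity) c3
  have hrd : 0 ≤ r - δ1 := by linarith
  set n : ℕ := ⌊(r - δ1) * (U0 * V (Wj j))⌋₊ with hn
  have hn1 : (n : ℝ) ≤ (r - δ1) * (U0 * V (Wj j)) := Nat.floor_le (by positivity)
  have hn2 : (r - δ1) * (U0 * V (Wj j)) - 1 ≤ n := (Nat.sub_one_lt_floor _).le
  have hWs := hN.w
  have hnU : n ≤ U0 := by
    have h1 : (n : ℝ) ≤ U0 := by
      calc (n : ℝ) ≤ (r - δ1) * (U0 * V (Wj j)) := hn1
        _ ≤ (C + 1) * (U0 * V (Wj j)) := by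
            have := hr.2.1
            gcongr
            linarith
        _ = U0 * ((C + 1) * V (Wj j)) := by ring
        _ ≤ U0 * 1 := by gcongr
        _ = U0 := mul_one _
    exact_mod_cast h1
  set ρ := V Z / V (Wj j) with hρ
  have hρ0 : 0 < ρ := by positivity
  have hρ1 : ρ ≤ 1 := by rw [hρ, div_le_one hVW]; exact V_anti hB.WZ
  have hρVW : ρ * V (Wj j) = V Z := by rw [hρ]; field_simp
  have hy1 : ρ * n * θ ≤ r := by
    calc ρ * n * θ ≤ ρ * ((r - δ1) * (U0 * V (Wj j))) * θ := by gcongr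
      _ = (r - δ1) * (U0 * (ρ * V (Wj j)) * θ) := by ring
      _ = (r - δ1) * (U0 * V Z * θ) := by rw [hρVW]
      _ ≤ (r - δ1) * (1 + 3 * ε) := by gcongr
      _ ≤ r := by
          have := hr.2.1
          nlinarith
  have hy2 : r - 3 * δ1 ≤ ρ * n * θ := by
    calc r - 3 * δ1 ≤ (r - δ1) * (1 - 2 * ε) - δ1 := by
          have := hr.2.1
          nlinarith
      _ ≤ (r - δ1) * (U0 * V Z * θ) - θ := by gcongr
      _ = (r - δ1) * (U0 * (ρ * V (Wj j)) * θ) - 1 * θ := by rw [hρVW]; ring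
      _ ≤ (r - δ1) * (U0 * (ρ * V (Wj j)) * θ) - ρ * θ := by gcongr
      _ = ρ * ((r - δ1) * (U0 * V (Wj j)) - 1) * θ := by ring
      _ ≤ ρ * n * θ := by gcongr
  obtain ⟨b, hb1, hb2, hb3, hb4⟩ := numC (n := n) (ρ := ρ) (θ := θ) (LX := Real.log X) (H := H)
    (lam := H / Real.log X ^ 2) (r := r) (η := δ1) (τ := 3 * δ1) hρ0 c1 c2 hθ rfl (by linarith)
    (by linarith) (by linarith) (by linarith) (by linarith) hy1 (by nlinarith)
  set E := upE (H / Real.log X ^ 2) r with hE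
  have hEr : r ≤ E := r_le_upE c10 (by linarith)
  have hE1 : E ≤ C4 := by
    have h1 := upE_le (lam := H / Real.log X ^ 2) (r := r) c10 (by linarith)
    have h2 : 2 / (H / Real.log X ^ 2) ≤ 2 / δ := by
      have := P.δ0
      gcongr
    rw [P.C4e]; linarith [hr.2.1]
  have hρn : 0 < ρ * n := by
    by_contra hneg
    have : ρ * n * θ ≤ 0 := mul_nonpos_of_nonpos_of_nonneg (not_lt.1 hneg) c5.le
    linarith
  have hb1' : rate b (ρ * n) ≤ (1 - 3 / 2 * δ1) * L := by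
    refine hb1.trans (max_le ?_ ?_)
    · calc (1 - 2 * δ1) * Real.log X ≤ (1 - 2 * δ1) * ((1 + ε) * L) := by
            have := hs.l2
            have h0 : 0 ≤ 1 - 2 * δ1 := by linarith
            gcongr
        _ = ((1 - 2 * δ1) * (1 + ε)) * L := by ring
        _ ≤ (1 - 3 / 2 * δ1) * L := by
            gcongr
            nlinarith
    · have h1 : 1 / (ρ * n) ≤ 1 := by
        have h2 : 1 / 2 ≤ ρ * n * θ := by linarith
        have h3 : ρ * n * θ ≤ ρ * n * δ1 := by gcongr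
        rw [div_le_one hρn]
        nlinarith
      nlinarith
  have hadm := adm_of (η := δ1) (C3 := C6 ^ 2) (h := h) (ρ := ρ) (θ := θ) (κ := κ) (C6 := C6)
    (j := j) (n := n) (b := b) a4 P.h0 c5 hρ0 a10 a12 a13 (by linarith)
    (hy1.trans (by rw [P.C6e]; linarith [hr.2.1])) (by linarith)
    (hb3.trans (by rw [P.C6e]; linarith)) c7 c8 le_rfl hb1' P.h2
    (le_trans (by have := hB.rho; gcongr) P.r1) (le_trans (by
      have := hB.rho
      gcongr) P.r2) c12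
  have hbU : b ≤ U0 := by
    have h1 : (b : ℝ) ≤ U0 := by
      have h2 : (b : ℝ) * θ ≤ (1 - ε) * Real.log X := by linarith
      calc (b : ℝ) = (b * θ) * (H / Real.log X) := by rw [hθ]; field_simp
        _ ≤ ((1 - ε) * Real.log X) * (H / Real.log X) := by gcongr
        _ = (1 - ε) * H := by field_simp
        _ ≤ U0 := hu1
    exact_mod_cast h1
  obtain ⟨k, hk5, hk⟩ := blk_in hs
  obtain ⟨m, hm, hmb⟩ := (hB.st2 k hk5 U0 (by omega) n hnU b hbU hadm).1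
    (hB.win.qup U0 ζ (by omega) c3 hz1 hz2 k hk5 n hn1)
  obtain ⟨hm1, hm2⟩ := hk m hm
  refine ⟨m, hm1, hm2, ?_⟩
  obtain ⟨_, _, w3, _⟩ := ff_bounds hs z hz a hHX a7 m hm1 hm2
  have hU' : ⌊(m : ℝ) + H⌋₊ - ⌊(m : ℝ)⌋₊ = U0 := by
    rw [Nat.floor_natCast, add_comm, Nat.floor_add_natCast c2.le, Nat.add_sub_cancel]
  rw [hU', Nat.floor_natCast] at w3
  refine le_trans ?_ w3
  have h1 : (1 - h) * (b * θ) ≤ (T1 a Z m U0 : ℝ) * θ := by
    calc (1 - h) * (b * θ) = ((1 - h) * b) * θ := by ring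
      _ ≤ (T1 a Z m U0 : ℝ) * θ := by gcongr
  refine le_trans ?_ h1
  have hh1 := P.h1
  have hE0 : 0 < E := by linarith
  have h2 : (1 - 2 * δ1) * (1 - 3 * δ1) * E ≥ (1 - 5 * δ1) * E := by
    have : 1 - 5 * δ1 ≤ (1 - 2 * δ1) * (1 - 3 * δ1) := by nlinarith
    gcongr
  have h3 : (1 - 5 * δ1) * E - δ1 ≤ b * θ := by linarith
  have h4 : (b : ℝ) * θ ≤ E := hb3
  have h5 : 0 ≤ (b : ℝ) * θ := by positivity
  have h6 : b * θ - δ1 * E ≤ (1 - h) * (b * θ) := by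
    have : h * (b * θ) ≤ δ1 * E := by gcongr
    linarith
  have h7 : δ1 * E ≤ δ / 64 := by rw [← a6]; gcongr
  have h8 : δ1 ≤ δ / 64 := by rw [← a6]; nlinarith
  linarith [P.δ0]

/-- existence of a window with few elements -/
lemma detD (z : ℕ → ℕ) (hz : Monotone z) (a : ℕ → ℕ) (hHX : H ≤ X)
    (hB : BlkOK a (z (2 ^ j)) δ1 (δ / 4) δ1 (C6 ^ 2) h ε κρ j) :
    ∃ x : ℝ, X ≤ x ∧ x ≤ 2 * X ∧
      FF (RB z a) x H ≤ loE (H / Real.log X ^ 2) (rm ⌊H⌋₊ ⌊Real.log X⌋₊) + δ := by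
  obtain ⟨a1, a2, a3, a4, a5, a6, a7, a8, a9, a10, a11, a12, a13, a14, a15, a16⟩ := P.num
  obtain ⟨c1, c2, c3, c4, c5, c6, c7, c8, c9, c10, c11, c12, c13⟩ := common P hs hH1 hH2 hj
  set Z := z (2 ^ j) with hZ
  set ζ := ⌊Real.log X⌋₊ with hζ
  set U0 := ⌊H⌋₊ with hU0
  have hz1 := hs.z1
  have hz2 := hs.z2
  have hC1 := P.C1
  have hr := hN.r1 U0 ζ c3 (by omega) hz1 hz2
  set r := rm U0 ζ with hrdef
  have hr0 : 0 ≤ r := hr.2.2.2
  have hrC : r ≤ C := hr.2.2.1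
  have hVZ := V_pos Z
  have hVW := V_pos (Wj j)
  set L : ℝ := j * Real.log 2 with hL
  have hL0 : 0 < L := by linarith
  have hVZL := hB.v2
  have hVZL1 := hB.v1
  have hε1 : ε ≤ 1 / 16 := by linarith
  have hu1 := hs.u1
  have hU0H : (U0 : ℝ) ≤ H := Nat.floor_le c2.le
  set θ := Real.log X / H with hθ
  have hUV : (U0 : ℝ) * V Z * θ ≤ 1 + 3 * ε := by
    have h1 : Real.log X ≤ (1 + ε) * L := hs.l2
    calc (U0 : ℝ) * V Z * θ ≤ H * V Z * (((1 + ε) * L) / H) := by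
          rw [hθ]; gcongr
      _ = (1 + ε) * (V Z * L) := by field_simp
      _ ≤ (1 + ε) * (1 + ε) := by gcongr
      _ ≤ 1 + 3 * ε := by nlinarith
  have hUV2 : 1 - 2 * ε ≤ (U0 : ℝ) * V Z * θ := by
    have h1 : L ≤ Real.log X := hs.l1
    calc 1 - 2 * ε ≤ (1 - ε) * (1 - ε) := by nlinarith
      _ ≤ (1 - ε) * (V Z * L) := by
          have : 0 ≤ 1 - ε := by linarith
          gcongr
      _ = ((1 - ε) * H) * V Z * (L / H) := by field_simp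
      _ ≤ (U0 : ℝ) * V Z * θ := by rw [hθ]; gcongr
  have hU00 : (0 : ℝ) < U0 := lt_of_lt_of_le (by
    have h1 := P.δ0
    have h2 : (0 : ℝ) < j := by have := hs.j16; exact_mod_cast (by omega : 0 < j)
    positivity) c3
  set n : ℕ := ⌈(r + δ1) * (U0 * V (Wj j))⌉₊ with hn
  have hn1 : (r + δ1) * (U0 * V (Wj j)) ≤ n := Nat.le_ceil _
  have hn2 : (n : ℝ) ≤ (r + δ1) * (U0 * V (Wj j)) + 1 := (Nat.ceil_lt_add_one (by positivity)).le
  have hWs := hN.w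
  have hnU : n ≤ U0 := by
    rw [hn]
    refine Nat.ceil_le.2 ?_
    calc (r + δ1) * (U0 * V (Wj j)) ≤ (C + 1) * (U0 * V (Wj j)) := by
          gcongr
          linarith
      _ = U0 * ((C + 1) * V (Wj j)) := by ring
      _ ≤ U0 * 1 := by gcongr
      _ = U0 := mul_one _
  set ρ := V Z / V (Wj j) with hρ
  have hρ0 : 0 < ρ := by positivity
  have hρ1 : ρ ≤ 1 := by rw [hρ, div_le_one hVW]; exact V_anti hB.WZ
  have hρVW : ρ * V (Wj j) = V Z := by rw [hρ]; field_simp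
  have hy1 : ρ * n * θ ≤ r + 3 * δ1 := by
    calc ρ * n * θ ≤ ρ * ((r + δ1) * (U0 * V (Wj j)) + 1) * θ := by gcongr
      _ = (r + δ1) * (U0 * (ρ * V (Wj j)) * θ) + ρ * θ := by ring
      _ = (r + δ1) * (U0 * V Z * θ) + ρ * θ := by rw [hρVW]
      _ ≤ (r + δ1) * (1 + 3 * ε) + 1 * δ1 := by gcongr
      _ ≤ r + 3 * δ1 := by nlinarith
  have hy2 : r + δ1 / 2 ≤ ρ * n * θ := by
    calc r + δ1 / 2 ≤ (r + δ1) * (1 - 2 * ε) := by nlinarith
      _ ≤ (r + δ1) * (U0 * V Z * θ) := by gcongr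
      _ = ρ * ((r + δ1) * (U0 * V (Wj j))) * θ := by rw [← hρVW]; ring
      _ ≤ ρ * n * θ := by gcongr
  obtain ⟨b, hb1, hb2, hb3⟩ := numD (n := n) (ρ := ρ) (θ := θ) (LX := Real.log X) (H := H)
    (lam := H / Real.log X ^ 2) (r := r) (η := δ1) hρ0 c1 c2 hθ rfl hr0
    (by linarith) (by linarith) (by linarith) (by linarith)
  set E := loE (H / Real.log X ^ 2) r with hE
  have hEr : E ≤ r := loE_le_r hr0
  have hE0 : 0 ≤ E := loE_nonneg _ _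
  have hρn : 0 < ρ * n := by
    by_contra hneg
    have : ρ * n * θ ≤ 0 := mul_nonpos_of_nonpos_of_nonneg (not_lt.1 hneg) c5.le
    linarith
  have hb1' : rate b (ρ * n) ≤ (1 - 3 / 2 * δ1) * L := by
    refine hb1.trans (max_le ?_ ?_)
    · calc (1 - 2 * δ1) * Real.log X ≤ (1 - 2 * δ1) * ((1 + ε) * L) := by
            have := hs.l2
            have h0 : 0 ≤ 1 - 2 * δ1 := by linarith
            gcongr
        _ = ((1 - 2 * δ1) * (1 + ε)) * L := by ring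
        _ ≤ (1 - 3 / 2 * δ1) * L := by
            gcongr
            nlinarith
    · have h1 : 1 / (ρ * n) ≤ 2 := by
        have h2 : δ1 / 2 ≤ ρ * n * θ := by linarith
        have h3 : ρ * n * θ ≤ ρ * n * δ1 := by gcongr
        rw [div_le_iff₀ hρn]
        have h4 : δ1 * (1 / 2) ≤ δ1 * (ρ * n) := by linarith
        have h5 := le_of_mul_le_mul_left h4 a4
        linarith
      nlinarith
  have hb3' : b * θ ≤ E + 4 * δ1 + 2 * δ1 * (C + 1) := by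
    have h1 : 2 * δ1 * (ρ * n * θ) ≤ 2 * δ1 * (C + 1) := by
      gcongr
      linarith
    linarith
  have h2C : 2 * δ1 * (C + 1) ≤ δ / 64 := by
    have : δ1 * (2 * C + 2) ≤ δ1 * C4 := by gcongr
    rw [a6] at this
    linarith
  have h8 : δ1 ≤ δ / 256 := by nlinarith
  have hbC : b * θ ≤ C + 1 := by
    have := P.δ1'
    linarith
  have hbκ : κ ≤ b * θ := by
    rw [P.k1]
    calc δ1 ^ 2 = 2 * δ1 * (δ1 / 2) := by ring
      _ ≤ 2 * δ1 * (ρ * n * θ) := by gcongr; linarith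
      _ ≤ b * θ := hb2
  have hadm := adm_of (η := δ1) (C3 := C6 ^ 2) (h := h) (ρ := ρ) (θ := θ) (κ := κ) (C6 := C6)
    (j := j) (n := n) (b := b) a4 P.h0 c5 hρ0 a10 a12 a13 (by linarith)
    (hy1.trans (by rw [P.C6e]; linarith)) hbκ
    (hbC.trans (by rw [P.C6e]; linarith)) c7 c8 le_rfl hb1' P.h2
    (le_trans (by have := hB.rho; gcongr) P.r1) (le_trans (by
      have := hB.rho
      gcongr) P.r2) c12
  have hbU : b ≤ U0 := by
    have h1 : (b : ℝ) ≤ U0 := by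
      have h2 : (b : ℝ) * θ ≤ (1 - ε) * Real.log X := by linarith
      calc (b : ℝ) = (b * θ) * (H / Real.log X) := by rw [hθ]; field_simp
        _ ≤ ((1 - ε) * Real.log X) * (H / Real.log X) := by gcongr
        _ = (1 - ε) * H := by field_simp
        _ ≤ U0 := hu1
    exact_mod_cast h1
  obtain ⟨k, hk5, hk⟩ := blk_in hs
  obtain ⟨m, hm, hmb⟩ := (hB.st2 k hk5 U0 (by omega) n hnU b hbU hadm).2
    (hB.win.qdn U0 ζ (by omega) c3 hz1 hz2 k hk5 n hn1)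
  obtain ⟨hm1, hm2⟩ := hk m hm
  refine ⟨m, hm1, hm2, ?_⟩
  obtain ⟨_, _, _, w4⟩ := ff_bounds hs z hz a hHX a7 m hm1 hm2
  have hU' : ⌊(m : ℝ) + H⌋₊ - ⌊(m : ℝ)⌋₊ = U0 := by
    rw [Nat.floor_natCast, add_comm, Nat.floor_add_natCast c2.le, Nat.add_sub_cancel]
  rw [hU', Nat.floor_natCast] at w4
  refine w4.trans ?_
  have hh1 := P.h1
  have hh0 := P.h0
  have hbθ0 : 0 ≤ (b : ℝ) * θ := by positivity
  have h1 : (T1 a Z m U0 : ℝ) * θ ≤ (1 + h) * (b * θ) := by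
    calc (T1 a Z m U0 : ℝ) * θ ≤ ((1 + h) * b) * θ := by gcongr
      _ = (1 + h) * (b * θ) := by ring
  calc (1 + ε) * ((T1 a Z m U0 : ℝ) * θ) ≤ (1 + ε) * ((1 + h) * (b * θ)) := by gcongr
    _ = ((1 + ε) * (1 + h)) * (b * θ) := by ring
    _ ≤ (1 + 2 * δ1) * (b * θ) := by
        gcongr
        nlinarith
    _ = b * θ + 2 * δ1 * (b * θ) := by ring
    _ ≤ b * θ + 2 * δ1 * (C + 1) := by gcongr
    _ ≤ E + δ := by linarith [P.δ0]

end

theorem csA (δ : ℝ) (hδ : 0 < δ) {Ω : Type} [MeasurableSpace Ω] (μ : Measure Ω)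
    [IsProbabilityMeasure μ] (A : ℕ → Ω → ℕ) (hA : RandomClasses μ A) (z : ℕ → ℕ)
    (hzm : Monotone z) (hz : Tendsto (fun n : ℕ => V (z n) * Real.log n) atTop (𝓝 1)) :
    ∀ᵐ ω ∂μ, ∀ᶠ X : ℝ in atTop, ∀ H : ℝ, δ * Real.log X ^ 2 ≤ H →
      H ≤ 1 / δ * Real.log X ^ 2 →
      (∀ x : ℝ, X ≤ x → x ≤ 2 * X →
        loE (H / Real.log X ^ 2) (rm ⌊H⌋₊ ⌊Real.log X⌋₊) - δ ≤
          FF (RB z (fun p => A p ω)) x H ∧
        FF (RB z (fun p => A p ω)) x H ≤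
          upE (H / Real.log X ^ 2) (rp ⌊H⌋₊ ⌊Real.log X⌋₊) + δ) ∧
      (∃ x : ℝ, X ≤ x ∧ x ≤ 2 * X ∧
        upE (H / Real.log X ^ 2) (rp ⌊H⌋₊ ⌊Real.log X⌋₊) - δ ≤
          FF (RB z (fun p => A p ω)) x H) ∧
      (∃ x : ℝ, X ≤ x ∧ x ≤ 2 * X ∧
        FF (RB z (fun p => A p ω)) x H ≤
          loE (H / Real.log X ^ 2) (rm ⌊H⌋₊ ⌊Real.log X⌋₊) + δ) := by
  obtain ⟨C, hC, hnum⟩ := numOK
  set δ' : ℝ := min δ 1 with hδ'
  have hδ'0 : 0 < δ' := lt_min hδ one_pos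
  have hδ'1 : δ' ≤ 1 := min_le_right _ _
  have hδ'δ : δ' ≤ δ := min_le_left _ _
  obtain ⟨C4, δ1, ε, κ, C6, h, κρ, P⟩ := exists_par δ' C hδ'0 hδ'1 hC
  obtain ⟨a1, a2, a3, a4, a5, a6, a7, a8, a9, a10, a11, a12, a13, a14, a15, a16⟩ := P.num
  filter_upwards [blkOK δ1 (δ' / 4) δ1 (C6 ^ 2) h ε κρ a4 (by linarith) (by positivity) a4
      (by linarith) a15 P.h0 a14 a7 P.r0 μ A hA (fun j => z (2 ^ j)) (V_pow_two z hz),
    blkOK δ1 (δ' / 4) δ1 (C6 ^ 2) h ε κρ a4 (by linarith) (by positivity) a4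
      (by linarith) a15 P.h0 a14 a7 P.r0 μ A hA (fun j => z (2 ^ (j + 3)))
      (V_pow_two_add z hz 3)] with ω h1 h2
  obtain ⟨J1, hJ1⟩ := eventually_atTop.1 h1
  obtain ⟨J2, hJ2⟩ := eventually_atTop.1 h2
  obtain ⟨J3, hJ3⟩ := eventually_atTop.1 (hnum ε (δ' / 4) a7 (by positivity))
  obtain ⟨J4, hJ4⟩ : ∃ J4 : ℕ, 2 / (δ' * δ1) + 1 / κ ^ 4 ≤ J4 := exists_nat_ge _
  have hlog : Tendsto (fun X : ℝ => Real.log X) atTop atTop := Real.tendsto_log_atTop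
  have hXlog : ∀ᶠ X : ℝ in atTop, 1 / δ' * Real.log X ^ 2 ≤ X := by
    have := (isLittleO_log_rpow_atTop (show (0 : ℝ) < 1 / 2 by norm_num)).bound
      (show 0 < Real.sqrt δ' by positivity)
    filter_upwards [this, eventually_ge_atTop 1] with X hX hX1
    rw [Real.norm_of_nonneg (Real.log_nonneg hX1), Real.norm_of_nonneg (by positivity),
      ← Real.sqrt_eq_rpow] at hX
    have hlX := Real.log_nonneg hX1
    have h3 : Real.log X ^ 2 ≤ (Real.sqrt δ' * Real.sqrt X) ^ 2 := by gcongr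
    rw [mul_pow, Real.sq_sqrt hδ'0.le, Real.sq_sqrt (by linarith)] at h3
    rw [div_mul_eq_mul_div, one_mul, div_le_iff₀ hδ'0]
    linarith
  filter_upwards [sc_ev ε a7 (max (max J1 J2) (max J3 J4)), hXlog,
    hlog.eventually_ge_atTop (1 / δ'), eventually_ge_atTop 1] with X hX hXl hlX hX1 H hH1 hH2
  set j := Nat.log 2 ⌊X⌋₊ with hj
  obtain ⟨hJj, hSC⟩ := hX
  have hl0 : 0 ≤ Real.log X := Real.log_nonneg hX1
  have hH1' : δ' * Real.log X ^ 2 ≤ H := le_trans (by gcongr) hH1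
  have hH2' : H ≤ 1 / δ' * Real.log X ^ 2 := hH2.trans (by gcongr)
  have hHlog : Real.log X ≤ H := by
    refine le_trans ?_ hH1'
    have : 1 ≤ δ' * Real.log X := by
      rw [div_le_iff₀ hδ'0] at hlX; linarith
    nlinarith
  have hs := hSC H hHlog
  have hHX : H ≤ X := hH2'.trans hXl
  have g1 := hJ1 j (by omega)
  have g2 := hJ2 j (by omega)
  have g3 := hJ3 j (by omega)
  have g4 : 2 / (δ' * δ1) + 1 / κ ^ 4 ≤ j :=
    hJ4.trans (by exact_mod_cast (by omega : J4 ≤ j))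
  refine ⟨fun x hx1 hx2 => ⟨?_, ?_⟩, ?_, ?_⟩
  · have := detB P hs hH1' hH2' g3 g4 z hzm _ hHX g2 x hx1 hx2
    linarith
  · have := detA P hs hH1' hH2' g3 g4 z hzm _ hHX g1 x hx1 hx2
    linarith
  · obtain ⟨x, e1, e2, e3⟩ := detC P hs hH1' hH2' g3 g4 z hzm _ hHX g2
    exact ⟨x, e1, e2, by linarith⟩
  · obtain ⟨x, e1, e2, e3⟩ := detD P hs hH1' hH2' g3 g4 z hzm _ hHX g1
    exact ⟨x, e1, e2, by linarith⟩

end Pool.Agent.H532.RM
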