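import Mathlib
import Pool.Agent.H532.RM.CSC

/-!
Below the critical scale: `log X ≪ H = o((log X) ^ 2)`.
-/

namespace Pool.Agent.H532.RM

open Finset MeasureTheory Function ProbabilityTheory Filter
open scoped ENNReal Topology

lemma log_Wj (j : ℕ) : Real.log (Wj j : ℕ) = 40 * Real.log j := by
  unfold Wj; push_cast; rw [Real.log_pow]; norm_num

/-- The upper bound sieve for short windows. -/
theorem winB_up : ∃ C : ℝ, 1 ≤ C ∧ ∀ᶠ j : ℕ in atTop, ∀ U : ℕ, j ≤ U → ∀ (c : ℕ → ℕ) (m : ℕ),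
    (T1 c (Wj j) m U : ℝ) ≤ C * (U * V (Wj j)) := by
  obtain ⟨C0, hC0, ζ0, hup⟩ := upper
  obtain ⟨c, C', hc, hC', hV⟩ := V_two_sided
  refine ⟨max 1 (C0 * (40 * C' / c)), le_max_left _ _, ?_⟩
  filter_upwards [eventually_ge_atTop (max ζ0 2)] with j hj U hU a m
  have hj0 : ζ0 ≤ j := (le_max_left _ _).trans hj
  have hj2 : 2 ≤ j := (le_max_right _ _).trans hj
  have hjW : j ≤ Wj j := Nat.le_self_pow (by norm_num) j
  set ζ := min U (Wj j) with hζ
  have hζj : j ≤ ζ := le_min hU hjW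
  have h1 := hup ζ (by omega) U ((min_le_left _ _).trans (Nat.le_self_pow (by norm_num) U)) a m
  have h2 : (T1 a (Wj j) m U : ℝ) ≤ T1 a ζ m U := by
    exact_mod_cast T1_anti a (min_le_right _ _) m U
  have hjr : (2 : ℝ) ≤ j := by exact_mod_cast hj2
  have hlj : 0 < Real.log j := Real.log_pos (by linarith)
  have hlζ : Real.log j ≤ Real.log ζ := Real.log_le_log (by linarith) (by exact_mod_cast hζj)
  have hVζ := V_pos ζ
  have hVW := V_pos (Wj j)
  have h3 := (hV ζ (by omega)).2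
  have h4 := (hV (Wj j) (by omega)).1
  rw [log_Wj] at h4
  have h5 : V ζ ≤ 40 * C' / c * V (Wj j) := by
    have h6 : V ζ * Real.log j ≤ C' := by
      calc V ζ * Real.log j ≤ V ζ * Real.log ζ := by gcongr
        _ ≤ C' := h3
    rw [div_mul_eq_mul_div, le_div_iff₀ hc]
    calc V ζ * c ≤ V ζ * (V (Wj j) * (40 * Real.log j)) := by gcongr
      _ = 40 * (V ζ * Real.log j) * V (Wj j) := by ring
      _ ≤ 40 * C' * V (Wj j) := by gcongr
  calc (T1 a (Wj j) m U : ℝ) ≤ T1 a ζ m U := h2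
    _ ≤ C0 * (U * V ζ) := h1
    _ ≤ C0 * (U * (40 * C' / c * V (Wj j))) := by gcongr
    _ = C0 * (40 * C' / c) * (U * V (Wj j)) := by ring
    _ ≤ max 1 (C0 * (40 * C' / c)) * (U * V (Wj j)) := by
        gcongr
        exact le_max_right _ _

lemma T1_mul_eq (c : ℕ → ℕ) (Z m U k : ℕ) :
    T1 c Z m (k * U) = ∑ i ∈ range k, T1 c Z (m + i * U) U := by
  induction k with
  | zero =>
    have := T1_le c Z m 0
    simp
    omega
  | succ k ih => rw [Nat.succ_mul, T1_add, ih, sum_range_succ]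

/-- Many windows have at least half of the expected number of elements. -/
theorem winB_q (η : ℝ) (hη : 0 < η) (hη1 : η ≤ 1) : ∀ᶠ j : ℕ in atTop, ∀ U : ℕ, j ≤ U →
    U ≤ j ^ 3 → ∀ k < 5, ∀ a : ℕ → ℕ, ∀ n : ℕ, (n : ℝ) ≤ U * V (Wj j) / 2 →
    Qup j k U n (Real.exp ((1 - η / 2) * (j * Real.log 2))) a := by
  classical
  obtain ⟨C, hC, hup⟩ := winB_up
  obtain ⟨C0, hC0, hf⟩ := fund 1
  set b := max C0 2 with hb
  obtain ⟨U0, h0⟩ := hf b (le_max_left _ _)
  have hCb : 1 ≤ C0 * b := Nat.mul_pos hC0 (by omega)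
  have hjt : Tendsto (fun j : ℕ => (j : ℝ)) atTop atTop := tendsto_natCast_atTop_atTop
  -- `j ^ 40 ≤ (2 ^ (j - 2)) ^ (1 / (C0 b))`
  have ev1 : ∀ᶠ j : ℕ in atTop, (j ^ 40) ^ (C0 * b) ≤ 2 ^ (j - 2) := by
    have h1 := tendsto_pow_const_div_const_pow_of_one_lt (40 * (C0 * b)) (show (1 : ℝ) < 2 by
      norm_num)
    filter_upwards [h1.eventually (gt_mem_nhds (show (0 : ℝ) < 1 / 4 by norm_num)),
      eventually_ge_atTop 2] with j hj hj1
    rw [div_lt_iff₀ (by positivity)] at hj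
    have h2 : ((j : ℝ) ^ 40) ^ (C0 * b) ≤ 2 ^ (j - 2) := by
      have : (2 : ℝ) ^ j = 2 ^ (j - 2) * 4 := by
        have e : (2 : ℝ) ^ j = 2 ^ ((j - 2) + 2) := by congr 1; omega
        rw [e, pow_add]; norm_num
      rw [this] at hj
      rw [← pow_mul]
      linarith
    exact_mod_cast h2
  have ev2 : ∀ᶠ j : ℕ in atTop, Real.exp ((1 - η / 2) * (j * Real.log 2)) ≤
      2 ^ j / (32 * C * (j : ℝ) ^ 3) := by
    have hlog2 := Real.log_pos (show (1 : ℝ) < 2 by norm_num)
    have hc : 0 < η / 2 * Real.log 2 := by positivity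
    have h1 : Tendsto (fun j : ℕ => (j : ℝ) ^ 3 * Real.exp (-((η / 2 * Real.log 2) * j))) atTop
        (𝓝 0) := by
      have h2 := (Real.tendsto_pow_mul_exp_neg_atTop_nhds_zero 3).comp
        (hjt.const_mul_atTop hc)
      have h3 := h2.const_mul ((1 / (η / 2 * Real.log 2)) ^ 3)
      rw [mul_zero] at h3
      refine h3.congr fun x => ?_
      simp only [comp_apply]
      rw [mul_pow, ← mul_assoc, ← mul_assoc, ← mul_pow, one_div, inv_mul_cancel₀ hc.ne', one_pow,
        one_mul]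
    filter_upwards [h1.eventually (gt_mem_nhds (show (0 : ℝ) < 1 / (32 * C) by positivity)),
      eventually_ge_atTop 1] with j hj hj1
    have hj0 : (0 : ℝ) < j := by exact_mod_cast hj1
    rw [le_div_iff₀ (by positivity)]
    have e : Real.exp ((1 - η / 2) * (j * Real.log 2)) =
        2 ^ j * Real.exp (-((η / 2 * Real.log 2) * j)) := by
      have h2 : (2 : ℝ) ^ j = Real.exp (j * Real.log 2) := by
        rw [Real.exp_nat_mul, Real.exp_log (by norm_num)]
      rw [h2, ← Real.exp_add]; congr 1; ring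
    rw [e]
    have h3 : 32 * C * ((j : ℝ) ^ 3 * Real.exp (-((η / 2 * Real.log 2) * j))) ≤ 1 := by
      rw [lt_div_iff₀ (by positivity)] at hj
      linarith
    calc 2 ^ j * Real.exp (-((η / 2 * Real.log 2) * j)) * (32 * C * (j : ℝ) ^ 3) =
        2 ^ j * (32 * C * ((j : ℝ) ^ 3 * Real.exp (-((η / 2 * Real.log 2) * j)))) := by ring
      _ ≤ 2 ^ j * 1 := by gcongr
      _ = 2 ^ j := mul_one _
  have ev3 : ∀ᶠ j : ℕ in atTop, U0 ≤ 2 ^ (j - 2) := by
    have : Tendsto (fun j : ℕ => 2 ^ (j - 2)) atTop atTop :=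
      (tendsto_pow_atTop_atTop_of_one_lt (by norm_num)).comp (tendsto_sub_atTop_nat 2)
    exact this.eventually_ge_atTop U0
  have ev4 : ∀ᶠ j : ℕ in atTop, j ^ 3 ≤ 2 ^ (j - 2) := by
    have h1 := tendsto_pow_const_div_const_pow_of_one_lt 3 (show (1 : ℝ) < 2 by norm_num)
    filter_upwards [h1.eventually (gt_mem_nhds (show (0 : ℝ) < 1 / 4 by norm_num)),
      eventually_ge_atTop 2] with j hj hj1
    rw [div_lt_iff₀ (by positivity)] at hj
    have h2 : (j : ℝ) ^ 3 ≤ 2 ^ (j - 2) := by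
      have : (2 : ℝ) ^ j = 2 ^ (j - 2) * 4 := by
        have e : (2 : ℝ) ^ j = 2 ^ ((j - 2) + 2) := by congr 1; omega
        rw [e, pow_add]; norm_num
      rw [this] at hj
      linarith
    exact_mod_cast h2
  filter_upwards [hup, ev1, ev2, ev3, ev4, eventually_ge_atTop 2] with j hupj h1 h2 h3 h4 hj2
  intro U hU1 hU2 k hk a n hn
  have hVW := V_pos (Wj j)
  have hU0 : 0 < U := by omega
  have hU0r : (0 : ℝ) < U := by exact_mod_cast hU0
  set B := k * 2 ^ (j - 1) with hB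
  set G := 2 ^ (j - 1) / U with hG
  have h2j1 : 2 ^ (j - 1) = 2 * 2 ^ (j - 2) := by
    rw [← pow_succ']; congr 1; omega
  have hGU : G * U ≤ 2 ^ (j - 1) := Nat.div_mul_le_self _ _
  have hGU2 : 2 ^ (j - 1) < G * U + U := Nat.lt_div_mul_add hU0
  have hGU3 : 2 ^ (j - 2) ≤ G * U := by omega
  -- the total number
  have htot := h0 (G * U) (h3.trans hGU3) {0} (card_singleton 0) a (primesLe (Wj j))
    (fun p hp => by
      have hp' := mem_primesLe.1 hp
      refine ⟨hp'.2, ?_, by rw [nuD_zero]; exact hp'.2.one_lt⟩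
      have b1 : (p : ℝ) ≤ (Wj j : ℕ) := by exact_mod_cast hp'.1
      refine b1.trans ?_
      have b2 : ((Wj j : ℕ) : ℝ) ^ (C0 * b) ≤ ((G * U : ℕ) : ℝ) := by
        have : (Wj j) ^ (C0 * b) ≤ G * U := by
          unfold Wj; exact h1.trans hGU3
        exact_mod_cast this
      have hCbr : (0 : ℝ) < (C0 : ℝ) * b := by
        have : (1 : ℝ) ≤ (C0 * b : ℕ) := by exact_mod_cast hCb
        push_cast at this; linarith
      calc ((Wj j : ℕ) : ℝ) = (((Wj j : ℕ) : ℝ) ^ (C0 * b)) ^ (1 / ((C0 : ℝ) * b)) := by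
            rw [← Real.rpow_natCast, ← Real.rpow_mul (by positivity)]
            push_cast
            rw [mul_one_div_cancel hCbr.ne', Real.rpow_one]
        _ ≤ ((G * U : ℕ) : ℝ) ^ (1 / ((C0 : ℝ) * b)) :=
            Real.rpow_le_rpow (by positivity) b2 (by positivity)) B
  rw [VDQ_zero] at htot
  have htot1 := (abs_le.1 htot).1
  have hb4 : (1 / 2 : ℝ) ^ b ≤ 1 / 4 := by
    calc (1 / 2 : ℝ) ^ b ≤ (1 / 2 : ℝ) ^ 2 :=
          pow_le_pow_of_le_one (by norm_num) (by norm_num) (le_max_right _ _)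
      _ = 1 / 4 := by norm_num
  have hsum : 3 / 4 * (((G * U : ℕ) : ℝ) * V (Wj j)) ≤
      ∑ i ∈ range G, (T1 a (Wj j) (B + i * U) U : ℝ) := by
    have e : (T1 a (Wj j) B (G * U) : ℝ) = ∑ i ∈ range G, (T1 a (Wj j) (B + i * U) U : ℝ) := by
      rw [T1_mul_eq]; push_cast; rfl
    rw [← e]
    have h5 : (1 / 2 : ℝ) ^ b * (((G * U : ℕ) : ℝ) * V (Wj j)) ≤
        1 / 4 * (((G * U : ℕ) : ℝ) * V (Wj j)) := by gcongr
    unfold T1
    linarith
  set I := (range G).filter (fun i => n ≤ T1 a (Wj j) (B + i * U) U) with hI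
  have hsplit : ∑ i ∈ range G, (T1 a (Wj j) (B + i * U) U : ℝ) ≤
      I.card * (C * (U * V (Wj j))) + G * (U * V (Wj j) / 2) := by
    rw [← sum_filter_add_sum_filter_not (range G) (fun i => n ≤ T1 a (Wj j) (B + i * U) U)]
    refine add_le_add ?_ ?_
    · rw [← nsmul_eq_mul]
      exact sum_le_card_nsmul _ _ _ fun i _ => hupj U hU1 a _
    · have h5 : ∑ i ∈ (range G).filter (fun i => ¬ n ≤ T1 a (Wj j) (B + i * U) U),
          (T1 a (Wj j) (B + i * U) U : ℝ) ≤
          ((range G).filter (fun i => ¬ n ≤ T1 a (Wj j) (B + i * U) U)).card •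
            (U * V (Wj j) / 2) := by
        refine sum_le_card_nsmul _ _ _ fun i hi => ?_
        have h6 := (mem_filter.1 hi).2
        have h7 : (T1 a (Wj j) (B + i * U) U : ℝ) ≤ n := by
          exact_mod_cast (not_le.1 h6).le
        linarith
      rw [nsmul_eq_mul] at h5
      refine h5.trans ?_
      have h8 : (((range G).filter (fun i => ¬ n ≤ T1 a (Wj j) (B + i * U) U)).card : ℝ) ≤ G := by
        have := card_filter_le (range G) (fun i => ¬ n ≤ T1 a (Wj j) (B + i * U) U)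
        rw [card_range] at this
        exact_mod_cast this
      gcongr
  have hIcard : (G : ℝ) / (4 * C) ≤ I.card := by
    have h5 : 1 / 4 * (G * (U * V (Wj j))) ≤ I.card * (C * (U * V (Wj j))) := by
      push_cast at hsum
      linarith
    have hUV : 0 < U * V (Wj j) := by positivity
    rw [div_le_iff₀ (by positivity)]
    have h6 : (G : ℝ) * (U * V (Wj j)) ≤ (I.card * (4 * C)) * (U * V (Wj j)) := by linarith
    exact le_of_mul_le_mul_right h6 hUV
  refine ⟨I.image (fun i => B + i * U), ?_, ?_, ?_, ?_⟩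
  · intro m hm
    obtain ⟨i, hi, rfl⟩ := mem_image.1 hm
    have h5 := mem_range.1 (mem_filter.1 hi).1
    have h6 : (i + 1) * U ≤ G * U := Nat.mul_le_mul_right _ h5
    rw [add_mul, one_mul] at h6
    unfold Blk
    rw [mem_Ico, add_mul, one_mul]
    constructor <;> omega
  · rw [card_image_of_injective _ (fun i i' h => by
      have h1 : i * U = i' * U := by
        have : B + i * U = B + i' * U := h
        omega
      exact Nat.eq_of_mul_eq_mul_right hU0 h1)]
    refine h2.trans (le_trans ?_ hIcard)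
    -- G ≥ 2^j / (8 j^3)
    have h5 : (2 : ℝ) ^ j / (8 * (j : ℝ) ^ 3) ≤ G := by
      have hj0 : (0 : ℝ) < j := by exact_mod_cast (by omega : 0 < j)
      have hU2r : (U : ℝ) ≤ (j : ℝ) ^ 3 := by exact_mod_cast hU2
      rw [div_le_iff₀ (by positivity)]
      have h6 : ((2 : ℝ) ^ (j - 2)) ≤ G * U := by exact_mod_cast hGU3
      have e : (2 : ℝ) ^ j = 4 * 2 ^ (j - 2) := by
        have : (2 : ℝ) ^ j = 2 ^ (2 + (j - 2)) := by congr 1; omega
        rw [this, pow_add]; norm_num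
      have hG0 : (0 : ℝ) ≤ G := Nat.cast_nonneg _
      rw [e]
      calc 4 * (2 : ℝ) ^ (j - 2) ≤ 4 * (G * U) := by gcongr
        _ ≤ 4 * (G * (j : ℝ) ^ 3) := by gcongr
        _ ≤ G * (8 * (j : ℝ) ^ 3) := by
            have : 0 ≤ G * (j : ℝ) ^ 3 := by positivity
            linarith
    calc (2 : ℝ) ^ j / (32 * C * (j : ℝ) ^ 3) = (2 ^ j / (8 * (j : ℝ) ^ 3)) / (4 * C) := by
          field_simp; ring
      _ ≤ G / (4 * C) := by gcongr
  · intro m hm m' hm' hne
    obtain ⟨i, hi, rfl⟩ := mem_image.1 hm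
    obtain ⟨i', hi', rfl⟩ := mem_image.1 hm'
    rcases Nat.lt_trichotomy i i' with h | h | h
    · left
      have : (i + 1) * U ≤ i' * U := Nat.mul_le_mul_right _ h
      rw [add_mul, one_mul] at this
      omega
    · exact absurd (by rw [h]) hne
    · right
      have : (i' + 1) * U ≤ i * U := Nat.mul_le_mul_right _ h
      rw [add_mul, one_mul] at this
      omega
  · intro m hm
    obtain ⟨i, hi, rfl⟩ := mem_image.1 hm
    exact (mem_filter.1 hi).2

end Pool.Agent.H532.RM
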