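import Mathlib
import Pool.Agent.H532.RM.AP5
import Pool.Agent.H532.RM.Facts

/-!
Arithmetic progressions: the exact threshold.
-/

namespace Pool.Agent.H532.RM

open Finset MeasureTheory Function ProbabilityTheory Filter
open scoped ENNReal Topology

/-- The fundamental lemma: long progressions. -/
theorem rpq_to_one (δ : ℝ) (hδ : 0 < δ) : ∃ K : ℕ, ∀ᶠ ζ : ℕ in atTop, ∀ q U : ℕ, ζ ^ K ≤ U →
    |rpq q U ζ - 1| ≤ δ ∧ |rmq q U ζ - 1| ≤ δ := by
  obtain ⟨C, hC, hf⟩ := fund 1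
  obtain ⟨b0, hb0⟩ : ∃ b : ℕ, (1 / 2 : ℝ) ^ b < δ := exists_pow_lt_of_lt_one hδ (by norm_num)
  set b := max C b0 with hb
  obtain ⟨U0, h0⟩ := hf b (le_max_left _ _)
  have hb1 : 1 ≤ b := hC.trans (le_max_left _ _)
  have hCb : 1 ≤ C * b := Nat.mul_pos hC hb1
  refine ⟨C * b, ?_⟩
  filter_upwards [eventually_ge_atTop (max U0 2)] with ζ hζ q U hU
  have hζ0 : U0 ≤ ζ := (le_max_left _ _).trans hζ
  have hζ2 : 2 ≤ ζ := (le_max_right _ _).trans hζ
  have hζU : ζ ≤ U := (Nat.le_self_pow (by omega) ζ).trans hU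
  have hq : (1 / 2 : ℝ) ^ b ≤ δ :=
    (pow_le_pow_of_le_one (by norm_num) (by norm_num) (le_max_right _ _)).trans hb0.le
  have hVζ := Vq_pos q ζ
  have hUr : (0 : ℝ) < U := by exact_mod_cast (by omega : 0 < U)
  have key : ∀ m : ℕ, |(Tc (fun _ => 0) q ζ m U : ℝ) - U * Vq q ζ| ≤ δ * (U * Vq q ζ) := by
    intro m
    have h1 := h0 U (by omega) {0} (card_singleton 0) (fun _ => 0) (Qs q ζ) (fun p hp => by
      have hp' := (mem_Qs.1 hp).1
      refine ⟨hp'.2, ?_, by rw [nuD_zero]; exact hp'.2.one_lt⟩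
      have b1 : (p : ℝ) ≤ ζ := by exact_mod_cast hp'.1
      refine b1.trans ?_
      have h4 : ((ζ : ℝ) ^ (C * b)) ≤ U := by exact_mod_cast hU
      have h5 : ((ζ : ℝ) ^ (C * b)) ^ (1 / ((C : ℝ) * b)) ≤ (U : ℝ) ^ (1 / ((C : ℝ) * b)) :=
        Real.rpow_le_rpow (by positivity) h4 (by positivity)
      have h6 : ((ζ : ℝ) ^ (C * b)) ^ (1 / ((C : ℝ) * b)) = ζ := by
        rw [one_div, ← Nat.cast_mul]
        exact Real.pow_rpow_inv_natCast (by positivity) (by omega)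
      rw [h6] at h5
      exact h5) m
    rw [VDQ_zero'] at h1
    refine h1.trans ?_
    have e3 : ∏ p ∈ Qs q ζ, (1 - 1 / (p : ℝ)) = Vq q ζ := rfl
    rw [e3]
    gcongr
  constructor
  · obtain ⟨m, hm⟩ := exists_smaxq q U ζ
    have h1 := key m
    rw [hm] at h1
    have e : rpq q U ζ - 1 = ((smaxq q U ζ : ℝ) - U * Vq q ζ) / (U * Vq q ζ) := by
      unfold rpq; field_simp
    rw [e, abs_div, abs_of_pos (by positivity : (0 : ℝ) < U * Vq q ζ), div_le_iff₀ (by positivity)]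
    exact h1
  · obtain ⟨m, hm⟩ := exists_sminq q U ζ
    have h1 := key m
    rw [hm] at h1
    have e : rmq q U ζ - 1 = ((sminq q U ζ : ℝ) - U * Vq q ζ) / (U * Vq q ζ) := by
      unfold rmq; field_simp
    rw [e, abs_div, abs_of_pos (by positivity : (0 : ℝ) < U * Vq q ζ), div_le_iff₀ (by positivity)]
    exact h1

lemma Qs_eq {q ζ : ℕ} (h : ∀ p ≤ ζ, p.Prime → ¬ p ∣ q) : Qs q ζ = primesLe ζ := by
  ext p
  rw [mem_Qs, mem_primesLe]
  exact ⟨fun h1 => h1.1, fun h1 => ⟨h1, h p h1.1 h1.2⟩⟩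

lemma rpq_eq {q ζ : ℕ} (h : ∀ p ≤ ζ, p.Prime → ¬ p ∣ q) (U : ℕ) :
    rpq q U ζ = rp U ζ ∧ rmq q U ζ = rm U ζ := by
  have h1 := Qs_eq h
  unfold rpq rp rmq rm smaxq smax sminq smin Tc T1 Vq V
  rw [h1]
  exact ⟨rfl, rfl⟩

/-- the number of elements of `R` in a progression, between `x` and `2 x` -/
noncomputable def PC (R : Set ℕ) (x : ℝ) (q b : ℕ) : ℕ :=
  {n : ℕ | n ∈ R ∧ x < n ∧ (n : ℝ) ≤ 2 * x ∧ n ≡ b [MOD q]}.ncard

lemma PC_eq (R : Set ℕ) (x : ℝ) (q b : ℕ) (hq : 1 ≤ q) (hx : (q : ℝ) ≤ x) : ∃ n U : ℕ,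
    n ≡ b [MOD q] ∧ (n : ℝ) ≤ x ∧ x < n + q ∧ PC R x q b = cq R q n U ∧
    (q : ℝ) * U ≤ 2 * x - n ∧ 2 * x - n < q * U + q := by
  have hx0 : 0 ≤ x := le_trans (Nat.cast_nonneg q) hx
  set f := ⌊x⌋₊ with hf
  have hqf : q ≤ f := Nat.le_floor hx
  have hf1 : (f : ℝ) ≤ x := Nat.floor_le hx0
  have hf2 : x < f + 1 := Nat.lt_floor_add_one x
  set s := (f + q - b % q) % q with hs
  have hsq : s < q := Nat.mod_lt _ hq
  have hbq : b % q < q := Nat.mod_lt _ hq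
  set n := f - s with hn
  have hnb : n ≡ b [MOD q] := by
    have h1 : n + s ≡ f [MOD q] := by
      have : n + s = f := by omega
      rw [this]
    have h2 : s ≡ f + q - b % q [MOD q] := Nat.mod_modEq _ _
    have h3 : s + b % q ≡ f + q - b % q + b % q [MOD q] := h2.add_right _
    have h4 : f + q - b % q + b % q = f + q := by omega
    rw [h4] at h3
    have h5 : s + b % q ≡ f [MOD q] := h3.trans (by simp [Nat.ModEq])
    have h6 : n + s ≡ b % q + s [MOD q] := by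
      rw [add_comm (b % q) s]
      exact h1.trans h5.symm
    exact (Nat.ModEq.add_right_cancel' s h6).trans (Nat.mod_modEq b q)
  have hnf : n ≤ f := Nat.sub_le _ _
  have hnx : (n : ℝ) ≤ x := le_trans (by exact_mod_cast hnf) hf1
  have hnq : x < n + q := by
    have h1 : f + 1 ≤ n + q := by omega
    have h2 : ((f : ℝ) + 1) ≤ n + q := by exact_mod_cast h1
    linarith
  set g := ⌊2 * x⌋₊ with hg
  have hg1 : (g : ℝ) ≤ 2 * x := Nat.floor_le (by linarith)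
  have hg2 : 2 * x < g + 1 := Nat.lt_floor_add_one _
  have hng : n ≤ g := by
    refine Nat.le_floor ?_
    linarith
  set U := (g - n) / q with hU
  have hU1 : q * U ≤ g - n := Nat.mul_div_le _ _
  have hU2 : g - n < q * U + q := by
    have := Nat.lt_div_mul_add hq (a := g - n)
    rw [mul_comm]; exact this
  refine ⟨n, U, hnb, hnx, hnq, ?_, ?_, ?_⟩
  · unfold PC cq
    refine (Set.ncard_congr (fun i _ => n + q * i) ?_ ?_ ?_).symm
    · rintro i ⟨h1, h2, h3⟩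
      refine ⟨h3, ?_, ?_, ?_⟩
      · have : n + q ≤ n + q * i := by
          have : q * 1 ≤ q * i := Nat.mul_le_mul_left _ h1
          omega
        have h4 : ((n + q : ℕ) : ℝ) ≤ ((n + q * i : ℕ) : ℝ) := by exact_mod_cast this
        push_cast at h4 ⊢
        linarith
      · have : n + q * i ≤ g := by
          have : q * i ≤ q * U := Nat.mul_le_mul_left _ h2
          omega
        have h4 : ((n + q * i : ℕ) : ℝ) ≤ g := by exact_mod_cast this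
        exact h4.trans hg1
      · have : n + q * i ≡ n [MOD q] := by simp [Nat.ModEq]
        exact this.trans hnb
    · intro i i' _ _ h
      have h1 : n + q * i = n + q * i' := h
      have h2 : q * i = q * i' := by omega
      exact Nat.eq_of_mul_eq_mul_left hq h2
    · rintro k ⟨h1, h2, h3, h4⟩
      have hnk : n < k := by
        have : (n : ℝ) < k := by linarith
        exact_mod_cast this
      have h5 : n ≡ k [MOD q] := hnb.trans h4.symm
      obtain ⟨i, hi⟩ := (Nat.modEq_iff_dvd' hnk.le).1 h5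
      refine ⟨i, ⟨?_, ?_, ?_⟩, ?_⟩
      · rcases Nat.eq_zero_or_pos i with h0 | h0
        · rw [h0, mul_zero] at hi; omega
        · exact h0
      · rw [hU, Nat.le_div_iff_mul_le hq]
        have hkg : k ≤ g := Nat.le_floor h3
        rw [mul_comm]; omega
      · have : n + q * i = k := by omega
        rw [this]; exact h1
      · show n + q * i = k
        omega
  · have h1 : ((q * U : ℕ) : ℝ) ≤ ((g - n : ℕ) : ℝ) := by exact_mod_cast hU1
    rw [Nat.cast_sub hng] at h1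
    push_cast at h1
    linarith
  · have h1 : g + 1 ≤ n + (q * U + q) := by omega
    have h2 : ((g : ℝ) + 1) ≤ n + (q * U + q) := by exact_mod_cast h1
    linarith

lemma Adm'_congr {a : ℕ → ℕ} {q n b : ℕ} (h : n ≡ b [MOD q]) (hb : Adm' a q b) : Adm' a q n :=
  fun p hp hpq h1 => hb p hp hpq ((h.of_dvd hpq).symm.trans h1)

theorem ap_upper {Ω : Type} [MeasurableSpace Ω] (μ : Measure Ω) [IsProbabilityMeasure μ]
    (A : ℕ → Ω → ℕ) (hA : RandomClasses μ A) (z : ℕ → ℕ) (hzm : Monotone z)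
    (hz : Tendsto (fun n : ℕ => V (z n) * Real.log n) atTop (𝓝 1)) :
    ∀ k : ℕ, ∃ K : ℕ, ∀ᵐ ω ∂μ, ∀ᶠ X : ℝ in atTop, ∀ q U : ℕ, 1 ≤ q →
      Real.log X ^ K ≤ U → (q : ℝ) * U ≤ 4 * X → ∀ n : ℕ, X ≤ n → (n : ℝ) ≤ 2 * X →
      Adm' (fun p => A p ω) q n →
        |Fq (RB z (fun p => A p ω)) X q n U - 1| ≤ 1 / ((k : ℝ) + 1) := by
  intro k
  have hk : 0 < 1 / (2 * ((k : ℝ) + 1)) := by positivity
  obtain ⟨Λ, hΛ1, hΛ⟩ := apMain (1 / (2 * ((k : ℝ) + 1))) hk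
  obtain ⟨K, hK⟩ := rpq_to_one (1 / (2 * ((k : ℝ) + 1))) hk
  refine ⟨max K 3, ?_⟩
  filter_upwards [hΛ μ A hA z hzm hz] with ω hω
  have t1 : Tendsto (fun X : ℝ => ⌊Real.log X⌋₊) atTop atTop :=
    tendsto_nat_floor_atTop.comp Real.tendsto_log_atTop
  filter_upwards [hω, t1.eventually hK, Real.tendsto_log_atTop.eventually_ge_atTop (max Λ 1)]
    with X h1 h2 h3 q U hq hU hqU n hn1 hn2 hadm
  have hlΛ : Λ ≤ Real.log X := (le_max_left _ _).trans h3
  have hl1 : 1 ≤ Real.log X := (le_max_right _ _).trans h3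
  have hU1 : Λ * Real.log X ^ 2 ≤ U := by
    refine le_trans ?_ hU
    calc Λ * Real.log X ^ 2 ≤ Real.log X * Real.log X ^ 2 := by gcongr
      _ = Real.log X ^ 3 := by ring
      _ ≤ Real.log X ^ max K 3 := pow_le_pow_right₀ hl1 (le_max_right _ _)
  have hU2 : ⌊Real.log X⌋₊ ^ K ≤ U := by
    have h4 : ((⌊Real.log X⌋₊ ^ K : ℕ) : ℝ) ≤ U := by
      push_cast
      calc (⌊Real.log X⌋₊ : ℝ) ^ K ≤ Real.log X ^ K := by
            gcongr
            exact Nat.floor_le (by linarith)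
        _ ≤ Real.log X ^ max K 3 := pow_le_pow_right₀ hl1 (le_max_left _ _)
        _ ≤ U := hU
    exact_mod_cast h4
  obtain ⟨k1, k2⟩ := (h1 q U hq hU1 hqU).1 n hn1 hn2 hadm
  obtain ⟨k3, k4⟩ := h2 q U hU2
  have k5 := abs_le.1 k3
  have k6 := abs_le.1 k4
  have e : 1 / ((k : ℝ) + 1) = 1 / (2 * ((k : ℝ) + 1)) + 1 / (2 * ((k : ℝ) + 1)) := by
    field_simp; norm_num
  rw [e, abs_le]
  constructor <;> linarith

theorem ap_lower {Ω : Type} [MeasurableSpace Ω] (μ : Measure Ω) [IsProbabilityMeasure μ]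
    (A : ℕ → Ω → ℕ) (hA : RandomClasses μ A) (z : ℕ → ℕ) (hzm : Monotone z)
    (hz : Tendsto (fun n : ℕ => V (z n) * Real.log n) atTop (𝓝 1)) :
    ∀ k : ℕ, ∃ Λ : ℝ, 1 ≤ Λ ∧ ∀ᵐ ω ∂μ, ∀ᶠ X : ℝ in atTop, ∀ q U : ℕ, 1 ≤ q →
      Λ * Real.log X ^ 2 ≤ U → (q : ℝ) * U ≤ 4 * X → ∀ x : ℝ, X ≤ x → x ≤ 2 * X →
      ∃ n : ℕ, x ≤ n ∧ (n : ℝ) ≤ x + X ^ (1 / 2 : ℝ) ∧ Adm' (fun p => A p ω) q n ∧
        rpq q U ⌊Real.log X⌋₊ - 1 / ((k : ℝ) + 1) ≤ Fq (RB z (fun p => A p ω)) X q n U := by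
  intro k
  have hk : 0 < min (1 / 2 : ℝ) (1 / ((k : ℝ) + 1)) := lt_min (by norm_num) (by positivity)
  obtain ⟨Λ, hΛ1, hΛ⟩ := apMain (min (1 / 2 : ℝ) (1 / ((k : ℝ) + 1))) hk
  refine ⟨Λ, hΛ1, ?_⟩
  filter_upwards [hΛ μ A hA z hzm hz] with ω hω
  filter_upwards [hω, eventually_ge_atTop 1] with X h1 hX1 q U hq hU hqU x hx1 hx2
  obtain ⟨n, h2, h3, h4, h5⟩ := ((h1 q U hq hU hqU).2 x hx1 hx2).1
  refine ⟨n, h2, h3.trans ?_, h4, le_trans ?_ h5⟩
  · have := Real.rpow_le_rpow_of_exponent_le hX1 (min_le_left (1 / 2 : ℝ) (1 / ((k : ℝ) + 1)))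
    linarith
  · have := min_le_right (1 / 2 : ℝ) (1 / ((k : ℝ) + 1))
    linarith

end Pool.Agent.H532.RM
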