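import Mathlib
import Pool.Agent.H532.RM.AP6

/-!
Arithmetic progressions: the exact threshold, deterministic part.
-/

namespace Pool.Agent.H532.RM

open Finset MeasureTheory Function ProbabilityTheory Filter
open scoped ENNReal Topology

lemma num1 {x : ℝ} (hx : 2 ≤ x) : x ≤ x ^ 3 := by
  have h1 : (1 : ℝ) ≤ x ^ 2 := by nlinarith
  nlinarith

lemma num2 {Λ L U : ℝ} (h1 : 1 ≤ Λ) (h2 : 2 ≤ L) (h3 : Λ * L ^ 2 ≤ U) : 1 ≤ U := by
  have h4 : (1 : ℝ) ≤ L ^ 2 := by nlinarith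
  nlinarith

lemma num3 {r x : ℝ} (hr : 16 ≤ r) (h : r * r * (r * r) = x) : 2 * (r * r) ≤ x ∧ r ≤ r * r := by
  have h3 : (16 : ℝ) ≤ r * r := by nlinarith
  constructor
  · rw [← h]; gcongr; linarith
  · nlinarith

lemma num4 {r Y q : ℝ} (hr : 16 ≤ r) (h : 16 * (r * r) ≤ Y) (hq : Y / 4 ≤ q) :
    r * r < q ∧ 16 ≤ Y ∧ r < q := by
  have h3 : (16 : ℝ) ≤ r * r := by nlinarith
  have h4 : r ≤ r * r := by nlinarith
  refine ⟨by linarith, by linarith, by linarith⟩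

lemma num5 {q H x c U : ℝ} (hc : 0 < c) (hq : 0 < q) (h1 : q * H ≤ x) (h2 : 8 / c ≤ H)
    (h3 : x < (U + 1) * q) : (1 - c / 8) * x ≤ U * q := by
  have h4 : q * (8 / c) ≤ x := (mul_le_mul_of_nonneg_left h2 hq.le).trans h1
  have h5 : q ≤ c / 8 * x := by
    have e : q = (q * (8 / c)) * (c / 8) := by field_simp
    calc q = (q * (8 / c)) * (c / 8) := e
      _ ≤ x * (c / 8) := by gcongr
      _ = c / 8 * x := by ring
  have h6 : (U + 1) * q = U * q + q := by ring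
  rw [h6] at h3
  linarith

lemma num6 {F P c : ℝ} (hc : 0 < c) (hc1 : c < 1) (h1 : 1 + 3 / 4 * c ≤ F)
    (h2 : F * (1 - c / 8) ≤ P) (h3 : P - 1 ≤ c / 8) : False := by
  have h4 : (1 + 3 / 4 * c) * (1 - c / 8) ≤ F * (1 - c / 8) := by
    have : 0 ≤ 1 - c / 8 := by linarith
    gcongr
  nlinarith

lemma num7 {L N T : ℝ} {lh : ℝ} (hL : 0 < L) (h : lh < N * L) (hN : N ≤ T) : lh ≤ T * L := by
  nlinarith

lemma num8 {LX Lx H Λ U l2 : ℝ} (hLX : 2 ≤ LX) (h4 : LX + l2 = Lx) (h5 : 0.6931471803 < l2)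
    (hΛ : Λ ≤ LX) (hH : Lx ^ 3 ≤ H) (hU : H < U + 1) : Λ * LX ^ 2 ≤ U := by
  have h7 : LX + 0.69 ≤ Lx := by linarith
  have h8 : (LX + 0.69) ^ 3 ≤ Lx ^ 3 := by gcongr
  have h9 : LX ^ 3 + 1 ≤ (LX + 0.69) ^ 3 := by nlinarith
  have h10 : Λ * LX ^ 2 ≤ LX ^ 3 := by
    calc Λ * LX ^ 2 ≤ LX * LX ^ 2 := by gcongr
      _ = LX ^ 3 := by ring
  linarith

theorem ap_only_if (R : Set ℕ) (a : ℕ → ℕ) (Λ : ℕ → ℝ) (hΛ1 : ∀ k, 1 ≤ Λ k) (hω2 : ∀ k : ℕ, ∀ᶠ X : ℝ in atTop, ∀ q U : ℕ, 1 ≤ q →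
      Λ k * Real.log X ^ 2 ≤ U → (q : ℝ) * U ≤ 4 * X → ∀ x : ℝ, X ≤ x → x ≤ 2 * X →
      ∃ n : ℕ, x ≤ n ∧ (n : ℝ) ≤ x + X ^ (1 / 2 : ℝ) ∧ Adm' a q n ∧
        rpq q U ⌊Real.log X⌋₊ - 1 / ((k : ℝ) + 1) ≤ Fq R X q n U)
    (h : ℝ → ℝ) (hpos : ∀ x, 0 < h x)
    (hL : ∀ δ : ℝ, 0 < δ → ∀ᶠ x : ℝ in atTop, ∀ q : ℕ, 1 ≤ q → (q : ℝ) * h x ≤ x →
        ∀ b : ℕ, Adm' a q b →
        |(PC R x q b : ℝ) * (Real.log x * Nat.totient q) / x - 1| ≤ δ) :
    Tendsto (fun x : ℝ => Real.log (h x) / Real.log (Real.log x)) atTop atTop := by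
  have hloglog : Tendsto (fun x : ℝ => Real.log (Real.log x)) atTop atTop :=
    Real.tendsto_log_atTop.comp Real.tendsto_log_atTop
  have t1 : Tendsto (fun x0 : ℝ => x0 / 2) atTop atTop :=
    tendsto_id.atTop_div_const (by norm_num)
  by_contra hnot
  rw [tendsto_atTop] at hnot
  push Not at hnot
  obtain ⟨b, hb⟩ := hnot
  set N : ℝ := max b 3 with hN
  have hN3 : 3 ≤ N := le_max_right _ _
  obtain ⟨c, hc0, hc1, hc⟩ := maier (N + 1)
  obtain ⟨k, hk⟩ := exists_nat_one_div_lt (show 0 < c / 4 by linarith)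
  have t2 : Tendsto (fun x0 : ℝ => ⌊Real.log (x0 / 2)⌋₊) atTop atTop :=
    (tendsto_nat_floor_atTop.comp Real.tendsto_log_atTop).comp t1
  have e1 := t1.eventually (hω2 k)
  have e2 := t2.eventually hc
  have e3 := hL (c / 8) (by linarith)
  have e4 : ∀ᶠ x0 : ℝ in atTop, 16 * Real.log x0 ^ N ≤ x0 ^ (1 / 4 : ℝ) := by
    have h1 := (isLittleO_log_rpow_rpow_atTop N (show (0 : ℝ) < 1 / 4 by norm_num)).bound
      (show (0 : ℝ) < 1 / 16 by norm_num)
    filter_upwards [h1, eventually_ge_atTop 1] with x hx hx1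
    rw [Real.norm_eq_abs, Real.norm_eq_abs, abs_of_nonneg (by positivity : 0 ≤ x ^ (1 / 4 : ℝ))]
      at hx
    have := le_abs_self (Real.log x ^ N)
    linarith
  have e5 : ∀ᶠ x0 : ℝ in atTop, max (Λ k) 2 ≤ Real.log (x0 / 2) :=
    (Real.tendsto_log_atTop.comp t1).eventually_ge_atTop _
  have e6 : ∀ᶠ x0 : ℝ in atTop, (8 : ℝ) * 2 ^ N ≤ ⌊Real.log (x0 / 2)⌋₊ :=
    (tendsto_natCast_atTop_atTop.comp t2).eventually_ge_atTop _
  have e7 := hloglog.eventually_gt_atTop 0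
  have e8 : ∀ᶠ x0 : ℝ in atTop, 8 / c ≤ Real.log x0 :=
    Real.tendsto_log_atTop.eventually_ge_atTop _
  have e9 : ∀ᶠ x0 : ℝ in atTop, 16 ≤ x0 ^ (1 / 4 : ℝ) :=
    (tendsto_rpow_atTop (by norm_num)).eventually_ge_atTop 16
  have hall := (((((((e1.and e2).and e3).and e4).and e5).and e6).and e7).and
    (eventually_ge_atTop (4 : ℝ))).and (e8.and e9)
  obtain ⟨x0, hx0, hx0'⟩ := (hb.and_eventually hall).exists
  obtain ⟨⟨⟨⟨⟨⟨⟨⟨a1, a2⟩, a3⟩, a4⟩, a5⟩, a6⟩, a7⟩, a8⟩, a9, a10⟩ := hx0'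
  set X : ℝ := x0 / 2 with hX
  have hX2 : 2 * X = x0 := by rw [hX]; ring
  have hXp : 0 < X := by linarith
  have hx00 : 0 < x0 := by linarith
  have hΛX : Λ k ≤ Real.log X := (le_max_left _ _).trans a5
  have h2X : 2 ≤ Real.log X := (le_max_right _ _).trans a5
  have hlogle : Real.log X ≤ Real.log x0 := Real.log_le_log hXp (by linarith)
  have hlogx0 : 2 ≤ Real.log x0 := by linarith
  set H : ℝ := Real.log x0 ^ N with hH
  have hHp : 0 < H := by positivity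
  have hH3 : Real.log x0 ^ 3 ≤ H := by
    calc Real.log x0 ^ 3 = Real.log x0 ^ (3 : ℝ) := by norm_cast
      _ ≤ H := Real.rpow_le_rpow_of_exponent_le (by linarith) hN3
  have hlh : Real.log (h x0) ≤ N * Real.log (Real.log x0) := by
    rw [div_lt_iff₀ a7] at hx0
    exact num7 a7 hx0 (le_max_left _ _)
  have hhx0 : h x0 ≤ H := by
    rw [hH, ← Real.log_le_log_iff (hpos x0) (by positivity),
      Real.log_rpow (by linarith)]
    exact hlh
  -- the prime modulus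
  set r4 : ℝ := x0 ^ (1 / 4 : ℝ) with hr4
  have hr44 : r4 * r4 * (r4 * r4) = x0 := by
    rw [hr4, ← Real.rpow_add hx00, ← Real.rpow_add hx00]; norm_num
  have hr42 : r4 * r4 = x0 ^ (1 / 2 : ℝ) := by
    rw [hr4, ← Real.rpow_add hx00]; norm_num
  set Y : ℝ := x0 / H with hY
  have hYbig : 16 * (r4 * r4) ≤ Y := by
    rw [hY, le_div_iff₀ hHp]
    have h3 : (0 : ℝ) ≤ r4 * r4 := by positivity
    calc 16 * (r4 * r4) * H = (r4 * r4) * (16 * H) := by ring
      _ ≤ (r4 * r4) * r4 := by gcongr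
      _ ≤ (r4 * r4) * (r4 * r4) := by
          gcongr
          exact (num3 a10 hr44).2
      _ = x0 := hr44
  have hY16 : 16 ≤ Y := (num4 a10 hYbig le_rfl).2.1
  set m0 := ⌊Y / 2⌋₊ with hm0
  have hm01 : (m0 : ℝ) ≤ Y / 2 := Nat.floor_le (by linarith)
  have hm02 : Y / 2 < m0 + 1 := Nat.lt_floor_add_one _
  have hm0' : m0 ≠ 0 := by
    intro h0
    rw [h0, Nat.cast_zero] at hm02
    linarith
  obtain ⟨q, hqp, hq1, hq2⟩ := Nat.exists_prime_lt_and_le_two_mul m0 hm0'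
  have hqY : (q : ℝ) ≤ Y := by
    have : (q : ℝ) ≤ 2 * m0 := by exact_mod_cast hq2
    linarith
  have hqY2 : Y / 4 ≤ q := by
    have : ((m0 : ℝ) + 1) ≤ q := by exact_mod_cast hq1
    linarith
  have hq0 : (0 : ℝ) < q := by exact_mod_cast hqp.pos
  have hq1' : 1 ≤ q := hqp.one_lt.le
  have hqx0 : (q : ℝ) * h x0 ≤ x0 := by
    calc (q : ℝ) * h x0 ≤ Y * H := by gcongr; exact (hpos x0).le
      _ = x0 := by rw [hY]; field_simp
  set U := ⌊x0 / q⌋₊ with hU
  have hU1 : (U : ℝ) ≤ x0 / q := Nat.floor_le (by positivity)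
  have hU2 : x0 / q < U + 1 := Nat.lt_floor_add_one _
  have hxq1 : H ≤ x0 / q := by
    rw [le_div_iff₀ hq0]
    calc H * q ≤ H * Y := by gcongr
      _ = x0 := by rw [hY]; field_simp
  have hxq2 : x0 / q ≤ 4 * H := by
    rw [div_le_iff₀ hq0]
    calc x0 = H * Y := by rw [hY]; field_simp
      _ ≤ H * (4 * q) := by gcongr; linarith
      _ = 4 * H * q := by ring
  have hUlow : Λ k * Real.log X ^ 2 ≤ U := by
    have h4 : Real.log X + Real.log 2 = Real.log x0 := by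
      rw [← hX2, Real.log_mul (by norm_num) hXp.ne']; ring
    exact num8 h2X h4 Real.log_two_gt_d9 hΛX hH3 (lt_of_le_of_lt hxq1 hU2)
  have hqU : (q : ℝ) * U ≤ x0 := by
    rw [le_div_iff₀ hq0] at hU1
    linarith
  have hUpos : (1 : ℝ) ≤ U := by
    exact num2 (hΛ1 k) h2X hUlow
  -- the admissible progression
  have hXr : X ^ (1 / 2 : ℝ) ≤ r4 * r4 := by
    rw [hr42]
    exact Real.rpow_le_rpow hXp.le (by linarith) (by norm_num)
  have hr4x : r4 * r4 ≤ X := by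
    have h4 := (num3 a10 hr44).1
    linarith
  obtain ⟨n, hn1, hn2, hadm, hn3⟩ := a1 q U hq1' hUlow (by linarith) (x0 - r4 * r4)
    (by linarith) (by linarith [show (0 : ℝ) ≤ r4 * r4 by positivity])
  have hnx0 : (n : ℝ) ≤ x0 := by linarith
  have hnq : x0 < n + q := by
    have : r4 * r4 < q := (num4 a10 hYbig hqY2).1
    linarith
  have hζ2 : (2 : ℝ) ≤ ⌊Real.log X⌋₊ := by
    have : (2 : ℕ) ≤ ⌊Real.log X⌋₊ := Nat.le_floor (by exact_mod_cast h2X)
    exact_mod_cast this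
  have hζ : 1 + c ≤ rp U ⌊Real.log X⌋₊ := by
    refine (a2 U (by exact_mod_cast hUpos) ?_).1
    set ζ := ⌊Real.log X⌋₊ with hζdef
    have h3 : Real.log X < ζ + 1 := Nat.lt_floor_add_one _
    have h4 : Real.log x0 ≤ 2 * ζ := by
      have h5 : Real.log x0 = Real.log X + Real.log 2 := by
        rw [← hX2, Real.log_mul (by norm_num) hXp.ne']; ring
      have h6 := Real.log_two_lt_d9
      linarith
    have hζ0 : (0 : ℝ) < ζ := by linarith
    calc (U : ℝ) ≤ 4 * H := hU1.trans hxq2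
      _ = 4 * Real.log x0 ^ N := rfl
      _ ≤ 4 * (2 * (ζ : ℝ)) ^ N := by gcongr
      _ = 4 * 2 ^ N * (ζ : ℝ) ^ N := by rw [Real.mul_rpow (by norm_num) hζ0.le]; ring
      _ ≤ ζ * (ζ : ℝ) ^ N := by
          gcongr
          have : (0 : ℝ) < 2 ^ N := by positivity
          linarith
      _ = (ζ : ℝ) ^ (N + 1) := by rw [Real.rpow_add hζ0, Real.rpow_one]; ring
  have hrpq : rpq q U ⌊Real.log X⌋₊ = rp U ⌊Real.log X⌋₊ := by
    refine (rpq_eq (fun p hp hpp hpq => ?_) U).1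
    have h3 : p = q := (Nat.prime_dvd_prime_iff_eq hpp hqp).1 hpq
    have h4 : (p : ℝ) ≤ Real.log X := le_trans (by exact_mod_cast hp) (Nat.floor_le (by linarith))
    rw [h3] at h4
    have h5 : Real.log X ≤ r4 := by
      have h6 : Real.log x0 ≤ H := (num1 hlogx0).trans hH3
      linarith
    have := (num4 a10 hYbig hqY2).2.2
    linarith
  rw [hrpq] at hn3
  -- compare with `PC`
  have hPC : (cq R q n U : ℝ) ≤ PC R x0 q n := by
    have : cq R q n U ≤ PC R x0 q n := by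
      unfold cq PC
      refine Set.ncard_le_ncard_of_injOn (fun i => n + q * i) ?_ ?_ ?_
      · rintro i ⟨h1, h2, h3⟩
        refine ⟨h3, ?_, ?_, by simp [Nat.ModEq]⟩
        · have : n + q ≤ n + q * i := by
            have : q * 1 ≤ q * i := Nat.mul_le_mul_left _ h1
            omega
          have h4 : ((n + q : ℕ) : ℝ) ≤ ((n + q * i : ℕ) : ℝ) := by exact_mod_cast this
          push_cast at h4 ⊢
          linarith
        · have h4 : (i : ℝ) ≤ U := by exact_mod_cast h2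
          have h5 : (q : ℝ) * i ≤ q * U := by gcongr
          push_cast
          linarith
      · intro i _ i' _ h
        have h1 : n + q * i = n + q * i' := h
        have h2 : q * i = q * i' := by omega
        exact Nat.eq_of_mul_eq_mul_left hq1' h2
      · refine (Set.finite_Iic ⌊2 * x0⌋₊).subset ?_
        rintro k ⟨_, _, h3, _⟩
        exact Nat.le_floor h3
    exact_mod_cast this
  have h10 := a3 q hq1' hqx0 n hadm
  have h11 := (abs_le.1 h10).2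
  have htot : (0 : ℝ) ≤ Nat.totient q := Nat.cast_nonneg _
  have h12 : Fq R X q n U * (1 - c / 8) ≤
      (PC R x0 q n : ℝ) * (Real.log x0 * Nat.totient q) / x0 := by
    have h13 : 1 - c / 8 ≤ U * q / x0 := by
      rw [le_div_iff₀ hx00]
      have h14 : x0 < (U + 1) * q := by rwa [div_lt_iff₀ hq0] at hU2
      have h16 : (q : ℝ) * H ≤ x0 := by
        calc (q : ℝ) * H ≤ Y * H := by gcongr
          _ = x0 := by rw [hY]; field_simp
      have h17 : 8 / c ≤ H := a9.trans ((num1 hlogx0).trans hH3)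
      exact num5 hc0 hq0 h16 h17 h14
    have h14 : 0 ≤ Fq R X q n U := by
      unfold Fq
      have : 0 ≤ Real.log X := by linarith
      positivity
    calc Fq R X q n U * (1 - c / 8) ≤
        Fq R X q n U * (U * q / x0) := by gcongr
      _ = (cq R q n U : ℝ) * (Real.log X * Nat.totient q) / x0 := by
          unfold Fq
          have : (U : ℝ) ≠ 0 := by linarith
          field_simp
      _ ≤ (PC R x0 q n : ℝ) * (Real.log x0 * Nat.totient q) / x0 := by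
          have : 0 ≤ Real.log X := by linarith
          gcongr
  have h15 : 1 + 3 / 4 * c ≤ Fq R X q n U := by linarith
  exact num6 hc0 hc1 h15 h12 h11

end Pool.Agent.H532.RM
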