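import Mathlib
import Pool.Agent.H532.RM.AP7

/-!
Arithmetic progressions: the exact threshold, deterministic part.
-/

namespace Pool.Agent.H532.RM

open Finset MeasureTheory Function ProbabilityTheory Filter
open scoped ENNReal Topology

theorem ap_if (R : Set ℕ) (a : ℕ → ℕ) (K : ℕ → ℕ) (hω1 : ∀ k : ℕ, ∀ᶠ X : ℝ in atTop, ∀ q U : ℕ, 1 ≤ q →
      Real.log X ^ K k ≤ U → (q : ℝ) * U ≤ 4 * X → ∀ n : ℕ, X ≤ n → (n : ℝ) ≤ 2 * X →
      Adm' a q n → |Fq R X q n U - 1| ≤ 1 / ((k : ℝ) + 1))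
    (h : ℝ → ℝ) (hpos : ∀ x, 0 < h x)
    (hT : Tendsto (fun x : ℝ => Real.log (h x) / Real.log (Real.log x)) atTop atTop) :
    ∀ δ : ℝ, 0 < δ → ∀ᶠ x : ℝ in atTop, ∀ q : ℕ, 1 ≤ q → (q : ℝ) * h x ≤ x →
        ∀ b : ℕ, Adm' a q b →
        |(PC R x q b : ℝ) * (Real.log x * Nat.totient q) / x - 1| ≤ δ := by
  have hloglog : Tendsto (fun x : ℝ => Real.log (Real.log x)) atTop atTop :=
    Real.tendsto_log_atTop.comp Real.tendsto_log_atTop
  have t1 : Tendsto (fun x0 : ℝ => x0 / 2) atTop atTop :=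
    tendsto_id.atTop_div_const (by norm_num)
  intro δ hδ
  obtain ⟨k, hk⟩ := exists_nat_one_div_lt (show 0 < δ / 4 by linarith)
  set η : ℝ := min (δ / 8) (1 / 8) with hη
  have hη0 : 0 < η := lt_min (by positivity) (by norm_num)
  have hη8 : η ≤ 1 / 8 := min_le_right _ _
  have hηδ : η ≤ δ / 8 := min_le_left _ _
  filter_upwards [t1.eventually (hω1 k), hT.eventually_ge_atTop ((K k : ℝ) + 1),
    hloglog.eventually_gt_atTop 0, Real.tendsto_log_atTop.eventually_ge_atTop (max (8 / η) 8),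
    eventually_ge_atTop 16] with x h1 h2 h3 h4 hx16 q hq hqh b hb
  set X : ℝ := x / 2 with hX
  have hX2 : 2 * X = x := by rw [hX]; ring
  have hx0 : 0 < x := by linarith
  have hXp : 0 < X := by linarith
  have hl8 : 8 / η ≤ Real.log x := (le_max_left _ _).trans h4
  have hl8' : 8 ≤ Real.log x := (le_max_right _ _).trans h4
  have hq0 : (0 : ℝ) < q := by exact_mod_cast hq
  have hhx : Real.log x ^ (K k + 1) ≤ h x := by
    rw [le_div_iff₀ h3] at h2
    rw [← Real.log_le_log_iff (by positivity) (hpos x), Real.log_pow]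
    push_cast
    exact h2
  have hhl : Real.log x ≤ h x := by
    refine le_trans ?_ hhx
    calc Real.log x = Real.log x ^ 1 := (pow_one _).symm
      _ ≤ Real.log x ^ (K k + 1) := pow_le_pow_right₀ (by linarith) (by omega)
  have hxq : h x ≤ x / q := by
    rw [le_div_iff₀ hq0]; linarith
  have hql : (q : ℝ) * Real.log x ≤ x := by
    calc (q : ℝ) * Real.log x ≤ q * h x := by gcongr
      _ ≤ x := hqh
  have hqη : (q : ℝ) ≤ η / 8 * x := by
    have : (q : ℝ) * (8 / η) ≤ x := by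
      calc (q : ℝ) * (8 / η) ≤ q * Real.log x := by gcongr
        _ ≤ x := hql
    have e : (q : ℝ) = (q * (8 / η)) * (η / 8) := by field_simp
    rw [e]
    nlinarith
  have hqx : (q : ℝ) ≤ x := by nlinarith
  obtain ⟨n, U, hnb, hn1, hn2, hPC, hU1, hU2⟩ := PC_eq R x q b hq hqx
  have hqX : (q : ℝ) ≤ X := by
    have : η / 8 * x ≤ 1 / 2 * x := mul_le_mul_of_nonneg_right (by linarith) hx0.le
    linarith
  have hUlow : x / q - 1 ≤ U := by
    rw [sub_le_iff_le_add, div_le_iff₀ hq0]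
    nlinarith
  have hlogX : Real.log X = Real.log x - Real.log 2 := by
    rw [hX, Real.log_div hx0.ne' (by norm_num)]
  have hl2a := Real.log_two_gt_d9
  have hl2b := Real.log_two_lt_d9
  have hlX0 : 0 < Real.log X := by linarith
  have hKU : Real.log X ^ (K k) ≤ U := by
    have h5 : Real.log X ^ (K k) ≤ Real.log x ^ (K k) := by gcongr; linarith
    have h6 : 1 ≤ Real.log x ^ (K k) := one_le_pow₀ (by linarith)
    have h7 : Real.log x ^ (K k) * 8 ≤ Real.log x ^ (K k + 1) := by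
      rw [pow_succ]; gcongr
    linarith
  have hFq := h1 q U hq hKU (by linarith) n (by linarith) (by linarith)
    (Adm'_congr hnb hb)
  have hU0 : (0 : ℝ) < U := by
    have : (1 : ℝ) ≤ Real.log X ^ (K k) := one_le_pow₀ (by linarith)
    linarith
  have htot : (0 : ℝ) ≤ Nat.totient q := Nat.cast_nonneg _
  -- the factor
  set g : ℝ := (U * q / x) * (Real.log x / Real.log X) with hg
  have e : (PC R x q b : ℝ) * (Real.log x * Nat.totient q) / x =
      Fq R X q n U * g := by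
    rw [hPC, hg]
    unfold Fq
    field_simp
  rw [e]
  have hg1 : |g - 1| ≤ η := by
    have b1 : 1 - η / 4 ≤ U * q / x := by
      rw [le_div_iff₀ hx0]
      nlinarith
    have b2 : U * q / x ≤ 1 + η / 4 := by
      rw [div_le_iff₀ hx0]
      nlinarith
    have b3 : 1 ≤ Real.log x / Real.log X := by
      rw [one_le_div hlX0]; linarith
    have b4 : Real.log x / Real.log X ≤ 1 + η / 4 := by
      rw [div_le_iff₀ hlX0]
      have : 1 ≤ η / 8 * Real.log x := by
        rw [div_le_iff₀ hη0] at hl8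
        linarith
      rw [hlogX]
      nlinarith
    have b0 : 0 ≤ 1 - η / 4 := by linarith
    rw [abs_le]
    constructor
    · have : (1 - η / 4) * 1 ≤ g := by
        rw [hg]; exact mul_le_mul b1 b3 (by norm_num) (b0.trans b1)
      linarith
    · have : g ≤ (1 + η / 4) * (1 + η / 4) := by
        rw [hg]; exact mul_le_mul b2 b4 (by linarith) (by linarith)
      nlinarith
  set F := Fq R X q n U with hF
  have hF1 := abs_le.1 (hFq.trans hk.le)
  have hk1 : 1 / ((k : ℝ) + 1) ≤ 1 := by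
    rw [div_le_one (by positivity)]
    have : (0 : ℝ) ≤ k := Nat.cast_nonneg k
    linarith
  have hF2 := abs_le.1 (hFq.trans hk1)
  have e2 : F * g - 1 = (F - 1) + F * (g - 1) := by ring
  rw [e2]
  refine (abs_add_le _ _).trans ?_
  rw [abs_mul]
  have hF0 : |F| ≤ 2 := by
    rw [abs_le]; constructor <;> linarith
  have : |F| * |g - 1| ≤ 2 * η := by gcongr
  have h20 := hFq.trans hk.le
  linarith

/-- **The exact threshold in progressions.** -/
theorem ap_threshold {Ω : Type} [MeasurableSpace Ω] (μ : Measure Ω) [IsProbabilityMeasure μ]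
    (A : ℕ → Ω → ℕ) (hA : RandomClasses μ A) (z : ℕ → ℕ) (hzm : Monotone z)
    (hz : Tendsto (fun n : ℕ => V (z n) * Real.log n) atTop (𝓝 1)) :
    ∀ᵐ ω ∂μ, ∀ h : ℝ → ℝ, (∀ x, 0 < h x) →
      ((∀ δ : ℝ, 0 < δ → ∀ᶠ x : ℝ in atTop, ∀ q : ℕ, 1 ≤ q → (q : ℝ) * h x ≤ x →
        ∀ b : ℕ, Adm' (fun p => A p ω) q b →
        |(PC (RB z (fun p => A p ω)) x q b : ℝ) * (Real.log x * Nat.totient q) / x - 1| ≤ δ) ↔
      Tendsto (fun x : ℝ => Real.log (h x) / Real.log (Real.log x)) atTop atTop) := by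
  choose K hK using ap_upper μ A hA z hzm hz
  choose Λ hΛ1 hΛ using ap_lower μ A hA z hzm hz
  have hK' := ae_all_iff.2 hK
  have hΛ' := ae_all_iff.2 hΛ
  filter_upwards [hK', hΛ'] with ω hω1 hω2 h hpos
  exact ⟨ap_only_if _ _ Λ hΛ1 hω2 h hpos, ap_if _ _ K hω1 h hpos⟩

end Pool.Agent.H532.RM
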