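import Mathlib
import Pool.Agent.H532.RM.Low

/-!
Below the critical scale: `log X ≪ H = o((log X) ^ 2)`, the maximal number of elements.
-/

namespace Pool.Agent.H532.RM

open Finset MeasureTheory Function ProbabilityTheory Filter
open scoped ENNReal Topology

lemma rate_mono_left {y K K' : ℝ} (hy : 0 < y) (h1 : y ≤ K) (h2 : K ≤ K') :
    rate K y ≤ rate K' y := by
  rcases (h1.trans h2).eq_or_lt with h3 | h3
  · have : K = K' := le_antisymm h2 (h3 ▸ h1)
    rw [this]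
  · set t := (K - y) / (K' - y) with ht
    have hd : 0 < K' - y := by linarith
    have ht0 : 0 ≤ t := div_nonneg (by linarith) hd.le
    have ht1 : t ≤ 1 := by rw [ht, div_le_one hd]; linarith
    have hK' : 0 ≤ K' := by linarith
    have h4 := rate_convex hK' hy.le ht0 ht1 (fun h => absurd h hy.ne')
    have e : (1 - t) * y + t * K' = K := by
      rw [ht]; field_simp; ring
    rw [e] at h4
    have := rate_nonneg' hK' hy
    nlinarith

lemma count_bounds {ε X H : ℝ} {j : ℕ} (hs : SC ε X H j) (z : ℕ → ℕ) (hz : Monotone z)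
    (a : ℕ → ℕ) (hHX : H ≤ X) (x : ℝ) (hx1 : X ≤ x) (hx2 : x ≤ 2 * X) :
    ⌊x⌋₊ < 2 ^ (j + 3) ∧ (⌊x + H⌋₊ - ⌊x⌋₊ = ⌊H⌋₊ ∨ ⌊x + H⌋₊ - ⌊x⌋₊ = ⌊H⌋₊ + 1) ∧
    (T1 a (z (2 ^ (j + 3))) ⌊x⌋₊ (⌊x + H⌋₊ - ⌊x⌋₊) : ℝ) ≤ count (RB z a) x H ∧
    (count (RB z a) x H : ℝ) ≤ T1 a (z (2 ^ j)) ⌊x⌋₊ (⌊x + H⌋₊ - ⌊x⌋₊) := by
  have hX0 := hs.X0
  have hx0 : 0 < x := by linarith
  have hH0 : 0 < H := by linarith [hs.H0]
  have hfw := floor_window x H hx0.le hH0.le
  have hj3 : (2 : ℝ) ^ (j + 3) = 4 * 2 ^ (j + 1) := by ring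
  have hx2' := hs.x2
  have hxlt : ⌊x⌋₊ < 2 ^ (j + 3) := by
    have h3 : (⌊x⌋₊ : ℝ) < 2 ^ (j + 3) := by
      have := Nat.floor_le hx0.le
      rw [hj3]
      have : (0 : ℝ) < 2 ^ (j + 1) := by positivity
      linarith
    exact_mod_cast h3
  set U' := ⌊x + H⌋₊ - ⌊x⌋₊ with hU'
  have hsum : ⌊x⌋₊ + U' ≤ 2 ^ (j + 3) := by
    have h3 : ⌊x⌋₊ + U' = ⌊x + H⌋₊ := by omega
    rw [h3]
    have h4 : (⌊x + H⌋₊ : ℝ) ≤ 2 ^ (j + 3) := by
      have := Nat.floor_le (show 0 ≤ x + H by linarith)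
      rw [hj3]
      have : (0 : ℝ) < 2 ^ (j + 1) := by positivity
      linarith
    exact_mod_cast h4
  have hlow : 2 ^ j ≤ ⌊x⌋₊ + 1 := by
    have h3 : 2 ^ j ≤ ⌊x⌋₊ := Nat.le_floor (by push_cast; linarith [hs.x1])
    omega
  have hcn1 := cn_le_T1 z hz a (2 ^ j) ⌊x⌋₊ U' hlow
  have hcn2 := T1_le_cn z hz a (2 ^ (j + 3)) ⌊x⌋₊ U' hsum
  refine ⟨hxlt, by omega, ?_, ?_⟩
  · rw [count_eq_cn _ x H hx0.le hH0.le, ← hU']; exact hcn2
  · rw [count_eq_cn _ x H hx0.le hH0.le, ← hU']; exact hcn1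

/-- upper bound, numerical part -/
lemma lowA {c1 y y' ℓ LX L δ : ℝ} (hδ : 0 < δ) (hδ1 : δ ≤ 1 / 4) (hℓ : 1 ≤ ℓ) (hLX : 0 < LX)
    (hL : L ≤ LX) (hy : 0 ≤ y) (hyy : y ≤ y') (hy0 : y = 0 → c1 = 0)
    (hy' : y' ≤ (1 + δ) * LX / ℓ)
    (hlog : (1 - δ / 4) * ℓ + 1 ≤ Real.log (((1 + δ) * LX / ℓ) / y'))
    (hstar : rate c1 y ≤ (1 + δ / 4) * L) : c1 ≤ (1 + δ) * LX / ℓ := by
  by_contra hcon
  have hc := not_le.1 hcon
  set b0 := (1 + δ) * LX / ℓ with hb0
  have hb00 : 0 < b0 := by rw [hb0]; positivity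
  have hc0 : 0 < c1 := hb00.trans hc
  have hy00 : 0 < y := by
    rcases hy.eq_or_lt with h | h
    · exact absurd (hy0 h.symm) hc0.ne'
    · exact h
  have hy'0 : 0 < y' := hy00.trans_le hyy
  have h1 := rate_anti_right hy00 hyy (hy'.trans hc.le)
  have h2 := rate_mono_left hy'0 hy' hc.le
  have h3 : (1 + δ / 2) * LX ≤ rate b0 y' := by
    unfold rate
    have h4 : b0 * ((1 - δ / 4) * ℓ + 1) ≤ b0 * Real.log (b0 / y') := by gcongr
    have h5 : b0 * ((1 - δ / 4) * ℓ + 1) = (1 + δ) * (1 - δ / 4) * LX + b0 := by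
      rw [hb0]; field_simp
    have h6 : (1 + δ / 2) * LX ≤ (1 + δ) * (1 - δ / 4) * LX := by
      gcongr
      nlinarith
    linarith
  have h7 : (1 + δ / 4) * L ≤ (1 + δ / 4) * LX := by gcongr
  have h8 : (1 + δ / 4) * LX < (1 + δ / 2) * LX := by gcongr; linarith
  linarith

/-- lower bound, numerical part -/
lemma lowB {δ c c' K h ε LX L u ℓ H VZ VW : ℝ} {j U0 : ℕ} (hδ : 0 < δ) (hδ1 : δ ≤ 1 / 4)
    (hh : h = δ / 8) (hε : ε = δ / 16) (hc : 0 < c) (hc' : c' = h * c / 10560)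
    (hKc : 2 / c' ≤ K) (hu : u = LX ^ 2 / H) (hℓ : ℓ = Real.log u) (huK : u ≤ LX / K)
    (hℓ5 : 5 ≤ ℓ) (hℓL : ℓ ≤ Real.log LX) (s1 : 6 * Real.log LX ^ 2 ≤ LX)
    (s2 : 3 ≤ Real.log LX) (s3 : Real.sqrt LX ≤ c' * (LX / Real.log LX))
    (s4 : 2 / δ ≤ LX / Real.log LX) (s6 : 50 * Real.log LX / c * 4 ≤ LX) (hH0 : 0 < H)
    (hLX0 : 0 < LX) (hLd : L = j * Real.log 2) (hL0 : 0 < L) (hL1 : L ≤ LX) (hL2 : LX ≤ (1 + ε) * L)
    (hj1 : 0.69 * (j : ℝ) ≤ LX) (hj2 : LX ≤ j) (hU1 : (1 - ε) * H ≤ U0)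
    (hU3 : (U0 : ℝ) ≤ (1 + ε) * H) (hUL : LX ≤ U0) (v1 : 1 - ε ≤ VZ * L) (v2 : VZ * L ≤ 1 + ε)
    (hVZ : 0 < VZ) (hVW : 0 < VW) (hcW : c ≤ VW * (40 * Real.log j)) :
    ∃ n b : ℕ, (n : ℝ) ≤ U0 * VW / 2 ∧ Adm (δ / 4) 1 h (VZ / VW) j n b ∧ (b : ℝ) ≤ LX ∧
      (1 - 2 * δ) * LX / ℓ ≤ (1 - h) * b := by
  have hj0 : (0 : ℝ) < j := hLX0.trans_le hj2
  have hh0 : 0 < h := by rw [hh]; positivity
  have hε0 : 0 < ε := by rw [hε]; positivity
  have hε1 : ε ≤ 1 / 64 := by rw [hε]; linarith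
  have hc'0 : 0 < c' := by rw [hc']; positivity
  have hK0 : 0 < K := lt_of_lt_of_le (by positivity) hKc
  have hu0 : 0 < u := by rw [hu]; positivity
  have hlLX : 0 < Real.log LX := by linarith
  have huexp : u = Real.exp ℓ := by rw [hℓ, Real.exp_log hu0]
  have hℓ0 : 0 < ℓ := by linarith
  have hHu : H = LX ^ 2 / u := by rw [hu]; field_simp
  have huℓ : 3 * ℓ ≤ u := by
    have := Real.quadratic_le_exp_of_nonneg hℓ0.le
    rw [huexp]; nlinarith
  -- `log j`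
  have hlj : Real.log j ≤ 23 / 20 * Real.log LX := by
    have h1 : (j : ℝ) ≤ LX * 1.5 := by linarith
    have h2 : Real.log j ≤ Real.log (LX * 1.5) := Real.log_le_log hj0 h1
    rw [Real.log_mul hLX0.ne' (by norm_num)] at h2
    have h3 : Real.log (1.5 : ℝ) ≤ 0.41 := by
      rw [Real.log_le_iff_le_exp (by norm_num)]
      have := Real.quadratic_le_exp_of_nonneg (show (0 : ℝ) ≤ 0.41 by norm_num)
      have h4 : (1.5 : ℝ) ≤ Real.exp 0.41 := by
        have h5 := Real.sum_le_exp_of_nonneg (show (0 : ℝ) ≤ 0.41 by norm_num) 4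
        norm_num [Finset.sum_range_succ, Nat.factorial] at h5
        linarith
      exact h4
    linarith
  have hVWl : c ≤ VW * (46 * Real.log LX) := by
    calc c ≤ VW * (40 * Real.log j) := hcW
      _ ≤ VW * (40 * (23 / 20 * Real.log LX)) := by gcongr
      _ = VW * (46 * Real.log LX) := by ring
  have hUV4 : 4 ≤ U0 * VW := by
    have h1 : 50 * Real.log LX * 4 ≤ LX * c := by
      have h2 : 50 * Real.log LX / c * 4 = (50 * Real.log LX * 4) / c := by ring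
      rw [h2, div_le_iff₀ hc] at s6
      exact s6
    have h2 : 50 * Real.log LX * 4 ≤ U0 * VW * (46 * Real.log LX) := by
      calc 50 * Real.log LX * 4 ≤ LX * c := h1
        _ ≤ U0 * (VW * (46 * Real.log LX)) := by gcongr
        _ = U0 * VW * (46 * Real.log LX) := by ring
    by_contra hneg
    have hneg := not_le.1 hneg
    have h3 : U0 * VW * (46 * Real.log LX) < 4 * (46 * Real.log LX) := by gcongr
    linarith
  set n := ⌊U0 * VW / 2⌋₊ with hn
  set b := ⌊(1 - δ) * LX / ℓ⌋₊ with hb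
  have hn1 : (n : ℝ) ≤ U0 * VW / 2 := Nat.floor_le (by positivity)
  have hn2 : U0 * VW / 4 ≤ n := by
    have := Nat.lt_floor_add_one (U0 * VW / 2)
    linarith
  have hn0 : (0 : ℝ) < n := by linarith
  have hb1 : (b : ℝ) ≤ (1 - δ) * LX / ℓ := Nat.floor_le (div_nonneg (mul_nonneg (by linarith)
    hLX0.le) hℓ0.le)
  have hLℓ : 2 / δ ≤ LX / ℓ := by
    refine s4.trans ?_
    gcongr
  have hLℓ8 : 8 ≤ LX / ℓ := by
    refine le_trans ?_ hLℓ
    rw [le_div_iff₀ hδ]; linarith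
  have hLℓ1 : 1 ≤ δ / 2 * (LX / ℓ) := by
    rw [div_le_iff₀ hδ] at hLℓ
    linarith
  have hb2 : (1 - 3 / 2 * δ) * (LX / ℓ) ≤ b := by
    have h1 := Nat.lt_floor_add_one ((1 - δ) * LX / ℓ)
    have h2 : (1 - δ) * LX / ℓ = (1 - δ) * (LX / ℓ) := by ring
    rw [← hb, h2] at h1
    linarith
  have hb3 : 1 / 2 * (LX / ℓ) ≤ b := by
    refine le_trans ?_ hb2
    gcongr
    linarith
  have hb0 : (0 : ℝ) < b := by linarith
  have hbℓ : b * ℓ ≤ (1 - δ) * LX := by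
    rw [le_div_iff₀ hℓ0] at hb1; exact hb1
  -- `y`
  set ρ := VZ / VW with hρ
  have hρ0 : 0 < ρ := by rw [hρ]; positivity
  have hy1 : LX / (5 * u) ≤ ρ * n := by
    have h1 : ρ * (U0 * VW / 4) ≤ ρ * n := by gcongr
    have h2 : ρ * (U0 * VW / 4) = U0 * VZ / 4 := by rw [hρ]; field_simp
    have h3 : (1 - ε) / LX ≤ VZ := by
      rw [div_le_iff₀ hLX0]
      calc 1 - ε ≤ VZ * L := v1
        _ ≤ VZ * LX := by gcongr
    have h0 : (0 : ℝ) ≤ 1 - ε := by linarith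
    have h4 : ((1 - ε) * H) * ((1 - ε) / LX) / 4 ≤ U0 * VZ / 4 := by gcongr
    have h5 : ((1 - ε) * H) * ((1 - ε) / LX) / 4 = (1 - ε) * (1 - ε) / 4 * (LX / u) := by
      rw [hHu]; field_simp
    have h6 : (1 / 5 : ℝ) ≤ (1 - ε) * (1 - ε) / 4 := by nlinarith
    have h7 : LX / (5 * u) = 1 / 5 * (LX / u) := by field_simp
    rw [h7]
    calc 1 / 5 * (LX / u) ≤ (1 - ε) * (1 - ε) / 4 * (LX / u) := by gcongr
      _ ≤ U0 * VZ / 4 := by rw [← h5]; exact h4
      _ ≤ ρ * n := by rw [← h2]; exact h1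
  have hy2 : ρ * n ≤ 3 / 5 * (LX / u) := by
    have h1 : ρ * n ≤ ρ * (U0 * VW / 2) := by gcongr
    have h2 : ρ * (U0 * VW / 2) = U0 * VZ / 2 := by rw [hρ]; field_simp
    have h3 : VZ ≤ (1 + ε) * (1 + ε) / LX := by
      rw [le_div_iff₀ hLX0]
      calc VZ * LX ≤ VZ * ((1 + ε) * L) := by gcongr
        _ = (1 + ε) * (VZ * L) := by ring
        _ ≤ (1 + ε) * (1 + ε) := by gcongr
    have h4 : U0 * VZ / 2 ≤ ((1 + ε) * H) * ((1 + ε) * (1 + ε) / LX) / 2 := by gcongr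
    have h5 : ((1 + ε) * H) * ((1 + ε) * (1 + ε) / LX) / 2 =
        (1 + ε) * (1 + ε) * (1 + ε) / 2 * (LX / u) := by
      rw [hHu]; field_simp
    have h6 : (1 + ε) * (1 + ε) * (1 + ε) / 2 ≤ 3 / 5 := by
      have := cube_le hε0 (by linarith)
      linarith
    calc ρ * n ≤ U0 * VZ / 2 := by rw [← h2]; exact h1
      _ ≤ (1 + ε) * (1 + ε) * (1 + ε) / 2 * (LX / u) := by rw [← h5]; exact h4
      _ ≤ 3 / 5 * (LX / u) := by gcongr
  have hy0 : 0 < ρ * n := by positivity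
  have hyb : ρ * n ≤ b := by
    refine hy2.trans (le_trans ?_ hb3)
    have h1 : LX / u ≤ LX / (3 * ℓ) := by gcongr
    have h2 : LX / (3 * ℓ) = 1 / 3 * (LX / ℓ) := by field_simp
    rw [h2] at h1
    have : 0 < LX / ℓ := by positivity
    linarith
  have hlog0 : 0 ≤ Real.log (b / (ρ * n)) := Real.log_nonneg (by rw [le_div_iff₀ hy0]; linarith)
  have hlog1 : Real.log (b / (ρ * n)) ≤ ℓ := by
    rw [Real.log_le_iff_le_exp (by positivity), ← huexp, div_le_iff₀ hy0]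
    calc (b : ℝ) ≤ (1 - δ) * LX / ℓ := hb1
      _ ≤ LX / ℓ := by gcongr; nlinarith
      _ ≤ LX / 5 := by gcongr
      _ = u * (LX / (5 * u)) := by field_simp
      _ ≤ u * (ρ * n) := by gcongr
  -- `b ≤ h n / 48`
  have hbn : (b : ℝ) ≤ h / 48 * n := by
    have huc : u / ℓ ≤ c' * (LX / Real.log LX) := by
      rcases le_or_gt u (Real.sqrt LX) with hcase | hcase
      · refine le_trans ?_ s3
        refine (div_le_self hu0.le (by linarith)).trans hcase
      · have h1 : 1 / 2 * Real.log LX ≤ ℓ := by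
          have h2 : Real.log (Real.sqrt LX) ≤ Real.log u := Real.log_le_log (by positivity) hcase.le
          rw [Real.log_sqrt hLX0.le] at h2
          rw [hℓ]; linarith
        have h3 : 2 ≤ K * c' := by
          rw [div_le_iff₀ hc'0] at hKc; exact hKc
        calc u / ℓ ≤ (LX / K) / (1 / 2 * Real.log LX) := by gcongr
          _ = 2 / K * (LX / Real.log LX) := by field_simp
          _ ≤ c' * (LX / Real.log LX) := by
              gcongr
              rw [div_le_iff₀ hK0]; linarith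
    have h1 : LX / ℓ ≤ h * c / 10560 * (H / Real.log LX) := by
      have h2 : LX / ℓ = (LX / u) * (u / ℓ) := by field_simp
      have h3 : (LX / u) * (c' * (LX / Real.log LX)) = c' * (H / Real.log LX) := by
        rw [hHu]; field_simp
      calc LX / ℓ = (LX / u) * (u / ℓ) := h2
        _ ≤ (LX / u) * (c' * (LX / Real.log LX)) := by gcongr
        _ = h * c / 10560 * (H / Real.log LX) := by rw [h3, hc']
    have h4 : h / 48 * (63 / 64 * H * (c / (46 * Real.log LX)) / 4) ≤ h / 48 * n := by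
      have h5 : c / (46 * Real.log LX) ≤ VW := by
        rw [div_le_iff₀ (by positivity)]; exact hVWl
      have h6 : 63 / 64 * H ≤ U0 := by
        refine le_trans ?_ hU1
        gcongr
        linarith
      have h7 : 63 / 64 * H * (c / (46 * Real.log LX)) / 4 ≤ U0 * VW / 4 := by gcongr
      gcongr
      exact h7.trans hn2
    refine le_trans ?_ h4
    have h8 : (b : ℝ) ≤ LX / ℓ := by
      refine hb1.trans ?_
      gcongr; nlinarith
    refine h8.trans (h1.trans ?_)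
    have h9 : h / 48 * (63 / 64 * H * (c / (46 * Real.log LX)) / 4) =
        h * c * (63 / (64 * 48 * 46 * 4)) * (H / Real.log LX) := by
      field_simp
    rw [h9]
    have h10 : 0 < h * c := by positivity
    have h11 : h * c / 10560 ≤ h * c * (63 / (64 * 48 * 46 * 4)) := by
      rw [div_eq_mul_inv]
      gcongr
      norm_num
    gcongr
  refine ⟨n, b, hn1, ⟨?_, ?_, ?_, hbn, ?_⟩, ?_, ?_⟩
  · -- b1
    have h1 : LX / (2 * Real.log LX) ≤ b := by
      refine le_trans ?_ hb3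
      have : LX / (2 * Real.log LX) = 1 / 2 * (LX / Real.log LX) := by field_simp
      rw [this]
      gcongr
    have h2 : (LX / (2 * Real.log LX)) ^ 2 ≤ (b : ℝ) ^ 2 := by gcongr
    refine le_trans ?_ h2
    rw [div_pow, le_div_iff₀ (by positivity)]
    have h3 : (j : ℝ) ≤ 1.5 * LX := by linarith
    calc (j : ℝ) * (2 * Real.log LX) ^ 2 = 4 * j * Real.log LX ^ 2 := by ring
      _ ≤ 4 * (1.5 * LX) * Real.log LX ^ 2 := by gcongr
      _ = LX * (6 * Real.log LX ^ 2) := by ring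
      _ ≤ LX * LX := by gcongr
      _ = LX ^ 2 := by ring
  · -- bj
    have h1 : (b : ℝ) ≤ LX / ℓ := by
      refine hb1.trans ?_
      gcongr; nlinarith
    have h2 : LX / ℓ ≤ LX := div_le_self hLX0.le (by linarith)
    linarith
  · -- nj
    have h1 : LX / u ≤ LX := div_le_self hLX0.le (by nlinarith)
    have h2 : 0 < LX / u := by positivity
    linarith
  · -- rt
    rw [abs_of_nonneg hlog0]
    have h1 : rate b (ρ * n) ≤ b * ℓ := by
      unfold rate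
      have h2 : b * Real.log (b / (ρ * n)) ≤ b * ℓ := by gcongr
      linarith
    have h3 : h * b * Real.log (b / (ρ * n)) ≤ h * (b * ℓ) := by
      calc h * b * Real.log (b / (ρ * n)) ≤ h * b * ℓ := by gcongr
        _ = _ := by ring
    have h4 : 2 * (b - ρ * n) ^ 2 / n ≤ h / 24 * (b * ℓ) := by
      have h5 : (b - ρ * n) ^ 2 ≤ (b : ℝ) ^ 2 := by
        have : 0 ≤ (b : ℝ) - ρ * n := by linarith
        have : (b : ℝ) - ρ * n ≤ b := by linarith
        gcongr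
      rw [div_le_iff₀ hn0]
      calc 2 * ((b : ℝ) - ρ * n) ^ 2 ≤ 2 * (b : ℝ) ^ 2 := by linarith
        _ = 2 * (b : ℝ) * (b : ℝ) := by ring
        _ ≤ 2 * (b : ℝ) * (h / 48 * n) := by gcongr
        _ = h / 24 * ((b : ℝ) * 1) * n := by ring
        _ ≤ h / 24 * ((b : ℝ) * ℓ) * n := by gcongr; linarith
    have h6 : rate b (ρ * n) + h * b * Real.log (b / (ρ * n)) + 2 * (b - ρ * n) ^ 2 / n ≤
        (1 + 25 / 24 * h) * ((1 - δ) * LX) := by
      calc rate b (ρ * n) + h * b * Real.log (b / (ρ * n)) + 2 * (b - ρ * n) ^ 2 / n ≤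
          b * ℓ + h * (b * ℓ) + h / 24 * (b * ℓ) := by linarith
        _ = (1 + 25 / 24 * h) * (b * ℓ) := by ring
        _ ≤ (1 + 25 / 24 * h) * ((1 - δ) * LX) := by gcongr
    refine h6.trans ?_
    rw [← hLd]
    have h7 : (1 + 25 / 24 * h) * ((1 - δ) * LX) ≤
        (1 + 25 / 24 * h) * ((1 - δ) * ((1 + ε) * L)) := by
      have : 0 ≤ 1 - δ := by linarith
      gcongr
    refine h7.trans ?_
    have h8 : (1 + 25 / 24 * h) * ((1 - δ) * ((1 + ε) * L)) =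
        ((1 + 25 / 24 * h) * (1 + ε) * (1 - δ)) * L := by ring
    rw [h8]
    gcongr
    rw [hh, hε]
    nlinarith [mul_pos hδ hδ, mul_pos (mul_pos hδ hδ) hδ]
  · refine hb1.trans (le_trans ?_ (div_le_self hLX0.le (show (1 : ℝ) ≤ ℓ by linarith)))
    gcongr
    nlinarith
  · have h1 : (1 - 2 * δ) * LX / ℓ = (1 - 2 * δ) * (LX / ℓ) := by ring
    rw [h1]
    have h2 : (1 - h) * ((1 - 3 / 2 * δ) * (LX / ℓ)) ≤ (1 - h) * b := by
      have : 0 ≤ 1 - h := by rw [hh]; linarith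
      gcongr
    refine le_trans ?_ h2
    rw [← mul_assoc]
    gcongr
    rw [hh]
    nlinarith

/-- **Maximal number of elements below the critical scale.** -/
theorem lowMain (δ : ℝ) (hδ : 0 < δ) (hδ1 : δ ≤ 1 / 4) : ∃ K κ : ℝ, 1 ≤ K ∧ 0 < κ ∧ κ ≤ 1 ∧
    ∀ {Ω : Type} [MeasurableSpace Ω] (μ : Measure Ω)
    [IsProbabilityMeasure μ] (A : ℕ → Ω → ℕ), RandomClasses μ A → ∀ z : ℕ → ℕ,
    Monotone z → Tendsto (fun n : ℕ => V (z n) * Real.log n) atTop (𝓝 1) →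
    ∀ᵐ ω ∂μ, ∀ᶠ X : ℝ in atTop, ∀ H : ℝ, K * Real.log X ≤ H → H ≤ κ * Real.log X ^ 2 →
      (∀ x : ℝ, X ≤ x → x ≤ 2 * X → (count (RB z (fun p => A p ω)) x H : ℝ) ≤
        (1 + δ) * Real.log X / Real.log (Real.log X ^ 2 / H)) ∧
      (∃ x : ℝ, X ≤ x ∧ x ≤ 2 * X ∧
        (1 - 2 * δ) * Real.log X / Real.log (Real.log X ^ 2 / H) ≤
          (count (RB z (fun p => A p ω)) x H : ℝ)) := by
  obtain ⟨C, hC, hup⟩ := winB_up
  obtain ⟨c, _, hc, _, hVts⟩ := V_two_sided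
  -- the threshold for `ℓ`
  have hℓ0 : ∃ ℓ0 : ℝ, 5 ≤ ℓ0 ∧ ∀ ℓ : ℝ, ℓ0 ≤ ℓ → Real.log ℓ + Real.log (2 * C) + 1 ≤ δ / 4 * ℓ ∧
      2 * C * ℓ * Real.exp (-ℓ) ≤ 1 := by
    have h1 := (Real.isLittleO_log_id_atTop).bound (show (0 : ℝ) < δ / 8 by positivity)
    have h2 : Tendsto (fun ℓ : ℝ => δ / 8 * ℓ) atTop atTop :=
      tendsto_id.const_mul_atTop (by positivity)
    have h3 : Tendsto (fun ℓ : ℝ => 2 * C * (ℓ ^ 1 * Real.exp (-ℓ))) atTop (𝓝 (2 * C * 0)) :=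
      (Real.tendsto_pow_mul_exp_neg_atTop_nhds_zero 1).const_mul _
    rw [mul_zero] at h3
    obtain ⟨ℓ0, hℓ0⟩ := eventually_atTop.1 (h1.and ((h2.eventually_ge_atTop
      (Real.log (2 * C) + 1)).and (h3.eventually (gt_mem_nhds one_pos))))
    refine ⟨max ℓ0 5, le_max_right _ _, fun ℓ hℓ => ?_⟩
    obtain ⟨g1, g2, g3⟩ := hℓ0 ℓ ((le_max_left _ _).trans hℓ)
    have hℓ5 : 5 ≤ ℓ := (le_max_right _ _).trans hℓ
    simp only [id, Real.norm_eq_abs] at g1
    rw [abs_of_nonneg (show 0 ≤ ℓ by linarith)] at g1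
    have := le_abs_self (Real.log ℓ)
    refine ⟨by linarith, ?_⟩
    rw [pow_one] at g3
    linarith
  obtain ⟨ℓ0, hℓ05, hℓ0⟩ := hℓ0
  set h : ℝ := δ / 8 with hh
  set c' : ℝ := h * c / 10560 with hc'
  have hc'0 : 0 < c' := by positivity
  set K : ℝ := max 2 (2 / c') with hK
  have hK2 : 2 ≤ K := le_max_left _ _
  have hKc : 2 / c' ≤ K := le_max_right _ _
  set κ : ℝ := Real.exp (-ℓ0) with hκ
  have hκ0 : 0 < κ := Real.exp_pos _
  have hκ1 : κ ≤ 1 := by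
    rw [hκ]; exact Real.exp_le_one_iff.2 (by linarith)
  refine ⟨K, κ, by linarith, hκ0, hκ1, ?_⟩
  intro Ω _ μ _ A hA z hzm hz
  set ε : ℝ := δ / 16 with hε
  have hε0 : 0 < ε := by positivity
  have hε1 : ε ≤ 1 / 64 := by rw [hε]; linarith
  filter_upwards [blkOK 1 1 (δ / 4) 1 h ε 1 one_pos le_rfl one_pos (by positivity) (by linarith)
      le_rfl (by positivity) (by rw [hh]; linarith) hε0 one_pos μ A hA (fun j => z (2 ^ j))
      (V_pow_two z hz),
    blkOK 1 1 (δ / 4) 1 h ε 1 one_pos le_rfl one_pos (by positivity) (by linarith)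
      le_rfl (by positivity) (by rw [hh]; linarith) hε0 one_pos μ A hA
      (fun j => z (2 ^ (j + 3))) (V_pow_two_add z hz 3)] with ω h1 h2
  set a : ℕ → ℕ := fun p => A p ω with ha
  obtain ⟨J1, hJ1⟩ := eventually_atTop.1 h1
  obtain ⟨J2, hJ2⟩ := eventually_atTop.1 h2
  obtain ⟨J3, hJ3⟩ := eventually_atTop.1 hup
  obtain ⟨J4, hJ4⟩ := eventually_atTop.1 (winB_q (δ / 4) (by positivity) (by linarith))
  have hlog : Tendsto (fun X : ℝ => Real.log X) atTop atTop := Real.tendsto_log_atTop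
  have hXlog : ∀ᶠ X : ℝ in atTop, Real.log X ^ 2 ≤ X := by
    have := (isLittleO_log_rpow_atTop (show (0 : ℝ) < 1 / 2 by norm_num)).bound
      (show (0 : ℝ) < 1 by norm_num)
    filter_upwards [this, eventually_ge_atTop 1] with X hX hX1
    rw [Real.norm_of_nonneg (Real.log_nonneg hX1), Real.norm_of_nonneg (by positivity),
      ← Real.sqrt_eq_rpow, one_mul] at hX
    have hlX := Real.log_nonneg hX1
    have h3 : Real.log X ^ 2 ≤ (Real.sqrt X) ^ 2 := by gcongr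
    rwa [Real.sq_sqrt (by linarith)] at h3
  -- asymptotic inequalities in `L = log X`
  have hasy : ∀ᶠ L : ℝ in atTop, 6 * Real.log L ^ 2 ≤ L ∧ 3 ≤ Real.log L ∧
      Real.sqrt L ≤ c' * (L / Real.log L) ∧ 2 / δ ≤ L / Real.log L ∧
      4 * Real.log L ≤ L ∧ 50 * Real.log L / c * 4 ≤ L := by
    have h3 := (Real.isLittleO_pow_log_id_atTop (n := 2)).bound (show (0 : ℝ) < 1 / 6 by norm_num)
    have h4 := (isLittleO_log_rpow_atTop (show (0 : ℝ) < 1 / 2 by norm_num)).bound hc'0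
    have h5 := (Real.isLittleO_log_id_atTop).bound (show (0 : ℝ) < δ / 2 by positivity)
    have h6 := (Real.isLittleO_log_id_atTop).bound (show (0 : ℝ) < c / 200 by positivity)
    have h7 := (Real.isLittleO_log_id_atTop).bound (show (0 : ℝ) < 1 / 4 by positivity)
    filter_upwards [h3, h4, h5, h6, h7, hlog.eventually_ge_atTop 3, eventually_ge_atTop 1] with
      L g3 g4 g5 g6 g7 g8 g9
    have hL0 : 0 < Real.log L := by linarith
    have hLL : 0 < L := by linarith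
    simp only [id, Real.norm_eq_abs] at g3 g4 g5 g6 g7
    rw [abs_of_pos hL0, abs_of_pos hLL] at g5 g6 g7
    rw [abs_of_pos (by positivity), abs_of_pos hLL] at g3
    rw [abs_of_pos hL0, abs_of_pos (by positivity), ← Real.sqrt_eq_rpow] at g4
    refine ⟨by linarith, g8, ?_, ?_, by linarith, ?_⟩
    · rw [← mul_div_assoc, le_div_iff₀ hL0]
      have h10 : Real.sqrt L * Real.sqrt L = L := Real.mul_self_sqrt hLL.le
      calc Real.sqrt L * Real.log L ≤ Real.sqrt L * (c' * Real.sqrt L) := by gcongr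
        _ = c' * (Real.sqrt L * Real.sqrt L) := by ring
        _ = c' * L := by rw [h10]
    · rw [div_le_div_iff₀ hδ hL0]
      linarith
    · rw [div_mul_eq_mul_div, div_le_iff₀ hc]
      linarith
  filter_upwards [sc_ev ε hε0 (max (max J1 J2) (max J3 J4)), hXlog,
    hlog.eventually hasy, hlog.eventually_ge_atTop 1, eventually_ge_atTop 1] with
    X hX hXl hLas hlX hX1 H hH1 hH2
  set j := Nat.log 2 ⌊X⌋₊ with hj
  obtain ⟨hJj, hSC⟩ := hX
  set LX := Real.log X with hLX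
  obtain ⟨s1, s2, s3, s4, s5, s6⟩ := hLas
  have hLX0 : 0 < LX := by linarith
  have hHlog : LX ≤ H := by nlinarith
  have hs := hSC H hHlog
  have hH0 : 0 < H := by linarith [hs.H0]
  have hHX : H ≤ X := by
    refine hH2.trans (le_trans ?_ hXl)
    have : 0 ≤ LX ^ 2 := by positivity
    nlinarith
  have g1 := hJ1 j (by omega)
  have g2 := hJ2 j (by omega)
  have g3 := hJ3 j (by omega)
  have g4 := hJ4 j (by omega)
  set u := LX ^ 2 / H with hu
  have hu0 : 0 < u := by positivity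
  set ℓ := Real.log u with hℓ
  have huK : u ≤ LX / K := by
    rw [hu, div_le_div_iff₀ hH0 (by linarith)]
    nlinarith
  have huL : u ≤ LX := huK.trans (div_le_self hLX0.le (by linarith))
  have hℓL : ℓ ≤ Real.log LX := Real.log_le_log hu0 huL
  have hℓℓ0 : ℓ0 ≤ ℓ := by
    have h3 : Real.exp ℓ0 ≤ u := by
      rw [hu, le_div_iff₀ hH0]
      have h4 : Real.exp ℓ0 * κ = 1 := by rw [hκ, ← Real.exp_add]; simp
      calc Real.exp ℓ0 * H ≤ Real.exp ℓ0 * (κ * LX ^ 2) := by gcongr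
        _ = (Real.exp ℓ0 * κ) * LX ^ 2 := by ring
        _ = LX ^ 2 := by rw [h4, one_mul]
    rw [hℓ, Real.le_log_iff_exp_le hu0]
    exact h3
  obtain ⟨q1, q2⟩ := hℓ0 ℓ hℓℓ0
  have hℓ5 : 5 ≤ ℓ := hℓ05.trans hℓℓ0
  have hexpℓ : Real.exp (-ℓ) = H / LX ^ 2 := by
    rw [Real.exp_neg, hℓ, Real.exp_log hu0, hu, inv_div]
  have hjr : (16 : ℝ) ≤ j := by exact_mod_cast hs.j16
  have hl2a := Real.log_two_gt_d9
  have hl2b := Real.log_two_lt_d9
  have hlj1 := hs.l1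
  have hlj2 := hs.l2
  rw [← hLX] at hlj1 hlj2
  set L : ℝ := j * Real.log 2 with hL
  have hL0 : 0 < L := by positivity
  have hjLX : 0.69 * (j : ℝ) ≤ LX := by nlinarith
  have hLXj : LX ≤ (j : ℝ) := by
    have : LX ≤ (1 + 1 / 64) * (j * 0.6931471808) := by
      refine hlj2.trans ?_
      rw [hL]; gcongr
    linarith
  have hU1 := hs.u1
  have hU3 := hs.u3
  set U0 := ⌊H⌋₊ with hU0
  have hU0j : j ≤ U0 := by
    have : (j : ℝ) ≤ U0 := by
      refine le_trans ?_ hU1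
      have : (1 - 1 / 64) * (2 * LX) ≤ (1 - ε) * H := by
        have h0 : (0 : ℝ) ≤ 1 - ε := by linarith
        have h3 : 2 * LX ≤ H := by nlinarith
        have h4 : (1 - 1 / 64 : ℝ) ≤ 1 - ε := by linarith
        calc (1 - 1 / 64) * (2 * LX) ≤ (1 - ε) * (2 * LX) := by gcongr
          _ ≤ (1 - ε) * H := by gcongr
      linarith
    exact_mod_cast this
  have hU0j3 : U0 + 1 ≤ j ^ 3 := by
    have h3 : ((U0 + 1 : ℕ) : ℝ) ≤ (j : ℝ) ^ 3 := by
      push_cast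
      calc (U0 : ℝ) + 1 ≤ (1 + ε) * H := hU3
        _ ≤ (1 + 1 / 64) * (1 * (j : ℝ) ^ 2) := by
            have : H ≤ 1 * (j : ℝ) ^ 2 := hH2.trans (by gcongr)
            gcongr
        _ ≤ j * (j : ℝ) ^ 2 := by nlinarith
        _ = (j : ℝ) ^ 3 := by ring
    exact_mod_cast h3
  have hVW := V_pos (Wj j)
  constructor
  · intro x hx1 hx2
    obtain ⟨w1, w2, _, w4⟩ := count_bounds hs z hzm a hHX x hx1 hx2
    refine w4.trans ?_
    set U' := ⌊x + H⌋₊ - ⌊x⌋₊ with hU'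
    set Z := z (2 ^ j) with hZ
    have hVZ := V_pos Z
    have hVZL := g1.v2
    have hU'3 : (U' : ℝ) ≤ (1 + ε) * H := by
      have : (U' : ℝ) ≤ U0 + 1 := by exact_mod_cast (by omega : U' ≤ U0 + 1)
      linarith
    have hρ0 : 0 < V Z / V (Wj j) := by positivity
    have hwin := g3 U' (by omega) a ⌊x⌋₊
    have hy' : V Z / V (Wj j) * (T1 a (Wj j) ⌊x⌋₊ U' : ℝ) ≤ 2 * C * (H / LX) := by
      calc V Z / V (Wj j) * (T1 a (Wj j) ⌊x⌋₊ U' : ℝ) ≤
          V Z / V (Wj j) * (C * (U' * V (Wj j))) := by gcongr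
        _ = C * (U' * V Z) := by field_simp
        _ ≤ C * (((1 + ε) * H) * ((1 + ε) / L)) := by
            have h3 : V Z ≤ (1 + ε) / L := by rw [le_div_iff₀ hL0]; exact hVZL
            gcongr
        _ = C * ((1 + ε) * (1 + ε)) * (H / L) := by ring
        _ ≤ C * ((1 + ε) * (1 + ε)) * ((1 + ε) * (H / LX)) := by
            have h3 : H / L ≤ (1 + ε) * (H / LX) := by
              rw [← mul_div_assoc, div_le_div_iff₀ hL0 hLX0]
              calc H * LX ≤ H * ((1 + ε) * L) := by gcongr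
                _ = (1 + ε) * H * L := by ring
            gcongr
        _ = (((1 + ε) * (1 + ε)) * (1 + ε)) * (C * (H / LX)) := by ring
        _ ≤ 2 * (C * (H / LX)) := by
            have h3 := cube_le hε0 (by linarith)
            have h4 : 0 ≤ C * (H / LX) := by positivity
            have h5 : (1 + ε) * (1 + ε) * (1 + ε) ≤ 2 := by linarith
            gcongr
        _ = 2 * C * (H / LX) := by ring
    have hHLX : H / LX = Real.exp (-ℓ) * LX := by
      rw [hexpℓ]; field_simp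
    refine lowA (y := V Z / V (Wj j) * (T1 a (Wj j) ⌊x⌋₊ U' : ℝ)) (y' := 2 * C * (H / LX))
      (LX := LX) (L := L) hδ hδ1 (by linarith) hLX0 hlj1 (by positivity) hy' (fun h0 => ?_) ?_ ?_
      (g1.st ⌊x⌋₊ w1 U' (by omega))
    · have h3 : (T1 a (Wj j) ⌊x⌋₊ U' : ℝ) = 0 := by
        rcases mul_eq_zero.1 h0 with h4 | h4
        · exact absurd h4 hρ0.ne'
        · exact h4
      have h5 : T1 a Z ⌊x⌋₊ U' ≤ T1 a (Wj j) ⌊x⌋₊ U' := T1_anti a g1.WZ _ _
      have h6 : T1 a (Wj j) ⌊x⌋₊ U' = 0 := by exact_mod_cast h3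
      have h7 : T1 a Z ⌊x⌋₊ U' = 0 := by omega
      rw [h7, Nat.cast_zero]
    · rw [hHLX, le_div_iff₀ (by linarith)]
      calc 2 * C * (Real.exp (-ℓ) * LX) * ℓ = (2 * C * ℓ * Real.exp (-ℓ)) * LX := by ring
        _ ≤ 1 * LX := by gcongr
        _ ≤ (1 + δ) * LX := by gcongr; linarith
    · have e1 : (1 + δ) * LX / ℓ / (2 * C * (H / LX)) = (1 + δ) * Real.exp ℓ / (ℓ * (2 * C)) := by
        rw [hHLX, Real.exp_neg]
        field_simp
      rw [e1, Real.log_div (by positivity) (by positivity), Real.log_mul (by positivity)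
        (Real.exp_pos _).ne', Real.log_exp, Real.log_mul (by positivity) (by positivity)]
      have h3 : 0 ≤ Real.log (1 + δ) := Real.log_nonneg (by linarith)
      linarith
  · -- existence
    set Z := z (2 ^ (j + 3)) with hZ
    have hVZ := V_pos Z
    have hVW1 := V_le_one (Wj j)
    have hcW : c ≤ V (Wj j) * (40 * Real.log j) := by
      have h3 := (hVts (Wj j) (by
        have := hs.j16
        have h5 : j ≤ Wj j := Nat.le_self_pow (by norm_num) j
        omega)).1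
      rw [log_Wj] at h3
      exact h3
    have hUL : LX ≤ U0 := hLXj.trans (by exact_mod_cast hU0j)
    obtain ⟨n, b, hn, hadm, hbL, hbb⟩ := lowB (K := K) (u := u) (H := H) (U0 := U0) (VZ := V Z)
      (VW := V (Wj j)) hδ hδ1 hh hε hc hc' hKc hu hℓ huK hℓ5 hℓL s1 s2 s3 s4 s6 hH0 hLX0 hL hL0
      hlj1 hlj2 hjLX hLXj hU1 (by linarith) hUL g2.v1 g2.v2 hVZ hVW hcW
    obtain ⟨k, hk5, hk⟩ := blk_in hs
    have hnU : n ≤ U0 := by
      have h3 : (n : ℝ) ≤ U0 := by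
        refine hn.trans ?_
        have : (U0 : ℝ) * V (Wj j) ≤ U0 * 1 := by gcongr
        have h4 : (0 : ℝ) ≤ U0 := Nat.cast_nonneg _
        linarith
      exact_mod_cast h3
    have hbU : b ≤ U0 := by
      have h3 : (b : ℝ) ≤ U0 := hbL.trans hUL
      exact_mod_cast h3
    have hQ := g4 U0 hU0j (by omega) k hk5 a n hn
    obtain ⟨m, hm, hmb⟩ := (g2.st2 k hk5 U0 (by omega) n hnU b hbU hadm).1 hQ
    obtain ⟨hm1, hm2⟩ := hk m hm
    refine ⟨m, hm1, hm2, ?_⟩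
    obtain ⟨_, _, w3, _⟩ := count_bounds hs z hzm a hHX m hm1 hm2
    have hU'0 : ⌊(m : ℝ) + H⌋₊ - ⌊(m : ℝ)⌋₊ = U0 := by
      rw [Nat.floor_natCast, add_comm, Nat.floor_add_natCast hH0.le, Nat.add_sub_cancel]
    rw [hU'0, Nat.floor_natCast] at w3
    exact hbb.trans (hmb.trans w3)

end Pool.Agent.H532.RM
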