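import Mathlib
import Pool.Agent.H532.RM.ThmA2

/-!
The semi-random sieve with `y_j = 2^{o(j)}`: all intervals of length at least `x ^ ε`.
-/

namespace Pool.Agent.H532.RM

open Finset MeasureTheory Function ProbabilityTheory Filter
open scoped ENNReal Topology

lemma W_small (y : ℕ → ℕ) (hy : Tendsto (fun j : ℕ => Real.log (y j) / j) atTop (𝓝 0))
    (K : ℕ) (ε : ℝ) (hε : 0 < ε) : ∀ᶠ x : ℝ in atTop,
    ((y (Nat.log 2 ⌊x⌋₊) : ℝ) + y (Nat.log 2 ⌊x⌋₊ + 1) + Real.log x) ^ K ≤ x ^ ε := by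
  set η : ℝ := ε / (4 * (K + 1)) with hη
  have hη0 : 0 < η := by positivity
  obtain ⟨I, hI⟩ := eventually_atTop.1 (hy.eventually (gt_mem_nhds hη0))
  have hyi : ∀ i, max I 1 ≤ i → (y i : ℝ) ≤ Real.exp (η * i) := by
    intro i hi
    have h1 := hI i ((le_max_left _ _).trans hi)
    have hi1 : 1 ≤ i := (le_max_right _ _).trans hi
    have hi0 : (0 : ℝ) < i := by exact_mod_cast hi1
    rw [div_lt_iff₀ hi0] at h1
    rcases Nat.eq_zero_or_pos (y i) with h0 | h0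
    · rw [h0]; simpa using (Real.exp_pos _).le
    · have h2 : (0 : ℝ) < y i := by exact_mod_cast h0
      rw [← Real.log_le_iff_le_exp h2]
      exact h1.le
  have ev1 : ∀ᶠ x : ℝ in atTop, (2 : ℝ) ^ (max I 1) + 1 ≤ x := eventually_ge_atTop _
  have ev2 : ∀ᶠ x : ℝ in atTop, 2 ≤ Real.log x :=
    Real.tendsto_log_atTop.eventually_ge_atTop _
  have ev3 : ∀ᶠ x : ℝ in atTop, Real.log x ≤ x ^ (2 * η) := by
    have := isLittleO_log_rpow_atTop (by positivity : 0 < 2 * η)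
    have h1 := this.bound (by norm_num : (0 : ℝ) < 1)
    filter_upwards [h1, eventually_ge_atTop 1] with x hx hx1
    rw [Real.norm_eq_abs, Real.norm_eq_abs, one_mul] at hx
    rw [abs_of_nonneg (Real.log_nonneg hx1), abs_of_nonneg (by positivity)] at hx
    exact hx
  have ev4 : ∀ᶠ x : ℝ in atTop, (3 : ℝ) ^ K ≤ x ^ (ε / 2) :=
    (tendsto_rpow_atTop (by positivity : 0 < ε / 2)).eventually_ge_atTop _
  filter_upwards [ev1, ev2, ev3, ev4, eventually_ge_atTop 1] with x hx1 hx2 hx3 hx4 hx5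
  set j := Nat.log 2 ⌊x⌋₊ with hj
  have hjmax : max I 1 ≤ j := by
    rw [hj]
    refine Nat.le_log_of_pow_le (by norm_num) ?_
    refine Nat.le_floor ?_
    push_cast
    linarith
  have hlog2 : 0 < Real.log 2 := Real.log_pos (by norm_num)
  have hjx : (j : ℝ) * Real.log 2 ≤ Real.log x := by
    rw [← Real.log_pow]
    refine Real.log_le_log (by positivity) ?_
    have h1 : 2 ^ j ≤ ⌊x⌋₊ := Nat.pow_log_le_self 2
      (Nat.floor_pos.2 hx5).ne'
    have h2 : ((2 ^ j : ℕ) : ℝ) ≤ ⌊x⌋₊ := by exact_mod_cast h1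
    push_cast at h2
    exact h2.trans (Nat.floor_le (by linarith))
  have hjx2 : (j : ℝ) + 1 ≤ 2 * Real.log x := by
    have h1 := Real.log_two_gt_d9
    nlinarith
  have hx0 : 0 < x := by linarith
  have hpow : Real.exp (η * (2 * Real.log x)) = x ^ (2 * η) := by
    rw [Real.rpow_def_of_pos hx0]; congr 1; ring
  have h1 : (y j : ℝ) ≤ x ^ (2 * η) := by
    refine (hyi j hjmax).trans ?_
    rw [← hpow]
    refine Real.exp_le_exp.2 ?_
    have : (j : ℝ) ≤ 2 * Real.log x := by linarith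
    gcongr
  have h2 : (y (j + 1) : ℝ) ≤ x ^ (2 * η) := by
    refine (hyi (j + 1) (by omega)).trans ?_
    rw [← hpow]
    refine Real.exp_le_exp.2 ?_
    push_cast
    gcongr
  have hxp : 0 ≤ x ^ (2 * η) := by positivity
  have h3 : (y j : ℝ) + y (j + 1) + Real.log x ≤ 3 * x ^ (2 * η) := by linarith
  have hlog0 : 0 ≤ Real.log x := by linarith
  calc ((y j : ℝ) + y (j + 1) + Real.log x) ^ K ≤ (3 * x ^ (2 * η)) ^ K := by gcongr
    _ = 3 ^ K * (x ^ (2 * η)) ^ K := by rw [mul_pow]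
    _ ≤ x ^ (ε / 2) * x ^ (ε / 2) := by
        have h4 : (x ^ (2 * η)) ^ K ≤ x ^ (ε / 2) := by
          rw [← Real.rpow_natCast, ← Real.rpow_mul hx0.le]
          refine Real.rpow_le_rpow_of_exponent_le hx5 ?_
          rw [hη]
          have hK0 : (0 : ℝ) ≤ K := by positivity
          have : 2 * (ε / (4 * (K + 1))) * K = (ε / 2) * (K / (K + 1)) := by
            field_simp; ring
          rw [this]
          have h5 : (K : ℝ) / (K + 1) ≤ 1 := by
            rw [div_le_one (by positivity)]; linarith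
          nlinarith
        gcongr
    _ = x ^ ε := by rw [← Real.rpow_add hx0]; congr 1; ring

theorem thmA_eps {Ω : Type} [MeasurableSpace Ω] (μ : Measure Ω) [IsProbabilityMeasure μ]
    (A : ℕ → Ω → ℕ) (hA : RandomClasses μ A) (z : ℕ → ℕ) (hzm : Monotone z)
    (hz : Tendsto (fun n : ℕ => V (z n) * Real.log n) atTop (𝓝 1)) (y : ℕ → ℕ)
    (b : ℕ → ℕ → ℕ) (hy : Tendsto (fun j : ℕ => Real.log (y j) / j) atTop (𝓝 0)) :
    ∀ᵐ ω ∂μ, ∀ ε : ℝ, 0 < ε → ∀ δ : ℝ, 0 < δ → ∀ᶠ x : ℝ in atTop, ∀ H : ℝ,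
      x ^ ε ≤ H → H ≤ x →
      |(count (RS z y b (fun p => A p ω)) x H : ℝ) * Real.log x / H - 1| ≤ δ := by
  have h1 : ∀ n : ℕ, ∀ᵐ ω ∂μ, ∀ ε : ℝ, 0 < ε → ∀ᶠ x : ℝ in atTop, ∀ H : ℝ,
      x ^ ε ≤ H → H ≤ x →
      |(count (RS z y b (fun p => A p ω)) x H : ℝ) * Real.log x / H - 1| ≤ 1 / (n + 1) := by
    intro n
    obtain ⟨K, hK⟩ := thmA (1 / (n + 1)) (by positivity)
    filter_upwards [hK μ A hA z hzm hz y b] with ω hω ε hε
    filter_upwards [hω, W_small y hy K ε hε] with x hx1 hx2 H hH hHx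
    exact hx1 H (hx2.trans hH) hHx
  rw [← ae_all_iff] at h1
  filter_upwards [h1] with ω hω ε hε δ hδ
  obtain ⟨n, hn⟩ := exists_nat_one_div_lt hδ
  filter_upwards [hω n ε hε] with x hx H hH hHx
  exact (hx H hH hHx).trans hn.le

end Pool.Agent.H532.RM
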