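import Mathlib
import Pool.Agent.H532.RM.Facts

/-!
The exact threshold for the uniform asymptotic law in the random sieve.
-/

namespace Pool.Agent.H532.RM

open Finset MeasureTheory Function ProbabilityTheory Filter
open scoped ENNReal Topology

lemma RS_zero (z : ℕ → ℕ) (b : ℕ → ℕ → ℕ) (a : ℕ → ℕ) : RS z (fun _ => 0) b a = RB z a := by
  ext n
  unfold RS RB
  simp only [Set.mem_ofPred_eq]
  constructor
  · intro h p hp hpz
    have := h p hp hpz
    unfold mix at this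
    rwa [if_neg (by have := hp.pos; omega)] at this
  · intro h p hp hpz
    unfold mix
    rw [if_neg (by have := hp.pos; omega)]
    exact h p hp hpz

/-- **The exact threshold.** -/
theorem threshold {Ω : Type} [MeasurableSpace Ω] (μ : Measure Ω) [IsProbabilityMeasure μ]
    (A : ℕ → Ω → ℕ) (hA : RandomClasses μ A) (z : ℕ → ℕ) (hzm : Monotone z)
    (hz : Tendsto (fun n : ℕ => V (z n) * Real.log n) atTop (𝓝 1)) :
    ∀ᵐ ω ∂μ, ∀ h : ℝ → ℝ, Monotone h → (∀ x, 0 < h x) →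
      ((∀ δ : ℝ, 0 < δ → ∀ᶠ x : ℝ in atTop, ∀ H : ℝ, h x ≤ H → H ≤ x →
        |FF (RB z (fun p => A p ω)) x H - 1| ≤ δ) ↔
      Tendsto (fun x : ℝ => Real.log (h x) / Real.log (Real.log x)) atTop atTop) := by
  have hA1 : ∀ n : ℕ, ∃ K : ℕ, ∀ᵐ ω ∂μ, ∀ᶠ x : ℝ in atTop, ∀ H : ℝ, Real.log x ^ K ≤ H →
      H ≤ x → |FF (RB z (fun p => A p ω)) x H - 1| ≤ 1 / ((n : ℝ) + 1) := by
    intro n
    obtain ⟨K, hK⟩ := thmA (1 / ((n : ℝ) + 1)) (by positivity)
    refine ⟨K, ?_⟩
    filter_upwards [hK μ A hA z hzm hz (fun _ => 0) (fun _ _ => 0)] with ω hω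
    filter_upwards [hω] with x hx H hH hHx
    have := hx H (by simpa using hH) hHx
    rw [RS_zero] at this
    exact this
  choose K hK using hA1
  have hB1 : ∀ n : ℕ, ∃ Λ : ℝ, 1 ≤ Λ ∧ ∀ᵐ ω ∂μ, ∀ᶠ X : ℝ in atTop, ∀ H : ℝ,
      Λ * Real.log X ^ 2 ≤ H → H ≤ X → ∃ x : ℝ, X ≤ x ∧ x ≤ 2 * X ∧
        rp ⌊H⌋₊ ⌊Real.log X⌋₊ - 1 / ((n : ℝ) + 1) ≤ FF (RB z (fun p => A p ω)) x H := by
    intro n
    obtain ⟨Λ, hΛ1, hΛ⟩ := thmB (1 / ((n : ℝ) + 1)) (by positivity)
    refine ⟨Λ, hΛ1, ?_⟩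
    filter_upwards [hΛ μ A hA z hzm hz] with ω hω
    filter_upwards [hω] with X hX H h1 h2
    exact (hX H h1 h2).2.1
  choose Λ hΛ1 hΛ using hB1
  have hK' := ae_all_iff.2 hK
  have hΛ' := ae_all_iff.2 hΛ
  filter_upwards [hK', hΛ'] with ω hω1 hω2 h hmono hpos
  have hloglog : Tendsto (fun x : ℝ => Real.log (Real.log x)) atTop atTop :=
    Real.tendsto_log_atTop.comp Real.tendsto_log_atTop
  constructor
  · intro hL
    by_contra hnot
    rw [tendsto_atTop] at hnot
    push Not at hnot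
    obtain ⟨b, hb⟩ := hnot
    set N : ℝ := max b 3 with hN
    have hN3 : 3 ≤ N := le_max_right _ _
    obtain ⟨c, hc0, hc1, hc⟩ := maier (N + 1)
    obtain ⟨n, hn⟩ := exists_nat_one_div_lt (show 0 < c / 4 by linarith)
    -- eventually statements
    have t1 : Tendsto (fun x0 : ℝ => x0 / 2) atTop atTop :=
      tendsto_id.atTop_div_const (by norm_num)
    have t2 : Tendsto (fun x0 : ℝ => ⌊Real.log (x0 / 2)⌋₊) atTop atTop :=
      (tendsto_nat_floor_atTop.comp Real.tendsto_log_atTop).comp t1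
    have e1 := t1.eventually (hω2 n)
    have e2 := t2.eventually hc
    have e3 := t1.eventually (eventually_forall_ge_atTop.2 (hL (c / 2) (by linarith)))
    have e4 : ∀ᶠ x0 : ℝ in atTop, Real.log x0 ^ N ≤ x0 / 2 := by
      have h1 := (isLittleO_log_rpow_rpow_atTop N (show (0 : ℝ) < 1 by norm_num)).bound
        (show (0 : ℝ) < 1 / 2 by norm_num)
      filter_upwards [h1, eventually_ge_atTop 1] with x hx hx1
      rw [Real.rpow_one, Real.norm_eq_abs, Real.norm_eq_abs,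
        abs_of_nonneg (by linarith : (0 : ℝ) ≤ x)] at hx
      have := le_abs_self (Real.log x ^ N)
      linarith
    have e5 : ∀ᶠ x0 : ℝ in atTop, max (Λ n) 2 ≤ Real.log (x0 / 2) :=
      (Real.tendsto_log_atTop.comp t1).eventually_ge_atTop _
    have e6 : ∀ᶠ x0 : ℝ in atTop, (2 : ℝ) ^ N ≤ ⌊Real.log (x0 / 2)⌋₊ :=
      (tendsto_natCast_atTop_atTop.comp t2).eventually_ge_atTop _
    have e7 := hloglog.eventually_gt_atTop 0
    have hall := ((((((e1.and e2).and e3).and e4).and e5).and e6).and e7).and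
      (eventually_ge_atTop (4 : ℝ))
    obtain ⟨x0, hx0, hx0'⟩ := (hb.and_eventually hall).exists
    obtain ⟨⟨⟨⟨⟨⟨⟨a1, a2⟩, a3⟩, a4⟩, a5⟩, a6⟩, a7⟩, a8⟩ := hx0'
    set X : ℝ := x0 / 2 with hX
    have hX2 : 2 * X = x0 := by rw [hX]; ring
    have hXp : 0 < X := by linarith
    set H : ℝ := Real.log x0 ^ N with hH
    have hΛX : Λ n ≤ Real.log X := (le_max_left _ _).trans a5
    have h2X : 2 ≤ Real.log X := (le_max_right _ _).trans a5
    have hlogle : Real.log X ≤ Real.log x0 := Real.log_le_log hXp (by linarith)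
    have hlogx0 : 1 ≤ Real.log x0 := by linarith
    have hH1 : Λ n * Real.log X ^ 2 ≤ H := by
      calc Λ n * Real.log X ^ 2 ≤ Real.log X * Real.log X ^ 2 := by gcongr
        _ = Real.log X ^ 3 := by ring
        _ ≤ Real.log x0 ^ 3 := by gcongr
        _ = Real.log x0 ^ (3 : ℝ) := by norm_cast
        _ ≤ H := Real.rpow_le_rpow_of_exponent_le hlogx0 hN3
    obtain ⟨x, hx1, hx2, hx3⟩ := a1 H hH1 a4
    have hH1' : 1 ≤ H := by
      have : (1 : ℝ) ≤ Real.log X ^ 2 := by nlinarith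
      have := hΛ1 n
      nlinarith
    have hζ := a2 ⌊H⌋₊ (Nat.floor_pos.2 hH1') (by
      refine (Nat.floor_le (by linarith)).trans ?_
      set ζ := ⌊Real.log X⌋₊ with hζdef
      have h3 : Real.log X < ζ + 1 := Nat.lt_floor_add_one _
      have h4 : Real.log x0 ≤ 2 * ζ := by
        have h5 : Real.log x0 = Real.log X + Real.log 2 := by
          rw [← hX2, Real.log_mul (by norm_num) hXp.ne']; ring
        have h6 := Real.log_two_lt_d9
        have h7 : (2 : ℝ) ≤ ζ := by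
          have : (2 : ℕ) ≤ ζ := Nat.le_floor (by exact_mod_cast h2X)
          exact_mod_cast this
        linarith
      have hζ0 : (0 : ℝ) < ζ := by
        have : (0 : ℝ) < 2 ^ N := by positivity
        linarith
      calc H = Real.log x0 ^ N := rfl
        _ ≤ (2 * (ζ : ℝ)) ^ N := by gcongr
        _ = 2 ^ N * (ζ : ℝ) ^ N := by rw [Real.mul_rpow (by norm_num) hζ0.le]
        _ ≤ ζ * (ζ : ℝ) ^ N := by gcongr
        _ = (ζ : ℝ) ^ (N + 1) := by rw [Real.rpow_add hζ0, Real.rpow_one]; ring)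
    have hlh : Real.log (h x0) ≤ N * Real.log (Real.log x0) := by
      rw [div_lt_iff₀ a7] at hx0
      have : b ≤ N := le_max_left _ _
      nlinarith
    have hhx0 : h x0 ≤ H := by
      rw [hH, ← Real.log_le_log_iff (hpos x0) (by positivity),
        Real.log_rpow (by linarith)]
      exact hlh
    have hhx : h x ≤ H := (hmono (by linarith)).trans hhx0
    have h10 := a3 x hx1 H hhx (a4.trans hx1)
    have h11 := (abs_le.1 h10).2
    linarith [hζ.1]
  · intro hT δ hδ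
    obtain ⟨n, hn⟩ := exists_nat_one_div_lt hδ
    filter_upwards [hω1 n, hT.eventually_ge_atTop (K n), hloglog.eventually_gt_atTop 0,
      Real.tendsto_log_atTop.eventually_gt_atTop 1] with x h1 h2 h3 h4 H hH hHx
    refine (h1 H ?_ hHx).trans hn.le
    refine le_trans ?_ hH
    rw [le_div_iff₀ h3] at h2
    rw [← Real.log_le_log_iff (by positivity) (hpos x), Real.log_pow]
    exact h2

end Pool.Agent.H532.RM
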